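import Pool.Agent.Lib.MP_31701c_co.Defs

/-!
# RR-Basic : elementary facts on `vv`, `hm`, `xm`, `Sn`, `HN`

Positivity and monotonicity: induction on `m` along the recursion of `vv`.
`∑_{k ≤ m} vv e m k ≤ (2+e)^m` (for `0 ≤ e ≤ 1`; `vv e m k = 0` for `k > m`), hence
`vv e m k ≤ 3^m`. Continuity in `e`: induction. `hm e (m+1) = (1-e²) vv e m 1 = (1-e²) xm e (m+1)`.
Parity at `e = 0`: `vv 0 m k = 0` when `m + k` is odd.
-/

set_option autoImplicit false

namespace RR

open Polynomial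

private theorem vv_z_z (e : ℝ) : vv e 0 0 = 1 := by
  unfold vv
  rfl

private theorem vv_z_s (e : ℝ) (k : ℕ) : vv e 0 (k + 1) = 0 := by
  unfold vv
  rfl

private theorem vv_s_z (e : ℝ) (m : ℕ) : vv e (m + 1) 0 = (1 - e ^ 2) * vv e m 1 := by
  rw [vv]

private theorem vv_s_s (e : ℝ) (m k : ℕ) :
    vv e (m + 1) (k + 1) = vv e m k + e * vv e m (k + 1) + vv e m (k + 2) := by
  rw [vv]

theorem vv_nonneg {e : ℝ} (h0 : 0 ≤ e) (h1 : e ≤ 1) (m k : ℕ) : 0 ≤ vv e m k := by
  have he : 0 ≤ 1 - e ^ 2 := by nlinarith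
  induction m generalizing k with
  | zero =>
    cases k with
    | zero => rw [vv_z_z]; norm_num
    | succ k => rw [vv_z_s]
  | succ m ih =>
    cases k with
    | zero => rw [vv_s_z]; exact mul_nonneg he (ih 1)
    | succ k =>
      rw [vv_s_s]
      have a := ih k
      have b := mul_nonneg h0 (ih (k + 1))
      have c := ih (k + 2)
      linarith

theorem vv_eq_zero (e : ℝ) {m k : ℕ} (h : m < k) : vv e m k = 0 := by
  induction m generalizing k with
  | zero =>
    obtain ⟨j, rfl⟩ : ∃ j, k = j + 1 := ⟨k - 1, by omega⟩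
    exact vv_z_s e j
  | succ m ih =>
    obtain ⟨j, rfl⟩ : ∃ j, k = j + 1 := ⟨k - 1, by omega⟩
    rw [vv_s_s, ih (by omega), ih (by omega), ih (by omega)]
    ring

private theorem vv_sum_le {e : ℝ} (h0 : 0 ≤ e) (h1 : e ≤ 1) (m K : ℕ) :
    ∑ k ∈ Finset.range K, vv e m k ≤ (2 + e) ^ m := by
  induction m generalizing K with
  | zero =>
    cases K with
    | zero => simp
    | succ K =>
      rw [Finset.sum_range_succ']
      simp only [vv_z_s, vv_z_z, Finset.sum_const_zero]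
      norm_num
  | succ m ih =>
    cases K with
    | zero =>
      simp only [Finset.range_zero, Finset.sum_empty]
      positivity
    | succ K =>
      rw [Finset.sum_range_succ']
      simp only [vv_s_s, vv_s_z]
      rw [Finset.sum_add_distrib, Finset.sum_add_distrib, ← Finset.mul_sum]
      have a := ih K
      have b := ih (K + 1)
      have c := ih (K + 2)
      rw [Finset.sum_range_succ'] at b
      rw [Finset.sum_range_succ', Finset.sum_range_succ'] at c
      simp only [zero_add] at b c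
      have v0 := vv_nonneg h0 h1 m 0
      have v1 := vv_nonneg h0 h1 m 1
      have hb : e * (∑ i ∈ Finset.range K, vv e m (i + 1) + vv e m 0) ≤ e * (2 + e) ^ m :=
        mul_le_mul_of_nonneg_left b h0
      have e1 : 0 ≤ e ^ 2 * vv e m 1 := mul_nonneg (by positivity) v1
      have e2 : 0 ≤ e * vv e m 0 := mul_nonneg h0 v0
      have c' : ∑ i ∈ Finset.range K, vv e m (i + 2) + vv e m 1 + vv e m 0 ≤ (2 + e) ^ m := by
        simpa [add_assoc] using c
      have e3 : (2 + e) ^ (m + 1) = 2 * (2 + e) ^ m + e * (2 + e) ^ m := by ring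
      have e4 : (1 - e ^ 2) * vv e m 1 = vv e m 1 - e ^ 2 * vv e m 1 := by ring
      rw [e3, e4]
      have hb' : e * ∑ i ∈ Finset.range K, vv e m (i + 1) + e * vv e m 0 ≤ e * (2 + e) ^ m := by
        rw [← mul_add]
        exact hb
      linarith

theorem vv_le {e : ℝ} (h0 : 0 ≤ e) (h1 : e ≤ 1) (m k : ℕ) : vv e m k ≤ (2 + e) ^ m := by
  refine le_trans ?_ (vv_sum_le h0 h1 m (k + 1))
  exact Finset.single_le_sum (f := fun k => vv e m k) (fun i _ => vv_nonneg h0 h1 m i)
    (Finset.self_mem_range_succ k)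

theorem hm_zero (e : ℝ) : hm e 0 = 1 := vv_z_z e

theorem hm_one (e : ℝ) : hm e 1 = 0 := by
  unfold hm
  rw [vv_s_z, vv_z_s]
  ring

theorem xm_one (e : ℝ) : xm e 1 = 0 := by
  change vv e 0 1 = 0
  exact vv_z_s e 0

theorem xm_two (e : ℝ) : xm e 2 = 1 := by
  change vv e 1 1 = 1
  rw [vv_s_s, vv_z_z, vv_z_s, vv_z_s]
  ring

theorem hm_eq (e : ℝ) {m : ℕ} (h : 1 ≤ m) : hm e m = (1 - e ^ 2) * xm e m := by
  obtain ⟨j, rfl⟩ : ∃ j, m = j + 1 := ⟨m - 1, by omega⟩
  exact vv_s_z e j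

theorem hm_nonneg {e : ℝ} (h0 : 0 ≤ e) (h1 : e ≤ 1) (m : ℕ) : 0 ≤ hm e m :=
  vv_nonneg h0 h1 m 0

private theorem vv_le_three {e : ℝ} (h0 : 0 ≤ e) (h1 : e ≤ 1) (m k : ℕ) : vv e m k ≤ 3 ^ m :=
  le_trans (vv_le h0 h1 m k) (pow_le_pow_left₀ (by linarith) (by linarith) m)

theorem hm_le {e : ℝ} (h0 : 0 ≤ e) (h1 : e ≤ 1) (m : ℕ) : hm e m ≤ 3 ^ m :=
  vv_le_three h0 h1 m 0

theorem xm_nonneg {e : ℝ} (h0 : 0 ≤ e) (h1 : e ≤ 1) (m : ℕ) : 0 ≤ xm e m := by
  cases m with
  | zero => exact le_refl _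
  | succ m => exact vv_nonneg h0 h1 m 1

theorem xm_le {e : ℝ} (h0 : 0 ≤ e) (h1 : e ≤ 1) (m : ℕ) : xm e m ≤ 3 ^ m := by
  cases m with
  | zero =>
    change (0 : ℝ) ≤ 3 ^ 0
    norm_num
  | succ m =>
    refine le_trans (vv_le_three h0 h1 m 1) ?_
    exact pow_le_pow_right₀ (by norm_num) (by omega)

theorem continuous_vv (m k : ℕ) : Continuous fun e => vv e m k := by
  induction m generalizing k with
  | zero =>
    cases k with
    | zero => simp only [vv_z_z]; exact continuous_const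
    | succ k => simp only [vv_z_s]; exact continuous_const
  | succ m ih =>
    cases k with
    | zero =>
      simp only [vv_s_z]
      exact (continuous_const.sub (continuous_id.pow 2)).mul (ih 1)
    | succ k =>
      simp only [vv_s_s]
      exact ((ih k).add (continuous_id.mul (ih (k + 1)))).add (ih (k + 2))

theorem continuous_hm (m : ℕ) : Continuous fun e => hm e m := continuous_vv m 0

theorem continuous_Sn (n : ℕ) : Continuous fun e => Sn e n := by
  induction n using Nat.strong_induction_on with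
  | _ n ih =>
    have h : (fun e => Sn e n) = fun e => -(n * hm e n / (n.factorial : ℝ)) -
        ∑ j : Fin n, Sn e j * hm e (n - j) / ((n - (j : ℕ)).factorial : ℝ) := by
      funext e
      rw [Sn]
    rw [h]
    refine Continuous.sub ?_ ?_
    · exact ((continuous_const.mul (continuous_hm n)).div_const _).neg
    · refine continuous_finsetSum _ fun j _ => ?_
      exact ((ih j j.isLt).mul (continuous_hm _)).div_const _

private theorem vv_parity (m k : ℕ) (h : Odd (m + k)) : vv 0 m k = 0 := by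
  induction m generalizing k with
  | zero =>
    cases k with
    | zero => exact absurd h (by decide)
    | succ k => exact vv_z_s 0 k
  | succ m ih =>
    cases k with
    | zero =>
      rw [vv_s_z, ih 1 h]
      ring
    | succ k =>
      have h1 : Odd (m + k) := by
        rw [Nat.odd_iff] at h ⊢
        omega
      have h2 : Odd (m + (k + 2)) := by
        rw [Nat.odd_iff] at h ⊢
        omega
      rw [vv_s_s, ih k h1, ih (k + 2) h2]
      ring

theorem hm_zero_odd {m : ℕ} (h : Odd m) : hm 0 m = 0 := vv_parity m 0 h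

theorem HN_coeff (e : ℝ) (N m : ℕ) :
    (HN e N).coeff m = if m ≤ N then hm e m / (m.factorial : ℝ) else 0 := by
  unfold HN
  rw [Polynomial.finsetSum_coeff]
  simp only [Polynomial.coeff_C_mul_X_pow]
  rw [Finset.sum_ite_eq]
  simp only [Finset.mem_range, Nat.lt_succ_iff]

theorem HN_ne_zero (e : ℝ) (N : ℕ) : HN e N ≠ 0 := by
  intro h
  have h1 := HN_coeff e N 0
  rw [h, if_pos (Nat.zero_le N), hm_zero] at h1
  simp at h1

private theorem HN_eval_sum (e : ℝ) (N : ℕ) (x : ℝ) :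
    (HN e N).eval x = ∑ m ∈ Finset.range (N + 1), hm e m / (m.factorial : ℝ) * x ^ m := by
  unfold HN
  rw [Polynomial.eval_finsetSum]
  simp

private theorem xm_zero (e : ℝ) : xm e 0 = 0 := rfl

theorem HN_eval (e : ℝ) (N : ℕ) (x : ℝ) : (HN e N).eval x = 1 + (1 - e ^ 2) * FR e N x := by
  rw [HN_eval_sum]
  unfold FR
  rw [Finset.sum_range_succ', Finset.sum_range_succ', hm_zero, xm_zero, mul_add, Finset.mul_sum]
  have : ∀ m ∈ Finset.range N, hm e (m + 1) / ((m + 1).factorial : ℝ) * x ^ (m + 1) =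
      (1 - e ^ 2) * (xm e (m + 1) / ((m + 1).factorial : ℝ) * x ^ (m + 1)) := by
    intro m _
    rw [hm_eq e (Nat.succ_le_succ (Nat.zero_le m))]
    ring
  rw [Finset.sum_congr rfl this]
  simp
  ring

private theorem HN_aeval_sum (e : ℝ) (N : ℕ) (z : ℂ) :
    aeval z (HN e N) =
      ∑ m ∈ Finset.range (N + 1), ((hm e m / (m.factorial : ℝ) : ℝ) : ℂ) * z ^ m := by
  unfold HN
  rw [map_sum]
  simp [Polynomial.aeval_def]

theorem HN_aeval (e : ℝ) (N : ℕ) (z : ℂ) :
    aeval z (HN e N) = 1 + ((1 - e ^ 2 : ℝ) : ℂ) * FN e N z := by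
  rw [HN_aeval_sum]
  unfold FN
  rw [Finset.sum_range_succ', Finset.sum_range_succ', hm_zero, xm_zero, mul_add, Finset.mul_sum]
  have : ∀ m ∈ Finset.range N, ((hm e (m + 1) / ((m + 1).factorial : ℝ) : ℝ) : ℂ) * z ^ (m + 1) =
      ((1 - e ^ 2 : ℝ) : ℂ) *
        (((xm e (m + 1) / ((m + 1).factorial : ℝ) : ℝ) : ℂ) * z ^ (m + 1)) := by
    intro m _
    rw [hm_eq e (Nat.succ_le_succ (Nat.zero_le m)), mul_div_assoc, Complex.ofReal_mul]
    ring
  rw [Finset.sum_congr rfl this]
  simp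
  ring

theorem FN_ofReal (e : ℝ) (N : ℕ) (x : ℝ) : FN e N (x : ℂ) = (FR e N x : ℂ) := by
  unfold FN FR
  push_cast
  rfl

theorem gg_eq (e : ℝ) (N : ℕ) (x : ℝ) : gg e N x = (1 - e ^ 2) * FR e N x := by
  unfold gg
  rw [HN_eval]
  ring

theorem differentiable_FN (e : ℝ) (N : ℕ) : Differentiable ℂ (FN e N) := by
  have h : FN e N = fun z => ∑ m ∈ Finset.range (N + 1),
      ((xm e m / (m.factorial : ℝ) : ℝ) : ℂ) * z ^ m := rfl
  rw [h]
  refine Differentiable.fun_sum fun m _ => ?_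
  exact (differentiable_const _).mul (differentiable_id.pow m)

theorem continuous_gg (N : ℕ) : Continuous fun p : ℝ × ℝ => gg p.1 N p.2 := by
  have h : (fun p : ℝ × ℝ => gg p.1 N p.2) = fun p : ℝ × ℝ =>
      (∑ m ∈ Finset.range (N + 1), hm p.1 m / (m.factorial : ℝ) * p.2 ^ m) - 1 := by
    funext p
    unfold gg
    rw [HN_eval_sum]
  rw [h]
  refine Continuous.sub ?_ continuous_const
  refine continuous_finsetSum _ fun m _ => ?_
  exact (((continuous_hm m).comp continuous_fst).div_const _).mul (continuous_snd.pow m)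

/-- `gg e N` is strictly increasing on `[0, ∞)` for `0 ≤ e < 1`, `N ≥ 2`. -/
theorem gg_strictMonoOn {e : ℝ} (h0 : 0 ≤ e) (h1 : e < 1) {N : ℕ} (hN : 2 ≤ N) :
    StrictMonoOn (gg e N) (Set.Ici 0) := by
  intro x hx y hy hxy
  rw [gg_eq, gg_eq]
  have hx0 : 0 ≤ x := hx
  have he : 0 < 1 - e ^ 2 := by nlinarith
  refine mul_lt_mul_of_pos_left ?_ he
  unfold FR
  refine Finset.sum_lt_sum (fun m _ => ?_) ⟨2, ?_, ?_⟩
  · refine mul_le_mul_of_nonneg_left (pow_le_pow_left₀ hx0 hxy.le m) ?_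
    exact div_nonneg (xm_nonneg h0 h1.le m) (Nat.cast_nonneg _)
  · rw [Finset.mem_range]
    omega
  · rw [xm_two]
    refine mul_lt_mul_of_pos_left (pow_lt_pow_left₀ hxy hx0 (by norm_num)) ?_
    positivity

theorem gg_one (N : ℕ) (x : ℝ) : gg 1 N x = 0 := by
  rw [gg_eq]
  ring

/-- complex conjugation -/
theorem HN_conj (e : ℝ) (N : ℕ) (z : ℂ) :
    aeval ((starRingEnd ℂ) z) (HN e N) = (starRingEnd ℂ) (aeval z (HN e N)) := by
  rw [HN_aeval_sum, HN_aeval_sum, map_sum]
  refine Finset.sum_congr rfl fun m _ => ?_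
  rw [map_mul, map_pow, Complex.conj_ofReal]

/-- symmetry at `e = 0`: `H_N` is even. -/
theorem HN_zero_even (N : ℕ) (z : ℂ) : aeval (-z) (HN 0 N) = aeval z (HN 0 N) := by
  rw [HN_aeval_sum, HN_aeval_sum]
  refine Finset.sum_congr rfl fun m _ => ?_
  rcases Nat.even_or_odd m with h | h
  · rw [h.neg_pow]
  · rw [hm_zero_odd h]
    simp

end RR
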