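import Pool.Agent.Lib.MP_31701c_co.Defs

/-!
# RR-Bridge : from the numbers `phi` to `S_n`

Fix `0 < e < 1`, `x = 1 - 1/e²`, `s = 1 - x = 1/e²`, `β = 1 - e²` (so `-x = β/e²`).
Put `Aₙ = x * B_{n-1}` with `B_0 = 1`, `B_j = phi x 1 j` (`j ≥ 1`), `E_0 = 1`,
`E_{n+1} = - ∑_{j ≤ n} C(n,j) A_{j+1} E_{n-j}` and `p_k(n) = ∑_{j ≤ n} C(n,j) E_j phi x k (n-j)`.
Work with exponential generating functions in `PowerSeries ℝ` (or with binomial convolutions):
`E' = -F' E` with `F' = x B`, `B = 1 + φ_1` where `φ_k = ∑_n phi x k n t^n/n!`. The recursion of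
`phi` says `φ_k' = φ_{k-1} + φ_k + (1-x) φ_{k+1} + x φ_1 φ_k` for `k ≥ 1` (the term `j = 0` is
missing there), i.e. `φ_k' = φ_{k-1} + s φ_k + s φ_{k+1} + F' φ_k`; `φ_0 = 1`. Hence `p_k = E φ_k` satisfy
`p_k' = p_{k-1} + s p_k + s p_{k+1}` (`k ≥ 1`), `p_0' = -x p_0 - x p_1`.
Then `q_k(τ) = e^{-k} exp(-βτ/e) p_k(eτ)` satisfies `q_0' = β q_1`, `q_k' = q_{k-1} + e q_k + q_{k+1}`,
`q_k(0) = [k=0]`; so the `n`-th coefficient of `q_k` (times `n!`) is `vv e n k`. In particular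
`H(τ) := ∑ hm e m τ^m/m! = exp(-βτ/e) E(eτ)`, so `H' = (-β/e - e F'(eτ)) H`, i.e.
`-τH' = (∑_{n ≥ 1} σ_n τ^n) H` with `σ_1 = β/e + e x = 0` and `σ_n = e^n A_n/(n-1)!` for `n ≥ 2`.
`Sn` is the unique sequence with `Sn 0 = 0` and
`n hm_n/n! + ∑_{j<n} Sn_j hm_{n-j}/(n-j)! + Sn_n = 0`, so `Sn e n = σ_n`.
-/

set_option autoImplicit false

namespace RR

namespace BridgeAux

open PowerSeries Finset

/-- `Ψ_k(τ) = φ_k(eτ)`. -/
noncomputable def Psi (e x : ℝ) (k : ℕ) : PowerSeries ℝ :=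
  PowerSeries.mk fun n => e ^ n * phi x k n / (n.factorial : ℝ)

/-- `Q_k(τ) = ∑ vv e n k τ^n / n!`. -/
noncomputable def QS (e : ℝ) (k : ℕ) : PowerSeries ℝ :=
  PowerSeries.mk fun n => vv e n k / (n.factorial : ℝ)

theorem phi_zero_zero (x : ℝ) : phi x 0 0 = 1 := by
  rw [phi]

theorem phi_zero_succ (x : ℝ) (n : ℕ) : phi x 0 (n + 1) = 0 := by
  rw [phi]

theorem phi_succ_zero (x : ℝ) (k : ℕ) : phi x (k + 1) 0 = 0 := by
  rw [phi]

theorem phi_succ_succ (x : ℝ) (k n : ℕ) : phi x (k + 1) (n + 1) =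
    phi x k n + phi x (k + 1) n + (1 - x) * phi x (k + 2) n +
      x * ∑ j ∈ Finset.range (n + 1), (n.choose j : ℝ) * phi x 1 j * phi x (k + 1) (n - j) := by
  rw [phi, ← Fin.sum_univ_eq_sum_range
    (fun j => (n.choose j : ℝ) * phi x 1 j * phi x (k + 1) (n - j)) (n + 1)]
  congr 2
  apply Finset.sum_congr rfl
  intro j _
  split_ifs with h
  · rw [h, phi_succ_zero]
    simp
  · rfl

theorem Psi_zero (e x : ℝ) : Psi e x 0 = 1 := by
  ext n
  rw [Psi, coeff_mk]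
  cases n with
  | zero => simp [phi_zero_zero]
  | succ n => simp [phi_zero_succ, coeff_one]

theorem fact_ne (n : ℕ) : (n.factorial : ℝ) ≠ 0 := by
  exact_mod_cast n.factorial_ne_zero

theorem deriv_Psi (e x : ℝ) (k : ℕ) : d⁄dX ℝ (Psi e x (k + 1)) =
    C e * (Psi e x k + Psi e x (k + 1) + C (1 - x) * Psi e x (k + 2) +
      C x * (Psi e x 1 * Psi e x (k + 1))) := by
  ext n
  rw [coeff_derivative, coeff_C_mul, map_add, map_add, map_add, coeff_C_mul, coeff_C_mul,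
    coeff_mul, Finset.Nat.sum_antidiagonal_eq_sum_range_succ_mk]
  simp only [Psi, coeff_mk]
  rw [phi_succ_succ, Nat.factorial_succ]
  have h1 : ∑ j ∈ Finset.range (n + 1), e ^ j * phi x 1 j / (j.factorial : ℝ) *
      (e ^ (n - j) * phi x (k + 1) (n - j) / ((n - j).factorial : ℝ)) =
      e ^ n / (n.factorial : ℝ) * ∑ j ∈ Finset.range (n + 1),
        (n.choose j : ℝ) * phi x 1 j * phi x (k + 1) (n - j) := by
    rw [Finset.mul_sum]
    apply Finset.sum_congr rfl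
    intro j hj
    have hj' : j ≤ n := by
      have := Finset.mem_range.1 hj
      omega
    have h2 : (n.choose j : ℝ) = (n.factorial : ℝ) / ((j.factorial : ℝ) * ((n - j).factorial : ℝ)) :=
      Nat.cast_choose ℝ hj'
    have h3 : e ^ n = e ^ j * e ^ (n - j) := by
      rw [← pow_add]
      congr 1
      omega
    have a1 := fact_ne n
    have a2 := fact_ne j
    have a3 := fact_ne (n - j)
    rw [h2, h3]
    field_simp
  rw [h1]
  have a1 := fact_ne n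
  have a2 : ((n : ℝ) + 1) ≠ 0 := by positivity
  push_cast
  field_simp
  ring

theorem deriv_QS_zero (e : ℝ) : d⁄dX ℝ (QS e 0) = C (1 - e ^ 2) * QS e 1 := by
  ext n
  rw [coeff_derivative, coeff_C_mul]
  simp only [QS, coeff_mk]
  have h1 : vv e (n + 1) 0 = (1 - e ^ 2) * vv e n 1 := by rw [vv]
  rw [h1, Nat.factorial_succ]
  have a1 := fact_ne n
  have a2 : ((n : ℝ) + 1) ≠ 0 := by positivity
  push_cast
  field_simp

theorem deriv_QS_succ (e : ℝ) (k : ℕ) : d⁄dX ℝ (QS e (k + 1)) =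
    QS e k + C e * QS e (k + 1) + QS e (k + 2) := by
  ext n
  rw [coeff_derivative, map_add, map_add, coeff_C_mul]
  simp only [QS, coeff_mk]
  have h1 : vv e (n + 1) (k + 1) = vv e n k + e * vv e n (k + 1) + vv e n (k + 2) := by rw [vv]
  rw [h1, Nat.factorial_succ]
  have a1 := fact_ne n
  have a2 : ((n : ℝ) + 1) ≠ 0 := by positivity
  push_cast
  field_simp

/-- The difference `D_k = Q_k - e^{-k} Ψ_k Q_0`. -/
noncomputable def DD (e x : ℝ) (k : ℕ) : PowerSeries ℝ :=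
  QS e k - C ((e ^ k)⁻¹) * (Psi e x k * QS e 0)

theorem DD_zero (e x : ℝ) : DD e x 0 = 0 := by
  simp [DD, Psi_zero]

theorem DD_coeff_zero (e x : ℝ) (k : ℕ) : coeff 0 (DD e x k) = 0 := by
  cases k with
  | zero => rw [DD_zero, map_zero]
  | succ k =>
    have h1 : coeff 0 (Psi e x (k + 1)) = 0 := by
      simp [Psi, phi_succ_zero]
    have h2 : coeff 0 (QS e (k + 1)) = 0 := by
      simp [QS, vv]
    rw [DD, map_sub, coeff_C_mul, coeff_mul]
    simp [h1, h2]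

theorem deriv_DD {e x : ℝ} (he0 : 0 < e) (hx : x = 1 - (e ^ 2)⁻¹) (k : ℕ) :
    d⁄dX ℝ (DD e x (k + 1)) = DD e x k + C e * DD e x (k + 1) + DD e x (k + 2) -
      C ((1 - e ^ 2) * (e ^ (k + 1))⁻¹) * (Psi e x (k + 1) * DD e x 1) := by
  have he : e ≠ 0 := he0.ne'
  have hq1 : QS e 1 = DD e x 1 + C (e⁻¹) * (Psi e x 1 * QS e 0) := by
    rw [DD, pow_one]
    ring
  have c1 : C ((e ^ (k + 1))⁻¹) * C e = (C ((e ^ k)⁻¹) : PowerSeries ℝ) := by
    rw [← map_mul]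
    congr 1
    field_simp
    ring
  have c2 : C e * C ((e ^ (k + 1))⁻¹) * C (1 - x) =
      (C ((e ^ (k + 2))⁻¹) : PowerSeries ℝ) := by
    rw [← map_mul, ← map_mul]
    congr 1
    rw [hx]
    field_simp
    ring
  have c3 : C ((e ^ (k + 1))⁻¹) * C e * C x + C ((e ^ (k + 1))⁻¹) * C (1 - e ^ 2) * C (e⁻¹) =
      (0 : PowerSeries ℝ) := by
    rw [← map_mul, ← map_mul, ← map_mul, ← map_mul, ← map_add]
    have : (e ^ (k + 1))⁻¹ * e * x + (e ^ (k + 1))⁻¹ * (1 - e ^ 2) * e⁻¹ = 0 := by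
      rw [hx]
      field_simp
      ring
    rw [this, map_zero]
  have hD : DD e x (k + 1) = QS e (k + 1) - C ((e ^ (k + 1))⁻¹) * (Psi e x (k + 1) * QS e 0) := rfl
  have hdC : d⁄dX ℝ (C ((e ^ (k + 1))⁻¹) : PowerSeries ℝ) = 0 := derivative_C
  have hd : d⁄dX ℝ (DD e x (k + 1)) = d⁄dX ℝ (QS e (k + 1)) - C ((e ^ (k + 1))⁻¹) *
      (d⁄dX ℝ (Psi e x (k + 1)) * QS e 0 + Psi e x (k + 1) * d⁄dX ℝ (QS e 0)) := by
    rw [hD, map_sub, Derivation.leibniz, Derivation.leibniz, hdC]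
    simp only [smul_eq_mul, mul_zero, add_zero]
    ring
  have hk : DD e x k = QS e k - C ((e ^ k)⁻¹) * (Psi e x k * QS e 0) := rfl
  have hk2 : DD e x (k + 2) = QS e (k + 2) - C ((e ^ (k + 2))⁻¹) * (Psi e x (k + 2) * QS e 0) := rfl
  have hk1 : DD e x 1 = QS e 1 - C (e⁻¹) * (Psi e x 1 * QS e 0) := by
    rw [DD, pow_one]
  rw [hd, deriv_QS_succ, deriv_QS_zero, deriv_Psi, hk, hk2, hk1, hD,
    map_mul C (1 - e ^ 2) ((e ^ (k + 1))⁻¹)]
  linear_combination (-(Psi e x k * QS e 0)) * c1 + (-(Psi e x (k + 2) * QS e 0)) * c2 +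
    (-(Psi e x 1 * Psi e x (k + 1) * QS e 0)) * c3

theorem DD_coeff {e x : ℝ} (he0 : 0 < e) (hx : x = 1 - (e ^ 2)⁻¹) (n : ℕ) :
    ∀ k, coeff n (DD e x k) = 0 := by
  induction n using Nat.strong_induction_on with
  | _ n ih =>
    intro k
    cases n with
    | zero => exact DD_coeff_zero e x k
    | succ n =>
      cases k with
      | zero => rw [DD_zero, map_zero]
      | succ k =>
        have h1 := congrArg (coeff n) (deriv_DD he0 hx k)
        rw [coeff_derivative, map_sub, map_add, map_add, coeff_C_mul, coeff_C_mul, coeff_mul,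
          ih n (Nat.lt_succ_self n) k, ih n (Nat.lt_succ_self n) (k + 1),
          ih n (Nat.lt_succ_self n) (k + 2)] at h1
        have h2 : ∑ p ∈ Finset.HasAntidiagonal.antidiagonal n, coeff p.1 (Psi e x (k + 1)) *
            coeff p.2 (DD e x 1) = 0 := by
          apply Finset.sum_eq_zero
          intro p hp
          have h3 : p.2 < n + 1 := by
            have := Finset.HasAntidiagonal.mem_antidiagonal.1 hp
            omega
          rw [ih p.2 h3 1, mul_zero]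
        rw [h2] at h1
        have h4 : ((n : ℝ) + 1) ≠ 0 := by positivity
        have h5 : coeff (n + 1) (DD e x (k + 1)) * ((n : ℝ) + 1) = 0 := by
          rw [h1]
          ring
        exact (mul_eq_zero.1 h5).resolve_right h4

theorem DD_eq_zero {e x : ℝ} (he0 : 0 < e) (hx : x = 1 - (e ^ 2)⁻¹) (k : ℕ) : DD e x k = 0 := by
  ext n
  rw [DD_coeff he0 hx n k, map_zero]

/-- `H' = (β/e) Ψ_1 H`. -/
theorem deriv_H {e x : ℝ} (he0 : 0 < e) (hx : x = 1 - (e ^ 2)⁻¹) :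
    d⁄dX ℝ (QS e 0) = C ((1 - e ^ 2) * e⁻¹) * (Psi e x 1 * QS e 0) := by
  have h1 := DD_eq_zero he0 hx 1
  rw [DD, pow_one, sub_eq_zero] at h1
  rw [deriv_QS_zero, h1, map_mul, mul_assoc]

/-- `G(τ) = -(β/e) τ Ψ_1(τ)`. -/
noncomputable def GS (e x : ℝ) : PowerSeries ℝ :=
  C (-((1 - e ^ 2) * e⁻¹)) * (X * Psi e x 1)

theorem G_rel {e x : ℝ} (he0 : 0 < e) (hx : x = 1 - (e ^ 2)⁻¹) :
    X * d⁄dX ℝ (QS e 0) + GS e x * QS e 0 = 0 := by
  rw [deriv_H he0 hx, GS, map_neg]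
  ring

theorem G_rec {e x : ℝ} (he0 : 0 < e) (hx : x = 1 - (e ^ 2)⁻¹) (n : ℕ) :
    coeff n (GS e x) = -(n * hm e n / (n.factorial : ℝ)) -
      ∑ j ∈ Finset.range n, coeff j (GS e x) * hm e (n - j) / ((n - j).factorial : ℝ) := by
  have h1 := congrArg (coeff n) (G_rel he0 hx)
  rw [map_add, map_zero, coeff_mul (n := n) (φ := GS e x),
    Finset.Nat.sum_antidiagonal_eq_sum_range_succ_mk, Finset.sum_range_succ] at h1
  have h2 : coeff n (X * d⁄dX ℝ (QS e 0)) = n * hm e n / (n.factorial : ℝ) := by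
    cases n with
    | zero => simp
    | succ n =>
      rw [coeff_succ_X_mul, coeff_derivative, QS, coeff_mk, hm]
      push_cast
      ring
  have h3 : coeff n (GS e x) * coeff (n - n) (QS e 0) = coeff n (GS e x) := by
    rw [Nat.sub_self, QS, coeff_mk]
    simp [vv]
  have h4 : ∑ j ∈ Finset.range n, coeff j (GS e x) * coeff (n - j) (QS e 0) =
      ∑ j ∈ Finset.range n, coeff j (GS e x) * hm e (n - j) / ((n - j).factorial : ℝ) := by
    apply Finset.sum_congr rfl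
    intro j _
    rw [QS, coeff_mk, hm]
    ring
  simp only at h1
  rw [h2, h3, h4] at h1
  linarith

theorem Sn_eq {e x : ℝ} (he0 : 0 < e) (hx : x = 1 - (e ^ 2)⁻¹) (n : ℕ) :
    Sn e n = coeff n (GS e x) := by
  induction n using Nat.strong_induction_on with
  | _ n ih =>
    rw [Sn, G_rec he0 hx, Fin.sum_univ_eq_sum_range
      (fun j => Sn e j * hm e (n - j) / ((n - j).factorial : ℝ)) n]
    congr 1
    apply Finset.sum_congr rfl
    intro j hj
    rw [ih j (Finset.mem_range.1 hj)]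

end BridgeAux

theorem bridge {e : ℝ} (he0 : 0 < e) (he1 : e < 1) {n : ℕ} (hn : 2 ≤ n) :
    Sn e n = e ^ n * ((1 - (e ^ 2)⁻¹) * phi (1 - (e ^ 2)⁻¹) 1 (n - 1)) /
      ((n - 1).factorial : ℝ) := by
  obtain ⟨m, rfl⟩ : ∃ m, n = m + 1 := ⟨n - 1, by omega⟩
  rw [BridgeAux.Sn_eq he0 rfl, BridgeAux.GS, PowerSeries.coeff_C_mul, PowerSeries.coeff_succ_X_mul,
    BridgeAux.Psi, PowerSeries.coeff_mk, Nat.add_sub_cancel]
  have he : e ≠ 0 := he0.ne'
  have a1 := BridgeAux.fact_ne m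
  field_simp
  ring

end RR
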