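import Pool.Agent.Lib.MP_31701c_co.Count
import Pool.Agent.Lib.MP_31701c_co.Basic

/-!
# RR-Near : sum over the roots outside a disc, from a product bound

`M ≤ P.roots`, all `|ρ| ≥ Rc` on `M`, `∏_{ρ ∈ M, |ρ| < R'} R'/|ρ| ≤ (R'/Rc)^4`. Let `b = R'/Rc > 1`,
`a_ρ = R'/|ρ| ∈ (1, b]` for `|ρ| < R'`. Convexity of `exp` gives
`a^n - 1 ≤ (b^n - 1) * log a / log b` for `1 ≤ a ≤ b`; the sum of the `log a_ρ` is `≤ 4 log b`. So
`∑_{|ρ|<R'} |ρ|^{-n} = R'^{-n} ∑ a_ρ^n ≤ R'^{-n} (4 (b^n - 1) + #) ≤ 4 Rc^{-n} + 8.2 R' R'^{-n}`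
(`count_le`) and the roots with `|ρ| ≥ R'` contribute at most `9.1 R' R'^{-n}` (`far_sum`).
`expBound_HN`: coefficients `0 ≤ hm e m/m! ≤ 3^m/m!`.
-/

set_option autoImplicit false

namespace RR

open Polynomial

private theorem Near_conv {a b : ℝ} (ha : 1 ≤ a) (hab : a ≤ b) (hb : 1 < b) (n : ℕ) :
    a ^ n ≤ 1 + (b ^ n - 1) * (Real.log a / Real.log b) := by
  have hlb : 0 < Real.log b := Real.log_pos hb
  have hla : 0 ≤ Real.log a := Real.log_nonneg ha
  have hle : Real.log a ≤ Real.log b := Real.log_le_log (by linarith) hab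
  have h0 : 0 ≤ Real.log a / Real.log b := by positivity
  have h1 : Real.log a / Real.log b ≤ 1 := (div_le_one hlb).2 hle
  have h := convexOn_exp.2 (Set.mem_univ (0 : ℝ)) (Set.mem_univ (n * Real.log b))
    (show 0 ≤ 1 - Real.log a / Real.log b by linarith) h0 (by ring)
  simp only [smul_eq_mul, mul_zero, zero_add, Real.exp_zero, mul_one] at h
  have h2 : Real.log a / Real.log b * (n * Real.log b) = n * Real.log a := by
    field_simp
  rw [h2, Real.exp_nat_mul, Real.exp_nat_mul, Real.exp_log (by linarith),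
    Real.exp_log (by linarith)] at h
  linarith

private theorem Near_sum_log {R' : ℝ} (hR : 0 < R') (M : Multiset ℂ) (h : ∀ r ∈ M, 0 < ‖r‖) :
    (M.map (fun r => Real.log (R' / ‖r‖))).sum = Real.log ((M.map (fun r => R' / ‖r‖)).prod) ∧
      0 < (M.map (fun r => R' / ‖r‖)).prod := by
  induction M using Multiset.induction_on with
  | empty => simp
  | cons r M ih =>
    have h1 := ih fun s hs => h s (Multiset.mem_cons_of_mem hs)
    have h2 : 0 < R' / ‖r‖ := div_pos hR (h r (Multiset.mem_cons_self r M))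
    rw [Multiset.map_cons, Multiset.sum_cons, Multiset.map_cons, Multiset.prod_cons,
      Real.log_mul h2.ne' h1.2.ne', h1.1]
    exact ⟨rfl, mul_pos h2 h1.2⟩

private theorem Near_mono {f : ℂ → ℝ} (hf : ∀ r, 0 ≤ f r) {A B : Multiset ℂ} (h : A ≤ B) :
    (A.map f).sum ≤ (B.map f).sum := by
  obtain ⟨C, rfl⟩ := Multiset.le_iff_exists_add.1 h
  rw [Multiset.map_add, Multiset.sum_add]
  have : 0 ≤ (C.map f).sum := Multiset.sum_nonneg fun x hx => by
    obtain ⟨r, -, rfl⟩ := Multiset.mem_map.1 hx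
    exact hf r
  linarith

theorem near_sum {P : ℂ[X]} (hP : ExpBound P) {R' Rc : ℝ} (hRc : 0 < Rc) (hRR : Rc < R')
    {M : Multiset ℂ} (hM : M ≤ P.roots) (hMc : ∀ r ∈ M, Rc ≤ ‖r‖)
    (hprod : ((M.filter (fun r => ‖r‖ < R')).map (fun r => R' / ‖r‖)).prod ≤ (R' / Rc) ^ 4)
    {n : ℕ} (hn : 80 ≤ n) :
    (M.map (fun r => (‖r‖⁻¹) ^ n)).sum ≤ 4 * (Rc⁻¹) ^ n + 17.3 * R' * (R'⁻¹) ^ n := by
  have hR' : 0 < R' := hRc.trans hRR
  have hsplit : (M.map (fun r => (‖r‖⁻¹) ^ n)).sum =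
      ((M.filter (fun r => ‖r‖ < R')).map (fun r => (‖r‖⁻¹) ^ n)).sum +
      ((M.filter (fun r => ¬ ‖r‖ < R')).map (fun r => (‖r‖⁻¹) ^ n)).sum := by
    rw [← Multiset.sum_add, ← Multiset.map_add, Multiset.filter_add_not]
  -- the far part
  have hfar : ((M.filter (fun r => ¬ ‖r‖ < R')).map (fun r => (‖r‖⁻¹) ^ n)).sum ≤
      9.1 * R' * (R'⁻¹) ^ n := by
    refine le_trans ?_ (far_sum hP hR' hn)
    refine Near_mono (fun r => by positivity) ?_
    have h1 : M.filter (fun r => ¬ ‖r‖ < R') = M.filter (fun r => R' ≤ ‖r‖) := by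
      congr 1
      ext r
      exact not_lt
    rw [h1]
    exact Multiset.filter_le_filter _ hM
  -- the near part
  obtain ⟨A, hA⟩ : ∃ A, A = M.filter (fun r => ‖r‖ < R') := ⟨_, rfl⟩
  have hAM : ∀ r ∈ A, Rc ≤ ‖r‖ ∧ ‖r‖ < R' := by
    intro r hr
    rw [hA, Multiset.mem_filter] at hr
    exact ⟨hMc r hr.1, hr.2⟩
  have hcard : (A.card : ℝ) ≤ 8.2 * R' := by
    refine le_trans ?_ (count_le hP hR')
    have : A ≤ P.roots.filter (fun r => ‖r‖ < R') := by
      rw [hA]; exact Multiset.filter_le_filter _ hM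
    exact_mod_cast Multiset.card_le_card this
  obtain ⟨b, hb⟩ : ∃ b, b = R' / Rc := ⟨_, rfl⟩
  have hb1 : 1 < b := by rw [hb]; exact (one_lt_div hRc).2 hRR
  have hlb : 0 < Real.log b := Real.log_pos hb1
  have hlog := Near_sum_log hR' A (fun r hr => hRc.trans_le (hAM r hr).1)
  have hlog2 : (A.map (fun r => Real.log (R' / ‖r‖))).sum ≤ 4 * Real.log b := by
    rw [hlog.1]
    have h1 : Real.log ((A.map (fun r => R' / ‖r‖)).prod) ≤ Real.log (b ^ 4) := by
      refine Real.log_le_log hlog.2 ?_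
      rw [hb, hA]
      exact hprod
    rwa [Real.log_pow] at h1
  have hterm : ∀ r ∈ A, (‖r‖⁻¹) ^ n ≤ (R'⁻¹) ^ n +
      (R'⁻¹) ^ n * ((b ^ n - 1) / Real.log b) * Real.log (R' / ‖r‖) := by
    intro r hr
    obtain ⟨h1, h2⟩ := hAM r hr
    have hr0 : 0 < ‖r‖ := hRc.trans_le h1
    have h3 := Near_conv (a := R' / ‖r‖) (b := b) ((one_le_div hr0).2 h2.le)
      (by rw [hb]; exact div_le_div_of_nonneg_left hR'.le hRc h1) hb1 n
    have h4 : (‖r‖⁻¹) ^ n = (R'⁻¹) ^ n * (R' / ‖r‖) ^ n := by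
      rw [← mul_pow]
      congr 1
      field_simp
    rw [h4]
    calc (R'⁻¹) ^ n * (R' / ‖r‖) ^ n ≤ (R'⁻¹) ^ n *
          (1 + (b ^ n - 1) * (Real.log (R' / ‖r‖) / Real.log b)) := by
          exact mul_le_mul_of_nonneg_left h3 (by positivity)
      _ = _ := by ring
  have hnear : (A.map (fun r => (‖r‖⁻¹) ^ n)).sum ≤
      8.2 * R' * (R'⁻¹) ^ n + 4 * (Rc⁻¹) ^ n := by
    have h1 : (A.map (fun r => (‖r‖⁻¹) ^ n)).sum ≤ (A.map (fun r => (R'⁻¹) ^ n +
      (R'⁻¹) ^ n * ((b ^ n - 1) / Real.log b) * Real.log (R' / ‖r‖))).sum :=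
      Multiset.sum_map_le_sum_map _ _ hterm
    rw [Multiset.sum_map_add, Multiset.sum_map_mul_left, Multiset.map_const', Multiset.sum_replicate,
      nsmul_eq_mul] at h1
    have hRn : 0 < (R'⁻¹) ^ n := by positivity
    have hbn : 0 ≤ b ^ n - 1 := by
      have := one_le_pow₀ hb1.le (n := n)
      linarith
    have h2 : (A.card : ℝ) * (R'⁻¹) ^ n ≤ 8.2 * R' * (R'⁻¹) ^ n :=
      mul_le_mul_of_nonneg_right hcard hRn.le
    have h3 : (R'⁻¹) ^ n * ((b ^ n - 1) / Real.log b) *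
        (A.map (fun r => Real.log (R' / ‖r‖))).sum ≤ 4 * (Rc⁻¹) ^ n := by
      calc (R'⁻¹) ^ n * ((b ^ n - 1) / Real.log b) *
            (A.map (fun r => Real.log (R' / ‖r‖))).sum
          ≤ (R'⁻¹) ^ n * ((b ^ n - 1) / Real.log b) * (4 * Real.log b) := by
            refine mul_le_mul_of_nonneg_left hlog2 ?_
            positivity
        _ = 4 * ((R'⁻¹) ^ n * (b ^ n - 1)) := by field_simp
        _ ≤ 4 * ((R'⁻¹) ^ n * b ^ n) := by
            have : (R'⁻¹) ^ n * (b ^ n - 1) ≤ (R'⁻¹) ^ n * b ^ n :=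
              mul_le_mul_of_nonneg_left (by linarith) hRn.le
            linarith
        _ = 4 * (Rc⁻¹) ^ n := by
            rw [← mul_pow, hb]
            congr 2
            field_simp
    linarith
  rw [hsplit, ← hA]
  have h5 : (17.3 : ℝ) * R' * (R'⁻¹) ^ n = 8.2 * R' * (R'⁻¹) ^ n + 9.1 * R' * (R'⁻¹) ^ n := by ring
  rw [h5]
  linarith

theorem expBound_HN {e : ℝ} (h0 : 0 ≤ e) (h1 : e ≤ 1) (N : ℕ) :
    ExpBound ((HN e N).map (algebraMap ℝ ℂ)) := by
  refine ⟨?_, fun R hR => ?_⟩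
  · rw [coeff_map, HN_coeff, if_pos (Nat.zero_le N), hm_zero]
    simp
  · refine le_trans ?_ (Real.sum_le_exp_of_nonneg (x := 3 * R) (by positivity)
      (((HN e N).map (algebraMap ℝ ℂ)).natDegree + 1))
    refine Finset.sum_le_sum fun m _ => ?_
    rw [coeff_map, HN_coeff, mul_pow, mul_div_right_comm]
    refine mul_le_mul_of_nonneg_right ?_ (by positivity)
    split_ifs with h
    · have h2 := hm_nonneg h0 h1 m
      have h3 := hm_le h0 h1 m
      rw [Complex.coe_algebraMap, Complex.norm_real, Real.norm_eq_abs, abs_of_nonneg (by positivity)]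
      gcongr
    · simp
      positivity

theorem rts_eq (e : ℝ) (N : ℕ) : rts e N = ((HN e N).map (algebraMap ℝ ℂ)).roots := rfl

end RR
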