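import Pool.Agent.Lib.MP_31701c_co.KronA
import Pool.Agent.Lib.MP_31701c_co.Near

/-!
# RR-CellLandau : product bound for the roots of `H_N` in a cell

`c ∈ cells`, `R = rn/1000`, `Rb = rb/1000`, `an/d ≤ e ≤ bn/d`, `N ≥ 400`. Let
`U(z) = ∑_{j ≤ 8} (qs_j/10^4) (z/R)^j` (`qs_0 = 10^4`, so `U(0) = 1`), `P = H_N * U`. `P(0) = 1`, and
the roots of `H_N` form a sub-multiset of the roots of `P`; all factors `R/|ρ|` (`|ρ| < R`) are `> 1`, so
`∏_{ρ ∈ rts, |ρ|<R} R/|ρ| ≤ ∏_{P.roots}`. `landau` for `P`.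
-/

set_option autoImplicit false

namespace RR

open Polynomial

namespace CellLandau

theorem facts : ∀ c ∈ cells, 0 < c.d ∧ c.bn ≤ c.d ∧ 0 < c.rb ∧ c.rb < c.rn ∧ c.rn ≤ 6420 ∧
    c.qs.length = 9 ∧ c.qs.getD 0 0 = 10000 ∧
    ∑ j ∈ Finset.range 9, |c.qs.getD j 0| ≤ 130000 := by
  decide +kernel

theorem one_le_prod (s : Multiset ℝ) (h : ∀ x ∈ s, 1 ≤ x) : 1 ≤ s.prod := by
  induction s using Multiset.induction_on with
  | empty => simp
  | cons a s ih =>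
    rw [Multiset.prod_cons]
    have h1 := h a (Multiset.mem_cons_self a s)
    have h2 := ih fun x hx => h x (Multiset.mem_cons_of_mem hx)
    nlinarith

/-- `t_k = a^k / k!` -/
noncomputable def t (a : ℝ) (k : ℕ) : ℝ := a ^ k / (k.factorial : ℝ)

theorem t_nonneg {a : ℝ} (h : 0 ≤ a) (k : ℕ) : 0 ≤ t a k := by unfold t; positivity

theorem t_succ (a : ℝ) (k : ℕ) : t a (k + 1) = t a k * (a / (k + 1)) := by
  unfold t
  rw [pow_succ, Nat.factorial_succ]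
  push_cast
  have : ((k : ℝ) + 1) ≠ 0 := by positivity
  have h2 : (k.factorial : ℝ) ≠ 0 := by positivity
  field_simp

theorem t_le {a : ℝ} (h0 : 0 ≤ a) (h : a ≤ 19.26) (i : ℕ) : t a (65 + i) ≤ 1e-7 * 0.3 ^ i := by
  induction i with
  | zero =>
    have h1 : t a 65 ≤ t 19.26 65 := by
      unfold t
      gcongr
    have h2 : t 19.26 65 ≤ 1e-7 := by
      unfold t
      rw [div_le_iff₀ (by positivity)]
      norm_num [Nat.factorial]
    simp only [add_zero, pow_zero, mul_one]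
    exact h1.trans h2
  | succ i ih =>
    rw [← add_assoc, t_succ]
    have h1 : a / (((65 + i : ℕ) : ℝ) + 1) ≤ 0.3 := by
      rw [div_le_iff₀ (by positivity)]
      have : (0 : ℝ) ≤ i := Nat.cast_nonneg i
      push_cast
      nlinarith
    have h2 : 0 ≤ a / (((65 + i : ℕ) : ℝ) + 1) := by positivity
    calc t a (65 + i) * (a / (((65 + i : ℕ) : ℝ) + 1)) ≤ (1e-7 * 0.3 ^ i) * 0.3 :=
          mul_le_mul ih h1 h2 (by positivity)
      _ = 1e-7 * 0.3 ^ (i + 1) := by ring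

theorem t_le' {a : ℝ} (h0 : 0 ≤ a) (h : a ≤ 19.26) {k i : ℕ} (hk : 65 + i ≤ k) :
    t a k ≤ 1e-7 * 0.3 ^ i := by
  obtain ⟨l, rfl⟩ := Nat.exists_eq_add_of_le hk
  rw [add_assoc]
  refine (t_le h0 h (i + l)).trans ?_
  rw [pow_add]
  have h1 : (0.3 : ℝ) ^ l ≤ 1 := pow_le_one₀ (by norm_num) (by norm_num)
  have h2 : (0 : ℝ) ≤ 0.3 ^ i := by positivity
  nlinarith

theorem geo (n : ℕ) : ∑ i ∈ Finset.range n, (1.3e-6 * (0.3 : ℝ) ^ i) ^ 2 ≤ 1e-11 := by
  have h : ∀ n : ℕ, ∑ i ∈ Finset.range n, (1.3e-6 * (0.3 : ℝ) ^ i) ^ 2 ≤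
      1e-11 * (1 - 0.3 ^ n) := by
    intro n
    induction n with
    | zero => simp
    | succ n ih =>
      rw [Finset.sum_range_succ]
      have h1 : (0 : ℝ) ≤ 0.3 ^ n := by positivity
      have h2 : (0.3 : ℝ) ^ n ≤ 1 := pow_le_one₀ (by norm_num) (by norm_num)
      have h3 : ((0.3 : ℝ) ^ n) ^ 2 ≤ 0.3 ^ n := by nlinarith
      have h4 : (1.3e-6 * (0.3 : ℝ) ^ n) ^ 2 = 1.69e-12 * (0.3 ^ n) ^ 2 := by ring
      have h5 : (0.3 : ℝ) ^ (n + 1) = 0.3 ^ n * 0.3 := pow_succ _ _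
      rw [h4, h5]
      nlinarith [ih, h1, h2, h3]
  refine (h n).trans ?_
  have h1 : (0 : ℝ) ≤ 0.3 ^ n := by positivity
  linarith

/-- the auxiliary polynomial -/
noncomputable def U (c : Cell) : ℝ[X] :=
  ∑ j ∈ Finset.range 9, C (((c.qs.getD j 0 : ℤ) : ℝ) / 10000 / ((c.rn : ℝ) / 1000) ^ j) * X ^ j

theorem U_coeff {c : Cell} (hl : c.qs.length = 9) (j : ℕ) :
    (U c).coeff j = ((c.qs.getD j 0 : ℤ) : ℝ) / 10000 / ((c.rn : ℝ) / 1000) ^ j := by
  unfold U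
  rw [finsetSum_coeff]
  simp only [coeff_C_mul, coeff_X_pow, mul_ite, mul_one, mul_zero]
  rw [Finset.sum_ite_eq]
  split_ifs with h
  · rfl
  · rw [Finset.mem_range, not_lt] at h
    have : c.qs.getD j 0 = 0 := List.getD_eq_default _ _ (by omega)
    rw [this]; simp

/-- the coefficients of the product, scaled -/
theorem P_coeff {c : Cell} (hl : c.qs.length = 9) (hR : 0 < c.rn) (e : ℝ) (N m : ℕ) :
    (U c * HN e N).coeff m * ((c.rn : ℝ) / 1000) ^ m =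
      ∑ j ∈ Finset.range (m + 1), ((c.qs.getD j 0 : ℤ) : ℝ) / 10000 *
        ((HN e N).coeff (m - j) * ((c.rn : ℝ) / 1000) ^ (m - j)) := by
  rw [coeff_mul, Finset.Nat.sum_antidiagonal_eq_sum_range_succ_mk, Finset.sum_mul]
  refine Finset.sum_congr rfl fun j hj => ?_
  have hj' : j ≤ m := Nat.lt_succ_iff.1 (Finset.mem_range.1 hj)
  simp only
  rw [U_coeff hl]
  have h1 : ((c.rn : ℝ) / 1000) ^ j ≠ 0 := by
    have : (0 : ℝ) < c.rn := by exact_mod_cast hR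
    positivity
  have h2 : ((c.rn : ℝ) / 1000) ^ m = ((c.rn : ℝ) / 1000) ^ j * ((c.rn : ℝ) / 1000) ^ (m - j) := by
    rw [← pow_add]; congr 1; omega
  rw [h2]
  field_simp

theorem coeff_small {c : Cell} {e : ℝ} {N m : ℕ} (hm72 : m ≤ 72) (hN : 400 ≤ N)
    (hl : c.qs.length = 9) (hR : 0 < c.rn) :
    (U c * HN e N).coeff m * ((c.rn : ℝ) / 1000) ^ m =
      ∑ j ∈ Finset.range (m + 1), ((c.qs.getD j 0 : ℤ) : ℝ) / 10000 *
        (hm e (m - j) * ((c.rn : ℝ) / 1000) ^ (m - j) / ((m - j).factorial : ℝ)) := by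
  rw [P_coeff hl hR]
  refine Finset.sum_congr rfl fun j _ => ?_
  rw [HN_coeff, if_pos (by omega)]
  ring

theorem coeff_big {c : Cell} (hc : c ∈ cells) {e : ℝ} (he0 : 0 ≤ e) (he1 : e ≤ 1) (N i : ℕ) :
    |(U c * HN e N).coeff (73 + i) * ((c.rn : ℝ) / 1000) ^ (73 + i)| ≤ 1.3e-6 * 0.3 ^ i := by
  obtain ⟨hd, hbd, hrb, hrbn, hrn, hl, hq0, hqs⟩ := facts c hc
  have hRn : 0 < c.rn := by omega
  have hR0 : (0 : ℝ) ≤ (c.rn : ℝ) / 1000 := by positivity
  have hR1 : 3 * ((c.rn : ℝ) / 1000) ≤ 19.26 := by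
    have : (c.rn : ℝ) ≤ 6420 := by exact_mod_cast hrn
    norm_num; linarith
  rw [P_coeff hl hRn]
  have hsub : ∑ j ∈ Finset.range (73 + i + 1), ((c.qs.getD j 0 : ℤ) : ℝ) / 10000 *
        ((HN e N).coeff (73 + i - j) * ((c.rn : ℝ) / 1000) ^ (73 + i - j)) =
      ∑ j ∈ Finset.range 9, ((c.qs.getD j 0 : ℤ) : ℝ) / 10000 *
        ((HN e N).coeff (73 + i - j) * ((c.rn : ℝ) / 1000) ^ (73 + i - j)) := by
    symm
    refine Finset.sum_subset (Finset.range_subset_range.2 (by omega)) fun j _ hj => ?_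
    rw [Finset.mem_range, not_lt] at hj
    have : c.qs.getD j 0 = 0 := List.getD_eq_default _ _ (by omega)
    rw [this]; simp
  rw [hsub]
  refine (Finset.abs_sum_le_sum_abs _ _).trans ?_
  have hterm : ∀ j ∈ Finset.range 9, |((c.qs.getD j 0 : ℤ) : ℝ) / 10000 *
        ((HN e N).coeff (73 + i - j) * ((c.rn : ℝ) / 1000) ^ (73 + i - j))| ≤
      ((|c.qs.getD j 0| : ℤ) : ℝ) / 10000 * (1e-7 * 0.3 ^ i) := by
    intro j hj
    rw [Finset.mem_range] at hj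
    rw [abs_mul, abs_div, abs_of_pos (by norm_num : (0 : ℝ) < 10000), Int.cast_abs]
    refine mul_le_mul_of_nonneg_left ?_ (by positivity)
    rw [HN_coeff]
    split_ifs with h
    · have h1 := hm_le he0 he1 (73 + i - j)
      have h2 := hm_nonneg he0 he1 (73 + i - j)
      rw [abs_of_nonneg (by positivity)]
      have h3 : hm e (73 + i - j) / ((73 + i - j).factorial : ℝ) *
          ((c.rn : ℝ) / 1000) ^ (73 + i - j) ≤ t (3 * ((c.rn : ℝ) / 1000)) (73 + i - j) := by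
        unfold t
        rw [mul_pow, div_mul_eq_mul_div]
        gcongr
      exact h3.trans (t_le' (by positivity) hR1 (by omega))
    · simp only [zero_mul, abs_zero]
      positivity
  refine (Finset.sum_le_sum hterm).trans ?_
  rw [← Finset.sum_mul, ← Finset.sum_div]
  have h1 : (∑ j ∈ Finset.range 9, ((|c.qs.getD j 0| : ℤ) : ℝ)) ≤ 130000 := by exact_mod_cast hqs
  have h2 : (0 : ℝ) ≤ 0.3 ^ i := by positivity
  have h3 : (∑ j ∈ Finset.range 9, ((|c.qs.getD j 0| : ℤ) : ℝ)) / 10000 ≤ 13 := by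
    rw [div_le_iff₀ (by norm_num)]; linarith
  calc (∑ j ∈ Finset.range 9, ((|c.qs.getD j 0| : ℤ) : ℝ)) / 10000 * (1e-7 * 0.3 ^ i)
      ≤ 13 * (1e-7 * 0.3 ^ i) := mul_le_mul_of_nonneg_right h3 (by positivity)
    _ = 1.3e-6 * 0.3 ^ i := by ring

end CellLandau

open CellLandau in
theorem cell_product {c : Cell} (hc : c ∈ cells) {e : ℝ} (h1 : (c.an : ℝ) / c.d ≤ e)
    (h2 : e ≤ (c.bn : ℝ) / c.d) {N : ℕ} (hN : 400 ≤ N) :
    (((rts e N).filter (fun r => ‖r‖ < (c.rn : ℝ) / 1000)).map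
      (fun r => (c.rn : ℝ) / 1000 / ‖r‖)).prod < ((c.rn : ℝ) / c.rb) ^ 4 := by
  obtain ⟨hd, hbd, hrb, hrbn, hrn, hl, hq0, hqs⟩ := facts c hc
  have hRn : 0 < c.rn := by omega
  have hRnR : (0 : ℝ) < c.rn := by exact_mod_cast hRn
  have hR : (0 : ℝ) < (c.rn : ℝ) / 1000 := by positivity
  have hdR : (0 : ℝ) < c.d := by exact_mod_cast hd
  have he0 : 0 ≤ e := le_trans (by positivity) h1
  have he1 : e ≤ 1 := h2.trans (by
    rw [div_le_one hdR]; exact_mod_cast hbd)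
  set R : ℝ := (c.rn : ℝ) / 1000 with hRdef
  set Pr : ℝ[X] := U c * HN e N with hPr
  set P : ℂ[X] := Pr.map (algebraMap ℝ ℂ) with hP
  have hcoef : ∀ m, P.coeff m = ((Pr.coeff m : ℝ) : ℂ) := fun m => by
    rw [hP, coeff_map]; rfl
  have hP0 : P.coeff 0 = 1 := by
    rw [hcoef, hPr, mul_coeff_zero, U_coeff hl, HN_coeff, hq0, if_pos (Nat.zero_le _), hm_zero]
    norm_num
  have hPne : P ≠ 0 := by
    intro h; rw [h] at hP0; simp at hP0
  have hfac : P = (U c).map (algebraMap ℝ ℂ) * (HN e N).map (algebraMap ℝ ℂ) := by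
    rw [hP, hPr, Polynomial.map_mul]
  have hroots : P.roots = ((U c).map (algebraMap ℝ ℂ)).roots + rts e N := by
    have h3 : (U c).map (algebraMap ℝ ℂ) * (HN e N).map (algebraMap ℝ ℂ) ≠ 0 := hfac ▸ hPne
    rw [hfac, roots_mul h3]
    rfl
  -- products
  have hprod1 : 1 ≤ (((((U c).map (algebraMap ℝ ℂ)).roots).filter (fun r => ‖r‖ < R)).map
      (fun r => R / ‖r‖)).prod := by
    refine one_le_prod _ fun x hx => ?_
    rw [Multiset.mem_map] at hx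
    obtain ⟨r, hr, rfl⟩ := hx
    rw [Multiset.mem_filter] at hr
    have hr0 : r ≠ 0 := by
      rintro rfl
      have h3 : (0 : ℂ) ∈ P.roots := by
        rw [hroots]; exact Multiset.mem_add.2 (Or.inl hr.1)
      rw [mem_roots hPne, IsRoot.def, ← coeff_zero_eq_eval_zero, hP0] at h3
      exact one_ne_zero h3
    rw [le_div_iff₀ (norm_pos_iff.2 hr0), one_mul]
    exact hr.2.le
  set A := (((rts e N).filter (fun r => ‖r‖ < R)).map (fun r => R / ‖r‖)).prod with hA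
  have hA0 : 0 ≤ A := by
    refine Multiset.prod_nonneg fun x hx => ?_
    rw [Multiset.mem_map] at hx
    obtain ⟨r, hr, rfl⟩ := hx
    positivity
  have hAle : A ≤ (((P.roots).filter (fun r => ‖r‖ < R)).map (fun r => R / ‖r‖)).prod := by
    rw [hroots, Multiset.filter_add, Multiset.map_add, Multiset.prod_add]
    exact le_mul_of_one_le_left hA0 hprod1
  have hland := landau P hP0 hR
  have hA2 : A ^ 2 ≤ ∑ m ∈ Finset.range (P.natDegree + 1), ‖P.coeff m‖ ^ 2 * R ^ (2 * m) :=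
    (pow_le_pow_left₀ hA0 hAle 2).trans hland
  -- the sum of squares
  have hsq : ∀ m, ‖P.coeff m‖ ^ 2 * R ^ (2 * m) = (Pr.coeff m * R ^ m) ^ 2 := fun m => by
    rw [hcoef, Complex.norm_real, Real.norm_eq_abs, sq_abs, mul_pow, ← pow_mul, mul_comm m 2]
  have hsum : ∑ m ∈ Finset.range (P.natDegree + 1), ‖P.coeff m‖ ^ 2 * R ^ (2 * m) ≤
      ∑ m ∈ Finset.range (73 + (P.natDegree + 1)), (Pr.coeff m * R ^ m) ^ 2 := by
    simp_rw [hsq]
    exact Finset.sum_le_sum_of_subset_of_nonneg (Finset.range_subset_range.2 (by omega))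
      fun m _ _ => sq_nonneg _
  rw [Finset.sum_range_add (fun m => (Pr.coeff m * R ^ m) ^ 2) 73 (P.natDegree + 1)] at hsum
  have hs1 : ∑ m ∈ Finset.range 73, (Pr.coeff m * R ^ m) ^ 2 ≤ 0.9999 * ((c.rn : ℝ) / c.rb) ^ 8 := by
    have h3 := cellA_all c hc e h1 h2
    refine le_trans (le_of_eq ?_) h3
    refine Finset.sum_congr rfl fun m hm' => ?_
    rw [Finset.mem_range] at hm'
    rw [hPr, hRdef, coeff_small (by omega) hN hl hRn]
  have hs2 : ∑ i ∈ Finset.range (P.natDegree + 1), (Pr.coeff (73 + i) * R ^ (73 + i)) ^ 2 ≤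
      1e-11 := by
    refine le_trans (Finset.sum_le_sum fun i _ => ?_) (geo (P.natDegree + 1))
    rw [← sq_abs]
    exact pow_le_pow_left₀ (abs_nonneg _) (coeff_big hc he0 he1 N i) 2
  have hratio : 1 ≤ (c.rn : ℝ) / c.rb := by
    have : (0 : ℝ) < c.rb := by exact_mod_cast hrb
    rw [le_div_iff₀ this, one_mul]
    exact_mod_cast hrbn.le
  have h8 : 1 ≤ ((c.rn : ℝ) / c.rb) ^ 8 := one_le_pow₀ hratio
  have hfin : A ^ 2 < (((c.rn : ℝ) / c.rb) ^ 4) ^ 2 := by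
    rw [← pow_mul]
    have h9 : (4 * 2 : ℕ) = 8 := rfl
    rw [h9]
    calc A ^ 2 ≤ _ := hA2
      _ ≤ _ := hsum
      _ ≤ 0.9999 * ((c.rn : ℝ) / c.rb) ^ 8 + 1e-11 := add_le_add hs1 hs2
      _ < ((c.rn : ℝ) / c.rb) ^ 8 := by norm_num at *; linarith
  exact lt_of_pow_lt_pow_left₀ 2 (by positivity) hfin

end RR
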