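import Pool.Agent.Lib.MP_31701c_co.Basic

/-!
# RR-Coef : `S_n` through the powers of `X`

Power series over `ℝ`: `H = 1 + β X` (`β = 1 - e²`, `X = XS e`, `hm e 0 = 1`, `hm e m = β xm e m`), constant
coefficient of `X` is `0` (indeed `X = τ²/2 + …`). The definition of `Sn` says
`τ H' = -H * ∑_{n ≥ 1} Sn_n τ^n`. With `L = ∑_{j=1}^{n} (-1)^j β^j/j X^j` we have
`H L' = X' ∑_{j=1}^n (-1)^j β^j X^{j-1} (1 + βX) = -β X' + (-1)^n β^{n+1} X^n X'`, and the last term has order
`> n`. So `τ L'` and `∑ Sn_m τ^m` agree up to order `n` (`H` is invertible), i.e. `n L_n = Sn_n`.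
(Strong induction on the coefficient index, or multiply by `H⁻¹`; `PowerSeries.derivative`.)
-/

set_option autoImplicit false

namespace RR

namespace CoefAux

open PowerSeries

private lemma coeff_theta (f : PowerSeries ℝ) (n : ℕ) :
    coeff n (X * d⁄dX ℝ f) = n * coeff n f := by
  cases n with
  | zero => simp
  | succ n =>
    rw [coeff_succ_X_mul, coeff_derivative]
    push_cast
    ring

/-- `H` as a formal power series. -/
private noncomputable def HS (e : ℝ) : PowerSeries ℝ :=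
  PowerSeries.mk fun m => hm e m / (m.factorial : ℝ)

/-- `∑ S_n τ^n`. -/
private noncomputable def SS (e : ℝ) : PowerSeries ℝ := PowerSeries.mk fun m => Sn e m

private lemma HS_eq (e : ℝ) : HS e = 1 + PowerSeries.C (1 - e ^ 2) * XS e := by
  ext m
  rw [HS, coeff_mk, map_add, coeff_one, coeff_C_mul, XS, coeff_mk]
  rcases Nat.eq_zero_or_pos m with hm | hm
  · subst hm
    simp [hm_zero, xm]
  · rw [hm_eq e hm, if_neg (by omega)]
    ring

private lemma SS_mul (e : ℝ) : SS e * HS e = -(X * d⁄dX ℝ (HS e)) := by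
  ext n
  rw [map_neg, coeff_theta, coeff_mul, Finset.Nat.sum_antidiagonal_eq_sum_range_succ_mk,
    Finset.sum_range_succ]
  simp only [SS, HS, coeff_mk]
  rw [Nat.sub_self]
  have h := Sn.eq_1 e n
  have h2 : ∑ j : Fin n, Sn e j * hm e (n - j) / ((n - (j : ℕ)).factorial : ℝ) =
      ∑ j ∈ Finset.range n, Sn e j * (hm e (n - j) / ((n - j).factorial : ℝ)) := by
    rw [Finset.sum_range fun j => Sn e j * (hm e (n - j) / ((n - j).factorial : ℝ))]
    refine Finset.sum_congr rfl fun j _ => ?_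
    rw [mul_div_assoc]
  rw [h2] at h
  rw [h, hm_zero]
  simp only [Nat.factorial_zero, Nat.cast_one, div_one, mul_one]
  ring

private lemma theta_pow (f : PowerSeries ℝ) (j : ℕ) :
    X * d⁄dX ℝ (f ^ (j + 1)) = ((j : ℝ) + 1) • (X * d⁄dX ℝ f * f ^ j) := by
  rw [Derivation.leibniz_pow]
  simp only [Nat.add_sub_cancel, smul_eq_mul, nsmul_eq_mul, Nat.cast_add, Nat.cast_one]
  rw [PowerSeries.smul_eq_C_mul]
  simp only [map_add, map_natCast, map_one]
  ring

private lemma tele (b : ℝ) (f : PowerSeries ℝ) (n : ℕ) :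
    (1 + PowerSeries.C b * f) * ∑ i ∈ Finset.range n, (PowerSeries.C (-b)) ^ (i + 1) * f ^ i =
      PowerSeries.C (-b) - (PowerSeries.C (-b)) ^ (n + 1) * f ^ n := by
  induction n with
  | zero => simp
  | succ n ih =>
    rw [Finset.sum_range_succ, mul_add, ih]
    have : PowerSeries.C b = - PowerSeries.C (-b) := by simp
    rw [this]
    ring

end CoefAux

open CoefAux PowerSeries in
theorem Sn_coeff {e : ℝ} {n : ℕ} (hn : 1 ≤ n) :
    Sn e n = n * ∑ j ∈ Finset.Icc 1 n,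
      (-1 : ℝ) ^ j * (1 - e ^ 2) ^ j / j * PowerSeries.coeff n ((XS e) ^ j) := by
  set b : ℝ := 1 - e ^ 2 with hb
  set L : PowerSeries ℝ := ∑ i ∈ Finset.range n,
    PowerSeries.C ((-b) ^ (i + 1) / ((i : ℝ) + 1)) * XS e ^ (i + 1) with hL
  have hX0 : X ∣ XS e := by
    rw [PowerSeries.X_dvd_iff, ← coeff_zero_eq_constantCoeff_apply, XS, coeff_mk]
    simp [xm]
  have hthL : X * d⁄dX ℝ L = X * d⁄dX ℝ (XS e) *
      ∑ i ∈ Finset.range n, (PowerSeries.C (-b)) ^ (i + 1) * XS e ^ i := by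
    rw [hL, map_sum, Finset.mul_sum, Finset.mul_sum]
    refine Finset.sum_congr rfl fun i _ => ?_
    have h1 : d⁄dX ℝ (PowerSeries.C ((-b) ^ (i + 1) / ((i : ℝ) + 1)) * XS e ^ (i + 1)) =
        PowerSeries.C ((-b) ^ (i + 1) / ((i : ℝ) + 1)) * d⁄dX ℝ (XS e ^ (i + 1)) := by
      rw [← PowerSeries.smul_eq_C_mul, Derivation.map_smul, PowerSeries.smul_eq_C_mul]
    rw [h1]
    have h2 := theta_pow (XS e) i
    calc X * (PowerSeries.C ((-b) ^ (i + 1) / ((i : ℝ) + 1)) * d⁄dX ℝ (XS e ^ (i + 1)))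
        = PowerSeries.C ((-b) ^ (i + 1) / ((i : ℝ) + 1)) * (X * d⁄dX ℝ (XS e ^ (i + 1))) := by
          ring
      _ = (PowerSeries.C ((-b) ^ (i + 1) / ((i : ℝ) + 1)) * PowerSeries.C ((i : ℝ) + 1)) *
            (X * d⁄dX ℝ (XS e) * XS e ^ i) := by
          rw [h2, PowerSeries.smul_eq_C_mul]; ring
      _ = _ := by
          rw [← map_mul, div_mul_cancel₀ _ (by positivity), map_pow]
          ring
  have hthH : X * d⁄dX ℝ (HS e) = PowerSeries.C b * (X * d⁄dX ℝ (XS e)) := by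
    rw [HS_eq, map_add, ← hb]
    have h1 : d⁄dX ℝ (1 : PowerSeries ℝ) = 0 := by
      exact Derivation.map_one_eq_zero _
    have h2 : d⁄dX ℝ (PowerSeries.C b * XS e) = PowerSeries.C b * d⁄dX ℝ (XS e) := by
      rw [← PowerSeries.smul_eq_C_mul, Derivation.map_smul, PowerSeries.smul_eq_C_mul]
    rw [h1, h2]
    ring
  have hmain : HS e * (SS e - X * d⁄dX ℝ L) =
      (PowerSeries.C (-b)) ^ (n + 1) * (X * d⁄dX ℝ (XS e) * XS e ^ n) := by
    have e1 : HS e * (SS e - X * d⁄dX ℝ L) = SS e * HS e - HS e * (X * d⁄dX ℝ L) := by ring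
    rw [e1, SS_mul, hthH, hthL]
    have e2 : HS e * (X * d⁄dX ℝ (XS e) *
        ∑ i ∈ Finset.range n, (PowerSeries.C (-b)) ^ (i + 1) * XS e ^ i) =
        X * d⁄dX ℝ (XS e) * ((1 + PowerSeries.C b * XS e) *
          ∑ i ∈ Finset.range n, (PowerSeries.C (-b)) ^ (i + 1) * XS e ^ i) := by
      rw [HS_eq, ← hb]; ring
    rw [e2, tele]
    have : PowerSeries.C b = - PowerSeries.C (-b) := by simp
    rw [this]
    ring
  have hdvd : X ^ (n + 1) ∣ HS e * (SS e - X * d⁄dX ℝ L) := by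
    rw [hmain]
    apply Dvd.dvd.mul_left
    rw [pow_succ']
    exact mul_dvd_mul (Dvd.intro _ rfl) (pow_dvd_pow_of_dvd hX0 n)
  have hunit : IsUnit (HS e) := by
    rw [PowerSeries.isUnit_iff_constantCoeff, ← coeff_zero_eq_constantCoeff_apply, HS, coeff_mk,
      hm_zero]
    simp
  rw [hunit.dvd_mul_left] at hdvd
  rw [PowerSeries.X_pow_dvd_iff] at hdvd
  have h0 := hdvd n (by omega)
  rw [map_sub, coeff_theta, SS, coeff_mk, sub_eq_zero] at h0
  rw [h0, hL, map_sum]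
  congr 1
  have hIcc : Finset.Icc 1 n = Finset.Ico (0 + 1) (n + 1) := by
    ext j
    simp only [Finset.mem_Icc, Finset.mem_Ico]
    omega
  rw [hIcc, ← Finset.sum_Ico_add', ← Finset.range_eq_Ico]
  refine Finset.sum_congr rfl fun i _ => ?_
  rw [coeff_C_mul, neg_pow b (i + 1)]
  push_cast
  ring

end RR
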