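import Pool.Agent.Lib.MP_31701c_co.Basic

/-!
# RR-ConjPair : multisets of roots closed under conjugation

`rts_conj`: `HN e N` has real coefficients (`Polynomial.roots_map` / `aroots` and `starRingEnd`:
`(P.map f).roots` with `P.map (conj ∘ algebraMap) = P.map algebraMap`; or `Polynomial.count_roots`,
`rootMultiplicity` invariance).
`pair_of_card_le_three`: an involution without fixed points on the multiset, so the part with `Im > 0` and the
part with `Im < 0` have the same cardinality (`M.filter (0 < im)` is mapped to `M.filter (im < 0)` by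
conjugation), `card M = 2 card (M.filter (0 < im)) ≤ 3`, so it is `0` or `1`.
-/

set_option autoImplicit false

namespace RR

open Polynomial

private theorem rts_eq' (e : ℝ) (N : ℕ) :
    rts e N = ((HN e N).map (algebraMap ℝ ℂ)).roots := by
  rw [rts, aroots_def]

theorem rts_conj (e : ℝ) (N : ℕ) : (rts e N).map (starRingEnd ℂ) = rts e N := by
  rw [rts_eq']
  have h1 : ((HN e N).map (algebraMap ℝ ℂ)).map (starRingEnd ℂ) =
      (HN e N).map (algebraMap ℝ ℂ) := by
    rw [Polynomial.map_map]
    congr 1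
    ext x
    simp
  have h2 := Polynomial.Splits.roots_map (IsAlgClosed.splits ((HN e N).map (algebraMap ℝ ℂ)))
    (starRingEnd ℂ)
  rw [h1] at h2
  exact h2.symm

theorem mem_rts {e : ℝ} {N : ℕ} {z : ℂ} : z ∈ rts e N ↔ aeval z (HN e N) = 0 := by
  rw [rts, mem_aroots]
  exact ⟨fun h => h.2, fun h => ⟨HN_ne_zero e N, h⟩⟩

theorem zero_notMem_rts {e : ℝ} {N : ℕ} : (0 : ℂ) ∉ rts e N := by
  rw [mem_rts, aeval_def, eval₂_at_zero, HN_coeff, if_pos (Nat.zero_le N), hm_zero]
  simp

theorem upper_lower {M : Multiset ℂ} (hc : M.map (starRingEnd ℂ) = M)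
    (hreal : ∀ z ∈ M, z.im ≠ 0) :
    M = M.filter (fun z => 0 < z.im) + (M.filter (fun z => 0 < z.im)).map (starRingEnd ℂ) := by
  have h1 : (M.filter (fun z => 0 < z.im)).map (starRingEnd ℂ) =
      M.filter (fun z => ¬ 0 < z.im) := by
    conv_rhs => rw [← hc]
    rw [Multiset.filter_map]
    congr 1
    apply Multiset.filter_congr
    intro z hz
    have := hreal z hz
    simp only [Function.comp, Complex.conj_im]
    constructor
    · intro h; linarith
    · intro h
      rcases lt_or_gt_of_ne this with h' | h'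
      · exfalso; apply h; linarith
      · exact h'
  rw [h1]
  exact (Multiset.filter_add_not _ _).symm

theorem pair_of_card_le_three {M : Multiset ℂ} (hc : M.map (starRingEnd ℂ) = M)
    (hreal : ∀ z ∈ M, z.im ≠ 0) (h3 : M.card ≤ 3) :
    M = 0 ∨ ∃ z : ℂ, 0 < z.im ∧ M = {z, (starRingEnd ℂ) z} := by
  have h1 := upper_lower hc hreal
  set U := M.filter (fun z => 0 < z.im) with hU
  have h2 : M.card = U.card + U.card := by
    conv_lhs => rw [h1]
    rw [Multiset.card_add, Multiset.card_map]
  have h4 : U.card ≤ 1 := by omega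
  rcases Nat.lt_or_ge U.card 1 with h5 | h5
  · left
    have : U = 0 := Multiset.card_eq_zero.mp (by omega)
    rw [h1, this]
    simp
  · right
    have : U.card = 1 := by omega
    obtain ⟨z, hz⟩ := Multiset.card_eq_one.mp this
    refine ⟨z, ?_, ?_⟩
    · have : z ∈ U := by rw [hz]; exact Multiset.mem_singleton_self z
      rw [hU, Multiset.mem_filter] at this
      exact this.2
    · rw [h1, hz]
      simp

/-- a root that is not a root of the derivative has multiplicity one -/
theorem count_rts_eq_one {e : ℝ} {N : ℕ} {z : ℂ} (hz : z ∈ rts e N) (he0 : 0 ≤ e) (he1 : e < 1)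
    (hd : deriv (FN e N) z ≠ 0) : (rts e N).count z = 1 := by
  have hP : (HN e N).map (algebraMap ℝ ℂ) ≠ 0 :=
    (Polynomial.map_ne_zero_iff (algebraMap ℝ ℂ).injective).mpr (HN_ne_zero e N)
  have h0 : 0 < (rts e N).count z := Multiset.count_pos.mpr hz
  rw [rts_eq', count_roots] at *
  by_contra hne
  have h1 : 1 < rootMultiplicity z ((HN e N).map (algebraMap ℝ ℂ)) := by omega
  rw [one_lt_rootMultiplicity_iff_isRoot hP] at h1
  have h2 := h1.2
  rw [IsRoot.def] at h2
  have h3 : (fun w : ℂ => ((HN e N).map (algebraMap ℝ ℂ)).eval w) =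
      fun w => 1 + ((1 - e ^ 2 : ℝ) : ℂ) * FN e N w := by
    funext w
    rw [← HN_aeval, eval_map_algebraMap]
  have h4 : deriv (fun w : ℂ => ((HN e N).map (algebraMap ℝ ℂ)).eval w) z =
      ((1 - e ^ 2 : ℝ) : ℂ) * deriv (FN e N) z := by
    rw [h3, deriv_const_add, deriv_const_mul _ (differentiable_FN e N z)]
  rw [Polynomial.deriv, h2] at h4
  have h5 : ((1 - e ^ 2 : ℝ) : ℂ) ≠ 0 := by
    rw [Ne, Complex.ofReal_eq_zero]
    nlinarith
  exact mul_ne_zero h5 hd h4.symm

end RR
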