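import Pool.Agent.Lib.MP_31701c_co.NumB_0
import Pool.Agent.Lib.MP_31701c_co.NumB_1
import Pool.Agent.Lib.MP_31701c_co.NumB_2
import Pool.Agent.Lib.MP_31701c_co.NumB_3
import Pool.Agent.Lib.MP_31701c_co.NumB_4

/-! # kernel computation: `checkB` on the cells 0-4 (`numB0`, …, `numB4`) -/
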