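import Pool.Agent.Lib.MP_31701c_co.Prog

/-! # kernel computation: `checkB` on cell 8 -/

set_option autoImplicit false
set_option maxRecDepth 1000000

namespace RR

theorem numB8 : (cells[8]?.map (checkB 6656)) = some true := by decide +kernel

end RR
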