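import Pool.Agent.Lib.MP_31701c_co.NumB_5
import Pool.Agent.Lib.MP_31701c_co.NumB_6
import Pool.Agent.Lib.MP_31701c_co.NumB_7
import Pool.Agent.Lib.MP_31701c_co.NumB_8

/-! # kernel computation: `checkB` on the cells 5-8 (`numB5`, …, `numB8`) -/
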