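import Pool.Agent.Lib.MP_31701c_co.SoundH

/-!
# RR-SoundK : meaning of `kapTab`

For a list `hs = [h_0, …, h_M]` (`h_0 = 1`) the list `kapTab hs = [κ_M, …, κ_1]` satisfies
`κ_n = h_n - ∑_{j=1}^{n-1} C(n-1, j-1) κ_j h_{n-j}`: in `kapAux hs.tail` the state after `n` steps is
`row = [C(n,0), …, C(n,n)]` and `kr = [κ_n, …, κ_1]`, and `dot3 row.tail kr [h_1, h_2, …]
= ∑_{j=1}^n C(n, n+1-j) κ_j h_{n+1-j}` with `C(n, n+1-j) = C(n, j-1)`.
With `h_m = hm e m * q^m` (homogeneous) this gives `κ_n = -(n-1)! Sn e n q^n`, because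
`n hm_n/n! + ∑_{j=1}^{n} Sn_j hm_{n-j}/(n-j)! = 0`.
Polynomial version: with `P m ∈ ℕ[X]` from `hTab_poly` define `κ_n ∈ ℤ[X]` by the same recursion;
`∑ |coeff κ_n| ≤ P_n(1) + ∑ C(n-1,j-1) (∑|coeff κ_j|) P_{n-j}(1)`, which is what `kapAuxN` computes at
`s = 1` (the coefficients of `P m` are natural numbers, so their sum is `P_m(1)`).
-/

set_option autoImplicit false

namespace RR

open Polynomial

/-- the common generalisation of `kapAux` (`sg = -1`) and `kapAuxN` (`sg = 1`) -/
private def kapS (sg : ℤ) (hs1 : List ℕ) : List ℕ → List ℕ → List ℤ → List ℤ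
  | [], _, kr => kr
  | h :: t, row, kr => kapS sg hs1 t (pnext row) (((h : ℤ) + sg * dot3 row.tail kr hs1) :: kr)

private theorem kapAux_eq (hs1 : List ℕ) (l row : List ℕ) (kr : List ℤ) :
    kapAux hs1 l row kr = kapS (-1) hs1 l row kr := by
  induction l generalizing row kr with
  | nil => simp [kapAux, kapS]
  | cons h t ih =>
    simp only [kapAux, kapS]
    rw [ih]
    congr 2
    ring

private theorem kapAuxN_eq (hs1 : List ℕ) (l row : List ℕ) (kr : List ℤ) :
    kapAuxN hs1 l row kr = kapS 1 hs1 l row kr := by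
  induction l generalizing row kr with
  | nil => simp [kapAuxN, kapS]
  | cons h t ih =>
    simp only [kapAuxN, kapS]
    rw [ih]
    congr 2
    ring

private theorem dot3_eq (cs : List ℕ) (ks : List ℤ) (hs : List ℕ) (n : ℕ) (hn : ks.length ≤ n) :
    dot3 cs ks hs =
      ∑ i ∈ Finset.range n, ((cs.getD i 0 * hs.getD i 0 : ℕ) : ℤ) * ks.getD i 0 := by
  induction cs generalizing ks hs n with
  | nil => simp [dot3]
  | cons c cs ih =>
    cases ks with
    | nil => simp [dot3]
    | cons k ks =>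
      cases hs with
      | nil => simp [dot3]
      | cons h hs =>
        obtain ⟨m, rfl⟩ : ∃ m, n = m + 1 := ⟨n - 1, by simp at hn; omega⟩
        rw [Finset.sum_range_succ']
        simp only [dot3, List.getD_cons_succ, List.getD_cons_zero]
        rw [ih ks hs m (by simpa using hn)]
        ring

private theorem pAux_getD (row : List ℕ) (i : ℕ) :
    (pAux row).getD i 0 = row.getD i 0 + row.getD (i + 1) 0 := by
  induction row generalizing i with
  | nil => simp [pAux]
  | cons x r ih =>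
    cases r with
    | nil => cases i <;> simp [pAux]
    | cons y r =>
      cases i with
      | zero => simp [pAux]
      | succ i =>
        simp only [pAux, List.getD_cons_succ]
        rw [ih i]
        simp

private theorem pnext_getD {row : List ℕ} {n : ℕ} (h : ∀ i, row.getD i 0 = n.choose i) (i : ℕ) :
    (pnext row).getD i 0 = (n + 1).choose i := by
  cases i with
  | zero => simp [pnext]
  | succ i =>
    simp only [pnext, List.getD_cons_succ]
    rw [pAux_getD, h, h, Nat.choose_succ_succ]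

private theorem tail_getD (l : List ℕ) (i : ℕ) : l.tail.getD i 0 = l.getD (i + 1) 0 := by
  cases l <;> simp

/-- main invariant -/
private theorem kapS_spec (sg : ℤ) (h k : ℕ → ℤ) (hs1 : List ℕ) :
    ∀ (l row : List ℕ) (kr : List ℤ) (n : ℕ),
      (∀ i, row.getD i 0 = n.choose i) → kr.length = n →
      (∀ i, i < n → kr.getD i 0 = k (n - 1 - i)) →
      (∀ i, i < l.length → ((l.getD i 0 : ℕ) : ℤ) = h (n + i + 1)) →
      (∀ i, i < n + l.length → ((hs1.getD i 0 : ℕ) : ℤ) = h (i + 1)) →
      (∀ m, m < n + l.length → k m = h (m + 1) +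
        sg * ∑ j ∈ Finset.range m, (m.choose j : ℤ) * k j * h (m - j)) →
      (kapS sg hs1 l row kr).length = n + l.length ∧
      ∀ i, i < n + l.length → (kapS sg hs1 l row kr).getD i 0 = k (n + l.length - 1 - i) := by
  intro l
  induction l with
  | nil =>
    intro row kr n _ hlen hkr _ _ _
    simp only [kapS, List.length_nil, add_zero]
    exact ⟨hlen, hkr⟩
  | cons a t ih =>
    intro row kr n hrow hlen hkr hl hs hk
    have hl0 : ((a : ℕ) : ℤ) = h (n + 1) := by
      have := hl 0 (by simp)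
      simpa using this
    have key : ((a : ℤ) + sg * dot3 row.tail kr hs1) = k n := by
      rw [hk n (by simp), hl0, dot3_eq _ _ _ n (by omega)]
      congr 2
      rw [← Finset.sum_range_reflect (fun j => (n.choose j : ℤ) * k j * h (n - j)) n]
      refine Finset.sum_congr rfl ?_
      intro i hi
      rw [Finset.mem_range] at hi
      rw [tail_getD, hrow, hkr i hi]
      push_cast
      rw [hs i (by simp; omega)]
      have h1 : n - (n - 1 - i) = i + 1 := by omega
      have h2 : n.choose (n - 1 - i) = n.choose (i + 1) := by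
        rw [← Nat.choose_symm_of_eq_add]
        omega
      rw [h1, h2]
      ring
    simp only [kapS]
    rw [key]
    have e1 : n + (a :: t).length = (n + 1) + t.length := by simp; omega
    rw [e1]
    refine ih (pnext row) (k n :: kr) (n + 1) (pnext_getD hrow) (by simp [hlen]) ?_ ?_ ?_ ?_
    · intro i hi
      cases i with
      | zero => simp
      | succ i =>
        rw [List.getD_cons_succ, hkr i (by omega)]
        congr 1
        omega
    · intro i hi
      have := hl (i + 1) (by simpa using hi)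
      rw [List.getD_cons_succ] at this
      rw [this]
      congr 1
      omega
    · intro i hi
      exact hs i (by rw [e1]; exact hi)
    · intro m hm
      exact hk m (by rw [e1]; exact hm)

/-- the sequence `κ'_n = κ_{n+1}` -/
private noncomputable def kseq {R : Type*} [CommRing R] (sg : R) (h : ℕ → R) : ℕ → R
  | n => h (n + 1) + sg * ∑ j : Fin n, (n.choose j : R) * kseq sg h j * h (n - j)
termination_by n => n
decreasing_by exact j.isLt

private theorem kseq_eq {R : Type*} [CommRing R] (sg : R) (h : ℕ → R) (n : ℕ) :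
    kseq sg h n = h (n + 1) + sg * ∑ j ∈ Finset.range n, (n.choose j : R) * kseq sg h j * h (n - j) := by
  rw [kseq, Finset.sum_range]

private theorem kapTab_gen (sg : ℤ) (hs : List ℕ) (M : ℕ) (hM : hs.length = M + 1) (k : ℕ → ℤ)
    (hk : ∀ m, m < M → k m = ((hs.getD (m + 1) 0 : ℕ) : ℤ) +
        sg * ∑ j ∈ Finset.range m, (m.choose j : ℤ) * k j * ((hs.getD (m - j) 0 : ℕ) : ℤ)) :
    (kapS sg hs.tail hs.tail [1] []).length = M ∧
      ∀ n, 1 ≤ n → n ≤ M → (kapS sg hs.tail hs.tail [1] []).getD (M - n) 0 = k (n - 1) := by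
  have hl : hs.tail.length = M := by simp [hM]
  have := kapS_spec sg (fun m => ((hs.getD m 0 : ℕ) : ℤ)) k hs.tail hs.tail [1] [] 0 ?_ rfl ?_ ?_ ?_ ?_
  · rw [hl, zero_add] at this
    refine ⟨this.1, ?_⟩
    intro n h1 h2
    rw [this.2 (M - n) (by omega)]
    congr 1
    omega
  · intro i
    cases i with
    | zero => simp
    | succ i => simp
  · intro i hi
    omega
  · intro i _
    rw [tail_getD]
    congr 3
    omega
  · intro i _
    rw [tail_getD]
  · intro m hm
    exact hk m (by omega)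

private theorem real_rec {e Q : ℝ} {M : ℕ} {H k : ℕ → ℝ} (hH : ∀ m, m ≤ M → H m = hm e m * Q ^ m)
    (hk : ∀ n, n < M → k n = H (n + 1) - ∑ j ∈ Finset.range n, (n.choose j : ℝ) * k j * H (n - j)) :
    ∀ n, n < M → k n = -((n.factorial : ℝ) * Sn e (n + 1) * Q ^ (n + 1)) := by
  intro n
  induction n using Nat.strong_induction_on with
  | _ n ih =>
    intro hn
    rw [hk n hn, hH (n + 1) (by omega)]
    have h1 : ∑ j ∈ Finset.range n, (n.choose j : ℝ) * k j * H (n - j) =
        -(Q ^ (n + 1) * ∑ j ∈ Finset.range n,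
          (n.factorial : ℝ) * (Sn e (j + 1) * hm e (n - j) / ((n - j).factorial : ℝ))) := by
      rw [Finset.mul_sum, ← Finset.sum_neg_distrib]
      refine Finset.sum_congr rfl ?_
      intro j hj
      rw [Finset.mem_range] at hj
      rw [ih j hj (by omega), hH (n - j) (by omega)]
      have h2 : (n.choose j : ℝ) * (j.factorial : ℝ) * ((n - j).factorial : ℝ) = n.factorial := by
        exact_mod_cast Nat.choose_mul_factorial_mul_factorial hj.le
      have h3 : Q ^ (n + 1) = Q ^ (j + 1) * Q ^ (n - j) := by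
        rw [← pow_add]
        congr 1
        omega
      have h4 : ((n - j).factorial : ℝ) ≠ 0 := by positivity
      rw [h3, ← h2]
      field_simp
    have h5 : Sn e (n + 1) = -(((n + 1 : ℕ) : ℝ) * hm e (n + 1) / ((n + 1).factorial : ℝ)) -
        ∑ j ∈ Finset.range n, Sn e (j + 1) * hm e (n - j) / ((n - j).factorial : ℝ) := by
      rw [Sn, Fin.sum_univ_eq_sum_range
        (fun j => Sn e j * hm e (n + 1 - j) / ((n + 1 - j).factorial : ℝ)) (n + 1),
        Finset.sum_range_succ']
      have h0 : Sn e 0 = 0 := by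
        rw [Sn]
        simp
      rw [h0]
      simp
    rw [h1, h5]
    have h6 : (n.factorial : ℝ) * (((n + 1 : ℕ) : ℝ) * hm e (n + 1) / ((n + 1).factorial : ℝ)) =
        hm e (n + 1) := by
      rw [Nat.factorial_succ]
      push_cast
      have : ((n : ℝ) + 1) ≠ 0 := by positivity
      have : (n.factorial : ℝ) ≠ 0 := by positivity
      field_simp
    rw [← Finset.mul_sum]
    linear_combination (-(Q ^ (n + 1))) * h6

theorem kapTab_length (p q M : ℕ) : (kapTab (hTab p q M)).length = M := by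
  rw [kapTab, kapAux_eq]
  set hs := hTab p q M with hhs
  exact (kapTab_gen (-1) hs M (hTab_length p q M)
    (kseq (-1) (fun m => ((hs.getD m 0 : ℕ) : ℤ))) (fun m _ => kseq_eq _ _ m)).1

theorem kapTab_real {p q M n : ℕ} (hq : 0 < q) (hpq : p ≤ q) (hn : 1 ≤ n) (hnM : n ≤ M) :
    (((kapTab (hTab p q M)).getD (M - n) 0 : ℤ) : ℝ) =
      -(((n - 1).factorial : ℝ) * Sn ((p : ℝ) / q) n * (q : ℝ) ^ n) := by
  rw [kapTab, kapAux_eq]
  set hs := hTab p q M with hhs
  rw [(kapTab_gen (-1) hs M (hTab_length p q M)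
    (kseq (-1) (fun m => ((hs.getD m 0 : ℕ) : ℤ))) (fun m _ => kseq_eq _ _ m)).2 n hn hnM]
  have := real_rec (e := (p : ℝ) / q) (Q := (q : ℝ)) (M := M)
    (H := fun m => ((hs.getD m 0 : ℕ) : ℝ))
    (k := fun m => ((kseq (-1) (fun m => ((hs.getD m 0 : ℕ) : ℤ)) m : ℤ) : ℝ)) ?_ ?_ (n - 1) (by omega)
  · rw [this]
    rw [Nat.sub_add_cancel hn]
  · intro m hm
    exact hTab_real hq hpq hm
  · intro m _
    show ((kseq (-1) (fun m => ((hs.getD m 0 : ℕ) : ℤ)) m : ℤ) : ℝ) = _
    rw [kseq_eq]
    push_cast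
    ring

/-! ### polynomial version -/

private def Dom (p : ℤ[X]) (r : ℕ[X]) : Prop := ∀ n, |p.coeff n| ≤ (r.coeff n : ℤ)

private theorem Dom.add {p q : ℤ[X]} {r s : ℕ[X]} (h1 : Dom p r) (h2 : Dom q s) :
    Dom (p + q) (r + s) := by
  intro n
  rw [coeff_add, coeff_add]
  push_cast
  exact (abs_add_le _ _).trans (add_le_add (h1 n) (h2 n))

private theorem Dom.neg {p : ℤ[X]} {r : ℕ[X]} (h1 : Dom p r) : Dom (-p) r := by
  intro n
  rw [coeff_neg, abs_neg]
  exact h1 n

private theorem Dom.mul {p q : ℤ[X]} {r s : ℕ[X]} (h1 : Dom p r) (h2 : Dom q s) :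
    Dom (p * q) (r * s) := by
  intro n
  rw [coeff_mul, coeff_mul]
  push_cast
  refine (Finset.abs_sum_le_sum_abs _ _).trans (Finset.sum_le_sum ?_)
  intro x _
  rw [abs_mul]
  exact mul_le_mul (h1 _) (h2 _) (abs_nonneg _) (by positivity)

private theorem Dom.sum {ι : Type*} {s : Finset ι} {p : ι → ℤ[X]} {r : ι → ℕ[X]}
    (h : ∀ i ∈ s, Dom (p i) (r i)) : Dom (∑ i ∈ s, p i) (∑ i ∈ s, r i) := by
  intro n
  rw [finsetSum_coeff, finsetSum_coeff]
  push_cast
  exact (Finset.abs_sum_le_sum_abs _ _).trans (Finset.sum_le_sum fun i hi => h i hi n)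

private theorem Dom.natCast (c : ℕ) : Dom (c : ℤ[X]) (c : ℕ[X]) := by
  intro n
  rw [coeff_natCast_ite, coeff_natCast_ite]
  split_ifs <;> simp

private theorem Dom.map (r : ℕ[X]) : Dom (r.map (Nat.castRingHom ℤ)) r := by
  intro n
  rw [coeff_map]
  simp

private theorem Dom.l1 {p : ℤ[X]} {r : ℕ[X]} (h : Dom p r) :
    (p.sum fun _ a => |a|) ≤ ((r.eval 1 : ℕ) : ℤ) := by
  rw [eval_eq_sum, Polynomial.sum_def, Polynomial.sum_def]
  push_cast
  simp only [one_pow, mul_one]
  have h1 : p.support ⊆ r.support := by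
    intro n hn
    rw [mem_support_iff] at hn ⊢
    intro h0
    have := h n
    rw [h0] at this
    simp at this
    exact hn this
  calc ∑ n ∈ p.support, |p.coeff n| ≤ ∑ n ∈ p.support, (r.coeff n : ℤ) :=
        Finset.sum_le_sum fun n _ => h n
    _ ≤ ∑ n ∈ r.support, (r.coeff n : ℤ) :=
        Finset.sum_le_sum_of_subset_of_nonneg h1 fun n _ _ => by positivity

/-- the positive companion of `kseq (-1)` -/
private noncomputable def kpos (h : ℕ → ℕ[X]) : ℕ → ℕ[X]
  | n => h (n + 1) + ∑ j : Fin n, (n.choose j : ℕ[X]) * kpos h j * h (n - j)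
termination_by n => n
decreasing_by exact j.isLt

private theorem kpos_eq (h : ℕ → ℕ[X]) (n : ℕ) :
    kpos h n = h (n + 1) + ∑ j ∈ Finset.range n, (n.choose j : ℕ[X]) * kpos h j * h (n - j) := by
  rw [kpos, Finset.sum_range]

private theorem Dom.kseq (P : ℕ → ℕ[X]) (n : ℕ) :
    Dom (kseq (-1) (fun m => (P m).map (Nat.castRingHom ℤ)) n) (kpos P n) := by
  induction n using Nat.strong_induction_on with
  | _ n ih =>
    rw [kseq_eq, kpos_eq, neg_mul, one_mul]
    refine (Dom.map _).add (Dom.neg (Dom.sum ?_))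
    intro j hj
    rw [Finset.mem_range] at hj
    exact ((Dom.natCast _).mul (ih j hj)).mul (Dom.map _)

theorem kapTab_poly {an bn d : ℕ} (hd : 0 < d) (ha : an ≤ d) (hb : bn ≤ d) (M : ℕ) :
    ∃ K : ℕ → ℤ[X],
      (∀ n, 1 ≤ n → n ≤ M → ∀ s : ℕ,
        (kapTab (hTab (an + bn * s) (d * (1 + s)) M)).getD (M - n) 0 = (K n).eval (s : ℤ)) ∧
      (∀ n, 1 ≤ n → n ≤ M → ∀ s : ℝ, 0 ≤ s → (K n).eval₂ (Int.castRingHom ℝ) s =
        -(((n - 1).factorial : ℝ) * Sn (((an : ℝ) + bn * s) / (d * (1 + s))) n *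
          ((d : ℝ) * (1 + s)) ^ n)) ∧
      (∀ n, 1 ≤ n → n ≤ M → ((K n).sum fun _ a => |a|) ≤
        (kapAuxN (hTab (an + bn) (2 * d) M).tail (hTab (an + bn) (2 * d) M).tail [1] []).getD
          (M - n) 0) := by
  obtain ⟨P, hP1, hP2⟩ := hTab_poly hd ha hb M
  set Pz : ℕ → ℤ[X] := fun m => (P m).map (Nat.castRingHom ℤ) with hPz
  refine ⟨fun n => kseq (-1) Pz (n - 1), ?_, ?_, ?_⟩
  · intro n h1 h2 s
    rw [kapTab, kapAux_eq]
    refine (kapTab_gen (-1) _ M (hTab_length _ _ M) (fun m => (kseq (-1) Pz m).eval (s : ℤ)) ?_).2 n h1 h2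
    intro m hm
    show (kseq (-1) Pz m).eval (s : ℤ) = _
    have hev : ∀ m, m ≤ M → (Pz m).eval (s : ℤ) =
        (((hTab (an + bn * s) (d * (1 + s)) M).getD m 0 : ℕ) : ℤ) := by
      intro m hm
      rw [hP1 m hm s, hPz]
      exact eval_natCast_map (Nat.castRingHom ℤ) (P m) s
    rw [kseq_eq, eval_add, eval_mul, eval_neg, eval_one, eval_finsetSum, hev (m + 1) (by omega)]
    congr 2
    refine Finset.sum_congr rfl ?_
    intro j hj
    rw [eval_mul, eval_mul, eval_natCast, hev (m - j) (by omega)]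
  · intro n h1 h2 s hs
    have := real_rec (e := ((an : ℝ) + bn * s) / (d * (1 + s))) (Q := (d : ℝ) * (1 + s)) (M := M)
      (H := fun m => (P m).eval₂ (Nat.castRingHom ℝ) s)
      (k := fun m => (kseq (-1) Pz m).eval₂ (Int.castRingHom ℝ) s) ?_ ?_ (n - 1) (by omega)
    · simp only at this ⊢
      rw [this, Nat.sub_add_cancel h1]
    · intro m hm
      exact hP2 m hm s hs
    · intro m _
      show (kseq (-1) Pz m).eval₂ (Int.castRingHom ℝ) s = _
      have hev : ∀ m, (Pz m).eval₂ (Int.castRingHom ℝ) s = (P m).eval₂ (Nat.castRingHom ℝ) s := by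
        intro m
        rw [hPz]
        simp only [eval₂_map]
        congr 1
      rw [kseq_eq, eval₂_add, eval₂_mul, eval₂_neg, eval₂_one, eval₂_finsetSum, hev]
      have : ∑ j ∈ Finset.range m, eval₂ (Int.castRingHom ℝ) s
            ((m.choose j : ℤ[X]) * kseq (-1) Pz j * Pz (m - j)) =
          ∑ j ∈ Finset.range m, (m.choose j : ℝ) * eval₂ (Int.castRingHom ℝ) s (kseq (-1) Pz j) *
            eval₂ (Nat.castRingHom ℝ) s (P (m - j)) := by
        refine Finset.sum_congr rfl ?_
        intro j hj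
        rw [eval₂_mul, eval₂_mul, eval₂_natCast, hev]
      rw [this]
      ring
  · intro n h1 h2
    rw [kapAuxN_eq]
    set hs := hTab (an + bn) (2 * d) M with hhs
    have hev : ∀ m, m ≤ M → ((P m).eval 1 : ℕ) = hs.getD m 0 := by
      intro m hm
      have := hP1 m hm 1
      rw [hhs, ← this]
      congr 2 <;> ring
    have h3 := (kapTab_gen 1 hs M (hTab_length _ _ M) (fun m => (((kpos P m).eval 1 : ℕ) : ℤ)) ?_).2
      n h1 h2
    · rw [h3]
      exact (Dom.kseq P (n - 1)).l1
    · intro m hm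
      show (((kpos P m).eval 1 : ℕ) : ℤ) = _
      rw [kpos_eq, eval_add, eval_finsetSum, hev (m + 1) (by omega), one_mul]
      push_cast
      congr 1
      refine Finset.sum_congr rfl ?_
      intro j hj
      rw [eval_mul, eval_mul, eval_natCast, hev (m - j) (by omega)]
      push_cast
      rfl

end RR
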