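import Pool.Agent.Lib.MP_31701c_co.Kron
import Pool.Agent.Lib.MP_31701c_co.SoundK
import Pool.Agent.Lib.MP_31701c_co.Basic
import Pool.Agent.Lib.MP_31701c_co.NumB1
import Pool.Agent.Lib.MP_31701c_co.NumB2

/-!
# RR-KronB : `CellBOK` for the nine cells

With `K n ∈ ℤ[X]` from `kapTab_poly` (`M = 91`) put `q = d(1+X)` and
`Z = ra^180 (90 K_90² - 89 K_89 K_91) - 33·90·(89!)²·1000^180 q^180 ∈ ℤ[X]`. `checkB B c = true` says that
the hypotheses of `kron_eval_nonneg` hold for `Z` (`kapTab` entries: index `0` is `κ_91`, `1` is `κ_90`,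
`2` is `κ_89`; the bound for the coefficients is the `s = 1` computation with `kapAuxN`). For real
`s ≥ 0`, `e = (an + bn s)/(d(1+s))`: `K_n(s) = -(n-1)! S_n q^n`, so
`90 K_90² - 89 K_89 K_91 = 90 (89!)² q^180 (S_90² - S_89 S_91)` (`88! · 90! · 89 = 90 · (89!)²`), and
`Z(s) ≥ 0` is the inequality of `CellBOK`. The end point `e = bn/d` by continuity (`continuous_Sn`).
-/

set_option autoImplicit false

namespace RR

open Polynomial

/-- sum of the absolute values of the coefficients -/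
private noncomputable def nrm (P : ℤ[X]) : ℤ := P.sum fun _ a => |a|

private theorem nrm_nonneg (P : ℤ[X]) : 0 ≤ nrm P := by
  unfold nrm
  rw [Polynomial.sum_def]
  exact Finset.sum_nonneg fun i _ => abs_nonneg _

private theorem nrm_C (a : ℤ) : nrm (C a) = |a| := by
  unfold nrm
  rw [Polynomial.sum_C_index (by simp)]

private theorem nrm_one_add_X : nrm (1 + X : ℤ[X]) ≤ 2 := by
  refine (norm_add_le 1 X).trans ?_
  have h1 : ((1 : ℤ[X]).sum fun _ a => |a|) = 1 := by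
    have := nrm_C 1
    simpa [nrm] using this
  have h2 : ((X : ℤ[X]).sum fun _ a => |a|) = 1 := by
    rw [Polynomial.sum_X_index (by simp)]; simp
  rw [h1, h2]; norm_num

private theorem nrm_pow_le (P : ℤ[X]) (k : ℕ) : nrm (P ^ k) ≤ nrm P ^ k := by
  induction k with
  | zero =>
    rw [pow_zero, pow_zero]
    have h1 : nrm (1 : ℤ[X]) = 1 := by
      have := nrm_C 1
      simpa using this
    rw [h1]
  | succ k ih =>
    rw [pow_succ, pow_succ]
    exact (norm_mul_le _ _).trans (mul_le_mul_of_nonneg_right ih (nrm_nonneg P))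

private theorem nrm_C_mul_le (a : ℤ) (P : ℤ[X]) : nrm (C a * P) ≤ |a| * nrm P := by
  have h := norm_mul_le (C a) P
  have h2 := nrm_C a
  unfold nrm at h2 ⊢
  rw [h2] at h
  exact h

/-- the constant -/
private def kbG : ℕ := 33 * 90 * (Nat.factorial 89) ^ 2 * 1000 ^ 180

private theorem cB_eq (q : ℕ) : cB q = kbG * q ^ 180 := by
  unfold cB kbG
  rfl

/-- the polynomial `Z` -/
private noncomputable def ZZ (ra d : ℕ) (K : ℕ → ℤ[X]) : ℤ[X] :=
  C ((ra : ℤ) ^ 180) * (C 90 * K 90 ^ 2 - C 89 * (K 89 * K 91)) -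
    C (kbG : ℤ) * (C (d : ℤ) * (1 + X)) ^ 180

private theorem ZZ_nrm {ra d : ℕ} {K : ℕ → ℤ[X]} {L : List ℤ}
    (h89 : nrm (K 89) ≤ L.getD 2 0) (h90 : nrm (K 90) ≤ L.getD 1 0)
    (h91 : nrm (K 91) ≤ L.getD 0 0) :
    nrm (ZZ ra d K) ≤ (ra : ℤ) ^ 180 * dBN L + ((cB (2 * d) : ℕ) : ℤ) := by
  unfold ZZ
  refine (norm_sub_le _ _).trans ?_
  refine add_le_add ?_ ?_
  · refine (nrm_C_mul_le _ _).trans ?_
    rw [abs_of_nonneg (by positivity)]
    refine mul_le_mul_of_nonneg_left ?_ (by positivity)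
    refine (norm_sub_le _ _).trans ?_
    unfold dBN
    refine add_le_add ?_ ?_
    · refine (nrm_C_mul_le _ _).trans ?_
      have h1 : |(90 : ℤ)| = 90 := by norm_num
      rw [h1]
      refine mul_le_mul_of_nonneg_left ?_ (by norm_num)
      refine (nrm_pow_le _ _).trans ?_
      exact pow_le_pow_left₀ (nrm_nonneg _) h90 2
    · refine (nrm_C_mul_le _ _).trans ?_
      have h1 : |(89 : ℤ)| = 89 := by norm_num
      rw [h1]
      refine mul_le_mul_of_nonneg_left ?_ (by norm_num)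
      refine (norm_mul_le _ _).trans ?_
      exact mul_le_mul h89 h91 (nrm_nonneg _) ((nrm_nonneg _).trans h89)
  · refine (nrm_C_mul_le _ _).trans ?_
    rw [abs_of_nonneg (by positivity)]
    have h2 : nrm ((C (d : ℤ) * (1 + X)) ^ 180) ≤ ((2 * d : ℕ) : ℤ) ^ 180 := by
      refine (nrm_pow_le _ _).trans ?_
      refine pow_le_pow_left₀ (nrm_nonneg _) ?_ 180
      refine (nrm_C_mul_le _ _).trans ?_
      rw [abs_of_nonneg (by positivity)]
      push_cast
      have h3 := nrm_one_add_X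
      have h4 : (0 : ℤ) ≤ d := by positivity
      nlinarith
    refine (mul_le_mul_of_nonneg_left h2 (by positivity)).trans (le_of_eq ?_)
    rw [cB_eq, Nat.cast_mul kbG, Nat.cast_pow]

private theorem ZZ_eval {ra d s : ℕ} {K : ℕ → ℤ[X]} {L : List ℤ}
    (h89 : L.getD 2 0 = (K 89).eval (s : ℤ)) (h90 : L.getD 1 0 = (K 90).eval (s : ℤ))
    (h91 : L.getD 0 0 = (K 91).eval (s : ℤ)) :
    (ZZ ra d K).eval (s : ℤ) = (ra : ℤ) ^ 180 * dB L - ((cB (d * (1 + s)) : ℕ) : ℤ) := by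
  unfold ZZ dB
  rw [h89, h90, h91, cB_eq]
  simp only [Polynomial.eval_sub, Polynomial.eval_mul, Polynomial.eval_C, Polynomial.eval_pow,
    Polynomial.eval_add, Polynomial.eval_one, Polynomial.eval_X]
  rw [Nat.cast_mul, Nat.cast_pow, Nat.cast_mul, Nat.cast_add, Nat.cast_one]

private theorem kbG_cast {M f : ℝ} (hM : M = (1000 : ℝ) ^ 180)
    (hf : f = ((Nat.factorial 89 : ℕ) : ℝ)) : ((kbG : ℕ) : ℝ) = 33 * 90 * f ^ 2 * M := by
  unfold kbG
  rw [Nat.cast_mul, Nat.cast_mul, Nat.cast_mul, Nat.cast_pow, Nat.cast_pow, ← hf, Nat.cast_ofNat,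
    Nat.cast_ofNat, Nat.cast_ofNat, ← hM]

private theorem fac1 {f : ℝ} (hf : f = ((Nat.factorial 89 : ℕ) : ℝ)) :
    89 * ((Nat.factorial (89 - 1) : ℕ) : ℝ) = f := by
  rw [hf]
  have h : Nat.factorial 89 = 89 * Nat.factorial (89 - 1) :=
    (Nat.mul_factorial_pred (by norm_num)).symm
  rw [h, Nat.cast_mul, Nat.cast_ofNat]

private theorem fac2 {f : ℝ} (hf : f = ((Nat.factorial 89 : ℕ) : ℝ)) :
    ((Nat.factorial (91 - 1) : ℕ) : ℝ) = 90 * f := by
  rw [hf]
  have h : Nat.factorial (91 - 1) = 90 * Nat.factorial 89 := Nat.factorial_succ 89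
  rw [h, Nat.cast_mul, Nat.cast_ofNat]

private theorem alg {R M f f8 S90 S89 S91 Q : ℝ} (h89 : 89 * f8 = f) (hQ : 0 < Q)
    (hf : 0 < f)
    (h : 0 ≤ R * (90 * (-(f * S90 * Q ^ 90)) ^ 2 -
      89 * (-(f8 * S89 * Q ^ 89) * -(90 * f * S91 * Q ^ 91))) -
      33 * 90 * f ^ 2 * M * Q ^ 180) : 33 * M ≤ (S90 ^ 2 - S89 * S91) * R := by
  have e5 : R * (90 * (-(f * S90 * Q ^ 90)) ^ 2 -
      89 * (-(f8 * S89 * Q ^ 89) * -(90 * f * S91 * Q ^ 91))) -
      33 * 90 * f ^ 2 * M * Q ^ 180 =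
      90 * f ^ 2 * Q ^ 180 * ((S90 ^ 2 - S89 * S91) * R - 33 * M) := by
    rw [← h89]
    ring
  rw [e5] at h
  have h7 : 0 < 90 * f ^ 2 * Q ^ 180 := by positivity
  have h8 := nonneg_of_mul_nonneg_right h h7
  linarith

private theorem ZZ_eval2 (ra d : ℕ) (K : ℕ → ℤ[X]) (s : ℝ) :
    (ZZ ra d K).eval₂ (Int.castRingHom ℝ) s = (ra : ℝ) ^ 180 *
      (90 * (K 90).eval₂ (Int.castRingHom ℝ) s ^ 2 -
        89 * ((K 89).eval₂ (Int.castRingHom ℝ) s * (K 91).eval₂ (Int.castRingHom ℝ) s)) -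
      ((kbG : ℕ) : ℝ) * ((d : ℝ) * (1 + s)) ^ 180 := by
  unfold ZZ
  rw [Polynomial.eval₂_sub, Polynomial.eval₂_mul, Polynomial.eval₂_mul, Polynomial.eval₂_sub,
    Polynomial.eval₂_mul, Polynomial.eval₂_mul, Polynomial.eval₂_mul, Polynomial.eval₂_C,
    Polynomial.eval₂_C, Polynomial.eval₂_C, Polynomial.eval₂_C, Polynomial.eval₂_pow,
    Polynomial.eval₂_pow, Polynomial.eval₂_mul, Polynomial.eval₂_add, Polynomial.eval₂_one,
    Polynomial.eval₂_X, Polynomial.eval₂_C]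
  rw [eq_intCast, eq_intCast, eq_intCast, eq_intCast, eq_intCast, Int.cast_pow, Int.cast_natCast,
    Int.cast_natCast, Int.cast_natCast, Int.cast_ofNat, Int.cast_ofNat]

private theorem ZZ_real {ra d : ℕ} (hd : 0 < d) {K : ℕ → ℤ[X]} {s e : ℝ} (hs : 0 ≤ s)
    (hK : ∀ n, 1 ≤ n → n ≤ 91 → (K n).eval₂ (Int.castRingHom ℝ) s =
        -(((n - 1).factorial : ℝ) * Sn e n * ((d : ℝ) * (1 + s)) ^ n))
    (h : 0 ≤ (ZZ ra d K).eval₂ (Int.castRingHom ℝ) s) :
    33 ≤ (Sn e 90 ^ 2 - Sn e 89 * Sn e 91) * ((ra : ℝ) / 1000) ^ 180 := by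
  have hd' : (0 : ℝ) < d := by exact_mod_cast hd
  rw [ZZ_eval2, hK 90 (by norm_num) (by norm_num), hK 89 (by norm_num) (by norm_num),
    hK 91 (by norm_num) (by norm_num)] at h
  obtain ⟨Q, hQ⟩ : ∃ Q : ℝ, Q = (d : ℝ) * (1 + s) := ⟨_, rfl⟩
  rw [← hQ] at h
  have hQpos : 0 < Q := by rw [hQ]; positivity
  obtain ⟨f, hf⟩ : ∃ f : ℝ, f = ((Nat.factorial 89 : ℕ) : ℝ) := ⟨_, rfl⟩
  obtain ⟨M, hM⟩ : ∃ M : ℝ, M = (1000 : ℝ) ^ 180 := ⟨_, rfl⟩
  have hfpos : 0 < f := by rw [hf]; exact Nat.cast_pos.mpr (Nat.factorial_pos 89)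
  have hMpos : 0 < M := by rw [hM]; exact pow_pos (by norm_num) 180
  have e1 : ((Nat.factorial (90 - 1) : ℕ) : ℝ) = f := hf.symm
  rw [kbG_cast hM hf, fac2 hf, e1] at h
  have h8 := alg (fac1 hf) hQpos hfpos h
  rw [div_pow, mul_div_assoc', ← hM, le_div_iff₀ hMpos]
  exact h8

/-- the inequality at all the points `(an + bn s)/(d(1+s))` -/
private theorem cellB_pts {c : Cell} (hd : 0 < c.d) (hab : c.an ≤ c.bn) (hb : c.bn ≤ c.d)
    {B : ℕ} (hB : 1 ≤ B) (h : checkB B c = true) {s : ℝ} (hs : 0 ≤ s) :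
    33 ≤ (Sn (((c.an : ℝ) + c.bn * s) / (c.d * (1 + s))) 90 ^ 2 -
      Sn (((c.an : ℝ) + c.bn * s) / (c.d * (1 + s))) 89 *
        Sn (((c.an : ℝ) + c.bn * s) / (c.d * (1 + s))) 91) * ((c.ra : ℝ) / 1000) ^ 180 := by
  obtain ⟨K, hK1, hK2, hK3⟩ := kapTab_poly hd (hab.trans hb) hb 91
  unfold checkB at h
  rw [Bool.and_eq_true, Bool.and_eq_true, decide_eq_true_iff, decide_eq_true_iff] at h
  obtain ⟨⟨h1, h2⟩, h3⟩ := h
  have hnrm : nrm (ZZ c.ra c.d K) < 2 ^ (B - 1) :=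
    lt_of_le_of_lt (ZZ_nrm (hK3 89 (by norm_num) (by norm_num)) (hK3 90 (by norm_num) (by norm_num))
      (hK3 91 (by norm_num) (by norm_num))) h1
  have hev := ZZ_eval (ra := c.ra) (d := c.d) (hK1 89 (by norm_num) (by norm_num) (2 ^ B))
    (hK1 90 (by norm_num) (by norm_num) (2 ^ B)) (hK1 91 (by norm_num) (by norm_num) (2 ^ B))
  have hcast : (((2 ^ B : ℕ)) : ℤ) = 2 ^ B := by push_cast; rfl
  rw [hcast] at hev
  rw [← hev] at h2 h3
  exact ZZ_real hd hs (fun n h4 h5 => hK2 n h4 h5 s hs) (kron_eval_nonneg hB hnrm h2 h3 hs)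

theorem cellB_of_check {c : Cell} (hd : 0 < c.d) (hab : c.an ≤ c.bn) (hb : c.bn ≤ c.d)
    {B : ℕ} (hB : 1 ≤ B) (h : checkB B c = true) : CellBOK c := by
  have hd' : (0 : ℝ) < c.d := by exact_mod_cast hd
  rcases Nat.eq_or_lt_of_le hab with hab2 | hab2
  · intro e he1 he2
    have he : e = ((c.an : ℝ) + c.bn * 0) / (c.d * (1 + 0)) := by
      rw [← hab2] at he2
      rw [mul_zero, add_zero, add_zero, mul_one]
      exact le_antisymm he2 he1
    rw [he]
    exact cellB_pts hd hab hb hB h le_rfl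
  · have hab' : (c.an : ℝ) < c.bn := by exact_mod_cast hab2
    have hlt : (c.an : ℝ) / c.d < (c.bn : ℝ) / c.d := by gcongr
    have hclosed : IsClosed {e : ℝ | 33 ≤ (Sn e 90 ^ 2 - Sn e 89 * Sn e 91) *
        ((c.ra : ℝ) / 1000) ^ 180} :=
      isClosed_le continuous_const
        ((((continuous_Sn 90).pow 2).sub ((continuous_Sn 89).mul (continuous_Sn 91))).mul
          continuous_const)
    have hsub : Set.Ico ((c.an : ℝ) / c.d) ((c.bn : ℝ) / c.d) ⊆
        {e : ℝ | 33 ≤ (Sn e 90 ^ 2 - Sn e 89 * Sn e 91) * ((c.ra : ℝ) / 1000) ^ 180} := by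
      intro e he
      obtain ⟨he1, he2⟩ := he
      rw [div_le_iff₀ hd'] at he1
      rw [lt_div_iff₀ hd'] at he2
      have hpos : 0 < (c.bn : ℝ) - e * c.d := by linarith
      have hs : 0 ≤ (e * c.d - c.an) / (c.bn - e * c.d) := div_nonneg (by linarith) hpos.le
      have hes : ((c.an : ℝ) + c.bn * ((e * c.d - c.an) / (c.bn - e * c.d))) /
          (c.d * (1 + (e * c.d - c.an) / (c.bn - e * c.d))) = e := by
        have h5 : (c.bn : ℝ) - c.an ≠ 0 := by linarith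
        have h6 : 1 + (e * c.d - c.an) / (c.bn - e * c.d) = (c.bn - c.an) / (c.bn - e * c.d) := by
          field_simp
          ring
        rw [h6]
        field_simp
        ring
      have h7 := cellB_pts hd hab hb hB h hs
      rw [hes] at h7
      exact h7
    intro e he1 he2
    have hcl := hclosed.closure_subset_iff.mpr hsub
    rw [closure_Ico hlt.ne] at hcl
    exact hcl ⟨he1, he2⟩

private theorem cells_ok : ∀ c ∈ cells, 0 < c.d ∧ c.an ≤ c.bn ∧ c.bn ≤ c.d := by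
  intro c hc
  simp only [cells, List.mem_cons, List.not_mem_nil, or_false] at hc
  rcases hc with rfl | rfl | rfl | rfl | rfl | rfl | rfl | rfl | rfl <;>
    refine ⟨?_, ?_, ?_⟩ <;> norm_num

private theorem cellB_step {i B : ℕ} (hB : 1 ≤ B)
    (h : (cells[i]?.map (checkB B)) = some true) {c : Cell} (hc : cells[i]? = some c) :
    CellBOK c := by
  have hmem : c ∈ cells := List.mem_of_getElem? hc
  obtain ⟨h1, h2, h3⟩ := cells_ok c hmem
  rw [hc, Option.map_some] at h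
  exact cellB_of_check h1 h2 h3 hB (Option.some.inj h)

theorem cellB_all : ∀ c ∈ cells, CellBOK c := by
  intro c hc
  obtain ⟨i, hi⟩ := List.mem_iff_getElem?.mp hc
  have hlen : cells.length = 9 := rfl
  have hi9 : i < 9 := by
    by_contra hcon
    rw [List.getElem?_eq_none (by omega)] at hi
    exact absurd hi (by simp)
  have hcases : i = 0 ∨ i = 1 ∨ i = 2 ∨ i = 3 ∨ i = 4 ∨ i = 5 ∨ i = 6 ∨ i = 7 ∨ i = 8 := by omega
  rcases hcases with h | h | h | h | h | h | h | h | h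
  · rw [h] at hi; exact cellB_step (by norm_num) numB0 hi
  · rw [h] at hi; exact cellB_step (by norm_num) numB1 hi
  · rw [h] at hi; exact cellB_step (by norm_num) numB2 hi
  · rw [h] at hi; exact cellB_step (by norm_num) numB3 hi
  · rw [h] at hi; exact cellB_step (by norm_num) numB4 hi
  · rw [h] at hi; exact cellB_step (by norm_num) numB5 hi
  · rw [h] at hi; exact cellB_step (by norm_num) numB6 hi
  · rw [h] at hi; exact cellB_step (by norm_num) numB7 hi
  · rw [h] at hi; exact cellB_step (by norm_num) numB8 hi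

end RR
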