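import Pool.Agent.Lib.MP_31701c_co.Basic

/-!
# RR-PowerSums : `S_n` is a power sum of the inverse roots of `H_N` (`1 ≤ n ≤ N`)

Over `ℂ` the polynomial `P = (HN e N).map ofReal` splits, `P(0) = 1`, so
`P = ∏_ρ (1 - ρ⁻¹ X)` (from `P = C lead * ∏ (X - ρ)` and `P(0) = 1`, all `ρ ≠ 0`).
For a multiset `M` put `p_n = ∑_{ρ ∈ M} ρ^{-n}` and `P_M = ∏ (1 - ρ⁻¹ X)`; by induction on `M`
(power series): `X * P_M' = - P_M * ∑_{n ≥ 1} p_n X^n`. Comparing coefficients of `X^n`:
`n P_n + ∑_{j=1}^{n} p_j P_{n-j} = 0` where `P_m = hm e m / m!` for `m ≤ N`. This is the recursion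
that defines `Sn`; strong induction on `n`.
-/

set_option autoImplicit false

namespace RR

open Polynomial

private noncomputable def psQ (M : Multiset ℂ) : ℂ[X] :=
  (M.map fun r => 1 - C (r⁻¹) * X).prod

private noncomputable def psP (M : Multiset ℂ) : PowerSeries ℂ :=
  PowerSeries.mk fun n => if n = 0 then 0 else (M.map fun r => (r⁻¹) ^ n).sum

private theorem psP_cons (a : ℂ) (M : Multiset ℂ) :
    psP (a ::ₘ M) = PowerSeries.mk (fun n => if n = 0 then 0 else (a⁻¹) ^ n) + psP M := by
  ext n
  by_cases hn : n = 0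
  · simp [psP, hn]
  · simp [psP, hn]

private theorem psG (a : ℂ) :
    (1 - PowerSeries.C (a⁻¹) * PowerSeries.X) *
      PowerSeries.mk (fun n => if n = 0 then 0 else (a⁻¹) ^ n) =
      (PowerSeries.C (a⁻¹) * PowerSeries.X : PowerSeries ℂ) := by
  ext n
  rw [sub_mul, one_mul, map_sub, mul_assoc, PowerSeries.coeff_C_mul, PowerSeries.coeff_C_mul]
  rcases n with _ | n
  · simp
  · rw [PowerSeries.coeff_succ_X_mul, PowerSeries.coeff_mk, PowerSeries.coeff_mk,
      PowerSeries.coeff_X]
    rcases n with _ | n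
    · simp
    · simp [pow_succ]
      ring

private theorem psQ_deriv (M : Multiset ℂ) :
    ((X * derivative (psQ M) : ℂ[X]) : PowerSeries ℂ) = -((psQ M : ℂ[X]) : PowerSeries ℂ) * psP M := by
  induction M using Multiset.induction_on with
  | empty =>
    have : psP 0 = 0 := by
      ext n
      simp [psP]
    simp [psQ, this]
  | cons a M ih =>
    have h1 : psQ (a ::ₘ M) = (1 - C (a⁻¹) * X) * psQ M := by
      simp [psQ]
    have h2 : derivative (psQ (a ::ₘ M)) =
        (-C (a⁻¹)) * psQ M + (1 - C (a⁻¹) * X) * derivative (psQ M) := by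
      rw [h1, derivative_mul]
      simp
    have h3 : (X * derivative (psQ (a ::ₘ M)) : ℂ[X]) =
        -(C (a⁻¹) * X) * psQ M + (1 - C (a⁻¹) * X) * (X * derivative (psQ M)) := by
      rw [h2]
      ring
    rw [h3, h1, psP_cons]
    rw [Polynomial.coe_add, Polynomial.coe_mul, Polynomial.coe_mul (1 - C (a⁻¹) * X) (X * derivative (psQ M)),
      ih, Polynomial.coe_mul]
    have h4 : ((1 - C (a⁻¹) * X : ℂ[X]) : PowerSeries ℂ) = 1 - PowerSeries.C (a⁻¹) * PowerSeries.X := by
      simp
    have h5 : ((-(C (a⁻¹) * X) : ℂ[X]) : PowerSeries ℂ) = -(PowerSeries.C (a⁻¹) * PowerSeries.X) := by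
      simp
    rw [h4, h5]
    have h6 := psG a
    linear_combination (-(psQ M : PowerSeries ℂ)) * (-1 : PowerSeries ℂ) * h6

private theorem ps_coeff (M : Multiset ℂ) (n : ℕ) :
    (n : ℂ) * (psQ M).coeff n =
      -∑ j ∈ Finset.range (n + 1), (PowerSeries.coeff j (psP M)) * (psQ M).coeff (n - j) := by
  have h := congrArg (PowerSeries.coeff n) (psQ_deriv M)
  rw [Polynomial.coeff_coe, neg_mul, map_neg, PowerSeries.coeff_mul,
    Finset.Nat.sum_antidiagonal_eq_sum_range_succ_mk] at h
  have hl : (X * derivative (psQ M)).coeff n = (n : ℂ) * (psQ M).coeff n := by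
    rcases n with _ | n
    · simp
    · rw [Polynomial.coeff_X_mul, Polynomial.coeff_derivative]
      push_cast
      ring
  rw [hl] at h
  rw [h]
  congr 1
  rw [← Finset.sum_range_reflect]
  refine Finset.sum_congr rfl fun j hj => ?_
  have hj' : j ≤ n := by
    have := Finset.mem_range.1 hj
    omega
  have e1 : n + 1 - 1 - j = n - j := by omega
  have e2 : n - (n - j) = j := by omega
  simp only [e1, e2, Polynomial.coeff_coe]
  ring

private theorem eq_psQ (P : ℂ[X]) (h0 : P.coeff 0 = 1) : P = psQ P.roots := by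
  have hP : P ≠ 0 := by
    rintro rfl
    simp at h0
  have h0r : ∀ r ∈ P.roots, r ≠ 0 := by
    intro r hr hr0
    rw [hr0, Polynomial.mem_roots hP, Polynomial.IsRoot.def, ← Polynomial.coeff_zero_eq_eval_zero, h0] at hr
    exact one_ne_zero hr
  have hs : P = C P.leadingCoeff * (P.roots.map fun a => X - C a).prod :=
    (IsAlgClosed.splits P).eq_prod_roots
  have hmul : ∀ M : Multiset ℂ, (∀ r ∈ M, r ≠ 0) →
      (M.map fun a => X - C a).prod = C ((M.map fun a => -a).prod) * psQ M := by
    intro M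
    induction M using Multiset.induction_on with
    | empty => intro _; simp [psQ]
    | cons a M ih =>
      intro hM
      have ha : a ≠ 0 := hM a (Multiset.mem_cons_self a M)
      have h1 := ih fun r hr => hM r (Multiset.mem_cons_of_mem hr)
      rw [Multiset.map_cons, Multiset.prod_cons, h1, Multiset.map_cons, Multiset.prod_cons]
      have h2 : psQ (a ::ₘ M) = (1 - C (a⁻¹) * X) * psQ M := by
        simp [psQ]
      rw [h2, C_mul]
      have h3 : (X - C a : ℂ[X]) = C (-a) * (1 - C (a⁻¹) * X) := by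
        have : C a * C (a⁻¹) = (1 : ℂ[X]) := by
          rw [← C_mul, mul_inv_cancel₀ ha, C_1]
        rw [C_neg]
        linear_combination (-X : ℂ[X]) * this
      rw [h3]
      ring
  have h1 : P = C (P.leadingCoeff * (P.roots.map fun a => -a).prod) * psQ P.roots := by
    conv_lhs => rw [hs, hmul _ h0r]
    rw [C_mul]
    ring
  have h2 : (psQ P.roots).coeff 0 = 1 := by
    generalize P.roots = M
    induction M using Multiset.induction_on with
    | empty => simp [psQ]
    | cons a M ih =>
      have h2 : psQ (a ::ₘ M) = (1 - C (a⁻¹) * X) * psQ M := by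
        simp [psQ]
      rw [h2, Polynomial.mul_coeff_zero, ih]
      simp
  have h3 : P.leadingCoeff * (P.roots.map fun a => -a).prod = 1 := by
    have := congrArg (fun Q : ℂ[X] => Q.coeff 0) h1
    simp only [Polynomial.coeff_C_mul] at this
    rw [h0, h2, mul_one] at this
    exact this.symm
  rw [h3, C_1, one_mul] at h1
  exact h1

theorem Sn_eq_sum {e : ℝ} {N n : ℕ} (hn : 1 ≤ n) (hN : n ≤ N) :
    ((Sn e n : ℝ) : ℂ) = ((rts e N).map fun r => (r⁻¹) ^ n).sum := by
  set P : ℂ[X] := (HN e N).map (algebraMap ℝ ℂ) with hPdef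
  have hc : ∀ m, m ≤ N → P.coeff m = ((hm e m / (m.factorial : ℝ) : ℝ) : ℂ) := by
    intro m hm
    rw [hPdef, Polynomial.coeff_map, HN_coeff, if_pos hm]
    rfl
  have hP0 : P.coeff 0 = 1 := by
    rw [hc 0 (Nat.zero_le _), hm_zero]
    simp
  have hPQ : P = psQ (rts e N) := eq_psQ P hP0
  have key : ∀ k, k ≤ N → ((Sn e k : ℝ) : ℂ) = PowerSeries.coeff k (psP (rts e N)) := by
    intro k
    induction k using Nat.strong_induction_on with
    | _ k ih =>
      intro hk
      have h1 := ps_coeff (rts e N) k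
      rw [← hPQ, Finset.sum_range_succ, Nat.sub_self, hP0, mul_one, hc k hk] at h1
      have h2 : ∑ j ∈ Finset.range k, PowerSeries.coeff j (psP (rts e N)) * P.coeff (k - j) =
          ((∑ j : Fin k, Sn e j * hm e (k - j) / ((k - (j : ℕ)).factorial : ℝ) : ℝ) : ℂ) := by
        rw [Complex.ofReal_sum, ← Fin.sum_univ_eq_sum_range
          (fun j => PowerSeries.coeff j (psP (rts e N)) * P.coeff (k - j)) k]
        refine Finset.sum_congr rfl fun j _ => ?_
        rw [hc _ (by omega), ← ih j j.isLt (by omega)]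
        push_cast
        ring
      rw [h2] at h1
      rw [Sn]
      push_cast
      push_cast at h1
      linear_combination (-1 : ℂ) * h1
  rw [key n hN, psP, PowerSeries.coeff_mk, if_neg (by omega)]

end RR
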