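import Pool.Agent.Lib.MP_31701c_co.Integral

/-!
# RR-Tail : `F_N` versus the integral `XI`, positivity of `H_N` on the real axis

For `0 ≤ e < 1` and every complex `z`:
`XI e z = (2/π) ∫ (e^{tz} - 1 - tz) sin²/QQ = ∑_{m ≥ 2} xm e m z^m/m!` (exchange sum and integral:
`|t| ≤ 3`, uniformly convergent; `xm_integral`; recall `xm e 0 = xm e 1 = 0`), and
`XI1 e z = ∑_{m ≥ 2} xm e m z^{m-1}/(m-1)!`.
Tail: `xm e m ≤ 3^m`. For `N ≥ 400`, `‖z‖ ≤ 0.043 N`, `m ≥ N`: `(3‖z‖)^m/m! ≤ (0.129 N e/m)^m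
≤ 0.351^m` (`m! ≥ (m/e)^m`), so both tails are `≤ 3 * 0.351^400/0.649 ≤ 1e-15`.
`HN_pos_real`: for `e = 1`, `H_N = 1`. For `e < 1`: `H(x) = 1 + β XI e x ≥ 1` because
`e^u - 1 - u ≥ 0`; so `H_N(x) = 1 + β F_N(x) ≥ 1 - 1e-15 > 0`.
-/

set_option autoImplicit false

namespace RR

open Polynomial

private theorem rrTail_pow {n : ℕ} (hn : 400 ≤ n) {r : ℝ} (h0 : 0 ≤ r) (hr : r ≤ 0.129 * n) :
    r ^ n / (n.factorial : ℝ) ≤ 1e-18 := by
  have hf : (0 : ℝ) < (n.factorial : ℝ) := by exact_mod_cast n.factorial_pos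
  have h1 : r ^ n / (n.factorial : ℝ) ≤ (0.129 * n) ^ n / (n.factorial : ℝ) :=
    div_le_div_of_nonneg_right (pow_le_pow_left₀ h0 hr n) hf.le
  have h2 : (0.129 * (n : ℝ)) ^ n / (n.factorial : ℝ) = 0.129 ^ n * ((n : ℝ) ^ n / (n.factorial : ℝ)) := by
    rw [mul_pow]; ring
  have h3 : (n : ℝ) ^ n / (n.factorial : ℝ) ≤ Real.exp n :=
    Real.pow_div_factorial_le_exp (n : ℝ) (Nat.cast_nonneg n) n
  have h4 : Real.exp n = Real.exp 1 ^ n := by rw [← Real.exp_nat_mul, mul_one]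
  have h5 : (0.129 : ℝ) ^ n * ((n : ℝ) ^ n / (n.factorial : ℝ)) ≤ 0.129 ^ n * Real.exp 1 ^ n := by
    rw [← h4]
    exact mul_le_mul_of_nonneg_left h3 (by positivity)
  have h6 : (0.129 : ℝ) * Real.exp 1 ≤ 0.351 := by
    have := Real.exp_one_lt_d9
    nlinarith
  have h7 : (0.129 : ℝ) ^ n * Real.exp 1 ^ n ≤ 0.351 ^ n := by
    rw [← mul_pow]
    exact pow_le_pow_left₀ (mul_nonneg (by norm_num) (Real.exp_pos 1).le) h6 n
  have h8 : (0.351 : ℝ) ^ n ≤ 0.351 ^ 40 :=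
    pow_le_pow_of_le_one (by norm_num) (by norm_num) (by omega)
  have h9 : (0.351 : ℝ) ^ 40 ≤ 1e-18 := by norm_num
  linarith

private theorem rrTail_tt {e : ℝ} (h0 : 0 ≤ e) (h1 : e < 1) (θ : ℝ) : |tt e θ| ≤ 3 := by
  unfold tt
  rw [abs_le]
  constructor <;> linarith [Real.neg_one_le_cos θ, Real.cos_le_one θ]

/-- the weight -/
private noncomputable def rrTail_w (e θ : ℝ) : ℝ := Real.sin θ ^ 2 / QQ e (tt e θ)

private theorem rrTail_w_nonneg {e : ℝ} (h0 : 0 ≤ e) (h1 : e < 1) (θ : ℝ) : 0 ≤ rrTail_w e θ :=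
  div_nonneg (sq_nonneg _) (QQ_pos h0 h1 _).le

private theorem rrTail_cont_tt (e : ℝ) : Continuous (tt e) := by
  unfold tt
  fun_prop

private theorem rrTail_cont_w {e : ℝ} (h0 : 0 ≤ e) (h1 : e < 1) : Continuous (rrTail_w e) := by
  unfold rrTail_w
  refine Continuous.div (by fun_prop) ?_ fun θ => (QQ_pos h0 h1 _).ne'
  unfold QQ tt
  fun_prop

private theorem rrTail_x {e : ℝ} (h0 : 0 ≤ e) (h1 : e < 1) {m : ℕ} (hm : 1 ≤ m) :
    ((xm e m : ℝ) : ℂ) = ((2 / Real.pi : ℝ) : ℂ) *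
      ∫ θ in (0:ℝ)..Real.pi, ((tt e θ : ℝ) : ℂ) ^ m * ((rrTail_w e θ : ℝ) : ℂ) := by
  rw [xm_integral h0 h1 hm, Complex.ofReal_mul, ← intervalIntegral.integral_ofReal]
  congr 1
  have : (fun θ : ℝ => ((tt e θ ^ m * (Real.sin θ ^ 2 / QQ e (tt e θ)) : ℝ) : ℂ)) =
      fun θ => ((tt e θ : ℝ) : ℂ) ^ m * ((rrTail_w e θ : ℝ) : ℂ) := by
    funext θ
    unfold rrTail_w
    push_cast
    ring
  rw [this]

private theorem rrTail_t2 {e : ℝ} (h0 : 0 ≤ e) (h1 : e < 1) :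
    2 / Real.pi * ∫ θ in (0:ℝ)..Real.pi, tt e θ ^ 2 * rrTail_w e θ = 1 := by
  have := xm_integral h0 h1 (m := 2) (by norm_num)
  rw [xm_two] at this
  exact this.symm

/-- the norm estimate -/
private theorem rrTail_norm {e : ℝ} (h0 : 0 ≤ e) (h1 : e < 1) {g : ℝ → ℂ} {C : ℝ}
    (hg : ∀ θ, ‖g θ‖ ≤ C * (tt e θ ^ 2 * rrTail_w e θ)) :
    ‖((2 / Real.pi : ℝ) : ℂ) * ∫ θ in (0:ℝ)..Real.pi, g θ‖ ≤ C := by
  have hpi := Real.pi_pos
  have hc : Continuous fun θ => C * (tt e θ ^ 2 * rrTail_w e θ) :=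
    (((rrTail_cont_tt e).pow 2).mul (rrTail_cont_w h0 h1)).const_mul C
  have h2 : ‖∫ θ in (0:ℝ)..Real.pi, g θ‖ ≤ ∫ θ in (0:ℝ)..Real.pi, C * (tt e θ ^ 2 * rrTail_w e θ) :=
    intervalIntegral.norm_integral_le_of_norm_le hpi.le
      (Filter.Eventually.of_forall fun θ _ => hg θ) (hc.intervalIntegrable _ _)
  rw [intervalIntegral.integral_const_mul] at h2
  have h3 : 0 < 2 / Real.pi := by positivity
  rw [norm_mul, Complex.norm_real, Real.norm_eq_abs, abs_of_pos h3]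
  calc 2 / Real.pi * ‖∫ θ in (0:ℝ)..Real.pi, g θ‖
      ≤ 2 / Real.pi * (C * ∫ θ in (0:ℝ)..Real.pi, tt e θ ^ 2 * rrTail_w e θ) :=
        mul_le_mul_of_nonneg_left h2 h3.le
    _ = C * (2 / Real.pi * ∫ θ in (0:ℝ)..Real.pi, tt e θ ^ 2 * rrTail_w e θ) := by ring
    _ = C := by rw [rrTail_t2 h0 h1, mul_one]

private theorem rrTail_FN {e : ℝ} (h0 : 0 ≤ e) (h1 : e < 1) (N : ℕ) (z : ℂ) :
    FN e N z = ((2 / Real.pi : ℝ) : ℂ) * ∫ θ in (0:ℝ)..Real.pi,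
      ((∑ m ∈ Finset.range (N + 1), (((tt e θ : ℝ) : ℂ) * z) ^ m / (m.factorial : ℂ)) - 1) *
        ((rrTail_w e θ : ℝ) : ℂ) := by
  have h2 : ∀ θ : ℝ,
      ((∑ m ∈ Finset.range (N + 1), (((tt e θ : ℝ) : ℂ) * z) ^ m / (m.factorial : ℂ)) - 1) *
        ((rrTail_w e θ : ℝ) : ℂ) = ∑ m ∈ Finset.range N, (z ^ (m + 1) / ((m + 1).factorial : ℂ)) *
          (((tt e θ : ℝ) : ℂ) ^ (m + 1) * ((rrTail_w e θ : ℝ) : ℂ)) := by
    intro θ
    rw [Finset.sum_range_succ']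
    simp only [pow_zero, Nat.factorial_zero, Nat.cast_one, div_one, add_sub_cancel_right]
    rw [Finset.sum_mul]
    refine Finset.sum_congr rfl fun m _ => ?_
    rw [mul_pow]
    ring
  simp_rw [h2]
  rw [intervalIntegral.integral_finsetSum]
  · unfold FN
    rw [Finset.sum_range_succ']
    simp only [show xm e 0 = 0 from rfl]
    simp only [zero_div, Complex.ofReal_zero, zero_mul, add_zero]
    rw [Finset.mul_sum]
    refine Finset.sum_congr rfl fun m _ => ?_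
    rw [intervalIntegral.integral_const_mul, Complex.ofReal_div, rrTail_x h0 h1 (m := m + 1) (by omega)]
    push_cast
    ring
  · intro m _
    have c1 : Continuous fun θ : ℝ => (z ^ (m + 1) / ((m + 1).factorial : ℂ)) *
          (((tt e θ : ℝ) : ℂ) ^ (m + 1) * ((rrTail_w e θ : ℝ) : ℂ)) :=
      (((Complex.continuous_ofReal.comp (rrTail_cont_tt e)).pow (m + 1)).mul
        (Complex.continuous_ofReal.comp (rrTail_cont_w h0 h1))).const_mul _
    exact c1.intervalIntegrable _ _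

private theorem rrTail_XI {e : ℝ} (h0 : 0 ≤ e) (h1 : e < 1) (z : ℂ) :
    XI e z = ((2 / Real.pi : ℝ) : ℂ) * ∫ θ in (0:ℝ)..Real.pi,
      (Complex.exp (((tt e θ : ℝ) : ℂ) * z) - 1) * ((rrTail_w e θ : ℝ) : ℂ) := by
  have ct : Continuous fun θ : ℝ => ((tt e θ : ℝ) : ℂ) :=
    Complex.continuous_ofReal.comp (rrTail_cont_tt e)
  have cw : Continuous fun θ : ℝ => ((rrTail_w e θ : ℝ) : ℂ) :=
    Complex.continuous_ofReal.comp (rrTail_cont_w h0 h1)
  have ce : Continuous fun θ : ℝ => (Complex.exp (((tt e θ : ℝ) : ℂ) * z) - 1) *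
      ((rrTail_w e θ : ℝ) : ℂ) :=
    (((Complex.continuous_exp.comp (ct.mul continuous_const))).sub continuous_const).mul cw
  have c2 : Continuous fun θ : ℝ => z * (((tt e θ : ℝ) : ℂ) ^ 1 * ((rrTail_w e θ : ℝ) : ℂ)) :=
    ((ct.pow 1).mul cw).const_mul z
  have h2 : ∀ θ : ℝ, (Complex.exp ((tt e θ : ℝ) * z) - 1 - (tt e θ : ℝ) * z) *
      ((Real.sin θ ^ 2 / QQ e (tt e θ) : ℝ) : ℂ) =
      (Complex.exp (((tt e θ : ℝ) : ℂ) * z) - 1) * ((rrTail_w e θ : ℝ) : ℂ) -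
        z * (((tt e θ : ℝ) : ℂ) ^ 1 * ((rrTail_w e θ : ℝ) : ℂ)) := by
    intro θ
    unfold rrTail_w
    ring
  have h3 := rrTail_x h0 h1 (m := 1) le_rfl
  rw [xm_one, Complex.ofReal_zero] at h3
  unfold XI
  simp_rw [h2]
  rw [intervalIntegral.integral_sub (ce.intervalIntegrable _ _) (c2.intervalIntegrable _ _),
    intervalIntegral.integral_const_mul, mul_sub]
  have h4 : ((2 / Real.pi : ℝ) : ℂ) * (z * ∫ θ in (0:ℝ)..Real.pi,
      ((tt e θ : ℝ) : ℂ) ^ 1 * ((rrTail_w e θ : ℝ) : ℂ)) = 0 := by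
    rw [mul_left_comm, ← h3, mul_zero]
  rw [h4, sub_zero]

/-- remainder of the exponential series for `u = t z` -/
private theorem rrTail_rem {e : ℝ} (h0 : 0 ≤ e) (h1 : e < 1) {N n : ℕ} (hN : 400 ≤ N) (hn : N ≤ n)
    {z : ℂ} (hz : ‖z‖ ≤ 0.043 * N) (θ : ℝ) :
    ‖Complex.exp (((tt e θ : ℝ) : ℂ) * z) -
      ∑ m ∈ Finset.range n, (((tt e θ : ℝ) : ℂ) * z) ^ m / (m.factorial : ℂ)‖ ≤
      2 * (|tt e θ| ^ n * ‖z‖ ^ n / (n.factorial : ℝ)) := by
  have ht := rrTail_tt h0 h1 θ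
  have hu : ‖((tt e θ : ℝ) : ℂ) * z‖ = |tt e θ| * ‖z‖ := by
    rw [norm_mul, Complex.norm_real, Real.norm_eq_abs]
  have hNn : (N : ℝ) ≤ n := by exact_mod_cast hn
  have hn0 : (400 : ℝ) ≤ N := by exact_mod_cast hN
  have h2 : ‖((tt e θ : ℝ) : ℂ) * z‖ / (n.succ : ℝ) ≤ 1 / 2 := by
    rw [hu, div_le_iff₀ (by positivity)]
    have h3 : |tt e θ| * ‖z‖ ≤ 3 * (0.043 * N) :=
      mul_le_mul ht hz (norm_nonneg _) (by norm_num)
    push_cast
    linarith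
  have h4 := Complex.exp_bound' h2
  rw [hu, mul_pow] at h4
  linarith

theorem FN_sub_XI {e : ℝ} (h0 : 0 ≤ e) (h1 : e < 1) {N : ℕ} (hN : 400 ≤ N) {z : ℂ}
    (hz : ‖z‖ ≤ 0.043 * N) : ‖FN e N z - XI e z‖ ≤ 1e-15 := by
  have ct : Continuous fun θ : ℝ => ((tt e θ : ℝ) : ℂ) :=
    Complex.continuous_ofReal.comp (rrTail_cont_tt e)
  have cw : Continuous fun θ : ℝ => ((rrTail_w e θ : ℝ) : ℂ) :=
    Complex.continuous_ofReal.comp (rrTail_cont_w h0 h1)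
  have ce : Continuous fun θ : ℝ => (Complex.exp (((tt e θ : ℝ) : ℂ) * z) - 1) *
      ((rrTail_w e θ : ℝ) : ℂ) :=
    (((Complex.continuous_exp.comp (ct.mul continuous_const))).sub continuous_const).mul cw
  have cs : Continuous fun θ : ℝ =>
      ((∑ m ∈ Finset.range (N + 1), (((tt e θ : ℝ) : ℂ) * z) ^ m / (m.factorial : ℂ)) - 1) *
        ((rrTail_w e θ : ℝ) : ℂ) :=
    ((continuous_finsetSum _ fun m _ => (((ct.mul continuous_const).pow m).div_const _)).sub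
      continuous_const).mul cw
  rw [rrTail_FN h0 h1, rrTail_XI h0 h1, ← mul_sub,
    ← intervalIntegral.integral_sub (cs.intervalIntegrable _ _) (ce.intervalIntegrable _ _)]
  have hb : 2 * (3 ^ (N - 1) * ‖z‖ ^ (N + 1) / ((N + 1).factorial : ℝ)) ≤ 1e-15 := by
    have h2 := rrTail_pow (n := N + 1) (by omega) (r := 3 * ‖z‖) (by positivity) (by
      push_cast; linarith)
    have h3 : (3 : ℝ) ^ (N - 1) ≤ 3 ^ (N + 1) := pow_le_pow_right₀ (by norm_num) (by omega)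
    have h4 : (3 : ℝ) ^ (N - 1) * ‖z‖ ^ (N + 1) / ((N + 1).factorial : ℝ) ≤
        (3 * ‖z‖) ^ (N + 1) / ((N + 1).factorial : ℝ) := by
      rw [mul_pow]
      gcongr
    have h5 : (2 : ℝ) * 1e-18 ≤ 1e-15 := by norm_num
    linarith
  refine (rrTail_norm h0 h1 (C := 2 * (3 ^ (N - 1) * ‖z‖ ^ (N + 1) / ((N + 1).factorial : ℝ)))
    fun θ => ?_).trans hb
  have h6 := rrTail_rem h0 h1 hN (Nat.le_succ N) hz θ
  have hw := rrTail_w_nonneg h0 h1 θ
  have ht := rrTail_tt h0 h1 θ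
  rw [← sub_mul, norm_mul, Complex.norm_real, Real.norm_eq_abs, abs_of_nonneg hw, sub_sub_sub_cancel_right,
    norm_sub_rev]
  have h7 : |tt e θ| ^ (N + 1) ≤ 3 ^ (N - 1) * tt e θ ^ 2 := by
    rw [show N + 1 = (N - 1) + 2 by omega, pow_add, sq_abs]
    exact mul_le_mul_of_nonneg_right (pow_le_pow_left₀ (abs_nonneg _) ht _) (sq_nonneg _)
  have h8 : |tt e θ| ^ (N + 1) * ‖z‖ ^ (N + 1) / ((N + 1).factorial : ℝ) ≤
      (3 ^ (N - 1) * tt e θ ^ 2) * ‖z‖ ^ (N + 1) / ((N + 1).factorial : ℝ) := by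
    gcongr
  calc _ ≤ (2 * ((3 ^ (N - 1) * tt e θ ^ 2) * ‖z‖ ^ (N + 1) / ((N + 1).factorial : ℝ))) *
        rrTail_w e θ := by
          refine mul_le_mul_of_nonneg_right ?_ hw
          exact h6.trans (by simpa using h8)
    _ = _ := by ring

theorem deriv_FN_sub_XI1 {e : ℝ} (h0 : 0 ≤ e) (h1 : e < 1) {N : ℕ} (hN : 400 ≤ N) {z : ℂ}
    (hz : ‖z‖ ≤ 0.043 * N) : ‖deriv (FN e N) z - XI1 e z‖ ≤ 1e-15 := by
  have ct : Continuous fun θ : ℝ => ((tt e θ : ℝ) : ℂ) :=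
    Complex.continuous_ofReal.comp (rrTail_cont_tt e)
  have cw : Continuous fun θ : ℝ => ((rrTail_w e θ : ℝ) : ℂ) :=
    Complex.continuous_ofReal.comp (rrTail_cont_w h0 h1)
  have ce : Continuous fun θ : ℝ => (((tt e θ : ℝ) : ℂ) *
      (Complex.exp (((tt e θ : ℝ) : ℂ) * z) - 1)) * ((rrTail_w e θ : ℝ) : ℂ) :=
    (ct.mul (((Complex.continuous_exp.comp (ct.mul continuous_const))).sub continuous_const)).mul cw
  have cs : Continuous fun θ : ℝ => (((tt e θ : ℝ) : ℂ) *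
      ((∑ m ∈ Finset.range N, (((tt e θ : ℝ) : ℂ) * z) ^ m / (m.factorial : ℂ)) - 1)) *
        ((rrTail_w e θ : ℝ) : ℂ) :=
    (ct.mul ((continuous_finsetSum _ fun m _ => (((ct.mul continuous_const).pow m).div_const _)).sub
      continuous_const)).mul cw
  obtain ⟨N', rfl⟩ : ∃ N', N = N' + 1 := ⟨N - 1, by omega⟩
  -- the derivative
  have hder : deriv (FN e (N' + 1)) z = ∑ m ∈ Finset.range (N' + 1),
      (((xm e (m + 1) / (m.factorial : ℝ) : ℝ)) : ℂ) * z ^ m := by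
    have h2 : HasDerivAt (FN e (N' + 1)) (∑ m ∈ Finset.range (N' + 1 + 1),
        (((xm e m / (m.factorial : ℝ) : ℝ)) : ℂ) * ((m : ℂ) * z ^ (m - 1))) z := by
      unfold FN
      refine HasDerivAt.fun_sum fun m _ => ?_
      exact (hasDerivAt_pow m z).const_mul _
    rw [h2.deriv, Finset.sum_range_succ']
    simp only [Nat.cast_zero, zero_mul, mul_zero, add_zero]
    refine Finset.sum_congr rfl fun m _ => ?_
    rw [Nat.add_sub_cancel, Nat.factorial_succ]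
    have h3 : ((m : ℂ) + 1) ≠ 0 := by exact_mod_cast Nat.succ_ne_zero m
    have h4 : ((m.factorial : ℕ) : ℂ) ≠ 0 := by exact_mod_cast m.factorial_ne_zero
    push_cast
    field_simp
  have hsum : deriv (FN e (N' + 1)) z = ((2 / Real.pi : ℝ) : ℂ) * ∫ θ in (0:ℝ)..Real.pi,
      (((tt e θ : ℝ) : ℂ) *
      ((∑ m ∈ Finset.range (N' + 1), (((tt e θ : ℝ) : ℂ) * z) ^ m / (m.factorial : ℂ)) - 1)) *
        ((rrTail_w e θ : ℝ) : ℂ) := by
    have h2 : ∀ θ : ℝ, (((tt e θ : ℝ) : ℂ) *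
      ((∑ m ∈ Finset.range (N' + 1), (((tt e θ : ℝ) : ℂ) * z) ^ m / (m.factorial : ℂ)) - 1)) *
        ((rrTail_w e θ : ℝ) : ℂ) = ∑ m ∈ Finset.range N', (z ^ (m + 1) / ((m + 1).factorial : ℂ)) *
          (((tt e θ : ℝ) : ℂ) ^ (m + 1 + 1) * ((rrTail_w e θ : ℝ) : ℂ)) := by
      intro θ
      rw [Finset.sum_range_succ']
      simp only [pow_zero, Nat.factorial_zero, Nat.cast_one, div_one, add_sub_cancel_right]
      rw [Finset.mul_sum, Finset.sum_mul]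
      refine Finset.sum_congr rfl fun m _ => ?_
      rw [mul_pow]
      ring
    simp_rw [h2]
    rw [intervalIntegral.integral_finsetSum]
    · rw [hder, Finset.sum_range_succ']
      rw [show (0 : ℕ) + 1 = 1 from rfl, xm_one]
      simp only [zero_div, Complex.ofReal_zero, zero_mul, add_zero]
      rw [Finset.mul_sum]
      refine Finset.sum_congr rfl fun m _ => ?_
      rw [intervalIntegral.integral_const_mul, Complex.ofReal_div,
        rrTail_x h0 h1 (m := m + 1 + 1) (by omega)]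
      push_cast
      ring
    · intro m _
      have c1 : Continuous fun θ : ℝ => (z ^ (m + 1) / ((m + 1).factorial : ℂ)) *
            (((tt e θ : ℝ) : ℂ) ^ (m + 1 + 1) * ((rrTail_w e θ : ℝ) : ℂ)) :=
        (((Complex.continuous_ofReal.comp (rrTail_cont_tt e)).pow (m + 1 + 1)).mul
          (Complex.continuous_ofReal.comp (rrTail_cont_w h0 h1))).const_mul _
      exact c1.intervalIntegrable _ _
  have hXI : XI1 e z = ((2 / Real.pi : ℝ) : ℂ) * ∫ θ in (0:ℝ)..Real.pi,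
      (((tt e θ : ℝ) : ℂ) * (Complex.exp (((tt e θ : ℝ) : ℂ) * z) - 1)) *
        ((rrTail_w e θ : ℝ) : ℂ) := rfl
  rw [hsum, hXI, ← mul_sub,
    ← intervalIntegral.integral_sub (cs.intervalIntegrable _ _) (ce.intervalIntegrable _ _)]
  have hb : 2 * (3 ^ N' * ‖z‖ ^ (N' + 1) / ((N' + 1).factorial : ℝ)) ≤ 1e-15 := by
    have h2 := rrTail_pow (n := N' + 1) (by omega) (r := 3 * ‖z‖) (by positivity) (by
      linarith)
    have h3 : (3 : ℝ) ^ N' ≤ 3 ^ (N' + 1) := pow_le_pow_right₀ (by norm_num) (by omega)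
    have h4 : (3 : ℝ) ^ N' * ‖z‖ ^ (N' + 1) / ((N' + 1).factorial : ℝ) ≤
        (3 * ‖z‖) ^ (N' + 1) / ((N' + 1).factorial : ℝ) := by
      rw [mul_pow]
      gcongr
    have h5 : (2 : ℝ) * 1e-18 ≤ 1e-15 := by norm_num
    linarith
  refine (rrTail_norm h0 h1 (C := 2 * (3 ^ N' * ‖z‖ ^ (N' + 1) / ((N' + 1).factorial : ℝ)))
    fun θ => ?_).trans hb
  have h6 := rrTail_rem h0 h1 hN le_rfl hz θ
  have hw := rrTail_w_nonneg h0 h1 θ
  have ht := rrTail_tt h0 h1 θ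
  rw [← sub_mul, norm_mul, Complex.norm_real, Real.norm_eq_abs, abs_of_nonneg hw, ← mul_sub,
    sub_sub_sub_cancel_right, norm_mul, norm_sub_rev, Complex.norm_real, Real.norm_eq_abs]
  have h7 : |tt e θ| * |tt e θ| ^ (N' + 1) ≤ 3 ^ N' * tt e θ ^ 2 := by
    rw [show |tt e θ| * |tt e θ| ^ (N' + 1) = |tt e θ| ^ N' * |tt e θ| ^ 2 by ring, sq_abs]
    exact mul_le_mul_of_nonneg_right (pow_le_pow_left₀ (abs_nonneg _) ht _) (sq_nonneg _)
  have h8 : (|tt e θ| * |tt e θ| ^ (N' + 1)) * ‖z‖ ^ (N' + 1) / ((N' + 1).factorial : ℝ) ≤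
      (3 ^ N' * tt e θ ^ 2) * ‖z‖ ^ (N' + 1) / ((N' + 1).factorial : ℝ) := by
    gcongr
  calc _ ≤ (|tt e θ| * (2 * (|tt e θ| ^ (N' + 1) * ‖z‖ ^ (N' + 1) / ((N' + 1).factorial : ℝ)))) *
        rrTail_w e θ := by
          refine mul_le_mul_of_nonneg_right ?_ hw
          exact mul_le_mul_of_nonneg_left h6 (abs_nonneg _)
    _ = (2 * ((|tt e θ| * |tt e θ| ^ (N' + 1)) * ‖z‖ ^ (N' + 1) / ((N' + 1).factorial : ℝ))) *
        rrTail_w e θ := by ring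
    _ ≤ (2 * ((3 ^ N' * tt e θ ^ 2) * ‖z‖ ^ (N' + 1) / ((N' + 1).factorial : ℝ))) *
        rrTail_w e θ := by
          refine mul_le_mul_of_nonneg_right ?_ hw
          linarith
    _ = _ := by ring

theorem HN_pos_real {e : ℝ} (h0 : 0 ≤ e) (h1 : e ≤ 1) {N : ℕ} (hN : 400 ≤ N) {x : ℝ}
    (hx : |x| ≤ 0.043 * N) : 0 < (HN e N).eval x := by
  rw [HN_eval]
  rcases eq_or_lt_of_le h1 with he | he
  · rw [he]; norm_num
  · have h2 := FN_sub_XI h0 he hN (z := (x : ℂ)) (by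
      rw [Complex.norm_real, Real.norm_eq_abs]; exact hx)
    rw [FN_ofReal] at h2
    have h3 : XI e (x : ℂ) = ((2 / Real.pi * ∫ θ in (0:ℝ)..Real.pi,
        (Real.exp (tt e θ * x) - 1 - tt e θ * x) * rrTail_w e θ : ℝ) : ℂ) := by
      unfold XI
      rw [Complex.ofReal_mul, ← intervalIntegral.integral_ofReal]
      congr 1
      refine intervalIntegral.integral_congr fun θ _ => ?_
      unfold rrTail_w
      push_cast
      ring
    rw [h3, ← Complex.ofReal_sub, Complex.norm_real, Real.norm_eq_abs] at h2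
    have h4 : 0 ≤ ∫ θ in (0:ℝ)..Real.pi,
        (Real.exp (tt e θ * x) - 1 - tt e θ * x) * rrTail_w e θ := by
      refine intervalIntegral.integral_nonneg Real.pi_pos.le fun θ _ => ?_
      refine mul_nonneg ?_ (rrTail_w_nonneg h0 he θ)
      linarith [Real.add_one_le_exp (tt e θ * x)]
    have h5 : 0 ≤ 2 / Real.pi * ∫ θ in (0:ℝ)..Real.pi,
        (Real.exp (tt e θ * x) - 1 - tt e θ * x) * rrTail_w e θ :=
      mul_nonneg (by positivity) h4
    have h6 := (abs_le.1 h2).1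
    have h7 : -1e-15 ≤ FR e N x := by linarith
    have h8 : 0 < 1 - e ^ 2 := by nlinarith
    have h9 : 1 - e ^ 2 ≤ 1 := by nlinarith
    nlinarith

end RR
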