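import Pool.Agent.Lib.MP_31701c_co.CellLandau
import Pool.Agent.Lib.MP_31701c_co.KronB
import Pool.Agent.Lib.MP_31701c_co.PowerSums
import Pool.Agent.Lib.MP_31701c_co.ConjPair
import Pool.Agent.Lib.MP_31701c_co.Tail

/-!
# RR-Compact : a good pair for `0 ≤ e ≤ e9`, `n ≥ 100`, `N ≥ max(n, 400)`

Choose the cell containing `e` (`cells_cover`; the cells cover `[0, e9]`, `e9 = 0.999875 = 199975/200000`),
`Ra = ra/1000 < Rb = rb/1000 < R = rn/1000` (`R ≤ 6.42`, `R ≥ 1.28 Rb`, `Rb ≥ 1.0115 Ra`; by `decide` / `norm_num`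
over the nine cells). `M0 = rts.filter (‖·‖ < Rb)`. By `cell_product` (each root in `M0` gives a factor
`> R/Rb > 1`, all factors are `≥ 1`) `(R/Rb)^card M0 < (R/Rb)^4`, so `card M0 ≤ 3`. The roots in `M0` are not real
(`HN_pos_real`, `Rb < 0.043·400`) and `M0` is closed under conjugation (`rts_conj`): `pair_of_card_le_three`.
Suppose no root has `|ρ| < Ra`. `near_sum` with `Rc = Ra`, `R' = R`, `M = rts` (the product is
`< (R/Rb)^4 ≤ (R/Ra)^4`): `|S_j| ≤ ∑ |ρ|^{-j} ≤ 4 Ra^{-j} + 17.3 R R^{-j} ≤ 4.01 Ra^{-j}` for `j = 89, 90, 91`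
(`(R/Ra)^89 ≥ 1.28^89`), so `(S_90² - S_89 S_91) Ra^180 ≤ 2·4.01² < 33`: contradiction to `cellB_all`.
So there is a root `z` with `|z| < Ra`, `Im z > 0`, `M0 = {z, conj z}`; all the roots other than `z, conj z` satisfy
`|ρ| ≥ Rb > |z|`. `near_sum` for `M = rts - {z, conj z}` (`= rts.filter (Rb ≤ ‖·‖)`), `Rc = Rb`:
`|S_n - 2 Re z^{-n}| ≤ 4 Rb^{-n} + 17.3 R R^{-n} < 2 Ra^{-n} ≤ 2 |z|^{-n}` for `n ≥ 100`
(`4/1.0115^100 < 1.3`, `17.3·6.42·1.28^{-100} < 1e-6`).
-/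

set_option autoImplicit false

namespace RR

open Polynomial

theorem cells_cover {e : ℝ} (h0 : 0 ≤ e) (h1 : e ≤ e9) :
    ∃ c ∈ cells, (c.an : ℝ) / c.d ≤ e ∧ e ≤ (c.bn : ℝ) / c.d := by
  unfold e9 at h1
  simp only [cells, List.mem_cons, List.not_mem_nil, or_false, exists_eq_or_imp, exists_eq_left]
  norm_num
  rcases le_total e (53 / 100) with h | h
  · left; exact ⟨h0, h⟩
  right
  rcases le_total e (81 / 100) with h' | h'
  · left; exact ⟨h, h'⟩
  right
  rcases le_total e (478 / 500) with h2 | h2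
  · left; constructor <;> linarith
  right
  rcases le_total e (1237 / 1250) with h3 | h3
  · left; constructor <;> linarith
  right
  rcases le_total e (19937 / 20000) with h4 | h4
  · left; constructor <;> linarith
  right
  rcases le_total e (99888 / 100000) with h5 | h5
  · left; constructor <;> linarith
  right
  rcases le_total e (199907 / 200000) with h6 | h6
  · left; constructor <;> linarith
  right
  rcases le_total e (199957 / 200000) with h7 | h7
  · left; constructor <;> linarith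
  right
  constructor <;> linarith

private theorem cells_num : ∀ c ∈ cells, 1000 ≤ c.ra ∧ c.rb ≤ 4994 ∧ c.rn ≤ 6420 ∧
    128 * c.rb ≤ 100 * c.rn ∧ 10115 * c.ra ≤ 10000 * c.rb := by
  decide

private theorem prod_ge_one {M : Multiset ℂ} {f : ℂ → ℝ} (h : ∀ r ∈ M, 1 ≤ f r) :
    1 ≤ (M.map f).prod := by
  induction M using Multiset.induction_on with
  | empty => simp
  | cons a s ih =>
    rw [Multiset.map_cons, Multiset.prod_cons]
    have h1 := ih fun r hr => h r (Multiset.mem_cons_of_mem hr)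
    have h2 := h a (Multiset.mem_cons_self a s)
    nlinarith

private theorem prod_ge_pow {M : Multiset ℂ} {f : ℂ → ℝ} {a : ℝ} (ha : 0 ≤ a)
    (h : ∀ r ∈ M, a ≤ f r) : a ^ M.card ≤ (M.map f).prod := by
  induction M using Multiset.induction_on with
  | empty => simp
  | cons b s ih =>
    rw [Multiset.map_cons, Multiset.prod_cons, Multiset.card_cons, pow_succ']
    have h1 := ih fun r hr => h r (Multiset.mem_cons_of_mem hr)
    have h2 := h b (Multiset.mem_cons_self b s)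
    exact mul_le_mul h2 h1 (pow_nonneg ha _) (ha.trans h2)

private theorem norm_sum_le (M : Multiset ℂ) (n : ℕ) :
    ‖(M.map fun r => (r⁻¹) ^ n).sum‖ ≤ (M.map fun r => (‖r‖⁻¹) ^ n).sum := by
  induction M using Multiset.induction_on with
  | empty => simp
  | cons b s ih =>
    rw [Multiset.map_cons, Multiset.sum_cons, Multiset.map_cons, Multiset.sum_cons]
    have h1 : ‖b⁻¹ ^ n + (s.map fun r => (r⁻¹) ^ n).sum‖ ≤
        ‖b⁻¹ ^ n‖ + ‖(s.map fun r => (r⁻¹) ^ n).sum‖ := _root_.norm_add_le _ _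
    rw [norm_pow, norm_inv] at h1
    linarith

theorem compact {e : ℝ} (h0 : 0 ≤ e) (h1 : e ≤ e9) {N n : ℕ} (hn : 100 ≤ n) (hnN : n ≤ N)
    (hN : 400 ≤ N) : ∃ z, GoodPair e N n z := by
  have he1 : e < 1 := by unfold e9 at h1; linarith
  have hNR : (400 : ℝ) ≤ N := by exact_mod_cast hN
  obtain ⟨c, hc, hc1, hc2⟩ := cells_cover h0 h1
  obtain ⟨k1, k2, k3, k4, k5⟩ := cells_num c hc
  have hprod := cell_product hc hc1 hc2 hN
  have hB := cellB_all c hc e hc1 hc2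
  -- real forms of the numerical facts
  have k1' : (1000 : ℝ) ≤ c.ra := by exact_mod_cast k1
  have k2' : (c.rb : ℝ) ≤ 4994 := by exact_mod_cast k2
  have k3' : (c.rn : ℝ) ≤ 6420 := by exact_mod_cast k3
  have k4' : 128 * (c.rb : ℝ) ≤ 100 * c.rn := by exact_mod_cast k4
  have k5' : 10115 * (c.ra : ℝ) ≤ 10000 * c.rb := by exact_mod_cast k5
  obtain ⟨R, hR⟩ : ∃ R : ℝ, R = (c.rn : ℝ) / 1000 := ⟨_, rfl⟩
  obtain ⟨Rb, hRb⟩ : ∃ Rb : ℝ, Rb = (c.rb : ℝ) / 1000 := ⟨_, rfl⟩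
  obtain ⟨Ra, hRa⟩ : ∃ Ra : ℝ, Ra = (c.ra : ℝ) / 1000 := ⟨_, rfl⟩
  have q1 : 1 ≤ Ra := by rw [hRa]; linarith
  have q2 : Rb ≤ 4.994 := by rw [hRb]; linarith
  have q3 : R ≤ 6.42 := by rw [hR]; linarith
  have q4 : 1.28 * Rb ≤ R := by rw [hR, hRb]; linarith
  have q5 : 1.0115 * Ra ≤ Rb := by rw [hRa, hRb]; linarith
  have qab : Ra < Rb := by linarith
  have qbr : Rb < R := by linarith
  have hRpos : 0 < R := by linarith
  have hRbpos : 0 < Rb := by linarith
  have hRapos : 0 < Ra := by linarith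
  have hquot : (c.rn : ℝ) / c.rb = R / Rb := by
    rw [hR, hRb]
    field_simp
  rw [← hR, hquot] at hprod
  rw [← hRa] at hB
  clear hc1 hc2
  -- the multisets
  set T := rts e N with hT
  have hTP : T ≤ ((HN e N).map (algebraMap ℝ ℂ)).roots := by rw [hT, rts_eq]
  have hne : ∀ r ∈ T, r ≠ 0 := by
    intro r hr h
    rw [h] at hr
    exact zero_notMem_rts hr
  set M1 := T.filter (fun r => ‖r‖ < R) with hM1
  set M0 := T.filter (fun r => ‖r‖ < Rb) with hM0
  set Mr := T.filter (fun r => ¬ ‖r‖ < Rb) with hMr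
  have hsplit : T = M0 + Mr := (Multiset.filter_add_not _ _).symm
  have hsplit1 : M1 = M0 + Mr.filter (fun r => ‖r‖ < R) := by
    have e1 : M1 = M1.filter (fun r => ‖r‖ < Rb) + M1.filter (fun r => ¬ ‖r‖ < Rb) :=
      (Multiset.filter_add_not _ _).symm
    have e2 : M1.filter (fun r => ‖r‖ < Rb) = M0 := by
      rw [hM1, hM0, Multiset.filter_filter]
      apply Multiset.filter_congr
      intro r _
      exact ⟨fun h => h.1, fun h => ⟨h, h.trans qbr⟩⟩
    have e3 : M1.filter (fun r => ¬ ‖r‖ < Rb) = Mr.filter (fun r => ‖r‖ < R) := by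
      rw [hM1, hMr, Multiset.filter_filter, Multiset.filter_filter]
      apply Multiset.filter_congr
      intro r _
      exact ⟨fun h => ⟨h.2, h.1⟩, fun h => ⟨h.2, h.1⟩⟩
    rw [e2, e3] at e1
    exact e1
  have hfac1 : ∀ r ∈ M1, 1 ≤ R / ‖r‖ := by
    intro r hr
    rw [hM1, Multiset.mem_filter] at hr
    rw [le_div_iff₀ (norm_pos_iff.mpr (hne r hr.1))]
    linarith [hr.2]
  have hfac0 : ∀ r ∈ M0, R / Rb ≤ R / ‖r‖ := by
    intro r hr
    rw [hM0, Multiset.mem_filter] at hr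
    exact div_le_div_of_nonneg_left hRpos.le (norm_pos_iff.mpr (hne r hr.1)) hr.2.le
  have hb1 : 1 ≤ R / Rb := by
    rw [le_div_iff₀ hRbpos]; linarith
  have hb1' : 1 < R / Rb := by
    rw [lt_div_iff₀ hRbpos]; linarith
  -- step 1: the products
  have p1 : (M1.map (fun r => R / ‖r‖)).prod = (M0.map (fun r => R / ‖r‖)).prod *
      ((Mr.filter (fun r => ‖r‖ < R)).map (fun r => R / ‖r‖)).prod := by
    rw [hsplit1, Multiset.map_add, Multiset.prod_add]
  have p2 : 1 ≤ ((Mr.filter (fun r => ‖r‖ < R)).map (fun r => R / ‖r‖)).prod :=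
    prod_ge_one fun r hr => hfac1 r (by rw [hsplit1]; exact Multiset.mem_add.mpr (Or.inr hr))
  have p3 : (R / Rb) ^ M0.card ≤ (M0.map (fun r => R / ‖r‖)).prod :=
    prod_ge_pow (by linarith) hfac0
  have p3' : 1 ≤ (M0.map (fun r => R / ‖r‖)).prod :=
    (one_le_pow₀ hb1).trans p3
  have hcard : M0.card ≤ 3 := by
    by_contra hcon
    have h4 : 4 ≤ M0.card := by omega
    have h5 : (R / Rb) ^ 4 ≤ (R / Rb) ^ M0.card := pow_le_pow_right₀ hb1 h4
    rw [p1] at hprod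
    nlinarith
  -- step 2: conjugation
  have hconj0 : M0.map (starRingEnd ℂ) = M0 := by
    have hTc : T.map (starRingEnd ℂ) = T := rts_conj e N
    conv_rhs => rw [hM0, ← hTc, Multiset.filter_map]
    rw [hM0]
    congr 1
    apply Multiset.filter_congr
    intro r _
    simp only [Function.comp, RCLike.norm_conj]
  have hreal0 : ∀ r ∈ M0, r.im ≠ 0 := by
    intro r hr him
    rw [hM0, Multiset.mem_filter] at hr
    have hrr : r = ((r.re : ℝ) : ℂ) := by
      apply Complex.ext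
      · simp
      · simp [him]
    have hz := mem_rts.mp hr.1
    have hpos := HN_pos_real h0 he1.le hN (x := r.re) (by
      have := Complex.abs_re_le_norm r
      have := hr.2
      nlinarith)
    rw [hrr] at hz
    have e1 : aeval ((r.re : ℝ) : ℂ) (HN e N) = (((HN e N).eval r.re : ℝ) : ℂ) := by
      have := Polynomial.aeval_algebraMap_apply ℂ r.re (HN e N)
      simpa using this
    rw [e1, Complex.ofReal_eq_zero] at hz
    linarith
  -- powers
  have hExp := expBound_HN h0 he1.le N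
  have hpowR : ∀ j : ℕ, 89 ≤ j → 17.3 * R * (R⁻¹) ^ j ≤ 0.001 * (Ra⁻¹) ^ j := by
    intro j hj
    have e1 : R⁻¹ ≤ 1.28⁻¹ * Ra⁻¹ := by
      rw [← mul_inv]
      apply inv_anti₀
      · positivity
      · linarith
    have e2 : (R⁻¹) ^ j ≤ (1.28⁻¹ * Ra⁻¹) ^ j := pow_le_pow_left₀ (by positivity) e1 j
    rw [mul_pow] at e2
    have e3 : ((1.28 : ℝ)⁻¹) ^ j ≤ ((1.28 : ℝ)⁻¹) ^ 89 :=
      pow_le_pow_of_le_one (by norm_num) (by norm_num) hj
    have e4 : ((1.28 : ℝ)⁻¹) ^ 89 ≤ 1e-8 := by norm_num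
    have e5 : 0 < (Ra⁻¹) ^ j := by positivity
    have e6 : (R⁻¹) ^ j ≤ 1e-8 * (Ra⁻¹) ^ j :=
      e2.trans (mul_le_mul_of_nonneg_right (e3.trans e4) e5.le)
    have e7 : 17.3 * R ≤ 112 := by linarith
    have e8 : 0 ≤ (R⁻¹) ^ j := by positivity
    calc 17.3 * R * (R⁻¹) ^ j ≤ 112 * (R⁻¹) ^ j := mul_le_mul_of_nonneg_right e7 e8
      _ ≤ 112 * (1e-8 * (Ra⁻¹) ^ j) := by linarith
      _ ≤ 0.001 * (Ra⁻¹) ^ j := by linarith
  -- step 3: there is a root of modulus < Ra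
  have hex : ∃ r ∈ T, ‖r‖ < Ra := by
    by_contra hcon
    push Not at hcon
    have hp : ((T.filter (fun r => ‖r‖ < R)).map (fun r => R / ‖r‖)).prod ≤ (R / Ra) ^ 4 := by
      refine hprod.le.trans ?_
      apply pow_le_pow_left₀ (by linarith)
      exact div_le_div_of_nonneg_left hRpos.le hRapos qab.le
    have hS : ∀ j : ℕ, 89 ≤ j → j ≤ 91 → |Sn e j| ≤ 4.001 * (Ra⁻¹) ^ j := by
      intro j hj hj'
      have e1 := near_sum hExp hRapos (qab.trans qbr) hTP hcon hp (n := j) (by omega)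
      have e2 := Sn_eq_sum (e := e) (N := N) (n := j) (by omega) (by omega)
      have e3 : |Sn e j| = ‖((Sn e j : ℝ) : ℂ)‖ := by
        rw [Complex.norm_real, Real.norm_eq_abs]
      rw [e3, e2]
      have e4 := norm_sum_le T j
      have e5 := hpowR j hj
      linarith
    have s89 := hS 89 le_rfl (by norm_num)
    have s90 := hS 90 (by norm_num) (by norm_num)
    have s91 := hS 91 (by norm_num) le_rfl
    have hcomb : (Sn e 90 ^ 2 - Sn e 89 * Sn e 91) ≤ 2 * 4.001 ^ 2 * (Ra⁻¹) ^ 180 := by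
      have f1 : Sn e 90 ^ 2 ≤ (4.001 * (Ra⁻¹) ^ 90) ^ 2 := by
        rw [← sq_abs]
        exact pow_le_pow_left₀ (abs_nonneg _) s90 2
      have f2 : |Sn e 89 * Sn e 91| ≤ (4.001 * (Ra⁻¹) ^ 89) * (4.001 * (Ra⁻¹) ^ 91) := by
        rw [abs_mul]
        exact mul_le_mul s89 s91 (abs_nonneg _) (by positivity)
      have f3 := neg_abs_le (Sn e 89 * Sn e 91)
      have f4 : (4.001 * (Ra⁻¹) ^ 90) ^ 2 = 4.001 ^ 2 * (Ra⁻¹) ^ 180 := by ring
      have f5 : (4.001 * (Ra⁻¹) ^ 89) * (4.001 * (Ra⁻¹) ^ 91) = 4.001 ^ 2 * (Ra⁻¹) ^ 180 := by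
        ring
      rw [f4] at f1
      rw [f5] at f2
      linarith
    have hfin : (Sn e 90 ^ 2 - Sn e 89 * Sn e 91) * Ra ^ 180 ≤ 2 * 4.001 ^ 2 := by
      have g1 : (Ra⁻¹) ^ 180 * Ra ^ 180 = 1 := by
        rw [← mul_pow, inv_mul_cancel₀ hRapos.ne', one_pow]
      have g2 : 0 ≤ Ra ^ 180 := by positivity
      calc (Sn e 90 ^ 2 - Sn e 89 * Sn e 91) * Ra ^ 180
          ≤ (2 * 4.001 ^ 2 * (Ra⁻¹) ^ 180) * Ra ^ 180 := mul_le_mul_of_nonneg_right hcomb g2
        _ = 2 * 4.001 ^ 2 * ((Ra⁻¹) ^ 180 * Ra ^ 180) := by ring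
        _ = 2 * 4.001 ^ 2 := by rw [g1, mul_one]
    have : (2 : ℝ) * 4.001 ^ 2 < 33 := by norm_num
    linarith
  obtain ⟨r0, hr0T, hr0⟩ := hex
  have hr0M : r0 ∈ M0 := Multiset.mem_filter.mpr ⟨hr0T, hr0.trans qab⟩
  rcases pair_of_card_le_three hconj0 hreal0 hcard with h | ⟨z, hzim, hM0z⟩
  · rw [h] at hr0M
    exact absurd hr0M (Multiset.notMem_zero r0)
  have hmem0 : ∀ w ∈ M0, w = z ∨ w = (starRingEnd ℂ) z := by
    intro w hw
    rw [hM0z] at hw
    simpa using hw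
  have hzA : ‖z‖ < Ra := by
    rcases hmem0 r0 hr0M with h | h
    · rw [← h]; exact hr0
    · rw [h, RCLike.norm_conj] at hr0
      exact hr0
  have hzM : z ∈ M0 := by rw [hM0z]; simp
  have hzT : z ∈ T := (Multiset.mem_filter.mp hzM).1
  have hznorm : 0 < ‖z‖ := norm_pos_iff.mpr (hne z hzT)
  refine ⟨z, mem_rts.mp hzT, hzim, ?_, ?_⟩
  · intro w hw
    have hwT : w ∈ T := mem_rts.mpr hw
    by_cases hwb : ‖w‖ < Rb
    · rcases hmem0 w (Multiset.mem_filter.mpr ⟨hwT, hwb⟩) with h | h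
      · exact Or.inl h
      · exact Or.inr (Or.inl h)
    · exact Or.inr (Or.inr (by push Not at hwb; linarith))
  · -- the remaining roots
    have hMrP : Mr ≤ ((HN e N).map (algebraMap ℝ ℂ)).roots :=
      (Multiset.filter_le _ _).trans hTP
    have hMrc : ∀ r ∈ Mr, Rb ≤ ‖r‖ := by
      intro r hr
      rw [hMr, Multiset.mem_filter] at hr
      exact not_lt.mp hr.2
    have hp : ((Mr.filter (fun r => ‖r‖ < R)).map (fun r => R / ‖r‖)).prod ≤ (R / Rb) ^ 4 := by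
      rw [p1] at hprod
      nlinarith
    have e1 := near_sum hExp hRbpos qbr hMrP hMrc hp (n := n) (by omega)
    have e2 := Sn_eq_sum (e := e) (N := N) (n := n) (by omega) hnN
    rw [← hT, hsplit, Multiset.map_add, Multiset.sum_add, hM0z] at e2
    have e3 : ((Sn e n - 2 * ((z⁻¹) ^ n).re : ℝ) : ℂ) = (Mr.map fun r => (r⁻¹) ^ n).sum := by
      have e4 : (((2 * ((z⁻¹) ^ n).re : ℝ)) : ℂ) =
          (z⁻¹) ^ n + (((starRingEnd ℂ) z)⁻¹) ^ n := by
        rw [← map_inv₀, ← map_pow, Complex.add_conj]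
      have e5 : (({z, (starRingEnd ℂ) z} : Multiset ℂ).map fun r => (r⁻¹) ^ n).sum =
          (z⁻¹) ^ n + (((starRingEnd ℂ) z)⁻¹) ^ n := by
        simp
      rw [e5] at e2
      rw [Complex.ofReal_sub, e4, e2]
      ring
    have e6 : |Sn e n - 2 * ((z⁻¹) ^ n).re| = ‖((Sn e n - 2 * ((z⁻¹) ^ n).re : ℝ) : ℂ)‖ := by
      rw [Complex.norm_real, Real.norm_eq_abs]
    rw [e6, e3]
    have e7 := norm_sum_le Mr n
    have e8 := hpowR n (by omega)
    have e9' : 4 * (Rb⁻¹) ^ n ≤ 1.3 * (Ra⁻¹) ^ n := by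
      have f1 : Rb⁻¹ ≤ 1.0115⁻¹ * Ra⁻¹ := by
        rw [← mul_inv]
        exact inv_anti₀ (by positivity) q5
      have f2 : (Rb⁻¹) ^ n ≤ (1.0115⁻¹ * Ra⁻¹) ^ n := pow_le_pow_left₀ (by positivity) f1 n
      rw [mul_pow] at f2
      have f3 : ((1.0115 : ℝ)⁻¹) ^ n ≤ ((1.0115 : ℝ)⁻¹) ^ 100 :=
        pow_le_pow_of_le_one (by norm_num) (by norm_num) hn
      have f4 : ((1.0115 : ℝ)⁻¹) ^ 100 ≤ 0.325 := by norm_num
      have f5 : 0 < (Ra⁻¹) ^ n := by positivity
      have f6 : (Rb⁻¹) ^ n ≤ 0.325 * (Ra⁻¹) ^ n :=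
        f2.trans (mul_le_mul_of_nonneg_right (f3.trans f4) f5.le)
      linarith
    have f7 : (Ra⁻¹) ^ n ≤ (‖z‖⁻¹) ^ n := by
      apply pow_le_pow_left₀ (by positivity)
      exact inv_anti₀ hznorm hzA.le
    have f8 : 0 < (Ra⁻¹) ^ n := by positivity
    linarith

end RR
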