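import Pool.Agent.Lib.MP_31701c_co.Landau

/-!
# RR-Count : counting roots and the sum over far roots

`ExpBound P`: `P(0) = 1` and `∑ |p_m| R^m ≤ exp(3R)` for all `R > 0`.
`count_le`: `landau` with radius `e R` (`e = exp 1`): each root with `|ρ| < R` contributes a factor
`≥ e`, the other factors are `≥ 1`, and `∑ |p_m|² (eR)^{2m} ≤ (∑ |p_m| (eR)^m)² ≤ exp(6 e R)`; so
`exp(2 n(R)) ≤ exp(6eR)`, `n(R) ≤ 3 e R ≤ 8.2 R` (`e < 2.7182818286`).
`far_sum`: put `q = 1.1`. A root with `|ρ| ≥ R` lies in a ring `R q^k ≤ |ρ| < R q^{k+1}`; the ring contains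
at most `8.2 R q^{k+1}` roots, each with `|ρ|^{-n} ≤ (R q^k)^{-n}`. Sum of the geometric series:
`8.2 q/(1 - q^{1-n}) R R^{-n} ≤ 9.1 R R^{-n}` for `n ≥ 80`.
(Alternative without rings: `|ρ|^{-n} ≤ ∑_{k : |ρ| < R q^{k+1}} ((R q^k)^{-n} - (R q^{k+1})^{-n})`.)
-/

set_option autoImplicit false

namespace RR

open Polynomial

/-- `P(0) = 1` and exponential growth of type `3`. -/
def ExpBound (P : ℂ[X]) : Prop :=
  P.coeff 0 = 1 ∧ ∀ R : ℝ, 0 < R →
    ∑ m ∈ Finset.range (P.natDegree + 1), ‖P.coeff m‖ * R ^ m ≤ Real.exp (3 * R)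

private theorem count_roots_ne {P : ℂ[X]} (hP : P.coeff 0 = 1) : ∀ r ∈ P.roots, r ≠ 0 := by
  have hP0 : P ≠ 0 := by
    rintro rfl
    simp at hP
  intro r hr hr0
  rw [hr0, Polynomial.mem_roots hP0, Polynomial.IsRoot.def,
    ← Polynomial.coeff_zero_eq_eval_zero, hP] at hr
  exact one_ne_zero hr

private theorem count_prod (M : Multiset ℂ) (hM : ∀ r ∈ M, r ≠ 0) {R : ℝ} (hR : 0 < R) :
    Real.exp ((M.filter (fun r => ‖r‖ < R)).card) ≤
      ((M.filter (fun r => ‖r‖ < Real.exp 1 * R)).map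
        (fun r => (Real.exp 1 * R) / ‖r‖)).prod := by
  have he1 : (1 : ℝ) ≤ Real.exp 1 := by
    have := Real.add_one_le_exp (1 : ℝ)
    linarith
  induction M using Multiset.induction_on with
  | empty => simp
  | cons a M ih =>
    have ha : a ≠ 0 := hM a (Multiset.mem_cons_self a M)
    have ha' : 0 < ‖a‖ := norm_pos_iff.2 ha
    have ih' := ih fun r hr => hM r (Multiset.mem_cons_of_mem hr)
    have hpos : 0 ≤ ((M.filter (fun r => ‖r‖ < Real.exp 1 * R)).map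
        (fun r => (Real.exp 1 * R) / ‖r‖)).prod := le_trans (Real.exp_pos _).le ih'
    by_cases h1 : ‖a‖ < R
    · have h2 : ‖a‖ < Real.exp 1 * R := lt_of_lt_of_le h1 (by nlinarith)
      rw [Multiset.filter_cons_of_pos M (p := fun r => ‖r‖ < R) h1,
        Multiset.filter_cons_of_pos M (p := fun r => ‖r‖ < Real.exp 1 * R) h2, Multiset.map_cons,
        Multiset.prod_cons, Multiset.card_cons, Nat.cast_succ, Real.exp_add, mul_comm]
      have h3 : Real.exp 1 ≤ Real.exp 1 * R / ‖a‖ := by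
        rw [le_div_iff₀ ha']
        nlinarith [Real.exp_pos 1]
      exact mul_le_mul h3 ih' (Real.exp_pos _).le (le_trans (Real.exp_pos 1).le h3)
    · rw [Multiset.filter_cons_of_neg M (p := fun r => ‖r‖ < R) h1]
      by_cases h2 : ‖a‖ < Real.exp 1 * R
      · rw [Multiset.filter_cons_of_pos M (p := fun r => ‖r‖ < Real.exp 1 * R) h2,
          Multiset.map_cons, Multiset.prod_cons]
        have h3 : 1 ≤ Real.exp 1 * R / ‖a‖ := by
          rw [le_div_iff₀ ha']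
          linarith
        calc Real.exp ((M.filter (fun r => ‖r‖ < R)).card) ≤ _ := ih'
          _ ≤ _ := le_mul_of_one_le_left hpos h3
      · rw [Multiset.filter_cons_of_neg M (p := fun r => ‖r‖ < Real.exp 1 * R) h2]
        exact ih'

theorem count_le {P : ℂ[X]} (hP : ExpBound P) {R : ℝ} (hR : 0 < R) :
    ((P.roots.filter (fun r => ‖r‖ < R)).card : ℝ) ≤ 8.2 * R := by
  have heR : 0 < Real.exp 1 * R := mul_pos (Real.exp_pos 1) hR
  have h1 := landau P hP.1 heR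
  have h2 := count_prod P.roots (count_roots_ne hP.1) hR
  have h3 := hP.2 _ heR
  have h4 : ∑ m ∈ Finset.range (P.natDegree + 1), ‖P.coeff m‖ ^ 2 * (Real.exp 1 * R) ^ (2 * m) ≤
      (∑ m ∈ Finset.range (P.natDegree + 1), ‖P.coeff m‖ * (Real.exp 1 * R) ^ m) ^ 2 := by
    have : ∀ m, ‖P.coeff m‖ ^ 2 * (Real.exp 1 * R) ^ (2 * m) =
        (‖P.coeff m‖ * (Real.exp 1 * R) ^ m) ^ 2 := by
      intro m
      rw [mul_pow (‖P.coeff m‖) _ 2, ← pow_mul, mul_comm m 2]
    simp_rw [this]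
    exact Finset.sum_sq_le_sq_sum_of_nonneg fun i _ => by positivity
  have hs0 : 0 ≤ ∑ m ∈ Finset.range (P.natDegree + 1), ‖P.coeff m‖ * (Real.exp 1 * R) ^ m :=
    Finset.sum_nonneg fun i _ => by positivity
  have h5 : (Real.exp ((P.roots.filter (fun r => ‖r‖ < R)).card)) ^ 2 ≤
      (Real.exp (3 * (Real.exp 1 * R))) ^ 2 :=
    calc (Real.exp ((P.roots.filter (fun r => ‖r‖ < R)).card)) ^ 2
        ≤ _ := pow_le_pow_left₀ (Real.exp_pos _).le h2 2
      _ ≤ _ := h1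
      _ ≤ _ := h4
      _ ≤ _ := pow_le_pow_left₀ hs0 h3 2
  have h6 : Real.exp ((P.roots.filter (fun r => ‖r‖ < R)).card) ≤
      Real.exp (3 * (Real.exp 1 * R)) :=
    (pow_le_pow_iff_left₀ (Real.exp_pos _).le (Real.exp_pos _).le two_ne_zero).1 h5
  have h7 := Real.exp_le_exp.1 h6
  have h8 := Real.exp_one_lt_d9
  nlinarith

private theorem far_aux {R q : ℝ} (hR : 0 < R) (hq : 1 < q) (n K : ℕ) (M : Multiset ℂ)
    (hM : ∀ r ∈ M, R ≤ ‖r‖ ∧ ‖r‖ < R * q ^ K) :
    (M.map (fun r => (‖r‖⁻¹) ^ n)).sum ≤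
      ∑ k ∈ Finset.range K, ((R * q ^ k)⁻¹) ^ n *
        ((M.filter (fun r => ‖r‖ < R * q ^ (k + 1))).card : ℝ) := by
  induction M using Multiset.induction_on with
  | empty => simp
  | cons a M ih =>
    have ha := hM a (Multiset.mem_cons_self a M)
    have ih' := ih fun r hr => hM r (Multiset.mem_cons_of_mem hr)
    have hq0 : 0 < q := by linarith
    have hsplit : ∀ k, ((R * q ^ k)⁻¹) ^ n *
        (((a ::ₘ M).filter (fun r => ‖r‖ < R * q ^ (k + 1))).card : ℝ) =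
        ((R * q ^ k)⁻¹) ^ n * (if ‖a‖ < R * q ^ (k + 1) then 1 else 0) +
        ((R * q ^ k)⁻¹) ^ n * ((M.filter (fun r => ‖r‖ < R * q ^ (k + 1))).card : ℝ) := by
      intro k
      by_cases h : ‖a‖ < R * q ^ (k + 1)
      · rw [Multiset.filter_cons_of_pos M (p := fun r => ‖r‖ < R * q ^ (k + 1)) h, if_pos h,
          Multiset.card_cons]
        push_cast
        ring
      · rw [Multiset.filter_cons_of_neg M (p := fun r => ‖r‖ < R * q ^ (k + 1)) h, if_neg h]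
        ring
    rw [Multiset.map_cons, Multiset.sum_cons, Finset.sum_congr rfl fun k _ => hsplit k,
      Finset.sum_add_distrib]
    refine add_le_add ?_ ih'
    -- find the ring
    have hex : ∃ k, ‖a‖ < R * q ^ (k + 1) := by
      rcases Nat.eq_zero_or_pos K with hK | hK
      · exfalso
        rw [hK, pow_zero, mul_one] at ha
        linarith [ha.1, ha.2]
      · refine ⟨K - 1, ?_⟩
        rw [Nat.sub_add_cancel hK]
        exact ha.2
    classical
    set k := Nat.find hex with hk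
    have hk1 : ‖a‖ < R * q ^ (k + 1) := Nat.find_spec hex
    have hk2 : R * q ^ k ≤ ‖a‖ := by
      rcases Nat.eq_zero_or_pos k with h0 | h0
      · rw [h0, pow_zero, mul_one]
        exact ha.1
      · have := Nat.find_min hex (m := k - 1) (by omega)
        rw [Nat.sub_add_cancel h0] at this
        exact not_lt.1 this
    have hkK : k < K := by
      by_contra hcon
      have h1 : q ^ K ≤ q ^ k := pow_le_pow_right₀ hq.le (not_lt.1 hcon)
      have h2 : R * q ^ K ≤ R * q ^ k := mul_le_mul_of_nonneg_left h1 hR.le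
      linarith [ha.2]
    have hpk : 0 < R * q ^ k := by positivity
    calc (‖a‖⁻¹) ^ n ≤ ((R * q ^ k)⁻¹) ^ n * (if ‖a‖ < R * q ^ (k + 1) then 1 else 0) := by
          rw [if_pos hk1, mul_one]
          exact pow_le_pow_left₀ (by positivity) (inv_anti₀ hpk hk2) n
      _ ≤ _ := Finset.single_le_sum
        (f := fun k => ((R * q ^ k)⁻¹) ^ n * (if ‖a‖ < R * q ^ (k + 1) then (1 : ℝ) else 0))
        (fun i _ => by
          split_ifs
          · positivity
          · simp) (Finset.mem_range.2 hkK)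

private theorem far_geom (n : ℕ) (hn : 80 ≤ n) (K : ℕ) :
    ∑ k ∈ Finset.range K, ((1.1 : ℝ) ^ (n - 1))⁻¹ ^ k ≤ 9.1 / 9.02 := by
  have h1 : (1.1 : ℝ) ^ 79 ≤ 1.1 ^ (n - 1) := pow_le_pow_right₀ (by norm_num) (by omega)
  have h2 : (114 : ℝ) ≤ 1.1 ^ 79 := by norm_num
  have h3 : ((1.1 : ℝ) ^ (n - 1))⁻¹ ≤ 1 / 114 := by
    rw [one_div]
    exact inv_anti₀ (by norm_num) (h2.trans h1)
  have h0 : 0 ≤ ((1.1 : ℝ) ^ (n - 1))⁻¹ := by positivity
  calc ∑ k ∈ Finset.range K, ((1.1 : ℝ) ^ (n - 1))⁻¹ ^ k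
      ≤ ∑ k ∈ Finset.range K, (1 / 114 : ℝ) ^ k :=
        Finset.sum_le_sum fun k _ => pow_le_pow_left₀ h0 h3 k
    _ ≤ (1 - 1 / 114)⁻¹ := by
        have hs : Summable fun k : ℕ => (1 / 114 : ℝ) ^ k :=
          summable_geometric_of_lt_one (by norm_num) (by norm_num)
        rw [← tsum_geometric_of_lt_one (by norm_num : (0 : ℝ) ≤ 1 / 114) (by norm_num)]
        exact hs.sum_le_tsum _ (fun i _ => by positivity)
    _ ≤ 9.1 / 9.02 := by norm_num

theorem far_sum {P : ℂ[X]} (hP : ExpBound P) {R : ℝ} (hR : 0 < R) {n : ℕ} (hn : 80 ≤ n) :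
    ((P.roots.filter (fun r => R ≤ ‖r‖)).map (fun r => (‖r‖⁻¹) ^ n)).sum ≤
      9.1 * R * (R⁻¹) ^ n := by
  obtain ⟨K, hK⟩ : ∃ K : ℕ, ∀ r ∈ P.roots, ‖r‖ < R * (1.1 : ℝ) ^ K := by
    generalize P.roots = M
    induction M using Multiset.induction_on with
    | empty => exact ⟨0, by simp⟩
    | cons a M ih =>
      obtain ⟨K, hK⟩ := ih
      obtain ⟨L, hL⟩ := pow_unbounded_of_one_lt (‖a‖ / R) (by norm_num : (1 : ℝ) < 1.1)
      refine ⟨max K L, fun r hr => ?_⟩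
      have hm1 : (1.1 : ℝ) ^ K ≤ 1.1 ^ (max K L) := pow_le_pow_right₀ (by norm_num) (le_max_left _ _)
      have hm2 : (1.1 : ℝ) ^ L ≤ 1.1 ^ (max K L) := pow_le_pow_right₀ (by norm_num) (le_max_right _ _)
      rcases Multiset.mem_cons.1 hr with rfl | hr
      · rw [div_lt_iff₀ hR] at hL
        nlinarith
      · have := hK r hr
        nlinarith
  have h1 := far_aux hR (by norm_num : (1 : ℝ) < 1.1) n K (P.roots.filter (fun r => R ≤ ‖r‖))
    (fun r hr => ⟨(Multiset.mem_filter.1 hr).2, hK r (Multiset.mem_filter.1 hr).1⟩)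
  refine h1.trans ?_
  have h2 : ∀ k ∈ Finset.range K, ((R * (1.1 : ℝ) ^ k)⁻¹) ^ n *
        (((P.roots.filter (fun r => R ≤ ‖r‖)).filter
          (fun r => ‖r‖ < R * (1.1 : ℝ) ^ (k + 1))).card : ℝ) ≤
      (9.02 * R * (R⁻¹) ^ n) * (((1.1 : ℝ) ^ (n - 1))⁻¹ ^ k) := by
    intro k _
    have h3 : (((P.roots.filter (fun r => R ≤ ‖r‖)).filter
          (fun r => ‖r‖ < R * (1.1 : ℝ) ^ (k + 1))).card : ℝ) ≤ 8.2 * (R * (1.1 : ℝ) ^ (k + 1)) := by
      refine le_trans ?_ (count_le hP (by positivity))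
      exact_mod_cast Multiset.card_le_card
        (Multiset.filter_le_filter _ (Multiset.filter_le _ _))
    have h4 : ((R * (1.1 : ℝ) ^ k)⁻¹) ^ n = (R⁻¹) ^ n * ((((1.1 : ℝ) ^ (n - 1))⁻¹ ^ k) *
        ((1.1 : ℝ) ^ k)⁻¹) := by
      rw [mul_inv, mul_pow]
      congr 1
      rw [← inv_pow, ← inv_pow, ← pow_mul, ← pow_mul, ← pow_add]
      congr 1
      obtain ⟨n, rfl⟩ : ∃ j, n = j + 1 := ⟨n - 1, by omega⟩
      simp only [Nat.add_sub_cancel]
      ring
    calc ((R * (1.1 : ℝ) ^ k)⁻¹) ^ n * (((P.roots.filter (fun r => R ≤ ‖r‖)).filter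
          (fun r => ‖r‖ < R * (1.1 : ℝ) ^ (k + 1))).card : ℝ)
        ≤ ((R * (1.1 : ℝ) ^ k)⁻¹) ^ n * (8.2 * (R * (1.1 : ℝ) ^ (k + 1))) :=
          mul_le_mul_of_nonneg_left h3 (by positivity)
      _ = _ := by
          rw [h4, pow_succ]
          have h5 : ((1.1 : ℝ) ^ k) ≠ 0 := by positivity
          field_simp
          norm_num
  refine (Finset.sum_le_sum h2).trans ?_
  rw [← Finset.mul_sum]
  have h6 := far_geom n hn K
  have h7 : 0 ≤ R * (R⁻¹) ^ n := by positivity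
  calc 9.02 * R * R⁻¹ ^ n * ∑ k ∈ Finset.range K, ((1.1 : ℝ) ^ (n - 1))⁻¹ ^ k
      ≤ 9.02 * R * R⁻¹ ^ n * (9.1 / 9.02) := mul_le_mul_of_nonneg_left h6 (by positivity)
    _ = _ := by
      ring

end RR
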