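import Pool.Agent.Lib.MP_31701c_co.Stmt

/-!
# MP_31701c_co : shared definitions (FIXED, do not edit)

Overview of the whole proof: /team-store/MP_31701c_paper.md
-/

set_option autoImplicit false

namespace RR

open Polynomial

/-! ## Weighted words over a label set -/

open Classical in
/-- EDP words using every element of `V` exactly once. -/
noncomputable def words (V : Finset ℕ) : Finset (List ℕ) :=
  V.toList.permutations.toFinset.filter IsEDP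

/-- First letter of `s w` (`0` if empty). -/
def fst (w : List ℕ) : ℕ := (stackSort w).headD 0

open Classical in
/-- Weighted count of the EDP words on `V ≠ ∅` whose stack-sorted word starts with a letter `> a`. -/
noncomputable def GG (x : ℝ) (V : Finset ℕ) (a : ℕ) : ℝ :=
  if V = ∅ then 0 else ∑ w ∈ (words V).filter (fun w => a < fst w), x ^ des (stackSort w)

/-- Weighted count of chains of `k` words. -/
noncomputable def fk (x : ℝ) : ℕ → Finset ℕ → ℝ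
  | 0, S => if S = ∅ then 1 else 0
  | (k + 1), S => ∑ U ∈ S.powerset, fk x k U * GG x (S \ U) (U.sup id)

/-- The numbers `φ(k, n)` (the value of `fk x k S` for `|S| = n`). -/
noncomputable def phi (x : ℝ) : ℕ → ℕ → ℝ
  | 0, 0 => 1
  | (_ + 1), 0 => 0
  | 0, (_ + 1) => 0
  | (k + 1), (n + 1) => phi x k n + phi x (k + 1) n + (1 - x) * phi x (k + 2) n +
      x * ∑ j : Fin (n + 1), if (j : ℕ) = 0 then 0 else
        (n.choose j : ℝ) * phi x 1 j * phi x (k + 1) (n - j)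
termination_by _ n => n
decreasing_by
  all_goals (try simp_wf)
  all_goals (try omega)

/-! ## The numbers `v`, `h`, `x_m`, `S` -/

/-- `vv e m k = v_k(m)`: weighted Motzkin path numbers. -/
noncomputable def vv (e : ℝ) : ℕ → ℕ → ℝ
  | 0, 0 => 1
  | 0, (_ + 1) => 0
  | (m + 1), 0 => (1 - e ^ 2) * vv e m 1
  | (m + 1), (k + 1) => vv e m k + e * vv e m (k + 1) + vv e m (k + 2)

/-- `h_m = v_0(m)`. -/
noncomputable def hm (e : ℝ) (m : ℕ) : ℝ := vv e m 0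

/-- `x_0 = 0`, `x_m = v_1(m-1)` for `m ≥ 1`; so `h_m = (1 - e^2) x_m` for `m ≥ 1`. -/
noncomputable def xm (e : ℝ) : ℕ → ℝ
  | 0 => 0
  | (m + 1) => vv e m 1

/-- `S_n`, defined by `n h_n / n! + ∑_{j<n} S_j h_{n-j}/(n-j)! + S_n = 0`. -/
noncomputable def Sn (e : ℝ) (n : ℕ) : ℝ :=
  -(n * hm e n / (n.factorial : ℝ)) -
    ∑ j : Fin n, Sn e j * hm e (n - j) / ((n - (j : ℕ)).factorial : ℝ)
termination_by n
decreasing_by exact j.isLt

/-- The polynomial `H_N`. -/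
noncomputable def HN (e : ℝ) (N : ℕ) : ℝ[X] :=
  ∑ m ∈ Finset.range (N + 1), C (hm e m / (m.factorial : ℝ)) * X ^ m

/-- The complex roots of `H_N`, with multiplicity. -/
noncomputable def rts (e : ℝ) (N : ℕ) : Multiset ℂ := (HN e N).aroots ℂ

/-- `F_N(z) = ∑_{m ≤ N} x_m z^m / m!`, so `H_N = 1 + (1 - e^2) F_N`. -/
noncomputable def FN (e : ℝ) (N : ℕ) (z : ℂ) : ℂ :=
  ∑ m ∈ Finset.range (N + 1), ((xm e m / (m.factorial : ℝ) : ℝ) : ℂ) * z ^ m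

/-- `F_N` on the real line. -/
noncomputable def FR (e : ℝ) (N : ℕ) (x : ℝ) : ℝ :=
  ∑ m ∈ Finset.range (N + 1), xm e m / (m.factorial : ℝ) * x ^ m

/-- `g(e, x) = H_N(x) - 1`. -/
noncomputable def gg (e : ℝ) (N : ℕ) (x : ℝ) : ℝ := (HN e N).eval x - 1

/-- The left end of the W-range. -/
noncomputable def e9 : ℝ := 0.999875

/-- A good pair: `z` is a root of `H_N` in the open upper half plane, it and its conjugate are the
only roots of minimal modulus, and they dominate `S_n`. -/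
def GoodPair (e : ℝ) (N n : ℕ) (z : ℂ) : Prop :=
  aeval z (HN e N) = 0 ∧ 0 < z.im ∧
  (∀ w : ℂ, aeval w (HN e N) = 0 → w = z ∨ w = (starRingEnd ℂ) z ∨ ‖z‖ < ‖w‖) ∧
  |Sn e n - 2 * ((z⁻¹) ^ n).re| < 2 * (‖z‖⁻¹) ^ n

/-! ## The integrals of the W-range -/

/-- `Q(t) = e²t² + e(1-e²)t + (1-e²)²`. -/
noncomputable def QQ (e t : ℝ) : ℝ := e ^ 2 * t ^ 2 + e * (1 - e ^ 2) * t + (1 - e ^ 2) ^ 2

/-- `t = e + 2 cos θ`. -/
noncomputable def tt (e θ : ℝ) : ℝ := e + 2 * Real.cos θ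

/-- `y = 2 - 2 cos θ`. -/
noncomputable def yy (θ : ℝ) : ℝ := 2 - 2 * Real.cos θ

/-- `w = sin² θ / (1 + 2 cos θ)²`. -/
noncomputable def wt (θ : ℝ) : ℝ := Real.sin θ ^ 2 / (1 + 2 * Real.cos θ) ^ 2

/-- `θ_c = arccos (2/5)`. -/
noncomputable def thc : ℝ := Real.arccos (2 / 5)

/-- `K_j(x)`. -/
noncomputable def KK (j : ℕ) (x : ℝ) : ℝ :=
  2 / Real.pi * ∫ θ in (0:ℝ)..thc, yy θ ^ j * wt θ * Real.exp (-(yy θ * x))

/-- `K_0` for complex argument. -/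
noncomputable def KC (z : ℂ) : ℂ :=
  (2 / Real.pi : ℝ) * ∫ θ in (0:ℝ)..thc, ((wt θ : ℝ) : ℂ) * Complex.exp (-((yy θ : ℝ) * z))

/-- `K_1` for complex argument. -/
noncomputable def KC1 (z : ℂ) : ℂ :=
  (2 / Real.pi : ℝ) * ∫ θ in (0:ℝ)..thc, ((yy θ * wt θ : ℝ) : ℂ) * Complex.exp (-((yy θ : ℝ) * z))

/-- Tilted mean. -/
noncomputable def mm (x : ℝ) : ℝ := KK 1 x / KK 0 x

/-- Tilted variance. -/
noncomputable def VV (x : ℝ) : ℝ := KK 2 x / KK 0 x - mm x ^ 2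

/-- `k(x) = e^{Tx} K_0(x)`, `T = 2 + e`. -/
noncomputable def kk (e x : ℝ) : ℝ := Real.exp ((2 + e) * x) * KK 0 x

/-- `X(z)` as an integral. -/
noncomputable def XI (e : ℝ) (z : ℂ) : ℂ :=
  (2 / Real.pi : ℝ) * ∫ θ in (0:ℝ)..Real.pi,
    (Complex.exp ((tt e θ : ℝ) * z) - 1 - (tt e θ : ℝ) * z) *
      ((Real.sin θ ^ 2 / QQ e (tt e θ) : ℝ) : ℂ)

/-- `X'(z)` as an integral. -/
noncomputable def XI1 (e : ℝ) (z : ℂ) : ℂ :=
  (2 / Real.pi : ℝ) * ∫ θ in (0:ℝ)..Real.pi,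
    ((tt e θ : ℝ) * (Complex.exp ((tt e θ : ℝ) * z) - 1)) *
      ((Real.sin θ ^ 2 / QQ e (tt e θ) : ℝ) : ℂ)

/-- The analytic input of the W-range, abstractly (`T = 2 + e`, `k = kk e`, `m = mm`, `V = VV`). -/
structure WData (F : ℂ → ℂ) (T x0 B : ℝ) (k m V : ℝ → ℝ) : Prop where
  T_lo : 2.9998 ≤ T
  T_hi : T ≤ 3
  x0_lo : 4.6 ≤ x0
  B_eq : B = 1.06 * Real.sqrt (x0 ^ 2 + 3)
  diff : Differentiable ℂ F
  k_pos : ∀ x, 0 < k x
  m_nonneg : ∀ x, 4.4 ≤ x → 0 ≤ m x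
  m_le : ∀ x, 4.4 ≤ x → m x ≤ 1.5 / (x - 0.9326)
  V_nonneg : ∀ x, 4.4 ≤ x → 0 ≤ V x
  V_le : ∀ x, 4.4 ≤ x → V x ≤ 1.5 / ((x - 0.9326) * (x - 1.6))
  k_lo : ∀ a b, 4.4 ≤ a → a ≤ b → k a * Real.exp ((T - m a) * (b - a)) ≤ k b
  k_hi : ∀ a b, 4.4 ≤ a → a ≤ b → k b ≤ k a * Real.exp (T * (b - a))
  est : ∀ z : ℂ, x0 - 0.2 ≤ z.re → ‖z‖ ≤ B →
    ‖F z - (k z.re : ℂ) * Complex.exp (Complex.I * (((T - m z.re) * z.im : ℝ) : ℂ))‖ ≤
      k z.re * (z.im ^ 2 * V z.re / 2 + 6.14 / z.re ^ 3 * (‖z‖ / z.re) ^ 2)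
  est1 : ∀ z : ℂ, x0 - 0.2 ≤ z.re → ‖z‖ ≤ B →
    ‖F z‖ ≤ k z.re * (1 + 6.14 / z.re ^ 3 * (‖z‖ / z.re) ^ 2)
  der : ∀ z : ℂ, x0 - 0.2 ≤ z.re → ‖z‖ ≤ B →
    ‖deriv F z - (T : ℂ) * F z‖ ≤ k z.re * (m z.re + 0.2 * (‖z‖ / z.re) ^ 2)
  left : ∀ z : ℂ, z.re ≤ x0 - 0.2 / x0 → ‖z‖ ≤ B →
    ‖F z‖ ≤ k (x0 - 0.2 / x0) *
      (1 + 6.14 / (x0 - 0.2 / x0) ^ 3 * (B / (x0 - 0.2 / x0)) ^ 2)
  real : ∃ r : ℝ, F x0 = r ∧ k x0 * (1 - 0.2 / x0 ^ 3) ≤ r ∧ r ≤ k x0 * (1 + 6.14 / x0 ^ 3)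

/-! ## The compact range: cells -/

/-- Integer data of one cell of the compact range: `e ∈ [an/d, bn/d]`, radii `ra/1000 < rb/1000 <
rn/1000`, and the coefficients (times `10^4`) of an auxiliary polynomial in `z/(rn/1000)`. -/
structure Cell where
  an : ℕ
  bn : ℕ
  d : ℕ
  ra : ℕ
  rb : ℕ
  rn : ℕ
  qs : List ℤ

/-- The nine cells. -/
def cells : List Cell := [
  ⟨0, 53, 100, 2263, 2291, 3481,
    [10000, -2671, -22337, 4616, 24351, -3417, -15340, 1090, 4683]⟩,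
  ⟨53, 81, 100, 2496, 2526, 3575,
    [10000, -9000, -16969, 14658, 14954, -11095, -7370, 4026, 1272]⟩,
  ⟨405, 478, 500, 2862, 2897, 4504,
    [10000, -19810, -3602, 28796, -5831, -20585, 7570, 7667, -4133]⟩,
  ⟨1195, 1237, 1250, 3326, 3366, 5160,
    [10000, -24402, 10000, 16553, -8681, -8985, 2032, 6549, -3018]⟩,
  ⟨19792, 19937, 20000, 3747, 3792, 5057,
    [10000, -16998, 452, 7500, 3167, -996, -3662, -1442, 2149]⟩,
  ⟨99685, 99888, 100000, 4123, 4173, 5525,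
    [10000, -17219, 993, 6792, 3454, -837, -3465, -1776, 2204]⟩,
  ⟨199776, 199907, 200000, 4447, 4501, 5883,
    [10000, -16886, 691, 6239, 3754, -489, -3264, -2108, 2200]⟩,
  ⟨199907, 199957, 200000, 4732, 4789, 6227,
    [10000, -16996, 785, 6190, 3842, -489, -3247, -2183, 2221]⟩,
  ⟨199957, 199975, 200000, 4934, 4994, 6420,
    [10000, -16152, -39, 5481, 3995, 78, -2849, -2358, 1969]⟩]

/-- The Landau inequality data of a cell: a bound for the `ℓ²` norm of `(H q)(R z)`. -/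
def CellAOK (c : Cell) : Prop :=
  ∀ e : ℝ, (c.an : ℝ) / c.d ≤ e → e ≤ (c.bn : ℝ) / c.d →
    ∑ m ∈ Finset.range 73, (∑ j ∈ Finset.range (m + 1), ((c.qs.getD j 0 : ℤ) : ℝ) / 10000 *
      (hm e (m - j) * ((c.rn : ℝ) / 1000) ^ (m - j) / ((m - j).factorial : ℝ))) ^ 2 ≤
    0.9999 * ((c.rn : ℝ) / c.rb) ^ 8

/-- The lower bound for `S_90² - S_89 S_91` on a cell. -/
def CellBOK (c : Cell) : Prop :=
  ∀ e : ℝ, (c.an : ℝ) / c.d ≤ e → e ≤ (c.bn : ℝ) / c.d →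
    33 ≤ (Sn e 90 ^ 2 - Sn e 89 * Sn e 91) * ((c.ra : ℝ) / 1000) ^ 180

/-! ## The coefficient approach -/

/-- `X` as a formal power series. -/
noncomputable def XS (e : ℝ) : PowerSeries ℝ :=
  PowerSeries.mk fun m => xm e m / (m.factorial : ℝ)

open MeasureTheory in
/-- The power series `∑ (∫ t^m dρ) τ^m / m!`. -/
noncomputable def momS (ρ : Measure ℝ) : PowerSeries ℝ :=
  PowerSeries.mk fun m => (∫ t, t ^ m ∂ρ) / (m.factorial : ℝ)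

open MeasureTheory in
/-- The measure `(2/π) w(θ) dθ` on `[0, θ_c]`, pushed forward by `θ ↦ e + 2 cos θ`. -/
noncomputable def nu (e : ℝ) : Measure ℝ :=
  Measure.map (tt e) ((volume.restrict (Set.Icc 0 thc)).withDensity
    (fun θ => ENNReal.ofReal (2 / Real.pi * wt θ)))

/-! ## Sign patterns -/

/-- `S_n` has the alternating sign pattern that forces `A_n` to be real-rooted. -/
def Signs (n : ℕ) : Prop :=
  ∃ pts : ℕ → ℝ, (∀ k, 2 ≤ k → k ≤ n / 2 → 0 < pts k ∧ pts k < 1) ∧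
    (∀ k, 2 ≤ k → k + 1 ≤ n / 2 → pts (k + 1) < pts k) ∧
    (∀ k, 2 ≤ k → k ≤ n / 2 → 0 < (-1 : ℝ) ^ k * Sn (pts k) n)

end RR
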