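import Pool.Agent.Lib.MP_31701c_co.Defs

/-!
# RR-EDP : decomposition of EDP words at their maximum

`IsEDP w` : for all `i` with `i + 1 < w.length` and `w[i+1] < w[i]` we have `1 ≤ i` and
`w[i-1] < w[i]`.
`isEDP_split`: let `w = L ++ m :: R`, all entries of `L`, `R` smaller than `m`. A descent inside `L`
is a descent of `L` at the same place. The last letter of `L` is `< m`: no descent. If `R ≠ []` the
letter `m` is a descent; it is a peak iff `L ≠ []`. A descent `R[j+1] < R[j]` inside `R`: for `j = 0`
its left neighbour is `m > R[0]`, so it is not a peak (also `IsEDP R` forbids a descent at `j = 0`);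
for `j ≥ 1` the condition is the one of `R`. Use `List.getElem_append` / `List.getElem_append_left/right`,
or first prove the equivalence of `IsEDP` with a recursive version.
-/

set_option autoImplicit false

namespace RR

private theorem EDP_perm {w v : List ℕ} (hv : v.Nodup) :
    w.Perm v ↔ w.Nodup ∧ w.toFinset = v.toFinset := by
  constructor
  · intro h
    exact ⟨h.nodup_iff.2 hv, List.toFinset_eq_of_perm _ _ h⟩
  · rintro ⟨h1, h2⟩
    exact List.perm_of_nodup_nodup_toFinset_eq h1 hv h2

theorem mem_words {V : Finset ℕ} {w : List ℕ} :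
    w ∈ words V ↔ w.Nodup ∧ w.toFinset = V ∧ IsEDP w := by
  classical
  rw [words, Finset.mem_filter, List.mem_toFinset, List.mem_permutations,
    EDP_perm V.nodup_toList, Finset.toList_toFinset, and_assoc]

theorem mem_edp {m : ℕ} {w : List ℕ} :
    w ∈ edp m ↔ w.Nodup ∧ w.toFinset = Finset.Icc 1 m ∧ IsEDP w := by
  classical
  have h1 : (List.range' 1 m).toFinset = Finset.Icc 1 m := by
    ext x
    rw [List.mem_toFinset, List.mem_range'_1, Finset.mem_Icc]
    omega
  rw [edp, Finset.mem_filter, List.mem_toFinset, List.mem_permutations,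
    EDP_perm List.nodup_range', h1, and_assoc]

theorem edp_eq_words (m : ℕ) : edp m = words (Finset.Icc 1 m) := by
  ext w
  rw [mem_edp, mem_words]

theorem isEDP_nil : IsEDP [] := by
  intro i h
  exact absurd h (by simp)

private theorem EDP_g1 (L R : List ℕ) (m i : ℕ) (h : i < L.length)
    (h' : i < (L ++ m :: R).length) : (L ++ m :: R)[i] = L[i] :=
  List.getElem_append_left h

private theorem EDP_g2 (L R : List ℕ) (m i : ℕ) (h : i = L.length)
    (h' : i < (L ++ m :: R).length) : (L ++ m :: R)[i] = m := by
  subst h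
  rw [List.getElem_append_right (le_refl _)]
  simp

private theorem EDP_g3 (L R : List ℕ) (m i j : ℕ) (h : i = L.length + 1 + j)
    (hj : j < R.length) (h' : i < (L ++ m :: R).length) : (L ++ m :: R)[i] = R[j] := by
  subst h
  rw [List.getElem_append_right (by omega)]
  have h2 : L.length + 1 + j - L.length = j + 1 := by omega
  simp only [h2, List.getElem_cons_succ]

theorem isEDP_split {L R : List ℕ} {m : ℕ} (hL : ∀ a ∈ L, a < m) (hR : ∀ a ∈ R, a < m) :
    IsEDP (L ++ m :: R) ↔ IsEDP L ∧ IsEDP R ∧ (R ≠ [] → L ≠ []) := by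
  have hlen : (L ++ m :: R).length = L.length + 1 + R.length := by
    rw [List.length_append, List.length_cons]
    omega
  constructor
  · intro h
    refine ⟨?_, ?_, ?_⟩
    · intro i hi hd
      have h1 := h i (by omega)
      rw [EDP_g1 L R m (i + 1) hi, EDP_g1 L R m i (by omega)] at h1
      obtain ⟨h2, h3⟩ := h1 hd
      refine ⟨h2, ?_⟩
      rwa [EDP_g1 L R m (i - 1) (by omega)] at h3
    · intro j hj hd
      have h1 := h (L.length + 1 + j) (by omega)
      rw [EDP_g3 L R m (L.length + 1 + j + 1) (j + 1) (by omega) hj,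
        EDP_g3 L R m (L.length + 1 + j) j rfl (by omega)] at h1
      obtain ⟨h2, h3⟩ := h1 hd
      rcases Nat.eq_zero_or_pos j with h4 | h4
      · rw [EDP_g2 L R m (L.length + 1 + j - 1) (by omega)] at h3
        exact absurd (hR _ (List.getElem_mem (by omega : j < R.length))) (by omega)
      · refine ⟨h4, ?_⟩
        rwa [EDP_g3 L R m (L.length + 1 + j - 1) (j - 1) (by omega) (by omega)] at h3
    · intro hRn hLn
      have hRl : 0 < R.length := List.length_pos_iff.2 hRn
      have h1 := h L.length (by omega)
      rw [EDP_g3 L R m (L.length + 1) 0 (by omega) hRl, EDP_g2 L R m L.length rfl] at h1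
      have h2 := (h1 (hR _ (List.getElem_mem hRl))).1
      rw [hLn] at h2
      simp at h2
  · rintro ⟨h1, h2, h3⟩ i hi hd
    rcases lt_trichotomy i L.length with h4 | h4 | h4
    · rcases Nat.lt_or_ge (i + 1) L.length with h5 | h5
      · rw [EDP_g1 L R m (i + 1) h5, EDP_g1 L R m i h4] at hd
        obtain ⟨h6, h7⟩ := h1 i h5 hd
        refine ⟨h6, ?_⟩
        rwa [EDP_g1 L R m (i - 1) (by omega), EDP_g1 L R m i h4]
      · rw [EDP_g2 L R m (i + 1) (by omega), EDP_g1 L R m i h4] at hd
        exact absurd (hL _ (List.getElem_mem h4)) (by omega)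
    · have hRl : 0 < R.length := by omega
      have hLl : 0 < L.length := List.length_pos_iff.2 (h3 (List.length_pos_iff.1 hRl))
      refine ⟨by omega, ?_⟩
      rw [EDP_g1 L R m (i - 1) (by omega), EDP_g2 L R m i h4]
      exact hL _ (List.getElem_mem _)
    · obtain ⟨j, rfl⟩ : ∃ j, i = L.length + 1 + j := ⟨i - (L.length + 1), by omega⟩
      rw [EDP_g3 L R m (L.length + 1 + j + 1) (j + 1) (by omega) (by omega),
        EDP_g3 L R m (L.length + 1 + j) j rfl (by omega)] at hd
      obtain ⟨h6, h7⟩ := h2 j (by omega) hd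
      refine ⟨by omega, ?_⟩
      rwa [EDP_g3 L R m (L.length + 1 + j - 1) (j - 1) (by omega) (by omega),
        EDP_g3 L R m (L.length + 1 + j) j rfl (by omega)]

theorem isEDP_sorted {w : List ℕ} (h : w.Pairwise (· < ·)) : IsEDP w := by
  intro i hi hd
  have h1 := List.pairwise_iff_getElem.1 h i (i + 1) (by omega) hi (by omega)
  omega

private theorem EDP_le_max {w : List ℕ} : ∀ a ∈ w, a ≤ maxEntry w := by
  induction w with
  | nil => intro a ha; simp at ha
  | cons b l ih =>
    intro a ha
    have h2 : maxEntry (b :: l) = max b (maxEntry l) := rfl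
    rw [h2]
    rcases List.mem_cons.1 ha with h | h
    · rw [h]; exact le_max_left _ _
    · exact (ih a h).trans (le_max_right _ _)

theorem exists_split {w : List ℕ} (h : w ≠ []) (hn : w.Nodup) :
    ∃ L R : List ℕ, w = L ++ maxEntry w :: R ∧ (∀ a ∈ L, a < maxEntry w) ∧
      (∀ a ∈ R, a < maxEntry w) := by
  obtain ⟨L, R, hw⟩ := List.append_of_mem (maxEntry_mem h)
  generalize hm : maxEntry w = m at hw
  refine ⟨L, R, hw, ?_, ?_⟩
  · intro a ha
    refine lt_of_le_of_ne (hm ▸ EDP_le_max a ?_) ?_
    · rw [hw]; exact List.mem_append_left _ ha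
    · rintro rfl
      rw [hw, List.nodup_append] at hn
      exact hn.2.2 a ha a List.mem_cons_self rfl
  · intro a ha
    refine lt_of_le_of_ne (hm ▸ EDP_le_max a ?_) ?_
    · rw [hw]; exact List.mem_append_right _ (List.mem_cons_of_mem _ ha)
    · rintro rfl
      rw [hw, List.nodup_append] at hn
      exact (List.nodup_cons.1 hn.2.1).1 ha

theorem maxEntry_eq_sup (w : List ℕ) : maxEntry w = w.toFinset.sup id := by
  induction w with
  | nil => rfl
  | cons b l ih =>
    have h2 : maxEntry (b :: l) = max b (maxEntry l) := rfl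
    rw [h2, ih, List.toFinset_cons, Finset.sup_insert]
    rfl

end RR
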