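import Pool.Agent.Lib.MP_31701c_co.Words
import Pool.Agent.Lib.MP_31701c_co.EDP

/-!
# RR-Degree : degree and extreme coefficients of `A_n`

`two_mul_des_le`: for an EDP word `w ≠ []` without repetition, `2 des(s w) + 1 ≤ |w|`. Strong
induction on the length with `exists_split`, `isEDP_split`, `des_split`:
`w = [m]`: `0`. `w = L m`, `L ≠ []`: `des = des (s L)`. `w = L m R`, both nonempty:
`2 des ≤ 2 des(s L) + 2 des(s R) + 2 ≤ |L| - 1 + |R| - 1 + 2 = |w| - 1`.
So every exponent in `A n` (`n ≥ 2`) is `≤ n/2`; exponents are `≥ 1`, so the constant coefficient is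
`0`; the coefficient of `X` counts words with `des (s w) = 0`; it is positive because the increasing
word `1 2 … (n-1)` is EDP and is fixed by `s`.
-/

set_option autoImplicit false

namespace RR

open Polynomial

private theorem Degree_aux (k : ℕ) : ∀ (w : List ℕ), w.length = k → w ≠ [] → w.Nodup → IsEDP w →
    2 * des (stackSort w) + 1 ≤ w.length := by
  induction k using Nat.strong_induction_on with
  | _ k ih =>
    intro w hk hw hn he
    obtain ⟨L, R, hwe, hL, hR⟩ := exists_split hw hn
    generalize maxEntry w = m at *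
    subst hwe
    rw [des_split hL hR]
    rw [isEDP_split hL hR] at he
    obtain ⟨hEL, hER, hRL⟩ := he
    have hlen : (L ++ m :: R).length = L.length + R.length + 1 := by
      rw [List.length_append, List.length_cons]; omega
    have hnL : L.Nodup := (List.nodup_append.1 hn).1
    have hnR : R.Nodup := (List.nodup_cons.1 (List.nodup_append.1 hn).2.1).2
    rw [hlen] at hk ⊢
    have hs0 : des (stackSort []) = 0 := by rw [stackSort_nil]; rfl
    by_cases hR0 : R = []
    · subst hR0
      simp only [ne_eq, not_true_eq_false, false_and, and_false, if_false, List.length_nil, hs0]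
      by_cases hL0 : L = []
      · subst hL0
        simp [hs0]
      · have h1 := ih L.length (by omega) L rfl hL0 hnL hEL
        omega
    · have hL0 : L ≠ [] := hRL hR0
      have h1 := ih L.length (by omega) L rfl hL0 hnL hEL
      have h2 := ih R.length (by omega) R rfl hR0 hnR hER
      split_ifs <;> omega

theorem two_mul_des_le {w : List ℕ} (hw : w ≠ []) (hn : w.Nodup) (he : IsEDP w) :
    2 * des (stackSort w) + 1 ≤ w.length := Degree_aux w.length w rfl hw hn he

private theorem Degree_length {m : ℕ} {w : List ℕ} (hw : w ∈ edp m) : w.length = m := by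
  obtain ⟨h1, h2, -⟩ := mem_edp.1 hw
  have h3 := List.toFinset_card_of_nodup h1
  rw [h2, Nat.card_Icc] at h3
  omega

theorem A_natDegree_le {n : ℕ} (hn : 2 ≤ n) : (A n).natDegree ≤ n / 2 := by
  unfold A
  refine natDegree_sum_le_of_forall_le _ _ fun w hw => ?_
  refine (natDegree_X_pow_le _).trans ?_
  have h1 := Degree_length hw
  obtain ⟨h2, -, h3⟩ := mem_edp.1 hw
  have h4 : w ≠ [] := by
    intro h
    rw [h, List.length_nil] at h1
    omega
  have h5 := two_mul_des_le h4 h2 h3
  omega

theorem A_coeff_zero {n : ℕ} : (A n).coeff 0 = 0 := by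
  unfold A
  rw [finset_sum_coeff]
  refine Finset.sum_eq_zero fun w _ => ?_
  rw [coeff_X_pow, if_neg (by omega)]

private theorem Degree_des {w : List ℕ} (h : w.Pairwise (· < ·)) : des w = 0 := by
  induction w with
  | nil => rfl
  | cons a l ih =>
    cases l with
    | nil => rfl
    | cons b l =>
      have h1 := (List.pairwise_cons.1 h).1 b List.mem_cons_self
      have h2 := ih (List.pairwise_cons.1 h).2
      show (if b < a then 1 else 0) + des (b :: l) = 0
      rw [h2, if_neg (by omega)]

theorem A_coeff_one_pos {n : ℕ} : 0 < (A n).coeff 1 := by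
  unfold A
  rw [finset_sum_coeff]
  have hs : (List.range' 1 (n - 1)).Pairwise (· < ·) := List.pairwise_lt_range'
  have hmem : List.range' 1 (n - 1) ∈ edp (n - 1) := by
    rw [mem_edp]
    refine ⟨List.nodup_range', ?_, isEDP_sorted hs⟩
    ext i
    rw [List.mem_toFinset, List.mem_range'_1, Finset.mem_Icc]
    omega
  have h0 : ∀ w ∈ edp (n - 1), (0 : ℤ) ≤ ((X : ℤ[X]) ^ (des (stackSort w) + 1)).coeff 1 := by
    intro w _
    rw [coeff_X_pow]
    split_ifs <;> norm_num
  refine lt_of_lt_of_le ?_ (Finset.single_le_sum h0 hmem)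
  rw [stackSort_sorted hs, Degree_des hs, zero_add, pow_one, coeff_X_one]
  exact one_pos

theorem A_one : A 1 = X := by
  have h : edp (1 - 1) = {[]} := by
    ext w
    rw [mem_edp, Finset.mem_singleton]
    constructor
    · rintro ⟨-, h2, -⟩
      rw [Finset.Icc_eq_empty (by omega)] at h2
      exact (List.toFinset_eq_empty_iff w).1 h2
    · rintro rfl
      exact ⟨List.nodup_nil, rfl, isEDP_nil⟩
  unfold A
  rw [h, Finset.sum_singleton, stackSort_nil]
  simp [des]

end RR
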