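import Pool.Agent.Lib.MP_31701c_co.K0low

/-!
# RR-Errs : the error terms of `RestParts`, relative to `k(x)` (real inequalities)
-/

set_option autoImplicit false

namespace RR

private theorem Errs_exp44 : Real.exp 4.4 ≤ 81.451 := by
  have h1 : Real.exp 4.4 = Real.exp 1 ^ 4 * Real.exp 0.4 := by
    rw [← Real.exp_nat_mul, ← Real.exp_add]; norm_num
  have h2 : Real.exp 0.4 ≤ 1.4918254 := by
    have := Real.exp_bound' (x := 0.4) (by norm_num) (by norm_num) (n := 6) (by norm_num)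
    refine this.trans ?_
    simp only [Finset.sum_range_succ, Finset.sum_range_zero, Nat.factorial]
    norm_num
  have h3 : Real.exp 1 ^ 4 ≤ (2.7182818286 : ℝ) ^ 4 :=
    pow_le_pow_left₀ (Real.exp_pos 1).le Real.exp_one_lt_d9.le 4
  rw [h1]
  calc Real.exp 1 ^ 4 * Real.exp 0.4 ≤ (2.7182818286 : ℝ) ^ 4 * 1.4918254 :=
        mul_le_mul h3 h2 (Real.exp_pos _).le (by positivity)
    _ ≤ 81.451 := by norm_num

private theorem Errs_exp352 : Real.exp 3.52 ≤ 33.785 := by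
  have h1 : Real.exp 3.52 = Real.exp 1 ^ 3 * Real.exp 0.52 := by
    rw [← Real.exp_nat_mul, ← Real.exp_add]; norm_num
  have h2 : Real.exp 0.52 ≤ 1.682029 := by
    have := Real.exp_bound' (x := 0.52) (by norm_num) (by norm_num) (n := 7) (by norm_num)
    refine this.trans ?_
    simp only [Finset.sum_range_succ, Finset.sum_range_zero, Nat.factorial]
    norm_num
  have h3 : Real.exp 1 ^ 3 ≤ (2.7182818286 : ℝ) ^ 3 :=
    pow_le_pow_left₀ (Real.exp_pos 1).le Real.exp_one_lt_d9.le 3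
  rw [h1]
  calc Real.exp 1 ^ 3 * Real.exp 0.52 ≤ (2.7182818286 : ℝ) ^ 3 * 1.682029 :=
        mul_le_mul h3 h2 (Real.exp_pos _).le (by positivity)
    _ ≤ 33.785 := by norm_num

private theorem Errs_exp439 : 80.5 ≤ Real.exp 4.39 := by
  have h1 : Real.exp 4.39 = Real.exp 1 ^ 4 * Real.exp 0.39 := by
    rw [← Real.exp_nat_mul, ← Real.exp_add]; norm_num
  have h2 : 1.4758 ≤ Real.exp 0.39 := by
    have := Real.sum_le_exp_of_nonneg (x := 0.39) (by norm_num) 4
    refine le_trans ?_ this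
    simp only [Finset.sum_range_succ, Finset.sum_range_zero, Nat.factorial]
    norm_num
  have h3 : (2.7182818283 : ℝ) ^ 4 ≤ Real.exp 1 ^ 4 :=
    pow_le_pow_left₀ (by norm_num) Real.exp_one_gt_d9.le 4
  rw [h1]
  calc (80.5 : ℝ) ≤ (2.7182818283 : ℝ) ^ 4 * 1.4758 := by norm_num
    _ ≤ Real.exp 1 ^ 4 * Real.exp 0.39 := mul_le_mul h3 h2 (by norm_num) (by positivity)

private theorem Errs_exp0512 : 1.643 ≤ Real.exp 0.512 := by
  have := Real.sum_le_exp_of_nonneg (x := 0.512) (by norm_num) 4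
  refine le_trans ?_ this
  simp only [Finset.sum_range_succ, Finset.sum_range_zero, Nat.factorial]
  norm_num

/-- lower bound for `kk` with the factor `exp (e x)` -/
private theorem Errs_kk {e x : ℝ} (hx : 4.4 ≤ x) :
    Real.exp (e * x) * (26.3962 * Real.exp (1.567 * (x - 4.4))) ≤ kk e x := by
  have h1 := K0_lower hx
  have h2 : kk e x = Real.exp ((2 + e) * x) * KK 0 x := rfl
  rw [h2]
  have h3 : Real.exp ((2 + e) * x) * (2150 * Real.exp (-13.2) * Real.exp (-(0.433 * (x - 4.4)))) ≤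
      Real.exp ((2 + e) * x) * KK 0 x := mul_le_mul_of_nonneg_left h1 (Real.exp_pos _).le
  refine le_trans ?_ h3
  have h4 : (26.3962 : ℝ) ≤ 2150 * Real.exp (-4.4) := by
    rw [Real.exp_neg, ← div_eq_mul_inv, le_div_iff₀ (Real.exp_pos _)]
    have := Errs_exp44
    nlinarith
  have h5 : Real.exp (e * x) * (26.3962 * Real.exp (1.567 * (x - 4.4))) ≤
      Real.exp (e * x) * (2150 * Real.exp (-4.4) * Real.exp (1.567 * (x - 4.4))) :=
    mul_le_mul_of_nonneg_left (mul_le_mul_of_nonneg_right h4 (Real.exp_pos _).le) (Real.exp_pos _).le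
  refine h5.trans (le_of_eq ?_)
  have e1 : Real.exp ((2 + e) * x) * (2150 * Real.exp (-13.2) * Real.exp (-(0.433 * (x - 4.4)))) =
      2150 * (Real.exp ((2 + e) * x) * Real.exp (-13.2) * Real.exp (-(0.433 * (x - 4.4)))) := by
    ring
  have e2 : Real.exp (e * x) * (2150 * Real.exp (-4.4) * Real.exp (1.567 * (x - 4.4))) =
      2150 * (Real.exp (e * x) * Real.exp (-4.4) * Real.exp (1.567 * (x - 4.4))) := by ring
  rw [e1, e2, ← Real.exp_add, ← Real.exp_add, ← Real.exp_add, ← Real.exp_add]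
  congr 2
  ring

private theorem Errs_cube {x : ℝ} (hx : 4.4 ≤ x) :
    x ^ 3 ≤ 85.184 * Real.exp (0.682 * (x - 4.4)) := by
  have h1 : x ≤ 4.4 * Real.exp ((x - 4.4) / 4.4) := by
    have := Real.add_one_le_exp ((x - 4.4) / 4.4)
    have h2 : (4.4 : ℝ) * ((x - 4.4) / 4.4 + 1) = x := by ring
    nlinarith
  have h3 : x ^ 3 ≤ (4.4 * Real.exp ((x - 4.4) / 4.4)) ^ 3 :=
    pow_le_pow_left₀ (by linarith) h1 3
  refine h3.trans ?_
  rw [mul_pow, ← Real.exp_nat_mul]
  have h4 : Real.exp (((3 : ℕ) : ℝ) * ((x - 4.4) / 4.4)) ≤ Real.exp (0.682 * (x - 4.4)) := by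
    apply Real.exp_le_exp.2
    push_cast
    have : 0 ≤ x - 4.4 := by linarith
    have h5 : (3 : ℝ) * ((x - 4.4) / 4.4) = (3 / 4.4) * (x - 4.4) := by ring
    rw [h5]
    exact mul_le_mul_of_nonneg_right (by norm_num) this
  have h6 : (4.4 : ℝ) ^ 3 = 85.184 := by norm_num
  rw [h6]
  exact mul_le_mul_of_nonneg_left h4 (by norm_num)

private theorem Errs_left {e x : ℝ} (hx : 4.4 ≤ x) (c d : ℝ) (hc : 0 ≤ c) (hd : 0 ≤ d) :
    c * Real.exp (e * x) + d / (x - 1.469) * Real.exp ((e + 0.8) * x) ≤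
      Real.exp (e * x) * ((c + d / 2.931 * 33.785) * Real.exp (0.8 * (x - 4.4))) := by
  have hs : 0 ≤ x - 4.4 := by linarith
  have e1 : Real.exp ((e + 0.8) * x) = Real.exp (e * x) * (Real.exp 3.52 *
      Real.exp (0.8 * (x - 4.4))) := by
    rw [← Real.exp_add, ← Real.exp_add]
    congr 1
    ring
  have h1 : 1 ≤ Real.exp (0.8 * (x - 4.4)) := Real.one_le_exp (by positivity)
  have h2 : d / (x - 1.469) ≤ d / 2.931 :=
    div_le_div_of_nonneg_left hd (by norm_num) (by linarith)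
  have h3 : d / (x - 1.469) * Real.exp 3.52 ≤ d / 2.931 * 33.785 :=
    mul_le_mul h2 Errs_exp352 (Real.exp_pos _).le (by positivity)
  rw [e1]
  have h4 : c * Real.exp (e * x) + d / (x - 1.469) * (Real.exp (e * x) * (Real.exp 3.52 *
      Real.exp (0.8 * (x - 4.4)))) = Real.exp (e * x) * (c + d / (x - 1.469) * Real.exp 3.52 *
      Real.exp (0.8 * (x - 4.4))) := by ring
  rw [h4]
  refine mul_le_mul_of_nonneg_left ?_ (Real.exp_pos _).le
  have h5 : c ≤ c * Real.exp (0.8 * (x - 4.4)) := by nlinarith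
  have h6 := mul_le_mul_of_nonneg_right h3 (Real.exp_pos (0.8 * (x - 4.4))).le
  rw [add_mul]
  exact add_le_add h5 h6

theorem err_main {e x : ℝ} (h9 : e9 ≤ e) (h1 : e ≤ 1) (hx : 4.4 ≤ x) :
    0.668 * Real.exp (e * x) + 0.0985 / (x - 1.469) * Real.exp ((e + 0.8) * x) ≤
      kk e x * (5.85 / x ^ 3) := by
  have _ := h9
  have _ := h1
  have hs : 0 ≤ x - 4.4 := by linarith
  have hx3 : 0 < x ^ 3 := by positivity
  refine (Errs_left hx 0.668 0.0985 (by norm_num) (by norm_num)).trans ?_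
  have hk := Errs_kk (e := e) hx
  have hc := Errs_cube hx
  rw [mul_div_assoc', le_div_iff₀ hx3]
  have hE := Real.exp_pos (e * x)
  have h2 : Real.exp (e * x) * ((0.668 + 0.0985 / 2.931 * 33.785) * Real.exp (0.8 * (x - 4.4))) *
      x ^ 3 ≤ Real.exp (e * x) * ((0.668 + 0.0985 / 2.931 * 33.785) * Real.exp (0.8 * (x - 4.4))) *
      (85.184 * Real.exp (0.682 * (x - 4.4))) :=
    mul_le_mul_of_nonneg_left hc (by positivity)
  have h3 : Real.exp (0.8 * (x - 4.4)) * Real.exp (0.682 * (x - 4.4)) ≤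
      Real.exp (1.567 * (x - 4.4)) := by
    rw [← Real.exp_add]
    apply Real.exp_le_exp.2
    nlinarith
  have h4 : Real.exp (e * x) * ((0.668 + 0.0985 / 2.931 * 33.785) * Real.exp (0.8 * (x - 4.4))) *
      (85.184 * Real.exp (0.682 * (x - 4.4))) ≤
      Real.exp (e * x) * (26.3962 * Real.exp (1.567 * (x - 4.4))) * 5.85 := by
    have h5 : Real.exp (e * x) * ((0.668 + 0.0985 / 2.931 * 33.785) *
        Real.exp (0.8 * (x - 4.4))) * (85.184 * Real.exp (0.682 * (x - 4.4))) =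
        Real.exp (e * x) * (((0.668 + 0.0985 / 2.931 * 33.785) * 85.184) *
        (Real.exp (0.8 * (x - 4.4)) * Real.exp (0.682 * (x - 4.4)))) := by ring
    have h6 : Real.exp (e * x) * (26.3962 * Real.exp (1.567 * (x - 4.4))) * 5.85 =
        Real.exp (e * x) * ((26.3962 * 5.85) * Real.exp (1.567 * (x - 4.4))) := by ring
    rw [h5, h6]
    refine mul_le_mul_of_nonneg_left ?_ hE.le
    exact mul_le_mul (by norm_num) h3 (by positivity) (by norm_num)
  have h7 := mul_le_mul_of_nonneg_right hk (by norm_num : (0 : ℝ) ≤ 5.85)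
  exact (h2.trans h4).trans h7

theorem err_small {e x : ℝ} (h9 : e9 ≤ e) (h1 : e ≤ 1) (hx : 4.4 ≤ x) :
    0.25 * (1 + 3 * (1.2 * x)) + 1e-14 ≤ kk e x * (0.2 / x ^ 3) := by
  have hs : 0 ≤ x - 4.4 := by linarith
  have hx3 : 0 < x ^ 3 := by positivity
  have hk := kk_lower h9 h1 hx
  have hc := Errs_cube hx
  rw [mul_div_assoc', le_div_iff₀ hx3]
  have hp : (0 : ℝ) ≤ 0.25 * (1 + 3 * (1.2 * x)) + 1e-14 := by positivity
  refine (mul_le_mul_of_nonneg_left hc hp).trans ?_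
  refine le_trans ?_ (mul_le_mul_of_nonneg_right hk (by norm_num : (0 : ℝ) ≤ 0.2))
  have h2 : Real.exp (2.56 * (x - 4.4)) = Real.exp (1.878 * (x - 4.4)) *
      Real.exp (0.682 * (x - 4.4)) := by
    rw [← Real.exp_add]; congr 1; ring
  have h3 : 1 + 1.878 * (x - 4.4) ≤ Real.exp (1.878 * (x - 4.4)) := by
    have := Real.add_one_le_exp (1.878 * (x - 4.4)); linarith
  rw [h2]
  have h4 : (0.25 * (1 + 3 * (1.2 * x)) + 1e-14) * 85.184 ≤
      2145 * 0.2 * Real.exp (1.878 * (x - 4.4)) := by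
    have h5 : 2145 * 0.2 * (1 + 1.878 * (x - 4.4)) ≤ 2145 * 0.2 * Real.exp (1.878 * (x - 4.4)) :=
      mul_le_mul_of_nonneg_left h3 (by norm_num)
    refine le_trans ?_ h5
    nlinarith
  have h6 := mul_le_mul_of_nonneg_right h4 (Real.exp_pos (0.682 * (x - 4.4))).le
  calc (0.25 * (1 + 3 * (1.2 * x)) + 1e-14) * (85.184 * Real.exp (0.682 * (x - 4.4)))
      = (0.25 * (1 + 3 * (1.2 * x)) + 1e-14) * 85.184 * Real.exp (0.682 * (x - 4.4)) := by ring
    _ ≤ 2145 * 0.2 * Real.exp (1.878 * (x - 4.4)) * Real.exp (0.682 * (x - 4.4)) := h6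
    _ = 2145 * (Real.exp (1.878 * (x - 4.4)) * Real.exp (0.682 * (x - 4.4))) * 0.2 := by ring

theorem err_small_real {e x : ℝ} (h9 : e9 ≤ e) (h1 : e ≤ 1) (hx : 4.6 ≤ x) :
    0.25 * (1 + 3 * x) + 1e-14 ≤ kk e x * (0.12 / x ^ 3) := by
  have hs : 0 ≤ x - 4.6 := by linarith
  have hx3 : 0 < x ^ 3 := by positivity
  have hk := kk_lower h9 h1 (by linarith : 4.4 ≤ x)
  have hc : x ^ 3 ≤ 97.336 * Real.exp (0.66 * (x - 4.6)) := by
    have g1 : x ≤ 4.6 * Real.exp ((x - 4.6) / 4.6) := by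
      have := Real.add_one_le_exp ((x - 4.6) / 4.6)
      have h2 : (4.6 : ℝ) * ((x - 4.6) / 4.6 + 1) = x := by ring
      nlinarith
    have h3 : x ^ 3 ≤ (4.6 * Real.exp ((x - 4.6) / 4.6)) ^ 3 :=
      pow_le_pow_left₀ (by linarith) g1 3
    refine h3.trans ?_
    rw [mul_pow, ← Real.exp_nat_mul]
    have h4 : Real.exp (((3 : ℕ) : ℝ) * ((x - 4.6) / 4.6)) ≤ Real.exp (0.66 * (x - 4.6)) := by
      apply Real.exp_le_exp.2
      push_cast
      have h5 : (3 : ℝ) * ((x - 4.6) / 4.6) = (3 / 4.6) * (x - 4.6) := by ring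
      rw [h5]
      exact mul_le_mul_of_nonneg_right (by norm_num) hs
    have h6 : (4.6 : ℝ) ^ 3 = 97.336 := by norm_num
    rw [h6]
    exact mul_le_mul_of_nonneg_left h4 (by norm_num)
  rw [mul_div_assoc', le_div_iff₀ hx3]
  have hp : (0 : ℝ) ≤ 0.25 * (1 + 3 * x) + 1e-14 := by positivity
  refine (mul_le_mul_of_nonneg_left hc hp).trans ?_
  refine le_trans ?_ (mul_le_mul_of_nonneg_right hk (by norm_num : (0 : ℝ) ≤ 0.12))
  have h2 : Real.exp (2.56 * (x - 4.4)) = Real.exp 0.512 * Real.exp (1.9 * (x - 4.6)) *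
      Real.exp (0.66 * (x - 4.6)) := by
    rw [← Real.exp_add, ← Real.exp_add]; congr 1; ring
  have h3 : 1 + 1.9 * (x - 4.6) ≤ Real.exp (1.9 * (x - 4.6)) := by
    have := Real.add_one_le_exp (1.9 * (x - 4.6)); linarith
  have h3' : 1.643 * (1 + 1.9 * (x - 4.6)) ≤ Real.exp 0.512 * Real.exp (1.9 * (x - 4.6)) :=
    mul_le_mul Errs_exp0512 h3 (by positivity) (Real.exp_pos _).le
  rw [h2]
  have h4 : (0.25 * (1 + 3 * x) + 1e-14) * 97.336 ≤
      2145 * 0.12 * (Real.exp 0.512 * Real.exp (1.9 * (x - 4.6))) := by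
    have h5 : 2145 * 0.12 * (1.643 * (1 + 1.9 * (x - 4.6))) ≤
        2145 * 0.12 * (Real.exp 0.512 * Real.exp (1.9 * (x - 4.6))) :=
      mul_le_mul_of_nonneg_left h3' (by norm_num)
    refine le_trans ?_ h5
    nlinarith
  have h6 := mul_le_mul_of_nonneg_right h4 (Real.exp_pos (0.66 * (x - 4.6))).le
  calc (0.25 * (1 + 3 * x) + 1e-14) * (97.336 * Real.exp (0.66 * (x - 4.6)))
      = (0.25 * (1 + 3 * x) + 1e-14) * 97.336 * Real.exp (0.66 * (x - 4.6)) := by ring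
    _ ≤ 2145 * 0.12 * (Real.exp 0.512 * Real.exp (1.9 * (x - 4.6))) *
        Real.exp (0.66 * (x - 4.6)) := h6
    _ = 2145 * (Real.exp 0.512 * Real.exp (1.9 * (x - 4.6)) *
        Real.exp (0.66 * (x - 4.6))) * 0.12 := by ring

/-- the derivative error: `T ≤ 3`, `‖z‖ ≤ 1.2 x` -/
theorem err_deriv {e x : ℝ} (h9 : e9 ≤ e) (h1 : e ≤ 1) (hx : 4.4 ≤ x) :
    4 * 0.668 * Real.exp (e * x) + 2 * 0.0985 / (x - 1.469) * Real.exp ((e + 0.8) * x) +
      1.34 * (1.2 * x) + 0.25 * (3 + 3 * (1.2 * x)) + 1e-14 ≤ kk e x * 0.199 := by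
  have _ := h1
  have hs : 0 ≤ x - 4.4 := by linarith
  have hl := Errs_left (e := e) hx (4 * 0.668) (2 * 0.0985) (by norm_num) (by norm_num)
  have hk := mul_le_mul_of_nonneg_right (Errs_kk (e := e) hx) (by norm_num : (0 : ℝ) ≤ 0.199)
  have he : (0.999875 : ℝ) ≤ e := h9
  have hE : 80.5 * (1 + 0.99 * (x - 4.4)) ≤ Real.exp (e * x) := by
    have g1 : 4.39 + 0.99 * (x - 4.4) ≤ e * x := by nlinarith
    have g2 := Real.exp_le_exp.2 g1
    rw [Real.exp_add] at g2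
    have g3 : 1 + 0.99 * (x - 4.4) ≤ Real.exp (0.99 * (x - 4.4)) := by
      have := Real.add_one_le_exp (0.99 * (x - 4.4)); linarith
    refine le_trans ?_ g2
    exact mul_le_mul Errs_exp439 g3 (by positivity) (Real.exp_pos _).le
  have h2 : 1.34 * (1.2 * x) + 0.25 * (3 + 3 * (1.2 * x)) + 1e-14 ≤ 0.15 * Real.exp (e * x) := by
    have := mul_le_mul_of_nonneg_left hE (by norm_num : (0 : ℝ) ≤ 0.15)
    refine le_trans ?_ this
    nlinarith
  have h3 : Real.exp (0.8 * (x - 4.4)) ≤ Real.exp (1.567 * (x - 4.4)) := by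
    apply Real.exp_le_exp.2
    nlinarith
  have h0 : 1 ≤ Real.exp (0.8 * (x - 4.4)) := Real.one_le_exp (by positivity)
  have h4 : Real.exp (e * x) * ((4 * 0.668 + 2 * 0.0985 / 2.931 * 33.785) *
      Real.exp (0.8 * (x - 4.4))) + 0.15 * Real.exp (e * x) ≤
      Real.exp (e * x) * (26.3962 * Real.exp (1.567 * (x - 4.4))) * 0.199 := by
    have e1 : Real.exp (e * x) * ((4 * 0.668 + 2 * 0.0985 / 2.931 * 33.785) *
        Real.exp (0.8 * (x - 4.4))) + 0.15 * Real.exp (e * x) =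
        Real.exp (e * x) * ((4 * 0.668 + 2 * 0.0985 / 2.931 * 33.785) *
        Real.exp (0.8 * (x - 4.4)) + 0.15) := by ring
    have e2 : Real.exp (e * x) * (26.3962 * Real.exp (1.567 * (x - 4.4))) * 0.199 =
        Real.exp (e * x) * (26.3962 * 0.199 * Real.exp (1.567 * (x - 4.4))) := by ring
    rw [e1, e2]
    refine mul_le_mul_of_nonneg_left ?_ (Real.exp_pos _).le
    have g1 : (4 * 0.668 + 2 * 0.0985 / 2.931 * 33.785) * Real.exp (0.8 * (x - 4.4)) + 0.15 ≤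
        (4 * 0.668 + 2 * 0.0985 / 2.931 * 33.785 + 0.15) * Real.exp (0.8 * (x - 4.4)) := by
      nlinarith
    refine g1.trans ?_
    exact mul_le_mul (by norm_num) h3 (Real.exp_pos _).le (by norm_num)
  linarith

end RR
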