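import Pool.Agent.Lib.MP_31701c_co.Defs

/-!
# RR-Expm : bounds for `e^u - 1 - u`

Everything follows from `e^u - 1 - u = u² ∫_0^1 (1-ρ) e^{ρu} dρ` (complex `u`), hence
`|e^u - 1 - u| ≤ |u|² ∫_0^1 (1-ρ) e^{ρ Re u} dρ` and, for real `w ≠ 0`, `∫_0^1 (1-ρ) e^{ρw} dρ = (e^w - 1 - w)/w²`
(at `w = 0` it is `1/2`); the function `w ↦ ∫_0^1 (1-ρ) e^{ρw} dρ` is increasing.
(One may prefer: `f(ρ) = e^{ρu}`; or prove with `G(s) = e^{su} - 1 - su`, `G' = u(e^{su}-1)`.)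
* `expm_bound`: `u = tz`, `|u|² = t²‖z‖²`, `Re u = t Re z =: w`, `t² ‖z‖² (e^w-1-w)/w² = (‖z‖/Re z)² (e^w-1-w)`.
* `expm_bound_left`: `Re u = t Re z ≤ t x1 = w`, `|u|² ≤ t² r²`.
* `expm_bound_neg`: `∫ (1-ρ) e^{ρ Re u} ≤ 1/2`.
* `expm_bound_norm`: power series with nonnegative coefficients.
* `expm_real_le`: for `t = 0` trivial; else `w = tx ≤ ex`, monotonicity of `(e^w-1-w)/w²`.
-/

set_option autoImplicit false

namespace RR

private noncomputable def Expm_J (w : ℝ) : ℝ := ∫ ρ in (0 : ℝ)..1, (1 - ρ) * Real.exp (ρ * w)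

private theorem Expm_real (w : ℝ) : Real.exp w - 1 - w = w ^ 2 * Expm_J w := by
  have h : ∀ ρ ∈ Set.uIcc (0 : ℝ) 1, HasDerivAt
      (fun ρ : ℝ => w * (1 - ρ) * Real.exp (ρ * w) + Real.exp (ρ * w))
      (w ^ 2 * ((1 - ρ) * Real.exp (ρ * w))) ρ := by
    intro ρ _
    have h1 : HasDerivAt (fun ρ : ℝ => Real.exp (ρ * w)) (Real.exp (ρ * w) * (1 * w)) ρ :=
      ((hasDerivAt_id ρ).mul_const w).exp
    have h2 : HasDerivAt (fun ρ : ℝ => w * (1 - ρ)) (w * (0 - 1)) ρ :=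
      ((hasDerivAt_const ρ (1 : ℝ)).sub (hasDerivAt_id ρ)).const_mul w
    refine ((h2.mul h1).add h1).congr_deriv ?_
    ring
  have h3 := intervalIntegral.integral_eq_sub_of_hasDerivAt h (by
    apply Continuous.intervalIntegrable
    fun_prop)
  rw [intervalIntegral.integral_const_mul] at h3
  unfold Expm_J
  rw [h3]
  simp
  ring

private theorem Expm_cplx (u : ℂ) : Complex.exp u - 1 - u =
    ∫ ρ in (0 : ℝ)..1, u ^ 2 * ((1 - (ρ : ℂ)) * Complex.exp ((ρ : ℂ) * u)) := by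
  have h : ∀ ρ ∈ Set.uIcc (0 : ℝ) 1, HasDerivAt
      (fun ρ : ℝ => u * (1 - (ρ : ℂ)) * Complex.exp ((ρ : ℂ) * u) + Complex.exp ((ρ : ℂ) * u))
      (u ^ 2 * ((1 - (ρ : ℂ)) * Complex.exp ((ρ : ℂ) * u))) ρ := by
    intro ρ _
    have h0 : HasDerivAt (fun ρ : ℝ => (ρ : ℂ)) 1 ρ := Complex.ofRealCLM.hasDerivAt
    have h1 : HasDerivAt (fun ρ : ℝ => Complex.exp ((ρ : ℂ) * u))
        (Complex.exp ((ρ : ℂ) * u) * (1 * u)) ρ := (h0.mul_const u).cexp
    have h2 : HasDerivAt (fun ρ : ℝ => u * (1 - (ρ : ℂ))) (u * (0 - 1)) ρ :=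
      ((hasDerivAt_const ρ (1 : ℂ)).sub h0).const_mul u
    refine ((h2.mul h1).add h1).congr_deriv ?_
    ring
  have h3 := intervalIntegral.integral_eq_sub_of_hasDerivAt h (by
    apply Continuous.intervalIntegrable
    fun_prop)
  rw [h3]
  simp
  ring

private theorem Expm_mono {w w' : ℝ} (h : w ≤ w') : Expm_J w ≤ Expm_J w' := by
  unfold Expm_J
  refine intervalIntegral.integral_mono_on zero_le_one ?_ ?_ fun ρ hρ => ?_
  · exact Continuous.intervalIntegrable (by fun_prop) _ _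
  · exact Continuous.intervalIntegrable (by fun_prop) _ _
  · refine mul_le_mul_of_nonneg_left (Real.exp_le_exp.2 ?_) (by linarith [hρ.2])
    exact mul_le_mul_of_nonneg_left h hρ.1

private theorem Expm_nonneg (w : ℝ) : 0 ≤ Expm_J w := by
  unfold Expm_J
  refine intervalIntegral.integral_nonneg zero_le_one fun ρ hρ => ?_
  exact mul_nonneg (by linarith [hρ.2]) (Real.exp_pos _).le

private theorem Expm_zero : Expm_J 0 = 1 / 2 := by
  unfold Expm_J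
  simp only [mul_zero, Real.exp_zero, mul_one]
  rw [intervalIntegral.integral_sub (by simp) (by simp)]
  simp
  norm_num

private theorem Expm_key (u : ℂ) : ‖Complex.exp u - 1 - u‖ ≤ ‖u‖ ^ 2 * Expm_J u.re := by
  rw [Expm_cplx]
  refine (intervalIntegral.norm_integral_le_integral_norm zero_le_one).trans ?_
  unfold Expm_J
  rw [← intervalIntegral.integral_const_mul]
  refine intervalIntegral.integral_mono_on zero_le_one ?_ ?_ fun ρ hρ => ?_
  · exact Continuous.intervalIntegrable (by fun_prop) _ _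
  · exact Continuous.intervalIntegrable (by fun_prop) _ _
  · have h1 : ‖(1 - (ρ : ℂ))‖ = 1 - ρ := by
      have : (1 - (ρ : ℂ)) = ((1 - ρ : ℝ) : ℂ) := by push_cast; rfl
      rw [this, Complex.norm_real, Real.norm_eq_abs, abs_of_nonneg (by linarith [hρ.2])]
    have h2 : ((ρ : ℂ) * u).re = ρ * u.re := by simp
    rw [norm_mul, norm_pow, norm_mul, h1, Complex.norm_exp, h2]

/-- `|e^u - 1 - u| ≤ (|z|/x)² (e^{tx} - 1 - tx)` for `u = tz`, `x = Re z > 0`. -/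
theorem expm_bound (t : ℝ) {z : ℂ} (hz : 0 < z.re) :
    ‖Complex.exp ((t : ℂ) * z) - 1 - (t : ℂ) * z‖ ≤
      (‖z‖ / z.re) ^ 2 * (Real.exp (t * z.re) - 1 - t * z.re) := by
  refine (Expm_key _).trans (le_of_eq ?_)
  have h1 : ((t : ℂ) * z).re = t * z.re := by simp
  rw [h1, Expm_real, norm_mul, Complex.norm_real, Real.norm_eq_abs, mul_pow, sq_abs]
  field_simp

theorem expm_bound_left {t : ℝ} (ht : 0 ≤ t) {z : ℂ} {x1 r : ℝ} (hx1 : 0 < x1) (hz : z.re ≤ x1)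
    (hzr : ‖z‖ ≤ r) :
    ‖Complex.exp ((t : ℂ) * z) - 1 - (t : ℂ) * z‖ ≤
      (r / x1) ^ 2 * (Real.exp (t * x1) - 1 - t * x1) := by
  refine (Expm_key _).trans ?_
  have h1 : ((t : ℂ) * z).re = t * z.re := by simp
  have h2 : ‖(t : ℂ) * z‖ ≤ t * r := by
    rw [norm_mul, Complex.norm_real, Real.norm_eq_abs, abs_of_nonneg ht]
    exact mul_le_mul_of_nonneg_left hzr ht
  have h3 : Expm_J (t * z.re) ≤ Expm_J (t * x1) := Expm_mono (mul_le_mul_of_nonneg_left hz ht)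
  rw [h1, Expm_real]
  calc ‖(t : ℂ) * z‖ ^ 2 * Expm_J (t * z.re) ≤ (t * r) ^ 2 * Expm_J (t * x1) :=
        mul_le_mul (pow_le_pow_left₀ (norm_nonneg _) h2 2) h3 (Expm_nonneg _) (sq_nonneg _)
    _ = (r / x1) ^ 2 * ((t * x1) ^ 2 * Expm_J (t * x1)) := by field_simp

theorem expm_bound_neg {u : ℂ} (hu : u.re ≤ 0) : ‖Complex.exp u - 1 - u‖ ≤ ‖u‖ ^ 2 / 2 := by
  refine (Expm_key _).trans ?_
  have h1 := Expm_mono hu
  rw [Expm_zero] at h1
  have h2 := sq_nonneg ‖u‖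
  nlinarith

theorem expm_bound_norm (u : ℂ) : ‖Complex.exp u - 1 - u‖ ≤ Real.exp ‖u‖ - 1 - ‖u‖ := by
  refine (Expm_key _).trans ?_
  rw [Expm_real]
  exact mul_le_mul_of_nonneg_left (Expm_mono (Complex.re_le_norm u)) (sq_nonneg _)

theorem expm_nonneg (w : ℝ) : 0 ≤ Real.exp w - 1 - w := by
  rw [Expm_real]
  exact mul_nonneg (sq_nonneg _) (Expm_nonneg _)

theorem half_sq_le_expm {w : ℝ} (hw : 0 ≤ w) : w ^ 2 / 2 ≤ Real.exp w - 1 - w := by
  rw [Expm_real]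
  have h1 := Expm_mono hw
  rw [Expm_zero] at h1
  have h2 := sq_nonneg w
  nlinarith

theorem expm_real_le {e t x : ℝ} (he : 0 < e) (hx : 0 < x) (ht : t ≤ e) :
    Real.exp (t * x) - 1 - t * x ≤ (t / e) ^ 2 * (Real.exp (e * x) - 1 - e * x) := by
  rw [Expm_real, Expm_real]
  have h1 : Expm_J (t * x) ≤ Expm_J (e * x) := Expm_mono (mul_le_mul_of_nonneg_right ht hx.le)
  calc (t * x) ^ 2 * Expm_J (t * x) ≤ (t * x) ^ 2 * Expm_J (e * x) :=
        mul_le_mul_of_nonneg_left h1 (sq_nonneg _)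
    _ = (t / e) ^ 2 * ((e * x) ^ 2 * Expm_J (e * x)) := by field_simp

end RR
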