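import Pool.Agent.Lib.MP_31701c_co.FRec

/-!
# RR-FCard : `fk x k S = phi x k |S|`

Strong induction on `S.card` (for all `k`): `fk x 0 S` by definition; `fk x (k+1) ∅ = 0` since
`GG x ∅ _ = 0`; for `S ≠ ∅` use `fk_rec`, `GG x R 0 = fk x 1 R = phi x 1 R.card` for `R ≠ ∅`
(`fk x 1 S = GG x S 0`, the sum over `U` reduces to `U = ∅`), and group the sum over
`R ∈ S'.powerset` by cardinality.
-/

set_option autoImplicit false

namespace RR

open Polynomial

private theorem GG_empty (x : ℝ) (a : ℕ) : GG x ∅ a = 0 := by
  unfold GG
  simp

private theorem fk_one (x : ℝ) (S : Finset ℕ) : fk x 1 S = GG x S 0 := by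
  rw [fk]
  rw [Finset.sum_eq_single ∅]
  · rw [fk]
    simp
  · intro U _ hU
    rw [fk, if_neg hU, zero_mul]
  · intro h
    exact absurd (Finset.empty_mem_powerset S) h

theorem fk_eq_phi (x : ℝ) (k : ℕ) (S : Finset ℕ) (h0 : 0 ∉ S) : fk x k S = phi x k S.card := by
  have key : ∀ n : ℕ, ∀ S : Finset ℕ, S.card = n → 0 ∉ S → ∀ k : ℕ, fk x k S = phi x k n := by
    intro n
    induction n using Nat.strong_induction_on with
    | _ n ih =>
      intro S hS h0 k
      rcases Nat.eq_zero_or_pos n with hn | hn
      · subst hn
        have hSe : S = ∅ := Finset.card_eq_zero.1 hS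
        subst hSe
        cases k with
        | zero => rw [fk, phi]; simp
        | succ k =>
          rw [fk, phi]
          simp [GG_empty]
      · obtain ⟨n, rfl⟩ : ∃ j, n = j + 1 := ⟨n - 1, by omega⟩
        have hne : S.Nonempty := by
          rw [← Finset.card_pos, hS]
          exact hn
        cases k with
        | zero =>
          rw [fk, phi, if_neg hne.ne_empty]
        | succ k =>
          rw [fk_rec x k hne h0, phi]
          set S' : Finset ℕ := S.erase (S.max' hne) with hS'
          have hcard : S'.card = n := by
            rw [hS', Finset.card_erase_of_mem (S.max'_mem hne), hS]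
            rfl
          have h0' : 0 ∉ S' := fun h => h0 (Finset.mem_of_mem_erase h)
          rw [ih n (Nat.lt_succ_self n) S' hcard h0' k,
            ih n (Nat.lt_succ_self n) S' hcard h0' (k + 1),
            ih n (Nat.lt_succ_self n) S' hcard h0' (k + 2)]
          congr 2
          have h1 : ∀ R ∈ S'.powerset, GG x R 0 * fk x (k + 1) (S' \ R) =
              (fun j : ℕ => if j = 0 then 0 else phi x 1 j * phi x (k + 1) (n - j)) R.card := by
            intro R hR
            rw [Finset.mem_powerset] at hR
            by_cases hRe : R = ∅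
            · subst hRe
              simp [GG_empty]
            · have hRc : R.card ≠ 0 := by
                rwa [Ne, Finset.card_eq_zero]
              have hRn : R.card ≤ n := hcard ▸ Finset.card_le_card hR
              show _ = if R.card = 0 then 0 else phi x 1 R.card * phi x (k + 1) (n - R.card)
              rw [if_neg hRc, ← fk_one,
                ih R.card (by omega) R rfl (fun h => h0' (hR h)) 1,
                ih (n - R.card) (by omega) (S' \ R) (by
                  rw [Finset.card_sdiff_of_subset hR, hcard])
                  (fun h => h0' (Finset.sdiff_subset h)) (k + 1)]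
          have h2 := Finset.sum_powerset_apply_card
            (x := S') (fun j : ℕ => if j = 0 then (0 : ℝ) else phi x 1 j * phi x (k + 1) (n - j))
          rw [Finset.sum_congr rfl h1, h2, hcard,
            Finset.sum_range (fun m => n.choose m •
              (fun j : ℕ => if j = 0 then (0 : ℝ) else phi x 1 j * phi x (k + 1) (n - j)) m)]
          refine Finset.sum_congr rfl (fun j _ => ?_)
          show n.choose j • (if (j : ℕ) = 0 then 0 else phi x 1 j * phi x (k + 1) (n - j)) = _
          split_ifs with hj
          · rw [smul_zero]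
          · rw [nsmul_eq_mul]
            ring
  exact key S.card S rfl h0 k

theorem GG_eq_phi (x : ℝ) {S : Finset ℕ} (hS : S.Nonempty) (h0 : 0 ∉ S) :
    GG x S 0 = phi x 1 S.card := by
  rw [← fk_one, fk_eq_phi x 1 S h0]

theorem A_eval (x : ℝ) {n : ℕ} (hn : 2 ≤ n) : aeval x (A n) = x * phi x 1 (n - 1) := by
  classical
  set V : Finset ℕ := Finset.Icc 1 (n - 1) with hV
  have hVne : V.Nonempty := by
    rw [hV, Finset.nonempty_Icc]
    omega
  have h0 : 0 ∉ V := by
    rw [hV, Finset.mem_Icc]
    omega
  have hcard : V.card = n - 1 := by
    rw [hV, Nat.card_Icc]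
    omega
  have hG := GG_eq_phi x hVne h0
  rw [hcard] at hG
  rw [← hG]
  unfold GG A
  rw [if_neg hVne.ne_empty, map_sum, Finset.mul_sum, edp_eq_words, ← hV]
  have hfil : (words V).filter (fun w => 0 < fst w) = words V := by
    refine Finset.filter_true_of_mem ?_
    intro w hw
    have h1 := mem_words.1 hw
    have hwne : w ≠ [] := by
      intro h
      rw [h] at h1
      exact hVne.ne_empty (by simpa using h1.2.1.symm)
    have h2 : fst w ∈ V := by
      rw [← h1.2.1, List.mem_toFinset]
      exact fst_mem hwne
    rcases Nat.eq_zero_or_pos (fst w) with h3 | h3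
    · rw [h3] at h2
      exact absurd h2 h0
    · exact h3
  rw [← Finset.sum_congr hfil (fun w _ => rfl)]
  refine Finset.sum_congr (by congr) (fun w _ => ?_)
  rw [map_pow, aeval_X, pow_succ]
  ring

end RR
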