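import Pool.Agent.Lib.MP_31701c_co.GRec

/-!
# RR-FRec : recursion for the chain sums `fk x k S`

`fk x (k+1) S = ∑_{U ⊆ S} fk x k U * GG x (S \ U) (U.sup id)`. Let `m = max S`, `S' = S.erase m`.
* If `m ∈ U` then `U.sup id = m` and `GG x (S \ U) m = 0` (GG_eq_zero_of_sup_le).
* If `m ∉ U`, i.e. `U ⊆ S'`: apply `GG_rec` to `V = S \ U`, `max V = m`, `V.erase m = S' \ U`,
  `a = U.sup id < m` (`0 ∉ S` gives `0 < m`). Summing the four terms against `fk x k U`:
  1. only `U = S'`: `fk x k S'`;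
  2. `∑_U fk x k U * GG x (S' \ U) (sup U) = fk x (k+1) S'`;
  3. `∑_U ∑_{L ⊆ S' \ U} fk x k U GG(L, sup U) GG(S' \ U \ L, 0)`; with `R = S' \ U \ L`, it is
     `∑_{R ⊆ S'} GG(R,0) ∑_{U ⊆ S' \ R} fk x k U GG((S' \ R) \ U, sup U) = ∑_R GG x R 0 * fk x (k+1) (S' \ R)`;
  4. `∑_U ∑_L fk x k U GG(L, sup U) GG(S' \ U \ L, sup L)`; with `W = U ∪ L` (disjoint) this is
     `∑_{W ⊆ S'} ∑_{U ⊆ W} fk x k U GG(W \ U, sup U) GG(S' \ W, sup W) = fk x (k+2) S'`, because when
     `GG(L, sup U) ≠ 0` we have `sup U < sup L` (GG_eq_zero_of_sup_le), so `sup W = sup L`.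
-/

set_option autoImplicit false

namespace RR

private lemma reindex3 (S : Finset ℕ) (F : Finset ℕ → Finset ℕ → Finset ℕ → ℝ) :
    ∑ U ∈ S.powerset, ∑ L ∈ (S \ U).powerset, F U L ((S \ U) \ L) =
      ∑ R ∈ S.powerset, ∑ U ∈ (S \ R).powerset, F U ((S \ R) \ U) R := by
  rw [Finset.sum_sigma', Finset.sum_sigma']
  have h1 : ∀ U L : Finset ℕ, U ⊆ S → L ⊆ S \ U → (S \ ((S \ U) \ L)) \ U = L := by
    intro U L hU hL
    ext a
    have h2 := @hU a
    have h3 := @hL a
    simp only [Finset.mem_sdiff] at h3 ⊢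
    tauto
  have h4 : ∀ R U : Finset ℕ, R ⊆ S → U ⊆ S \ R → (S \ U) \ ((S \ R) \ U) = R := by
    intro R U hR hU
    ext a
    have h2 := @hR a
    have h3 := @hU a
    simp only [Finset.mem_sdiff] at h3 ⊢
    tauto
  refine Finset.sum_bij' (fun z _ => ⟨(S \ z.1) \ z.2, z.1⟩) (fun z _ => ⟨z.2, (S \ z.1) \ z.2⟩)
    ?_ ?_ ?_ ?_ ?_
  · rintro ⟨U, L⟩ hz
    simp only [Finset.mem_sigma, Finset.mem_powerset] at hz ⊢
    refine ⟨Finset.sdiff_subset.trans Finset.sdiff_subset, ?_⟩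
    intro a ha
    simp only [Finset.mem_sdiff]
    exact ⟨hz.1 ha, fun h => h.1.2 ha⟩
  · rintro ⟨R, U⟩ hz
    simp only [Finset.mem_sigma, Finset.mem_powerset] at hz ⊢
    refine ⟨hz.2.trans Finset.sdiff_subset, ?_⟩
    intro a ha
    simp only [Finset.mem_sdiff] at ha ⊢
    exact ⟨ha.1.1, ha.2⟩
  · rintro ⟨U, L⟩ hz
    simp only [Finset.mem_sigma, Finset.mem_powerset] at hz
    simp only [h1 U L hz.1 hz.2]
  · rintro ⟨R, U⟩ hz
    simp only [Finset.mem_sigma, Finset.mem_powerset] at hz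
    simp only [h4 R U hz.1 hz.2]
  · rintro ⟨U, L⟩ hz
    simp only [Finset.mem_sigma, Finset.mem_powerset] at hz
    simp only [h1 U L hz.1 hz.2]

private lemma reindex4 (S : Finset ℕ) (F : Finset ℕ → Finset ℕ → Finset ℕ → ℝ) :
    ∑ U ∈ S.powerset, ∑ L ∈ (S \ U).powerset, F U L (U ∪ L) =
      ∑ W ∈ S.powerset, ∑ U ∈ W.powerset, F U (W \ U) W := by
  rw [Finset.sum_sigma', Finset.sum_sigma']
  have h1 : ∀ U L : Finset ℕ, L ⊆ S \ U → (U ∪ L) \ U = L := by
    intro U L hL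
    ext a
    have h3 := @hL a
    simp only [Finset.mem_sdiff, Finset.mem_union] at h3 ⊢
    tauto
  have h4 : ∀ W U : Finset ℕ, U ⊆ W → U ∪ (W \ U) = W := by
    intro W U hU
    exact Finset.union_sdiff_of_subset hU
  refine Finset.sum_bij' (fun z _ => ⟨z.1 ∪ z.2, z.1⟩) (fun z _ => ⟨z.2, z.1 \ z.2⟩)
    ?_ ?_ ?_ ?_ ?_
  · rintro ⟨U, L⟩ hz
    simp only [Finset.mem_sigma, Finset.mem_powerset] at hz ⊢
    refine ⟨Finset.union_subset hz.1 (hz.2.trans Finset.sdiff_subset), Finset.subset_union_left⟩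
  · rintro ⟨W, U⟩ hz
    simp only [Finset.mem_sigma, Finset.mem_powerset] at hz ⊢
    refine ⟨hz.2.trans hz.1, ?_⟩
    intro a ha
    simp only [Finset.mem_sdiff] at ha ⊢
    exact ⟨hz.1 ha.1, ha.2⟩
  · rintro ⟨U, L⟩ hz
    simp only [Finset.mem_sigma, Finset.mem_powerset] at hz
    simp only [h1 U L hz.2]
  · rintro ⟨W, U⟩ hz
    simp only [Finset.mem_sigma, Finset.mem_powerset] at hz
    simp only [h4 W U hz.2]
  · rintro ⟨U, L⟩ hz
    simp only [Finset.mem_sigma, Finset.mem_powerset] at hz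
    simp only [h1 U L hz.2]

private lemma fk_succ (x : ℝ) (k : ℕ) (S : Finset ℕ) :
    fk x (k + 1) S = ∑ U ∈ S.powerset, fk x k U * GG x (S \ U) (U.sup id) := rfl

private lemma term3 (x : ℝ) (k : ℕ) (S : Finset ℕ) :
    ∑ U ∈ S.powerset, fk x k U * ∑ L ∈ (S \ U).powerset,
      GG x L (U.sup id) * GG x ((S \ U) \ L) 0 =
    ∑ R ∈ S.powerset, GG x R 0 * fk x (k + 1) (S \ R) := by
  have h := reindex3 S (fun U L R => fk x k U * (GG x L (U.sup id) * GG x R 0))
  simp only [← Finset.mul_sum] at h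
  rw [h]
  refine Finset.sum_congr rfl fun R _ => ?_
  rw [fk_succ, Finset.mul_sum]
  refine Finset.sum_congr rfl fun U _ => ?_
  ring

private lemma term4 (x : ℝ) (k : ℕ) (S : Finset ℕ) :
    ∑ U ∈ S.powerset, fk x k U * ∑ L ∈ (S \ U).powerset,
      GG x L (U.sup id) * GG x ((S \ U) \ L) (L.sup id) = fk x (k + 2) S := by
  have h := reindex4 S (fun U L W => fk x k U * GG x L (U.sup id) * GG x (S \ W) (W.sup id))
  have h2 : ∑ U ∈ S.powerset, fk x k U * ∑ L ∈ (S \ U).powerset,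
      GG x L (U.sup id) * GG x ((S \ U) \ L) (L.sup id) =
      ∑ U ∈ S.powerset, ∑ L ∈ (S \ U).powerset,
        fk x k U * GG x L (U.sup id) * GG x (S \ (U ∪ L)) ((U ∪ L).sup id) := by
    refine Finset.sum_congr rfl fun U _ => ?_
    rw [Finset.mul_sum]
    refine Finset.sum_congr rfl fun L _ => ?_
    rw [sdiff_sdiff_left']
    by_cases hL : L.sup id ≤ U.sup id
    · rw [GG_eq_zero_of_sup_le x hL]
      ring
    · have h3 : (U ∪ L).sup id = L.sup id := by
        rw [Finset.sup_union]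
        exact sup_of_le_right (le_of_lt (not_le.1 hL))
      have h4 : (S \ U) ⊓ (S \ L) = S \ (U ∪ L) := by
        ext a
        simp only [Finset.inf_eq_inter, Finset.mem_inter, Finset.mem_sdiff, Finset.mem_union]
        tauto
      rw [h3, h4]
      ring
  rw [h2, h]
  rw [show k + 2 = (k + 1) + 1 from rfl, fk_succ]
  refine Finset.sum_congr rfl fun W _ => ?_
  rw [fk_succ, Finset.sum_mul]

theorem fk_rec (x : ℝ) (k : ℕ) {S : Finset ℕ} (hS : S.Nonempty) (h0 : 0 ∉ S) :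
    fk x (k + 1) S = fk x k (S.erase (S.max' hS)) + fk x (k + 1) (S.erase (S.max' hS)) +
      (1 - x) * fk x (k + 2) (S.erase (S.max' hS)) +
      x * ∑ R ∈ (S.erase (S.max' hS)).powerset,
        GG x R 0 * fk x (k + 1) (S.erase (S.max' hS) \ R) := by
  set m := S.max' hS with hm
  have hmS : m ∈ S := S.max'_mem hS
  have hmpos : 0 < m := by
    rcases Nat.eq_zero_or_pos m with h | h
    · rw [h] at hmS
      exact absurd hmS h0
    · exact h
  set S' := S.erase m with hS'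
  have hins : insert m S' = S := Finset.insert_erase hmS
  have hnot : m ∉ S' := Finset.notMem_erase m S
  have hlt : ∀ a ∈ S', a < m := by
    intro a ha
    rw [hS', Finset.mem_erase] at ha
    exact lt_of_le_of_ne (S.le_max' a ha.2) ha.1
  have hle : ∀ a ∈ S, a ≤ m := fun a ha => S.le_max' a ha
  -- reduce to subsets of `S'`
  have e1 : fk x (k + 1) S = ∑ U ∈ S'.powerset, fk x k U * GG x (S \ U) (U.sup id) := by
    rw [fk_succ]
    nth_rw 1 [← hins]
    rw [Finset.sum_powerset_insert hnot]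
    have hz : ∑ t ∈ S'.powerset, fk x k (insert m t) *
        GG x (S \ insert m t) ((insert m t).sup id) = 0 := by
      refine Finset.sum_eq_zero fun t _ => ?_
      rw [GG_eq_zero_of_sup_le, mul_zero]
      refine Finset.sup_le fun a ha => ?_
      have h1 : a ≤ m := hle a (Finset.mem_sdiff.1 ha).1
      have h2 : id m ≤ (insert m t).sup id := Finset.le_sup (Finset.mem_insert_self m t)
      exact h1.trans h2
    rw [hz, add_zero]
  have e2 : ∀ U ∈ S'.powerset, GG x (S \ U) (U.sup id) =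
      (if U = S' then 1 else 0) + GG x (S' \ U) (U.sup id) +
      x * ∑ L ∈ (S' \ U).powerset, GG x L (U.sup id) * GG x ((S' \ U) \ L) 0 +
      (1 - x) * ∑ L ∈ (S' \ U).powerset,
        GG x L (U.sup id) * GG x ((S' \ U) \ L) (L.sup id) := by
    intro U hU
    rw [Finset.mem_powerset] at hU
    have hmU : m ∉ U := fun h => hnot (hU h)
    have hmV : m ∈ S \ U := Finset.mem_sdiff.2 ⟨hmS, hmU⟩
    have hV : (S \ U).Nonempty := ⟨m, hmV⟩
    have h0V : 0 ∉ S \ U := fun h => h0 (Finset.mem_sdiff.1 h).1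
    have hmax : (S \ U).max' hV = m := by
      apply le_antisymm
      · exact Finset.max'_le _ _ _ fun a ha => hle a (Finset.mem_sdiff.1 ha).1
      · exact Finset.le_max' _ _ hmV
    have her : (S \ U).erase m = S' \ U := by
      ext a
      simp only [hS', Finset.mem_erase, Finset.mem_sdiff]
      tauto
    have ha : U.sup id < m := by
      rw [Finset.sup_lt_iff (by simpa using hmpos)]
      exact fun a ha => hlt a (hU ha)
    have h1 := GG_rec x hV h0V (U.sup id)
    rw [hmax, her] at h1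
    rw [h1]
    congr 3
    have h2 : (S' \ U = ∅ ∧ U.sup id < m) ↔ U = S' := by
      rw [Finset.sdiff_eq_empty_iff_subset]
      constructor
      · rintro ⟨h3, _⟩
        exact Finset.Subset.antisymm hU h3
      · rintro rfl
        exact ⟨Finset.Subset.refl _, ha⟩
    simp only [h2]
  rw [e1, Finset.sum_congr rfl fun U hU => by rw [e2 U hU]]
  have e3 : ∀ U : Finset ℕ, fk x k U * ((if U = S' then 1 else 0) + GG x (S' \ U) (U.sup id) +
      x * ∑ L ∈ (S' \ U).powerset, GG x L (U.sup id) * GG x ((S' \ U) \ L) 0 +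
      (1 - x) * ∑ L ∈ (S' \ U).powerset,
        GG x L (U.sup id) * GG x ((S' \ U) \ L) (L.sup id)) =
      (if U = S' then fk x k U else 0) + fk x k U * GG x (S' \ U) (U.sup id) +
      x * (fk x k U * ∑ L ∈ (S' \ U).powerset, GG x L (U.sup id) * GG x ((S' \ U) \ L) 0) +
      (1 - x) * (fk x k U * ∑ L ∈ (S' \ U).powerset,
        GG x L (U.sup id) * GG x ((S' \ U) \ L) (L.sup id)) := by
    intro U
    split_ifs <;> ring
  simp only [e3, Finset.sum_add_distrib, ← Finset.mul_sum]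
  rw [Finset.sum_ite_eq' S'.powerset S' (fk x k), if_pos (Finset.mem_powerset_self S'),
    ← fk_succ, term3, term4]
  ring

end RR
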