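import Pool.Agent.Lib.MP_31701c_co.RootCont

/-!
# RR-FinalS : consequences of `GoodPair`

`sign_at`: `z = |z| e^{iφ}`, `φ = kπ/n`: `(z⁻¹)^n = |z|^{-n} e^{-ikπ}`, real part `(-1)^k |z|^{-n}`, so
`|S_n - 2 (-1)^k |z|^{-n}| < 2 |z|^{-n}` gives `(-1)^k S_n > 0`.
`arg_z_zero`: `e = 0`: `H_N` is even with real coefficients (`HN_zero_even`, `HN_conj`), so `-conj z` is a root of the
same modulus with positive imaginary part; by the minimality part of `GoodPair` it is `z` (it is not `conj z`, whose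
imaginary part is negative), so `Re z = 0` and `arg z = π/2` (`Complex.arg_eq_pi_div_two_iff`).
`arg_continuous`: `z1_continuousOn` and `Complex.continuousAt_arg` (`Im ≠ 0`).
`arg_lt`: `arg z = arctan (im/re) < im/re`.
-/

set_option autoImplicit false

namespace RR

open Polynomial

theorem sign_at {e : ℝ} {N n k : ℕ} {z : ℂ} (hn : 0 < n) (h : GoodPair e N n z)
    (harg : Complex.arg z = k * Real.pi / n) : 0 < (-1 : ℝ) ^ k * Sn e n := by
  obtain ⟨_, him, _, hS⟩ := h
  have hz : z ≠ 0 := by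
    intro h0
    rw [h0] at him
    simp at him
  have hzn : 0 < ‖z‖ := norm_pos_iff.mpr hz
  have hn' : (n : ℝ) ≠ 0 := by exact_mod_cast hn.ne'
  have h1 : (z⁻¹) ^ n = (((‖z‖⁻¹) ^ n * (-1) ^ k : ℝ) : ℂ) := by
    have h2 : z = (‖z‖ : ℂ) * Complex.exp (Complex.arg z * Complex.I) :=
      (Complex.norm_mul_exp_arg_mul_I z).symm
    have h3 : Complex.exp (Complex.arg z * Complex.I) ^ n = (-1) ^ k := by
      rw [← Complex.exp_nat_mul, harg]
      have h4 : ((n : ℂ) * (((k * Real.pi / n : ℝ) : ℂ) * Complex.I)) =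
          (k : ℂ) * (Real.pi * Complex.I) := by
        push_cast
        have : (n : ℂ) ≠ 0 := by exact_mod_cast hn.ne'
        field_simp
      rw [h4, Complex.exp_nat_mul, Complex.exp_pi_mul_I]
    rw [inv_pow]
    conv_lhs => rw [h2]
    rw [mul_pow, h3, mul_inv]
    push_cast
    rw [inv_pow]
    congr 1
    rw [← inv_pow]
    norm_num
  rw [h1, Complex.ofReal_re] at hS
  have hp : 0 < (‖z‖⁻¹) ^ n := by positivity
  rcases neg_one_pow_eq_or ℝ k with hk | hk
  · rw [hk] at hS ⊢
    rw [abs_lt] at hS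
    linarith [hS.1]
  · rw [hk] at hS ⊢
    rw [abs_lt] at hS
    linarith [hS.2]

theorem arg_z_zero {N n : ℕ} {z : ℂ} (h : GoodPair 0 N n z) : Complex.arg z = Real.pi / 2 := by
  obtain ⟨hr, him, hmin, _⟩ := h
  have h1 : aeval (-(starRingEnd ℂ) z) (HN 0 N) = 0 := by
    rw [HN_zero_even, HN_conj, hr, map_zero]
  have h2 : -(starRingEnd ℂ) z = z := by
    rcases hmin _ h1 with h3 | h3 | h3
    · exact h3
    · exfalso
      have := congrArg Complex.im h3
      simp at this
      linarith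
    · exfalso
      rw [norm_neg, RCLike.norm_conj] at h3
      exact lt_irrefl _ h3
  have h3 : z.re = 0 := by
    have := congrArg Complex.re h2
    simp at this
    linarith
  rw [Complex.arg_eq_pi_div_two_iff]
  exact ⟨h3, him⟩

theorem arg_continuous {N n : ℕ} {b : ℝ} {z1 : ℝ → ℂ}
    (h : ∀ e, 0 ≤ e → e ≤ b → GoodPair e N n (z1 e)) :
    ContinuousOn (fun e => Complex.arg (z1 e)) (Set.Icc 0 b) := by
  have h1 : ContinuousOn z1 (Set.Icc 0 b) := by
    apply z1_continuousOn (N := N) z1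
    intro e he
    obtain ⟨a1, a2, a3, _⟩ := h e he.1 he.2
    exact ⟨a1, a2, a3⟩
  intro e he
  have h2 : 0 < (z1 e).im := (h e he.1 he.2).2.1
  have h3 : ContinuousAt Complex.arg (z1 e) := by
    apply Complex.continuousAt_arg
    rw [Complex.mem_slitPlane_iff]
    right
    exact h2.ne'
  exact h3.comp_continuousWithinAt (h1 e he)

theorem arg_lt {z : ℂ} (hr : 0 < z.re) (hi : 0 < z.im) : Complex.arg z < z.im / z.re := by
  have h0 : 0 < Complex.arg z := by
    have h1 : 0 ≤ Complex.arg z := Complex.arg_nonneg_iff.mpr hi.le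
    rcases h1.lt_or_eq with h2 | h2
    · exact h2
    · exfalso
      have h3 := (Complex.arg_eq_zero_iff.mp h2.symm).2
      linarith
  have h1 : Complex.arg z < Real.pi / 2 := by
    have h2 := Complex.abs_arg_lt_pi_div_two_iff.mpr (Or.inl hr)
    exact (abs_lt.mp h2).2
  have h2 : Real.tan (Complex.arg z) = z.im / z.re := by
    rw [Complex.tan_arg]
  rw [← h2]
  exact Real.lt_tan h0 h1

end RR
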