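import Pool.Agent.Lib.MP_31701c_co.WZero

/-!
# RR-WExist : existence of the first zero (abstract)

Let `c = x0 + iπ/(T - m x0)`, `Y = π/(T - m x0) ≤ 1.213` (`m x0 ≤ 0.4091`, `T ≥ 2.9998`). In the ball
`D = closedBall c 0.2`: `Re z ∈ [x0 - 0.2, x0 + 0.2]`, `0 < Im z ≤ 1.413`, `‖z‖ ≤ B` (at `x0 = 4.6`:
`√(4.8² + 1.413²) = 5.004 ≤ 5.21`; generally `(x0+0.2)² + 2 ≤ 1.1236 (x0²+3)`),
`v + ρ ≤ 0.24` (`0.2338` at `x0 = 4.6`), `|F'/F - T| ≤ (m + 0.2 λ²)/(1 - 0.24) ≤ (0.4327+0.2207)/0.76 ≤ 0.87`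
(`m(4.4) ≤ 0.4327`, `λ² ≤ 1 + (1.413/4.4)² ≤ 1.1032`).
On `D` put `u z = -e^{-T(z-c)} F z / r`, `r = F x0`; `u z = P e^{iφ} (1+θ)` with `P > 0`,
`φ = m(x0) Y - m(x) y`, `|φ| ≤ 0.62`, `|θ| ≤ 0.24`, so `Re u z > 0`, and `L z = T (z - c) + Log (u z)` is
differentiable on `D`, `L' = F'/F`, `‖L' - T‖ ≤ 0.87`. `L c = Log (k x0/r) + Log (1+θ_c)`, `‖L c‖ ≤ 0.25`.
`ApproximatesLinearOn.surjOn_closedBall_of_nonlinearRightInverse` gives a zero of `L` in `D`
(`(2.9998-0.87)·0.2 = 0.4259 ≥ 0.25`), that is `F z = -r`. All quantities decrease with `x0`.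
-/

set_option autoImplicit false

namespace RR

variable {F : ℂ → ℂ} {T x0 B : ℝ} {k m V : ℝ → ℝ}

private theorem surj_aux {L L' : ℂ → ℂ} {c : ℂ} {T C R : ℝ} (hT : 0 < T) (hC : 0 ≤ C) (hR : 0 ≤ R)
    (hd : ∀ z ∈ Metric.closedBall c R, HasDerivAt L (L' z) z)
    (hb : ∀ z ∈ Metric.closedBall c R, ‖L' z - T‖ ≤ C)
    (h0 : ‖L c‖ ≤ (T - C) * R) : ∃ z ∈ Metric.closedBall c R, L z = 0 := by
  have hTc : (T : ℂ) ≠ 0 := by exact_mod_cast hT.ne'
  let f' : ℂ →L[ℂ] ℂ := (T : ℂ) • ContinuousLinearMap.id ℂ ℂ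
  have hf' : ∀ z, f' z = T * z := fun z => by simp [f']
  have happ : ApproximatesLinearOn L f' (Metric.closedBall c R) ⟨C, hC⟩ := by
    intro x hx y hy
    have h1 := Convex.norm_image_sub_le_of_norm_hasDerivWithin_le (𝕜 := ℂ)
      (f := fun z => L z - T * z) (f' := fun z => L' z - T) (s := Metric.closedBall c R)
      (x := y) (y := x) (C := C)
      (fun z hz => by
        have h2 : HasDerivAt (fun z : ℂ => (T : ℂ) * z) T z := by
          simpa using (hasDerivAt_id z).const_mul (T : ℂ)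
        exact ((hd z hz).sub h2).hasDerivWithinAt)
      hb (convex_closedBall c R) hy hx
    rw [hf']
    have h3 : L x - L y - T * (x - y) = (L x - T * x) - (L y - T * y) := by ring
    rw [h3]
    exact h1
  let fs : f'.NonlinearRightInverse :=
    { toFun := fun y => (T : ℂ)⁻¹ * y
      nnnorm := ⟨T⁻¹, (inv_pos.mpr hT).le⟩
      bound' := by
        intro y
        rw [norm_mul, norm_inv, Complex.norm_real, Real.norm_eq_abs, abs_of_pos hT]
        exact le_rfl
      right_inv' := by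
        intro y
        rw [hf', mul_inv_cancel_left₀ hTc] }
  have hs := happ.surjOn_closedBall_of_nonlinearRightInverse fs hR (le_refl (Metric.closedBall c R))
  have hmem : (0 : ℂ) ∈ Metric.closedBall (L c) (((fs.nnnorm : ℝ)⁻¹ - ((⟨C, hC⟩ : NNReal) : ℝ)) * R) := by
    rw [Metric.mem_closedBall, dist_comm, dist_zero_right]
    have h4 : ((fs.nnnorm : ℝ)) = T⁻¹ := rfl
    rw [h4, inv_inv]
    exact h0
  obtain ⟨z, hz, hz2⟩ := hs hmem
  exact ⟨z, hz, hz2⟩

/-- numerical data of the ball around the approximate zero -/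
private theorem ball_facts (W : WData F T x0 B k m V) {z : ℂ}
    (hz : ‖z - ((x0 : ℂ) + Complex.I * ((Real.pi / (T - m x0) : ℝ) : ℂ))‖ ≤ 0.2) :
    x0 - 0.2 ≤ z.re ∧ 4.4 ≤ z.re ∧ 0.8 ≤ z.im ∧ z.im ≤ 1.413 ∧ ‖z‖ ≤ B := by
  have hx0 := W.x0_lo
  have hT := W.T_lo
  have hT3 := W.T_hi
  have hm0 := W.m_nonneg x0 (by linarith)
  have hm1 : m x0 ≤ 0.4091 := by
    refine (W.m_le x0 (by linarith)).trans ?_
    rw [div_le_iff₀ (by linarith)]
    linarith
  have hden : 2.5907 ≤ T - m x0 := by linarith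
  have hY1 : Real.pi / (T - m x0) ≤ 1.213 := by
    rw [div_le_iff₀ (by linarith)]
    have := Real.pi_lt_d4
    linarith
  have hY2 : 1 ≤ Real.pi / (T - m x0) := by
    rw [le_div_iff₀ (by linarith)]
    have := Real.pi_gt_three
    linarith
  set Y : ℝ := Real.pi / (T - m x0) with hY
  have hre : |z.re - x0| ≤ 0.2 := by
    have h1 := Complex.abs_re_le_norm (z - ((x0 : ℂ) + Complex.I * (Y : ℂ)))
    have h2 : (z - ((x0 : ℂ) + Complex.I * (Y : ℂ))).re = z.re - x0 := by simp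
    rw [h2] at h1
    exact h1.trans hz
  have him : |z.im - Y| ≤ 0.2 := by
    have h1 := Complex.abs_im_le_norm (z - ((x0 : ℂ) + Complex.I * (Y : ℂ)))
    have h2 : (z - ((x0 : ℂ) + Complex.I * (Y : ℂ))).im = z.im - Y := by simp
    rw [h2] at h1
    exact h1.trans hz
  have hre' := abs_le.mp hre
  have him' := abs_le.mp him
  refine ⟨by linarith [hre'.1], by linarith [hre'.1], by linarith [him'.1], by linarith [him'.2], ?_⟩
  rw [W.B_eq]
  have h3 : ‖z‖ ^ 2 ≤ (1.06 * Real.sqrt (x0 ^ 2 + 3)) ^ 2 := by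
    rw [mul_pow, Real.sq_sqrt (by positivity), Complex.sq_norm, Complex.normSq_apply]
    have h4 : z.re * z.re ≤ (x0 + 0.2) ^ 2 := by nlinarith [hre'.1, hre'.2]
    have h5 : z.im * z.im ≤ 2 := by nlinarith [him'.1, him'.2]
    nlinarith [sq_nonneg (x0 - 2)]
  exact le_of_sq_le_sq h3 (by positivity)

private theorem tot_ball (W : WData F T x0 B k m V) {z : ℂ} (h1 : 4.4 ≤ z.re) (h2 : 0.8 ≤ z.im)
    (h3 : z.im ≤ 1.413) :
    z.im ^ 2 * V z.re / 2 + 6.14 / z.re ^ 3 * (‖z‖ / z.re) ^ 2 ≤ 0.24 ∧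
      (‖z‖ / z.re) ^ 2 ≤ 1.1032 := by
  have hx : 0 < z.re := by linarith
  have hi2 : z.im ^ 2 ≤ 1.9966 := by nlinarith
  have hV := W.V_le z.re h1
  have hV0 := W.V_nonneg z.re h1
  have hV2 : V z.re ≤ 0.1546 := by
    refine hV.trans ?_
    rw [div_le_iff₀ (by nlinarith)]
    nlinarith
  have hx2 : 19.36 ≤ z.re ^ 2 := by nlinarith
  have hlam : (‖z‖ / z.re) ^ 2 ≤ 1.1032 := by
    rw [div_pow, div_le_iff₀ (by positivity), Complex.sq_norm, Complex.normSq_apply]
    nlinarith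
  have hx3 : 85.184 ≤ z.re ^ 3 := by
    have : z.re ^ 3 = z.re ^ 2 * z.re := by ring
    rw [this]
    nlinarith
  have h4 : 6.14 / z.re ^ 3 ≤ 0.0721 := by
    rw [div_le_iff₀ (by positivity)]
    linarith
  have h5 : 6.14 / z.re ^ 3 * (‖z‖ / z.re) ^ 2 ≤ 0.0721 * 1.1032 := by gcongr
  have h6 : z.im ^ 2 * V z.re ≤ 1.9966 * 0.1546 := by gcongr
  refine ⟨?_, hlam⟩
  linarith

theorem WData.exists_zero (W : WData F T x0 B k m V) :
    ∃ z : ℂ, F z = -F x0 ∧ ‖z - ((x0 : ℂ) + Complex.I * ((Real.pi / (T - m x0) : ℝ) : ℂ))‖ ≤ 0.2 ∧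
      0 < z.im ∧ z.im ≤ 1.42 ∧ ‖z‖ ≤ B := by
  have hx0 := W.x0_lo
  have hT := W.T_lo
  have hT3 := W.T_hi
  have hm0 := W.m_nonneg x0 (by linarith)
  have hm1 : m x0 ≤ 0.4091 := by
    refine (W.m_le x0 (by linarith)).trans ?_
    rw [div_le_iff₀ (by linarith)]
    linarith
  have hden : 0 < T - m x0 := by linarith
  obtain ⟨r, hr, hr1, hr2⟩ := W.real
  have hk0 := W.k_pos x0
  have hx3 : 97.336 ≤ x0 ^ 3 := by
    have : (4.6 : ℝ) ^ 3 ≤ x0 ^ 3 := by gcongr
    norm_num at this ⊢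
    linarith
  have hA : 0.2 / x0 ^ 3 ≤ 0.0021 := by
    rw [div_le_iff₀ (by positivity)]
    linarith
  have hB' : 6.14 / x0 ^ 3 ≤ 0.0631 := by
    rw [div_le_iff₀ (by positivity)]
    linarith
  have hr1' : k x0 * 0.9979 ≤ r := by
    refine le_trans ?_ hr1
    have : 0.9979 ≤ 1 - 0.2 / x0 ^ 3 := by linarith
    gcongr
  have hr2' : r ≤ k x0 * 1.0631 := by
    refine hr2.trans ?_
    have : 1 + 6.14 / x0 ^ 3 ≤ 1.0631 := by linarith
    gcongr
  have hrpos : 0 < r := lt_of_lt_of_le (by positivity) hr1'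
  have hrc : (r : ℂ) ≠ 0 := by exact_mod_cast hrpos.ne'
  set Y : ℝ := Real.pi / (T - m x0) with hY
  have hYpi : (T - m x0) * Y = Real.pi := by
    rw [hY]; field_simp
  set c : ℂ := (x0 : ℂ) + Complex.I * (Y : ℂ) with hc
  have hcre : c.re = x0 := by simp [hc]
  have hcim : c.im = Y := by simp [hc]
  have hball : ∀ z ∈ Metric.closedBall c 0.2, x0 - 0.2 ≤ z.re ∧ 4.4 ≤ z.re ∧ 0.8 ≤ z.im ∧
      z.im ≤ 1.413 ∧ ‖z‖ ≤ B := by
    intro z hz
    rw [Metric.mem_closedBall, dist_eq_norm] at hz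
    exact ball_facts W hz
  have hcB : c ∈ Metric.closedBall c (0.2 : ℝ) := Metric.mem_closedBall_self (by norm_num)
  have hYb := hball c hcB
  rw [hcre, hcim] at hYb
  let u : ℂ → ℂ := fun z => -(Complex.exp (-(T * (z - c))) * F z) / r
  -- polar form of `u`
  have hpol : ∀ z ∈ Metric.closedBall c 0.2, ∃ θ : ℂ, ‖θ‖ ≤ z.im ^ 2 * V z.re / 2 +
      6.14 / z.re ^ 3 * (‖z‖ / z.re) ^ 2 ∧ ‖F z‖ = k z.re * ‖1 + θ‖ ∧
      u z = ((k z.re * Real.exp (-(T * (z.re - x0))) / r : ℝ) : ℂ) *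
        (Complex.exp (((m x0 * Y - m z.re * z.im : ℝ) : ℂ) * Complex.I) * (1 + θ)) := by
    intro z hz
    obtain ⟨h1, h2, h3, h4, h5⟩ := hball z hz
    obtain ⟨θ, hθ, hθ2⟩ := W.polar h1 h5
    refine ⟨θ, hθ2, ?_, ?_⟩
    · rw [hθ, norm_mul, norm_mul, Complex.norm_real, Real.norm_eq_abs, abs_of_pos (W.k_pos _),
        mul_comm Complex.I, Complex.norm_exp_ofReal_mul_I, mul_one]
    · have hz2 : z = (z.re : ℂ) + Complex.I * (z.im : ℂ) := by
        rw [mul_comm]; exact (Complex.re_add_im z).symm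
      have e1 : -Complex.exp (-(T * (z - c))) * Complex.exp (Complex.I *
          (((T - m z.re) * z.im : ℝ) : ℂ)) = (Real.exp (-(T * (z.re - x0))) : ℂ) *
          Complex.exp (((m x0 * Y - m z.re * z.im : ℝ) : ℂ) * Complex.I) := by
        have e2 : (-1 : ℂ) = Complex.exp (-(Real.pi * Complex.I)) := by
          rw [Complex.exp_neg, Complex.exp_pi_mul_I]; norm_num
        rw [← neg_one_mul, e2, Complex.ofReal_exp, ← Complex.exp_add, ← Complex.exp_add,
          ← Complex.exp_add]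
        congr 1
        have e3 : (Real.pi : ℂ) = ((T - m x0 : ℝ) : ℂ) * (Y : ℂ) := by
          rw [← Complex.ofReal_mul, hYpi]
        rw [e3]
        nth_rewrite 1 [hz2]
        rw [hc]
        push_cast
        ring
      simp only [u]
      rw [hθ]
      have e4 : -(Complex.exp (-(T * (z - c))) * ((k z.re : ℂ) * Complex.exp (Complex.I *
          (((T - m z.re) * z.im : ℝ) : ℂ)) * (1 + θ))) / (r : ℂ) = ((k z.re : ℂ) / r) *
          ((-Complex.exp (-(T * (z - c))) * Complex.exp (Complex.I *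
          (((T - m z.re) * z.im : ℝ) : ℂ))) * (1 + θ)) := by ring
      rw [e4, e1]
      push_cast
      ring
  have htot : ∀ z ∈ Metric.closedBall c 0.2, z.im ^ 2 * V z.re / 2 +
      6.14 / z.re ^ 3 * (‖z‖ / z.re) ^ 2 ≤ 0.24 ∧ (‖z‖ / z.re) ^ 2 ≤ 1.1032 := by
    intro z hz
    obtain ⟨h1, h2, h3, h4, h5⟩ := hball z hz
    exact tot_ball W h2 h3 h4
  have hmz : ∀ z ∈ Metric.closedBall c 0.2, 0 ≤ m z.re ∧ m z.re ≤ 0.4327 := by
    intro z hz
    obtain ⟨h1, h2, h3, h4, h5⟩ := hball z hz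
    refine ⟨W.m_nonneg _ h2, (W.m_le _ h2).trans ?_⟩
    rw [div_le_iff₀ (by linarith)]
    linarith
  have hupos : ∀ z ∈ Metric.closedBall c 0.2, 0 < (u z).re := by
    intro z hz
    obtain ⟨h1, h2, h3, h4, h5⟩ := hball z hz
    obtain ⟨hma, hmb⟩ := hmz z hz
    obtain ⟨θ, hθ, -, hu⟩ := hpol z hz
    have hθ' : ‖θ‖ ≤ 0.24 := hθ.trans (htot z hz).1
    rw [hu, Complex.re_ofReal_mul]
    have hP : 0 < k z.re * Real.exp (-(T * (z.re - x0))) / r := by
      have := W.k_pos z.re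
      positivity
    refine mul_pos hP ?_
    set φ : ℝ := m x0 * Y - m z.re * z.im with hφ
    have hφ1 : |φ| ≤ 0.62 := by
      rw [abs_le, hφ]
      constructor
      · nlinarith [mul_nonneg hm0 (by linarith [hYb.2.2.1] : (0 : ℝ) ≤ Y)]
      · nlinarith [mul_nonneg hma (by linarith : (0 : ℝ) ≤ z.im), hYb.2.2.2.1]
    rw [mul_add, mul_one, Complex.add_re]
    have hre1 : (Complex.exp ((φ : ℂ) * Complex.I)).re = Real.cos φ := by
      rw [Complex.exp_ofReal_mul_I_re]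
    rw [hre1]
    have hre2 : |(Complex.exp ((φ : ℂ) * Complex.I) * θ).re| ≤ 0.24 := by
      refine (Complex.abs_re_le_norm _).trans ?_
      rw [norm_mul, Complex.norm_exp_ofReal_mul_I, one_mul]
      exact hθ'
    have hcos : 1 - φ ^ 2 / 2 ≤ Real.cos φ := Real.one_sub_sq_div_two_le_cos
    have hφ2 : φ ^ 2 ≤ 0.62 ^ 2 := by
      rw [← sq_abs φ]
      have := abs_nonneg φ
      gcongr
    have := (abs_le.mp hre2).1
    norm_num at hφ2 this ⊢
    linarith
  have hF0 : ∀ z ∈ Metric.closedBall c 0.2, k z.re * 0.76 ≤ ‖F z‖ := by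
    intro z hz
    obtain ⟨θ, hθ, hF, -⟩ := hpol z hz
    have hθ' : ‖θ‖ ≤ 0.24 := hθ.trans (htot z hz).1
    rw [hF]
    have h6 : 0.76 ≤ ‖1 + θ‖ := by
      have h7 := norm_sub_norm_le (1 : ℂ) (-θ)
      rw [norm_one, norm_neg, sub_neg_eq_add] at h7
      norm_num at hθ' ⊢
      linarith
    have := W.k_pos z.re
    gcongr
  have hFne : ∀ z ∈ Metric.closedBall c 0.2, F z ≠ 0 := by
    intro z hz h0
    have h6 := hF0 z hz
    rw [h0, norm_zero] at h6
    have := W.k_pos z.re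
    nlinarith
  let L : ℂ → ℂ := fun z => T * (z - c) + Complex.log (u z)
  have hderiv : ∀ z ∈ Metric.closedBall c 0.2, HasDerivAt L (deriv F z / F z) z := by
    intro z hz
    have hFz := hFne z hz
    have hdF : HasDerivAt F (deriv F z) z := (W.diff z).hasDerivAt
    have hlin : HasDerivAt (fun z : ℂ => (T : ℂ) * (z - c)) T z := by
      simpa using ((hasDerivAt_id z).sub_const c).const_mul (T : ℂ)
    have hexp : HasDerivAt (fun z : ℂ => Complex.exp (-(T * (z - c))))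
        (Complex.exp (-(T * (z - c))) * (-T)) z := hlin.neg.cexp
    have hu : HasDerivAt u (-(Complex.exp (-(T * (z - c))) * (-T) * F z +
        Complex.exp (-(T * (z - c))) * deriv F z) / r) z := ((hexp.mul hdF).neg).div_const _
    have hlog := hu.clog (Or.inl (hupos z hz))
    have hsum := hlin.add hlog
    have he : Complex.exp (-(T * (z - c))) ≠ 0 := Complex.exp_ne_zero _
    have hval : deriv F z / F z = T + -(Complex.exp (-(T * (z - c))) * (-T) * F z +
        Complex.exp (-(T * (z - c))) * deriv F z) / r / u z := by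
      simp only [u]
      field_simp
      ring
    rw [hval]
    exact hsum
  have hbound : ∀ z ∈ Metric.closedBall c 0.2, ‖deriv F z / F z - T‖ ≤ 0.87 := by
    intro z hz
    obtain ⟨h1, h2, h3, h4, h5⟩ := hball z hz
    obtain ⟨hma, hmb⟩ := hmz z hz
    have hFz := hFne z hz
    have h6 := hF0 z hz
    have h7 := W.der z h1 h5
    have h8 := W.k_pos z.re
    have h9 := (htot z hz).2
    have e5 : deriv F z / F z - T = (deriv F z - T * F z) / F z := by field_simp
    rw [e5, norm_div, div_le_iff₀ (norm_pos_iff.mpr hFz)]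
    refine h7.trans ?_
    have h10 : m z.re + 0.2 * (‖z‖ / z.re) ^ 2 ≤ 0.87 * 0.76 := by
      norm_num at h9 hmb ⊢
      linarith
    calc k z.re * (m z.re + 0.2 * (‖z‖ / z.re) ^ 2) ≤ k z.re * (0.87 * 0.76) := by gcongr
      _ = 0.87 * (k z.re * 0.76) := by ring
      _ ≤ 0.87 * ‖F z‖ := by gcongr
  have hLc : ‖L c‖ ≤ (T - 0.87) * 0.2 := by
    obtain ⟨θ, hθ, -, hu⟩ := hpol c hcB
    rw [hcre, hcim] at hθ
    rw [hcre, hcim, sub_self, mul_zero, neg_zero, Real.exp_zero, mul_one, sub_self,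
      Complex.ofReal_zero, zero_mul, Complex.exp_zero, one_mul] at hu
    have hnc : ‖c‖ ^ 2 = x0 ^ 2 + Y ^ 2 := by
      rw [Complex.sq_norm, Complex.normSq_apply, hcre, hcim]; ring
    have hYsq : Y ^ 2 ≤ 1.4714 := by
      have h1 : Y ≤ 1.213 := by
        rw [hY, div_le_iff₀ hden]
        have := Real.pi_lt_d4
        linarith
      have h2 : 0 ≤ Y := by linarith [hYb.2.2.1]
      nlinarith
    have hx2 : 21.16 ≤ x0 ^ 2 := by nlinarith
    have hVc : V x0 ≤ 0.13635 := by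
      refine (W.V_le x0 (by linarith)).trans ?_
      rw [div_le_iff₀ (by nlinarith)]
      nlinarith
    have hVc0 := W.V_nonneg x0 (by linarith)
    have hlam : (‖c‖ / x0) ^ 2 ≤ 1.0696 := by
      rw [div_pow, hnc, div_le_iff₀ (by positivity)]
      nlinarith
    have hθ2 : ‖θ‖ ≤ 0.168 := by
      refine hθ.trans ?_
      have h1 : 6.14 / x0 ^ 3 * (‖c‖ / x0) ^ 2 ≤ 0.0631 * 1.0696 := by gcongr
      have h2 : Y ^ 2 * V x0 ≤ 1.4714 * 0.13635 := by gcongr
      norm_num at h1 h2 ⊢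
      linarith
    have hne : 1 + θ ≠ 0 := by
      intro h0
      have h1 : θ = -1 := by linear_combination h0
      rw [h1, norm_neg, norm_one] at hθ2
      norm_num at hθ2
    have hP : 0 < k x0 / r := div_pos hk0 hrpos
    have hlog1 : ‖Complex.log (1 + θ)‖ ≤ 0.186 := by
      refine (Complex.norm_log_one_add_le (lt_of_le_of_lt hθ2 (by norm_num))).trans ?_
      have h1 : (1 - ‖θ‖)⁻¹ ≤ 1.203 := by
        rw [inv_le_comm₀ (by linarith) (by norm_num)]
        norm_num at hθ2 ⊢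
        linarith
      have h0 := norm_nonneg θ
      have h2 : ‖θ‖ ^ 2 * (1 - ‖θ‖)⁻¹ ≤ 0.168 ^ 2 * 1.203 := by
        have : 0 ≤ (1 - ‖θ‖)⁻¹ := by
          rw [inv_nonneg]; linarith
        gcongr
      norm_num at h2 hθ2 ⊢
      linarith
    have hlog2 : |Real.log (k x0 / r)| ≤ 0.064 := by
      rw [abs_le]
      constructor
      · have h1 := Real.one_sub_inv_le_log_of_pos hP
        have h2 : (k x0 / r)⁻¹ ≤ 1.0631 := by
          rw [inv_div, div_le_iff₀ hk0]
          linarith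
        linarith
      · have h1 := Real.log_le_sub_one_of_pos hP
        have h2 : k x0 / r ≤ 1.003 := by
          rw [div_le_iff₀ hrpos]
          nlinarith
        norm_num at h2 ⊢
        linarith
    have hLc2 : L c = (Real.log (k x0 / r) : ℂ) + Complex.log (1 + θ) := by
      simp only [L]
      rw [sub_self, mul_zero, zero_add, hu, Complex.log_ofReal_mul hP hne]
    rw [hLc2]
    refine (norm_add_le _ _).trans ?_
    rw [Complex.norm_real, Real.norm_eq_abs]
    norm_num at hlog1 hlog2 ⊢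
    linarith
  obtain ⟨z, hz, hLz⟩ := surj_aux (by linarith) (by norm_num) (by norm_num) hderiv hbound hLc
  obtain ⟨h1, h2, h3, h4, h5⟩ := hball z hz
  refine ⟨z, ?_, ?_, by linarith, by linarith, h5⟩
  · have hune : u z ≠ 0 := by
      intro h0
      have := hupos z hz
      rw [h0] at this
      simp at this
    have h6 : Complex.exp (L z) = 1 := by rw [hLz, Complex.exp_zero]
    simp only [L] at h6
    rw [Complex.exp_add, Complex.exp_log hune] at h6
    simp only [u] at h6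
    have h7 : Complex.exp (T * (z - c)) * Complex.exp (-(T * (z - c))) = 1 := by
      rw [← Complex.exp_add, add_neg_cancel, Complex.exp_zero]
    have h8 : Complex.exp (T * (z - c)) * (-(Complex.exp (-(T * (z - c))) * F z) / r)
        = -(Complex.exp (T * (z - c)) * Complex.exp (-(T * (z - c)))) * F z / r := by ring
    rw [h8, h7] at h6
    rw [hr]
    field_simp at h6
    linear_combination -h6
  · rw [Metric.mem_closedBall, dist_eq_norm] at hz
    exact hz

end RR
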