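import Pool.Agent.Lib.MP_31701c_co.WZero

/-!
# RR-WFirst : precise location of a zero with `0 < Im z ≤ 1.42` (abstract)

Let `F z = -F x0`, `0 < Im z ≤ 1.42`, `‖z‖ ≤ B`, `x = Re z`, `y = Im z`. By `re_gt`,
`x > x1 = x0 - 0.2/x0 ≥ 4.5565`. `polar`: `-F x0 = k x e^{i(T-m)y}(1+θ)`, `F x0 > 0`, with `‖θ‖ ≤ tot`,
`tot := y² V/2 + 6.14/x³ (‖z‖/x)²`; with `y ≤ 1.42`: `tot ≤ 0.213` at `x0 = 4.6`, decreasing in `x0`.
So `(T - m) y + arg (1+θ) ∈ π + 2πℤ`, `0 < (T-m) y ≤ 4.26`, `|arg(1+θ)| ≤ arcsin tot ≤ 0.22`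
(`abs_arg_one_add_le`), so it is `= π`: this is `loc_phase`; hence
`y ≤ (π + arcsin tot)/(T - m x) ≤ (π + 0.2147)/2.5858 = 1.298 ≤ 1.31`: `loc_im`. Bootstrapping with `y ≤ 1.31`:
`tot ≤ 0.1905` at `x0 = 4.6` (`loc_tot`). Modulus: `k x (1 - tot) ≤ ‖F z‖ = F x0 ≤ k x0 (1 + 6.14/x0³)`; if `x > x0`,
`k x ≥ k x0 exp((T - m x0)(x-x0))`, so `(T-m x0)(x - x0) ≤ -log(1-tot) + log(1 + 6.14/x0³) ≤ tot/(1-tot) + 6.14/x0³`,
so `x - x0 ≤ 0.55/x0` (with `T - m x0 ≥ 2.59`; at `x0=4.6`: `(0.2423+0.0631)/2.59 = 0.1179 = 0.5424/x0`; in general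
use `tot ≤ 0.195 u²`, `u = 4.6/x0 ≤ 1`): `loc_re`. [`loc_tot` for all `x0`: `tot ≤ 0.8581 V + 6.14/x1³·1.0827`,
`V ≤ 1.5/((x1-0.9326)(x1-1.6))`, `x1 ≥ 0.9905 x0`, and `x0² tot` is decreasing.]
`first_norm`: `‖z‖² = x² + y² ≤ (x0 + 0.55/x0)² + 1.31² ≤ x0² + 1.1 + 0.0143 + 1.7161 ≤ x0² + 3` (for `x ≤ x0` even
smaller).
-/

set_option autoImplicit false

namespace RR

variable {F : ℂ → ℂ} {T x0 B : ℝ} {k m V : ℝ → ℝ}

/-- the error term -/
private noncomputable def wfE (V : ℝ → ℝ) (z : ℂ) : ℝ :=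
  z.im ^ 2 * V z.re / 2 + 6.14 / z.re ^ 3 * (‖z‖ / z.re) ^ 2

/-- a bound for the error term from a bound for the imaginary part -/
private theorem wf_err (W : WData F T x0 B k m V) {z : ℂ} {Y : ℝ} (hx : 4.5565 ≤ z.re)
    (hxx : x0 - 0.0435 ≤ z.re) (_h0 : 0 < z.im) (h1 : z.im ^ 2 ≤ Y) (_hY : Y ≤ 2.0164) :
    x0 ^ 2 * wfE V z ≤ Y / 2 * (1.5 * 1.98) + 1.3737 * (1 + Y / 20.76) := by
  have hx0 := W.x0_lo
  have hx00 : 0 < x0 := by linarith
  have hxp : 0 < z.re := by linarith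
  have hY0 : 0 ≤ Y := (sq_nonneg _).trans h1
  have hV0 := W.V_nonneg z.re (by linarith)
  have hV := W.V_le z.re (by linarith)
  have hd : 0 < (z.re - 0.9326) * (z.re - 1.6) := mul_pos (by linarith) (by linarith)
  -- the first term
  have h2 : x0 ^ 2 * V z.re ≤ 1.5 * 1.98 := by
    have h3 : x0 ^ 2 ≤ 1.98 * ((z.re - 0.9326) * (z.re - 1.6)) := by
      have h4 : (x0 - 0.9761) * (x0 - 1.6435) ≤ (z.re - 0.9326) * (z.re - 1.6) :=
        mul_le_mul (by linarith) (by linarith) (by linarith) (by linarith)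
      nlinarith
    calc x0 ^ 2 * V z.re ≤ x0 ^ 2 * (1.5 / ((z.re - 0.9326) * (z.re - 1.6))) :=
          mul_le_mul_of_nonneg_left hV (by positivity)
      _ = 1.5 * (x0 ^ 2 / ((z.re - 0.9326) * (z.re - 1.6))) := by ring
      _ ≤ 1.5 * 1.98 := by
          refine mul_le_mul_of_nonneg_left ?_ (by norm_num)
          rw [div_le_iff₀ hd]
          exact h3
  have h5 : x0 ^ 2 * (z.im ^ 2 * V z.re / 2) ≤ Y / 2 * (1.5 * 1.98) := by
    have h6 : x0 ^ 2 * (z.im ^ 2 * V z.re / 2) = z.im ^ 2 / 2 * (x0 ^ 2 * V z.re) := by ring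
    rw [h6]
    exact mul_le_mul (by linarith) h2 (by positivity) (by linarith)
  -- the second term
  have hn : ‖z‖ ^ 2 = z.re ^ 2 + z.im ^ 2 := by
    rw [← Complex.normSq_eq_norm_sq, Complex.normSq_apply]; ring
  have h7 : (‖z‖ / z.re) ^ 2 ≤ 1 + Y / 20.76 := by
    rw [div_pow, hn, add_div, div_self (by positivity)]
    have h8 : (20.76 : ℝ) ≤ z.re ^ 2 := by nlinarith
    have h9 : z.im ^ 2 / z.re ^ 2 ≤ Y / 20.76 :=
      div_le_div₀ hY0 h1 (by norm_num) h8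
    linarith
  have h10 : x0 ^ 2 * (6.14 / z.re ^ 3) ≤ 1.3737 := by
    have h11 : 0.9905 * x0 ≤ z.re := by linarith
    have h12 : (0.9905 * x0) ^ 2 ≤ z.re ^ 2 := pow_le_pow_left₀ (by positivity) h11 2
    have h13 : (0.9905 * x0) ^ 2 * 4.5565 ≤ z.re ^ 2 * z.re :=
      mul_le_mul h12 hx (by norm_num) (by positivity)
    have h14 : z.re ^ 3 = z.re ^ 2 * z.re := by ring
    rw [← mul_div_assoc, div_le_iff₀ (by positivity), h14]
    nlinarith
  have h15 : x0 ^ 2 * (6.14 / z.re ^ 3 * (‖z‖ / z.re) ^ 2) ≤ 1.3737 * (1 + Y / 20.76) := by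
    rw [← mul_assoc]
    exact mul_le_mul h10 h7 (by positivity) (by norm_num)
  unfold wfE
  rw [mul_add]
  exact add_le_add h5 h15

private theorem wf_x1 (W : WData F T x0 B k m V) {z : ℂ} (hz : F z = -F x0)
    (hB : ‖z‖ ≤ B) : 4.5565 ≤ z.re ∧ x0 - 0.0435 ≤ z.re ∧ x0 - 0.2 ≤ z.re := by
  have hx0 := W.x0_lo
  have h := W.re_gt hz hB
  have h2 : 0.2 / x0 ≤ 0.0435 := by
    rw [div_le_iff₀ (by linarith)]; linarith
  refine ⟨by linarith, by linarith, by linarith⟩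

private theorem wf_E1 (W : WData F T x0 B k m V) {z : ℂ} (hz : F z = -F x0) (h0 : 0 < z.im)
    (h1 : z.im ≤ 1.42) (hB : ‖z‖ ≤ B) : wfE V z ≤ 0.2147 := by
  have hx0 := W.x0_lo
  obtain ⟨a1, a2, -⟩ := wf_x1 W hz hB
  have h2 : z.im ^ 2 ≤ 2.0164 := by nlinarith
  have h3 := wf_err W a1 a2 h0 h2 le_rfl
  have h4 : (21.16 : ℝ) ≤ x0 ^ 2 := by nlinarith
  by_contra hcon
  push Not at hcon
  have h5 : 21.16 * 0.2147 ≤ x0 ^ 2 * wfE V z :=
    mul_le_mul h4 hcon.le (by norm_num) (by positivity)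
  norm_num at h3 h5
  linarith

private theorem wf_m (W : WData F T x0 B k m V) {x : ℝ} (hx : 4.5565 ≤ x) : m x ≤ 0.414 := by
  refine (W.m_le x (by linarith)).trans ?_
  rw [div_le_iff₀ (by linarith)]
  linarith

/-- the phase equation -/
theorem WData.loc_phase (W : WData F T x0 B k m V) {z : ℂ} (hz : F z = -F x0) (h0 : 0 < z.im)
    (h1 : z.im ≤ 1.42) (hB : ‖z‖ ≤ B) :
    |(T - m z.re) * z.im - Real.pi| ≤
      Real.arcsin (z.im ^ 2 * V z.re / 2 + 6.14 / z.re ^ 3 * (‖z‖ / z.re) ^ 2) := by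
  have hx0 := W.x0_lo
  obtain ⟨a1, a2, a3⟩ := wf_x1 W hz hB
  have hE := wf_E1 W hz h0 h1 hB
  obtain ⟨θ, hp, hθ⟩ := W.polar a3 hB
  have hθE : ‖θ‖ ≤ wfE V z := hθ
  have harg := abs_arg_one_add_le hθE (by linarith)
  obtain ⟨r, hr, hr1, -⟩ := W.real
  have hk0 := W.k_pos x0
  have hkz := W.k_pos z.re
  have hr0 : 0 < r := by
    refine lt_of_lt_of_le ?_ hr1
    apply mul_pos hk0
    have : 0.2 / x0 ^ 3 ≤ 0.1 := by
      rw [div_le_iff₀ (by positivity)]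
      have : (4.6 : ℝ) ^ 3 ≤ x0 ^ 3 := pow_le_pow_left₀ (by norm_num) hx0 3
      linarith
    linarith
  obtain ⟨φ, hφ⟩ : ∃ φ, φ = (T - m z.re) * z.im := ⟨_, rfl⟩
  rw [← hφ] at hp ⊢
  have hm := wf_m W a1
  have hm0 := W.m_nonneg z.re (by linarith)
  have hT1 := W.T_lo
  have hT2 := W.T_hi
  have hφ0 : 0 < φ := by rw [hφ]; exact mul_pos (by linarith) h0
  have hφ1 : φ ≤ 4.26 := by
    rw [hφ]
    calc (T - m z.re) * z.im ≤ 3 * 1.42 :=
          mul_le_mul (by linarith) h1 h0.le (by norm_num)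
      _ = 4.26 := by norm_num
  have hw0 : 1 + θ ≠ 0 := by
    intro hw
    have : θ = -1 := by linear_combination hw
    rw [this, norm_neg, norm_one] at hθE
    linarith
  have hwn : 0 < ‖1 + θ‖ := norm_pos_iff.2 hw0
  obtain ⟨α, hα⟩ : ∃ α, α = Complex.arg (1 + θ) := ⟨_, rfl⟩
  rw [← hα] at harg
  have hwe : (1 + θ : ℂ) = (‖1 + θ‖ : ℂ) * Complex.exp (α * Complex.I) := by
    rw [hα]
    exact (Complex.norm_mul_exp_arg_mul_I (1 + θ)).symm
  have hprod : ((k z.re * ‖1 + θ‖ : ℝ) : ℂ) * Complex.exp (((φ + α : ℝ) : ℂ) * Complex.I)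
      = ((-r : ℝ) : ℂ) := by
    have h2 : F z = ((-r : ℝ) : ℂ) := by rw [hz, hr]; push_cast; ring
    rw [← h2, hp, hwe]
    have h3 : Complex.exp (((φ + α : ℝ) : ℂ) * Complex.I) =
        Complex.exp (Complex.I * (φ : ℂ)) * Complex.exp (α * Complex.I) := by
      rw [← Complex.exp_add]
      congr 1
      push_cast
      ring
    rw [h3]
    have h4 : (‖(‖1 + θ‖ : ℂ) * Complex.exp (α * Complex.I)‖ : ℝ) = ‖1 + θ‖ := by
      rw [← hwe]
    push_cast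
    rw [h4]
    ring
  have hnorm : k z.re * ‖1 + θ‖ = r := by
    have h5 := congrArg norm hprod
    rw [norm_mul, Complex.norm_exp_ofReal_mul_I, mul_one, Complex.norm_real, Complex.norm_real,
      Real.norm_eq_abs, Real.norm_eq_abs, abs_neg, abs_of_pos hr0,
      abs_of_pos (mul_pos hkz hwn)] at h5
    exact h5
  have hexp : Complex.exp (((φ + α : ℝ) : ℂ) * Complex.I) = Complex.exp (Real.pi * Complex.I) := by
    rw [Complex.exp_pi_mul_I]
    rw [hnorm] at hprod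
    have hrc : (r : ℂ) ≠ 0 := by exact_mod_cast hr0.ne'
    have h6 : (r : ℂ) * Complex.exp (((φ + α : ℝ) : ℂ) * Complex.I) = (r : ℂ) * (-1) := by
      rw [hprod]; push_cast; ring
    exact mul_left_cancel₀ hrc h6
  rw [Complex.exp_eq_exp_iff_exists_int] at hexp
  obtain ⟨j, hj⟩ := hexp
  have hj2 : φ + α = Real.pi + j * (2 * Real.pi) := by
    have h7 : (((φ + α : ℝ) : ℂ) - (((Real.pi + j * (2 * Real.pi) : ℝ)) : ℂ)) * Complex.I = 0 := by
      push_cast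
      push_cast at hj
      linear_combination hj
    have h8 := (mul_eq_zero.1 h7).resolve_right Complex.I_ne_zero
    have h9 : ((φ + α : ℝ) : ℂ) = ((Real.pi + j * (2 * Real.pi) : ℝ) : ℂ) := sub_eq_zero.1 h8
    exact_mod_cast h9
  have hasin : Real.arcsin (wfE V z) ≤ 0.22 := by
    rw [Real.arcsin_le_iff_le_sin']
    · have := Real.sin_gt_sub_cube (x := 0.22) (by norm_num)
      norm_num at this
      linarith
    · have := Real.pi_gt_three
      constructor <;> linarith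
  have hαb := abs_le.1 (harg.trans hasin)
  have hpi := Real.pi_gt_three
  have hj0 : j = 0 := by
    have h10 : (j : ℝ) < 1 := by
      by_contra hc
      push Not at hc
      nlinarith
    have h11 : (-1 : ℝ) < j := by
      by_contra hc
      push Not at hc
      nlinarith
    have h12 : j < 1 := by exact_mod_cast h10
    have h13 : -1 < j := by exact_mod_cast h11
    omega
  rw [hj0] at hj2
  have h14 : φ - Real.pi = -α := by
    push_cast at hj2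
    linarith
  rw [h14, abs_neg]
  exact harg

theorem WData.loc_im (W : WData F T x0 B k m V) {z : ℂ} (hz : F z = -F x0) (h0 : 0 < z.im)
    (h1 : z.im ≤ 1.42) (hB : ‖z‖ ≤ B) : z.im ≤ 1.31 := by
  have hph := W.loc_phase hz h0 h1 hB
  obtain ⟨a1, a2, a3⟩ := wf_x1 W hz hB
  have hE := wf_E1 W hz h0 h1 hB
  have hasin : Real.arcsin (wfE V z) ≤ 0.22 := by
    rw [Real.arcsin_le_iff_le_sin']
    · have := Real.sin_gt_sub_cube (x := 0.22) (by norm_num)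
      norm_num at this
      linarith
    · have := Real.pi_gt_three
      constructor <;> linarith
  have h2 := (abs_le.1 (hph.trans hasin)).2
  have hm := wf_m W a1
  have hT := W.T_lo
  have hpi := Real.pi_lt_d4
  have h3 : 2.5858 * z.im ≤ (T - m z.re) * z.im := mul_le_mul_of_nonneg_right (by linarith) h0.le
  linarith

theorem WData.loc_tot (W : WData F T x0 B k m V) {z : ℂ} (hz : F z = -F x0) (h0 : 0 < z.im)
    (h1 : z.im ≤ 1.42) (hB : ‖z‖ ≤ B) :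
    z.im ^ 2 * V z.re / 2 + 6.14 / z.re ^ 3 * (‖z‖ / z.re) ^ 2 ≤ 0.195 * (4.6 / x0) ^ 2 := by
  have hx0 := W.x0_lo
  have him := W.loc_im hz h0 h1 hB
  obtain ⟨a1, a2, a3⟩ := wf_x1 W hz hB
  have h2 : z.im ^ 2 ≤ 1.7161 := by nlinarith
  have h3 := wf_err W a1 a2 h0 h2 (by norm_num)
  have h4 : wfE V z ≤ 0.195 * (4.6 / x0) ^ 2 := by
    rw [div_pow, ← mul_div_assoc, le_div_iff₀ (by positivity)]
    norm_num at h3 ⊢
    linarith
  exact h4

theorem WData.loc_re (W : WData F T x0 B k m V) {z : ℂ} (hz : F z = -F x0) (h0 : 0 < z.im)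
    (h1 : z.im ≤ 1.42) (hB : ‖z‖ ≤ B) : z.re ≤ x0 + 0.55 / x0 := by
  have hx0 := W.x0_lo
  have hx00 : 0 < x0 := by linarith
  by_cases hx : z.re ≤ x0
  · have : 0 < 0.55 / x0 := by positivity
    linarith
  push Not at hx
  obtain ⟨a1, a2, a3⟩ := wf_x1 W hz hB
  have htot := W.loc_tot hz h0 h1 hB
  obtain ⟨θ, hp, hθ⟩ := W.polar a3 hB
  have hθ2 := hθ.trans htot
  obtain ⟨u, hu⟩ : ∃ u, u = 4.6 / x0 := ⟨_, rfl⟩
  have hu0 : 0 < u := by rw [hu]; positivity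
  have hu1 : u ≤ 1 := by rw [hu, div_le_one hx00]; exact hx0
  rw [← hu] at hθ2
  have hu2 : u ^ 2 ≤ 1 := pow_le_one₀ hu0.le hu1
  obtain ⟨r, hr, hr1, hr2⟩ := W.real
  have hk0 := W.k_pos x0
  have hkz := W.k_pos z.re
  have hr0 : 0 < r := by
    refine lt_of_lt_of_le ?_ hr1
    apply mul_pos hk0
    have : 0.2 / x0 ^ 3 ≤ 0.1 := by
      rw [div_le_iff₀ (by positivity)]
      have : (4.6 : ℝ) ^ 3 ≤ x0 ^ 3 := pow_le_pow_left₀ (by norm_num) hx0 3
      linarith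
    linarith
  have hFz : ‖F z‖ = r := by
    rw [hz, hr, norm_neg, Complex.norm_real, Real.norm_eq_abs, abs_of_pos hr0]
  have hE1 : 1 - 0.195 * u ^ 2 ≤ ‖1 + θ‖ := by
    have h2 : ‖(1 : ℂ)‖ ≤ ‖1 + θ‖ + ‖θ‖ := by
      calc ‖(1 : ℂ)‖ = ‖(1 + θ) - θ‖ := by congr 1; ring
        _ ≤ ‖1 + θ‖ + ‖θ‖ := norm_sub_le _ _
    rw [norm_one] at h2
    linarith
  have hFn : ‖F z‖ = k z.re * ‖1 + θ‖ := by
    rw [hp, norm_mul, norm_mul, Complex.norm_real, Real.norm_eq_abs, abs_of_pos hkz,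
      mul_comm Complex.I, Complex.norm_exp_ofReal_mul_I, mul_one]
  obtain ⟨c, hc⟩ : ∃ c, c = T - m x0 := ⟨_, rfl⟩
  have hc1 : 2.59 ≤ c := by
    have h2 := W.m_le x0 (by linarith)
    have h3 : 1.5 / (x0 - 0.9326) ≤ 0.4091 := by
      rw [div_le_iff₀ (by linarith)]; linarith
    have := W.T_lo
    rw [hc]; linarith
  have hkl := W.k_lo x0 z.re (by linarith) hx.le
  rw [← hc] at hkl
  obtain ⟨a, ha⟩ : ∃ a, a = 6.14 / x0 ^ 3 := ⟨_, rfl⟩
  have ha1 : a ≤ 0.0631 * u ^ 2 := by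
    rw [ha, hu, div_pow, ← mul_div_assoc, div_le_div_iff₀ (by positivity) (by positivity)]
    have h2 : x0 ^ 3 = x0 ^ 2 * x0 := by ring
    have h3 : x0 ^ 2 * 4.6 ≤ x0 ^ 2 * x0 := mul_le_mul_of_nonneg_left hx0 (by positivity)
    rw [h2]
    norm_num
    nlinarith
  rw [← ha] at hr2
  obtain ⟨E, hE⟩ : ∃ E, E = 0.195 * u ^ 2 := ⟨_, rfl⟩
  have hE0 : 0 ≤ E := by rw [hE]; positivity
  have hE2 : E ≤ 0.195 := by rw [hE]; linarith
  rw [← hE] at hE1
  have h5 : Real.exp (c * (z.re - x0)) * (1 - E) ≤ 1 + a := by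
    have h6 : k x0 * (Real.exp (c * (z.re - x0)) * (1 - E)) ≤ k x0 * (1 + a) := by
      calc k x0 * (Real.exp (c * (z.re - x0)) * (1 - E))
          = (k x0 * Real.exp (c * (z.re - x0))) * (1 - E) := by ring
        _ ≤ k z.re * ‖1 + θ‖ := mul_le_mul hkl hE1 (by linarith) hkz.le
        _ = r := by rw [← hFn, hFz]
        _ ≤ k x0 * (1 + a) := hr2
    exact le_of_mul_le_mul_left h6 hk0
  have h7 : Real.exp (c * (z.re - x0)) ≤ Real.exp (a + E / (1 - E)) := by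
    rw [Real.exp_add]
    have h8 : 1 + a ≤ Real.exp a := by
      have := Real.add_one_le_exp a; linarith
    have h9 : 1 / (1 - E) ≤ Real.exp (E / (1 - E)) := by
      have := Real.add_one_le_exp (E / (1 - E))
      have h10 : 1 / (1 - E) = E / (1 - E) + 1 := by
        have : (1 - E) ≠ 0 := by linarith
        field_simp
        ring
      rw [h10]; exact this
    have h11 : Real.exp (c * (z.re - x0)) ≤ (1 + a) * (1 / (1 - E)) := by
      rw [mul_one_div, le_div_iff₀ (by linarith)]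
      exact h5
    exact h11.trans (mul_le_mul h8 h9 (one_div_nonneg.2 (by linarith)) (Real.exp_pos _).le)
  have h12 := Real.exp_le_exp.1 h7
  have h13 : E / (1 - E) ≤ 0.2423 * u ^ 2 := by
    rw [div_le_iff₀ (by linarith)]
    have h14 : 0.2423 * u ^ 2 * 0.805 ≤ 0.2423 * u ^ 2 * (1 - E) :=
      mul_le_mul_of_nonneg_left (by linarith) (by positivity)
    rw [hE]
    rw [hE] at h14
    have : 0 < u ^ 2 := by positivity
    linarith
  have h15 : 2.59 * (z.re - x0) ≤ c * (z.re - x0) :=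
    mul_le_mul_of_nonneg_right hc1 (by linarith)
  have h16 : u ^ 2 ≤ u * 1 := by
    rw [sq]
    exact mul_le_mul_of_nonneg_left hu1 hu0.le
  have h17 : 2.59 * (z.re - x0) ≤ 0.3054 * u := by linarith
  have h18 : 0.3054 * u ≤ 2.59 * (0.55 / x0) := by
    rw [hu, ← mul_div_assoc, ← mul_div_assoc]
    apply div_le_div_of_nonneg_right _ hx00.le
    norm_num
  linarith

theorem WData.first_norm (W : WData F T x0 B k m V) {z : ℂ} (hz : F z = -F x0) (h0 : 0 < z.im)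
    (h1 : z.im ≤ 1.42) (hB : ‖z‖ ≤ B) : ‖z‖ ^ 2 ≤ x0 ^ 2 + 3 := by
  have hx0 := W.x0_lo
  have hx00 : 0 < x0 := by linarith
  obtain ⟨a1, a2, a3⟩ := wf_x1 W hz hB
  have him := W.loc_im hz h0 h1 hB
  have hre := W.loc_re hz h0 h1 hB
  have hn : ‖z‖ ^ 2 = z.re ^ 2 + z.im ^ 2 := by
    rw [← Complex.normSq_eq_norm_sq, Complex.normSq_apply]; ring
  have h2 : z.im ^ 2 ≤ 1.7161 := by nlinarith
  have h3 : z.re ^ 2 ≤ (x0 + 0.55 / x0) ^ 2 := pow_le_pow_left₀ (by linarith) hre 2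
  have h4 : (x0 + 0.55 / x0) ^ 2 = x0 ^ 2 + 1.1 + (0.55 / x0) ^ 2 := by
    field_simp
    ring
  have h5 : 0.55 / x0 ≤ 0.12 := by
    rw [div_le_iff₀ hx00]; linarith
  have h6 : (0.55 / x0) ^ 2 ≤ 0.12 ^ 2 := pow_le_pow_left₀ (by positivity) h5 2
  rw [hn]
  norm_num at h6
  linarith

end RR
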