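import Pool.Agent.Lib.MP_31701c_co.WLog
import Pool.Agent.Lib.MP_31701c_co.WExist
import Pool.Agent.Lib.MP_31701c_co.WFirst

/-!
# RR-WGeo : the zeros in the disc `‖z‖ ≤ B`, upper half plane (abstract)

For a zero (`F z = -F x0`, `‖z‖ ≤ B`, `Im z > 0`): `Re z > x1` (`re_gt`), so `z ∈ Ω` and
`exp(WW z) = -1`, i.e. `WW z = iπ(2j-1)`, `j ∈ ℤ`; put `J z = j` (`Int.toNat`, with `j ≥ 1` because
`Im WW ≥ (T - m) y - 0.6 > -π`). Distinct zeros have distinct `j` (`WW_injOn`).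
If `j = 1`: `(T-m) y ≤ π + 0.6`, so `y ≤ 3.742/2.585 = 1.4474`; then `tot ≤ 0.22`, `arcsin ≤ 0.23`,
`y ≤ (π+0.23)/2.585 ≤ 1.31 ≤ 1.42`. The zero of `WExist` has `Im z ≤ 1.42`, so `j = 1`
(`Im WW ≤ 3·1.42 + 0.6 < 3π`), and it is the only zero with `j = 1`: call it `z1`.
If `j ≥ 2`: `y ≥ (π(2j-1) - 0.6)/3` (`T - m ≤ 3`), `|z|² ≥ x1² + y² ≥ x0² - 0.4 + ((π(2j-1)-0.6)/3)²
≥ x0² + 3 + 4(j-1)²` (with `u = j-1 ≥ 1`: `(2.0943u+0.847)² ≥ 4u² + 3.4`).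
-/

set_option autoImplicit false

namespace RR

variable {F : ℂ → ℂ} {T x0 B : ℝ} {k m V : ℝ → ℝ}

private theorem wgeo_arcsin {t : ℝ} (h : t ≤ 0.54) : Real.arcsin t ≤ 0.6 := by
  have h1 : (0.54 : ℝ) ≤ Real.sin 0.6 := by
    have h2 := Real.sin_gt_sub_cube (x := 0.6) (by norm_num)
    norm_num at h2 ⊢
    linarith
  have hpi := Real.pi_gt_three
  calc Real.arcsin t ≤ Real.arcsin (Real.sin 0.6) := Real.monotone_arcsin (h.trans h1)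
    _ = 0.6 := Real.arcsin_sin (by linarith) (by linarith)

private theorem wgeo_x1 {x0 : ℝ} (h : 4.6 ≤ x0) :
    4.5 ≤ x0 - 0.2 / x0 ∧ x0 ^ 2 - 0.4 ≤ (x0 - 0.2 / x0) ^ 2 := by
  have hx : 0 < x0 := by linarith
  have h1 : 0.2 / x0 ≤ 0.1 := by
    rw [div_le_iff₀ hx]
    linarith
  have h2 : x0 * (0.2 / x0) = 0.2 := by
    field_simp
  refine ⟨by linarith, ?_⟩
  nlinarith [sq_nonneg (0.2 / x0)]

private theorem wgeo_pt (W : WData F T x0 B k m V) {z : ℂ} (hz : F z = -F x0) (h0 : 0 < z.im)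
    (hB : ‖z‖ ≤ B) : ∃ n : ℕ, (WW F T x0 z).re = 0 ∧
      (WW F T x0 z).im = Real.pi * (2 * n + 1) ∧
      x0 - 0.2 / x0 ≤ z.re ∧ Real.pi * (2 * n + 1) - 0.6 ≤ (T - m z.re) * z.im ∧
      (T - m z.re) * z.im ≤ Real.pi * (2 * n + 1) + 0.6 ∧ 0 < T - m z.re ∧ T - m z.re ≤ 3 := by
  have hre := (W.re_gt hz hB).le
  have hx1 := wgeo_x1 W.x0_lo
  have hm0 : 0 ≤ m z.re := W.m_nonneg _ (by linarith [hx1.1])
  have hm1 : m z.re ≤ 1 := by
    refine (W.m_le z.re (by linarith [hx1.1])).trans ?_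
    rw [div_le_one (by linarith [hx1.1])]
    linarith [hx1.1]
  have hT := W.T_lo
  have hT3 := W.T_hi
  have hx0 := W.x0_lo
  have hF : F x0 ≠ 0 := by
    obtain ⟨r, hr, hr1, -⟩ := W.real
    rw [hr]
    have h3 : (1 : ℝ) ≤ x0 ^ 3 := one_le_pow₀ (by linarith)
    have h4 : 0.2 / x0 ^ 3 ≤ 0.2 := div_le_self (by norm_num) h3
    have h5 : 0 < k x0 * (1 - 0.2 / x0 ^ 3) := mul_pos (W.k_pos x0) (by linarith)
    exact_mod_cast (lt_of_lt_of_le h5 hr1).ne'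
  have hexp : Complex.exp (WW F T x0 z) = Complex.exp (Real.pi * Complex.I) := by
    rw [W.exp_WW hre hB, hz, Complex.exp_pi_mul_I, neg_div, div_self hF]
  obtain ⟨n, hn⟩ := Complex.exp_eq_exp_iff_exists_int.1 hexp
  have hRe : (WW F T x0 z).re = 0 := by
    rw [hn]
    simp
  have hIm : (WW F T x0 z).im = Real.pi * (2 * n + 1) := by
    rw [hn]
    simp
    ring
  have him := W.im_WW hre hB
  have harc := wgeo_arcsin (W.tot_le hre hB)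
  have habs := abs_le.1 (him.trans harc)
  have hpi := Real.pi_gt_three
  have hpos : 0 ≤ (T - m z.re) * z.im := mul_nonneg (by linarith) h0.le
  have hn0 : 0 ≤ n := by
    by_contra hcon
    have h1 : n ≤ -1 := by omega
    have h2 : (n : ℝ) ≤ -1 := by exact_mod_cast h1
    have h3 : Real.pi * (2 * n + 1) ≤ -3 := by nlinarith
    rw [hIm] at habs
    linarith [habs.1, habs.2]
  obtain ⟨j, rfl⟩ := Int.eq_ofNat_of_zero_le hn0
  refine ⟨j, hRe, ?_, hre, ?_, ?_, by linarith, by linarith⟩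
  · rw [hIm]
    simp
  · rw [hIm] at habs
    simp only [Int.cast_natCast] at habs
    linarith [habs.1, habs.2]
  · rw [hIm] at habs
    simp only [Int.cast_natCast] at habs
    linarith [habs.1, habs.2]

private noncomputable def wgeoJ (F : ℂ → ℂ) (T x0 : ℝ) (z : ℂ) : ℕ :=
  ⌊((WW F T x0 z).im / Real.pi + 1) / 2⌋₊

private theorem wgeoJ_eq {z : ℂ} {n : ℕ} (h : (WW F T x0 z).im = Real.pi * (2 * n + 1)) :
    wgeoJ F T x0 z = n + 1 := by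
  unfold wgeoJ
  have h1 : ((WW F T x0 z).im / Real.pi + 1) / 2 = ((n + 1 : ℕ) : ℝ) := by
    rw [h, mul_div_cancel_left₀ _ Real.pi_ne_zero]
    push_cast
    ring
  rw [h1, Nat.floor_natCast]

theorem WData.geo (W : WData F T x0 B k m V) :
    ∃ (z1 : ℂ) (J : ℂ → ℕ), F z1 = -F x0 ∧ 0 < z1.im ∧ z1.im ≤ 1.42 ∧ ‖z1‖ ≤ B ∧
      (∀ z, F z = -F x0 → 0 < z.im → ‖z‖ ≤ B → z ≠ z1 →
        2 ≤ J z ∧ x0 ^ 2 + 3 + 4 * ((J z : ℝ) - 1) ^ 2 ≤ ‖z‖ ^ 2) ∧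
      (∀ z w, F z = -F x0 → 0 < z.im → ‖z‖ ≤ B → F w = -F x0 → 0 < w.im → ‖w‖ ≤ B →
        J z = J w → z = w) ∧
      (∀ z, F z = -F x0 → 0 < z.im → ‖z‖ ≤ B → deriv F z ≠ 0) := by
  obtain ⟨z1, hz1, -, hz1im, hz1im2, hz1B⟩ := W.exists_zero
  have hinj : ∀ z w, F z = -F x0 → 0 < z.im → ‖z‖ ≤ B → F w = -F x0 → 0 < w.im → ‖w‖ ≤ B →
      wgeoJ F T x0 z = wgeoJ F T x0 w → z = w := by
    intro z w hz hz0 hzB hw hw0 hwB hJ
    obtain ⟨n, hn1, hn2, hn3, -⟩ := wgeo_pt W hz hz0 hzB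
    obtain ⟨n', hn1', hn2', hn3', -⟩ := wgeo_pt W hw hw0 hwB
    rw [wgeoJ_eq hn2, wgeoJ_eq hn2'] at hJ
    have h1 : n = n' := by omega
    subst h1
    refine W.WW_injOn ⟨hn3, hzB⟩ ⟨hn3', hwB⟩ ?_
    apply Complex.ext
    · rw [hn1, hn1']
    · rw [hn2, hn2']
  have hJ1 : wgeoJ F T x0 z1 = 1 := by
    obtain ⟨n, hn1, hn2, hn3, hn4, hn5, hn6, hn7⟩ := wgeo_pt W hz1 hz1im hz1B
    rw [wgeoJ_eq hn2]
    have h2 : (T - m z1.re) * z1.im ≤ 3 * 1.42 :=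
      mul_le_mul hn7 hz1im2 hz1im.le (by norm_num)
    by_contra hcon
    have h3 : 1 ≤ n := by omega
    have h4 : (1 : ℝ) ≤ n := by exact_mod_cast h3
    have hpi := Real.pi_gt_three
    nlinarith
  refine ⟨z1, wgeoJ F T x0, hz1, hz1im, hz1im2, hz1B, ?_, hinj, ?_⟩
  · intro z hz hz0 hzB hne
    obtain ⟨n, hn1, hn2, hn3, hn4, hn5, hn6, hn7⟩ := wgeo_pt W hz hz0 hzB
    have hJ := wgeoJ_eq hn2
    have hn : 1 ≤ n := by
      by_contra hcon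
      have h0 : n = 0 := by omega
      apply hne
      refine hinj z z1 hz hz0 hzB hz1 hz1im hz1B ?_
      rw [hJ, hJ1, h0]
    refine ⟨by omega, ?_⟩
    rw [hJ]
    have hx1 := wgeo_x1 W.x0_lo
    have hnR : (1 : ℝ) ≤ n := by exact_mod_cast hn
    have hpi : 3.1415 < Real.pi := Real.pi_gt_d4
    have hy : Real.pi * (2 * n + 1) - 0.6 ≤ 3 * z.im :=
      hn4.trans (mul_le_mul_of_nonneg_right hn7 hz0.le)
    have hy2 : 2.0943 * n + 0.847 ≤ z.im := by nlinarith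
    have hy3 : (2.0943 * n + 0.847) ^ 2 ≤ z.im ^ 2 :=
      pow_le_pow_left₀ (by positivity) hy2 2
    have hx3 : (x0 - 0.2 / x0) ^ 2 ≤ z.re ^ 2 :=
      pow_le_pow_left₀ (by linarith [hx1.1]) hn3 2
    have hnorm : ‖z‖ ^ 2 = z.re ^ 2 + z.im ^ 2 := by
      rw [← Complex.normSq_eq_norm_sq, Complex.normSq_apply]
      ring
    rw [hnorm]
    push_cast
    have h5 : ((n : ℝ) + 1 - 1) = n := by ring
    rw [h5]
    nlinarith [hx1.2]
  · intro z hz hz0 hzB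
    exact W.deriv_ne_zero (W.re_gt hz hzB).le hzB

end RR
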