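import Pool.Agent.Lib.MP_31701c_co.WFirst

/-!
# RR-WPhase : phase bound for the first zero (abstract)
-/

set_option autoImplicit false

namespace RR

variable {F : ℂ → ℂ} {T x0 B : ℝ} {k m V : ℝ → ℝ}

private theorem arcsin_le_mul {s : ℝ} (h0 : 0 ≤ s) (h1 : s ≤ 1) :
    Real.arcsin s ≤ Real.pi / 2 * s := by
  have h2 := Real.mul_le_sin (Real.arcsin_nonneg.mpr h0) (Real.arcsin_le_pi_div_two s)
  rw [Real.sin_arcsin (by linarith) h1] at h2
  have hpi := Real.pi_pos
  have h3 : Real.arcsin s = Real.pi / 2 * (2 / Real.pi * Real.arcsin s) := by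
    field_simp
  rw [h3]
  exact mul_le_mul_of_nonneg_left h2 (by positivity)

private theorem phase_num {x0 : ℝ} (h : 11.8 ≤ x0) :
    Real.pi / 2 * (0.195 * (4.6 / x0) ^ 2) * (3 * x0 - 2.2) < 0.51 * Real.pi := by
  have hx0 : 0 < x0 := by linarith
  have hpi := Real.pi_pos
  have h1 : Real.pi / 2 * (0.195 * (4.6 / x0) ^ 2) * (3 * x0 - 2.2) =
      Real.pi * ((2.0631 * (3 * x0 - 2.2)) / x0 ^ 2) := by
    field_simp
    ring
  rw [h1, mul_comm (0.51:ℝ) Real.pi]
  apply mul_lt_mul_of_pos_left _ hpi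
  rw [div_lt_iff₀ (by positivity)]
  nlinarith

theorem WData.first_phase (W : WData F T x0 B k m V) (h118 : 11.8 ≤ x0)
    (hT : (3 - T) * x0 ≤ 0.001) {z : ℂ} (hz : F z = -F x0) (h0 : 0 < z.im)
    (h1 : z.im ≤ 1.42) (hB : ‖z‖ ≤ B) :
    0 < z.re ∧ z.im / z.re < Real.pi / (3 * x0 - 2.2) := by
  have hx0 : 0 < x0 := by linarith
  have hx := W.re_gt hz hB
  have h02 : 0.2 / x0 ≤ 0.01695 := by
    rw [div_le_iff₀ hx0]
    linarith
  have hx1 : 11.78 < z.re := by linarith
  have hph := W.loc_phase hz h0 h1 hB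
  have htot := W.loc_tot hz h0 h1 hB
  have hpi := Real.pi_pos
  have hVn := W.V_nonneg z.re (by linarith)
  have hmn := W.m_nonneg z.re (by linarith)
  have hml := W.m_le z.re (by linarith)
  have hTlo := W.T_lo
  have hThi := W.T_hi
  refine ⟨by linarith, ?_⟩
  -- the total error
  obtain ⟨s, hs⟩ : ∃ s : ℝ, s = z.im ^ 2 * V z.re / 2 + 6.14 / z.re ^ 3 * (‖z‖ / z.re) ^ 2 :=
    ⟨_, rfl⟩
  rw [← hs] at hph htot
  have hs0 : 0 ≤ s := by
    rw [hs]
    have : 0 < z.re := by linarith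
    positivity
  have h46 : (4.6 / x0) ^ 2 ≤ 0.16 := by
    have : 4.6 / x0 ≤ 0.39 := by
      rw [div_le_iff₀ hx0]
      linarith
    have h2 : 0 ≤ 4.6 / x0 := by positivity
    nlinarith
  have hs1 : s ≤ 1 := by linarith
  have hα : Real.arcsin s ≤ Real.pi / 2 * (0.195 * (4.6 / x0) ^ 2) := by
    refine le_trans (arcsin_le_mul hs0 hs1) (mul_le_mul_of_nonneg_left htot (by positivity))
  have hup : (T - m z.re) * z.im ≤ Real.pi + Real.pi / 2 * (0.195 * (4.6 / x0) ^ 2) := by
    have := (abs_le.mp hph).2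
    linarith
  -- lower bound for (T - m) x
  have hmx : m z.re * z.re ≤ 1.6291 := by
    have h2 : 0 < z.re - 0.9326 := by linarith
    have h3 : m z.re * (z.re - 0.9326) ≤ 1.5 := by
      rw [le_div_iff₀ h2] at hml
      exact hml
    have h4 : m z.re ≤ 0.1384 := by
      refine le_trans hml ?_
      rw [div_le_iff₀ h2]
      linarith
    have h5 : m z.re * z.re = m z.re * (z.re - 0.9326) + 0.9326 * m z.re := by ring
    rw [h5]
    linarith
  have hTx : 3 * x0 - 0.052 ≤ T * z.re := by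
    have h3 : T * (x0 - 0.2 / x0) ≤ T * z.re :=
      mul_le_mul_of_nonneg_left hx.le (by linarith)
    have h4 : T * (0.2 / x0) ≤ 3 * 0.01695 := by
      apply mul_le_mul hThi h02 (by positivity) (by norm_num)
    have h5 : T * (x0 - 0.2 / x0) = 3 * x0 - (3 - T) * x0 - T * (0.2 / x0) := by ring
    linarith
  have hlow : 3 * x0 - 1.69 ≤ (T - m z.re) * z.re := by
    have h5 : (T - m z.re) * z.re = T * z.re - m z.re * z.re := by ring
    rw [h5]
    linarith
  have hTm : 0 < T - m z.re := by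
    have h4 : m z.re ≤ 0.1384 := by
      refine le_trans hml ?_
      rw [div_le_iff₀ (by linarith)]
      linarith
    linarith
  have hnum := phase_num h118
  rw [div_lt_div_iff₀ (by linarith) (by linarith)]
  have h6 : (T - m z.re) * (z.im * (3 * x0 - 2.2)) < (T - m z.re) * (Real.pi * z.re) := by
    have h7 : ((T - m z.re) * z.im) * (3 * x0 - 2.2) ≤
        (Real.pi + Real.pi / 2 * (0.195 * (4.6 / x0) ^ 2)) * (3 * x0 - 2.2) :=
      mul_le_mul_of_nonneg_right hup (by linarith)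
    have h8 : Real.pi * (3 * x0 - 1.69) ≤ Real.pi * ((T - m z.re) * z.re) :=
      mul_le_mul_of_nonneg_left hlow hpi.le
    have h9 : (Real.pi + Real.pi / 2 * (0.195 * (4.6 / x0) ^ 2)) * (3 * x0 - 2.2) =
        Real.pi * (3 * x0 - 2.2) +
        Real.pi / 2 * (0.195 * (4.6 / x0) ^ 2) * (3 * x0 - 2.2) := by ring
    have h10 : Real.pi * (3 * x0 - 1.69) = Real.pi * (3 * x0 - 2.2) + 0.51 * Real.pi := by ring
    have h11 : (T - m z.re) * (z.im * (3 * x0 - 2.2)) =
        ((T - m z.re) * z.im) * (3 * x0 - 2.2) := by ring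
    have h12 : (T - m z.re) * (Real.pi * z.re) = Real.pi * ((T - m z.re) * z.re) := by ring
    rw [h11, h12]
    linarith
  exact lt_of_mul_lt_mul_left h6 hTm.le

end RR
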