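import Pool.Agent.Lib.MP_31701c_co.Defs

set_option autoImplicit false

namespace RR

private theorem wsum_exp : Real.exp (-(2 / 2.27)) ≤ 0.43 := by
  have h1 : (1.5368 : ℝ) ≤ Real.exp 0.44 := by
    have := Real.quadratic_le_exp_of_nonneg (show (0 : ℝ) ≤ 0.44 by norm_num)
    norm_num at this ⊢
    linarith
  have h2 : Real.exp 0.44 ^ 2 = Real.exp 0.88 := by
    rw [← Real.exp_nat_mul]; norm_num
  have h3 : (2.33 : ℝ) ≤ Real.exp 0.88 := by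
    rw [← h2]; nlinarith
  have h4 : Real.exp (-(2 / 2.27)) ≤ Real.exp (-0.88) := by
    apply Real.exp_le_exp.2; norm_num
  have h5 : Real.exp (-0.88) = (Real.exp 0.88)⁻¹ := Real.exp_neg _
  rw [h5] at h4
  refine h4.trans ?_
  rw [inv_le_comm₀ (Real.exp_pos _) (by norm_num)]
  norm_num at h3 ⊢
  linarith

private theorem wsum_far {n : ℕ} {B : ℝ} (hn : 100 ≤ n) (hBn : B ^ 2 ≤ 2.27 * n) :
    9.1 * B * ((1.06 : ℝ)⁻¹) ^ n ≤ 1 := by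
  obtain ⟨m, rfl⟩ := Nat.exists_eq_add_of_le hn
  have hb : B ≤ 1.51 * ((200 + m : ℝ) / 20) := by
    have h1 : B ^ 2 ≤ (1.51 * ((200 + m : ℝ) / 20)) ^ 2 := by
      refine hBn.trans ?_
      push_cast
      have hm : (0 : ℝ) ≤ m := Nat.cast_nonneg m
      nlinarith
    have hm : (0 : ℝ) ≤ m := Nat.cast_nonneg m
    exact le_of_sq_le_sq h1 (by positivity)
  have h2 : (339 : ℝ) ≤ (1.06 : ℝ) ^ 100 := by norm_num
  have h3 : 1 + (m : ℝ) * 0.06 ≤ (1.06 : ℝ) ^ m := by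
    have := one_add_mul_le_pow (show (-2 : ℝ) ≤ 0.06 by norm_num) m
    norm_num at this ⊢
    linarith
  have h4 : 9.1 * B ≤ (1.06 : ℝ) ^ (100 + m) := by
    rw [pow_add]
    have hm : (0 : ℝ) ≤ m := Nat.cast_nonneg m
    have h5 : (339 : ℝ) * (1 + (m : ℝ) * 0.06) ≤ (1.06 : ℝ) ^ 100 * (1.06 : ℝ) ^ m :=
      mul_le_mul h2 h3 (by positivity) (by positivity)
    nlinarith
  rw [inv_pow, ← div_eq_mul_inv, div_le_one (by positivity)]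
  exact h4

/-- one root of the upper half plane -/
private theorem wsum_term {n u : ℕ} {x0 B : ℝ} {z : ℂ} (hx0 : 4.6 ≤ x0) (hB0 : 0 < B)
    (hBn : B ^ 2 ≤ 2.27 * n) (hz : ‖z‖ ≤ B)
    (hu : 1 ≤ u) (h : x0 ^ 2 + 3 + 4 * (u : ℝ) ^ 2 ≤ ‖z‖ ^ 2) :
    (‖z‖⁻¹) ^ n ≤ ((Real.sqrt (x0 ^ 2 + 3))⁻¹) ^ n * (0.43 : ℝ) ^ (3 * u - 2) := by
  set r : ℝ := Real.sqrt (x0 ^ 2 + 3) with hr
  have hr0 : 0 < r := Real.sqrt_pos.2 (by positivity)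
  have hr2 : r ^ 2 = x0 ^ 2 + 3 := Real.sq_sqrt (by positivity)
  have hu0 : (0 : ℝ) ≤ (u : ℝ) ^ 2 := by positivity
  have hz2 : 0 < ‖z‖ ^ 2 := by nlinarith
  have hz0 : 0 < ‖z‖ := by
    rcases (norm_nonneg z).eq_or_lt with h0 | h0
    · rw [← h0] at hz2; norm_num at hz2
    · exact h0
  have h1 : (r / ‖z‖) ^ 2 ≤ Real.exp (-(4 * (u : ℝ) ^ 2 / B ^ 2)) := by
    rw [div_pow, div_le_iff₀ hz2]
    have h2 : 1 - 4 * (u : ℝ) ^ 2 / B ^ 2 ≤ Real.exp (-(4 * (u : ℝ) ^ 2 / B ^ 2)) := by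
      have := Real.add_one_le_exp (-(4 * (u : ℝ) ^ 2 / B ^ 2))
      linarith
    have h3 : r ^ 2 ≤ (1 - 4 * (u : ℝ) ^ 2 / B ^ 2) * ‖z‖ ^ 2 := by
      have h4 : 4 * (u : ℝ) ^ 2 / B ^ 2 * ‖z‖ ^ 2 ≤ 4 * (u : ℝ) ^ 2 := by
        rw [div_mul_eq_mul_div, div_le_iff₀ (by positivity)]
        have h5 : ‖z‖ ^ 2 ≤ B ^ 2 := by gcongr
        nlinarith
      rw [hr2]
      nlinarith
    exact h3.trans (mul_le_mul_of_nonneg_right h2 hz2.le)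
  have h2 : r / ‖z‖ ≤ Real.exp (-(2 * (u : ℝ) ^ 2 / B ^ 2)) := by
    have h3 : Real.exp (-(4 * (u : ℝ) ^ 2 / B ^ 2)) = Real.exp (-(2 * (u : ℝ) ^ 2 / B ^ 2)) ^ 2 := by
      rw [← Real.exp_nat_mul]
      congr 1
      push_cast
      ring
    rw [h3] at h1
    exact le_of_sq_le_sq h1 (Real.exp_pos _).le
  have h3 : (r / ‖z‖) ^ n ≤ (0.43 : ℝ) ^ (u ^ 2) := by
    calc (r / ‖z‖) ^ n ≤ Real.exp (-(2 * (u : ℝ) ^ 2 / B ^ 2)) ^ n := by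
          gcongr
      _ = Real.exp ((n : ℝ) * (-(2 * (u : ℝ) ^ 2 / B ^ 2))) := by
          rw [← Real.exp_nat_mul]
      _ ≤ Real.exp (((u ^ 2 : ℕ) : ℝ) * (-(2 / 2.27))) := by
          apply Real.exp_le_exp.2
          have h4 : (u : ℝ) ^ 2 * (2 / 2.27) ≤ (n : ℝ) * (2 * (u : ℝ) ^ 2 / B ^ 2) := by
            have e : (n : ℝ) * (2 * (u : ℝ) ^ 2 / B ^ 2) = ((n : ℝ) * (2 * (u : ℝ) ^ 2)) / B ^ 2 := by
              ring
            rw [e, le_div_iff₀ (by positivity)]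
            have h5 : (u : ℝ) ^ 2 * (2 / 2.27) * B ^ 2 ≤ (u : ℝ) ^ 2 * (2 / 2.27) * (2.27 * n) := by
              gcongr
            refine h5.trans (le_of_eq ?_)
            ring
          push_cast
          linarith
      _ = Real.exp (-(2 / 2.27)) ^ (u ^ 2) := by
          rw [← Real.exp_nat_mul]
      _ ≤ (0.43 : ℝ) ^ (u ^ 2) := by
          exact pow_le_pow_left₀ (Real.exp_pos _).le wsum_exp _
  have h4 : (0.43 : ℝ) ^ (u ^ 2) ≤ (0.43 : ℝ) ^ (3 * u - 2) := by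
    apply pow_le_pow_of_le_one (by norm_num) (by norm_num)
    rcases Nat.exists_eq_add_of_le hu with ⟨k, rfl⟩
    have : 3 * (1 + k) - 2 = 3 * k + 1 := by omega
    rw [this]
    nlinarith [Nat.le_mul_self k]
  have h5 : (‖z‖⁻¹) ^ n = (r⁻¹) ^ n * (r / ‖z‖) ^ n := by
    rw [← mul_pow]
    congr 1
    field_simp
  rw [h5]
  exact mul_le_mul_of_nonneg_left (h3.trans h4) (by positivity)

/-- distinct roots of the upper half plane -/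
private theorem wsum_upper {n : ℕ} {x0 B : ℝ} {J : ℂ → ℕ} (U : Finset ℂ) (hx0 : 4.6 ≤ x0)
    (hB0 : 0 < B) (hBn : B ^ 2 ≤ 2.27 * n) (hU : ∀ z ∈ U, ‖z‖ ≤ B)
    (hJ : ∀ z ∈ U, 2 ≤ J z ∧ x0 ^ 2 + 3 + 4 * ((J z : ℝ) - 1) ^ 2 ≤ ‖z‖ ^ 2)
    (hinj : ∀ z ∈ U, ∀ w ∈ U, J z = J w → z = w) :
    ∑ z ∈ U, (‖z‖⁻¹) ^ n ≤ ((Real.sqrt (x0 ^ 2 + 3))⁻¹) ^ n * 0.47 := by
  have h1 : ∀ z ∈ U, (‖z‖⁻¹) ^ n ≤
      ((Real.sqrt (x0 ^ 2 + 3))⁻¹) ^ n * (0.43 * ((0.43 : ℝ) ^ 3) ^ (J z - 2)) := by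
    intro z hz
    obtain ⟨h2, h3⟩ := hJ z hz
    obtain ⟨k, hk⟩ := Nat.exists_eq_add_of_le h2
    have h4 := wsum_term (u := J z - 1) (n := n) hx0 hB0 hBn (hU z hz) (by omega) (by
      have : ((J z - 1 : ℕ) : ℝ) = (J z : ℝ) - 1 := by
        rw [Nat.cast_sub (by omega)]; simp
      rw [this]
      exact h3)
    refine h4.trans (le_of_eq ?_)
    congr 1
    rw [hk]
    have e1 : 3 * (2 + k - 1) - 2 = 1 + 3 * k := by omega
    have e2 : 2 + k - 2 = k := by omega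
    rw [e1, e2, pow_add, pow_mul, pow_one]
  refine (Finset.sum_le_sum h1).trans ?_
  rw [← Finset.mul_sum, ← Finset.mul_sum]
  have h2 : ∑ z ∈ U, ((0.43 : ℝ) ^ 3) ^ (J z - 2) ≤ (1 - (0.43 : ℝ) ^ 3)⁻¹ := by
    have h3 : ∑ z ∈ U, ((0.43 : ℝ) ^ 3) ^ (J z - 2) =
        ∑ k ∈ U.image (fun z => J z - 2), ((0.43 : ℝ) ^ 3) ^ k := by
      rw [Finset.sum_image]
      intro z hz w hw hzw
      apply hinj z hz w hw
      have h4 := (hJ z hz).1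
      have h5 := (hJ w hw).1
      simp only at hzw
      omega
    rw [h3, ← tsum_geometric_of_lt_one (by norm_num) (by norm_num)]
    exact (summable_geometric_of_lt_one (by norm_num) (by norm_num)).sum_le_tsum _
      (fun i _ => by positivity)
  have h3 : 0.43 * ∑ z ∈ U, ((0.43 : ℝ) ^ 3) ^ (J z - 2) ≤ 0.47 := by
    have h4 : (1 - (0.43 : ℝ) ^ 3)⁻¹ ≤ 1.09 := by
      rw [inv_le_comm₀ (by norm_num) (by norm_num)]
      norm_num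
    linarith
  exact mul_le_mul_of_nonneg_left h3 (by positivity)

theorem wsum {R : Multiset ℂ} {n : ℕ} {x0 B : ℝ} {z1 : ℂ} {J : ℂ → ℕ} (hn : 100 ≤ n)
    (hx0 : 4.6 ≤ x0) (hB : B = 1.06 * Real.sqrt (x0 ^ 2 + 3)) (hBn : B ^ 2 ≤ 2.27 * n)
    (hconj : R.map (starRingEnd ℂ) = R)
    (hcount : ∀ z ∈ R, ‖z‖ ≤ B → z.im ≠ 0 ∧ R.count z = 1)
    (hz1 : z1 ∈ R) (hz1i : 0 < z1.im) (hz1n : ‖z1‖ ^ 2 ≤ x0 ^ 2 + 3)
    (hJ : ∀ z ∈ R, 0 < z.im → ‖z‖ ≤ B → z ≠ z1 →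
      2 ≤ J z ∧ x0 ^ 2 + 3 + 4 * ((J z : ℝ) - 1) ^ 2 ≤ ‖z‖ ^ 2)
    (hinj : ∀ z w, z ∈ R → 0 < z.im → ‖z‖ ≤ B → w ∈ R → 0 < w.im → ‖w‖ ≤ B → J z = J w → z = w)
    (hfar : ((R.filter (fun r => B ≤ ‖r‖)).map (fun r => (‖r‖⁻¹) ^ n)).sum ≤
      9.1 * B * (B⁻¹) ^ n) :
    ‖(R.map fun r => (r⁻¹) ^ n).sum - ((z1⁻¹) ^ n + (((starRingEnd ℂ) z1)⁻¹) ^ n)‖ <
      2 * (‖z1‖⁻¹) ^ n := by
  classical
  set rs : ℝ := Real.sqrt (x0 ^ 2 + 3) with hrs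
  have hrs0 : 0 < rs := Real.sqrt_pos.2 (by positivity)
  have hB0 : 0 < B := by rw [hB]; positivity
  have hz1r : ‖z1‖ ≤ rs := Real.le_sqrt_of_sq_le hz1n
  have hrB : rs ≤ B := by rw [hB]; linarith
  have hz1B : ‖z1‖ ≤ B := hz1r.trans hrB
  have hz10 : 0 < ‖z1‖ := norm_pos_iff.2 (by rintro rfl; simp at hz1i)
  have hmem : ∀ z ∈ R, (starRingEnd ℂ) z ∈ R := by
    intro z hz
    have := Multiset.mem_map_of_mem (starRingEnd ℂ) hz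
    rwa [hconj] at this
  set S : Finset ℂ := (R.filter (fun r => ‖r‖ ≤ B)).toFinset with hS
  have hSv : S.val = R.filter (fun r => ‖r‖ ≤ B) := by
    rw [hS, Multiset.toFinset_val, Multiset.dedup_eq_self]
    rw [Multiset.nodup_iff_count_le_one]
    intro a
    rw [Multiset.count_filter]
    split_ifs with ha
    · by_cases haR : a ∈ R
      · exact (hcount a haR ha).2.le
      · rw [Multiset.count_eq_zero_of_notMem haR]; omega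
    · omega
  have hmS : ∀ z, z ∈ S ↔ z ∈ R ∧ ‖z‖ ≤ B := by
    intro z
    rw [hS, Multiset.mem_toFinset, Multiset.mem_filter]
  have hsplit : (R.map fun r => (r⁻¹) ^ n).sum =
      ∑ z ∈ S, (z⁻¹) ^ n + ((R.filter (fun r => ¬ ‖r‖ ≤ B)).map fun r => (r⁻¹) ^ n).sum := by
    conv_lhs => rw [← Multiset.filter_add_not (fun r => ‖r‖ ≤ B) R]
    rw [Multiset.map_add, Multiset.sum_add, ← hSv]
    rfl
  set c1 : ℂ := (starRingEnd ℂ) z1 with hc1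
  have hc1R : c1 ∈ R := hmem z1 hz1
  have hc1n : ‖c1‖ = ‖z1‖ := by rw [hc1]; exact Complex.norm_conj z1
  have hc1i : c1.im = -z1.im := by rw [hc1]; exact Complex.conj_im z1
  have hne : c1 ≠ z1 := by
    intro h
    rw [h] at hc1i
    linarith
  have hz1S : z1 ∈ S := (hmS z1).2 ⟨hz1, hz1B⟩
  have hc1S : c1 ∈ S.erase z1 := Finset.mem_erase.2 ⟨hne, (hmS c1).2 ⟨hc1R, by rw [hc1n]; exact hz1B⟩⟩
  set S' : Finset ℂ := (S.erase z1).erase c1 with hS'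
  have hsum : ∑ z ∈ S, (z⁻¹) ^ n = (z1⁻¹) ^ n + ((c1⁻¹) ^ n + ∑ z ∈ S', (z⁻¹) ^ n) := by
    rw [hS', ← Finset.add_sum_erase S _ hz1S, ← Finset.add_sum_erase (S.erase z1) _ hc1S]
  have hkey : (R.map fun r => (r⁻¹) ^ n).sum - ((z1⁻¹) ^ n + (c1⁻¹) ^ n) =
      ∑ z ∈ S', (z⁻¹) ^ n + ((R.filter (fun r => ¬ ‖r‖ ≤ B)).map fun r => (r⁻¹) ^ n).sum := by
    rw [hsplit, hsum]; ring
  rw [hkey]
  -- the far part
  have hf : ‖((R.filter (fun r => ¬ ‖r‖ ≤ B)).map fun r => (r⁻¹) ^ n).sum‖ ≤ 9.1 * B * (B⁻¹) ^ n := by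
    have h1 : ‖((R.filter (fun r => ¬ ‖r‖ ≤ B)).map fun r => (r⁻¹) ^ n).sum‖ ≤
        ((R.filter (fun r => ¬ ‖r‖ ≤ B)).map (fun r => (‖r‖⁻¹) ^ n)).sum := by
      refine (norm_multiset_sum_le _).trans (le_of_eq ?_)
      rw [Multiset.map_map]
      congr 1
      apply Multiset.map_congr rfl
      intro z _
      simp
    refine h1.trans (le_trans ?_ hfar)
    have h2 : R.filter (fun r => ¬ ‖r‖ ≤ B) ≤ R.filter (fun r => B ≤ ‖r‖) :=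
      Multiset.monotone_filter_right R (fun r hr => (not_le.1 hr).le)
    obtain ⟨u, hu⟩ := Multiset.le_iff_exists_add.1 h2
    rw [hu, Multiset.map_add, Multiset.sum_add]
    have h3 : 0 ≤ (u.map (fun r => (‖r‖⁻¹) ^ n)).sum := by
      apply Multiset.sum_nonneg
      intro a ha
      obtain ⟨r, _, rfl⟩ := Multiset.mem_map.1 ha
      positivity
    linarith
  -- the near part
  set U : Finset ℂ := S'.filter (fun z => 0 < z.im) with hU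
  set L : Finset ℂ := S'.filter (fun z => ¬ 0 < z.im) with hL
  have hmS' : ∀ z, z ∈ S' ↔ z ≠ c1 ∧ z ≠ z1 ∧ z ∈ R ∧ ‖z‖ ≤ B := by
    intro z
    rw [hS', Finset.mem_erase, Finset.mem_erase, hmS]
  have hUb := wsum_upper (n := n) (x0 := x0) (B := B) (J := J) U hx0 hB0 hBn
    (fun z hz => ((hmS' z).1 (Finset.mem_filter.1 hz).1).2.2.2)
    (fun z hz => by
      obtain ⟨h1, h2⟩ := Finset.mem_filter.1 hz
      obtain ⟨_, h3, h4, h5⟩ := (hmS' z).1 h1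
      exact hJ z h4 h2 h5 h3)
    (fun z hz w hw hzw => by
      obtain ⟨h1, h2⟩ := Finset.mem_filter.1 hz
      obtain ⟨_, _, h4, h5⟩ := (hmS' z).1 h1
      obtain ⟨h1', h2'⟩ := Finset.mem_filter.1 hw
      obtain ⟨_, _, h4', h5'⟩ := (hmS' w).1 h1'
      exact hinj z w h4 h2 h5 h4' h2' h5' hzw)
  have hLU : ∑ z ∈ L, (‖z‖⁻¹) ^ n ≤ ∑ z ∈ U, (‖z‖⁻¹) ^ n := by
    have h1 : ∑ z ∈ L, (‖z‖⁻¹) ^ n = ∑ w ∈ L.image (starRingEnd ℂ), (‖w‖⁻¹) ^ n := by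
      rw [Finset.sum_image (fun z _ w _ h => (starRingEnd ℂ).injective h)]
      exact Finset.sum_congr rfl fun z _ => by rw [Complex.norm_conj]
    rw [h1]
    apply Finset.sum_le_sum_of_subset_of_nonneg
    · intro w hw
      obtain ⟨z, hz, rfl⟩ := Finset.mem_image.1 hw
      obtain ⟨h2, h3⟩ := Finset.mem_filter.1 hz
      obtain ⟨h4, h5, h6, h7⟩ := (hmS' z).1 h2
      have h8 := (hcount z h6 h7).1
      refine Finset.mem_filter.2 ⟨(hmS' _).2 ⟨?_, ?_, hmem z h6, ?_⟩, ?_⟩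
      · intro h9
        exact h5 ((starRingEnd ℂ).injective h9)
      · intro h9
        apply h4
        rw [hc1, ← h9, Complex.conj_conj]
      · rw [Complex.norm_conj]; exact h7
      · rw [Complex.conj_im]
        rcases lt_trichotomy z.im 0 with h10 | h10 | h10
        · linarith
        · exact absurd h10 h8
        · exact absurd h10 h3
    · intro w _ _
      positivity
  have hn' : ‖∑ z ∈ S', (z⁻¹) ^ n‖ ≤ (rs⁻¹) ^ n * 0.94 := by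
    have h1 : ‖∑ z ∈ S', (z⁻¹) ^ n‖ ≤ ∑ z ∈ S', (‖z‖⁻¹) ^ n := by
      refine (norm_sum_le _ _).trans (le_of_eq ?_)
      exact Finset.sum_congr rfl fun z _ => by simp
    have h2 : ∑ z ∈ S', (‖z‖⁻¹) ^ n = ∑ z ∈ U, (‖z‖⁻¹) ^ n + ∑ z ∈ L, (‖z‖⁻¹) ^ n := by
      rw [hU, hL, Finset.sum_filter_add_sum_filter_not]
    rw [h2] at h1
    linarith
  have hB1 : (B⁻¹) ^ n = (rs⁻¹) ^ n * ((1.06 : ℝ)⁻¹) ^ n := by
    rw [hB, ← mul_pow, mul_inv, mul_comm]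
  have hf' : 9.1 * B * (B⁻¹) ^ n ≤ (rs⁻¹) ^ n * 1 := by
    rw [hB1]
    have := wsum_far hn hBn
    have h2 : 0 < (rs⁻¹) ^ n := by positivity
    nlinarith
  have hfin : (rs⁻¹) ^ n ≤ (‖z1‖⁻¹) ^ n := by
    apply pow_le_pow_left₀ (by positivity)
    exact inv_anti₀ hz10 hz1r
  have hpos : 0 < (rs⁻¹) ^ n := by positivity
  calc ‖∑ z ∈ S', (z⁻¹) ^ n + ((R.filter (fun r => ¬ ‖r‖ ≤ B)).map fun r => (r⁻¹) ^ n).sum‖
      ≤ (rs⁻¹) ^ n * 0.94 + (rs⁻¹) ^ n * 1 := (norm_add_le _ _).trans (add_le_add hn' (hf.trans hf'))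
    _ < 2 * (rs⁻¹) ^ n := by linarith
    _ ≤ 2 * (‖z1‖⁻¹) ^ n := by linarith

end RR
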