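import Pool.Agent.Lib.MP_31701c_co.WEst
import Pool.Agent.Lib.MP_31701c_co.WGeo
import Pool.Agent.Lib.MP_31701c_co.WPhase
import Pool.Agent.Lib.MP_31701c_co.WSum
import Pool.Agent.Lib.MP_31701c_co.Near
import Pool.Agent.Lib.MP_31701c_co.PowerSums
import Pool.Agent.Lib.MP_31701c_co.ConjPair

/-!
# RR-WGood : a good pair in the W-range

`W := wdata …`, `N = 4n`, `β = 1 - e²`, `aeval z (HN e N) = 1 + β FN e N z` vanishes iff
`FN z = -1/β = -FN x0` (`HN_aeval`, `gg e N x0 = 1`, `gg_eq`, `FN_ofReal`). `z1`, `J` from `W.geo`; `r*² = x0²+3`,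
`B = 1.06 r*`, `B² ≤ 1.1236 (1.9881 n + 3) ≤ 2.27 n`, `B ≤ 0.043·4n`. `‖z1‖² ≤ r*²` (`first_norm`). Roots of `H_N` in
`‖z‖ ≤ B`: none is real (`HN_pos_real`), they come in conjugate pairs (`rts_conj`, `HN_conj`); those in the upper half
plane are `z1` and roots with `J ≥ 2`, `‖z‖² ≥ r*² + 4(J-1)² > ‖z1‖²`; all are simple (`geo`, `count_rts_eq_one`; for the
lower half plane `count` is invariant under conjugation by `rts_conj`).
Good pair: minimality is clear (roots with `‖w‖ > B` are larger than `r* ≥ ‖z1‖`).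
Sum: `Sn e n = ∑ ρ^{-n}` (`Sn_eq_sum`, `n ≤ 4n`), `wsum` with `R = rts e N`, `hfar` from `far_sum` and `expBound_HN`,
`rts_eq`; `(z1⁻¹)^n + (conj z1 ⁻¹)^n = 2 Re (z1⁻¹)^n`.
For the phase (`first_phase`): `(3 - T) x0 = (1-e) x0 ≤ β x0 = x0/FR e N x0 ≤ 0.001` for `x0 ≥ 11.8` (`kk_lower`,
`rest_real_lower`).
-/

set_option autoImplicit false

namespace RR

open Polynomial

theorem wrange {e : ℝ} (h9 : e9 ≤ e) (h1 : e < 1) {n : ℕ} (hn : 100 ≤ n) {x0 : ℝ} (hx0 : 0 < x0)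
    (hg : gg e (4 * n) x0 = 1) (hx1 : x0 ≤ 1.41 * Real.sqrt n) :
    ∃ z, GoodPair e (4 * n) n z ∧
      (11.8 ≤ x0 → 0 < z.re ∧ z.im / z.re < Real.pi / (3 * x0 - 2.2)) := by
  have h9' : (0.999875 : ℝ) ≤ e := by simpa [e9] using h9
  have he0 : 0 ≤ e := by linarith
  have hW := wdata h9 h1 hn hx0 hg hx1
  have hx46 : 4.6 ≤ x0 := hW.x0_lo
  obtain ⟨z1, J, hz1, hz1i, hz1i2, hz1B, hJ, hinj, hder⟩ := hW.geo
  have hz1n := hW.first_norm hz1 hz1i hz1i2 hz1B
  have hphase := fun h118 hT => hW.first_phase h118 hT hz1 hz1i hz1i2 hz1B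
  have hn' : (100 : ℝ) ≤ n := by exact_mod_cast hn
  have hNc : ((4 * n : ℕ) : ℝ) = 4 * (n : ℝ) := by push_cast; ring
  have hN400 : 400 ≤ 4 * n := by omega
  set N : ℕ := 4 * n with hN
  have hBpos : 0 < 1.06 * Real.sqrt (x0 ^ 2 + 3) := by positivity
  have hB2 : (1.06 * Real.sqrt (x0 ^ 2 + 3)) ^ 2 = 1.1236 * (x0 ^ 2 + 3) := by
    rw [mul_pow, Real.sq_sqrt (by positivity)]; norm_num
  have hx0sq : x0 ^ 2 ≤ 1.9881 * n := by
    have h2 : x0 ^ 2 ≤ (1.41 * Real.sqrt n) ^ 2 := pow_le_pow_left₀ hx0.le hx1 2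
    rw [mul_pow, Real.sq_sqrt (by positivity)] at h2
    norm_num at h2 ⊢
    linarith
  have hBr : Real.sqrt (x0 ^ 2 + 3) < 1.06 * Real.sqrt (x0 ^ 2 + 3) := by
    have : 0 < Real.sqrt (x0 ^ 2 + 3) := by positivity
    linarith
  set B : ℝ := 1.06 * Real.sqrt (x0 ^ 2 + 3) with hB
  have hBn : B ^ 2 ≤ 2.27 * n := by
    rw [hB2]; nlinarith
  have hBN : B ≤ 0.043 * (N : ℝ) := by
    rw [hNc]
    have h3 : B ^ 2 ≤ (0.043 * (4 * (n : ℝ))) ^ 2 := by nlinarith
    exact le_of_sq_le_sq h3 (by positivity)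
  have hβ : 0 < 1 - e ^ 2 := by nlinarith
  -- the equation at `x0`
  have hgx : (1 - e ^ 2) * FR e N x0 = 1 := by rw [← gg_eq]; exact hg
  have hroot : ∀ z : ℂ, aeval z (HN e N) = 0 ↔ FN e N z = -FN e N (x0 : ℂ) := by
    intro z
    have h4 : (((1 - e ^ 2 : ℝ)) : ℂ) * FN e N (x0 : ℂ) = 1 := by
      rw [FN_ofReal]; exact_mod_cast hgx
    have h5 : aeval z (HN e N) = ((1 - e ^ 2 : ℝ) : ℂ) * (FN e N z + FN e N (x0 : ℂ)) := by
      rw [HN_aeval, mul_add, h4]; ring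
    have h6 : ((1 - e ^ 2 : ℝ) : ℂ) ≠ 0 := by exact_mod_cast hβ.ne'
    rw [h5, mul_eq_zero, or_iff_right h6]
    exact ⟨fun h => eq_neg_of_add_eq_zero_left h, fun h => by rw [h]; ring⟩
  have hreal : ∀ z : ℂ, aeval z (HN e N) = 0 → ‖z‖ ≤ B → z.im ≠ 0 := by
    intro z hz hzB him
    have hzr : z = ((z.re : ℝ) : ℂ) := by
      apply Complex.ext <;> simp [him]
    have habs : |z.re| ≤ 0.043 * (N : ℝ) := (Complex.abs_re_le_norm z).trans (hzB.trans hBN)
    have hpos := HN_pos_real he0 h1.le hN400 habs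
    rw [HN_eval] at hpos
    rw [hzr, HN_aeval, FN_ofReal] at hz
    have : ((1 + (1 - e ^ 2) * FR e N z.re : ℝ) : ℂ) = 0 := by
      push_cast; push_cast at hz; exact hz
    have h7 : (1 + (1 - e ^ 2) * FR e N z.re : ℝ) = 0 := by exact_mod_cast this
    linarith
  have hconjroot : ∀ z : ℂ, aeval z (HN e N) = 0 → aeval ((starRingEnd ℂ) z) (HN e N) = 0 := by
    intro z hz
    rw [HN_conj, hz, map_zero]
  have hz1root : aeval z1 (HN e N) = 0 := (hroot z1).2 hz1
  have hnormsq : ∀ z : ℂ, aeval z (HN e N) = 0 → ‖z‖ ≤ B → 0 < z.im → z ≠ z1 →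
      ‖z1‖ < ‖z‖ := by
    intro z hz hzB hzi hne
    have h8 := (hJ z ((hroot z).1 hz) hzi hzB hne)
    have h9 : (2 : ℝ) ≤ J z := by exact_mod_cast h8.1
    have h10 : ‖z1‖ ^ 2 < ‖z‖ ^ 2 := by nlinarith [h8.2]
    exact lt_of_pow_lt_pow_left₀ 2 (norm_nonneg _) h10
  refine ⟨z1, ⟨hz1root, hz1i, ?_, ?_⟩, ?_⟩
  · intro w hw
    by_cases hwB : ‖w‖ ≤ B
    · rcases lt_or_gt_of_ne (hreal w hw hwB) with hlt | hgt
      · -- lower half plane
        by_cases hne : (starRingEnd ℂ) w = z1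
        · right; left
          rw [← hne, Complex.conj_conj]
        · right; right
          have := hnormsq ((starRingEnd ℂ) w) (hconjroot w hw) (by simpa using hwB)
            (by simpa using hlt) hne
          simpa using this
      · by_cases hne : w = z1
        · exact Or.inl hne
        · right; right
          exact hnormsq w hw hwB hgt hne
    · right; right
      push Not at hwB
      have h11 : ‖z1‖ ≤ Real.sqrt (x0 ^ 2 + 3) := Real.le_sqrt_of_sq_le hz1n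
      linarith
  · -- the sum
    have hsum := wsum (R := rts e N) (n := n) (x0 := x0) (B := B) (z1 := z1) (J := J) hn hx46 hB hBn
      (rts_conj e N) ?_ (mem_rts.2 hz1root) hz1i hz1n ?_ ?_ ?_
    · rw [← Sn_eq_sum (by omega) (by omega)] at hsum
      have h12 : ((z1⁻¹) ^ n + (((starRingEnd ℂ) z1)⁻¹) ^ n) = ((2 * ((z1⁻¹) ^ n).re : ℝ) : ℂ) := by
        have h13 : (((starRingEnd ℂ) z1)⁻¹) ^ n = (starRingEnd ℂ) ((z1⁻¹) ^ n) := by
          rw [map_pow, map_inv₀]
        rw [h13, Complex.add_conj]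
      rw [h12, ← Complex.ofReal_sub, Complex.norm_real, Real.norm_eq_abs] at hsum
      exact hsum
    · intro z hz hzB
      have hz0 := mem_rts.1 hz
      have him := hreal z hz0 hzB
      refine ⟨him, ?_⟩
      rcases lt_or_gt_of_ne him with hlt | hgt
      · have hc0 := hconjroot z hz0
        have hcount := count_rts_eq_one (mem_rts.2 hc0) he0 h1
          (hder _ ((hroot _).1 hc0) (by simpa using hlt) (by simpa using hzB))
        have hinjc : Function.Injective (starRingEnd ℂ) := (starRingEnd ℂ).injective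
        have h14 : ((rts e N).map (starRingEnd ℂ)).count ((starRingEnd ℂ) ((starRingEnd ℂ) z)) =
            (rts e N).count ((starRingEnd ℂ) z) :=
          Multiset.count_map_eq_count' _ _ hinjc _
        rw [rts_conj, Complex.conj_conj] at h14
        rw [h14, hcount]
      · exact count_rts_eq_one hz he0 h1 (hder _ ((hroot _).1 hz0) hgt hzB)
    · intro z hz hzi hzB hne
      exact hJ z ((hroot z).1 (mem_rts.1 hz)) hzi hzB hne
    · intro z w hz hzi hzB hw hwi hwB hJJ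
      exact hinj z w ((hroot z).1 (mem_rts.1 hz)) hzi hzB ((hroot w).1 (mem_rts.1 hw)) hwi hwB hJJ
    · have h15 := far_sum (expBound_HN he0 h1.le N) hBpos (n := n) (by omega)
      rw [rts_eq]
      exact h15
  · intro h118
    apply hphase h118
    have hxN : x0 ≤ 0.043 * (N : ℝ) := by
      have h16 : x0 ≤ B := by
        have h17 : x0 ^ 2 ≤ B ^ 2 := by rw [hB2]; nlinarith
        exact le_of_sq_le_sq h17 hBpos.le
      linarith
    have hFR := rest_real_lower h9 h1 hN400 hx46 hxN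
    have hkk := kk_lower h9 h1.le (by linarith : (4.4:ℝ) ≤ x0)
    have hexp : 1 + 2.56 * (x0 - 4.4) ≤ Real.exp (2.56 * (x0 - 4.4)) := by
      have := Real.add_one_le_exp (2.56 * (x0 - 4.4)); linarith
    have hx3 : 0.12 / x0 ^ 3 ≤ 0.002 := by
      rw [div_le_iff₀ (by positivity)]
      have : (4.6:ℝ) ^ 3 ≤ x0 ^ 3 := pow_le_pow_left₀ (by norm_num) hx46 3
      norm_num at this
      nlinarith
    have hβ2 : 1 - e ^ 2 ≤ 0.0003 := by nlinarith
    have hkpos : 0 < kk e x0 := by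
      have : 0 < 2145 * Real.exp (2.56 * (x0 - 4.4)) := by positivity
      linarith
    have hFR2 : 0.99 * (2145 * (1 + 2.56 * (x0 - 4.4))) ≤ FR e N x0 := by
      have h18 : 0.99 ≤ 1 - 0.12 / x0 ^ 3 - 2 * (1 - e ^ 2) := by linarith
      have h19 : kk e x0 * 0.99 ≤ kk e x0 * (1 - 0.12 / x0 ^ 3 - 2 * (1 - e ^ 2)) :=
        mul_le_mul_of_nonneg_left h18 hkpos.le
      have h20 : 2145 * (1 + 2.56 * (x0 - 4.4)) ≤ kk e x0 := by linarith
      linarith
    have h21 : 1000 * x0 ≤ FR e N x0 := by linarith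
    have h22 : (3 - (2 + e)) * x0 ≤ (1 - e ^ 2) * x0 := by
      apply mul_le_mul_of_nonneg_right _ hx0.le
      nlinarith
    have h23 : (1 - e ^ 2) * (1000 * x0) ≤ 1 := by
      exact (mul_le_mul_of_nonneg_left h21 hβ.le).trans hgx.le
    have h24 : (1 - e ^ 2) * (1000 * x0) = 1000 * ((1 - e ^ 2) * x0) := by ring
    rw [h24] at h23
    linarith only [h22, h23]

end RR
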