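import Pool.Agent.Lib.MP_31701c_co.Compact
import Pool.Agent.Lib.MP_31701c_co.WGood

/-!
# RR-FinalZ : the first root for all `e ∈ [0, b]`

For `e ∈ [0, e9]`: `compact` (`N = 4n ≥ 400`). For `e ∈ [e9, b]`: `gg e N 0 = 0` (`gg e N 0 = H_N(0) - 1`),
`gg e N xb ≥ 1`, continuity: some `x0 ∈ (0, xb]` with `gg e N x0 = 1`; `wrange` (`x0 ≤ xb ≤ 1.41√n`, `e ≤ b < 1`). At
`e = b` take `x0 = xb`. Define `z1` by choice, with the value at `b` from the last case.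
-/

set_option autoImplicit false

namespace RR

private theorem finalZ_gg_zero (e : ℝ) (N : ℕ) : gg e N 0 = 0 := by
  unfold gg
  rw [← Polynomial.coeff_zero_eq_eval_zero, HN_coeff, if_pos (Nat.zero_le _), hm_zero]
  simp

theorem exists_z {n : ℕ} (hn : 100 ≤ n) {xb b : ℝ} (hxb : 4.9 ≤ xb)
    (hxb2 : xb ≤ 1.41 * Real.sqrt n) (hb9 : e9 < b) (hb1 : b < 1) (hgb : gg b (4 * n) xb = 1)
    (hle : ∀ e, e9 ≤ e → e ≤ b → 1 ≤ gg e (4 * n) xb) :
    ∃ z1 : ℝ → ℂ, (∀ e, 0 ≤ e → e ≤ b → GoodPair e (4 * n) n (z1 e)) ∧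
      (11.8 ≤ xb → 0 < (z1 b).re ∧ (z1 b).im / (z1 b).re < Real.pi / (3 * xb - 2.2)) := by
  have hxb0 : 0 < xb := by linarith
  obtain ⟨zb, hzb, hph⟩ := wrange hb9.le hb1 hn hxb0 hgb hxb2
  have hall : ∀ e, 0 ≤ e → e ≤ b → ∃ z, GoodPair e (4 * n) n z := by
    intro e h0 h1
    rcases le_total e e9 with h9 | h9
    · exact compact h0 h9 hn (by omega) (by omega)
    · have hc : Continuous fun x : ℝ => gg e (4 * n) x :=
        (continuous_gg (4 * n)).comp (by fun_prop : Continuous fun x : ℝ => (e, x))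
      have hiv := intermediate_value_Icc hxb0.le hc.continuousOn
      have h1m : (1 : ℝ) ∈ Set.Icc (gg e (4 * n) 0) (gg e (4 * n) xb) := by
        rw [finalZ_gg_zero]
        exact ⟨zero_le_one, hle e h9 h1⟩
      obtain ⟨x0, ⟨hx0, hx1⟩, hg⟩ := hiv h1m
      have hg' : gg e (4 * n) x0 = 1 := hg
      have hx0' : 0 < x0 := by
        rcases hx0.eq_or_lt with h | h
        · rw [← h, finalZ_gg_zero] at hg'
          norm_num at hg'
        · exact h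
      obtain ⟨z, hz, -⟩ := wrange h9 (h1.trans_lt hb1) hn hx0' hg' (hx1.trans hxb2)
      exact ⟨z, hz⟩
  have hex : ∀ e : ℝ, ∃ z : ℂ, (0 ≤ e → e ≤ b → GoodPair e (4 * n) n z) ∧ (e = b → z = zb) := by
    intro e
    by_cases he : e = b
    · exact ⟨zb, fun _ _ => he ▸ hzb, fun _ => rfl⟩
    · by_cases h : 0 ≤ e ∧ e ≤ b
      · obtain ⟨z, hz⟩ := hall e h.1 h.2
        exact ⟨z, fun _ _ => hz, fun h' => absurd h' he⟩
      · exact ⟨0, fun h1 h2 => absurd ⟨h1, h2⟩ h, fun h' => absurd h' he⟩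
  choose z1 hz1 using hex
  refine ⟨z1, fun e h0 h1 => (hz1 e).1 h0 h1, fun h118 => ?_⟩
  rw [(hz1 b).2 rfl]
  exact hph h118

end RR
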