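import Pool.Agent.Lib.MP_31701c_co.Defs

/-!
# RR-Phase : points with prescribed phases

`φ` continuous on `[0,b]`, `φ 0 = π/2`, `φ b < (K+1)π/n`. For `K < k`, `2k ≤ n`, i.e.
`(K+1)π/n ≤ kπ/n ≤ π/2`, put `pts k = sInf {e ∈ [0,b] : φ e ≤ kπ/n}`. The set is closed, contains `b`
and for `2k < n` not `0`; by the intermediate value theorem `φ (pts k) = kπ/n` (for `2k = n` we get
`pts k = 0`). The sets increase with `k`, so `pts` is decreasing, strictly because the values of `φ`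
differ.
-/

set_option autoImplicit false

namespace RR

theorem exists_phase_points {φ : ℝ → ℝ} {b : ℝ} (hb : 0 < b) (hφ : ContinuousOn φ (Set.Icc 0 b))
    {n K : ℕ} (hn : 0 < n) (h0 : φ 0 = Real.pi / 2) (hb1 : φ b < (K + 1) * Real.pi / n) :
    ∃ pts : ℕ → ℝ, (∀ k : ℕ, K < k → 2 * k ≤ n → 0 ≤ pts k ∧ pts k < b ∧
        φ (pts k) = k * Real.pi / n) ∧
      (∀ k : ℕ, K < k → 2 * (k + 1) ≤ n → pts (k + 1) < pts k) ∧
      (∀ k : ℕ, K < k → 2 * k < n → 0 < pts k) := by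
  have hn' : (0 : ℝ) < n := by exact_mod_cast hn
  have hpi := Real.pi_pos
  let c : ℕ → ℝ := fun k => k * Real.pi / n
  let A : ℕ → Set ℝ := fun k => Set.Icc 0 b ∩ φ ⁻¹' Set.Iic (c k)
  have hcmono : ∀ j k : ℕ, j < k → c j < c k := by
    intro j k hjk
    have h1 : (j : ℝ) < k := by exact_mod_cast hjk
    show (j : ℝ) * Real.pi / n < k * Real.pi / n
    gcongr
  have hchalf : ∀ k : ℕ, 2 * k ≤ n → c k ≤ Real.pi / 2 := by
    intro k hk
    have h1 : (2 : ℝ) * k ≤ n := by exact_mod_cast hk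
    show (k : ℝ) * Real.pi / n ≤ Real.pi / 2
    rw [div_le_div_iff₀ hn' two_pos]
    nlinarith
  have hchalf' : ∀ k : ℕ, 2 * k < n → c k < Real.pi / 2 := by
    intro k hk
    have h1 : (2 : ℝ) * k < n := by exact_mod_cast hk
    show (k : ℝ) * Real.pi / n < Real.pi / 2
    rw [div_lt_div_iff₀ hn' two_pos]
    nlinarith
  have hbc : ∀ k : ℕ, K < k → φ b < c k := by
    intro k hk
    have h1 : ((K : ℝ) + 1) ≤ k := by exact_mod_cast hk
    refine hb1.trans_le ?_
    show ((K : ℝ) + 1) * Real.pi / n ≤ k * Real.pi / n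
    gcongr
  have hbA : ∀ k : ℕ, K < k → b ∈ A k := fun k hk =>
    ⟨⟨hb.le, le_rfl⟩, (hbc k hk).le⟩
  have hbdd : ∀ k : ℕ, BddBelow (A k) := fun k => ⟨0, fun e he => he.1.1⟩
  have hcl : ∀ k : ℕ, IsClosed (A k) := fun k =>
    hφ.preimage_isClosed_of_isClosed isClosed_Icc isClosed_Iic
  have hmem : ∀ k : ℕ, K < k → sInf (A k) ∈ A k := fun k hk =>
    (hcl k).csInf_mem ⟨b, hbA k hk⟩ (hbdd k)
  have hval : ∀ k : ℕ, K < k → 2 * k ≤ n → φ (sInf (A k)) = c k := by
    intro k hk hkn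
    have hm := hmem k hk
    have hsub : Set.Icc 0 (sInf (A k)) ⊆ Set.Icc 0 b := Set.Icc_subset_Icc_right hm.1.2
    have hiv := intermediate_value_Icc' hm.1.1 (hφ.mono hsub)
    have hc1 : c k ∈ Set.Icc (φ (sInf (A k))) (φ 0) := ⟨hm.2, by rw [h0]; exact hchalf k hkn⟩
    obtain ⟨e, he, hee⟩ := hiv hc1
    have heA : e ∈ A k := ⟨hsub he, hee.le⟩
    have h1 : sInf (A k) ≤ e := csInf_le (hbdd k) heA
    have h2 : e = sInf (A k) := le_antisymm he.2 h1
    rw [← h2, hee]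
  refine ⟨fun k => sInf (A k), ?_, ?_, ?_⟩
  · intro k hk hkn
    refine ⟨(hmem k hk).1.1, ?_, hval k hk hkn⟩
    refine lt_of_le_of_ne (hmem k hk).1.2 ?_
    intro h
    have h' : sInf (A k) = b := h
    have h1 := hval k hk hkn
    have h2 := hbc k hk
    rw [h'] at h1
    exact absurd h1 h2.ne
  · intro k hk hkn
    have hsub : A k ⊆ A (k + 1) := by
      intro e he
      exact ⟨he.1, le_trans he.2 (hcmono k (k + 1) (Nat.lt_succ_self k)).le⟩
    refine lt_of_le_of_ne (csInf_le_csInf (hbdd _) ⟨b, hbA k hk⟩ hsub) ?_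
    intro h
    have h' : sInf (A (k + 1)) = sInf (A k) := h
    have h1 := hval k hk (by omega)
    have h2 := hval (k + 1) (by omega) hkn
    rw [h', h1] at h2
    exact absurd h2 (hcmono k (k + 1) (Nat.lt_succ_self k)).ne
  · intro k hk hkn
    refine lt_of_le_of_ne (hmem k hk).1.1 ?_
    intro h
    have h' : 0 = sInf (A k) := h
    have h1 := hval k hk hkn.le
    rw [← h', h0] at h1
    exact absurd h1 (hchalf' k hkn).ne'

end RR
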