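import Pool.Agent.Lib.MP_31701c_co.Defs

/-!
# RR-Mix : coefficients of powers of mixtures of exponentials, upper bounds

`ρ` a finite measure on `ℝ`, a.e. `0 ≤ t ≤ 3`; `momS ρ = ∑ (∫ t^m dρ) τ^m/m!` (formally `∫ e^{tτ} dρ`).
Define `P_0(a) = a^n`, `P_{j+1}(a) = ∫ P_j(a + t) dρ(t)`; then
`P_j(a) = n! [τ^n] (e^{aτ} (momS ρ)^j) = ∑_{i ≤ n} C(n,i) a^{n-i} i! [τ^i] (momS ρ)^j`
(induction on `j`: binomial theorem under the integral, Cauchy product). For `a ≥ 0`, `r > 0`: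
`a^n ≤ (n/(e r))^n e^{ra}` (`u ≤ e^{u-1}` with `u = ra/n`; for `n = 0` both sides fine), and by induction
`P_j(a) ≤ (n/(er))^n e^{ra} I^j`, `I = ∫ e^{rt} dρ`. `a = 0` gives `mix_upper`.
`mix_diff`: with `D_j(a) = P_j^{(1+2)}(a) - P_j^{(1)}(a)`:
`D_{j+1}(a) = ∫ D_j(a+t) dρ1 + ∫ P_j^{(1+2)}(a+t) dρ2`, so `D_j(a) ≤ (n/(er))^n e^{ra} ((I1+I2)^j - I1^j)`.
`coeff_pow_sub`: if `|a_m - b_m| ≤ c_m`, `0 ≤ b_m`, `0 ≤ c_m` for all `m` then
`|[τ^n](A^j - B^j)| ≤ [τ^n]((B + C)^j - B^j)` (induction on `j`).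
`n` is a natural number, `(n / (exp 1 * r))^n` is `1` for `n = 0`.
-/

set_option autoImplicit false

namespace RR

open MeasureTheory

namespace MixAux

/-- `e^{aτ}` as a formal power series. -/
private noncomputable def E (a : ℝ) : PowerSeries ℝ :=
  PowerSeries.rescale a (PowerSeries.exp ℝ)

private lemma coeff_E (a : ℝ) (m : ℕ) : PowerSeries.coeff m (E a) = a ^ m / (m.factorial : ℝ) := by
  unfold E
  rw [PowerSeries.coeff_rescale, PowerSeries.coeff_exp]
  simp [div_eq_mul_inv]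

private lemma E_add (a b : ℝ) : E (a + b) = E a * E b := by
  unfold E
  rw [PowerSeries.exp_mul_exp_eq_exp_add]

private lemma E_zero : E 0 = 1 := by
  ext m
  rw [coeff_E, PowerSeries.coeff_one]
  by_cases h : m = 0
  · simp [h]
  · simp [h]

private lemma integrable_of_cont (ρ : Measure ℝ) [IsFiniteMeasure ρ]
    (hρ : ∀ᵐ t ∂ρ, 0 ≤ t ∧ t ≤ 3) {f : ℝ → ℝ} (hf : Continuous f) : Integrable f ρ := by
  obtain ⟨C, hC⟩ := (isCompact_Icc (a := (0:ℝ)) (b := 3)).exists_bound_of_continuousOn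
    hf.continuousOn
  refine Integrable.of_bound hf.aestronglyMeasurable C ?_
  filter_upwards [hρ] with t ht
  exact hC t ⟨ht.1, ht.2⟩

private lemma coeff_cont (B : PowerSeries ℝ) (a : ℝ) (n : ℕ) :
    Continuous fun t : ℝ => PowerSeries.coeff n (E (a + t) * B) := by
  simp only [PowerSeries.coeff_mul, coeff_E]
  fun_prop

private lemma coeff_momS_mul (ρ : Measure ℝ) [IsFiniteMeasure ρ]
    (hρ : ∀ᵐ t ∂ρ, 0 ≤ t ∧ t ≤ 3) (B : PowerSeries ℝ) (a : ℝ) (n : ℕ) :
    PowerSeries.coeff n (E a * (momS ρ * B)) =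
      ∫ t, PowerSeries.coeff n (E (a + t) * B) ∂ρ := by
  have h1 : E a * (momS ρ * B) = momS ρ * (E a * B) := by ring
  have h2 : ∀ t : ℝ, E (a + t) * B = E t * (E a * B) := fun t => by
    rw [E_add]; ring
  simp only [h1, h2]
  generalize E a * B = G
  simp only [PowerSeries.coeff_mul, coeff_E]
  rw [integral_finsetSum]
  · refine Finset.sum_congr rfl fun p _ => ?_
    rw [integral_mul_const, integral_div, momS, PowerSeries.coeff_mk]
  · intro p _
    apply integrable_of_cont ρ hρ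
    fun_prop

private lemma base_bound {r : ℝ} (hr : 0 < r) (n : ℕ) {a : ℝ} (ha : 0 ≤ a) :
    a ^ n ≤ (n / (Real.exp 1 * r)) ^ n * Real.exp (r * a) := by
  rcases Nat.eq_zero_or_pos n with hn | hn
  · subst hn
    simp only [pow_zero, one_mul]
    exact Real.one_le_exp (by positivity)
  · have hn' : (0:ℝ) < n := by exact_mod_cast hn
    set u : ℝ := r * a / n with hu
    have hu0 : 0 ≤ u := by positivity
    have hau : a = n / r * u := by
      rw [hu]; field_simp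
    have h1 : u ≤ Real.exp (u - 1) := by
      have := Real.add_one_le_exp (u - 1)
      linarith
    have h2 : u ^ n ≤ Real.exp (u - 1) ^ n := pow_le_pow_left₀ hu0 h1 n
    have h3 : Real.exp (u - 1) ^ n = Real.exp (r * a) * (Real.exp 1)⁻¹ ^ n := by
      rw [← Real.exp_nat_mul, ← Real.exp_neg, ← Real.exp_nat_mul, ← Real.exp_add]
      congr 1
      rw [hu]; field_simp
      ring
    calc a ^ n = (n / r) ^ n * u ^ n := by rw [← mul_pow, ← hau]
      _ ≤ (n / r) ^ n * (Real.exp (r * a) * (Real.exp 1)⁻¹ ^ n) := by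
          rw [← h3]
          exact mul_le_mul_of_nonneg_left h2 (by positivity)
      _ = (n / (Real.exp 1 * r)) ^ n * Real.exp (r * a) := by
          rw [show (n / (Real.exp 1 * r) : ℝ) = n / r * (Real.exp 1)⁻¹ by field_simp, mul_pow]
          ring

private lemma ubound (ρ1 ρ2 : Measure ℝ) [IsFiniteMeasure ρ1] [IsFiniteMeasure ρ2]
    (h1 : ∀ᵐ t ∂ρ1, 0 ≤ t ∧ t ≤ 3) (h2 : ∀ᵐ t ∂ρ2, 0 ≤ t ∧ t ≤ 3) (n : ℕ)
    {r : ℝ} (hr : 0 < r) (j : ℕ) : ∀ a : ℝ, 0 ≤ a →
    (n.factorial : ℝ) * PowerSeries.coeff n (E a * (momS ρ1 + momS ρ2) ^ j) ≤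
      (n / (Real.exp 1 * r)) ^ n * Real.exp (r * a) * ((∫ t, Real.exp (r * t) ∂ρ1) +
        ∫ t, Real.exp (r * t) ∂ρ2) ^ j := by
  induction j with
  | zero =>
    intro a ha
    simp only [pow_zero, mul_one, coeff_E]
    rw [mul_div_cancel₀ _ (by positivity)]
    exact base_bound hr n ha
  | succ j ih =>
    intro a ha
    have hs : ∀ (ρ : Measure ℝ) [IsFiniteMeasure ρ], (∀ᵐ t ∂ρ, 0 ≤ t ∧ t ≤ 3) →
        (n.factorial : ℝ) * PowerSeries.coeff n (E a * (momS ρ * (momS ρ1 + momS ρ2) ^ j)) ≤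
        (n / (Real.exp 1 * r)) ^ n * Real.exp (r * a) * ((∫ t, Real.exp (r * t) ∂ρ1) +
        ∫ t, Real.exp (r * t) ∂ρ2) ^ j * ∫ t, Real.exp (r * t) ∂ρ := by
      intro ρ _ hρ
      rw [coeff_momS_mul ρ hρ, ← integral_const_mul, ← integral_const_mul]
      apply integral_mono_ae
      · apply integrable_of_cont ρ hρ
        exact continuous_const.mul (coeff_cont _ a n)
      · apply integrable_of_cont ρ hρ
        fun_prop
      · filter_upwards [hρ] with t ht
        have := ih (a + t) (by linarith [ht.1])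
        refine this.trans (le_of_eq ?_)
        rw [mul_add, Real.exp_add]
        ring
    have e1 : E a * (momS ρ1 + momS ρ2) ^ (j + 1) =
        E a * (momS ρ1 * (momS ρ1 + momS ρ2) ^ j) + E a * (momS ρ2 * (momS ρ1 + momS ρ2) ^ j) := by
      ring
    rw [e1, map_add, mul_add]
    have t1 := hs ρ1 h1
    have t2 := hs ρ2 h2
    refine (add_le_add t1 t2).trans (le_of_eq ?_)
    ring

private lemma dbound (ρ1 ρ2 : Measure ℝ) [IsFiniteMeasure ρ1] [IsFiniteMeasure ρ2]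
    (h1 : ∀ᵐ t ∂ρ1, 0 ≤ t ∧ t ≤ 3) (h2 : ∀ᵐ t ∂ρ2, 0 ≤ t ∧ t ≤ 3) (n : ℕ)
    {r : ℝ} (hr : 0 < r) (j : ℕ) : ∀ a : ℝ, 0 ≤ a →
    (n.factorial : ℝ) * PowerSeries.coeff n
        (E a * ((momS ρ1 + momS ρ2) ^ j - momS ρ1 ^ j)) ≤
      (n / (Real.exp 1 * r)) ^ n * Real.exp (r * a) * (((∫ t, Real.exp (r * t) ∂ρ1) +
        ∫ t, Real.exp (r * t) ∂ρ2) ^ j - (∫ t, Real.exp (r * t) ∂ρ1) ^ j) := by
  induction j with
  | zero =>
    intro a ha
    simp
  | succ j ih =>
    intro a ha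
    have t1 : (n.factorial : ℝ) * PowerSeries.coeff n
        (E a * (momS ρ1 * ((momS ρ1 + momS ρ2) ^ j - momS ρ1 ^ j))) ≤
        (n / (Real.exp 1 * r)) ^ n * Real.exp (r * a) * (((∫ t, Real.exp (r * t) ∂ρ1) +
        ∫ t, Real.exp (r * t) ∂ρ2) ^ j - (∫ t, Real.exp (r * t) ∂ρ1) ^ j) *
          ∫ t, Real.exp (r * t) ∂ρ1 := by
      rw [coeff_momS_mul ρ1 h1, ← integral_const_mul, ← integral_const_mul]
      apply integral_mono_ae
      · apply integrable_of_cont ρ1 h1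
        exact continuous_const.mul (coeff_cont _ a n)
      · apply integrable_of_cont ρ1 h1
        fun_prop
      · filter_upwards [h1] with t ht
        have := ih (a + t) (by linarith [ht.1])
        refine this.trans (le_of_eq ?_)
        rw [mul_add, Real.exp_add]
        ring
    have t2 : (n.factorial : ℝ) * PowerSeries.coeff n
        (E a * (momS ρ2 * (momS ρ1 + momS ρ2) ^ j)) ≤
        (n / (Real.exp 1 * r)) ^ n * Real.exp (r * a) * ((∫ t, Real.exp (r * t) ∂ρ1) +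
        ∫ t, Real.exp (r * t) ∂ρ2) ^ j * ∫ t, Real.exp (r * t) ∂ρ2 := by
      rw [coeff_momS_mul ρ2 h2, ← integral_const_mul, ← integral_const_mul]
      apply integral_mono_ae
      · apply integrable_of_cont ρ2 h2
        exact continuous_const.mul (coeff_cont _ a n)
      · apply integrable_of_cont ρ2 h2
        fun_prop
      · filter_upwards [h2] with t ht
        have := ubound ρ1 ρ2 h1 h2 n hr j (a + t) (by linarith [ht.1])
        refine this.trans (le_of_eq ?_)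
        rw [mul_add, Real.exp_add]
        ring
    have e1 : E a * ((momS ρ1 + momS ρ2) ^ (j + 1) - momS ρ1 ^ (j + 1)) =
        E a * (momS ρ1 * ((momS ρ1 + momS ρ2) ^ j - momS ρ1 ^ j)) +
          E a * (momS ρ2 * (momS ρ1 + momS ρ2) ^ j) := by
      ring
    rw [e1, map_add, mul_add]
    refine (add_le_add t1 t2).trans (le_of_eq ?_)
    ring

private lemma momS_zero : momS (0 : Measure ℝ) = 0 := by
  ext m
  simp [momS]

end MixAux

open MixAux in
theorem mix_upper (ρ : Measure ℝ) [IsFiniteMeasure ρ] (hρ : ∀ᵐ t ∂ρ, 0 ≤ t ∧ t ≤ 3) (j n : ℕ)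
    {r : ℝ} (hr : 0 < r) :
    (n.factorial : ℝ) * PowerSeries.coeff n (momS ρ ^ j) ≤
      (n / (Real.exp 1 * r)) ^ n * (∫ t, Real.exp (r * t) ∂ρ) ^ j := by
  have h := ubound ρ 0 hρ (by simp) n hr j 0 le_rfl
  rw [E_zero, momS_zero] at h
  simpa using h

open MixAux in
theorem mix_diff (ρ1 ρ2 : Measure ℝ) [IsFiniteMeasure ρ1] [IsFiniteMeasure ρ2]
    (h1 : ∀ᵐ t ∂ρ1, 0 ≤ t ∧ t ≤ 3) (h2 : ∀ᵐ t ∂ρ2, 0 ≤ t ∧ t ≤ 3) (j n : ℕ)
    {r : ℝ} (hr : 0 < r) :
    (n.factorial : ℝ) * PowerSeries.coeff n ((momS ρ1 + momS ρ2) ^ j - momS ρ1 ^ j) ≤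
      (n / (Real.exp 1 * r)) ^ n * (((∫ t, Real.exp (r * t) ∂ρ1) +
        ∫ t, Real.exp (r * t) ∂ρ2) ^ j - (∫ t, Real.exp (r * t) ∂ρ1) ^ j) := by
  have h := dbound ρ1 ρ2 h1 h2 n hr j 0 le_rfl
  rw [E_zero] at h
  simpa using h

private lemma pow_coeff_nonneg {B : PowerSeries ℝ} (hB : ∀ m, 0 ≤ PowerSeries.coeff m B) (j : ℕ) :
    ∀ n, 0 ≤ PowerSeries.coeff n (B ^ j) := by
  induction j with
  | zero =>
    intro n
    rw [pow_zero, PowerSeries.coeff_one]
    split_ifs <;> norm_num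
  | succ j ih =>
    intro n
    rw [pow_succ, PowerSeries.coeff_mul]
    exact Finset.sum_nonneg fun p _ => mul_nonneg (ih _) (hB _)

theorem coeff_pow_sub {A B C : PowerSeries ℝ}
    (h : ∀ m, |PowerSeries.coeff m A - PowerSeries.coeff m B| ≤ PowerSeries.coeff m C)
    (hB : ∀ m, 0 ≤ PowerSeries.coeff m B) (j n : ℕ) :
    |PowerSeries.coeff n (A ^ j) - PowerSeries.coeff n (B ^ j)| ≤
      PowerSeries.coeff n ((B + C) ^ j - B ^ j) := by
  revert n
  induction j with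
  | zero => intro n; simp
  | succ j ih =>
    intro n
    have hA : ∀ m, |PowerSeries.coeff m (A ^ j)| ≤ PowerSeries.coeff m ((B + C) ^ j) := by
      intro m
      have h1 := ih m
      have h2 := pow_coeff_nonneg hB j m
      rw [map_sub] at h1
      have h3 := abs_sub_abs_le_abs_sub (PowerSeries.coeff m (A ^ j)) (PowerSeries.coeff m (B ^ j))
      rw [abs_of_nonneg h2] at h3
      linarith
    have e1 : PowerSeries.coeff n (A ^ (j + 1)) - PowerSeries.coeff n (B ^ (j + 1)) =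
        PowerSeries.coeff n (A ^ j * (A - B)) + PowerSeries.coeff n ((A ^ j - B ^ j) * B) := by
      rw [← map_sub, ← map_add]
      congr 1
      ring
    have e2 : PowerSeries.coeff n ((B + C) ^ (j + 1) - B ^ (j + 1)) =
        PowerSeries.coeff n ((B + C) ^ j * C) +
          PowerSeries.coeff n (((B + C) ^ j - B ^ j) * B) := by
      rw [← map_add]
      congr 1
      ring
    rw [e1, e2]
    refine (abs_add_le _ _).trans (add_le_add ?_ ?_)
    · rw [PowerSeries.coeff_mul, PowerSeries.coeff_mul]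
      refine (Finset.abs_sum_le_sum_abs _ _).trans (Finset.sum_le_sum fun p _ => ?_)
      rw [abs_mul, map_sub]
      exact mul_le_mul (hA _) (h _) (abs_nonneg _) ((abs_nonneg _).trans (hA _))
    · rw [PowerSeries.coeff_mul, PowerSeries.coeff_mul]
      refine (Finset.abs_sum_le_sum_abs _ _).trans (Finset.sum_le_sum fun p _ => ?_)
      rw [abs_mul, abs_of_nonneg (hB _)]
      refine mul_le_mul_of_nonneg_right ?_ (hB _)
      rw [map_sub]
      exact ih _

end RR
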