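import Pool.Agent.Lib.MP_31701c_co.KCoefM
import Pool.Agent.Lib.MP_31701c_co.Mix

/-!
# RR-KCoefU : upper bound for `n! [τ^n] X^j`

`B = momS (nu e)`, `C = momS (rho2 e)`, `|[τ^m] XS - [τ^m] B| ≤ [τ^m] C` (`XS_cmp`), `[τ^m] B ≥ 0`. So
`|coeff n (XS^j)| ≤ |coeff n (XS^j) - coeff n (B^j)| + coeff n (B^j) ≤ coeff n ((B+C)^j)` (`coeff_pow_sub`,
powers of a series with nonnegative coefficients have nonnegative coefficients), `B + C = momS (ρ1 + ρ2)`
(`momS_add`), `mix_upper` with `∫ e^{rt} d(ρ1+ρ2) = kk + ∫ e^{rt} dρ2 ≤ kk (1 + 6.2/r³)` (`nu_exp`,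
`rho2_exp_le`).
-/

set_option autoImplicit false

namespace RR

open MeasureTheory

private theorem pow_coeff_nonneg {B : PowerSeries ℝ} (hB : ∀ m, 0 ≤ PowerSeries.coeff m B) :
    ∀ (j n : ℕ), 0 ≤ PowerSeries.coeff n (B ^ j) := by
  intro j
  induction j with
  | zero =>
    intro n
    rw [pow_zero, PowerSeries.coeff_one]
    split_ifs <;> norm_num
  | succ j ih =>
    intro n
    rw [pow_succ, PowerSeries.coeff_mul]
    exact Finset.sum_nonneg fun p _ => mul_nonneg (ih p.1) (hB p.2)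

private theorem integrable_exp_of_ae (ρ : Measure ℝ) [IsFiniteMeasure ρ]
    (hρ : ∀ᵐ t ∂ρ, 0 ≤ t ∧ t ≤ 3) (r : ℝ) (hr : 0 ≤ r) :
    Integrable (fun t => Real.exp (r * t)) ρ := by
  refine Integrable.of_bound (C := Real.exp (r * 3)) ?_ ?_
  · exact (Real.continuous_exp.comp (continuous_const.mul continuous_id)).aestronglyMeasurable
  · filter_upwards [hρ] with t ht
    rw [Real.norm_eq_abs, abs_of_pos (Real.exp_pos _)]
    exact Real.exp_le_exp.2 (mul_le_mul_of_nonneg_left ht.2 hr)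

theorem coef_upper {e : ℝ} (h9 : e9 ≤ e) (h1 : e < 1) (j n : ℕ) {r : ℝ} (hr : 8 ≤ r)
    (hβ : 1.7 * (1 - e ^ 2) ≤ 0.05 / r ^ 3) :
    |(n.factorial : ℝ) * PowerSeries.coeff n ((XS e) ^ j)| ≤
      (n / (Real.exp 1 * r)) ^ n * (kk e r * (1 + 6.2 / r ^ 3)) ^ j := by
  have hr0 : 0 < r := by linarith
  have hB := momS_nu_nonneg h9 h1
  have hcmp := coeff_pow_sub (A := XS e) (B := momS (nu e)) (C := momS (rho2 e))
    (XS_cmp h9 h1) hB j n
  rw [map_sub, ← momS_add h9 h1] at hcmp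
  have hBj := pow_coeff_nonneg hB j n
  have h2 : |PowerSeries.coeff n ((XS e) ^ j)| ≤
      PowerSeries.coeff n (momS (nu e + rho2 e) ^ j) := by
    have h3 : |PowerSeries.coeff n ((XS e) ^ j)| ≤
        |PowerSeries.coeff n ((XS e) ^ j) - PowerSeries.coeff n (momS (nu e) ^ j)| +
          |PowerSeries.coeff n (momS (nu e) ^ j)| := by
      have := abs_add_le (PowerSeries.coeff n ((XS e) ^ j) - PowerSeries.coeff n (momS (nu e) ^ j))
        (PowerSeries.coeff n (momS (nu e) ^ j))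
      rwa [sub_add_cancel] at this
    rw [abs_of_nonneg hBj] at h3
    linarith
  have hae : ∀ᵐ t ∂(nu e + rho2 e), 0 ≤ t ∧ t ≤ 3 := by
    rw [ae_add_measure_iff]
    exact ⟨nu_ae h9 h1, rho2_ae h9 h1⟩
  have hmix := mix_upper (nu e + rho2 e) hae j n hr0
  have hint : ∫ t, Real.exp (r * t) ∂(nu e + rho2 e) =
      kk e r + ∫ t, Real.exp (r * t) ∂(rho2 e) := by
    rw [integral_add_measure (integrable_exp_of_ae _ (nu_ae h9 h1) r hr0.le)
      (integrable_exp_of_ae _ (rho2_ae h9 h1) r hr0.le), nu_exp]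
  obtain ⟨h4, h5⟩ := rho2_exp_le h9 h1 hr hβ
  have hk : 0 < kk e r := kk_pos e r
  have h6 : (∫ t, Real.exp (r * t) ∂(nu e + rho2 e)) ^ j ≤ (kk e r * (1 + 6.2 / r ^ 3)) ^ j := by
    apply pow_le_pow_left₀
    · rw [hint]; linarith
    · rw [hint, mul_add, mul_one]; linarith
  rw [abs_mul, abs_of_nonneg (by positivity : (0:ℝ) ≤ (n.factorial : ℝ))]
  calc (n.factorial : ℝ) * |PowerSeries.coeff n ((XS e) ^ j)|
      ≤ (n.factorial : ℝ) * PowerSeries.coeff n (momS (nu e + rho2 e) ^ j) :=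
        mul_le_mul_of_nonneg_left h2 (by positivity)
    _ ≤ (n / (Real.exp 1 * r)) ^ n * (∫ t, Real.exp (r * t) ∂(nu e + rho2 e)) ^ j := hmix
    _ ≤ (n / (Real.exp 1 * r)) ^ n * (kk e r * (1 + 6.2 / r ^ 3)) ^ j :=
        mul_le_mul_of_nonneg_left h6 (by positivity)

end RR
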