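import Pool.Agent.Lib.MP_31701c_co.SmallKA
import Pool.Agent.Lib.MP_31701c_co.KCoefU

/-!
# RR-SmallKG : the terms `j > k` for small `k`

`rp = n/(3(k+1)) ≥ 11` (`k = 2`: `n ≥ 100`; `k ≥ 3`: `n ≥ 16k²`), `n/(e rp) = 3(k+1)/e`. `coef_upper` with `r = rp`:
`|T_j| ≤ (3(k+1)/e)^n q^j/j`, where (`SKF.up`) `β kk rp (1 + 6.2/rp³) ≤ q := exp(-(3 - 1.5/(rp-0.9326))(xs-rp) + 6.4/rp³)`,
`xs - rp = n/(3k(k+1)) + 1/4 ≥ 4`, so `q ≤ 1/100`. Sum `≤ (3(k+1)/e)^n q^{k+1}/((k+1)·0.99)`. Ratio to `MM n k`: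
`exp(E)·(k/(k+1))/0.99` with (`3(xs-rp)(k+1) = n/k + 0.75(k+1)`)
`E = n log(1+1/k) - n/k - 0.75 + 0.5 (n/k + 0.75(k+1))/(rp - 0.9326) + 6.4 (k+1)/rp³`.
`log(1+1/k) ≤ 1/k - 1/(2k²) + 1/(3k³)`, so `n log(1+1/k) - n/k ≤ -(n/k²)(1/2 - 1/(3k))`: `≤ -8.3` for `k = 2` (`n ≥ 100`),
`≤ -16·7/18 = -6.22` for `k ≥ 3`. `0.5 (n/k + 0.75(k+1))/(rp - 0.9326) ≤ 2.6` (`2.567` at `k = 2, n = 100`; `2.31` at
`k = 3, n = 144`), `6.4(k+1)/rp³ ≤ 0.03`. So `E ≤ -4.3`, `e^{-4.3}/0.99 ≤ 0.014 ≤ 0.1` (a lot of room; crude bounds are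
fine as long as `E ≤ -2.4`).
-/

set_option autoImplicit false

namespace RR

private theorem skg_log {x : ℝ} (hx : 0 ≤ x) :
    Real.log (1 + x) ≤ x - x ^ 2 / 2 + x ^ 3 / 3 := by
  have hd : ∀ y : ℝ, 0 ≤ y → HasDerivAt (fun y : ℝ => y - y ^ 2 / 2 + y ^ 3 / 3 - Real.log (1 + y))
      (1 - y + y ^ 2 - 1 / (1 + y)) y := by
    intro y hy
    have h1 : HasDerivAt (fun y : ℝ => 1 + y) 1 y := (hasDerivAt_id y).const_add 1
    have h2 := h1.log (by linarith : (1 + y) ≠ 0)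
    have h3 : HasDerivAt (fun y : ℝ => y ^ 2 / 2) y y :=
      ((hasDerivAt_pow 2 y).div_const 2).congr_deriv (by norm_num)
    have h4 : HasDerivAt (fun y : ℝ => y ^ 3 / 3) (y ^ 2) y :=
      ((hasDerivAt_pow 3 y).div_const 3).congr_deriv (by norm_num)
    exact (((hasDerivAt_id y).sub h3).add h4).sub h2
  have hmono : MonotoneOn (fun y : ℝ => y - y ^ 2 / 2 + y ^ 3 / 3 - Real.log (1 + y))
      (Set.Ici 0) := by
    apply monotoneOn_of_deriv_nonneg (convex_Ici 0)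
    · intro y hy
      exact (hd y hy).continuousAt.continuousWithinAt
    · intro y hy
      rw [interior_Ici] at hy
      exact (hd y (le_of_lt hy)).differentiableAt.differentiableWithinAt
    · intro y hy
      rw [interior_Ici] at hy
      have hy0 : 0 < y := hy
      rw [(hd y hy0.le).deriv, sub_nonneg, div_le_iff₀ (by linarith)]
      have : 0 ≤ y ^ 3 := by positivity
      nlinarith
  have h := hmono (Set.mem_Ici.2 le_rfl) (Set.mem_Ici.2 hx) hx
  simp only [add_zero, Real.log_one] at h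
  norm_num at h
  linarith

private theorem skg_r {n k : ℝ} (hn : 100 ≤ n) (hk : k = 2 ∨ 3 ≤ k) (hkn : 16 * k ^ 2 ≤ n) :
    11 ≤ n / (3 * (k + 1)) ∧ (3 ≤ k → 4 * k ≤ n / (3 * (k + 1))) := by
  constructor
  · rcases hk with rfl | hk
    · rw [le_div_iff₀ (by norm_num)]; linarith
    · rw [le_div_iff₀ (by linarith)]; nlinarith
  · intro hk3
    rw [le_div_iff₀ (by linarith)]
    nlinarith

/-- the exponent -/
private theorem skg_E {n k : ℝ} (hn : 100 ≤ n) (hk : k = 2 ∨ 3 ≤ k) (hkn : 16 * k ^ 2 ≤ n)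
    {r : ℝ} (hr : r = n / (3 * (k + 1))) :
    n * Real.log (1 + 1 / k) - n / k - 0.75 +
      0.5 * (n / k + 0.75 * (k + 1)) / (r - 0.9326) + 6.4 * (k + 1) / r ^ 3 ≤ -4 := by
  obtain ⟨hr1, hr2⟩ := skg_r hn hk hkn
  rw [← hr] at hr1 hr2
  have hk0 : 0 < k := by rcases hk with rfl | hk <;> linarith
  have hr0 : 0 < r := by linarith
  have hnr : n = 3 * (k + 1) * r := by rw [hr]; field_simp
  -- the logarithm
  have h1 : n * Real.log (1 + 1 / k) - n / k ≤ -(6.2 : ℝ) := by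
    have h2 := skg_log (x := 1 / k) (by positivity)
    have h3 : n * Real.log (1 + 1 / k) ≤ n * (1 / k - (1 / k) ^ 2 / 2 + (1 / k) ^ 3 / 3) :=
      mul_le_mul_of_nonneg_left h2 (by linarith)
    have h4 : n * (1 / k - (1 / k) ^ 2 / 2 + (1 / k) ^ 3 / 3) - n / k
        = -((n / k ^ 2) * (1 / 2 - 1 / (3 * k))) := by
      field_simp
      ring
    have h5 : 6.2 ≤ (n / k ^ 2) * (1 / 2 - 1 / (3 * k)) := by
      rcases hk with rfl | hk
      · norm_num; linarith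
      · have h6 : 16 ≤ n / k ^ 2 := by rw [le_div_iff₀ (by positivity)]; exact hkn
        have h7 : 1 / (3 * k) ≤ 1 / 9 := by
          apply one_div_le_one_div_of_le (by norm_num); linarith
        have h8 : 16 * (7 / 18) ≤ (n / k ^ 2) * (1 / 2 - 1 / (3 * k)) :=
          mul_le_mul h6 (by linarith) (by norm_num) (by positivity)
        linarith
    linarith
  have h9 : 0.5 * (n / k + 0.75 * (k + 1)) / (r - 0.9326) ≤ 2.6 := by
    rw [div_le_iff₀ (by linarith)]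
    have h10 : n / k = 3 * r * (1 + 1 / k) := by rw [hnr]; field_simp
    rw [h10]
    rcases hk with rfl | hk
    · norm_num; linarith
    · have h11 : 1 / k ≤ 1 / 3 := one_div_le_one_div_of_le (by norm_num) hk
      have h12 : 3 * r * (1 + 1 / k) ≤ 3 * r * (4 / 3) :=
        mul_le_mul_of_nonneg_left (by linarith) (by positivity)
      have := hr2 hk
      linarith
  have h13 : 6.4 * (k + 1) / r ^ 3 ≤ 0.03 := by
    rw [div_le_iff₀ (by positivity)]
    have h14 : (11 : ℝ) ^ 2 ≤ r ^ 2 := pow_le_pow_left₀ (by norm_num) hr1 2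
    have h15 : 11 ^ 2 * r ≤ r ^ 2 * r := mul_le_mul_of_nonneg_right h14 hr0.le
    have h16 : r ^ 3 = r ^ 2 * r := by ring
    rw [h16]
    rcases hk with rfl | hk
    · linarith
    · have := hr2 hk
      linarith
  linarith

theorem tj_gt_sum {e : ℝ} (h9 : e9 ≤ e) (h1 : e < 1) {n k : ℕ} (hn : 100 ≤ n) (hk : 2 ≤ k)
    (hkn : 16 * k ^ 2 ≤ n) {xs : ℝ} (hxs : xs = ((n : ℝ) / k + 3 / 4) / 3) (S : SKF e n k xs) :
    ∑ j ∈ Finset.Ioc k n, |Tj e n j| ≤ 0.1 * MM n k := by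
  have hk2 : (2 : ℝ) ≤ k := by exact_mod_cast hk
  have hk0 : (0 : ℝ) < k := by linarith
  have hnR : (100 : ℝ) ≤ n := by exact_mod_cast hn
  have hn0 : (0 : ℝ) < n := by linarith
  have hkn' : 16 * (k : ℝ) ^ 2 ≤ n := by exact_mod_cast hkn
  have hkc : (k : ℝ) = 2 ∨ 3 ≤ (k : ℝ) := by
    rcases (show k = 2 ∨ 3 ≤ k by omega) with h | h
    · left; rw [h]; norm_num
    · right; exact_mod_cast h
  obtain ⟨r, hr⟩ : ∃ r, r = (n : ℝ) / (3 * (k + 1)) := ⟨_, rfl⟩
  obtain ⟨hr1, hr2⟩ := skg_r hnR hkc hkn'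
  rw [← hr] at hr1 hr2
  have hr0 : 0 < r := by linarith
  have hnr : (n : ℝ) = 3 * (k + 1) * r := by rw [hr]; field_simp
  have hxr : xs - r = n / (3 * k * (k + 1)) + 1 / 4 := by
    rw [hxs, hr]; field_simp; ring
  have hxr4 : 4 ≤ xs - r := by
    rw [hxr]
    have : 15 / 4 ≤ (n : ℝ) / (3 * k * (k + 1)) := by
      rw [le_div_iff₀ (by positivity)]
      rcases hkc with h | h
      · rw [h]; linarith
      · nlinarith
    linarith
  have hrxs : r ≤ xs := by linarith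
  obtain ⟨q, hq⟩ : ∃ q, q = Real.exp (-((3 - 1.5 / (r - 0.9326)) * (xs - r)) + 6.4 / r ^ 3) :=
    ⟨_, rfl⟩
  have hq0 : 0 < q := by rw [hq]; exact Real.exp_pos _
  have hD : 10 ≤ r - 0.9326 := by linarith
  have hq1 : q ≤ 0.01 := by
    have h2 : 1.5 / (r - 0.9326) ≤ 0.15 := by
      rw [div_le_iff₀ (by linarith)]; linarith
    have h3 : 6.4 / r ^ 3 ≤ 0.1 := by
      rw [div_le_iff₀ (by positivity)]
      have : (11 : ℝ) ^ 3 ≤ r ^ 3 := pow_le_pow_left₀ (by norm_num) hr1 3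
      linarith
    have h4 : 2.85 * 4 ≤ (3 - 1.5 / (r - 0.9326)) * (xs - r) :=
      mul_le_mul (by linarith) hxr4 (by norm_num) (by linarith)
    have h5 : q ≤ Real.exp (-5) := by
      rw [hq]; apply Real.exp_le_exp.2; linarith
    have h6 : Real.exp (-5) ≤ 0.01 := by
      have h7 : Real.exp (-5) = (Real.exp 1 ^ 5)⁻¹ := by
        rw [← Real.exp_nat_mul, ← Real.exp_neg]; norm_num
      have h8 : (2.7 : ℝ) ^ 5 ≤ Real.exp 1 ^ 5 :=
        pow_le_pow_left₀ (by norm_num) (by linarith [Real.exp_one_gt_d9]) 5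
      rw [h7]
      calc (Real.exp 1 ^ 5)⁻¹ ≤ ((2.7 : ℝ) ^ 5)⁻¹ := by
            apply inv_anti₀ (by norm_num) h8
        _ ≤ 0.01 := by norm_num
    linarith
  have hup := S.up r (by linarith) hrxs
  rw [← hq] at hup
  have hb := S.b_pos
  have hb3 := S.b3 r hr0 (by linarith)
  obtain ⟨P, hP⟩ : ∃ P, P = (3 * ((k : ℝ) + 1) / Real.exp 1) ^ n := ⟨_, rfl⟩
  have hP0 : 0 < P := by rw [hP]; positivity
  have hkk : 0 ≤ (1 - e ^ 2) * (kk e r * (1 + 6.2 / r ^ 3)) := by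
    have h10 : 0 ≤ kk e r := by
      unfold kk
      exact mul_nonneg (Real.exp_pos _).le (KK_pos 0 r).le
    positivity
  have hT : ∀ j ∈ Finset.Ioc k n, |Tj e n j| ≤ P / (k + 1) * q ^ j := by
    intro j hj
    rw [Finset.mem_Ioc] at hj
    have hj1 : ((k : ℝ) + 1) ≤ j := by exact_mod_cast hj.1
    have hj0 : (0 : ℝ) < j := by linarith
    have hco := coef_upper h9 h1 j n (r := r) (by linarith) hb3
    have hratio : (n : ℝ) / (Real.exp 1 * r) = 3 * (k + 1) / Real.exp 1 := by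
      rw [hnr]
      have := (Real.exp_pos 1).ne'
      field_simp
    rw [hratio, ← hP] at hco
    unfold Tj
    rw [abs_mul, abs_of_nonneg (by positivity : 0 ≤ (1 - e ^ 2) ^ j / (j : ℝ))]
    calc (1 - e ^ 2) ^ j / (j : ℝ) * |(n.factorial : ℝ) * PowerSeries.coeff n ((XS e) ^ j)|
        ≤ (1 - e ^ 2) ^ j / (j : ℝ) * (P * (kk e r * (1 + 6.2 / r ^ 3)) ^ j) :=
          mul_le_mul_of_nonneg_left hco (by positivity)
      _ = P / j * ((1 - e ^ 2) * (kk e r * (1 + 6.2 / r ^ 3))) ^ j := by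
          rw [mul_pow (1 - e ^ 2)]; ring
      _ ≤ P / (k + 1) * q ^ j := by
          apply mul_le_mul
          · exact div_le_div_of_nonneg_left hP0.le (by positivity) hj1
          · exact pow_le_pow_left₀ hkk hup j
          · positivity
          · positivity
  have hgeo : ∑ j ∈ Finset.Ioc k n, q ^ j ≤ 1.02 * q ^ (k + 1) := by
    have h2 : ∑ j ∈ Finset.Ioc k n, q ^ j ≤ q ^ (k + 1) / (1 - q) := by
      have h3 : Finset.Ioc k n = Finset.Ico (k + 1) (n + 1) := by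
        ext j; rw [Finset.mem_Ioc, Finset.mem_Ico]; omega
      rw [h3, Finset.sum_Ico_eq_sum_range]
      simp_rw [pow_add q (k + 1)]
      rw [← Finset.mul_sum]
      have h4 : ∑ i ∈ Finset.range (n + 1 - (k + 1)), q ^ i ≤ 1 / (1 - q) := by
        have h5 := Summable.sum_le_tsum (f := fun i : ℕ => q ^ i)
          (Finset.range (n + 1 - (k + 1))) (fun i _ => by positivity)
          (summable_geometric_of_lt_one hq0.le (by linarith))
        rw [tsum_geometric_of_lt_one hq0.le (by linarith)] at h5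
        rw [one_div]; exact h5
      calc q ^ (k + 1) * ∑ i ∈ Finset.range (n + 1 - (k + 1)), q ^ i
          ≤ q ^ (k + 1) * (1 / (1 - q)) := mul_le_mul_of_nonneg_left h4 (by positivity)
        _ = q ^ (k + 1) / (1 - q) := by ring
    refine h2.trans ?_
    rw [div_le_iff₀ (by linarith)]
    have h3 : 0 < q ^ (k + 1) := by positivity
    nlinarith
  -- the final comparison
  have hE := skg_E hnR hkc hkn' hr
  have hfin : P * (1.02 * q ^ (k + 1)) ≤ 0.1 * ((3 * (k : ℝ) / Real.exp 1) ^ n *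
      Real.exp (-(0.75 * k))) := by
    have hA : P = (3 * (k : ℝ) / Real.exp 1) ^ n * Real.exp (n * Real.log (1 + 1 / k)) := by
      have h2 : Real.exp (n * Real.log (1 + 1 / (k : ℝ))) = (1 + 1 / (k : ℝ)) ^ n := by
        rw [Real.exp_nat_mul, Real.exp_log (by positivity)]
      rw [h2, ← mul_pow, hP]
      congr 1
      field_simp
    have hq' : q ^ (k + 1) = Real.exp (((k : ℝ) + 1) *
        (-((3 - 1.5 / (r - 0.9326)) * (xs - r)) + 6.4 / r ^ 3)) := by
      rw [hq, ← Real.exp_nat_mul]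
      push_cast
      rfl
    obtain ⟨G, hG⟩ : ∃ G, G = (3 * (k : ℝ) / Real.exp 1) ^ n := ⟨_, rfl⟩
    have hG0 : 0 < G := by rw [hG]; positivity
    rw [hA, hq', ← hG]
    have h3 : Real.exp (n * Real.log (1 + 1 / (k : ℝ))) * Real.exp (((k : ℝ) + 1) *
        (-((3 - 1.5 / (r - 0.9326)) * (xs - r)) + 6.4 / r ^ 3)) ≤
        Real.exp (-4) * Real.exp (-(0.75 * k)) := by
      rw [← Real.exp_add, ← Real.exp_add]
      apply Real.exp_le_exp.2
      have h4 : ((k : ℝ) + 1) * (-((3 - 1.5 / (r - 0.9326)) * (xs - r)) + 6.4 / r ^ 3)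
          = -(n / k + 0.75 * (k + 1)) + 0.5 * (n / k + 0.75 * (k + 1)) / (r - 0.9326)
            + 6.4 * (k + 1) / r ^ 3 := by
        rw [hxr]
        have hD0 : r - 0.9326 ≠ 0 := by linarith
        field_simp
        ring
      rw [h4]
      linarith
    have h5 : Real.exp (-4) ≤ 0.09 := by
      have h7 : Real.exp (-4) = (Real.exp 1 ^ 4)⁻¹ := by
        rw [← Real.exp_nat_mul, ← Real.exp_neg]; norm_num
      have h8 : (2.7 : ℝ) ^ 4 ≤ Real.exp 1 ^ 4 :=
        pow_le_pow_left₀ (by norm_num) (by linarith [Real.exp_one_gt_d9]) 4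
      rw [h7]
      calc (Real.exp 1 ^ 4)⁻¹ ≤ ((2.7 : ℝ) ^ 4)⁻¹ := by
            apply inv_anti₀ (by norm_num) h8
        _ ≤ 0.09 := by norm_num
    have h6 : 0 < Real.exp (-(0.75 * (k : ℝ))) := Real.exp_pos _
    calc G * Real.exp (n * Real.log (1 + 1 / (k : ℝ))) * (1.02 * Real.exp (((k : ℝ) + 1) *
          (-((3 - 1.5 / (r - 0.9326)) * (xs - r)) + 6.4 / r ^ 3)))
        = 1.02 * G * (Real.exp (n * Real.log (1 + 1 / (k : ℝ))) * Real.exp (((k : ℝ) + 1) *
          (-((3 - 1.5 / (r - 0.9326)) * (xs - r)) + 6.4 / r ^ 3))) := by ring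
      _ ≤ 1.02 * G * (Real.exp (-4) * Real.exp (-(0.75 * k))) :=
          mul_le_mul_of_nonneg_left h3 (by positivity)
      _ ≤ 1.02 * G * (0.09 * Real.exp (-(0.75 * k))) :=
          mul_le_mul_of_nonneg_left (mul_le_mul_of_nonneg_right h5 h6.le) (by positivity)
      _ ≤ 0.1 * (G * Real.exp (-(0.75 * k))) := by
          have : 0 < G * Real.exp (-(0.75 * (k : ℝ))) := by positivity
          linarith
  calc ∑ j ∈ Finset.Ioc k n, |Tj e n j| ≤ ∑ j ∈ Finset.Ioc k n, P / (k + 1) * q ^ j :=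
        Finset.sum_le_sum hT
    _ = P / (k + 1) * ∑ j ∈ Finset.Ioc k n, q ^ j := by rw [Finset.mul_sum]
    _ ≤ P / (k + 1) * (1.02 * q ^ (k + 1)) := mul_le_mul_of_nonneg_left hgeo (by positivity)
    _ = P * (1.02 * q ^ (k + 1)) / (k + 1) := by ring
    _ ≤ P * (1.02 * q ^ (k + 1)) / k :=
        div_le_div_of_nonneg_left (by positivity) hk0 (by linarith)
    _ ≤ 0.1 * ((3 * (k : ℝ) / Real.exp 1) ^ n * Real.exp (-(0.75 * k))) / k :=
        div_le_div_of_nonneg_right hfin hk0.le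
    _ = 0.1 * MM n k := by unfold MM; ring

end RR
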