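import Pool.Agent.Lib.MP_31701c_co.Defs

/-!
# RR-MixLow : coefficients of powers of mixtures of exponentials, a lower bound

Notation of RR-Mix; `k ≥ 1`, `n ≥ 1`, `r = n/(3k)`, `I = ∫ e^{rt} dρ > 0`, tilted mean of `3 - t`:
`m1 = ∫ (3-t) e^{rt} dρ / I`, second moment `m2 = ∫ (3-t)² e^{rt} dρ / I`.
For `0 ≤ s ≤ 3k`, `u = 1 - s/(3k) ∈ [0,1]`: `s^n = (3k)^n (1-u)^n ≥ (3k)^n e^{-nu} (1 - n u²)`
(`(1-u) e^u ≥ 1 - u²`, Bernoulli), `(3k)^n e^{-nu} = (n/(e r))^n e^{rs}`.
With `P_0(a) = a^n`, `P_{j+1}(a) = ∫ P_j(a+t) dρ` show by induction on `j ≤ k` for `0 ≤ a ≤ 3(k-j)`: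
`P_j(a) ≥ (n/(er))^n e^{ra} I^j (1 - n (((c + j m1)/(3k))² + j (m2 - m1²)/(9k²)))`, where
`c = 3(k - j) - a` (the sum of the `3 - t_i` over the `j` variables plus `c`, divided by `3k`, is `u`;
second moment of a sum of independent variables). For `j = k`, `a = 0`, `c = 0`:
`≥ (n/(er))^n I^k (1 - n (m1² + (m2 - m1²)/k)/9)`.
-/

set_option autoImplicit false

namespace RR

open MeasureTheory

namespace MixLowAux

/-- `e^{aτ}` as a formal power series. -/
private noncomputable def E (a : ℝ) : PowerSeries ℝ :=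
  PowerSeries.rescale a (PowerSeries.exp ℝ)

private lemma coeff_E (a : ℝ) (m : ℕ) : PowerSeries.coeff m (E a) = a ^ m / (m.factorial : ℝ) := by
  unfold E
  rw [PowerSeries.coeff_rescale, PowerSeries.coeff_exp]
  simp [div_eq_mul_inv]

private lemma E_add (a b : ℝ) : E (a + b) = E a * E b := by
  unfold E
  rw [PowerSeries.exp_mul_exp_eq_exp_add]

private lemma E_zero : E 0 = 1 := by
  ext m
  rw [coeff_E, PowerSeries.coeff_one]
  by_cases h : m = 0
  · simp [h]
  · simp [h]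

private lemma integrable_of_cont (ρ : Measure ℝ) [IsFiniteMeasure ρ]
    (hρ : ∀ᵐ t ∂ρ, 0 ≤ t ∧ t ≤ 3) {f : ℝ → ℝ} (hf : Continuous f) : Integrable f ρ := by
  obtain ⟨C, hC⟩ := (isCompact_Icc (a := (0:ℝ)) (b := 3)).exists_bound_of_continuousOn
    hf.continuousOn
  refine Integrable.of_bound hf.aestronglyMeasurable C ?_
  filter_upwards [hρ] with t ht
  exact hC t ⟨ht.1, ht.2⟩

private lemma coeff_cont (B : PowerSeries ℝ) (a : ℝ) (n : ℕ) :
    Continuous fun t : ℝ => PowerSeries.coeff n (E (a + t) * B) := by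
  simp only [PowerSeries.coeff_mul, coeff_E]
  fun_prop

private lemma coeff_momS_mul (ρ : Measure ℝ) [IsFiniteMeasure ρ]
    (hρ : ∀ᵐ t ∂ρ, 0 ≤ t ∧ t ≤ 3) (B : PowerSeries ℝ) (a : ℝ) (n : ℕ) :
    PowerSeries.coeff n (E a * (momS ρ * B)) =
      ∫ t, PowerSeries.coeff n (E (a + t) * B) ∂ρ := by
  have h1 : E a * (momS ρ * B) = momS ρ * (E a * B) := by ring
  have h2 : ∀ t : ℝ, E (a + t) * B = E t * (E a * B) := fun t => by
    rw [E_add]; ring
  simp only [h1, h2]
  generalize E a * B = G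
  simp only [PowerSeries.coeff_mul, coeff_E]
  rw [integral_finsetSum]
  · refine Finset.sum_congr rfl fun p _ => ?_
    rw [integral_mul_const, integral_div, momS, PowerSeries.coeff_mk]
  · intro p _
    apply integrable_of_cont ρ hρ
    fun_prop

/-- `(1-u)^n ≥ e^{-nu}(1 - n u²)` for `0 ≤ u ≤ 1`. -/
private lemma one_sub_pow {u : ℝ} (h0 : 0 ≤ u) (h1 : u ≤ 1) (n : ℕ) :
    Real.exp (-(n * u)) * (1 - n * u ^ 2) ≤ (1 - u) ^ n := by
  have e1 : 1 - u ^ 2 ≤ (1 - u) * Real.exp u := by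
    have := Real.add_one_le_exp u
    nlinarith
  have e2 : 1 + (n : ℝ) * (-(u ^ 2)) ≤ (1 + (-(u ^ 2))) ^ n :=
    one_add_mul_le_pow (by nlinarith) n
  have e3 : (1 + (-(u ^ 2))) ^ n ≤ ((1 - u) * Real.exp u) ^ n := by
    apply pow_le_pow_left₀
    · nlinarith
    · linarith
  have e4 : 1 - n * u ^ 2 ≤ (1 - u) ^ n * Real.exp (n * u) := by
    have : ((1 - u) * Real.exp u) ^ n = (1 - u) ^ n * Real.exp (n * u) := by
      rw [mul_pow, ← Real.exp_nat_mul]
    rw [← this]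
    linarith
  calc Real.exp (-(n * u)) * (1 - n * u ^ 2)
      ≤ Real.exp (-(n * u)) * ((1 - u) ^ n * Real.exp (n * u)) :=
        mul_le_mul_of_nonneg_left e4 (Real.exp_pos _).le
    _ = (1 - u) ^ n * (Real.exp (-(n * u)) * Real.exp (n * u)) := by ring
    _ = (1 - u) ^ n := by rw [← Real.exp_add]; simp

private lemma base_bound {k n : ℕ} (hk : 1 ≤ k) (hn : 1 ≤ n) {r : ℝ} (hr : r = n / (3 * k))
    {a : ℝ} (ha : 0 ≤ a) (ha3 : a ≤ 3 * k) :
    (n / (Real.exp 1 * r)) ^ n * Real.exp (r * a) * (1 - n * ((3 * k - a) / (3 * k)) ^ 2) ≤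
      a ^ n := by
  have hk' : (0:ℝ) < k := by exact_mod_cast hk
  have hn' : (0:ℝ) < n := by exact_mod_cast hn
  set u : ℝ := (3 * k - a) / (3 * k) with hu
  have hu0 : 0 ≤ u := div_nonneg (by linarith) (by positivity)
  have hu1 : u ≤ 1 := by
    rw [hu, div_le_one (by positivity)]; linarith
  have hau : a = 3 * k * (1 - u) := by
    rw [hu]; field_simp; ring
  have hmain := one_sub_pow hu0 hu1 n
  have e1 : (n / (Real.exp 1 * r)) ^ n * Real.exp (r * a) = (3 * k) ^ n * Real.exp (-(n * u)) := by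
    have h1 : (n / (Real.exp 1 * r) : ℝ) = 3 * k * (Real.exp 1)⁻¹ := by
      rw [hr]; field_simp
    have h2 : r * a = n + (-(n * u)) := by
      rw [hr, hau]; field_simp; ring
    have h3 : (Real.exp 1)⁻¹ ^ n * Real.exp n = 1 := by
      rw [inv_pow, ← Real.exp_nat_mul, mul_one]
      exact inv_mul_cancel₀ (Real.exp_pos _).ne'
    rw [h1, h2, mul_pow, Real.exp_add]
    calc _ = (3 * (k:ℝ)) ^ n * Real.exp (-(n * u)) * ((Real.exp 1)⁻¹ ^ n * Real.exp n) := by ring
      _ = _ := by rw [h3, mul_one]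
  rw [e1]
  calc (3 * (k:ℝ)) ^ n * Real.exp (-(n * u)) * (1 - n * u ^ 2)
      = (3 * (k:ℝ)) ^ n * (Real.exp (-(n * u)) * (1 - n * u ^ 2)) := by ring
    _ ≤ (3 * (k:ℝ)) ^ n * (1 - u) ^ n := mul_le_mul_of_nonneg_left hmain (by positivity)
    _ = a ^ n := by rw [← mul_pow, ← hau]

end MixLowAux

open MixLowAux in
theorem mix_lower (ρ : Measure ℝ) [IsFiniteMeasure ρ] (hρ : ∀ᵐ t ∂ρ, 0 ≤ t ∧ t ≤ 3) {k n : ℕ}
    (hk : 1 ≤ k) (hn : 1 ≤ n) {r : ℝ} (hr : r = n / (3 * k)) {I m1 m2 : ℝ}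
    (hI : I = ∫ t, Real.exp (r * t) ∂ρ) (hI0 : 0 < I)
    (h1 : m1 = (∫ t, (3 - t) * Real.exp (r * t) ∂ρ) / I)
    (h2 : m2 = (∫ t, (3 - t) ^ 2 * Real.exp (r * t) ∂ρ) / I) :
    (n / (Real.exp 1 * r)) ^ n * I ^ k * (1 - n * (m1 ^ 2 + (m2 - m1 ^ 2) / k) / 9) ≤
      (n.factorial : ℝ) * PowerSeries.coeff n (momS ρ ^ k) := by
  have hk' : (0:ℝ) < k := by exact_mod_cast hk
  have h1' : ∫ t, (3 - t) * Real.exp (r * t) ∂ρ = I * m1 := by
    rw [h1, mul_div_cancel₀ _ hI0.ne']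
  have h2' : ∫ t, (3 - t) ^ 2 * Real.exp (r * t) ∂ρ = I * m2 := by
    rw [h2, mul_div_cancel₀ _ hI0.ne']
  have i0 : Integrable (fun t => Real.exp (r * t)) ρ :=
    integrable_of_cont ρ hρ (by fun_prop)
  have i1 : Integrable (fun t => (3 - t) * Real.exp (r * t)) ρ :=
    integrable_of_cont ρ hρ (by fun_prop)
  have i2 : Integrable (fun t => (3 - t) ^ 2 * Real.exp (r * t)) ρ :=
    integrable_of_cont ρ hρ (by fun_prop)
  have key : ∀ j : ℕ, j ≤ k → ∀ a : ℝ, 0 ≤ a → a ≤ 3 * (k - j) →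
      (n / (Real.exp 1 * r)) ^ n * Real.exp (r * a) * I ^ j *
        (1 - n * (((3 * (k - j) - a + j * m1) / (3 * k)) ^ 2 + j * (m2 - m1 ^ 2) / (9 * k ^ 2))) ≤
      (n.factorial : ℝ) * PowerSeries.coeff n (E a * momS ρ ^ j) := by
    intro j
    induction j with
    | zero =>
      intro _ a ha ha3
      have hb := base_bound hk hn hr ha (by simpa using ha3)
      simp only [pow_zero, mul_one, coeff_E, Nat.cast_zero, sub_zero, zero_mul, add_zero, zero_div]
      rw [mul_div_cancel₀ _ (by positivity)]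
      exact hb
    | succ j ih =>
      intro hj a ha ha3
      push_cast at ha3
      have hjk : ((j:ℝ) + 1) ≤ k := by exact_mod_cast hj
      rw [pow_succ' (momS ρ), coeff_momS_mul ρ hρ, ← integral_const_mul]
      set K : ℝ := (n / (Real.exp 1 * r)) ^ n with hK
      have hcalc : K * Real.exp (r * a) * I ^ (j + 1) *
          (1 - n * (((3 * (k - ((j + 1 : ℕ) : ℝ)) - a + ((j + 1 : ℕ) : ℝ) * m1) / (3 * k)) ^ 2 +
            ((j + 1 : ℕ) : ℝ) * (m2 - m1 ^ 2) / (9 * k ^ 2))) =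
          ∫ t, (K * Real.exp (r * a) * I ^ j) *
            ((1 - n * (((3 * (k - ((j:ℝ) + 1)) - a + j * m1) / (3 * k)) ^ 2 +
              j * (m2 - m1 ^ 2) / (9 * k ^ 2))) * Real.exp (r * t) -
             (n * (2 * (3 * (k - ((j:ℝ) + 1)) - a + j * m1) / (9 * k ^ 2))) *
              ((3 - t) * Real.exp (r * t)) -
             (n * (1 / (9 * k ^ 2))) * ((3 - t) ^ 2 * Real.exp (r * t))) ∂ρ := by
        rw [integral_const_mul, integral_sub, integral_sub, integral_const_mul,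
          integral_const_mul, integral_const_mul, h1', h2', ← hI]
        · push_cast
          field_simp
          ring
        · exact i0.const_mul _
        · exact i1.const_mul _
        · exact (i0.const_mul _).sub (i1.const_mul _)
        · exact i2.const_mul _
      rw [hcalc]
      apply integral_mono_ae
      · apply integrable_of_cont ρ hρ
        fun_prop
      · apply integrable_of_cont ρ hρ
        exact continuous_const.mul (coeff_cont _ a n)
      · filter_upwards [hρ] with t ht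
        have := ih (by omega) (a + t) (by linarith [ht.1]) (by linarith [ht.2])
        refine le_trans (le_of_eq ?_) this
        have hexp : Real.exp (r * (a + t)) = Real.exp (r * a) * Real.exp (r * t) := by
          rw [mul_add, Real.exp_add]
        rw [hexp]
        field_simp
        ring
  have hfin := key k le_rfl 0 le_rfl (by simp)
  rw [E_zero] at hfin
  simp only [mul_zero, Real.exp_zero, mul_one, sub_self, zero_add, one_mul] at hfin
  refine le_trans (le_of_eq ?_) hfin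
  congr 1
  field_simp
  ring

end RR
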