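import Pool.Agent.Lib.MP_31701c_co.KCoefM
import Pool.Agent.Lib.MP_31701c_co.Mix
import Pool.Agent.Lib.MP_31701c_co.MixLow

/-!
# RR-KCoefL : lower bound for `n! [τ^n] X^k`

`16 k² ≤ n`, `k ≥ 2`, `n ≥ 100`, `r = n/(3k) ≥ (4/3)√n ≥ 13.3`, `B = momS (nu e)`, `C = momS (rho2 e)`.
`coeff n (XS^k) ≥ coeff n (B^k) - coeff n ((B+C)^k - B^k)` (`coeff_pow_sub` with `XS_cmp`).
`mix_lower` with `I = kk e r`, `m1 = (1-e) + mm r`, `m2 - m1² = VV r` (`nu_exp`, `nu_m1`, `nu_m2`):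
`n (m1² + VV/k)/9 ≤ 0.225`: `r - 0.9326 ≥ 1.24 √n`, `r - 1.6 ≥ 1.173 √n`, so `mm r ≤ 1.5/(1.24 √n)`,
`VV r ≤ 1.5/(1.24·1.173 n)`, `k ≥ 2`: `0.1626 + 0.0574`, and `n (1 - e) ≤ n β ≤ 1e-6` is negligible.
`mix_diff`: with `I1 = kk e r`, `0 ≤ I2 ≤ kk 6.2/r³` (`rho2_exp_le`):
`(I1+I2)^k - I1^k ≤ kk^k ((1 + 6.2/r³)^k - 1) ≤ 0.02 kk^k` (`k·6.2/r³ ≤ (√n/4)·6.2/(2.37 n^{1.5}) ≤ 0.0066`).
So the total is `≥ (1 - 0.225 - 0.02) (n/(er))^n kk^k ≥ 0.75 (n/(er))^n kk^k`.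
-/

set_option autoImplicit false

namespace RR

private lemma one_add_pow_le {x : ℝ} (hx : 0 ≤ x) {k : ℕ} (hkx : k * x ≤ 0.0066) :
    (1 + x) ^ k ≤ 1.02 := by
  have h1 : (1 + x) ^ k ≤ Real.exp (k * x) := by
    rw [Real.exp_nat_mul]
    apply pow_le_pow_left₀ (by linarith)
    have := Real.add_one_le_exp x
    linarith
  have h2 : Real.exp (k * x) ≤ Real.exp 0.0066 := Real.exp_le_exp.mpr hkx
  have h3 : Real.exp (0.0066 : ℝ) ≤ 1.02 := by
    have := Real.exp_bound_div_one_sub_of_interval (x := (0.0066:ℝ)) (by norm_num) (by norm_num)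
    refine this.trans ?_
    norm_num
  linarith

theorem coef_lower {e : ℝ} (h9 : e9 ≤ e) (h1 : e < 1) {k n : ℕ} (hn : 100 ≤ n) (hk : 2 ≤ k)
    (hkn : 16 * k ^ 2 ≤ n) {r : ℝ} (hr : r = n / (3 * k))
    (hβ : 1.7 * (1 - e ^ 2) ≤ 0.05 / r ^ 3) (hβn : n * (1 - e ^ 2) ≤ 1e-6) :
    0.75 * ((n / (Real.exp 1 * r)) ^ n * kk e r ^ k) ≤
      (n.factorial : ℝ) * PowerSeries.coeff n ((XS e) ^ k) := by
  have hn' : (100:ℝ) ≤ n := by exact_mod_cast hn
  have hk' : (2:ℝ) ≤ k := by exact_mod_cast hk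
  have hkn' : 16 * (k:ℝ) ^ 2 ≤ n := by exact_mod_cast hkn
  have he0 : 0 < e := by
    have : (0:ℝ) < e9 := by unfold e9; norm_num
    linarith
  set s : ℝ := Real.sqrt n with hs
  have hs2 : s ^ 2 = n := Real.sq_sqrt (by linarith)
  have hs10 : 10 ≤ s := by
    rw [hs]
    apply Real.le_sqrt_of_sq_le
    norm_num
    linarith
  have hks : 4 * (k:ℝ) ≤ s := by
    apply Real.le_sqrt_of_sq_le
    nlinarith
  have hrs : 4 / 3 * s ≤ r := by
    rw [hr, le_div_iff₀ (by positivity)]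
    rw [← hs2]
    nlinarith
  have hr8 : 8 ≤ r := by linarith
  have hr0 : 0 < r := by linarith
  -- the mean and the variance
  have hm : mm r * s ≤ 1.2097 := by
    have h2 := mm_le (x := r) (by linarith)
    have h3 : 1.24 * s ≤ r - 0.9326 := by linarith
    have h4 : 1.5 / (r - 0.9326) ≤ 1.5 / (1.24 * s) :=
      div_le_div_of_nonneg_left (by norm_num) (by positivity) h3
    have h5 : mm r ≤ 1.5 / (1.24 * s) := h2.trans h4
    calc mm r * s ≤ 1.5 / (1.24 * s) * s := mul_le_mul_of_nonneg_right h5 (by linarith)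
      _ = 1.5 / 1.24 := by field_simp
      _ ≤ 1.2097 := by norm_num
  have hV : VV r * n ≤ 1.0313 := by
    have h2 := VV_le (x := r) (by linarith)
    have h3 : 1.24 * s ≤ r - 0.9326 := by linarith
    have h4 : 1.173 * s ≤ r - 1.6 := by linarith
    have h5 : (1.24 * s) * (1.173 * s) ≤ (r - 0.9326) * (r - 1.6) :=
      mul_le_mul h3 h4 (by positivity) (by linarith)
    have h6 : 1.5 / ((r - 0.9326) * (r - 1.6)) ≤ 1.5 / ((1.24 * s) * (1.173 * s)) :=
      div_le_div_of_nonneg_left (by norm_num) (by positivity) h5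
    have h7 : VV r ≤ 1.5 / ((1.24 * s) * (1.173 * s)) := h2.trans h6
    calc VV r * n ≤ 1.5 / ((1.24 * s) * (1.173 * s)) * n :=
          mul_le_mul_of_nonneg_right h7 (by linarith)
      _ = 1.5 / (1.24 * 1.173) := by rw [← hs2]; field_simp
      _ ≤ 1.0313 := by norm_num
  have hm0 : 0 ≤ mm r := mm_nonneg r
  have hV0 : 0 ≤ VV r := VV_nonneg r
  have h1e : (1 - e) * s ≤ 1e-6 := by
    have h2 : s ≤ n := by nlinarith
    have h3 : 1 - e ≤ 1 - e ^ 2 := by nlinarith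
    have h4 : 0 ≤ 1 - e := by linarith
    calc (1 - e) * s ≤ (1 - e ^ 2) * n := mul_le_mul h3 h2 (by linarith) (by linarith)
      _ ≤ 1e-6 := by linarith
  have hm1 : ((1 - e) + mm r) * s ≤ 1.2098 := by
    have : ((1 - e) + mm r) * s = (1 - e) * s + mm r * s := by ring
    rw [this]
    norm_num at h1e hm ⊢
    linarith
  have hm1' : n * ((1 - e) + mm r) ^ 2 ≤ 1.4637 := by
    have h2 : n * ((1 - e) + mm r) ^ 2 = (((1 - e) + mm r) * s) ^ 2 := by
      rw [mul_pow, hs2]; ring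
    rw [h2]
    have h3 : 0 ≤ ((1 - e) + mm r) * s := mul_nonneg (by linarith) (by linarith)
    calc (((1 - e) + mm r) * s) ^ 2 ≤ 1.2098 ^ 2 := pow_le_pow_left₀ h3 hm1 2
      _ ≤ 1.4637 := by norm_num
  have hVk : n * (VV r / k) ≤ 0.51565 := by
    have h2 : VV r / k ≤ VV r / 2 := div_le_div_of_nonneg_left hV0 (by norm_num) hk'
    calc n * (VV r / k) ≤ n * (VV r / 2) := mul_le_mul_of_nonneg_left h2 (by linarith)
      _ = VV r * n / 2 := by ring
      _ ≤ 1.0313 / 2 := by linarith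
      _ = 0.51565 := by norm_num
  have hI0 : 0 < kk e r := by
    rw [kk]
    exact mul_pos (Real.exp_pos _) (KK_pos 0 r)
  set K : ℝ := (n / (Real.exp 1 * r)) ^ n with hK
  have hK0 : 0 ≤ K := by positivity
  -- lower bound for `B^k`
  have hlow := mix_lower (nu e) (nu_ae h9 h1) (k := k) (n := n) (by omega) (by omega) hr
    (I := kk e r) (m1 := (1 - e) + mm r) (m2 := ((1 - e) + mm r) ^ 2 + VV r)
    (nu_exp e r).symm hI0 (nu_m1 e r).symm (nu_m2 e r).symm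
  rw [← hK] at hlow
  have hlow2 : K * kk e r ^ k * 0.78 ≤
      (n.factorial : ℝ) * PowerSeries.coeff n (momS (nu e) ^ k) := by
    refine le_trans ?_ hlow
    apply mul_le_mul_of_nonneg_left _ (by positivity)
    have h2 : (n:ℝ) * (((1 - e) + mm r) ^ 2 + ((((1 - e) + mm r) ^ 2 + VV r) -
        ((1 - e) + mm r) ^ 2) / k) = n * ((1 - e) + mm r) ^ 2 + n * (VV r / k) := by
      rw [add_sub_cancel_left]; ring
    rw [h2]
    norm_num at hm1' hVk ⊢
    linarith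
  -- the difference
  have hrho := rho2_exp_le h9 h1 hr8 hβ
  have hdiff := mix_diff (nu e) (rho2 e) (nu_ae h9 h1) (rho2_ae h9 h1) k n hr0
  rw [← hK, nu_exp] at hdiff
  have hx : k * (6.2 / r ^ 3) ≤ 0.0066 := by
    have hr3 : (4 / 3 * s) ^ 3 ≤ r ^ 3 := pow_le_pow_left₀ (by positivity) hrs 3
    have h2 : (0:ℝ) < (4 / 3 * s) ^ 3 := by positivity
    have h3 : 6.2 / r ^ 3 ≤ 6.2 / (4 / 3 * s) ^ 3 :=
      div_le_div_of_nonneg_left (by norm_num) h2 hr3
    have h4 : (k:ℝ) ≤ s / 4 := by linarith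
    calc k * (6.2 / r ^ 3) ≤ s / 4 * (6.2 / (4 / 3 * s) ^ 3) :=
          mul_le_mul h4 h3 (by positivity) (by positivity)
      _ = 0.65390625 / s ^ 2 := by field_simp; norm_num
      _ ≤ 0.65390625 / 10 ^ 2 := by
          apply div_le_div_of_nonneg_left (by norm_num) (by norm_num)
          exact pow_le_pow_left₀ (by norm_num) hs10 2
      _ ≤ 0.0066 := by norm_num
  have hpow : (kk e r + ∫ t, Real.exp (r * t) ∂(rho2 e)) ^ k ≤ kk e r ^ k * 1.02 := by
    calc (kk e r + ∫ t, Real.exp (r * t) ∂(rho2 e)) ^ k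
        ≤ (kk e r * (1 + 6.2 / r ^ 3)) ^ k := by
          apply pow_le_pow_left₀
          · linarith [hrho.1]
          · have := hrho.2
            linarith
      _ = kk e r ^ k * (1 + 6.2 / r ^ 3) ^ k := mul_pow _ _ _
      _ ≤ kk e r ^ k * 1.02 :=
          mul_le_mul_of_nonneg_left (one_add_pow_le (by positivity) hx) (by positivity)
  have hdiff2 : (n.factorial : ℝ) * PowerSeries.coeff n
      ((momS (nu e) + momS (rho2 e)) ^ k - momS (nu e) ^ k) ≤ K * kk e r ^ k * 0.02 := by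
    refine hdiff.trans ?_
    calc K * ((kk e r + ∫ t, Real.exp (r * t) ∂(rho2 e)) ^ k - kk e r ^ k)
        ≤ K * (kk e r ^ k * 1.02 - kk e r ^ k) :=
          mul_le_mul_of_nonneg_left (by linarith) hK0
      _ = K * kk e r ^ k * 0.02 := by ring
  have hcmp := coeff_pow_sub (XS_cmp h9 h1) (momS_nu_nonneg h9 h1) k n
  have hcmp2 := (abs_le.mp hcmp).1
  have hfac : (0:ℝ) ≤ n.factorial := by positivity
  have hfin := mul_le_mul_of_nonneg_left hcmp2 hfac
  have hprod : 0 ≤ K * kk e r ^ k := by positivity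
  have e1 : (n.factorial : ℝ) * -PowerSeries.coeff n
      ((momS (nu e) + momS (rho2 e)) ^ k - momS (nu e) ^ k) =
      -((n.factorial : ℝ) * PowerSeries.coeff n
      ((momS (nu e) + momS (rho2 e)) ^ k - momS (nu e) ^ k)) := by ring
  rw [e1, mul_sub] at hfin
  linarith

end RR
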