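import Pool.Agent.Lib.MP_31701c_co.SmallKA
import Pool.Agent.Lib.MP_31701c_co.KCoefL

/-!
# RR-SmallKL : the main term for small `k`

`coef_lower` with `r = n/(3k) = xs - 1/4` (`n/(e r) = 3k/e`), `hβ` from `SKF.b3`, `hβn` from `SKF.nb`;
`(β kk r)^k ≥ exp(-(3/4)k - 6.06 k/xs³)` (`SKF.lo`), `xs ≥ 16k/3`: `6.06 k/xs³ ≤ 0.04/k² ≤ 0.01`, `0.75 e^{-0.01} ≥ 0.74`.
-/

set_option autoImplicit false

namespace RR

theorem tk_lower {e : ℝ} (h9 : e9 ≤ e) (h1 : e < 1) {n k : ℕ} (hn : 100 ≤ n) (hk : 2 ≤ k)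
    (hkn : 16 * k ^ 2 ≤ n) {xs : ℝ} (hxs : xs = ((n : ℝ) / k + 3 / 4) / 3) (S : SKF e n k xs) :
    0.74 * MM n k ≤ Tj e n k := by
  have hk2 : (2 : ℝ) ≤ k := by exact_mod_cast hk
  have hk0 : (0 : ℝ) < k := by linarith
  have hn0 : (0 : ℝ) < n := by
    have : (100 : ℝ) ≤ n := by exact_mod_cast hn
    linarith
  have hkn' : 16 * (k : ℝ) ^ 2 ≤ n := by exact_mod_cast hkn
  have hr : xs - 1 / 4 = (n : ℝ) / (3 * k) := by rw [hxs]; field_simp; ring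
  have hrlo : 16 / 3 * (k : ℝ) ≤ xs - 1 / 4 := by
    rw [hr, le_div_iff₀ (by positivity)]
    nlinarith
  have hr0 : 0 < xs - 1 / 4 := by nlinarith
  have hxs0 : 0 < xs := by linarith
  have hxlo : 16 / 3 * (k : ℝ) ≤ xs := by linarith
  have hb := S.b_pos
  have hco := coef_lower h9 h1 hn hk hkn hr (S.b3 _ hr0 (by linarith)) S.nb
  have hratio : (n : ℝ) / (Real.exp 1 * (xs - 1 / 4)) = 3 * k / Real.exp 1 := by
    rw [hr]
    have := (Real.exp_pos 1).ne'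
    field_simp
  rw [hratio] at hco
  -- the small exponent
  have hsm : 6.06 * (k : ℝ) / xs ^ 3 ≤ 0.01 := by
    rw [div_le_iff₀ (by positivity)]
    have h3 : (16 / 3 * (k : ℝ)) ^ 3 ≤ xs ^ 3 := pow_le_pow_left₀ (by positivity) hxlo 3
    have h4 : (4 : ℝ) ≤ (k : ℝ) ^ 2 := by nlinarith
    have h5 : (k : ℝ) * 4 ≤ (k : ℝ) * (k : ℝ) ^ 2 := mul_le_mul_of_nonneg_left h4 hk0.le
    nlinarith
  have hlo := S.lo
  have hpow : Real.exp (-(0.75 * k)) * Real.exp (-(6.06 * (k : ℝ) / xs ^ 3)) ≤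
      ((1 - e ^ 2) * kk e (xs - 1 / 4)) ^ k := by
    have h2 := pow_le_pow_left₀ (Real.exp_pos _).le hlo k
    rw [← Real.exp_nat_mul] at h2
    rw [← Real.exp_add]
    refine le_trans (le_of_eq ?_) h2
    congr 1
    field_simp
    ring
  have hexp : 1 - 6.06 * (k : ℝ) / xs ^ 3 ≤ Real.exp (-(6.06 * (k : ℝ) / xs ^ 3)) := by
    have := Real.add_one_le_exp (-(6.06 * (k : ℝ) / xs ^ 3))
    linarith
  have hE0 : 0 < Real.exp (-(0.75 * (k : ℝ))) := Real.exp_pos _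
  have hmain : 0.74 * Real.exp (-(0.75 * (k : ℝ))) ≤
      0.75 * ((1 - e ^ 2) * kk e (xs - 1 / 4)) ^ k := by
    have h3 : 0.99 * Real.exp (-(0.75 * (k : ℝ))) ≤
        Real.exp (-(0.75 * k)) * Real.exp (-(6.06 * (k : ℝ) / xs ^ 3)) := by
      nlinarith
    nlinarith
  have hP : (0 : ℝ) ≤ (3 * k / Real.exp 1) ^ n / k := by
    have := Real.exp_pos 1
    positivity
  calc 0.74 * MM n k = (3 * k / Real.exp 1) ^ n / k * (0.74 * Real.exp (-(0.75 * (k : ℝ)))) := by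
        unfold MM; ring
    _ ≤ (3 * k / Real.exp 1) ^ n / k * (0.75 * ((1 - e ^ 2) * kk e (xs - 1 / 4)) ^ k) :=
        mul_le_mul_of_nonneg_left hmain hP
    _ = (1 - e ^ 2) ^ k / k * (0.75 * ((3 * k / Real.exp 1) ^ n * kk e (xs - 1 / 4) ^ k)) := by
        rw [mul_pow]; ring
    _ ≤ Tj e n k := by
        unfold Tj
        exact mul_le_mul_of_nonneg_left hco (by positivity)

end RR
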