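import Pool.Agent.Lib.MP_31701c_co.SmallKA
import Pool.Agent.Lib.MP_31701c_co.KCoefU

/-!
# RR-SmallKT : the terms `j < k` for small `k`

`rm = n/(3(k-1))`, `n/(e rm) = 3(k-1)/e`, `xs ≤ rm ≤ 2 xs` (`rm - xs = n/(3k(k-1)) - 1/4 ≥ 5.0` since `n ≥ 16k²`).
`coef_upper` with `r = rm`: `|T_j| ≤ (3(k-1)/e)^n P^j/j`, where (`SKF.up2`)
`β kk rm (1 + 6.2/rm³) ≤ P := exp(3(rm - xs) + 6.4/xs³)`, `P ≥ 300`. `∑_{j=1}^{k-1} P^j/j ≤ 1.01 P^{k-1}/(k-1)` (induction
on `k`: `1.01 P^{J-1}/(J-1) + P^J/J ≤ 1.01 P^J/J` iff `1.01 J/(J-1) ≤ 0.01 P`; `J = 1` trivial). Ratio to `MM n k`: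
`exp(E)·1.01 k/(k-1)` with (`3(rm-xs)(k-1) = n/k - 0.75(k-1)`) `E = n log(1-1/k) + n/k + 0.75 + 6.4(k-1)/xs³
≤ -n/(2k²) + 0.76 ≤ -7.2`; `e^{-7.2}·2.02 ≤ 0.1`.
-/

set_option autoImplicit false

namespace RR

private theorem skt_sum {P : ℝ} (hP : 300 ≤ P) (m : ℕ) :
    ∑ j ∈ Finset.Ico 1 (m + 2), P ^ j / (j : ℝ) ≤ 1.01 * P ^ (m + 1) / ((m : ℝ) + 1) := by
  induction m with
  | zero =>
    norm_num
    linarith
  | succ m ih =>
    rw [Finset.sum_Ico_succ_top (by omega)]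
    push_cast
    have hm : (0 : ℝ) ≤ m := Nat.cast_nonneg m
    have hPp : 0 < P ^ (m + 1) := by positivity
    have h1 : 1.01 * P ^ (m + 1) / ((m : ℝ) + 1) ≤ 0.01 * P ^ (m + 1 + 1) / ((m : ℝ) + 1 + 1) := by
      rw [div_le_div_iff₀ (by positivity) (by positivity), pow_succ P (m + 1)]
      have h2 : 1.01 * ((m : ℝ) + 1 + 1) ≤ 0.01 * P * ((m : ℝ) + 1) := by nlinarith
      calc 1.01 * P ^ (m + 1) * ((m : ℝ) + 1 + 1) = P ^ (m + 1) * (1.01 * ((m : ℝ) + 1 + 1)) := by ring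
        _ ≤ P ^ (m + 1) * (0.01 * P * ((m : ℝ) + 1)) := mul_le_mul_of_nonneg_left h2 hPp.le
        _ = 0.01 * (P ^ (m + 1) * P) * ((m : ℝ) + 1) := by ring
    have h3 : 1.01 * P ^ (m + 1 + 1) / ((m : ℝ) + 1 + 1) =
        0.01 * P ^ (m + 1 + 1) / ((m : ℝ) + 1 + 1) + P ^ (m + 1 + 1) / ((m : ℝ) + 1 + 1) := by ring
    have h4 : P ^ (m + 2) / ((m : ℝ) + 2) = P ^ (m + 1 + 1) / ((m : ℝ) + 1 + 1) := by
      rw [show (m : ℝ) + 1 + 1 = m + 2 by ring]
    rw [h3, h4]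
    linarith

private theorem skt_log {x : ℝ} (h0 : 0 ≤ x) (h1 : x < 1) : Real.log (1 - x) ≤ -(x + x ^ 2 / 2) := by
  have h := Real.hasSum_pow_div_log_of_abs_lt_one (x := x) (by rw [abs_of_nonneg h0]; exact h1)
  have h2 := sum_le_hasSum (Finset.range 2) (fun i _ => by positivity) h
  rw [Finset.sum_range_succ, Finset.sum_range_one] at h2
  norm_num at h2
  linarith

theorem tj_lt_sum {e : ℝ} (h9 : e9 ≤ e) (h1 : e < 1) {n k : ℕ} (hn : 100 ≤ n) (hk : 2 ≤ k)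
    (hkn : 16 * k ^ 2 ≤ n) {xs : ℝ} (hxs : xs = ((n : ℝ) / k + 3 / 4) / 3) (S : SKF e n k xs) :
    ∑ j ∈ Finset.Ico 1 k, |Tj e n j| ≤ 0.1 * MM n k := by
  have hnR : (100 : ℝ) ≤ n := by exact_mod_cast hn
  have hkR : (2 : ℝ) ≤ k := by exact_mod_cast hk
  have hknR : 16 * (k : ℝ) ^ 2 ≤ n := by exact_mod_cast hkn
  set N : ℝ := (n : ℝ) with hN
  set K : ℝ := (k : ℝ) with hK
  have hK0 : 0 < K := by linarith
  have hK1 : 0 < K - 1 := by linarith
  have hN0 : 0 < N := by linarith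
  set rm : ℝ := N / (3 * (K - 1)) with hrm
  have hNK : 16 * K ≤ N / K := by
    rw [le_div_iff₀ hK0]; nlinarith
  have hxs1 : 16 * K / 3 ≤ xs := by rw [hxs]; linarith
  have hxs0 : 0 < xs := by linarith
  have hdiff : 3 * (rm - xs) * (K - 1) = N / K - 3 / 4 * (K - 1) := by
    rw [hrm, hxs]
    field_simp
    ring
  have hdiff2 : 15 ≤ 3 * (rm - xs) := by
    have h2 : 15 * (K - 1) ≤ 3 * (rm - xs) * (K - 1) := by
      rw [hdiff]; linarith
    exact le_of_mul_le_mul_right h2 hK1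
  have hrx : xs ≤ rm := by linarith
  have hr2 : rm ≤ 2 * xs := by
    have h2 : rm * (K - 1) = N / 3 := by
      rw [hrm]; field_simp
    have h3 : N / 3 ≤ 2 * xs * (K - 1) := by
      rw [hxs]
      have h4 : N = N / K * K := by field_simp
      have h5 : 0 ≤ N / K := by positivity
      nlinarith
    have h4 : rm * (K - 1) ≤ 2 * xs * (K - 1) := by rw [h2]; exact h3
    exact le_of_mul_le_mul_right h4 hK1
  have hr8 : 8 ≤ rm := by linarith
  have hr0 : 0 < rm := by linarith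
  set P : ℝ := Real.exp (3 * (rm - xs) + 6.4 / xs ^ 3) with hP
  have hP300 : 300 ≤ P := by
    have h2 : Real.exp 15 ≤ P := by
      rw [hP]
      apply Real.exp_le_exp.2
      have : 0 ≤ 6.4 / xs ^ 3 := by positivity
      linarith
    have h3 : Real.exp 15 = Real.exp 1 ^ 15 := by
      rw [← Real.exp_nat_mul]; norm_num
    have h4 : (2 : ℝ) ^ 15 ≤ Real.exp 1 ^ 15 :=
      pow_le_pow_left₀ (by norm_num) (by linarith [Real.exp_one_gt_d9]) 15
    rw [h3] at h2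
    norm_num at h4
    linarith
  have hP0 : 0 < P := by linarith
  have hbase : (n : ℝ) / (Real.exp 1 * rm) = 3 * (K - 1) / Real.exp 1 := by
    rw [hrm, ← hN]
    have := (Real.exp_pos 1).ne'
    field_simp
  -- each term
  have hterm : ∀ j ∈ Finset.Ico 1 k, |Tj e n j| ≤
      (3 * (K - 1) / Real.exp 1) ^ n * (P ^ j / (j : ℝ)) := by
    intro j hj
    have hj1 : 1 ≤ j := (Finset.mem_Ico.1 hj).1
    have hjR : (0 : ℝ) < j := by exact_mod_cast hj1
    have hc := coef_upper h9 h1 j n hr8 (S.b3 rm hr0 hr2)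
    have hup := S.up2 rm hrx hr2
    unfold Tj
    rw [abs_mul, abs_of_nonneg (div_nonneg (pow_nonneg S.b_pos.le j) hjR.le)]
    have hkk : 0 ≤ kk e rm * (1 + 6.2 / rm ^ 3) :=
      mul_nonneg (mul_nonneg (Real.exp_pos _).le (KK_pos 0 rm).le) (by positivity)
    calc (1 - e ^ 2) ^ j / (j : ℝ) * |(n.factorial : ℝ) * PowerSeries.coeff n ((XS e) ^ j)|
        ≤ (1 - e ^ 2) ^ j / (j : ℝ) * ((n / (Real.exp 1 * rm)) ^ n *
            (kk e rm * (1 + 6.2 / rm ^ 3)) ^ j) :=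
          mul_le_mul_of_nonneg_left hc (div_nonneg (pow_nonneg S.b_pos.le j) hjR.le)
      _ = (3 * (K - 1) / Real.exp 1) ^ n *
            (((1 - e ^ 2) * (kk e rm * (1 + 6.2 / rm ^ 3))) ^ j / (j : ℝ)) := by
          rw [hbase, mul_pow (1 - e ^ 2)]
          ring
      _ ≤ (3 * (K - 1) / Real.exp 1) ^ n * (P ^ j / (j : ℝ)) := by
          refine mul_le_mul_of_nonneg_left ?_ (by positivity)
          refine div_le_div_of_nonneg_right ?_ hjR.le
          exact pow_le_pow_left₀ (mul_nonneg S.b_pos.le hkk) hup j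
  have hsum : ∑ j ∈ Finset.Ico 1 k, |Tj e n j| ≤
      (3 * (K - 1) / Real.exp 1) ^ n * (1.01 * P ^ (k - 1) / (K - 1)) := by
    refine (Finset.sum_le_sum hterm).trans ?_
    rw [← Finset.mul_sum]
    refine mul_le_mul_of_nonneg_left ?_ (by positivity)
    obtain ⟨m, rfl⟩ : ∃ m, k = m + 2 := ⟨k - 2, by omega⟩
    have h := skt_sum hP300 m
    have h2 : K - 1 = (m : ℝ) + 1 := by rw [hK]; push_cast; ring
    rw [h2]
    exact h
  refine hsum.trans ?_
  -- compare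
  have hPk : P ^ (k - 1) = Real.exp (N / K - 3 / 4 * (K - 1) + (K - 1) * (6.4 / xs ^ 3)) := by
    rw [hP, ← Real.exp_nat_mul, Nat.cast_sub (by omega : 1 ≤ k)]
    congr 1
    rw [← hdiff, ← hK]
    push_cast
    ring
  have hfrac : (3 * (K - 1) / Real.exp 1) ^ n = (3 * K / Real.exp 1) ^ n *
      Real.exp (N * Real.log (1 - 1 / K)) := by
    have h2 : (0 : ℝ) < 1 - 1 / K := by
      rw [sub_pos, div_lt_one hK0]; linarith
    rw [hN, Real.exp_nat_mul, Real.exp_log h2, ← mul_pow]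
    congr 1
    field_simp
  have hlog := skt_log (x := 1 / K) (by positivity) (by rw [div_lt_one hK0]; linarith)
  have hxs3 : 0 < xs ^ 3 := by positivity
  have h64 : (K - 1) * (6.4 / xs ^ 3) ≤ 0.04 := by
    rw [mul_div_assoc', div_le_iff₀ hxs3]
    have h2 : (16 * K / 3) ^ 3 ≤ xs ^ 3 := pow_le_pow_left₀ (by positivity) hxs1 3
    have h3 : (16 * K / 3) ^ 3 = 4096 / 27 * K ^ 3 := by ring
    have h4 : 4 * K ≤ K ^ 3 := by
      have h5 : 4 ≤ K ^ 2 := by nlinarith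
      calc 4 * K ≤ K ^ 2 * K := mul_le_mul_of_nonneg_right h5 hK0.le
        _ = K ^ 3 := by ring
    rw [h3] at h2
    linarith
  have hNlog : N * Real.log (1 - 1 / K) ≤ -(N / K) - 8 := by
    have h2 : N * Real.log (1 - 1 / K) ≤ N * (-(1 / K + (1 / K) ^ 2 / 2)) :=
      mul_le_mul_of_nonneg_left hlog hN0.le
    have h3 : N * (-(1 / K + (1 / K) ^ 2 / 2)) = -(N / K) - N / (2 * K ^ 2) := by
      field_simp
      ring
    have h4 : 8 ≤ N / (2 * K ^ 2) := by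
      rw [le_div_iff₀ (by positivity)]; linarith
    linarith
  have hexp : Real.exp (N * Real.log (1 - 1 / K)) *
      Real.exp (N / K - 3 / 4 * (K - 1) + (K - 1) * (6.4 / xs ^ 3)) ≤
      Real.exp (-7.2) * Real.exp (-(0.75 * K)) := by
    rw [← Real.exp_add, ← Real.exp_add]
    apply Real.exp_le_exp.2
    linarith
  have he7 : Real.exp (-7.2) ≤ 1 / 34 := by
    rw [Real.exp_neg, ← one_div]
    apply one_div_le_one_div_of_le (by norm_num)
    have := Real.quadratic_le_exp_of_nonneg (x := (7.2 : ℝ)) (by norm_num)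
    norm_num at this ⊢
    linarith
  unfold MM
  rw [hPk, hfrac, ← hK]
  have hM : 0 < (3 * K / Real.exp 1) ^ n := by positivity
  have hE : 0 < Real.exp (-(0.75 * K)) := Real.exp_pos _
  calc (3 * K / Real.exp 1) ^ n * Real.exp (N * Real.log (1 - 1 / K)) *
        (1.01 * Real.exp (N / K - 3 / 4 * (K - 1) + (K - 1) * (6.4 / xs ^ 3)) / (K - 1))
      = (3 * K / Real.exp 1) ^ n * (Real.exp (N * Real.log (1 - 1 / K)) *
        Real.exp (N / K - 3 / 4 * (K - 1) + (K - 1) * (6.4 / xs ^ 3))) * (1.01 / (K - 1)) := by ring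
    _ ≤ (3 * K / Real.exp 1) ^ n * (Real.exp (-7.2) * Real.exp (-(0.75 * K))) *
        (1.01 / (K - 1)) := by
        refine mul_le_mul_of_nonneg_right ?_ (by positivity)
        exact mul_le_mul_of_nonneg_left hexp hM.le
    _ ≤ (3 * K / Real.exp 1) ^ n * (1 / 34 * Real.exp (-(0.75 * K))) *
        (1.01 * (2 / K)) := by
        have h2 : 1.01 / (K - 1) ≤ 1.01 * (2 / K) := by
          rw [mul_div_assoc', div_le_div_iff₀ hK1 hK0]
          nlinarith
        refine mul_le_mul ?_ h2 (by positivity) (by positivity)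
        refine mul_le_mul_of_nonneg_left ?_ hM.le
        exact mul_le_mul_of_nonneg_right he7 hE.le
    _ = (2.02 / 34) * ((3 * K / Real.exp 1) ^ n * Real.exp (-(0.75 * K)) / K) := by ring
    _ ≤ 0.1 * ((3 * K / Real.exp 1) ^ n * Real.exp (-(0.75 * K)) / K) := by
        refine mul_le_mul_of_nonneg_right (by norm_num) (by positivity)

end RR
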