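import Pool.Agent.Lib.MP_31701c_co.Coef
import Pool.Agent.Lib.MP_31701c_co.SmallKL
import Pool.Agent.Lib.MP_31701c_co.SmallKG
import Pool.Agent.Lib.MP_31701c_co.SmallKT

/-!
# RR-SmallK : sign of `S_n` at the points for small `k`
-/

set_option autoImplicit false

namespace RR

private theorem sum_split (f : ℕ → ℝ) {k n : ℕ} (hk : 1 ≤ k) (hkn : k ≤ n) :
    ∑ j ∈ Finset.Icc 1 n, f j =
      ∑ j ∈ Finset.Ico 1 k, f j + f k + ∑ j ∈ Finset.Ioc k n, f j := by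
  have h1 : Finset.Icc 1 n = Finset.Ico 1 (n + 1) := by
    ext x
    simp only [Finset.mem_Icc, Finset.mem_Ico]
    omega
  have h2 : Finset.Ioc k n = Finset.Ico (k + 1) (n + 1) := by
    ext x
    simp only [Finset.mem_Ioc, Finset.mem_Ico]
    omega
  rw [h1, h2, ← Finset.sum_Ico_consecutive f hk (show k ≤ n + 1 by omega),
    Finset.sum_eq_sum_Ico_succ_bot (show k < n + 1 by omega) f]
  ring

theorem smallk {e : ℝ} (h9 : e9 ≤ e) (h1 : e < 1) {n k : ℕ} (hn : 100 ≤ n) (hk : 2 ≤ k)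
    (hkn : 16 * k ^ 2 ≤ n) (hg : gg e (4 * n) (((n : ℝ) / k + 3 / 4) / 3) = 1) :
    0 < (-1 : ℝ) ^ k * Sn e n := by
  obtain ⟨xs, hxs⟩ : ∃ xs : ℝ, xs = ((n : ℝ) / k + 3 / 4) / 3 := ⟨_, rfl⟩
  rw [← hxs] at hg
  have S := skf h9 h1 hn hk hkn hxs hg
  have hlow := tk_lower h9 h1 hn hk hkn hxs S
  have hgt := tj_gt_sum h9 h1 hn hk hkn hxs S
  have hlt := tj_lt_sum h9 h1 hn hk hkn hxs S
  have hM := MM_pos (n := n) hk
  have hkn' : k ≤ n := by nlinarith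
  have hfac : (n.factorial : ℝ) = n * (n - 1).factorial := by
    rw [← Nat.mul_factorial_pred (show n ≠ 0 by omega)]
    push_cast
    ring
  have hsum : ((n - 1).factorial : ℝ) * Sn e n =
      ∑ j ∈ Finset.Icc 1 n, (-1 : ℝ) ^ j * Tj e n j := by
    rw [Sn_coeff (by omega : 1 ≤ n), ← mul_assoc, Finset.mul_sum]
    refine Finset.sum_congr rfl fun j _ => ?_
    unfold Tj
    rw [hfac]
    ring
  rw [sum_split _ (by omega : 1 ≤ k) hkn'] at hsum
  have hbl : |∑ j ∈ Finset.Ico 1 k, (-1 : ℝ) ^ j * Tj e n j| ≤ 0.1 * MM n k := by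
    refine le_trans (Finset.abs_sum_le_sum_abs _ _) (le_trans (le_of_eq ?_) hlt)
    refine Finset.sum_congr rfl fun j _ => ?_
    rw [abs_mul, abs_pow, abs_neg, abs_one, one_pow, one_mul]
  have hbg : |∑ j ∈ Finset.Ioc k n, (-1 : ℝ) ^ j * Tj e n j| ≤ 0.1 * MM n k := by
    refine le_trans (Finset.abs_sum_le_sum_abs _ _) (le_trans (le_of_eq ?_) hgt)
    refine Finset.sum_congr rfl fun j _ => ?_
    rw [abs_mul, abs_pow, abs_neg, abs_one, one_pow, one_mul]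
  set a := ∑ j ∈ Finset.Ico 1 k, (-1 : ℝ) ^ j * Tj e n j with ha
  set c := ∑ j ∈ Finset.Ioc k n, (-1 : ℝ) ^ j * Tj e n j with hc
  have hfp : (0 : ℝ) < ((n - 1).factorial : ℝ) := by positivity
  have hkey : 0 < (-1 : ℝ) ^ k * (((n - 1).factorial : ℝ) * Sn e n) := by
    rw [hsum]
    have h5 : (-1 : ℝ) ^ k * (a + (-1 : ℝ) ^ k * Tj e n k + c) =
        Tj e n k + (-1 : ℝ) ^ k * (a + c) := by
      have : (-1 : ℝ) ^ k * (-1 : ℝ) ^ k = 1 := by
        rw [← mul_pow]; norm_num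
      linear_combination (Tj e n k) * this
    rw [h5]
    have h6 : |(-1 : ℝ) ^ k * (a + c)| ≤ 0.2 * MM n k := by
      rw [abs_mul, abs_pow, abs_neg, abs_one, one_pow, one_mul]
      calc |a + c| ≤ |a| + |c| := abs_add_le a c
        _ ≤ 0.2 * MM n k := by linarith
    have h7 := neg_abs_le ((-1 : ℝ) ^ k * (a + c))
    linarith
  have h8 : (-1 : ℝ) ^ k * (((n - 1).factorial : ℝ) * Sn e n) =
      ((n - 1).factorial : ℝ) * ((-1 : ℝ) ^ k * Sn e n) := by ring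
  rw [h8] at hkey
  exact (mul_pos_iff_of_pos_left hfp).mp hkey

end RR
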