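import Pool.Agent.Lib.MP_31701c_co.FinalE
import Pool.Agent.Lib.MP_31701c_co.FinalZ
import Pool.Agent.Lib.MP_31701c_co.FinalS
import Pool.Agent.Lib.MP_31701c_co.SmallK
import Pool.Agent.Lib.MP_31701c_co.Phase

/-!
# RR-Final : the sign pattern for `n ≥ 100`

`N = 4n`. `K = Nat.sqrt n / 4 ≥ 2` (`16K² ≤ n < 16(K+1)²`). `E` from `exists_E` (`N ≥ 400`).
Points: `xk k = (n/k + 3/4)/3` (`2 ≤ k ≤ K`), `xb = (n/(K+1) + 2.2)/3`, so `3 xb - 2.2 = n/(K+1)`.
-/

set_option autoImplicit false

namespace RR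

private theorem exists_K {n : ℕ} (hn : 100 ≤ n) :
    ∃ K : ℕ, 2 ≤ K ∧ 16 * K ^ 2 ≤ n ∧ n < 16 * (K + 1) ^ 2 := by
  have h1 : 10 ≤ Nat.sqrt n := by
    rw [Nat.le_sqrt]
    omega
  have h2 : Nat.sqrt n * Nat.sqrt n ≤ n := Nat.sqrt_le n
  have h3 : n < (Nat.sqrt n + 1) * (Nat.sqrt n + 1) := Nat.lt_succ_sqrt n
  refine ⟨Nat.sqrt n / 4, by omega, ?_, ?_⟩
  · have h4 : 4 * (Nat.sqrt n / 4) ≤ Nat.sqrt n := by omega
    nlinarith [Nat.mul_le_mul h4 h4]
  · have h4 : Nat.sqrt n + 1 ≤ 4 * (Nat.sqrt n / 4 + 1) := by omega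
    nlinarith [Nat.mul_le_mul h4 h4]

private theorem xb_bounds {n K : ℕ} (hn : 100 ≤ n) (hK : 2 ≤ K) (h1 : 16 * K ^ 2 ≤ n)
    (h2 : n < 16 * (K + 1) ^ 2) :
    11.8 ≤ ((n : ℝ) / (K + 1) + 2.2) / 3 ∧
      ((n : ℝ) / (K + 1) + 2.2) / 3 ≤ 1.41 * Real.sqrt n ∧
      ((n : ℝ) / (K + 1) + 2.2) / 3 < ((n : ℝ) / K + 3 / 4) / 3 := by
  have hK0 : (0:ℝ) < K := by
    have : 0 < K := by omega
    exact_mod_cast this
  have hK1 : (0:ℝ) < K + 1 := by linarith
  have hKr : (2:ℝ) ≤ K := by exact_mod_cast hK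
  have h1r : 16 * (K:ℝ) ^ 2 ≤ n := by exact_mod_cast h1
  have h2r : (n:ℝ) < 16 * ((K:ℝ) + 1) ^ 2 := by exact_mod_cast h2
  have hnr : (100:ℝ) ≤ n := by exact_mod_cast hn
  refine ⟨?_, ?_, ?_⟩
  · have h3 : 33.2 ≤ (n:ℝ) / (K + 1) := by
      rw [le_div_iff₀ hK1]
      rcases Nat.lt_or_ge 2 K with h | h
      · have h4 : (3:ℝ) ≤ K := by exact_mod_cast h
        nlinarith
      · have h5 : K = 2 := le_antisymm h hK
        subst h5
        norm_num
        linarith
    linarith
  · set s := Real.sqrt n with hs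
    have hs2 : s ^ 2 = n := Real.sq_sqrt (by linarith)
    have hs0 : 0 ≤ s := Real.sqrt_nonneg _
    have hs10 : 10 ≤ s := by
      rw [hs]
      apply Real.le_sqrt_of_sq_le
      linarith
    have hs4 : s < 4 * (K + 1) := by
      have h5 : s ^ 2 < (4 * ((K:ℝ) + 1)) ^ 2 := by rw [hs2]; nlinarith
      exact lt_of_pow_lt_pow_left₀ 2 (by positivity) h5
    have h3 : (n:ℝ) / (K + 1) ≤ 4 * s := by
      rw [div_le_iff₀ hK1, ← hs2]
      nlinarith
    linarith
  · have h3 : (n:ℝ) / (K + 1) + 1.45 < n / K := by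
      have h4 : (n:ℝ) / K - n / (K + 1) = n / (K * (K + 1)) := by
        field_simp
        ring
      have h5 : 1.45 < (n:ℝ) / (K * (K + 1)) := by
        rw [lt_div_iff₀ (by positivity)]
        nlinarith
      linarith
    linarith

theorem signs_large {n : ℕ} (hn : 100 ≤ n) : Signs n := by
  classical
  obtain ⟨K, hK2, hK1, hK3⟩ := exists_K hn
  obtain ⟨hxb1, hxb2, hxb3⟩ := xb_bounds hn hK2 hK1 hK3
  have hN : 400 ≤ 4 * n := by omega
  obtain ⟨E, hE1, hE2⟩ := exists_E hN
  have hnr : (100:ℝ) ≤ n := by exact_mod_cast hn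
  have hn0 : (0:ℝ) < n := by linarith
  set xb : ℝ := ((n : ℝ) / (K + 1) + 2.2) / 3 with hxb
  set xk : ℕ → ℝ := fun k => ((n : ℝ) / k + 3 / 4) / 3 with hxk
  obtain ⟨hb9, hb1, hgb, hle⟩ := hE1 xb (by linarith)
  set b : ℝ := E xb with hb
  have hb0 : 0 < b := by
    have : (0:ℝ) < e9 := by unfold e9; norm_num
    linarith
  obtain ⟨z1, hz1, hz2⟩ := exists_z hn (by linarith) hxb2 hb9 hb1 hgb hle
  obtain ⟨hzre, hzph⟩ := hz2 hxb1
  have hphb : Complex.arg (z1 b) < (K + 1) * Real.pi / n := by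
    have h1 := arg_lt hzre (hz1 b hb0.le le_rfl).2.1
    have h2 : Real.pi / (3 * xb - 2.2) = (K + 1) * Real.pi / n := by
      have h3 : 3 * xb - 2.2 = (n:ℝ) / (K + 1) := by rw [hxb]; ring
      rw [h3]
      have hK0 : ((K:ℝ) + 1) ≠ 0 := by positivity
      field_simp
    rw [← h2]
    exact lt_trans h1 hzph
  obtain ⟨p, hp1, hp2, hp3⟩ := exists_phase_points (φ := fun e => Complex.arg (z1 e)) hb0
    (arg_continuous hz1) (n := n) (K := K) (by omega) (arg_z_zero (hz1 0 le_rfl hb0.le)) hphb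
  have hKn : 2 * (K + 1) < n := by nlinarith
  -- signs at the phase points
  have hps : ∀ k : ℕ, K < k → 2 * k ≤ n → 0 < (-1 : ℝ) ^ k * Sn (p k) n := by
    intro k hk hk2
    obtain ⟨h1, h2, h3⟩ := hp1 k hk hk2
    exact sign_at (by omega) (hz1 (p k) h1 h2.le) h3
  -- the last point for even n
  obtain ⟨e', he'1, he'2⟩ : ∃ e' : ℝ, 0 < e' ∧ (∀ m : ℕ, 2 * m = n → K < m - 1 → 
      e' < p (m - 1) ∧ 0 < (-1 : ℝ) ^ m * Sn e' n) := by
    by_cases hpar : ∃ m : ℕ, 2 * m = n
    · obtain ⟨m, hm⟩ := hpar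
      have hKm : K < m - 1 := by omega
      have hKm' : K < m := by omega
      have hs := hps m hKm' (by omega)
      have hlt : p m < p (m - 1) := by
        have := hp2 (m - 1) hKm (by omega)
        rwa [show m - 1 + 1 = m by omega] at this
      have hpm0 : 0 ≤ p m := (hp1 m hKm' (by omega)).1
      have hcont : Continuous fun e => (-1 : ℝ) ^ m * Sn e n :=
        continuous_const.mul (continuous_Sn n)
      have hopen : IsOpen {e : ℝ | 0 < (-1 : ℝ) ^ m * Sn e n} := isOpen_lt continuous_const hcont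
      obtain ⟨δ, hδ, hδ2⟩ := Metric.isOpen_iff.mp hopen (p m) hs
      refine ⟨p m + min δ (p (m - 1) - p m) / 2, ?_, ?_⟩
      · have : 0 < min δ (p (m - 1) - p m) := lt_min hδ (by linarith)
        linarith
      · intro m' hm' _
        have hmm : m' = m := by omega
        subst hmm
        have h5 : 0 < min δ (p (m' - 1) - p m') := lt_min hδ (by linarith)
        constructor
        · have := min_le_right δ (p (m' - 1) - p m')
          linarith
        · apply hδ2
          rw [Metric.mem_ball, Real.dist_eq]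
          have h6 := min_le_left δ (p (m' - 1) - p m')
          rw [show p m' + min δ (p (m' - 1) - p m') / 2 - p m' =
            min δ (p (m' - 1) - p m') / 2 by ring, abs_of_pos (by linarith)]
          linarith
    · refine ⟨1, one_pos, ?_⟩
      intro m hm
      exact absurd ⟨m, hm⟩ hpar
  set p' : ℕ → ℝ := fun k => if 2 * k = n then e' else p k with hp'
  have hp'1 : ∀ k : ℕ, K < k → 2 * k ≤ n → 0 < p' k ∧ p' k < b ∧
      0 < (-1 : ℝ) ^ k * Sn (p' k) n := by
    intro k hk hk2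
    by_cases h : 2 * k = n
    · have hKm : K < k - 1 := by omega
      obtain ⟨h1, h2⟩ := he'2 k h hKm
      have h3 := (hp1 (k - 1) hKm (by omega)).2.1
      simp only [hp', h, if_true]
      exact ⟨he'1, by linarith, h2⟩
    · simp only [hp', h, if_false]
      exact ⟨hp3 k hk (by omega), (hp1 k hk hk2).2.1, hps k hk hk2⟩
  have hp'2 : ∀ k : ℕ, K < k → 2 * (k + 1) ≤ n → p' (k + 1) < p' k := by
    intro k hk hk2
    have h0 : ¬ 2 * k = n := by omega
    by_cases h : 2 * (k + 1) = n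
    · have h1 := (he'2 (k + 1) h (by omega)).1
      simp only [hp', h, h0, if_true, if_false]
      simpa using h1
    · simp only [hp', h, h0, if_false]
      exact hp2 k hk hk2
  -- monotonicity of xk
  have hxkm : ∀ k : ℕ, 2 ≤ k → xk (k + 1) < xk k := by
    intro k hk
    have hk0 : (0:ℝ) < k := by
      have : 0 < k := by omega
      exact_mod_cast this
    have h1 : (n:ℝ) / ((k + 1 : ℕ) : ℝ) < n / k := by
      apply div_lt_div_of_pos_left hn0 hk0
      push_cast
      linarith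
    simp only [hxk]
    linarith
  have hxkK : ∀ k : ℕ, 2 ≤ k → k ≤ K → xb < xk k := by
    intro k hk hkK
    have hk0 : (0:ℝ) < k := by
      have : 0 < k := by omega
      exact_mod_cast this
    have h1 : (n:ℝ) / K ≤ n / k := by
      apply div_le_div_of_nonneg_left hn0.le hk0
      exact_mod_cast hkK
    simp only [hxk]
    linarith
  refine ⟨fun k => if k ≤ K then E (xk k) else p' k, ?_, ?_, ?_⟩
  · intro k hk hk2
    by_cases h : k ≤ K
    · simp only [h, if_true]
      have h1 := hE1 (xk k) (by linarith [hxkK k hk h])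
      have : (0:ℝ) < e9 := by unfold e9; norm_num
      exact ⟨by linarith [h1.1], h1.2.1⟩
    · simp only [h, if_false]
      have h1 := hp'1 k (by omega) (by omega)
      exact ⟨h1.1, by linarith [h1.2.1]⟩
  · intro k hk hk2
    by_cases h : k + 1 ≤ K
    · have h' : k ≤ K := by omega
      simp only [h, h', if_true]
      exact hE2 _ _ (by linarith [hxkK (k + 1) (by omega) h]) (hxkm k hk)
    · by_cases h' : k ≤ K
      · have hkK : k = K := by omega
        simp only [h, h', if_true, if_false]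
        have h1 := (hp'1 (k + 1) (by omega) (by omega)).2.1
        have h2 := hE2 xb (xk k) (by linarith) (hxkK k hk h')
        linarith
      · simp only [h, h', if_false]
        exact hp'2 k (by omega) (by omega)
  · intro k hk hk2
    by_cases h : k ≤ K
    · simp only [h, if_true]
      have h1 := hE1 (xk k) (by linarith [hxkK k hk h])
      have h16 : 16 * k ^ 2 ≤ n := by
        have : k ^ 2 ≤ K ^ 2 := Nat.pow_le_pow_left h 2
        omega
      exact smallk h1.1.le h1.2.1 hn hk h16 h1.2.2.1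
    · simp only [h, if_false]
      exact (hp'1 k (by omega) (by omega)).2.2

end RR
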