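import Pool.Agent.Lib.MP_31701c_co.Rest

/-!
# RR-FinalE : the function `E`

`gg_e9`: `gg e9 N` is increasing on `[0,∞)` (`gg_strictMonoOn`), so `gg e9 N x ≥ gg e9 N 4.9 = β₉ FR e9 N 4.9`,
`β₉ = 1 - e9² ≥ 2.499e-4`; `rest_real_lower` at `x = 4.9` (`4.9 ≤ 0.043·400`) and `kk_lower`:
`FR ≥ 0.998·2145 e^{1.28} ≥ 7600`, so `gg ≥ 1.89`.
`E x := sInf {e ∈ [e9, 1] : gg e N x ≤ 1}`: a closed set (`continuous_gg`) containing `1` (`gg_one`), not `e9`. So
`gg (E x) N x ≤ 1`, `e9 < E x`, and for `e9 ≤ e < E x`: `gg e N x > 1`; by continuity `gg (E x) N x = 1`, hence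
`E x < 1` (`gg 1 N x = 0`). For `x < x'`: `gg (E x) N x' > gg (E x) N x = 1` and, for `e9 ≤ e ≤ E x`,
`gg e N x' > gg e N x ≥ 1`, so no `e ≤ E x` is in the set of `x'`: `E x < E x'` (the set is closed).
-/

set_option autoImplicit false

namespace RR

theorem gg_e9 {N : ℕ} (hN : 400 ≤ N) {x : ℝ} (hx : 4.9 ≤ x) : 1 < gg e9 N x := by
  have he0 : (0 : ℝ) ≤ e9 := by unfold e9; norm_num
  have he1 : e9 < 1 := by unfold e9; norm_num
  have hN' : (400 : ℝ) ≤ (N : ℝ) := by exact_mod_cast hN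
  have hmono : gg e9 N 4.9 ≤ gg e9 N x :=
    (gg_strictMonoOn he0 he1 (by omega)).monotoneOn
      (show (0 : ℝ) ≤ 4.9 by norm_num) (show (0 : ℝ) ≤ x by linarith) hx
  refine lt_of_lt_of_le ?_ hmono
  have h1 := rest_real_lower (le_refl e9) he1 hN (x := 4.9) (by norm_num) (by linarith)
  have h2 := kk_lower (le_refl e9) he1.le (x := 4.9) (by norm_num)
  have h3 : (2.28 : ℝ) ≤ Real.exp (2.56 * (4.9 - 4.4)) := by
    have := Real.add_one_le_exp (2.56 * (4.9 - 4.4) : ℝ)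
    norm_num at this ⊢
    linarith
  have h4 : (4890 : ℝ) ≤ kk e9 4.9 := by linarith
  have h5 : (0.998 : ℝ) ≤ 1 - 0.12 / 4.9 ^ 3 - 2 * (1 - e9 ^ 2) := by
    unfold e9; norm_num
  have h6 : (0.998 : ℝ) * 4890 ≤ FR e9 N 4.9 := by
    refine le_trans ?_ h1
    calc (0.998 : ℝ) * 4890 = 4890 * 0.998 := by ring
      _ ≤ kk e9 4.9 * (1 - 0.12 / 4.9 ^ 3 - 2 * (1 - e9 ^ 2)) :=
        mul_le_mul h4 h5 (by norm_num) (by linarith)
  rw [gg_eq]
  have h7 : (0.0002499 : ℝ) ≤ 1 - e9 ^ 2 := by unfold e9; norm_num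
  have h8 : (0.0002499 : ℝ) * (0.998 * 4890) ≤ (1 - e9 ^ 2) * FR e9 N 4.9 :=
    mul_le_mul h7 h6 (by norm_num) (by linarith)
  have h9 : (1 : ℝ) < 0.0002499 * (0.998 * 4890) := by norm_num
  linarith

/-- The set whose infimum is `E x`. -/
private def FEset (N : ℕ) (x : ℝ) : Set ℝ := {e | e ∈ Set.Icc e9 1 ∧ gg e N x ≤ 1}

private theorem FE_cont (N : ℕ) (x : ℝ) : Continuous fun e => gg e N x :=
  (continuous_gg N).comp (by fun_prop : Continuous fun e : ℝ => (e, x))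

private theorem FE_closed (N : ℕ) (x : ℝ) : IsClosed (FEset N x) :=
  IsClosed.inter isClosed_Icc (isClosed_le (FE_cont N x) continuous_const)

private theorem FE_one (N : ℕ) (x : ℝ) : (1 : ℝ) ∈ FEset N x := by
  refine ⟨⟨?_, le_refl _⟩, ?_⟩
  · unfold e9; norm_num
  · rw [gg_one]; norm_num

private theorem FE_bdd (N : ℕ) (x : ℝ) : BddBelow (FEset N x) := ⟨e9, fun _ h => h.1.1⟩

private theorem FE_mem (N : ℕ) (x : ℝ) : sInf (FEset N x) ∈ FEset N x :=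
  (FE_closed N x).csInf_mem ⟨1, FE_one N x⟩ (FE_bdd N x)

private theorem FE_gt {N : ℕ} {x e : ℝ} (h9 : e9 ≤ e) (h : e < sInf (FEset N x)) :
    1 < gg e N x := by
  by_contra hc
  have h1 : e ≤ 1 := h.le.trans (FE_mem N x).1.2
  have h2 : e ∈ FEset N x := ⟨⟨h9, h1⟩, not_lt.1 hc⟩
  exact absurd (csInf_le (FE_bdd N x) h2) (not_le.2 h)

private theorem FE_spec {N : ℕ} (hN : 400 ≤ N) {x : ℝ} (hx : 4.9 ≤ x) :
    e9 < sInf (FEset N x) ∧ sInf (FEset N x) < 1 ∧ gg (sInf (FEset N x)) N x = 1 ∧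
      ∀ e, e9 ≤ e → e ≤ sInf (FEset N x) → 1 ≤ gg e N x := by
  obtain ⟨E, hE⟩ : ∃ E, E = sInf (FEset N x) := ⟨_, rfl⟩
  have hm := FE_mem N x
  have hgt : ∀ e, e9 ≤ e → e < sInf (FEset N x) → 1 < gg e N x := fun e h9 h => FE_gt h9 h
  rw [← hE] at hm hgt ⊢
  have h1 : e9 < E := by
    rcases lt_or_eq_of_le hm.1.1 with h | h
    · exact h
    · exfalso
      have h2 := gg_e9 hN hx
      have h3 := hm.2
      rw [← h] at h3
      linarith
  have h2 : 1 ≤ gg E N x := by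
    have hcl : E ∈ closure (Set.Ioo e9 E) := by
      rw [closure_Ioo h1.ne]
      exact ⟨h1.le, le_refl _⟩
    have hc2 : IsClosed {e | 1 ≤ gg e N x} := isClosed_le continuous_const (FE_cont N x)
    have hsub : Set.Ioo e9 E ⊆ {e | 1 ≤ gg e N x} := fun e he => (hgt e he.1.le he.2).le
    exact closure_minimal hsub hc2 hcl
  have h3 : gg E N x = 1 := le_antisymm hm.2 h2
  have h4 : E < 1 := by
    rcases lt_or_eq_of_le hm.1.2 with h | h
    · exact h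
    · exfalso
      rw [h, gg_one] at h3
      norm_num at h3
  refine ⟨h1, h4, h3, fun e h9 he => ?_⟩
  rcases lt_or_eq_of_le he with h | h
  · exact (hgt e h9 h).le
  · rw [h, h3]

theorem exists_E {N : ℕ} (hN : 400 ≤ N) :
    ∃ E : ℝ → ℝ, (∀ x, 4.9 ≤ x → e9 < E x ∧ E x < 1 ∧ gg (E x) N x = 1 ∧
        ∀ e, e9 ≤ e → e ≤ E x → 1 ≤ gg e N x) ∧
      (∀ x x', 4.9 ≤ x → x < x' → E x < E x') := by
  refine ⟨fun x => sInf (FEset N x), fun x hx => FE_spec hN hx, fun x x' hx hxx => ?_⟩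
  obtain ⟨h1, h2, _, h4⟩ := FE_spec hN hx
  have hm := FE_mem N x'
  change sInf (FEset N x) < sInf (FEset N x')
  by_contra hc
  rw [not_lt] at hc
  obtain ⟨e, he⟩ : ∃ e, e = sInf (FEset N x') := ⟨_, rfl⟩
  rw [← he] at hm hc
  have h5 := h4 e hm.1.1 hc
  have he0 : (0 : ℝ) ≤ e := le_trans (by unfold e9; norm_num) hm.1.1
  have h6 : gg e N x < gg e N x' :=
    gg_strictMonoOn he0 (lt_of_le_of_lt hc h2) (by omega)
      (show (0 : ℝ) ≤ x by linarith) (show (0 : ℝ) ≤ x' by linarith) hxx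
  have h7 := hm.2
  linarith

end RR
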