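import Pool.Agent.Lib.MP_31701c_co.Words
import Pool.Agent.Lib.MP_31701c_co.EDP

/-!
# RR-GRec : recursion for the weighted count `GG x V a`

Let `m = max V`, `V' = V.erase m`, `a` arbitrary, all labels positive (`0 ∉ V`).
The words `w ∈ words V` are exactly (Words, EDP): `[m]` (when `V' = ∅`), `L ++ [m]` with
`L ∈ words V'`, `V' ≠ ∅`, and `L ++ m :: R` with `L ∈ words Vl`, `R ∈ words Vr`, `Vl, Vr ≠ ∅`,
`V' = Vl ⊔ Vr` (`Vl ⊆ V'`, `Vr = V' \ Vl`).
* `[m]`: `fst = m`, weight `1` : contributes `[a < m]`.
* `L ++ [m]`: `fst = fst L`, `des (s w) = des (s L)`: contributes `GG x V' a` (zero when `V' = ∅`).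
* `L ++ m :: R`: `fst = fst L`, `des = des (s L) + des (s R) + [fst R < max L]` and
  `x^{[fst R < max L]} = x + (1 - x) [max L < fst R]` (`fst R ≠ max L` because `fst R ∈ Vr`). The sum
  over all `R ∈ words Vr` of `x^{des (s R)}` is `GG x Vr 0` (`fst R ∈ Vr`, so `0 < fst R`), and the sum
  over those with `max L = Vl.sup id < fst R` is `GG x Vr (Vl.sup id)`.
The terms of the sums below with `Vl = ∅` or `Vr = ∅` vanish since `GG x ∅ _ = 0`.
(A convenient way: prove the bijection with `Finset.sum_bij'`/`Finset.sum_nbij'` between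
`{w ∈ words V | ...}` of the third kind and the sigma type over `Vl ∈ V'.powerset`, `L`, `R`.)
-/

set_option autoImplicit false

namespace RR

private theorem grec_words_empty : words ∅ = {[]} := by
  ext w
  rw [mem_words, Finset.mem_singleton]
  constructor
  · rintro ⟨_, h, _⟩
    exact List.toFinset_eq_empty_iff w |>.mp h
  · rintro rfl
    exact ⟨List.nodup_nil, rfl, isEDP_nil⟩

private theorem grec_fst_nil : fst [] = 0 := by
  unfold fst
  rw [stackSort_nil]
  rfl

private theorem grec_des_nil : des (stackSort []) = 0 := by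
  rw [stackSort_nil]
  rfl

private theorem grec_sum (x : ℝ) (V : Finset ℕ) (a : ℕ) :
    GG x V a = ∑ w ∈ words V, if a < fst w then x ^ des (stackSort w) else 0 := by
  unfold GG
  split_ifs with h
  · subst h
    rw [grec_words_empty, Finset.sum_singleton, grec_fst_nil, if_neg (Nat.not_lt_zero a)]
  · rw [Finset.sum_filter]

private theorem grec_ne_nil {V : Finset ℕ} (hV : V.Nonempty) {w : List ℕ} (hw : w ∈ words V) :
    w ≠ [] := by
  rintro rfl
  rw [mem_words] at hw
  have := hw.2.1
  rw [List.toFinset_nil] at this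
  exact hV.ne_empty this.symm

private theorem grec_bij {V : Finset ℕ} (hV : V.Nonempty) (f : List ℕ → ℝ) :
    ∑ w ∈ words V, f w = ∑ Vl ∈ (V.erase (V.max' hV)).powerset,
      ∑ p ∈ (words Vl ×ˢ words (V.erase (V.max' hV) \ Vl)).filter
        (fun p => p.2 ≠ [] → p.1 ≠ []), f (p.1 ++ V.max' hV :: p.2) := by
  set m := V.max' hV with hm
  have hmV : m ∈ V := V.max'_mem hV
  have hlt : ∀ b ∈ V.erase m, b < m := by
    intro b hb
    rw [Finset.mem_erase] at hb
    exact lt_of_le_of_ne (V.le_max' b hb.2) hb.1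
  rw [Finset.sum_sigma']
  symm
  refine Finset.sum_bij (fun q _ => q.2.1 ++ m :: q.2.2) ?_ ?_ ?_ ?_
  · rintro ⟨Vl, L, R⟩ hq
    rw [Finset.mem_sigma, Finset.mem_powerset, Finset.mem_filter, Finset.mem_product, mem_words,
      mem_words] at hq
    obtain ⟨hVl, ⟨⟨hL1, hL2, hL3⟩, ⟨hR1, hR2, hR3⟩⟩, hLR⟩ := hq
    simp only at hVl hL1 hL2 hL3 hR1 hR2 hR3 hLR ⊢
    have hLm : ∀ b ∈ L, b < m := by
      intro b hb
      apply hlt
      apply hVl
      rw [← hL2]
      exact List.mem_toFinset.mpr hb
    have hRm : ∀ b ∈ R, b < m := by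
      intro b hb
      apply hlt
      have : b ∈ R.toFinset := List.mem_toFinset.mpr hb
      rw [hR2, Finset.mem_sdiff] at this
      exact this.1
    rw [mem_words]
    refine ⟨?_, ?_, ?_⟩
    · rw [List.nodup_append, List.nodup_cons]
      refine ⟨hL1, ⟨fun h => lt_irrefl _ (hRm _ h), hR1⟩, ?_⟩
      intro b hb c hc hbc
      subst hbc
      rcases List.mem_cons.mp hc with h | h
      · exact absurd (hLm b hb) (by rw [h]; exact lt_irrefl _)
      · have h1 : b ∈ R.toFinset := List.mem_toFinset.mpr h
        rw [hR2, Finset.mem_sdiff] at h1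
        apply h1.2
        rw [← hL2]
        exact List.mem_toFinset.mpr hb
    · ext b
      rw [List.mem_toFinset, List.mem_append, List.mem_cons, ← List.mem_toFinset (l := L),
        ← List.mem_toFinset (l := R), hL2, hR2, Finset.mem_sdiff, Finset.mem_erase]
      constructor
      · rintro (h | rfl | h)
        · exact (Finset.mem_erase.mp (hVl h)).2
        · exact hmV
        · exact h.1.2
      · intro h
        by_cases h1 : b ∈ Vl
        · exact Or.inl h1
        · by_cases h2 : b = m
          · exact Or.inr (Or.inl h2)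
          · exact Or.inr (Or.inr ⟨⟨h2, h⟩, h1⟩)
    · rw [isEDP_split hLm hRm]
      exact ⟨hL3, hR3, hLR⟩
  · rintro ⟨Vl, L, R⟩ hq ⟨Vl', L', R'⟩ hq' heq
    rw [Finset.mem_sigma, Finset.mem_powerset, Finset.mem_filter, Finset.mem_product, mem_words,
      mem_words] at hq hq'
    obtain ⟨hVl, ⟨⟨hL1, hL2, hL3⟩, ⟨hR1, hR2, hR3⟩⟩, hLR⟩ := hq
    obtain ⟨hVl', ⟨⟨hL1', hL2', hL3'⟩, ⟨hR1', hR2', hR3'⟩⟩, hLR'⟩ := hq'
    simp only at hVl hL1 hL2 hL3 hR1 hR2 hR3 hLR hVl' hL1' hL2' hL3' hR1' hR2' hR3' hLR' heq
    have h1 : m ∉ L := by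
      intro h
      have h1 : m ∈ L.toFinset := List.mem_toFinset.mpr h
      rw [hL2] at h1
      exact lt_irrefl _ (hlt m (hVl h1))
    have h2 : m ∉ R := by
      intro h
      have h1 : m ∈ R.toFinset := List.mem_toFinset.mpr h
      rw [hR2, Finset.mem_sdiff] at h1
      exact lt_irrefl _ (hlt m h1.1)
    have h3 := (List.append_cons_inj_of_notMem h1 h2).mp heq
    obtain ⟨rfl, -, rfl⟩ := h3
    rw [hL2] at hL2'
    subst hL2'
    rfl
  · intro w hw
    have hwne := grec_ne_nil hV hw
    rw [mem_words] at hw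
    obtain ⟨hw1, hw2, hw3⟩ := hw
    obtain ⟨L, R, hwLR, hL, hR⟩ := exists_split hwne hw1
    have hmax : maxEntry w = m := by
      rw [maxEntry_eq_sup, hw2]
      apply le_antisymm
      · apply Finset.sup_le
        intro b hb
        exact V.le_max' b hb
      · exact Finset.le_sup (f := id) hmV
    rw [hmax] at hwLR hL hR
    subst hwLR
    rw [List.nodup_append, List.nodup_cons] at hw1
    obtain ⟨hn1, ⟨hn2, hn3⟩, hn4⟩ := hw1
    rw [isEDP_split hL hR] at hw3
    refine ⟨⟨L.toFinset, L, R⟩, ?_, rfl⟩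
    rw [Finset.mem_sigma, Finset.mem_powerset, Finset.mem_filter, Finset.mem_product, mem_words,
      mem_words]
    refine ⟨?_, ⟨⟨hn1, rfl, hw3.1⟩, ⟨hn3, ?_, hw3.2.1⟩⟩, hw3.2.2⟩
    · intro b hb
      rw [List.mem_toFinset] at hb
      rw [Finset.mem_erase, ← hw2, List.mem_toFinset, List.mem_append]
      exact ⟨(hL b hb).ne, Or.inl hb⟩
    · ext b
      simp only
      rw [Finset.mem_sdiff, Finset.mem_erase, ← hw2, List.mem_toFinset, List.mem_toFinset,
        List.mem_toFinset, List.mem_append, List.mem_cons]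
      constructor
      · intro h
        refine ⟨⟨(hR b h).ne, Or.inr (Or.inr h)⟩, ?_⟩
        intro h1
        exact hn4 b h1 b (List.mem_cons_of_mem _ h) rfl
      · rintro ⟨⟨h1, h2⟩, h3⟩
        rcases h2 with h2 | h2 | h2
        · exact absurd h2 h3
        · exact absurd h2 h1
        · exact h2
  · intro q _
    rfl

/-- the contribution of one left label set -/
private theorem grec_term (x : ℝ) {W : Finset ℕ} {m : ℕ} (hlt : ∀ b ∈ W, b < m) (h0 : 0 ∉ W)
    (a : ℕ) {Vl : Finset ℕ} (hVl : Vl ⊆ W) :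
    ∑ p ∈ (words Vl ×ˢ words (W \ Vl)).filter (fun p => p.2 ≠ [] → p.1 ≠ []),
        (if a < fst (p.1 ++ m :: p.2) then x ^ des (stackSort (p.1 ++ m :: p.2)) else 0) =
      (if Vl = ∅ then (if W = ∅ ∧ a < m then 1 else 0) else 0) +
      (if Vl = W then GG x W a else 0) +
      x * (GG x Vl a * GG x (W \ Vl) 0) +
      (1 - x) * (GG x Vl a * GG x (W \ Vl) (Vl.sup id)) := by
  have hG0 : ∀ b, GG x ∅ b = 0 := by
    intro b
    unfold GG
    rw [if_pos rfl]
  rcases Vl.eq_empty_or_nonempty with rfl | hne
  · -- empty left part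
    rw [Finset.sum_filter, Finset.sum_product, grec_words_empty, Finset.sum_singleton, hG0,
      if_pos rfl, Finset.sdiff_empty]
    rcases W.eq_empty_or_nonempty with rfl | hW
    · rw [grec_words_empty, Finset.sum_singleton, if_pos (by simp), hG0, List.nil_append, fst_single,
        des_stackSort_single, pow_zero, if_pos rfl]
      by_cases h : a < m
      · rw [if_pos h, if_pos ⟨rfl, h⟩]
        ring
      · rw [if_neg h, if_neg (fun h' => h h'.2)]
        ring
    · rw [if_neg (fun h' : W = ∅ ∧ a < m => hW.ne_empty h'.1), if_neg (fun h' => hW.ne_empty h'.symm)]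
      have : ∀ R ∈ words W, (if (R ≠ [] → ([] : List ℕ) ≠ []) then
          (if a < fst ([] ++ m :: R) then x ^ des (stackSort ([] ++ m :: R)) else 0) else 0) =
          (0 : ℝ) := by
        intro R hR
        rw [if_neg]
        intro h
        exact h (grec_ne_nil hW hR) rfl
      rw [Finset.sum_congr rfl this, Finset.sum_const_zero]
      ring
  · rw [if_neg hne.ne_empty]
    have hLne : ∀ L ∈ words Vl, L ≠ [] := fun L hL => grec_ne_nil hne hL
    have hLm : ∀ L ∈ words Vl, ∀ b ∈ L, b < m := by
      intro L hL b hb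
      rw [mem_words] at hL
      apply hlt
      apply hVl
      rw [← hL.2.1]
      exact List.mem_toFinset.mpr hb
    by_cases hW : Vl = W
    · -- empty right part
      subst hW
      rw [if_pos rfl, Finset.sdiff_self, hG0, hG0, grec_words_empty, Finset.sum_filter,
        Finset.sum_product, grec_sum]
      have : ∀ L ∈ words Vl, (∑ R ∈ ({[]} : Finset (List ℕ)), if (R ≠ [] → L ≠ []) then
          (if a < fst (L ++ m :: R) then x ^ des (stackSort (L ++ m :: R)) else 0) else 0) =
          if a < fst L then x ^ des (stackSort L) else 0 := by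
        intro L hL
        rw [Finset.sum_singleton, if_pos (fun h => absurd rfl h),
          fst_split (hLm L hL) (by simp) (hLne L hL), des_split (hLm L hL) (by simp),
          if_neg (fun h : L ≠ [] ∧ ([] : List ℕ) ≠ [] ∧ fst [] < maxEntry L => h.2.1 rfl),
          grec_des_nil, add_zero, add_zero]
      rw [Finset.sum_congr rfl this]
      ring
    · rw [if_neg hW]
      have hRne' : (W \ Vl).Nonempty := by
        rw [Finset.sdiff_nonempty]
        intro h
        exact hW (Finset.Subset.antisymm hVl h)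
      have hRne : ∀ R ∈ words (W \ Vl), R ≠ [] := fun R hR => grec_ne_nil hRne' hR
      have hRm : ∀ R ∈ words (W \ Vl), ∀ b ∈ R, b < m := by
        intro R hR b hb
        rw [mem_words] at hR
        apply hlt
        have : b ∈ R.toFinset := List.mem_toFinset.mpr hb
        rw [hR.2.1, Finset.mem_sdiff] at this
        exact this.1
      have hfR : ∀ R ∈ words (W \ Vl), fst R ∈ W \ Vl := by
        intro R hR
        have h1 := fst_mem (hRne R hR)
        rw [mem_words] at hR
        rw [← hR.2.1]
        exact List.mem_toFinset.mpr h1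
      have hsup : Vl.sup id ∈ Vl := by
        obtain ⟨b, hb, hb'⟩ := Finset.exists_mem_eq_sup Vl hne id
        rw [hb']
        exact hb
      rw [Finset.sum_filter, Finset.sum_product, grec_sum x Vl a, grec_sum x (W \ Vl) 0,
        grec_sum x (W \ Vl) (Vl.sup id), Finset.sum_mul_sum, Finset.sum_mul_sum, Finset.mul_sum,
        Finset.mul_sum, zero_add, zero_add, ← Finset.sum_add_distrib]
      refine Finset.sum_congr rfl fun L hL => ?_
      rw [Finset.mul_sum, Finset.mul_sum, ← Finset.sum_add_distrib]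
      refine Finset.sum_congr rfl fun R hR => ?_
      have hmaxL : maxEntry L = Vl.sup id := by
        rw [maxEntry_eq_sup, (mem_words.mp hL).2.1]
      rw [if_pos (fun _ => hLne L hL), fst_split (hLm L hL) (hRm R hR) (hLne L hL),
        des_split (hLm L hL) (hRm R hR), hmaxL]
      have hpos : 0 < fst R := by
        have h1 := hfR R hR
        rw [Finset.mem_sdiff] at h1
        rcases Nat.eq_zero_or_pos (fst R) with h2 | h2
        · rw [h2] at h1
          exact absurd h1.1 h0
        · exact h2
      rw [if_pos hpos]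
      have hneq : fst R ≠ Vl.sup id := by
        intro h
        have h1 := hfR R hR
        rw [Finset.mem_sdiff, h] at h1
        exact h1.2 hsup
      by_cases ha : a < fst L
      · rw [if_pos ha, if_pos ha]
        rcases lt_or_gt_of_ne hneq with h | h
        · rw [if_pos ⟨hLne L hL, hRne R hR, h⟩, if_neg (not_lt.mpr h.le), pow_add, pow_add, pow_one]
          ring
        · rw [if_neg (fun h' => absurd h'.2.2 (not_lt.mpr h.le)), if_pos h, add_zero, pow_add]
          ring
      · rw [if_neg ha, if_neg ha]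
        ring

theorem GG_rec (x : ℝ) {V : Finset ℕ} (hV : V.Nonempty) (h0 : 0 ∉ V) (a : ℕ) :
    GG x V a = (if V.erase (V.max' hV) = ∅ ∧ a < V.max' hV then 1 else 0) +
      GG x (V.erase (V.max' hV)) a +
      x * ∑ L ∈ (V.erase (V.max' hV)).powerset,
        GG x L a * GG x (V.erase (V.max' hV) \ L) 0 +
      (1 - x) * ∑ L ∈ (V.erase (V.max' hV)).powerset,
        GG x L a * GG x (V.erase (V.max' hV) \ L) (L.sup id) := by
  rw [grec_sum x V a, grec_bij hV]
  have hlt : ∀ b ∈ V.erase (V.max' hV), b < V.max' hV := by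
    intro b hb
    rw [Finset.mem_erase] at hb
    exact lt_of_le_of_ne (V.le_max' b hb.2) hb.1
  have h0' : 0 ∉ V.erase (V.max' hV) := fun h => h0 (Finset.mem_of_mem_erase h)
  rw [Finset.sum_congr rfl fun Vl hVl =>
    grec_term x hlt h0' a (Finset.mem_powerset.mp hVl)]
  rw [Finset.sum_add_distrib, Finset.sum_add_distrib, Finset.sum_add_distrib, ← Finset.mul_sum,
    ← Finset.mul_sum]
  congr 3
  · rw [Finset.sum_ite_eq', if_pos (Finset.empty_mem_powerset _)]
  · rw [Finset.sum_ite_eq', if_pos (Finset.mem_powerset_self _)]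

/-- no word starts (after sorting) with a letter larger than all labels -/
theorem GG_eq_zero_of_sup_le (x : ℝ) {V : Finset ℕ} {a : ℕ} (h : V.sup id ≤ a) : GG x V a = 0 := by
  rcases V.eq_empty_or_nonempty with rfl | hV
  · unfold GG
    rw [if_pos rfl]
  · rw [grec_sum]
    apply Finset.sum_eq_zero
    intro w hw
    rw [if_neg]
    intro h1
    have h2 := fst_mem (grec_ne_nil hV hw)
    rw [mem_words] at hw
    have h3 : fst w ∈ V := by
      rw [← hw.2.1]
      exact List.mem_toFinset.mpr h2
    have h4 : fst w ≤ V.sup id := Finset.le_sup (f := id) h3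
    omega

end RR
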