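import Pool.Agent.Lib.MP_31701c_co.Basic

/-!
# RR-Integral : integral representation of `hm`, `xm` for `0 ≤ e < 1`

Let `z = exp(iθ)`, `D(z) = 1 + e z + e² z²` (no zero in `|z| ≤ 1`: `D(z) = (1 - eω z)(1 - e ω̄ z)`, or
`|D| ≥ 1 - e`... in any case `QQ e t = (β + e t/2)² + (3/4) e² t² > 0`, `β = 1 - e²`).
Claim: for all `m k`,
  `vv e m k = (2/π) ∫_0^π (e + 2cos θ)^m sin θ * Im (z^{k+1} / D z) dθ`.
* recursion `k → k+1`: `(e + z + 1/z) z^{k+2} = z^{k+1} + e z^{k+2} + z^{k+3}` and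
  `e + z + 1/z = e + 2 cos θ`.
* `k = 0`: `(e + z + 1/z) z - β z² = 1 + e z + e² z² = D`, whose quotient by `D` is `1`, with `Im = 0`.
* `m = 0`: `Im (z^{k+1}/D)` is odd in `θ`, `sin θ = (z - 1/z)/(2i)`:
  `(2/π) ∫_0^π sin θ Im(z^{k+1}/D) = (1/2π) ∫_0^{2π} z^k (1 - z²)/D(z) dθ = [k = 0]`, the value at `0`
  of `z^k (1-z²)/D(z)` (mean value property, e.g. `circleAverage`/`Complex.circleIntegral...`).
  Alternative for `m = 0`: expand `1/D` in a geometric series.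
Finally `Im (z/D) = β sin θ / |D|²` and `|D|² = QQ e (e + 2 cos θ)`.
For `m ≥ 1`: `xm e m = hm e m / β`.
-/

set_option autoImplicit false

namespace RR

theorem QQ_pos {e : ℝ} (h0 : 0 ≤ e) (h1 : e < 1) (t : ℝ) : 0 < QQ e t := by
  have hb : 0 < 1 - e ^ 2 := by nlinarith
  unfold QQ
  nlinarith [sq_nonneg (e * t + (1 - e ^ 2) / 2), mul_pos hb hb]

/-- lower bound for `QQ` -/
private theorem rrInt_QQ_ge {e : ℝ} (t : ℝ) : 3 / 4 * (1 - e ^ 2) ^ 2 ≤ QQ e t := by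
  unfold QQ
  nlinarith [sq_nonneg (e * t + (1 - e ^ 2) / 2)]

/-- numerator of `Im (z^{k+1} / D z)` -/
private noncomputable def rrInt_num (e : ℝ) (k : ℕ) (θ : ℝ) : ℝ :=
  Real.sin (((k : ℝ) + 1) * θ) + e * Real.sin ((k : ℝ) * θ) + e ^ 2 * Real.sin (((k : ℝ) - 1) * θ)

private noncomputable def rrInt_J (e : ℝ) (k : ℕ) (θ : ℝ) : ℝ := rrInt_num e k θ / QQ e (tt e θ)

private theorem rrInt_num_zero (e θ : ℝ) : rrInt_num e 0 θ = (1 - e ^ 2) * Real.sin θ := by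
  unfold rrInt_num
  have h1 : ((0 : ℕ) : ℝ) + 1 = 1 := by norm_num
  have h2 : (((0 : ℕ) : ℝ) - 1) * θ = -θ := by push_cast; ring
  have h3 : ((0 : ℕ) : ℝ) * θ = 0 := by simp
  rw [h1, h2, h3, one_mul, Real.sin_zero, Real.sin_neg]
  ring

private theorem rrInt_num_one (e θ : ℝ) : rrInt_num e 1 θ = tt e θ * Real.sin θ := by
  unfold rrInt_num tt
  have h1 : (((1 : ℕ) : ℝ) + 1) * θ = 2 * θ := by push_cast; ring
  have h2 : (((1 : ℕ) : ℝ) - 1) * θ = 0 := by push_cast; ring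
  have h3 : ((1 : ℕ) : ℝ) * θ = θ := by simp
  rw [h1, h2, h3, Real.sin_zero, Real.sin_two_mul]
  ring

private theorem rrInt_sin_step (a θ : ℝ) :
    2 * Real.cos θ * Real.sin (a * θ) = Real.sin ((a + 1) * θ) + Real.sin ((a - 1) * θ) := by
  have h1 : (a + 1) * θ = a * θ + θ := by ring
  have h2 : (a - 1) * θ = a * θ - θ := by ring
  rw [h1, h2, Real.sin_add, Real.sin_sub]
  ring

private theorem rrInt_num_step (e : ℝ) (k : ℕ) (θ : ℝ) :
    tt e θ * rrInt_num e (k + 1) θ =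
      rrInt_num e k θ + e * rrInt_num e (k + 1) θ + rrInt_num e (k + 2) θ := by
  unfold rrInt_num tt
  have h1 := rrInt_sin_step ((k : ℝ) + 2) θ
  have h2 := rrInt_sin_step ((k : ℝ) + 1) θ
  have h3 := rrInt_sin_step (k : ℝ) θ
  have e1 : ((k + 1 : ℕ) : ℝ) + 1 = (k : ℝ) + 2 := by push_cast; ring
  have e2 : ((k + 1 : ℕ) : ℝ) = (k : ℝ) + 1 := by push_cast; ring
  have e3 : ((k + 1 : ℕ) : ℝ) - 1 = (k : ℝ) := by push_cast; ring
  have e4 : ((k + 2 : ℕ) : ℝ) + 1 = (k : ℝ) + 2 + 1 := by push_cast; ring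
  have e5 : ((k + 2 : ℕ) : ℝ) = (k : ℝ) + 1 + 1 := by push_cast; ring
  have e6 : ((k + 2 : ℕ) : ℝ) - 1 = (k : ℝ) + 1 := by push_cast; ring
  rw [e1, e3, e4, e6, e2, e5]
  have e7 : (k : ℝ) + 2 - 1 = (k : ℝ) + 1 := by ring
  have e8 : (k : ℝ) + 1 - 1 = (k : ℝ) := by ring
  rw [e7] at h1
  rw [e8] at h2
  linear_combination h1 + e * h2 + e ^ 2 * h3

private theorem rrInt_QQ_tt (e θ : ℝ) : QQ e (tt e θ) =
    1 - e ^ 2 + e ^ 4 + 2 * e * (1 + e ^ 2) * Real.cos θ + 4 * e ^ 2 * Real.cos θ ^ 2 := by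
  unfold QQ tt
  ring

/-- `Im (z^{k+1} (1 + e z + e² z²) / D) = sin ((k+1) θ)` -/
private theorem rrInt_num_sum (e : ℝ) (k : ℕ) (θ : ℝ) :
    rrInt_num e k θ + e * rrInt_num e (k + 1) θ + e ^ 2 * rrInt_num e (k + 2) θ =
      QQ e (tt e θ) * Real.sin (((k : ℝ) + 1) * θ) := by
  rw [rrInt_QQ_tt]
  unfold rrInt_num
  have e1 : (((k + 1 : ℕ) : ℝ) + 1) * θ = ((k : ℝ) + 1) * θ + θ := by push_cast; ring
  have e2 : ((k + 1 : ℕ) : ℝ) * θ = ((k : ℝ) + 1) * θ := by push_cast; ring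
  have e3 : (((k + 1 : ℕ) : ℝ) - 1) * θ = ((k : ℝ) + 1) * θ - θ := by push_cast; ring
  have e4 : (((k + 2 : ℕ) : ℝ) + 1) * θ = ((k : ℝ) + 1) * θ + 2 * θ := by push_cast; ring
  have e5 : ((k + 2 : ℕ) : ℝ) * θ = ((k : ℝ) + 1) * θ + θ := by push_cast; ring
  have e6 : (((k + 2 : ℕ) : ℝ) - 1) * θ = ((k : ℝ) + 1) * θ := by push_cast; ring
  have e7 : (k : ℝ) * θ = ((k : ℝ) + 1) * θ - θ := by ring
  have e8 : ((k : ℝ) - 1) * θ = ((k : ℝ) + 1) * θ - 2 * θ := by ring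
  rw [e1, e2, e3, e4, e5, e6, e7, e8, Real.sin_add, Real.sin_sub, Real.sin_add, Real.sin_sub,
    Real.cos_two_mul, Real.sin_two_mul]
  ring

private theorem rrInt_cont_num (e : ℝ) (k : ℕ) : Continuous (rrInt_num e k) := by
  unfold rrInt_num
  fun_prop

private theorem rrInt_cont_QQ (e : ℝ) : Continuous fun θ => QQ e (tt e θ) := by
  unfold QQ tt
  fun_prop

private theorem rrInt_cont_J {e : ℝ} (h0 : 0 ≤ e) (h1 : e < 1) (k : ℕ) :
    Continuous (rrInt_J e k) := by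
  unfold rrInt_J
  exact (rrInt_cont_num e k).div (rrInt_cont_QQ e) fun θ => (QQ_pos h0 h1 _).ne'

/-- `u_k = ∫ sin θ J_k` -/
private noncomputable def rrInt_u (e : ℝ) (k : ℕ) : ℝ :=
  ∫ θ in (0:ℝ)..Real.pi, Real.sin θ * rrInt_J e k θ

private theorem rrInt_abs_num {e : ℝ} (h0 : 0 ≤ e) (h1 : e < 1) (k : ℕ) (θ : ℝ) :
    |rrInt_num e k θ| ≤ 3 := by
  unfold rrInt_num
  have a1 := Real.abs_sin_le_one (((k : ℝ) + 1) * θ)
  have a2 := Real.abs_sin_le_one ((k : ℝ) * θ)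
  have a3 := Real.abs_sin_le_one (((k : ℝ) - 1) * θ)
  rw [abs_le] at *
  have h2 : e ^ 2 ≤ 1 := by nlinarith
  have h3 : 0 ≤ e ^ 2 := sq_nonneg e
  constructor
  · nlinarith [a1.1, a2.1, a3.1, mul_nonneg h0 (by linarith [a2.1] : (0:ℝ) ≤ Real.sin ((k : ℝ) * θ) + 1),
      mul_nonneg h3 (by linarith [a3.1] : (0:ℝ) ≤ Real.sin (((k : ℝ) - 1) * θ) + 1)]
  · nlinarith [a1.2, a2.2, a3.2, mul_nonneg h0 (by linarith [a2.2] : (0:ℝ) ≤ 1 - Real.sin ((k : ℝ) * θ)),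
      mul_nonneg h3 (by linarith [a3.2] : (0:ℝ) ≤ 1 - Real.sin (((k : ℝ) - 1) * θ))]

private theorem rrInt_u_bdd {e : ℝ} (h0 : 0 ≤ e) (h1 : e < 1) (k : ℕ) :
    |rrInt_u e k| ≤ 3 / (3 / 4 * (1 - e ^ 2) ^ 2) * Real.pi := by
  have hb : 0 < 1 - e ^ 2 := by nlinarith
  have h := intervalIntegral.norm_integral_le_of_norm_le_const (a := (0:ℝ)) (b := Real.pi)
    (f := fun θ => Real.sin θ * rrInt_J e k θ) (C := 3 / (3 / 4 * (1 - e ^ 2) ^ 2)) (by
      intro θ _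
      rw [Real.norm_eq_abs, abs_mul]
      unfold rrInt_J
      rw [abs_div, abs_of_pos (QQ_pos h0 h1 _)]
      have a1 := Real.abs_sin_le_one θ
      have a2 := rrInt_abs_num h0 h1 k θ
      have a3 : |rrInt_num e k θ| / QQ e (tt e θ) ≤ 3 / (3 / 4 * (1 - e ^ 2) ^ 2) :=
        div_le_div₀ (by norm_num) a2 (by positivity) (rrInt_QQ_ge _)
      have a4 : 0 ≤ |rrInt_num e k θ| / QQ e (tt e θ) :=
        div_nonneg (abs_nonneg _) (QQ_pos h0 h1 _).le
      calc |Real.sin θ| * (|rrInt_num e k θ| / QQ e (tt e θ))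
          ≤ 1 * (|rrInt_num e k θ| / QQ e (tt e θ)) := mul_le_mul_of_nonneg_right a1 a4
        _ ≤ _ := by rw [one_mul]; exact a3)
  rw [Real.norm_eq_abs, sub_zero, abs_of_pos Real.pi_pos] at h
  exact h

private theorem rrInt_cos_int (j : ℕ) (hj : j ≠ 0) :
    ∫ θ in (0:ℝ)..Real.pi, Real.cos ((j : ℝ) * θ) = 0 := by
  have hj' : (j : ℝ) ≠ 0 := Nat.cast_ne_zero.2 hj
  rw [intervalIntegral.integral_comp_mul_left (fun x => Real.cos x) hj', integral_cos,
    Real.sin_nat_mul_pi, mul_zero, Real.sin_zero, sub_zero, smul_zero]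

private theorem rrInt_sin_int (k : ℕ) :
    ∫ θ in (0:ℝ)..Real.pi, Real.sin θ * Real.sin (((k : ℝ) + 1) * θ) =
      if k = 0 then Real.pi / 2 else 0 := by
  have h1 : ∀ θ : ℝ, Real.sin θ * Real.sin (((k : ℝ) + 1) * θ) =
      1 / 2 * (Real.cos ((k : ℝ) * θ) - Real.cos (((k + 2 : ℕ) : ℝ) * θ)) := by
    intro θ
    have e1 : (k : ℝ) * θ = ((k : ℝ) + 1) * θ - θ := by ring
    have e2 : ((k + 2 : ℕ) : ℝ) * θ = ((k : ℝ) + 1) * θ + θ := by push_cast; ring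
    rw [e1, e2, Real.cos_sub, Real.cos_add]
    ring
  simp_rw [h1]
  rw [intervalIntegral.integral_const_mul, intervalIntegral.integral_sub
    (Continuous.intervalIntegrable (by fun_prop) _ _)
    (Continuous.intervalIntegrable (by fun_prop) _ _),
    rrInt_cos_int (k + 2) (by omega)]
  by_cases hk : k = 0
  · subst hk
    simp
    ring
  · rw [rrInt_cos_int k hk, if_neg hk]
    ring

private theorem rrInt_add3 {f g h : ℝ → ℝ} (hf : Continuous f) (hg : Continuous g)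
    (hh : Continuous h) (a : ℝ) (b : ℝ) :
    (∫ θ in (0:ℝ)..Real.pi, f θ) + a * (∫ θ in (0:ℝ)..Real.pi, g θ) +
      b * (∫ θ in (0:ℝ)..Real.pi, h θ) = ∫ θ in (0:ℝ)..Real.pi, (f θ + a * g θ + b * h θ) := by
  have h1 : Continuous fun θ => f θ + a * g θ := hf.add (hg.const_mul a)
  have h2 : Continuous fun θ => a * g θ := hg.const_mul a
  have h3 : Continuous fun θ => b * h θ := hh.const_mul b
  have e1 : ∫ θ in (0:ℝ)..Real.pi, (f θ + a * g θ + b * h θ) =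
      (∫ θ in (0:ℝ)..Real.pi, (f θ + a * g θ)) + ∫ θ in (0:ℝ)..Real.pi, b * h θ :=
    intervalIntegral.integral_add (h1.intervalIntegrable _ _) (h3.intervalIntegrable _ _)
  have e2 : ∫ θ in (0:ℝ)..Real.pi, (f θ + a * g θ) =
      (∫ θ in (0:ℝ)..Real.pi, f θ) + ∫ θ in (0:ℝ)..Real.pi, a * g θ :=
    intervalIntegral.integral_add (hf.intervalIntegrable _ _) (h2.intervalIntegrable _ _)
  rw [e1, e2, intervalIntegral.integral_const_mul, intervalIntegral.integral_const_mul]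

private theorem rrInt_congr {f g : ℝ → ℝ} (h : ∀ θ, f θ = g θ) :
    ∫ θ in (0:ℝ)..Real.pi, f θ = ∫ θ in (0:ℝ)..Real.pi, g θ := by
  rw [funext h]

private theorem rrInt_u_rec {e : ℝ} (h0 : 0 ≤ e) (h1 : e < 1) (k : ℕ) :
    rrInt_u e k + e * rrInt_u e (k + 1) + e ^ 2 * rrInt_u e (k + 2) =
      if k = 0 then Real.pi / 2 else 0 := by
  rw [← rrInt_sin_int k]
  unfold rrInt_u
  have c : ∀ j, Continuous fun θ => Real.sin θ * rrInt_J e j θ := fun j =>
    Real.continuous_sin.mul (rrInt_cont_J h0 h1 j)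
  rw [rrInt_add3 (c k) (c (k + 1)) (c (k + 2)) e (e ^ 2)]
  refine rrInt_congr fun θ => ?_
  have hq := (QQ_pos h0 h1 (tt e θ)).ne'
  have h2 := rrInt_num_sum e k θ
  unfold rrInt_J
  field_simp
  linear_combination Real.sin θ * h2

private theorem rrInt_u_eq {e : ℝ} (h0 : 0 ≤ e) (h1 : e < 1) (k : ℕ) :
    rrInt_u e k = if k = 0 then Real.pi / 2 else 0 := by
  -- `w k = e^k u_k` is periodic of period 3 from `k = 1` on
  have hstep : ∀ k, e ^ (k + 4) * rrInt_u e (k + 4) = e ^ (k + 1) * rrInt_u e (k + 1) := by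
    intro k
    have a := rrInt_u_rec h0 h1 (k + 1)
    have b := rrInt_u_rec h0 h1 (k + 2)
    rw [if_neg (by omega)] at a b
    have e1 : k + 1 + 1 = k + 2 := rfl
    have e2 : k + 1 + 2 = k + 3 := rfl
    have e3 : k + 2 + 1 = k + 3 := rfl
    have e4 : k + 2 + 2 = k + 4 := rfl
    rw [e1, e2] at a
    rw [e3, e4] at b
    linear_combination e ^ (k + 2) * b - e ^ (k + 1) * a
  have hstep2 : ∀ n k, e ^ (k + 1) * rrInt_u e (k + 1)
      = e ^ (k + 1 + 3 * n) * rrInt_u e (k + 1 + 3 * n) := by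
    intro n
    induction n with
    | zero => intro k; simp
    | succ n ih =>
      intro k
      rw [ih k]
      have := hstep (k + 3 * n)
      rw [show k + 3 * n + 4 = k + 1 + 3 * (n + 1) by ring,
        show k + 3 * n + 1 = k + 1 + 3 * n by ring] at this
      exact this.symm
  have hzero : ∀ k, e ^ (k + 1) * rrInt_u e (k + 1) = 0 := by
    intro k
    set Bd : ℝ := 3 / (3 / 4 * (1 - e ^ 2) ^ 2) * Real.pi with hBd
    have h3 : Filter.Tendsto (fun n : ℕ => e ^ (k + 1 + 3 * n) * Bd) Filter.atTop (nhds 0) := by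
      have h4 : Filter.Tendsto (fun n : ℕ => e ^ n) Filter.atTop (nhds 0) :=
        tendsto_pow_atTop_nhds_zero_of_lt_one h0 h1
      have h5 : Filter.Tendsto (fun n : ℕ => k + 1 + 3 * n) Filter.atTop Filter.atTop :=
        Filter.tendsto_atTop_mono (fun n => by show n ≤ k + 1 + 3 * n; omega) Filter.tendsto_id
      have h6 := (h4.comp h5).mul_const Bd
      rw [zero_mul] at h6
      exact h6
    have h7 : ∀ n : ℕ, |e ^ (k + 1) * rrInt_u e (k + 1)| ≤ e ^ (k + 1 + 3 * n) * Bd := by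
      intro n
      rw [hstep2 n k, abs_mul, abs_of_nonneg (pow_nonneg h0 _)]
      exact mul_le_mul_of_nonneg_left (rrInt_u_bdd h0 h1 _) (pow_nonneg h0 _)
    have h8 : |e ^ (k + 1) * rrInt_u e (k + 1)| ≤ 0 :=
      ge_of_tendsto' h3 h7
    exact abs_nonpos_iff.1 h8
  rcases eq_or_lt_of_le h0 with he | he
  · -- `e = 0`
    have a := rrInt_u_rec h0 h1 k
    rw [← he] at a ⊢
    simpa using a
  · have hz : ∀ k, rrInt_u e (k + 1) = 0 := fun k =>
      (mul_eq_zero.1 (hzero k)).resolve_left (pow_pos he _).ne'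
    cases k with
    | zero =>
      have a := rrInt_u_rec h0 h1 0
      rw [hz 0, hz 1] at a
      simpa using a
    | succ k => rw [hz k, if_neg (by omega)]

private theorem rrInt_vv {e : ℝ} (h0 : 0 ≤ e) (h1 : e < 1) (m : ℕ) : ∀ k : ℕ,
    vv e m k = 2 / Real.pi *
      ∫ θ in (0:ℝ)..Real.pi, tt e θ ^ m * (Real.sin θ * rrInt_J e k θ) := by
  have hpi := Real.pi_pos.ne'
  have ct : Continuous (tt e) := by unfold tt; fun_prop
  have c : ∀ j m, Continuous fun θ => tt e θ ^ m * (Real.sin θ * rrInt_J e j θ) := fun j m =>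
    (ct.pow m).mul (Real.continuous_sin.mul (rrInt_cont_J h0 h1 j))
  induction m with
  | zero =>
    intro k
    have h2 := rrInt_u_eq h0 h1 k
    unfold rrInt_u at h2
    simp only [pow_zero, one_mul]
    rw [h2]
    cases k with
    | zero =>
      rw [if_pos rfl]
      show (1 : ℝ) = _
      field_simp
    | succ k =>
      rw [if_neg (by omega), mul_zero]
      rfl
  | succ m ih =>
    intro k
    cases k with
    | zero =>
      show (1 - e ^ 2) * vv e m 1 = _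
      rw [ih 1, ← mul_assoc, mul_comm (1 - e ^ 2), mul_assoc,
        ← intervalIntegral.integral_const_mul]
      congr 1
      refine rrInt_congr fun θ => ?_
      unfold rrInt_J
      rw [rrInt_num_one, rrInt_num_zero]
      ring
    | succ k =>
      show vv e m k + e * vv e m (k + 1) + vv e m (k + 2) = _
      rw [ih k, ih (k + 1), ih (k + 2)]
      have h3 : ∫ θ in (0:ℝ)..Real.pi, tt e θ ^ (m + 1) * (Real.sin θ * rrInt_J e (k + 1) θ)
          = (∫ θ in (0:ℝ)..Real.pi, tt e θ ^ m * (Real.sin θ * rrInt_J e k θ))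
            + e * (∫ θ in (0:ℝ)..Real.pi, tt e θ ^ m * (Real.sin θ * rrInt_J e (k + 1) θ))
            + ∫ θ in (0:ℝ)..Real.pi, tt e θ ^ m * (Real.sin θ * rrInt_J e (k + 2) θ) := by
        have h5 := rrInt_add3 (c k m) (c (k + 1) m) (c (k + 2) m) e 1
        rw [one_mul] at h5
        rw [h5]
        refine rrInt_congr fun θ => ?_
        have h4 := rrInt_num_step e k θ
        unfold rrInt_J
        have hq := (QQ_pos h0 h1 (tt e θ)).ne'
        field_simp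
        linear_combination (tt e θ) ^ m * Real.sin θ * h4
      rw [h3]
      ring

theorem hm_integral {e : ℝ} (h0 : 0 ≤ e) (h1 : e < 1) (m : ℕ) :
    hm e m = 2 * (1 - e ^ 2) / Real.pi *
      ∫ θ in (0:ℝ)..Real.pi, tt e θ ^ m * (Real.sin θ ^ 2 / QQ e (tt e θ)) := by
  unfold hm
  rw [rrInt_vv h0 h1 m 0, show 2 * (1 - e ^ 2) / Real.pi = 2 / Real.pi * (1 - e ^ 2) by ring,
    mul_assoc, ← intervalIntegral.integral_const_mul (1 - e ^ 2)]
  congr 1
  refine rrInt_congr fun θ => ?_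
  unfold rrInt_J
  rw [rrInt_num_zero]
  ring

theorem xm_integral {e : ℝ} (h0 : 0 ≤ e) (h1 : e < 1) {m : ℕ} (hm1 : 1 ≤ m) :
    xm e m = 2 / Real.pi *
      ∫ θ in (0:ℝ)..Real.pi, tt e θ ^ m * (Real.sin θ ^ 2 / QQ e (tt e θ)) := by
  obtain ⟨j, rfl⟩ : ∃ j, m = j + 1 := ⟨m - 1, by omega⟩
  show vv e j 1 = _
  rw [rrInt_vv h0 h1 j 1]
  congr 1
  refine rrInt_congr fun θ => ?_
  unfold rrInt_J
  rw [rrInt_num_one]
  ring

end RR
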