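import Pool.Agent.Lib.MP_31701c_co.KBasic

/-!
# RR-KBounds : tilted mean and variance

On `[0, thc]`: `cos θ ∈ [2/5, 1]`, `y = yy θ ∈ [0, 1.2]`, `w = wt θ > 0` for `θ > 0` (KBasic).
Fix `x ≥ 4` and put `Φ(θ) = yy θ * sin θ/(1+2cos θ)² * exp(-(yy θ * x))`. Then (direct computation)
`Φ' = 2 w e^{-xy} (3/2 + φ(y) - x y)` with `φ(y) = 2y/(3-y) - y/(2(4-y))`; indeed
`Φ' = [2 sin² θ + yy cos θ]/(1+2cos)² e + 4 yy sin²θ/(1+2cos)³ e - 2 x yy sin² θ/(1+2cos)² e`, `yy = 2(1-cos)`,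
`(1-cos θ)/sin² θ = 1/(1+cos θ)`, `cos/(1+cos) = 1/2 - y/(2(4-y))`, `4(1-cos)/(1+2cos) = 2y/(3-y)`.
(One may keep `ψ(θ) = 1 + cos θ/(1+cos θ) + 4(1-cos θ)/(1+2cos θ) = 3/2 + φ(y)`.)
`(y Φ)' = 2 w e^{-xy} y (5/2 + φ(y) - x y)`.
Write `⟨f⟩ = (2/π) ∫_0^{thc} f w e^{-xy}`; `Φ(thc) ≥ 0`. Integrating (`b = Φ(thc)/π ≥ 0`):
`x K₁ = 1.5 K₀ + ⟨φ⟩ - b`, `x K₂ = 2.5 K₁ + ⟨yφ⟩ - 1.2 b`.
`φ(y) ≤ 0.9326 y` on `[0,1.2]` (`2/(3-y) - 1/(2(4-y))` is increasing, `= 0.93254` at `1.2`), so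
`(x - 0.9326) K₁ ≤ 1.5 K₀`: `mm_le`.
`x (K₂/K₀ - m²) = m + (⟨yφ⟩/K₀ - m ⟨φ⟩/K₀) - (b/K₀)(1.2 - m) ≤ m + ⟨(y-m)(φ(y)-φ(m))⟩/K₀
≤ m + 1.6 V` since `0 ≤ m ≤ 1.2` and `φ' = 6/(3-y)² - 2/(4-y)² ≤ 1.597` on `[0,1.2]`. So
`(x - 1.6) V ≤ m ≤ 1.5/(x - 0.9326)`.
-/

set_option autoImplicit false

namespace RR

namespace KBoundsAux

open Real MeasureTheory intervalIntegral

/-- `e^{-xy}`. -/
noncomputable def EE (x θ : ℝ) : ℝ := Real.exp (-(yy θ * x))

noncomputable def Psi (θ : ℝ) : ℝ :=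
  1 + cos θ / (1 + cos θ) + 4 * (1 - cos θ) / (1 + 2 * cos θ)

noncomputable def Phi (x θ : ℝ) : ℝ := yy θ * sin θ / (1 + 2 * cos θ) ^ 2 * EE x θ

noncomputable def II (x : ℝ) (f : ℝ → ℝ) : ℝ := ∫ θ in (0:ℝ)..thc, f θ * (wt θ * EE x θ)

theorem hasDerivAt_yy (θ : ℝ) : HasDerivAt yy (2 * sin θ) θ := by
  have h := ((Real.hasDerivAt_cos θ).const_mul 2).const_sub 2
  have h2 : HasDerivAt yy (-(2 * -sin θ)) θ := h
  convert h2 using 1
  ring

theorem hasDerivAt_EE (x θ : ℝ) : HasDerivAt (EE x) (EE x θ * (-(2 * sin θ * x))) θ := by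
  have h := (((hasDerivAt_yy θ).mul_const x).neg).exp
  exact h

theorem hasDerivAt_Phi (x θ : ℝ) (h1 : 1 + 2 * cos θ ≠ 0) (h2 : 1 + cos θ ≠ 0) :
    HasDerivAt (Phi x) (2 * ((Psi θ - x * yy θ) * (wt θ * EE x θ))) θ := by
  have hs := Real.hasDerivAt_sin θ
  have hyy := hasDerivAt_yy θ
  have hys := hyy.mul hs
  have hden : HasDerivAt (fun t => (1 + 2 * cos t) ^ 2) (2 * (1 + 2 * cos θ) * (2 * -sin θ)) θ := by
    have h3 := ((Real.hasDerivAt_cos θ).const_mul 2).const_add 1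
    have h4 : HasDerivAt (fun t => (1 + 2 * cos t) ^ 2)
        (((2:ℕ):ℝ) * (1 + 2 * cos θ) ^ (2 - 1) * (2 * -sin θ)) θ := h3.pow 2
    exact h4.congr_deriv (by norm_num)
  have hdiv := hys.div hden (pow_ne_zero 2 h1)
  have hfin := hdiv.mul (hasDerivAt_EE x θ)
  have hss : sin θ ^ 2 = (1 - cos θ) * (1 + cos θ) := by
    have := Real.sin_sq_add_cos_sq θ
    linear_combination this
  have heq : 2 * ((Psi θ - x * yy θ) * (wt θ * EE x θ)) =
      ((2 * sin θ * sin θ + yy θ * cos θ) * (1 + 2 * cos θ) ^ 2 -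
        (yy θ * sin θ) * (2 * (1 + 2 * cos θ) * (2 * -sin θ))) / ((1 + 2 * cos θ) ^ 2) ^ 2 * EE x θ +
      (yy θ * sin θ / (1 + 2 * cos θ) ^ 2) * (EE x θ * (-(2 * sin θ * x))) := by
    have e1 : (2 * sin θ * sin θ + yy θ * cos θ) = sin θ ^ 2 * (2 + 2 * (cos θ / (1 + cos θ))) := by
      have : yy θ * cos θ = sin θ ^ 2 * (2 * (cos θ / (1 + cos θ))) := by
        rw [hss]
        unfold yy
        field_simp
      rw [this]; ring
    have e2 : (yy θ * sin θ) * (2 * (1 + 2 * cos θ) * (2 * -sin θ)) =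
        -(sin θ ^ 2 * (4 * yy θ * (1 + 2 * cos θ))) := by ring
    have e3 : (yy θ * sin θ / (1 + 2 * cos θ) ^ 2) * (EE x θ * (-(2 * sin θ * x))) =
        sin θ ^ 2 * (- (2 * x * yy θ)) / (1 + 2 * cos θ) ^ 2 * EE x θ := by ring
    rw [e1, e2, e3]
    unfold Psi wt yy
    field_simp
    ring
  rw [heq]
  exact hfin

theorem hasDerivAt_yyPhi (x θ : ℝ) (h1 : 1 + 2 * cos θ ≠ 0) (h2 : 1 + cos θ ≠ 0) :
    HasDerivAt (fun t => yy t * Phi x t)
      (2 * ((yy θ + yy θ * Psi θ - x * yy θ ^ 2) * (wt θ * EE x θ))) θ := by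
  have h : HasDerivAt (fun t => yy t * Phi x t)
      (2 * sin θ * Phi x θ + yy θ * (2 * ((Psi θ - x * yy θ) * (wt θ * EE x θ)))) θ :=
    (hasDerivAt_yy θ).mul (hasDerivAt_Phi x θ h1 h2)
  refine h.congr_deriv ?_
  unfold Phi wt
  ring

theorem cos_bd {θ : ℝ} (h : θ ∈ Set.uIcc 0 thc) : 2 / 5 ≤ cos θ := by
  rw [Set.uIcc_of_le thc_pos.le] at h
  exact le_cos_of_le_thc h.1 h.2

theorem continuous_yy : Continuous yy := by unfold yy; fun_prop

theorem continuous_EE (x : ℝ) : Continuous (EE x) := by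
  unfold EE
  have := continuous_yy
  fun_prop

theorem continuousOn_Psi : ContinuousOn Psi (Set.uIcc 0 thc) := by
  unfold Psi
  apply ContinuousOn.add
  · apply ContinuousOn.add continuousOn_const
    apply ContinuousOn.div
    · fun_prop
    · fun_prop
    · intro θ hθ
      have := cos_bd hθ
      linarith
  · apply ContinuousOn.div
    · fun_prop
    · fun_prop
    · intro θ hθ
      have := cos_bd hθ
      linarith

theorem continuousOn_WE (x : ℝ) : ContinuousOn (fun θ => wt θ * EE x θ) (Set.uIcc 0 thc) := by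
  have h := continuousOn_wt
  rw [← Set.uIcc_of_le thc_pos.le] at h
  exact h.mul (continuous_EE x).continuousOn

theorem integrable_mul (x : ℝ) {f : ℝ → ℝ} (hf : ContinuousOn f (Set.uIcc 0 thc)) :
    IntervalIntegrable (fun θ => f θ * (wt θ * EE x θ)) volume 0 thc :=
  (hf.mul (continuousOn_WE x)).intervalIntegrable

theorem II_add (x : ℝ) {f g : ℝ → ℝ} (hf : ContinuousOn f (Set.uIcc 0 thc))
    (hg : ContinuousOn g (Set.uIcc 0 thc)) :
    II x (fun θ => f θ + g θ) = II x f + II x g := by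
  unfold II
  rw [← integral_add (integrable_mul x hf) (integrable_mul x hg)]
  congr 1
  ext θ
  ring

theorem II_smul (x c : ℝ) (f : ℝ → ℝ) : II x (fun θ => c * f θ) = c * II x f := by
  unfold II
  rw [← intervalIntegral.integral_const_mul]
  congr 1
  ext θ
  ring

theorem II_mono (x : ℝ) {f g : ℝ → ℝ} (hf : ContinuousOn f (Set.uIcc 0 thc))
    (hg : ContinuousOn g (Set.uIcc 0 thc)) (h : ∀ θ ∈ Set.Icc 0 thc, f θ ≤ g θ) :
    II x f ≤ II x g := by
  unfold II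
  apply intervalIntegral.integral_mono_on thc_pos.le (integrable_mul x hf) (integrable_mul x hg)
  intro θ hθ
  apply mul_le_mul_of_nonneg_right (h θ hθ)
  exact mul_nonneg (wt_nonneg θ) (Real.exp_pos _).le

theorem KK_eq (j : ℕ) (x : ℝ) : KK j x = 2 / π * II x (fun θ => yy θ ^ j) := by
  unfold KK II EE
  congr 1
  congr 1
  ext θ
  ring

theorem yy_thc : yy thc = 1.2 := by
  unfold yy
  rw [cos_thc]
  norm_num

theorem Phi_zero (x : ℝ) : Phi x 0 = 0 := by
  unfold Phi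
  simp

theorem Phi_thc_nonneg (x : ℝ) : 0 ≤ Phi x thc := by
  unfold Phi
  rw [yy_thc]
  have hs : 0 ≤ sin thc := Real.sin_nonneg_of_nonneg_of_le_pi thc_pos.le
    (by have := thc_lt; linarith [Real.pi_pos])
  have he : 0 < EE x thc := Real.exp_pos _
  positivity

theorem ftc1 (x : ℝ) : II x (fun θ => Psi θ - x * yy θ) = Phi x thc / 2 := by
  have h := intervalIntegral.integral_eq_sub_of_hasDerivAt (a := 0) (b := thc) (f := Phi x)
    (f' := fun θ => 2 * ((Psi θ - x * yy θ) * (wt θ * EE x θ)))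
    (fun θ hθ => hasDerivAt_Phi x θ (by have := cos_bd hθ; linarith) (by have := cos_bd hθ; linarith))
    ((integrable_mul x (f := fun θ => Psi θ - x * yy θ)
      (continuousOn_Psi.sub (continuous_yy.continuousOn.const_mul x))).const_mul 2)
  rw [intervalIntegral.integral_const_mul, Phi_zero] at h
  unfold II
  linarith

theorem ftc2 (x : ℝ) :
    II x (fun θ => yy θ + yy θ * Psi θ - x * yy θ ^ 2) = 1.2 * Phi x thc / 2 := by
  have hc : ContinuousOn (fun θ => yy θ + yy θ * Psi θ - x * yy θ ^ 2) (Set.uIcc 0 thc) := by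
    have hy := continuous_yy.continuousOn (s := Set.uIcc 0 thc)
    exact (hy.add (hy.mul continuousOn_Psi)).sub ((hy.pow 2).const_mul x)
  have h := intervalIntegral.integral_eq_sub_of_hasDerivAt (a := 0) (b := thc)
    (f := fun t => yy t * Phi x t)
    (f' := fun θ => 2 * ((yy θ + yy θ * Psi θ - x * yy θ ^ 2) * (wt θ * EE x θ)))
    (fun θ hθ => hasDerivAt_yyPhi x θ (by have := cos_bd hθ; linarith)
      (by have := cos_bd hθ; linarith))
    ((integrable_mul x hc).const_mul 2)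
  rw [intervalIntegral.integral_const_mul, Phi_zero, yy_thc] at h
  unfold II
  linarith

/-- `φ(y)`. -/
noncomputable def ph (y : ℝ) : ℝ := 2 * y / (3 - y) - y / (2 * (4 - y))

theorem Psi_eq {θ : ℝ} (h : θ ∈ Set.Icc 0 thc) : Psi θ = 3 / 2 + ph (yy θ) := by
  have h1 := le_cos_of_le_thc h.1 h.2
  have h2 : 1 + cos θ ≠ 0 := by linarith
  have h3 : 1 + 2 * cos θ ≠ 0 := by linarith
  unfold Psi ph yy
  have h4 : 3 - (2 - 2 * cos θ) = 1 + 2 * cos θ := by ring
  have h5 : 4 - (2 - 2 * cos θ) = 2 * (1 + cos θ) := by ring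
  rw [h4, h5]
  field_simp
  ring

theorem ph_le {y : ℝ} (h0 : 0 ≤ y) (h1 : y ≤ 1.2) : ph y ≤ 0.9326 * y := by
  unfold ph
  have h3 : 0 < 3 - y := by linarith
  have h4 : 0 < 4 - y := by linarith
  rw [div_sub_div _ _ h3.ne' (by positivity), div_le_iff₀ (by positivity)]
  have h5 : 0 ≤ (1.2 - y) := by linarith
  nlinarith [mul_nonneg h0 h5, mul_nonneg h0 (mul_nonneg h5 h5)]

theorem ph_sub {y m : ℝ} (hy0 : 0 ≤ y) (hy1 : y ≤ 1.2) (hm0 : 0 ≤ m) (hm1 : m ≤ 1.2) :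
    (y - m) * (ph y - ph m) ≤ 1.6 * (y - m) ^ 2 := by
  have h1 : 0 < 3 - y := by linarith
  have h2 : 0 < 4 - y := by linarith
  have h3 : 0 < 3 - m := by linarith
  have h4 : 0 < 4 - m := by linarith
  have heq : (y - m) * (ph y - ph m) =
      (6 / ((3 - y) * (3 - m)) - 2 / ((4 - y) * (4 - m))) * (y - m) ^ 2 := by
    unfold ph
    field_simp
    ring
  rw [heq]
  apply mul_le_mul_of_nonneg_right _ (sq_nonneg _)
  rw [div_sub_div _ _ (by positivity) (by positivity), div_le_iff₀ (by positivity)]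
  obtain ⟨s, hs⟩ : ∃ s, s = 1.2 - y := ⟨_, rfl⟩
  obtain ⟨t, ht⟩ : ∃ t, t = 1.2 - m := ⟨_, rfl⟩
  have hs0 : 0 ≤ s := by linarith
  have ht0 : 0 ≤ t := by linarith
  have hy : y = 1.2 - s := by linarith
  have hm : m = 1.2 - t := by linarith
  subst hy hm
  nlinarith [mul_nonneg hs0 ht0, mul_nonneg hs0 hs0, mul_nonneg ht0 ht0,
    mul_nonneg (mul_nonneg hs0 hs0) ht0, mul_nonneg (mul_nonneg ht0 ht0) hs0,
    mul_nonneg (mul_nonneg hs0 hs0) (mul_nonneg ht0 ht0)]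

/-- Everything in terms of the five integrals. -/
theorem main_facts (x : ℝ) :
    0 < II x (fun _ => 1) ∧ KK 0 x = 2 / π * II x (fun _ => 1) ∧ KK 1 x = 2 / π * II x yy ∧
    KK 2 x = 2 / π * II x (fun θ => yy θ ^ 2) := by
  have h0 : KK 0 x = 2 / π * II x (fun _ => 1) := by
    rw [KK_eq]; simp
  refine ⟨?_, h0, ?_, KK_eq 2 x⟩
  · have h := KK_pos 0 x
    rw [h0] at h
    exact (pos_iff_pos_of_mul_pos h).1 (by positivity)
  · rw [KK_eq]; simp

theorem lin1 (x : ℝ) : II x Psi - x * II x yy = Phi x thc / 2 := by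
  rw [← ftc1]
  have h : (fun θ => Psi θ - x * yy θ) = (fun θ => Psi θ + (-x) * yy θ) := by
    ext θ; ring
  rw [h, II_add x continuousOn_Psi (continuous_yy.continuousOn.const_mul (-x)), II_smul]
  ring

theorem lin2 (x : ℝ) : II x yy + II x (fun θ => yy θ * Psi θ) - x * II x (fun θ => yy θ ^ 2) =
    1.2 * Phi x thc / 2 := by
  rw [← ftc2]
  have hy := continuous_yy.continuousOn (s := Set.uIcc 0 thc)
  have h : (fun θ => yy θ + yy θ * Psi θ - x * yy θ ^ 2) =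
      (fun θ => (yy θ + yy θ * Psi θ) + (-x) * yy θ ^ 2) := by
    ext θ; ring
  rw [h, II_add x (f := fun θ => yy θ + yy θ * Psi θ) (g := fun θ => (-x) * yy θ ^ 2)
      (hy.add (hy.mul continuousOn_Psi)) ((hy.pow 2).const_mul (-x)),
    II_add x (f := yy) (g := fun θ => yy θ * Psi θ) hy (hy.mul continuousOn_Psi),
    II_smul x (-x) (fun θ => yy θ ^ 2)]
  ring

theorem psi_le (x : ℝ) : II x Psi ≤ 1.5 * II x (fun _ => 1) + 0.9326 * II x yy := by
  have hy := continuous_yy.continuousOn (s := Set.uIcc 0 thc)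
  have h1 : II x Psi ≤ II x (fun θ => 1.5 * 1 + 0.9326 * yy θ) := by
    apply II_mono x continuousOn_Psi (g := fun θ => 1.5 * 1 + 0.9326 * yy θ)
      (continuousOn_const.add (hy.const_mul _))
    intro θ hθ
    show Psi θ ≤ 1.5 * 1 + 0.9326 * yy θ
    rw [Psi_eq hθ]
    have h2 := yy_mem hθ.1 hθ.2
    have h3 := ph_le h2.1 h2.2
    linarith
  rw [II_add x (f := fun _ => 1.5 * 1) (g := fun θ => 0.9326 * yy θ) continuousOn_const
    (hy.const_mul _), II_smul x 1.5 (fun _ => 1), II_smul] at h1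
  exact h1

theorem var_le (x m : ℝ) (hm0 : 0 ≤ m) (hm1 : m ≤ 1.2) :
    II x (fun θ => yy θ * Psi θ) - m * II x Psi - (3 / 2 + ph m) * (II x yy - m * II x (fun _ => 1)) ≤
      1.6 * (II x (fun θ => yy θ ^ 2) - 2 * m * II x yy + m ^ 2 * II x (fun _ => 1)) := by
  have hy := continuous_yy.continuousOn (s := Set.uIcc 0 thc)
  have hP := continuousOn_Psi
  have h1 : II x (fun θ => (yy θ * Psi θ + (-m) * Psi θ) +
        ((-(3 / 2 + ph m)) * yy θ + ((3 / 2 + ph m) * m) * 1)) ≤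
      II x (fun θ => 1.6 * yy θ ^ 2 + ((-(3.2 * m)) * yy θ + (1.6 * m ^ 2) * 1)) := by
    apply II_mono
    · exact ((hy.mul hP).add (hP.const_mul _)).add ((hy.const_mul _).add continuousOn_const)
    · exact ((hy.pow 2).const_mul _).add ((hy.const_mul _).add continuousOn_const)
    · intro θ hθ
      have h2 := yy_mem hθ.1 hθ.2
      have h3 := ph_sub h2.1 h2.2 hm0 hm1
      rw [Psi_eq hθ]
      nlinarith [h3]
  rw [II_add x (f := fun θ => yy θ * Psi θ + (-m) * Psi θ)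
      (g := fun θ => (-(3 / 2 + ph m)) * yy θ + ((3 / 2 + ph m) * m) * 1)
      ((hy.mul hP).add (hP.const_mul _)) ((hy.const_mul _).add continuousOn_const),
    II_add x (f := fun θ => yy θ * Psi θ) (g := fun θ => (-m) * Psi θ) (hy.mul hP) (hP.const_mul _),
    II_smul x (-m) Psi,
    II_add x (f := fun θ => (-(3 / 2 + ph m)) * yy θ) (g := fun _ => ((3 / 2 + ph m) * m) * 1)
      (hy.const_mul _) continuousOn_const,
    II_smul x (-(3 / 2 + ph m)) yy, II_smul x ((3 / 2 + ph m) * m) (fun _ => 1),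
    II_add x (f := fun θ => 1.6 * yy θ ^ 2) (g := fun θ => (-(3.2 * m)) * yy θ + (1.6 * m ^ 2) * 1)
      ((hy.pow 2).const_mul _) ((hy.const_mul _).add continuousOn_const),
    II_smul x 1.6 (fun θ => yy θ ^ 2),
    II_add x (f := fun θ => (-(3.2 * m)) * yy θ) (g := fun _ => (1.6 * m ^ 2) * 1)
      (hy.const_mul _) continuousOn_const, II_smul x (-(3.2 * m)) yy,
    II_smul x (1.6 * m ^ 2) (fun _ => 1)] at h1
  linarith

end KBoundsAux

open KBoundsAux

theorem mm_le {x : ℝ} (hx : 4 ≤ x) : mm x ≤ 1.5 / (x - 0.9326) := by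
  obtain ⟨hA, h0, h1, -⟩ := main_facts x
  have hl := lin1 x
  have hp := psi_le x
  have hPhi := Phi_thc_nonneg x
  have hpi : 0 < 2 / Real.pi := by positivity
  unfold mm
  rw [h0, h1, mul_div_mul_left _ _ hpi.ne', div_le_div_iff₀ hA (by linarith)]
  linarith

theorem VV_le {x : ℝ} (hx : 4 ≤ x) : VV x ≤ 1.5 / ((x - 0.9326) * (x - 1.6)) := by
  obtain ⟨hA, h0, h1, h2⟩ := main_facts x
  have hm := mm_le hx
  have hm0 := mm_nonneg x
  have hm1 := mm_le_yc x
  have hl1 := lin1 x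
  have hl2 := lin2 x
  have hPhi := Phi_thc_nonneg x
  have hv := var_le x (mm x) hm0 hm1
  have hpi : 0 < 2 / Real.pi := by positivity
  have hmA : II x yy = mm x * II x (fun _ => 1) := by
    unfold mm
    rw [h0, h1, mul_div_mul_left _ _ hpi.ne']
    field_simp
  have hV : VV x * II x (fun _ => 1) = II x (fun θ => yy θ ^ 2) - mm x ^ 2 * II x (fun _ => 1) := by
    unfold VV
    rw [h0, h2, mul_div_mul_left _ _ hpi.ne']
    field_simp
  generalize II x (fun _ => 1) = A at *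
  generalize II x yy = B at *
  generalize II x (fun θ => yy θ ^ 2) = C at *
  generalize II x Psi = P at *
  generalize II x (fun θ => yy θ * Psi θ) = Q at *
  generalize Phi x thc = F at *
  generalize mm x = m at *
  generalize VV x = V at *
  have h3 : (x - 1.6) * V * A ≤ m * A := by
    subst hmA
    have e1 : C = V * A + m ^ 2 * A := by linarith
    subst e1
    nlinarith [mul_nonneg hPhi (by linarith : (0:ℝ) ≤ 1.2 - m)]
  have h4 : (x - 1.6) * V ≤ m := le_of_mul_le_mul_right h3 hA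
  have h5 : 0 < x - 1.6 := by linarith
  have h6 : 0 < x - 0.9326 := by linarith
  rw [le_div_iff₀ (by positivity)]
  rw [le_div_iff₀ h6] at hm
  nlinarith

end RR
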