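import Pool.Agent.Lib.MP_31701c_co.SoundH

/-!
# RR-Num46 : two numerical facts

`gg_46`: for `e9 ≤ e ≤ 1` and every `N`: `gg e N 4.6 < 1`. Let `β₉ = 1 - e9² = 15999/8000²`. For
independent parameters `(a, b)` let `w_k(m; a, b)` be defined like `vv` with `e` replaced by `a` and
`1 - e²` by `b`; it is monotone in `a ≥ 0` and `b ≥ 0`. So `hm e m = (1-e²) w_1(m-1; e, 1-e²) ≤
β₉ w_1(m-1; 1, β₉) = w_0(m; 1, β₉)` for `m ≥ 1` and
`gg e N 4.6 ≤ ∑_{1 ≤ m ≤ 60} w_0(m; 1, β₉) 4.6^m/m! + ∑_{m > 60} 3^m 4.6^m/m!`; the first sum is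
`0.9724…`, the second `< 1e-12`. The numbers `w_0(m; 1, β₉) 8000^m` are the entries of the list
`hRows 8000 (8000^2) 15999 60 [1]` (kernel computation, `decide +kernel` on natural numbers after
clearing denominators; the correctness proof of `hRows` for a general triple is as in `SoundH`).
`FR_44`: `FR e9 N 4.4 ≥ ∑_{m ≤ 60} hm e9 m 4.4^m/(m! β₉) = 2311.9…`, with `hTab 7999 8000 60`
(`hTab_real`), again a kernel computation.
-/

set_option autoImplicit false
set_option maxRecDepth 1000000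

namespace RR

private noncomputable def wv (a b : ℝ) : ℕ → ℕ → ℝ
  | 0, 0 => 1
  | 0, (_ + 1) => 0
  | (m + 1), 0 => b * wv a b m 1
  | (m + 1), (k + 1) => wv a b m k + a * wv a b m (k + 1) + wv a b m (k + 2)

private theorem vv_eq_wv (e : ℝ) (m k : ℕ) : vv e m k = wv e (1 - e ^ 2) m k := by
  induction m generalizing k with
  | zero => cases k <;> rfl
  | succ m ih =>
    cases k with
    | zero => simp only [vv, wv, ih]
    | succ k => simp only [vv, wv, ih]

private theorem wv_nonneg {a b : ℝ} (ha : 0 ≤ a) (hb : 0 ≤ b) (m k : ℕ) : 0 ≤ wv a b m k := by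
  induction m generalizing k with
  | zero => cases k <;> simp [wv]
  | succ m ih =>
    cases k with
    | zero => exact mul_nonneg hb (ih 1)
    | succ k =>
      simp only [wv]
      have := mul_nonneg ha (ih (k + 1))
      have := ih k
      have := ih (k + 2)
      linarith

private theorem wv_mono {a b a' b' : ℝ} (ha : 0 ≤ a) (hb : 0 ≤ b) (haa : a ≤ a') (hbb : b ≤ b')
    (m k : ℕ) : wv a b m k ≤ wv a' b' m k := by
  induction m generalizing k with
  | zero => cases k <;> simp [wv]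
  | succ m ih =>
    cases k with
    | zero =>
      simp only [wv]
      exact mul_le_mul hbb (ih 1) (wv_nonneg ha hb m 1) (hb.trans hbb)
    | succ k =>
      simp only [wv]
      have := mul_le_mul haa (ih (k + 1)) (wv_nonneg ha hb m (k + 1)) (ha.trans haa)
      have := ih k
      have := ih (k + 2)
      linarith

private theorem stepAux_getD (p q2 : ℕ) (u : List ℕ) (k : ℕ) :
    (stepAux p q2 u).getD k 0 =
      u.getD k 0 + p * u.getD (k + 1) 0 + q2 * u.getD (k + 2) 0 := by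
  induction u generalizing k with
  | nil => simp [stepAux]
  | cons x r ih =>
    cases r with
    | nil => cases k <;> simp [stepAux]
    | cons y r =>
      cases r with
      | nil =>
        cases k with
        | zero => simp [stepAux]
        | succ k =>
          simp only [stepAux, List.getD_cons_succ]
          cases k <;> simp
      | cons z r =>
        cases k with
        | zero => simp [stepAux]
        | succ k =>
          simp only [stepAux, List.getD_cons_succ]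
          rw [ih k]
          simp

private theorem ustep_spec {a b : ℝ} {p q bn : ℕ} (hp : (p : ℝ) = a * q)
    (hb : (bn : ℝ) = b * (q : ℝ) ^ 2) {m : ℕ} {u : List ℕ}
    (hu : ∀ k, ((u.getD k 0 : ℕ) : ℝ) * (q : ℝ) ^ k = wv a b m k * (q : ℝ) ^ m) (k : ℕ) :
    (((ustep p (q * q) bn u).getD k 0 : ℕ) : ℝ) * (q : ℝ) ^ k =
      wv a b (m + 1) k * (q : ℝ) ^ (m + 1) := by
  cases k with
  | zero =>
    have h1 := hu 1
    simp only [ustep, List.getD_cons_zero, wv]
    push_cast
    rw [hb]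
    linear_combination (b * (q : ℝ)) * h1
  | succ k =>
    simp only [ustep, List.getD_cons_succ, wv]
    rw [stepAux_getD]
    push_cast
    rw [hp]
    have h0 := hu k
    have h1 := hu (k + 1)
    have h2 := hu (k + 2)
    linear_combination (q : ℝ) * h0 + (a * (q : ℝ)) * h1 + (q : ℝ) * h2

private theorem hRows_spec {a b : ℝ} {p q bn : ℕ} (hp : (p : ℝ) = a * q)
    (hb : (bn : ℝ) = b * (q : ℝ) ^ 2) (n : ℕ) :
    ∀ (m : ℕ) (u : List ℕ),
    (∀ k, ((u.getD k 0 : ℕ) : ℝ) * (q : ℝ) ^ k = wv a b m k * (q : ℝ) ^ m) →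
    ∀ i, i ≤ n → (((hRows p (q * q) bn n u).getD i 0 : ℕ) : ℝ) =
      wv a b (m + i) 0 * (q : ℝ) ^ (m + i) := by
  induction n with
  | zero =>
    intro m u hu i hi
    obtain rfl : i = 0 := by omega
    have := hu 0
    simp only [pow_zero, mul_one] at this
    simp only [hRows, List.getD_cons_zero, add_zero]
    exact this
  | succ n ih =>
    intro m u hu i hi
    cases i with
    | zero =>
      have := hu 0
      simp only [pow_zero, mul_one] at this
      simp only [hRows, List.getD_cons_zero, add_zero]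
      exact this
    | succ i =>
      simp only [hRows, List.getD_cons_succ]
      rw [ih (m + 1) _ (ustep_spec hp hb hu) i (by omega)]
      have : m + 1 + i = m + (i + 1) := by ring
      rw [this]

private theorem hRows_len (p q2 b n : ℕ) (u : List ℕ) : (hRows p q2 b n u).length = n + 1 := by
  induction n generalizing u with
  | zero => simp [hRows]
  | succ n ih => simp [hRows, ih]

private theorem hRows_one {a b : ℝ} {p q bn : ℕ} (hp : (p : ℝ) = a * q)
    (hb : (bn : ℝ) = b * (q : ℝ) ^ 2) {n i : ℕ} (hi : i ≤ n) :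
    (((hRows p (q * q) bn n [1]).getD i 0 : ℕ) : ℝ) = wv a b i 0 * (q : ℝ) ^ i := by
  have := hRows_spec hp hb n 0 [1] ?_ i hi
  · rwa [zero_add] at this
  · intro k
    cases k with
    | zero => simp [wv]
    | succ k => simp [wv]

private theorem gAux_sum (M q rn rd : ℕ) (l : List ℕ) (k : ℕ) :
    (gAux M q rn rd k l).sum = ∑ i ∈ Finset.range l.length,
      l.getD i 0 * (q ^ (M - (k + i)) * (M.factorial / (k + i).factorial) * rn ^ (k + i) *
        rd ^ (M - (k + i))) := by
  induction l generalizing k with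
  | nil => simp [gAux]
  | cons h t ih =>
    rw [List.length_cons, Finset.sum_range_succ']
    simp only [gAux, List.sum_cons, List.getD_cons_succ, List.getD_cons_zero, add_zero]
    rw [ih (k + 1), add_comm]
    congr 1
    refine Finset.sum_congr rfl ?_
    intro i _
    have : k + 1 + i = k + (i + 1) := by ring
    rw [this]

private theorem gAux_real {M q rn rd : ℕ} (hq : 0 < q) (hrd : 0 < rd) (l : List ℕ)
    (hl : l.length = M + 1) (f : ℕ → ℝ)
    (hf : ∀ i, i ≤ M → ((l.getD i 0 : ℕ) : ℝ) = f i * (q : ℝ) ^ i) :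
    (((gAux M q rn rd 0 l).sum : ℕ) : ℝ) =
      (∑ i ∈ Finset.range (M + 1), f i / (i.factorial : ℝ) * ((rn : ℝ) / rd) ^ i) *
        ((q ^ M * M.factorial * rd ^ M : ℕ) : ℝ) := by
  rw [gAux_sum, hl, Finset.sum_mul]
  push_cast
  refine Finset.sum_congr rfl ?_
  intro i hi
  rw [Finset.mem_range] at hi
  rw [zero_add, hf i (by omega)]
  have h1 : (q : ℝ) ^ M = (q : ℝ) ^ i * (q : ℝ) ^ (M - i) := by
    rw [← pow_add]
    congr 1
    omega
  have h2 : (rd : ℝ) ^ M = (rd : ℝ) ^ i * (rd : ℝ) ^ (M - i) := by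
    rw [← pow_add]
    congr 1
    omega
  have h3 : (i.factorial : ℝ) ≠ 0 := by positivity
  have h4 : (rd : ℝ) ≠ 0 := by positivity
  rw [Nat.cast_div (Nat.factorial_dvd_factorial (by omega)) h3, h1, h2, div_pow]
  field_simp

private theorem num46 : 100 * (gAux 60 8000 46 10 0 (hRows 8000 (8000 * 8000) 15999 60 [1])).sum <
    198 * (8000 ^ 60 * Nat.factorial 60 * 10 ^ 60) := by
  decide +kernel

private theorem num44 : (64000000 + 2311 * 15999) * (8000 ^ 60 * Nat.factorial 60 * 10 ^ 60) ≤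
    64000000 * (gAux 60 8000 44 10 0 (hRows 7999 (8000 * 8000) 15999 60 [1])).sum := by
  decide +kernel

private theorem e9_eq : e9 = 7999 / 8000 := by
  rw [e9]
  norm_num

private theorem fin46 {T D : ℕ} {S : ℝ} (h : (T : ℝ) = S * (D : ℝ)) (h2 : 100 * T < 198 * D) :
    S < 1.98 := by
  have h3 : ((100 * T : ℕ) : ℝ) < ((198 * D : ℕ) : ℝ) := by exact_mod_cast h2
  push_cast at h3
  rw [h] at h3
  have h4 : (100 * S) * (D : ℝ) < 198 * D := by linarith
  have h5 := lt_of_mul_lt_mul_right h4 (Nat.cast_nonneg D)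
  norm_num
  linarith

private theorem fin44 {T D : ℕ} {S : ℝ} (h : (T : ℝ) = S * (D : ℝ)) (hD : 0 < D)
    (h2 : (64000000 + 2311 * 15999) * D ≤ 64000000 * T) :
    64000000 + 2311 * 15999 ≤ 64000000 * S := by
  have h3 : (((64000000 + 2311 * 15999) * D : ℕ) : ℝ) ≤ ((64000000 * T : ℕ) : ℝ) := by
    exact_mod_cast h2
  rw [Nat.cast_mul, Nat.cast_mul 64000000, h] at h3
  have h4 : ((64000000 + 2311 * 15999 : ℕ) : ℝ) * (D : ℝ) ≤ (((64000000 : ℕ) : ℝ) * S) * D := by
    linarith
  have h5 := le_of_mul_le_mul_right h4 (Nat.cast_pos.mpr hD)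
  push_cast at h5
  linarith

private theorem posD : 0 < 8000 ^ 60 * Nat.factorial 60 * 10 ^ 60 := by
  have : 0 < Nat.factorial 60 := Nat.factorial_pos 60
  exact Nat.mul_pos (Nat.mul_pos (by positivity) this) (by positivity)

private theorem sum46 : ∑ i ∈ Finset.range 61,
    wv 1 (1 - e9 ^ 2) i 0 / (i.factorial : ℝ) * (4.6 : ℝ) ^ i < 1.98 := by
  have h := gAux_real (M := 60) (q := 8000) (rn := 46) (rd := 10) (by norm_num) (by norm_num)
    (hRows 8000 (8000 * 8000) 15999 60 [1]) (hRows_len _ _ _ _ _)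
    (fun i => wv 1 (1 - e9 ^ 2) i 0) (fun i hi => by
      refine hRows_one (a := 1) (b := 1 - e9 ^ 2) (by norm_num) ?_ hi
      rw [e9_eq]
      norm_num)
  have e46 : (((46 : ℕ) : ℝ) / ((10 : ℕ) : ℝ)) = 4.6 := by norm_num
  rw [e46] at h
  exact fin46 h num46

private theorem tail46 (J : ℕ) : ∑ j ∈ Finset.range J,
    (3 : ℝ) ^ (61 + j) / ((61 + j).factorial : ℝ) * (4.6 : ℝ) ^ (61 + j) ≤ 0.01 := by
  have h1 : ∀ j : ℕ, (3 : ℝ) ^ (61 + j) / ((61 + j).factorial : ℝ) * (4.6 : ℝ) ^ (61 + j) ≤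
      0.005 * (1 / 2) ^ j := by
    intro j
    induction j with
    | zero =>
      have : (Nat.factorial 61 : ℝ) ≥ 5 * 10 ^ 83 := by
        have h : 5 * 10 ^ 83 ≤ Nat.factorial 61 := by decide +kernel
        exact_mod_cast h
      rw [add_zero, pow_zero, mul_one, div_mul_eq_mul_div, div_le_iff₀ (by positivity)]
      calc (3 : ℝ) ^ 61 * 4.6 ^ 61 ≤ 0.005 * (5 * 10 ^ 83) := by norm_num
        _ ≤ 0.005 * (Nat.factorial 61 : ℝ) := by linarith
    | succ j ih =>
      have h2 : (3 : ℝ) ^ (61 + (j + 1)) / ((61 + (j + 1)).factorial : ℝ) *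
          (4.6 : ℝ) ^ (61 + (j + 1)) =
          ((3 : ℝ) ^ (61 + j) / ((61 + j).factorial : ℝ) * (4.6 : ℝ) ^ (61 + j)) *
            (13.8 / (61 + j + 1)) := by
        have : (61 + (j + 1)).factorial = (61 + j + 1) * (61 + j).factorial := by
          rw [← Nat.factorial_succ]
          rfl
        rw [this, ← add_assoc, pow_succ, pow_succ]
        push_cast
        have h5 : (61 + (j : ℝ) + 1) ≠ 0 := by positivity
        field_simp
        norm_num
      have h3 : (13.8 : ℝ) / (61 + j + 1) ≤ 1 / 2 := by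
        rw [div_le_div_iff₀ (by positivity) (by norm_num)]
        have : (0 : ℝ) ≤ j := by positivity
        linarith
      rw [h2, pow_succ]
      have h4 : (0 : ℝ) ≤ 13.8 / (61 + j + 1) := by positivity
      calc _ ≤ (0.005 * (1 / 2) ^ j) * (13.8 / (61 + (j : ℝ) + 1)) :=
            mul_le_mul_of_nonneg_right ih h4
        _ ≤ (0.005 * (1 / 2) ^ j) * (1 / 2) :=
            mul_le_mul_of_nonneg_left h3 (by positivity)
        _ = _ := by ring
  have h2 : ∑ j ∈ Finset.range J, (0.005 : ℝ) * (1 / 2) ^ j ≤ 0.01 := by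
    rw [← Finset.mul_sum, geom_sum_eq (by norm_num)]
    have : (0 : ℝ) ≤ (1 / 2) ^ J := by positivity
    have h3 : ((1 / 2 : ℝ) ^ J - 1) / (1 / 2 - 1) = 2 * (1 - (1 / 2) ^ J) := by ring
    rw [h3]
    nlinarith
  exact (Finset.sum_le_sum fun j _ => h1 j).trans h2

theorem gg_46 {e : ℝ} (h9 : e9 ≤ e) (h1 : e ≤ 1) (N : ℕ) : gg e N 4.6 < 1 := by
  have h90 : (0 : ℝ) ≤ e9 := by rw [e9_eq]; norm_num
  have he0 : 0 ≤ e := h90.trans h9
  have hb0 : 0 ≤ 1 - e ^ 2 := by nlinarith
  have hbb : 1 - e ^ 2 ≤ 1 - e9 ^ 2 := by nlinarith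
  have hhm : ∀ m, hm e m ≤ wv 1 (1 - e9 ^ 2) m 0 := by
    intro m
    rw [hm, vv_eq_wv]
    exact wv_mono he0 hb0 h1 hbb m 0
  have heval : (HN e N).eval 4.6 =
      ∑ m ∈ Finset.range (N + 1), hm e m / (m.factorial : ℝ) * (4.6 : ℝ) ^ m := by
    rw [HN, Polynomial.eval_finsetSum]
    simp
  have hterm : ∀ m, 0 ≤ hm e m / (m.factorial : ℝ) * (4.6 : ℝ) ^ m := by
    intro m
    have := hm_nonneg he0 h1 m
    positivity
  have hle : ∑ m ∈ Finset.range (N + 1), hm e m / (m.factorial : ℝ) * (4.6 : ℝ) ^ m ≤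
      ∑ m ∈ Finset.range (61 + N), hm e m / (m.factorial : ℝ) * (4.6 : ℝ) ^ m :=
    Finset.sum_le_sum_of_subset_of_nonneg
      (Finset.range_subset_range.mpr (by omega)) fun m _ _ => hterm m
  rw [Finset.sum_range_add _ 61 N] at hle
  have hA : ∑ m ∈ Finset.range 61, hm e m / (m.factorial : ℝ) * (4.6 : ℝ) ^ m ≤
      ∑ i ∈ Finset.range 61, wv 1 (1 - e9 ^ 2) i 0 / (i.factorial : ℝ) * (4.6 : ℝ) ^ i := by
    refine Finset.sum_le_sum ?_
    intro m _
    have := hhm m
    gcongr
  have hB : ∑ x ∈ Finset.range N, hm e (61 + x) / ((61 + x).factorial : ℝ) * (4.6 : ℝ) ^ (61 + x) ≤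
      ∑ j ∈ Finset.range N,
        (3 : ℝ) ^ (61 + j) / ((61 + j).factorial : ℝ) * (4.6 : ℝ) ^ (61 + j) := by
    refine Finset.sum_le_sum ?_
    intro m _
    have := hm_le he0 h1 (61 + m)
    gcongr
  have hC := tail46 N
  have hD := sum46
  rw [gg, heval]
  have hE : (1.98 : ℝ) + 0.01 < 2 := by norm_num
  linarith

private theorem sum44 : 1 + 2311 * (1 - e9 ^ 2) ≤ ∑ i ∈ Finset.range 61,
    hm e9 i / (i.factorial : ℝ) * (4.4 : ℝ) ^ i := by
  have h := gAux_real (M := 60) (q := 8000) (rn := 44) (rd := 10) (by norm_num) (by norm_num)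
    (hRows 7999 (8000 * 8000) 15999 60 [1]) (hRows_len _ _ _ _ _)
    (fun i => hm e9 i) (fun i hi => by
      show _ = vv e9 i 0 * _
      rw [vv_eq_wv]
      refine hRows_one (a := e9) (b := 1 - e9 ^ 2) ?_ ?_ hi
      · rw [e9_eq]
        norm_num
      · rw [e9_eq]
        norm_num)
  have e44 : (((44 : ℕ) : ℝ) / ((10 : ℕ) : ℝ)) = 4.4 := by norm_num
  rw [e44] at h
  have h2 := fin44 h posD num44
  have h3 : 1 + 2311 * (1 - e9 ^ 2) = (64000000 + 2311 * 15999) / 64000000 := by
    rw [e9_eq]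
    norm_num
  rw [h3, div_le_iff₀ (by norm_num)]
  exact h2.trans (le_of_eq (mul_comm _ _))

theorem FR_44 {N : ℕ} (hN : 60 ≤ N) : 2311 ≤ FR e9 N 4.4 := by
  have h90 : (0 : ℝ) ≤ e9 := by rw [e9_eq]; norm_num
  have h91 : e9 ≤ 1 := by rw [e9_eq]; norm_num
  have hb : 0 < 1 - e9 ^ 2 := by rw [e9_eq]; norm_num
  have h1 : (HN e9 N).eval 4.4 =
      ∑ m ∈ Finset.range (N + 1), hm e9 m / (m.factorial : ℝ) * (4.4 : ℝ) ^ m := by
    rw [HN, Polynomial.eval_finsetSum]
    simp
  have hle : ∑ m ∈ Finset.range 61, hm e9 m / (m.factorial : ℝ) * (4.4 : ℝ) ^ m ≤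
      ∑ m ∈ Finset.range (N + 1), hm e9 m / (m.factorial : ℝ) * (4.4 : ℝ) ^ m :=
    Finset.sum_le_sum_of_subset_of_nonneg
      (Finset.range_subset_range.mpr (by omega)) fun m _ _ => by
        have := hm_nonneg h90 h91 m
        positivity
  have h2 := HN_eval e9 N 4.4
  have h3 := sum44
  have h4 : (1 - e9 ^ 2) * 2311 ≤ (1 - e9 ^ 2) * FR e9 N 4.4 := by linarith
  exact le_of_mul_le_mul_left h4 hb

end RR
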