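import Pool.Agent.Lib.MP_31701c_co.RestParts
import Pool.Agent.Lib.MP_31701c_co.KBounds
import Pool.Agent.Lib.MP_31701c_co.Num46
import Pool.Agent.Lib.MP_31701c_co.Tail

/-!
# RR-K0low : lower bound for `K_0(4.4)`, lower bound for `kk`

`K0_44`: take `e = e9`, `z = 4.4` in `XI_main` (`‖z‖ = z.re`): `FR e9 400 4.4 ≥ 2311` (`FR_44`,
`FN_ofReal`), `|FN - XI| ≤ 1e-15` (`FN_sub_XI`, `N = 400`), `‖main‖ ≤ kk e9 4.4` (`main_norm`), so
`kk e9 4.4 (1 + 1.7·2.5e-4) ≥ 2311 - 1e-15 - (0.668 e^{4.4} + 0.0985/2.931 e^{7.92}) - 0.25·14.2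
≥ 2311 - 54.5 - 92.6 - 3.6 = 2160.3` (`e^{4.4} ≤ 81.46`, `e^{7.92} ≤ 2752.9`), hence `kk e9 4.4 ≥ 2150`; and
`kk e9 4.4 = e^{(2+e9) 4.4} KK 0 4.4 ≤ e^{13.2} KK 0 4.4`.
`K0_lower`: `KK 0 x ≥ KK 0 4.4 e^{-mm 4.4 (x - 4.4)}` (`KK_growth`), `mm 4.4 ≤ 1.5/3.4674 ≤ 0.433` (`mm_le`).
`kk_lower`: `kk e x = e^{(2+e)x} KK 0 x ≥ 2150 e^{(e-1) 4.4} e^{(1.567+e)(x-4.4)}`, `e ≥ 0.999875`.
-/

set_option autoImplicit false

namespace RR

private theorem k0lt1 : e9 < 1 := by unfold e9; norm_num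

private theorem k0nn : 0 ≤ e9 := by unfold e9; norm_num

private theorem exp44_le : Real.exp (e9 * 4.4) ≤ 81.5 := by
  have h0 : Real.exp (e9 * 4.4) ≤ Real.exp (4 + 0.4) := by
    refine Real.exp_le_exp.2 ?_
    have := k0lt1
    linarith
  refine h0.trans ?_
  rw [Real.exp_add]
  have h1 : Real.exp 4 ≤ 54.5983 := by
    have h2 : Real.exp 4 = Real.exp 1 ^ 4 := by rw [← Real.exp_nat_mul]; norm_num
    rw [h2]
    have h3 := Real.exp_one_lt_d9.le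
    calc Real.exp 1 ^ 4 ≤ 2.7182818286 ^ 4 := pow_le_pow_left₀ (Real.exp_pos _).le h3 4
      _ ≤ 54.5983 := by norm_num
  have h4 : Real.exp 0.4 ≤ 1.4919 := by
    have h5 : Real.exp 0.4 ^ 5 = Real.exp 1 ^ 2 := by
      rw [← Real.exp_nat_mul, ← Real.exp_nat_mul]
      norm_num
    have h6 : Real.exp 1 ^ 2 ≤ 1.4919 ^ 5 := by
      have h3 := Real.exp_one_lt_d9.le
      calc Real.exp 1 ^ 2 ≤ 2.7182818286 ^ 2 := pow_le_pow_left₀ (Real.exp_pos _).le h3 2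
        _ ≤ 1.4919 ^ 5 := by norm_num
    rw [← h5] at h6
    exact le_of_pow_le_pow_left₀ (by norm_num) (by norm_num) h6
  calc Real.exp 4 * Real.exp 0.4 ≤ 54.5983 * 1.4919 :=
        mul_le_mul h1 h4 (Real.exp_pos _).le (by norm_num)
    _ ≤ 81.5 := by norm_num

private theorem exp8_le : Real.exp ((e9 + 0.8) * 4.4) ≤ 2981 := by
  have h0 : Real.exp ((e9 + 0.8) * 4.4) ≤ Real.exp 8 := by
    refine Real.exp_le_exp.2 ?_
    have := k0lt1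
    linarith
  refine h0.trans ?_
  have h2 : Real.exp 8 = Real.exp 1 ^ 8 := by rw [← Real.exp_nat_mul]; norm_num
  rw [h2]
  have h3 := Real.exp_one_lt_d9.le
  calc Real.exp 1 ^ 8 ≤ 2.7182818286 ^ 8 := pow_le_pow_left₀ (Real.exp_pos _).le h3 8
    _ ≤ 2981 := by norm_num

private theorem kk44 : 2150 ≤ kk e9 4.4 := by
  have hre : ((4.4 : ℝ) : ℂ).re = 4.4 := Complex.ofReal_re _
  have hnorm : ‖((4.4 : ℝ) : ℂ)‖ = 4.4 := by
    rw [Complex.norm_real, Real.norm_of_nonneg (by norm_num)]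
  have h1 := FR_44 (N := 400) (by norm_num)
  have h2 := FN_sub_XI k0nn k0lt1 (N := 400) le_rfl (z := ((4.4 : ℝ) : ℂ)) (by rw [hnorm]; norm_num)
  have h3 := XI_main (e := e9) le_rfl k0lt1 (z := ((4.4 : ℝ) : ℂ)) (by rw [hre])
  have h4 := main_norm e9 ((4.4 : ℝ) : ℂ)
  rw [hre] at h3 h4
  rw [hnorm] at h3
  rw [FN_ofReal] at h2
  have h5 : ‖((FR e9 400 4.4 : ℝ) : ℂ)‖ = FR e9 400 4.4 := by
    rw [Complex.norm_real, Real.norm_of_nonneg (by linarith)]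
  have h6 : FR e9 400 4.4 ≤ ‖((FR e9 400 4.4 : ℝ) : ℂ) - XI e9 ((4.4 : ℝ) : ℂ)‖ +
      (‖XI e9 ((4.4 : ℝ) : ℂ) - Complex.exp (((2 + e9 : ℝ) : ℂ) * ((4.4 : ℝ) : ℂ)) * KC ((4.4 : ℝ) : ℂ)‖ +
        ‖Complex.exp (((2 + e9 : ℝ) : ℂ) * ((4.4 : ℝ) : ℂ)) * KC ((4.4 : ℝ) : ℂ)‖) := by
    calc FR e9 400 4.4 = ‖((FR e9 400 4.4 : ℝ) : ℂ)‖ := h5.symm
      _ = ‖(((FR e9 400 4.4 : ℝ) : ℂ) - XI e9 ((4.4 : ℝ) : ℂ)) +
          ((XI e9 ((4.4 : ℝ) : ℂ) - Complex.exp (((2 + e9 : ℝ) : ℂ) * ((4.4 : ℝ) : ℂ)) * KC ((4.4 : ℝ) : ℂ)) +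
            Complex.exp (((2 + e9 : ℝ) : ℂ) * ((4.4 : ℝ) : ℂ)) * KC ((4.4 : ℝ) : ℂ))‖ := by
          congr 1
          ring
      _ ≤ _ := (norm_add_le _ _).trans (add_le_add le_rfl (norm_add_le _ _))
  have h7 := exp44_le
  have h8 := exp8_le
  have h9 : (4.4 / 4.4 : ℝ) ^ 2 = 1 := by norm_num
  rw [h9, one_mul] at h3
  have h10 : 0.0985 / (4.4 - 1.469) * Real.exp ((e9 + 0.8) * 4.4) ≤ 0.03361 * 2981 :=
    mul_le_mul (by norm_num) h8 (Real.exp_pos _).le (by norm_num)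
  have h11 : 0.668 * Real.exp (e9 * 4.4) ≤ 0.668 * 81.5 := mul_le_mul_of_nonneg_left h7 (by norm_num)
  have h12 : 1.7 * (1 - e9 ^ 2) * kk e9 4.4 ≤ 0.000426 * kk e9 4.4 := by
    refine mul_le_mul_of_nonneg_right ?_ (kk_pos _ _).le
    unfold e9
    norm_num
  have h13 : (1e-15 : ℝ) ≤ 0.001 := by norm_num
  nlinarith

theorem K0_44 : 2150 * Real.exp (-13.2) ≤ KK 0 4.4 := by
  have h1 := kk44
  unfold kk at h1
  have h2 : Real.exp ((2 + e9) * 4.4) ≤ Real.exp 13.2 := by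
    refine Real.exp_le_exp.2 ?_
    have := k0lt1
    linarith
  have h3 : 2150 ≤ Real.exp 13.2 * KK 0 4.4 :=
    h1.trans (mul_le_mul_of_nonneg_right h2 (KK_pos 0 4.4).le)
  rw [Real.exp_neg]
  have h4 := Real.exp_pos 13.2
  rw [← div_eq_mul_inv, div_le_iff₀ h4]
  linarith

theorem K0_lower {x : ℝ} (hx : 4.4 ≤ x) :
    2150 * Real.exp (-13.2) * Real.exp (-(0.433 * (x - 4.4))) ≤ KK 0 x := by
  have h1 := (KK_growth hx).1
  have h2 : mm 4.4 ≤ 0.433 := (mm_le (x := 4.4) (by norm_num)).trans (by norm_num)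
  refine le_trans ?_ h1
  refine mul_le_mul K0_44 (Real.exp_le_exp.2 ?_) (Real.exp_pos _).le (KK_pos 0 4.4).le
  nlinarith

/-- `k(x) ≥ 2145 e^{2.56 (x - 4.4)}` for `e ≥ e9`, `x ≥ 4.4`. -/
theorem kk_lower {e x : ℝ} (h9 : e9 ≤ e) (h1 : e ≤ 1) (hx : 4.4 ≤ x) :
    2145 * Real.exp (2.56 * (x - 4.4)) ≤ kk e x := by
  have he : 0.999875 ≤ e := by unfold e9 at h9; exact h9
  have h2 := K0_lower hx
  unfold kk
  refine le_trans ?_ (mul_le_mul_of_nonneg_left h2 (Real.exp_pos _).le)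
  have h3 : Real.exp ((2 + e) * x) * (2150 * Real.exp (-13.2) * Real.exp (-(0.433 * (x - 4.4)))) =
      2150 * Real.exp ((2 + e) * x + -13.2 + -(0.433 * (x - 4.4))) := by
    rw [Real.exp_add, Real.exp_add]
    ring
  have h4 : Real.exp (-0.00055 + 2.56 * (x - 4.4)) ≤
      Real.exp ((2 + e) * x + -13.2 + -(0.433 * (x - 4.4))) := by
    refine Real.exp_le_exp.2 ?_
    nlinarith
  rw [h3]
  refine le_trans ?_ (mul_le_mul_of_nonneg_left h4 (by norm_num))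
  rw [Real.exp_add, ← mul_assoc]
  refine mul_le_mul_of_nonneg_right ?_ (Real.exp_pos _).le
  have h5 := Real.add_one_le_exp (-0.00055)
  linarith

end RR
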