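import Pool.Agent.Lib.MP_31701c_co.Defs

/-!
# RR-KBasic : elementary facts on `thc`, `KK`, `mm`, `VV`

`thc = arccos (2/5)`. On `[0, thc]`: `cos θ ∈ [2/5, 1]`, `yy θ = 2 - 2cos θ ∈ [0, 1.2]`, `wt θ ≥ 0`, continuous
(`1 + 2 cos θ ≥ 1.8`), `wt θ > 0` for `0 < θ ≤ thc`. `thc ≤ 3π/8` because
`cos (3π/8) = sin (π/8) = √(2-√2)/2 ≤ 0.3827 < 2/5` (`Real.sin_pi_div_eight`, `arccos` is decreasing).
`KK_pos`: the integral of a continuous function `≥ 0` on `[0, thc]` that is `> 0` on `(0, thc)`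
(`intervalIntegral.intervalIntegral_pos_of_pos_on`).
`mm ≤ 1.2`: `KK 1 x ≤ 1.2 KK 0 x` since `yy ≤ 1.2`.
`VV_nonneg`, and more precisely `VV_eq`: `KK 0 x * VV x = (2/π) ∫ (yy θ - m)² wt θ e^{-yy x}` with `m = mm x`
(expand the square; `KK 1 x = m KK 0 x`).
-/

set_option autoImplicit false

namespace RR

open MeasureTheory Set

theorem cos_thc : Real.cos thc = 2 / 5 := Real.cos_arccos (by norm_num) (by norm_num)

theorem thc_pos : 0 < thc := Real.arccos_pos.2 (by norm_num)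

theorem thc_lt : thc < Real.pi / 2 := Real.arccos_lt_pi_div_two.2 (by norm_num)

theorem thc_le : thc ≤ 3 * Real.pi / 8 := by
  by_contra hcon
  push Not at hcon
  have hpi := Real.pi_pos
  have hlt := thc_lt
  have h1 : Real.cos thc < Real.cos (3 * Real.pi / 8) :=
    Real.cos_lt_cos_of_nonneg_of_le_pi (by positivity) (by linarith) hcon
  have h2 : Real.cos (3 * Real.pi / 8) = Real.sin (Real.pi / 8) := by
    rw [show 3 * Real.pi / 8 = Real.pi / 2 - Real.pi / 8 by ring, Real.cos_pi_div_two_sub]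
  rw [cos_thc, h2, Real.sin_pi_div_eight] at h1
  have h3 : (34 / 25 : ℝ) ≤ Real.sqrt 2 := by
    apply Real.le_sqrt_of_sq_le
    norm_num
  have h4 : Real.sqrt (2 - Real.sqrt 2) ≤ 4 / 5 := by
    rw [Real.sqrt_le_left (by norm_num)]
    linarith
  linarith

theorem le_cos_of_le_thc {θ : ℝ} (h0 : 0 ≤ θ) (h1 : θ ≤ thc) : 2 / 5 ≤ Real.cos θ := by
  have hpi := Real.pi_pos
  have hlt := thc_lt
  rw [← cos_thc]
  exact Real.cos_le_cos_of_nonneg_of_le_pi h0 (by linarith) h1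

theorem wt_nonneg (θ : ℝ) : 0 ≤ wt θ := div_nonneg (sq_nonneg _) (sq_nonneg _)

theorem yy_mem {θ : ℝ} (h0 : 0 ≤ θ) (h1 : θ ≤ thc) : 0 ≤ yy θ ∧ yy θ ≤ 1.2 := by
  have h2 := le_cos_of_le_thc h0 h1
  have h3 := Real.cos_le_one θ
  unfold yy
  constructor
  · linarith
  · norm_num
    linarith

theorem continuousOn_wt : ContinuousOn wt (Set.Icc 0 thc) := by
  unfold wt
  refine ContinuousOn.div (Real.continuous_sin.pow 2).continuousOn
    ((continuous_const.add (continuous_const.mul Real.continuous_cos)).pow 2).continuousOn ?_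
  intro θ hθ
  have h := le_cos_of_le_thc hθ.1 hθ.2
  have h1 : 0 < 1 + 2 * Real.cos θ := by linarith
  positivity

theorem intervalIntegrable_wt {f : ℝ → ℝ} (hf : Continuous f) :
    IntervalIntegrable (fun θ => wt θ * f θ) MeasureTheory.volume 0 thc :=
  ContinuousOn.intervalIntegrable_of_Icc thc_pos.le (continuousOn_wt.mul hf.continuousOn)

private theorem continuous_yy : Continuous yy :=
  continuous_const.sub (continuous_const.mul Real.continuous_cos)

private theorem KBasic_int {g : ℝ → ℝ} (hg : Continuous g) (x : ℝ) :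
    IntervalIntegrable (fun θ => g θ * wt θ * Real.exp (-(yy θ * x))) volume 0 thc := by
  have h := intervalIntegrable_wt (f := fun θ => g θ * Real.exp (-(yy θ * x)))
    (hg.mul (Real.continuous_exp.comp (continuous_yy.mul continuous_const).neg))
  refine h.congr (fun θ _ => ?_)
  ring

theorem KK_pos (j : ℕ) (x : ℝ) : 0 < KK j x := by
  unfold KK
  have hpi := Real.pi_pos
  have hlt := thc_lt
  refine mul_pos (by positivity) ?_
  refine intervalIntegral.intervalIntegral_pos_of_pos_on (KBasic_int (continuous_yy.pow j) x) ?_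
    thc_pos
  intro θ hθ
  have hs : 0 < Real.sin θ := Real.sin_pos_of_pos_of_lt_pi hθ.1 (by linarith [hθ.2])
  have hc := le_cos_of_le_thc hθ.1.le hθ.2.le
  have hc1 : Real.cos θ < 1 := by
    have h := Real.sin_sq_add_cos_sq θ
    nlinarith [Real.cos_le_one θ]
  have hy : 0 < yy θ := by unfold yy; linarith
  have hw : 0 < wt θ := by
    unfold wt
    have h1 : 0 < 1 + 2 * Real.cos θ := by linarith
    positivity
  positivity

theorem mm_nonneg (x : ℝ) : 0 ≤ mm x := div_nonneg (KK_pos 1 x).le (KK_pos 0 x).le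

theorem mm_le_yc (x : ℝ) : mm x ≤ 1.2 := by
  unfold mm
  rw [div_le_iff₀ (KK_pos 0 x)]
  unfold KK
  have hpi := Real.pi_pos
  rw [mul_left_comm]
  refine mul_le_mul_of_nonneg_left ?_ (by positivity)
  rw [← intervalIntegral.integral_const_mul]
  refine intervalIntegral.integral_mono_on thc_pos.le (KBasic_int (continuous_yy.pow 1) x)
    ((KBasic_int (continuous_yy.pow 0) x).const_mul _) (fun θ hθ => ?_)
  have h := (yy_mem hθ.1 hθ.2).2
  have h2 : 0 ≤ wt θ * Real.exp (-(yy θ * x)) := mul_nonneg (wt_nonneg θ) (Real.exp_pos _).le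
  calc yy θ ^ 1 * wt θ * Real.exp (-(yy θ * x)) = yy θ * (wt θ * Real.exp (-(yy θ * x))) := by ring
    _ ≤ 1.2 * (wt θ * Real.exp (-(yy θ * x))) := mul_le_mul_of_nonneg_right h h2
    _ = 1.2 * (yy θ ^ 0 * wt θ * Real.exp (-(yy θ * x))) := by ring

theorem VV_eq (x : ℝ) : KK 0 x * VV x =
    2 / Real.pi * ∫ θ in (0:ℝ)..thc, (yy θ - mm x) ^ 2 * wt θ * Real.exp (-(yy θ * x)) := by
  have hK := (KK_pos 0 x).ne'
  have h1 : KK 1 x = mm x * KK 0 x := by
    unfold mm
    field_simp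
  have h2 : KK 0 x * VV x = KK 2 x - mm x ^ 2 * KK 0 x := by
    unfold VV
    field_simp
  have hi2 : IntervalIntegrable (fun θ => yy θ ^ 2 * wt θ * Real.exp (-(yy θ * x))) volume 0 thc :=
    KBasic_int (continuous_yy.pow 2) x
  have hi1 : IntervalIntegrable
      (fun θ => 2 * mm x * (yy θ ^ 1 * wt θ * Real.exp (-(yy θ * x)))) volume 0 thc :=
    (KBasic_int (continuous_yy.pow 1) x).const_mul (2 * mm x)
  have hi0 : IntervalIntegrable
      (fun θ => mm x ^ 2 * (yy θ ^ 0 * wt θ * Real.exp (-(yy θ * x)))) volume 0 thc :=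
    (KBasic_int (continuous_yy.pow 0) x).const_mul (mm x ^ 2)
  have hi21 : IntervalIntegrable
      (fun θ => yy θ ^ 2 * wt θ * Real.exp (-(yy θ * x)) -
        2 * mm x * (yy θ ^ 1 * wt θ * Real.exp (-(yy θ * x)))) volume 0 thc := hi2.sub hi1
  have h3 : ∫ θ in (0:ℝ)..thc, (yy θ - mm x) ^ 2 * wt θ * Real.exp (-(yy θ * x)) =
      (∫ θ in (0:ℝ)..thc, yy θ ^ 2 * wt θ * Real.exp (-(yy θ * x))) -
        (2 * mm x) * (∫ θ in (0:ℝ)..thc, yy θ ^ 1 * wt θ * Real.exp (-(yy θ * x))) +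
        mm x ^ 2 * ∫ θ in (0:ℝ)..thc, yy θ ^ 0 * wt θ * Real.exp (-(yy θ * x)) := by
    rw [← intervalIntegral.integral_const_mul, ← intervalIntegral.integral_const_mul,
      ← intervalIntegral.integral_sub hi2 hi1,
      ← intervalIntegral.integral_add hi21 hi0]
    congr 1
    ext θ
    ring
  rw [h2, h3]
  have e1 : 2 / Real.pi * (∫ θ in (0:ℝ)..thc, yy θ ^ 1 * wt θ * Real.exp (-(yy θ * x))) =
    mm x * KK 0 x := h1
  have e2 : KK 2 x = 2 / Real.pi * ∫ θ in (0:ℝ)..thc, yy θ ^ 2 * wt θ * Real.exp (-(yy θ * x)) := rfl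
  have e0 : KK 0 x = 2 / Real.pi * ∫ θ in (0:ℝ)..thc, yy θ ^ 0 * wt θ * Real.exp (-(yy θ * x)) := rfl
  rw [mul_add, mul_sub, ← e2, mul_left_comm (2 / Real.pi) (2 * mm x), e1,
    mul_left_comm (2 / Real.pi) (mm x ^ 2), ← e0]
  ring

theorem VV_nonneg (x : ℝ) : 0 ≤ VV x := by
  have h : 0 ≤ KK 0 x * VV x := by
    rw [VV_eq]
    have hpi := Real.pi_pos
    refine mul_nonneg (by positivity) (intervalIntegral.integral_nonneg thc_pos.le fun θ _ => ?_)
    exact mul_nonneg (mul_nonneg (sq_nonneg _) (wt_nonneg θ)) (Real.exp_pos _).le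
  exact nonneg_of_mul_nonneg_right h (KK_pos 0 x)

end RR
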