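import Pool.Agent.Lib.MP_31701c_co.MomCmp
import Pool.Agent.Lib.MP_31701c_co.K0low

/-!
# RR-KCoefM : the error measure `rho2`

`ρ2 = (1.7 β) • nu e + 0.08 • δ_{1.8} + 0.8 • δ_{1.001}`, `β = 1 - e²`, a finite measure on `[0,3]`;
`∫ e^{rt} dρ2 = 1.7 β kk e r + 0.08 e^{1.8 r} + 0.8 e^{1.001 r}` (`nu_exp`).
`rho2_exp_le`: `1.7 β ≤ 0.05/r³`, and `0.08 e^{1.8r} + 0.8 e^{1.001r} ≤ 6.1/r³ · kk e r` for `r ≥ 8`, from
`kk e r ≥ 2145 e^{2.56 (r - 4.4)}` (`kk_lower`): at `r = 8` the left side is `≤ 1.46e5` and the right side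
`≥ 0.01191·2.15e7 ≥ 2.5e5`; the quotient left/right decreases in `r` (`1.8 + 3/r < 2.56`).
`XS_cmp`: `mom_cmp` divided by `m!`; `∫ t^m dρ2 = 1.7 β ∫ t^m d(nu e) + 0.08·1.8^m + 0.8·1.001^m`.
-/

set_option autoImplicit false

namespace RR

open MeasureTheory

/-- the error measure -/
noncomputable def rho2 (e : ℝ) : Measure ℝ :=
  ENNReal.ofReal (1.7 * (1 - e ^ 2)) • nu e + ENNReal.ofReal 0.08 • Measure.dirac (1.8 : ℝ) +
    ENNReal.ofReal 0.8 • Measure.dirac (1.001 : ℝ)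

instance instFiniteRho2 (e : ℝ) : IsFiniteMeasure (rho2 e) := by
  have h1 : IsFiniteMeasure (ENNReal.ofReal (1.7 * (1 - e ^ 2)) • nu e) :=
    Measure.smul_finite _ ENNReal.ofReal_ne_top
  have h2 : IsFiniteMeasure (ENNReal.ofReal 0.08 • Measure.dirac (1.8 : ℝ)) :=
    Measure.smul_finite _ ENNReal.ofReal_ne_top
  have h3 : IsFiniteMeasure (ENNReal.ofReal 0.8 • Measure.dirac (1.001 : ℝ)) :=
    Measure.smul_finite _ ENNReal.ofReal_ne_top
  unfold rho2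
  infer_instance

theorem rho2_ae {e : ℝ} (h9 : e9 ≤ e) (h1 : e < 1) : ∀ᵐ t ∂(rho2 e), 0 ≤ t ∧ t ≤ 3 := by
  unfold rho2
  rw [ae_add_measure_iff, ae_add_measure_iff]
  refine ⟨⟨?_, ?_⟩, ?_⟩
  · exact Measure.ae_smul_measure (nu_ae h9 h1) _
  · refine Measure.ae_smul_measure ?_ _
    rw [ae_dirac_eq]
    show (0 : ℝ) ≤ 1.8 ∧ (1.8 : ℝ) ≤ 3
    norm_num
  · refine Measure.ae_smul_measure ?_ _
    rw [ae_dirac_eq]
    show (0 : ℝ) ≤ 1.001 ∧ (1.001 : ℝ) ≤ 3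
    norm_num

private theorem KCoefM_intg {f : ℝ → ℝ} (hf : Continuous f)
    {μ : Measure ℝ} [IsFiniteMeasure μ] (hμ : ∀ᵐ t ∂μ, 0 ≤ t ∧ t ≤ 3) : Integrable f μ := by
  obtain ⟨C, hC⟩ := (isCompact_Icc (a := (0 : ℝ)) (b := 3)).exists_bound_of_continuousOn
    hf.continuousOn
  refine Integrable.of_bound hf.aestronglyMeasurable C ?_
  filter_upwards [hμ] with t ht
  exact hC t ⟨ht.1, ht.2⟩

private theorem KCoefM_int {e : ℝ} (h9 : e9 ≤ e) (h1 : e < 1) {f : ℝ → ℝ} (hf : Continuous f) :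
    ∫ t, f t ∂(rho2 e) = 1.7 * (1 - e ^ 2) * (∫ t, f t ∂(nu e)) + 0.08 * f 1.8 + 0.8 * f 1.001 := by
  have hn : Integrable f (nu e) := KCoefM_intg hf (nu_ae h9 h1)
  have hb : 0 ≤ 1.7 * (1 - e ^ 2) := by
    have h2 : e9 ≤ e := h9
    unfold e9 at h2
    nlinarith
  have i1 : Integrable f (ENNReal.ofReal (1.7 * (1 - e ^ 2)) • nu e) :=
    hn.smul_measure ENNReal.ofReal_ne_top
  have i2 : Integrable f (ENNReal.ofReal 0.08 • Measure.dirac (1.8 : ℝ)) :=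
    (integrable_dirac (by simp)).smul_measure ENNReal.ofReal_ne_top
  have i3 : Integrable f (ENNReal.ofReal 0.8 • Measure.dirac (1.001 : ℝ)) :=
    (integrable_dirac (by simp)).smul_measure ENNReal.ofReal_ne_top
  unfold rho2
  rw [integral_add_measure (i1.add_measure i2) i3, integral_add_measure i1 i2,
    integral_smul_measure, integral_smul_measure, integral_smul_measure, integral_dirac,
    integral_dirac, ENNReal.toReal_ofReal hb, ENNReal.toReal_ofReal (by norm_num),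
    ENNReal.toReal_ofReal (by norm_num)]
  simp only [smul_eq_mul]

private theorem KCoefM_sq {a : ℝ} (h : a ^ 2 ≤ 300 ^ 2) : a ≤ 300 := by
  nlinarith

private theorem KCoefM_exp_num : Real.exp 5.184 ≤ 300 := by
  have h1 : Real.exp 5.184 ≤ Real.exp 5.5 := Real.exp_le_exp.mpr (by norm_num)
  have h2 : Real.exp 5.5 ^ 2 = Real.exp 1 ^ 11 := by
    rw [← Real.exp_nat_mul, ← Real.exp_nat_mul]
    norm_num
  have h3 : Real.exp 1 ^ 11 ≤ 2.7182818286 ^ 11 :=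
    pow_le_pow_left₀ (Real.exp_pos _).le Real.exp_one_lt_d9.le 11
  have h4 : (2.7182818286 : ℝ) ^ 11 ≤ 300 ^ 2 := by norm_num
  have h5 : Real.exp 5.5 ^ 2 ≤ 300 ^ 2 := by rw [h2]; exact h3.trans h4
  have h6 : Real.exp 5.5 ≤ 300 := KCoefM_sq h5
  exact h1.trans h6

private theorem KCoefM_main {r : ℝ} (hr : 8 ≤ r) :
    r ^ 3 * (0.08 * Real.exp (1.8 * r) + 0.8 * Real.exp (1.001 * r)) ≤
      6.1 * (2145 * Real.exp (2.56 * (r - 4.4))) := by
  obtain ⟨s, hs⟩ : ∃ s, s = r - 8 := ⟨_, rfl⟩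
  have hs0 : 0 ≤ s := by linarith
  have hrs : r = 8 + s := by linarith
  set E := Real.exp (2.56 * (r - 4.4)) with hE
  have hE0 : 0 < E := Real.exp_pos _
  have h1 : r ≤ 8 * Real.exp (s / 8) := by
    have := Real.add_one_le_exp (s / 8)
    linarith
  have h2 : r ^ 3 ≤ 512 * Real.exp (3 * s / 8) := by
    have h3 : r ^ 3 ≤ (8 * Real.exp (s / 8)) ^ 3 := pow_le_pow_left₀ (by linarith) h1 3
    have h4 : (8 * Real.exp (s / 8)) ^ 3 = 512 * Real.exp (3 * s / 8) := by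
      rw [mul_pow, ← Real.exp_nat_mul]
      have : ((3 : ℕ) : ℝ) * (s / 8) = 3 * s / 8 := by push_cast; ring
      rw [this]
      norm_num
    linarith
  have h5 : Real.exp (3 * s / 8) * Real.exp (1.8 * r) ≤ E * 300 := by
    have h6 : Real.exp (3 * s / 8) * Real.exp (1.8 * r) = E * Real.exp (5.184 - 0.385 * s) := by
      rw [hE, ← Real.exp_add, ← Real.exp_add, hrs]
      congr 1
      ring
    rw [h6]
    refine mul_le_mul_of_nonneg_left ?_ hE0.le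
    refine (Real.exp_le_exp.mpr ?_).trans KCoefM_exp_num
    linarith
  have h7 : Real.exp (3 * s / 8) * Real.exp (1.001 * r) ≤ E * 1 := by
    have h8 : Real.exp (3 * s / 8) * Real.exp (1.001 * r) = E * Real.exp (-1.208 - 1.184 * s) := by
      rw [hE, ← Real.exp_add, ← Real.exp_add, hrs]
      congr 1
      ring
    rw [h8]
    refine mul_le_mul_of_nonneg_left ?_ hE0.le
    rw [Real.exp_le_one_iff]
    linarith
  have h9 : 0 ≤ 0.08 * Real.exp (1.8 * r) + 0.8 * Real.exp (1.001 * r) := by positivity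
  calc r ^ 3 * (0.08 * Real.exp (1.8 * r) + 0.8 * Real.exp (1.001 * r))
      ≤ 512 * Real.exp (3 * s / 8) * (0.08 * Real.exp (1.8 * r) + 0.8 * Real.exp (1.001 * r)) :=
        mul_le_mul_of_nonneg_right h2 h9
    _ = 512 * (0.08 * (Real.exp (3 * s / 8) * Real.exp (1.8 * r)) +
          0.8 * (Real.exp (3 * s / 8) * Real.exp (1.001 * r))) := by ring
    _ ≤ 512 * (0.08 * (E * 300) + 0.8 * (E * 1)) := by
        gcongr
    _ ≤ 6.1 * (2145 * E) := by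
        nlinarith

theorem rho2_exp_le {e : ℝ} (h9 : e9 ≤ e) (h1 : e < 1) {r : ℝ} (hr : 8 ≤ r)
    (hβ : 1.7 * (1 - e ^ 2) ≤ 0.05 / r ^ 3) :
    0 ≤ ∫ t, Real.exp (r * t) ∂(rho2 e) ∧
      ∫ t, Real.exp (r * t) ∂(rho2 e) ≤ kk e r * (6.2 / r ^ 3) := by
  refine ⟨integral_nonneg fun t => (Real.exp_pos _).le, ?_⟩
  rw [KCoefM_int h9 h1 (f := fun t => Real.exp (r * t)) (by fun_prop), nu_exp]
  have hk := kk_lower h9 h1.le (x := r) (by linarith)
  have hm := KCoefM_main hr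
  have hr3 : 0 < r ^ 3 := by positivity
  have hk0 : 0 < kk e r := lt_of_lt_of_le (by positivity) hk
  have e1 : r * 1.8 = 1.8 * r := by ring
  have e2 : r * 1.001 = 1.001 * r := by ring
  rw [e1, e2]
  have a1 : 1.7 * (1 - e ^ 2) * kk e r ≤ 0.05 / r ^ 3 * kk e r :=
    mul_le_mul_of_nonneg_right hβ hk0.le
  have a2 : 0.08 * Real.exp (1.8 * r) + 0.8 * Real.exp (1.001 * r) ≤ 6.1 / r ^ 3 * kk e r := by
    rw [div_mul_eq_mul_div, le_div_iff₀ hr3]
    nlinarith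
  have a3 : kk e r * (6.2 / r ^ 3) = 0.05 / r ^ 3 * kk e r + 6.1 / r ^ 3 * kk e r +
      0.05 / r ^ 3 * kk e r := by ring
  have a4 : 0 ≤ 0.05 / r ^ 3 * kk e r := by positivity
  rw [a3]
  linarith

private theorem KCoefM_rho2_mom {e : ℝ} (h9 : e9 ≤ e) (h1 : e < 1) (m : ℕ) :
    ∫ t, t ^ m ∂(rho2 e) =
      1.7 * (1 - e ^ 2) * (∫ t, t ^ m ∂(nu e)) + 0.08 * 1.8 ^ m + 0.8 * 1.001 ^ m :=
  KCoefM_int h9 h1 (f := fun t => t ^ m) (by fun_prop)

theorem XS_cmp {e : ℝ} (h9 : e9 ≤ e) (h1 : e < 1) (m : ℕ) :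
    |PowerSeries.coeff m (XS e) - PowerSeries.coeff m (momS (nu e))| ≤
      PowerSeries.coeff m (momS (rho2 e)) := by
  unfold XS momS
  rw [PowerSeries.coeff_mk, PowerSeries.coeff_mk, PowerSeries.coeff_mk, KCoefM_rho2_mom h9 h1,
    ← sub_div, abs_div, abs_of_nonneg (Nat.cast_nonneg m.factorial : (0 : ℝ) ≤ m.factorial)]
  exact div_le_div_of_nonneg_right (mom_cmp h9 h1 m) (Nat.cast_nonneg _)

theorem momS_nu_nonneg {e : ℝ} (h9 : e9 ≤ e) (h1 : e < 1) (m : ℕ) :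
    0 ≤ PowerSeries.coeff m (momS (nu e)) := by
  unfold momS
  rw [PowerSeries.coeff_mk]
  exact div_nonneg (nu_mom_nonneg h9 h1 m) (Nat.cast_nonneg _)

/-- `momS` is additive for finite measures on `[0, 3]`. -/
theorem momS_add {e : ℝ} (h9 : e9 ≤ e) (h1 : e < 1) :
    momS (nu e + rho2 e) = momS (nu e) + momS (rho2 e) := by
  ext m
  rw [map_add]
  unfold momS
  rw [PowerSeries.coeff_mk, PowerSeries.coeff_mk, PowerSeries.coeff_mk, ← add_div]
  have hc : Continuous (fun t : ℝ => t ^ m) := by fun_prop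
  rw [integral_add_measure (KCoefM_intg hc (nu_ae h9 h1))
    (KCoefM_intg hc (rho2_ae h9 h1))]

end RR
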