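import Pool.Agent.Lib.MP_31701c_co.KBasic

/-!
# RR-KComplex : `K_0` at complex arguments, growth of `K_0`

`z = x + i y'`. `KC z = (2/π) ∫ w e^{-xy} e^{-i y' y}`; norms: `‖KC z‖ ≤ KK 0 x`, `‖KC1 z‖ ≤ KK 1 x`.
`KC z e^{i m y'} - K₀(x) = (2/π) ∫ w e^{-xy} (e^{-i y'(y-m)} - 1 + i y'(y-m))` because `⟨y - m⟩ = 0`, and
`|e^{iu} - 1 - iu| ≤ u²/2`; so its norm is `≤ y'²/2 ⟨(y-m)²⟩ = K₀ V y'²/2`.
(`VV_eq` of KBasic.) Growth: `K₀(b) = K₀(a) E_a[e^{-(b-a)y}] ≥ K₀(a) e^{-(b-a) m(a)}` by `e^u ≥ e^c (1 + (u - c))`.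
`kk` versions: `k(x) = e^{Tx}K₀(x)`, `T = 2 + e`.
-/

set_option autoImplicit false

namespace RR

private theorem two_pi_pos : (0 : ℝ) < 2 / Real.pi := by positivity

private theorem quad_nonneg {u : ℝ} (hu : 0 ≤ u) :
    ‖Complex.exp (Complex.I * (u : ℂ)) - 1 - Complex.I * (u : ℂ)‖ ≤ u ^ 2 / 2 := by
  have h := image_norm_le_of_norm_deriv_right_le_deriv_boundary'
    (f := fun s : ℝ => Complex.exp (Complex.I * (s : ℂ)) - 1 - Complex.I * (s : ℂ))
    (f' := fun s : ℝ => Complex.I * (Complex.exp (Complex.I * (s : ℂ)) - 1)) (a := 0) (b := u)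
    (B := fun s => s ^ 2 / 2) (B' := fun s => s) (by fun_prop) (by
      intro x _
      have h1 : HasDerivAt (fun s : ℝ => Complex.I * (s : ℂ)) Complex.I x := by
        have := (Complex.ofRealCLM.hasDerivAt (x := x)).const_mul Complex.I
        simpa using this
      have h2 : HasDerivAt (fun s : ℝ => Complex.exp (Complex.I * (s : ℂ)))
          (Complex.exp (Complex.I * (x : ℂ)) * Complex.I) x := h1.cexp
      have h3 := (h2.sub_const 1).sub h1
      refine (HasDerivAt.congr_deriv h3 ?_).hasDerivWithinAt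
      ring) (by simp) (by fun_prop) (by
      intro x _
      have h1 : HasDerivAt (fun s : ℝ => s ^ 2 / 2) (2 * x / 2) x := by
        simpa using (hasDerivAt_pow 2 x).div_const 2
      refine (HasDerivAt.congr_deriv h1 ?_).hasDerivWithinAt
      ring) (by
      intro x hx
      rw [norm_mul, Complex.norm_I, one_mul]
      refine Real.norm_exp_I_mul_ofReal_sub_one_le.trans ?_
      rw [Real.norm_of_nonneg hx.1])
  exact h (Set.right_mem_Icc.2 hu)

private theorem quad (u : ℝ) :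
    ‖Complex.exp (Complex.I * (u : ℂ)) - 1 - Complex.I * (u : ℂ)‖ ≤ u ^ 2 / 2 := by
  rcases le_total 0 u with h | h
  · exact quad_nonneg h
  · have h1 := quad_nonneg (u := -u) (by linarith)
    have h2 : (starRingEnd ℂ) (Complex.exp (Complex.I * ((-u : ℝ) : ℂ)) - 1 - Complex.I * ((-u : ℝ) : ℂ)) =
        Complex.exp (Complex.I * (u : ℂ)) - 1 - Complex.I * (u : ℂ) := by
      rw [map_sub, map_sub, map_one, ← Complex.exp_conj, map_mul, Complex.conj_I, Complex.conj_ofReal]
      push_cast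
      ring_nf
    rw [← h2, Complex.norm_conj]
    calc _ ≤ (-u) ^ 2 / 2 := h1
      _ = u ^ 2 / 2 := by ring

/-- the tilted weight -/
private noncomputable def W (x θ : ℝ) : ℝ := wt θ * Real.exp (-(yy θ * x))

private theorem continuous_yy : Continuous yy := by unfold yy; fun_prop

private theorem W_nonneg (x θ : ℝ) : 0 ≤ W x θ := mul_nonneg (wt_nonneg θ) (Real.exp_pos _).le

private theorem continuousOn_W (x : ℝ) : ContinuousOn (W x) (Set.Icc 0 thc) := by
  unfold W
  have := continuous_yy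
  exact continuousOn_wt.mul (by fun_prop)

private theorem int_W {x : ℝ} {f : ℝ → ℝ} (hf : Continuous f) :
    IntervalIntegrable (fun θ => W x θ * f θ) MeasureTheory.volume 0 thc :=
  ContinuousOn.intervalIntegrable_of_Icc thc_pos.le ((continuousOn_W x).mul hf.continuousOn)

private theorem intC_W {x : ℝ} {f : ℝ → ℂ} (hf : Continuous f) :
    IntervalIntegrable (fun θ => ((W x θ : ℝ) : ℂ) * f θ) MeasureTheory.volume 0 thc :=
  ContinuousOn.intervalIntegrable_of_Icc thc_pos.le
    ((Complex.continuous_ofReal.comp_continuousOn (continuousOn_W x)).mul hf.continuousOn)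

private theorem KK_W (j : ℕ) (x : ℝ) : KK j x = 2 / Real.pi * ∫ θ in (0:ℝ)..thc, W x θ * yy θ ^ j := by
  unfold KK W
  congr 1
  refine intervalIntegral.integral_congr fun θ _ => ?_
  change yy θ ^ j * wt θ * Real.exp (-(yy θ * x)) = wt θ * Real.exp (-(yy θ * x)) * yy θ ^ j
  ring

private theorem KK1_eq (x : ℝ) : KK 1 x = mm x * KK 0 x := by
  unfold mm
  have := (KK_pos 0 x).ne'
  field_simp

private theorem cexp_split (z : ℂ) (t : ℝ) : Complex.exp (-((t : ℂ) * z)) =
    ((Real.exp (-(t * z.re)) : ℝ) : ℂ) * Complex.exp (-(Complex.I * ((t * z.im : ℝ) : ℂ))) := by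
  rw [Complex.ofReal_exp, ← Complex.exp_add]
  congr 1
  conv_lhs => rw [← Complex.re_add_im z]
  push_cast
  ring

private theorem KC_W (z : ℂ) : KC z = (2 / Real.pi : ℝ) *
    ∫ θ in (0:ℝ)..thc, ((W z.re θ : ℝ) : ℂ) * Complex.exp (-(Complex.I * ((yy θ * z.im : ℝ) : ℂ))) := by
  unfold KC
  congr 1
  refine intervalIntegral.integral_congr fun θ _ => ?_
  change ((wt θ : ℝ) : ℂ) * Complex.exp (-(((yy θ : ℝ) : ℂ) * z)) = _
  rw [cexp_split]
  unfold W
  push_cast
  ring

private theorem norm_cexp_I (t : ℝ) : ‖Complex.exp (-(Complex.I * (t : ℂ)))‖ = 1 := by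
  rw [Complex.norm_exp]
  simp

theorem KC_norm_le (z : ℂ) : ‖KC z‖ ≤ KK 0 z.re := by
  rw [KC_W, KK_W, norm_mul, Complex.norm_real, Real.norm_of_nonneg two_pi_pos.le]
  refine mul_le_mul_of_nonneg_left ?_ two_pi_pos.le
  refine (intervalIntegral.norm_integral_le_integral_norm thc_pos.le).trans (le_of_eq ?_)
  refine intervalIntegral.integral_congr fun θ _ => ?_
  change ‖((W z.re θ : ℝ) : ℂ) * Complex.exp (-(Complex.I * ((yy θ * z.im : ℝ) : ℂ)))‖ = W z.re θ * yy θ ^ 0
  rw [norm_mul, norm_cexp_I, Complex.norm_real, Real.norm_of_nonneg (W_nonneg _ _), pow_zero]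

theorem KC1_norm_le (z : ℂ) : ‖KC1 z‖ ≤ KK 1 z.re := by
  unfold KC1
  rw [KK_W, norm_mul, Complex.norm_real, Real.norm_of_nonneg two_pi_pos.le]
  refine mul_le_mul_of_nonneg_left ?_ two_pi_pos.le
  refine (intervalIntegral.norm_integral_le_integral_norm thc_pos.le).trans (le_of_eq ?_)
  refine intervalIntegral.integral_congr fun θ hθ => ?_
  rw [Set.uIcc_of_le thc_pos.le] at hθ
  change ‖((yy θ * wt θ : ℝ) : ℂ) * Complex.exp (-(((yy θ : ℝ) : ℂ) * z))‖ = W z.re θ * yy θ ^ 1
  rw [cexp_split, norm_mul, norm_mul, norm_cexp_I, Complex.norm_real, Complex.norm_real,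
    Real.norm_of_nonneg (mul_nonneg (yy_mem hθ.1 hθ.2).1 (wt_nonneg θ)), Real.norm_of_nonneg (Real.exp_pos _).le]
  unfold W
  ring

theorem KC_approx (z : ℂ) :
    ‖KC z - (KK 0 z.re : ℂ) * Complex.exp (-(Complex.I * ((mm z.re * z.im : ℝ) : ℂ)))‖ ≤
      KK 0 z.re * (z.im ^ 2 * VV z.re / 2) := by
  set x := z.re with hx
  set y := z.im with hy
  set m := mm x with hm
  have hyc := continuous_yy
  -- the difference as one integral
  have hd : KC z - (KK 0 x : ℂ) * Complex.exp (-(Complex.I * ((m * y : ℝ) : ℂ))) =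
      (2 / Real.pi : ℝ) * ∫ θ in (0:ℝ)..thc, ((W x θ : ℝ) : ℂ) *
        (Complex.exp (-(Complex.I * ((m * y : ℝ) : ℂ))) *
          (Complex.exp (Complex.I * ((-((yy θ - m) * y) : ℝ) : ℂ)) - 1 -
            Complex.I * ((-((yy θ - m) * y) : ℝ) : ℂ))) := by
    set c := Complex.exp (-(Complex.I * ((m * y : ℝ) : ℂ))) with hc
    have h1 : ∀ θ : ℝ, ((W x θ : ℝ) : ℂ) * (c * (Complex.exp (Complex.I * ((-((yy θ - m) * y) : ℝ) : ℂ)) - 1 -
            Complex.I * ((-((yy θ - m) * y) : ℝ) : ℂ))) =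
        ((W x θ : ℝ) : ℂ) * Complex.exp (-(Complex.I * ((yy θ * y : ℝ) : ℂ))) -
          c * ((W x θ : ℝ) : ℂ) + (c * Complex.I * (y : ℂ)) * ((W x θ * (yy θ - m) : ℝ) : ℂ) := by
      intro θ
      have h2 : c * Complex.exp (Complex.I * ((-((yy θ - m) * y) : ℝ) : ℂ)) =
          Complex.exp (-(Complex.I * ((yy θ * y : ℝ) : ℂ))) := by
        rw [hc, ← Complex.exp_add]
        congr 1
        push_cast
        ring
      rw [← h2]
      push_cast
      ring
    simp only [h1]
    have i1 : IntervalIntegrable (fun θ => ((W x θ : ℝ) : ℂ) *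
        Complex.exp (-(Complex.I * ((yy θ * y : ℝ) : ℂ)))) MeasureTheory.volume 0 thc :=
      intC_W (f := fun θ => Complex.exp (-(Complex.I * ((yy θ * y : ℝ) : ℂ)))) (by fun_prop)
    have i2 : IntervalIntegrable (fun θ => c * ((W x θ : ℝ) : ℂ)) MeasureTheory.volume 0 thc := by
      have := (intC_W (x := x) (f := fun _ => (1 : ℂ)) continuous_const).const_mul c
      simpa using this
    have i3 : IntervalIntegrable (fun θ => (c * Complex.I * (y : ℂ)) * ((W x θ * (yy θ - m) : ℝ) : ℂ))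
        MeasureTheory.volume 0 thc := by
      have := (intC_W (x := x) (f := fun θ => (((yy θ - m) : ℝ) : ℂ)) (by fun_prop)).const_mul
        (c * Complex.I * (y : ℂ))
      simpa using this
    rw [intervalIntegral.integral_add (i1.sub i2) i3, intervalIntegral.integral_sub i1 i2,
      intervalIntegral.integral_const_mul, intervalIntegral.integral_const_mul, intervalIntegral.integral_ofReal,
      intervalIntegral.integral_ofReal]
    have e0 : (2 / Real.pi) * ∫ θ in (0:ℝ)..thc, W x θ = KK 0 x := by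
      rw [KK_W]
      simp
    have e1 : (2 / Real.pi) * ∫ θ in (0:ℝ)..thc, W x θ * (yy θ - m) = 0 := by
      have h3 : ∫ θ in (0:ℝ)..thc, W x θ * (yy θ - m) =
          (∫ θ in (0:ℝ)..thc, W x θ * yy θ ^ 1) - m * ∫ θ in (0:ℝ)..thc, W x θ * yy θ ^ 0 := by
        rw [← intervalIntegral.integral_const_mul, ← intervalIntegral.integral_sub
          (int_W (f := fun θ => yy θ ^ 1) (by fun_prop)) ((int_W (f := fun θ => yy θ ^ 0) (by fun_prop)).const_mul m)]
        refine intervalIntegral.integral_congr fun θ _ => ?_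
        change W x θ * (yy θ - m) = W x θ * yy θ ^ 1 - m * (W x θ * yy θ ^ 0)
        ring
      rw [h3, mul_sub, ← KK_W 1 x, mul_left_comm, ← KK_W 0 x, KK1_eq, sub_self]
    have e1' : ((2 / Real.pi : ℝ) : ℂ) * ((∫ θ in (0:ℝ)..thc, W x θ * (yy θ - m) : ℝ) : ℂ) = 0 := by
      rw [← Complex.ofReal_mul, e1, Complex.ofReal_zero]
    have e0' : ((2 / Real.pi : ℝ) : ℂ) * ((∫ θ in (0:ℝ)..thc, W x θ : ℝ) : ℂ) = (KK 0 x : ℂ) := by
      rw [← Complex.ofReal_mul, e0]
    have hK := KC_W z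
    rw [← hx, ← hy] at hK
    rw [hK]
    linear_combination c * e0' - (c * Complex.I * (y : ℂ)) * e1'
  rw [hd, norm_mul, Complex.norm_real, Real.norm_of_nonneg two_pi_pos.le]
  have hV : KK 0 x * (y ^ 2 * VV x / 2) = 2 / Real.pi *
      ∫ θ in (0:ℝ)..thc, W x θ * (((yy θ - m) * y) ^ 2 / 2) := by
    have h1 : ∫ θ in (0:ℝ)..thc, W x θ * (((yy θ - m) * y) ^ 2 / 2) =
        (y ^ 2 / 2) * ∫ θ in (0:ℝ)..thc, (yy θ - mm x) ^ 2 * wt θ * Real.exp (-(yy θ * x)) := by
      rw [← intervalIntegral.integral_const_mul]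
      refine intervalIntegral.integral_congr fun θ _ => ?_
      change W x θ * (((yy θ - m) * y) ^ 2 / 2) = y ^ 2 / 2 *
        ((yy θ - mm x) ^ 2 * wt θ * Real.exp (-(yy θ * x)))
      unfold W
      rw [← hm]
      ring
    rw [h1]
    have h2 := VV_eq x
    linear_combination (y ^ 2 / 2) * h2
  rw [hV]
  refine mul_le_mul_of_nonneg_left ?_ two_pi_pos.le
  refine (intervalIntegral.norm_integral_le_integral_norm thc_pos.le).trans ?_
  refine intervalIntegral.integral_mono_on thc_pos.le ?_ ?_ ?_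
  · refine IntervalIntegrable.norm ?_
    exact intC_W (f := fun θ => Complex.exp (-(Complex.I * ((m * y : ℝ) : ℂ))) *
          (Complex.exp (Complex.I * ((-((yy θ - m) * y) : ℝ) : ℂ)) - 1 -
            Complex.I * ((-((yy θ - m) * y) : ℝ) : ℂ))) (by fun_prop)
  · exact int_W (f := fun θ => ((yy θ - m) * y) ^ 2 / 2) (by fun_prop)
  · intro θ _
    rw [norm_mul, norm_mul, norm_cexp_I, one_mul, Complex.norm_real, Real.norm_of_nonneg (W_nonneg _ _)]
    refine mul_le_mul_of_nonneg_left ?_ (W_nonneg _ _)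
    refine (quad _).trans (le_of_eq ?_)
    ring

theorem KK_growth {a b : ℝ} (hab : a ≤ b) :
    KK 0 a * Real.exp (-(mm a * (b - a))) ≤ KK 0 b ∧ KK 0 b ≤ KK 0 a := by
  have hyc := continuous_yy
  have hWb : ∀ θ, W b θ = W a θ * Real.exp (-(yy θ * (b - a))) := by
    intro θ
    unfold W
    rw [mul_assoc, ← Real.exp_add]
    congr 2
    ring
  constructor
  · set m := mm a with hm
    set c := Real.exp (-(m * (b - a))) with hc
    have h1 : KK 0 a * c = 2 / Real.pi *
        ∫ θ in (0:ℝ)..thc, W a θ * (c * (1 + (-(yy θ * (b - a)) - -(m * (b - a))))) := by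
      have h2 : ∀ θ : ℝ, W a θ * (c * (1 + (-(yy θ * (b - a)) - -(m * (b - a))))) =
          (c * (1 + m * (b - a))) * (W a θ * yy θ ^ 0) - (c * (b - a)) * (W a θ * yy θ ^ 1) := by
        intro θ
        ring
      simp only [h2]
      rw [intervalIntegral.integral_sub ((int_W (f := fun θ => yy θ ^ 0) (by fun_prop)).const_mul _)
        ((int_W (f := fun θ => yy θ ^ 1) (by fun_prop)).const_mul _), intervalIntegral.integral_const_mul,
        intervalIntegral.integral_const_mul]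
      have h3 := KK_W 0 a
      have h4 := KK_W 1 a
      have h5 := KK1_eq a
      rw [← hm] at h5
      linear_combination (c * (1 + m * (b - a))) * h3 - (c * (b - a)) * h4 + c * (b - a) * h5
    rw [h1, KK_W 0 b]
    refine mul_le_mul_of_nonneg_left ?_ two_pi_pos.le
    refine intervalIntegral.integral_mono_on thc_pos.le ?_ ?_ ?_
    · exact int_W (f := fun θ => c * (1 + (-(yy θ * (b - a)) - -(m * (b - a))))) (by fun_prop)
    · exact int_W (f := fun θ => yy θ ^ 0) (by fun_prop)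
    · intro θ _
      rw [hWb, pow_zero, mul_one]
      refine mul_le_mul_of_nonneg_left ?_ (W_nonneg _ _)
      have h2 : Real.exp (-(yy θ * (b - a))) = c * Real.exp (-(yy θ * (b - a)) - -(m * (b - a))) := by
        rw [hc, ← Real.exp_add]
        congr 1
        ring
      rw [h2]
      refine mul_le_mul_of_nonneg_left ?_ (Real.exp_pos _).le
      have := Real.add_one_le_exp (-(yy θ * (b - a)) - -(m * (b - a)))
      linarith
  · rw [KK_W 0 a, KK_W 0 b]
    refine mul_le_mul_of_nonneg_left ?_ two_pi_pos.le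
    refine intervalIntegral.integral_mono_on thc_pos.le (int_W (f := fun θ => yy θ ^ 0) (by fun_prop))
      (int_W (f := fun θ => yy θ ^ 0) (by fun_prop)) ?_
    intro θ hθ
    rw [hWb, pow_zero, mul_one, mul_one]
    have h1 := (yy_mem hθ.1 hθ.2).1
    have h2 : Real.exp (-(yy θ * (b - a))) ≤ 1 := by
      rw [Real.exp_le_one_iff]
      nlinarith
    calc W a θ * Real.exp (-(yy θ * (b - a))) ≤ W a θ * 1 :=
          mul_le_mul_of_nonneg_left h2 (W_nonneg _ _)
      _ = W a θ := mul_one _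

theorem kk_pos (e x : ℝ) : 0 < kk e x := mul_pos (Real.exp_pos _) (KK_pos 0 x)

theorem kk_lo {e a b : ℝ} (hab : a ≤ b) :
    kk e a * Real.exp (((2 + e) - mm a) * (b - a)) ≤ kk e b := by
  unfold kk
  have h1 := (KK_growth hab).1
  have h2 : Real.exp ((2 + e) * a) * KK 0 a * Real.exp (((2 + e) - mm a) * (b - a)) =
      Real.exp ((2 + e) * b) * (KK 0 a * Real.exp (-(mm a * (b - a)))) := by
    have h3 : Real.exp ((2 + e) * a) * Real.exp (((2 + e) - mm a) * (b - a)) =
        Real.exp ((2 + e) * b) * Real.exp (-(mm a * (b - a))) := by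
      rw [← Real.exp_add, ← Real.exp_add]
      congr 1
      ring
    linear_combination (KK 0 a) * h3
  rw [h2]
  exact mul_le_mul_of_nonneg_left h1 (Real.exp_pos _).le

theorem kk_hi {e a b : ℝ} (hab : a ≤ b) :
    kk e b ≤ kk e a * Real.exp ((2 + e) * (b - a)) := by
  unfold kk
  have h1 := (KK_growth hab).2
  have h2 : Real.exp ((2 + e) * a) * KK 0 a * Real.exp ((2 + e) * (b - a)) =
      Real.exp ((2 + e) * b) * KK 0 a := by
    have h3 : Real.exp ((2 + e) * a) * Real.exp ((2 + e) * (b - a)) = Real.exp ((2 + e) * b) := by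
      rw [← Real.exp_add]
      congr 1
      ring
    linear_combination (KK 0 a) * h3
  rw [h2]
  exact mul_le_mul_of_nonneg_left h1 (Real.exp_pos _).le

private theorem norm_cexp_T (e : ℝ) (z : ℂ) :
    ‖Complex.exp (((2 + e : ℝ) : ℂ) * z)‖ = Real.exp ((2 + e) * z.re) := by
  rw [Complex.norm_exp, Complex.re_ofReal_mul]

/-- the main term in terms of `kk` -/
theorem main_approx (e : ℝ) (z : ℂ) :
    ‖Complex.exp (((2 + e : ℝ) : ℂ) * z) * KC z -
      (kk e z.re : ℂ) * Complex.exp (Complex.I * ((((2 + e) - mm z.re) * z.im : ℝ) : ℂ))‖ ≤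
      kk e z.re * (z.im ^ 2 * VV z.re / 2) := by
  have h1 : Complex.exp (((2 + e : ℝ) : ℂ) * z) * KC z -
      (kk e z.re : ℂ) * Complex.exp (Complex.I * ((((2 + e) - mm z.re) * z.im : ℝ) : ℂ)) =
      Complex.exp (((2 + e : ℝ) : ℂ) * z) *
        (KC z - (KK 0 z.re : ℂ) * Complex.exp (-(Complex.I * ((mm z.re * z.im : ℝ) : ℂ)))) := by
    have h2 : ((Real.exp ((2 + e) * z.re) : ℝ) : ℂ) *
        Complex.exp (Complex.I * ((((2 + e) - mm z.re) * z.im : ℝ) : ℂ)) =
        Complex.exp (((2 + e : ℝ) : ℂ) * z) * Complex.exp (-(Complex.I * ((mm z.re * z.im : ℝ) : ℂ))) := by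
      rw [Complex.ofReal_exp, ← Complex.exp_add, ← Complex.exp_add]
      congr 1
      have h3 : z = (z.re : ℂ) + (z.im : ℂ) * Complex.I := (Complex.re_add_im z).symm
      conv_rhs => rw [h3]
      simp only [Complex.add_re, Complex.add_im, Complex.ofReal_re, Complex.ofReal_im, Complex.mul_re,
        Complex.mul_im, Complex.I_re, Complex.I_im, mul_zero, mul_one, sub_zero, add_zero, zero_add]
      push_cast
      ring
    unfold kk
    rw [Complex.ofReal_mul]
    linear_combination (-(KK 0 z.re : ℂ)) * h2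
  rw [h1, norm_mul, norm_cexp_T]
  have h3 := mul_le_mul_of_nonneg_left (KC_approx z) (Real.exp_pos ((2 + e) * z.re)).le
  refine h3.trans (le_of_eq ?_)
  unfold kk
  ring

theorem main_norm (e : ℝ) (z : ℂ) :
    ‖Complex.exp (((2 + e : ℝ) : ℂ) * z) * KC z‖ ≤ kk e z.re := by
  rw [norm_mul, norm_cexp_T]
  exact mul_le_mul_of_nonneg_left (KC_norm_le z) (Real.exp_pos _).le

theorem main1_norm (e : ℝ) (z : ℂ) :
    ‖Complex.exp (((2 + e : ℝ) : ℂ) * z) * KC1 z‖ ≤ kk e z.re * mm z.re := by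
  rw [norm_mul, norm_cexp_T]
  refine (mul_le_mul_of_nonneg_left (KC1_norm_le z) (Real.exp_pos _).le).trans (le_of_eq ?_)
  rw [KK1_eq]
  unfold kk
  ring

end RR
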