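import Pool.Agent.Lib.MP_31701c_co.Prog

/-!
# RR-Kron : nonnegative coefficients from the value at `2^B`

Let `P ∈ ℤ[X]`, `c_i = P.coeff i`, `∑ |c_i| < 2^(B-1)`, `V = P(2^B) ≥ 0`, and let all the blocks of `B`
binary digits of `V` be `< 2^(B-1)` (`digOK B n V`; it also says that `V < 2^(Bn)`). Then `c_i` is the
`i`-th block, in particular `c_i ≥ 0`. Proof by induction on `n` (generalize `P`): modulo `2^B`,
`c_0 ≡ V % 2^B`, and both numbers have absolute value `< 2^(B-1)`, so `c_0 = V % 2^B ≥ 0`, and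
`P.divX (2^B) = V / 2^B`. For `n = 0`: `V = 0`; then all `c_i = 0` (again induction on the degree:
`c_0 ≡ 0 mod 2^B`, `|c_0| < 2^B`, so `c_0 = 0`, `P.divX(2^B) = 0`).
-/

set_option autoImplicit false

namespace RR

open Polynomial

private theorem Kron_sum {P : ℤ[X]} {N : ℕ} (h : P.natDegree < N) :
    (P.sum fun _ a => |a|) = ∑ i ∈ Finset.range N, |P.coeff i| :=
  P.sum_over_range' (fun _ => abs_zero) N h

private theorem Kron_divX (P : ℤ[X]) :
    (P.sum fun _ a => |a|) = |P.coeff 0| + (P.divX.sum fun _ a => |a|) := by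
  have h1 : P.natDegree < P.natDegree + 1 + 1 := by omega
  have h2 : P.divX.natDegree < P.natDegree + 1 := by
    rw [natDegree_divX_eq_natDegree_tsub_one]
    omega
  rw [Kron_sum h1, Kron_sum h2, Finset.sum_range_succ']
  simp only [coeff_divX]
  ring

private theorem Kron_nonneg (P : ℤ[X]) : 0 ≤ (P.sum fun _ a => |a|) := by
  rw [Polynomial.sum_def]
  exact Finset.sum_nonneg fun i _ => abs_nonneg _

private theorem Kron_aux {B : ℕ} (hB : 1 ≤ B) (N : ℕ) : ∀ (P : ℤ[X]) (n : ℕ), P.natDegree ≤ N →
    (P.sum fun _ a => |a|) < 2 ^ (B - 1) → 0 ≤ P.eval (2 ^ B) →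
    digOK B n (P.eval (2 ^ B)).toNat = true → ∀ i, 0 ≤ P.coeff i := by
  induction N with
  | zero =>
    intro P n hd _ hpos _ i
    have h := Polynomial.eq_C_of_natDegree_le_zero hd
    rw [h] at hpos ⊢
    rw [eval_C] at hpos
    rw [coeff_C]
    split_ifs
    · exact hpos
    · exact le_rfl
  | succ N ih =>
    intro P n hd hnorm hpos hdig i
    have hdX : P.divX.natDegree ≤ N := by
      rw [natDegree_divX_eq_natDegree_tsub_one]
      omega
    have hk := Kron_divX P
    have hn1 : |P.coeff 0| < 2 ^ (B - 1) := by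
      have := Kron_nonneg P.divX
      linarith
    have hn2 : (P.divX.sum fun _ a => |a|) < 2 ^ (B - 1) := by
      have := abs_nonneg (P.coeff 0)
      linarith
    have hP : P.eval (2 ^ B) = P.divX.eval (2 ^ B) * 2 ^ B + P.coeff 0 := by
      conv_lhs => rw [← divX_mul_X_add P]
      simp
    have h2B : (2 : ℤ) ^ B = 2 * 2 ^ (B - 1) := by
      conv_lhs => rw [show B = (B - 1) + 1 by omega]
      rw [pow_succ]
      ring
    obtain ⟨h3, h4⟩ := abs_lt.1 hn1
    set V := P.eval (2 ^ B) with hV
    set V' := P.divX.eval (2 ^ B) with hV'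
    have key : ∃ (n' : ℕ), 0 ≤ V' ∧ digOK B n' V'.toNat = true ∧ 0 ≤ P.coeff 0 := by
      cases n with
      | zero =>
        have h5 : V.toNat = 0 := by
          simpa [digOK] using hdig
        have h6 : V = 0 := le_antisymm (Int.toNat_eq_zero.1 h5) hpos
        have h7 : V' = 0 := by
          by_contra hne
          rcases lt_or_gt_of_ne hne with h | h
          · have : V' ≤ -1 := by omega
            nlinarith
          · have : 1 ≤ V' := by omega
            nlinarith
        refine ⟨0, by rw [h7], by rw [h7]; simp [digOK], ?_⟩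
        rw [h6, h7] at hP
        linarith
      | succ n' =>
        have h5 : Nat.blt (V.toNat % 2 ^ B) (2 ^ (B - 1)) = true ∧
            digOK B n' (V.toNat / 2 ^ B) = true := by
          simpa [digOK] using hdig
        have h6 : V.toNat % 2 ^ B < 2 ^ (B - 1) := Nat.blt_eq.mp h5.1
        have h7 : (V.toNat : ℤ) = V := Int.toNat_of_nonneg hpos
        have h8 : V = 2 ^ B * ((V.toNat / 2 ^ B : ℕ) : ℤ) + ((V.toNat % 2 ^ B : ℕ) : ℤ) := by
          conv_lhs => rw [← h7, ← Nat.div_add_mod V.toNat (2 ^ B)]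
          push_cast
          ring
        have h9 : ((V.toNat % 2 ^ B : ℕ) : ℤ) < 2 ^ (B - 1) := by exact_mod_cast h6
        have h10 : (0 : ℤ) ≤ ((V.toNat % 2 ^ B : ℕ) : ℤ) := Int.natCast_nonneg _
        have h11 : ((V.toNat / 2 ^ B : ℕ) : ℤ) = V' := by
          set a : ℤ := ((V.toNat / 2 ^ B : ℕ) : ℤ)
          set r : ℤ := ((V.toNat % 2 ^ B : ℕ) : ℤ)
          have e : 2 ^ B * (a - V') = P.coeff 0 - r := by linarith
          by_contra hne
          rcases lt_or_gt_of_ne hne with h | h
          · have : a - V' ≤ -1 := by omega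
            nlinarith
          · have : 1 ≤ a - V' := by omega
            nlinarith
        refine ⟨n', ?_, ?_, ?_⟩
        · rw [← h11]
          exact Int.natCast_nonneg _
        · rw [← h11, Int.toNat_natCast]
          exact h5.2
        · rw [h11] at h8
          linarith
    obtain ⟨n', hp', hd', hc⟩ := key
    cases i with
    | zero => exact hc
    | succ i =>
      have := ih P.divX n' hdX hn2 hp' hd' i
      rwa [coeff_divX] at this

theorem kron_coeff_nonneg {P : ℤ[X]} {B n : ℕ} (hB : 1 ≤ B)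
    (hnorm : (P.sum fun _ a => |a|) < 2 ^ (B - 1)) (hpos : 0 ≤ P.eval (2 ^ B))
    (hdig : digOK B n (P.eval (2 ^ B)).toNat = true) (i : ℕ) : 0 ≤ P.coeff i :=
  Kron_aux hB P.natDegree P n le_rfl hnorm hpos hdig i

theorem kron_eval_nonneg {P : ℤ[X]} {B n : ℕ} (hB : 1 ≤ B)
    (hnorm : (P.sum fun _ a => |a|) < 2 ^ (B - 1)) (hpos : 0 ≤ P.eval (2 ^ B))
    (hdig : digOK B n (P.eval (2 ^ B)).toNat = true) {s : ℝ} (hs : 0 ≤ s) :
    0 ≤ P.eval₂ (Int.castRingHom ℝ) s := by
  rw [eval₂_eq_sum, Polynomial.sum_def]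
  refine Finset.sum_nonneg fun i _ => mul_nonneg ?_ (pow_nonneg hs i)
  have := kron_coeff_nonneg hB hnorm hpos hdig i
  simpa using this

/-- sub-additivity and sub-multiplicativity of the sum of absolute values of the coefficients -/
theorem norm_add_le (P R : ℤ[X]) :
    ((P + R).sum fun _ a => |a|) ≤ (P.sum fun _ a => |a|) + (R.sum fun _ a => |a|) := by
  have h1 : P.natDegree < max P.natDegree R.natDegree + 1 := by omega
  have h2 : R.natDegree < max P.natDegree R.natDegree + 1 := by omega
  have h3 : (P + R).natDegree < max P.natDegree R.natDegree + 1 := by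
    have := natDegree_add_le P R
    omega
  rw [Kron_sum h1, Kron_sum h2, Kron_sum h3, ← Finset.sum_add_distrib]
  refine Finset.sum_le_sum fun i _ => ?_
  rw [coeff_add]
  exact abs_add_le _ _

theorem norm_sub_le (P R : ℤ[X]) :
    ((P - R).sum fun _ a => |a|) ≤ (P.sum fun _ a => |a|) + (R.sum fun _ a => |a|) := by
  have h1 : P.natDegree < max P.natDegree R.natDegree + 1 := by omega
  have h2 : R.natDegree < max P.natDegree R.natDegree + 1 := by omega
  have h3 : (P - R).natDegree < max P.natDegree R.natDegree + 1 := by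
    have := natDegree_sub_le P R
    omega
  rw [Kron_sum h1, Kron_sum h2, Kron_sum h3, ← Finset.sum_add_distrib]
  refine Finset.sum_le_sum fun i _ => ?_
  rw [coeff_sub]
  exact abs_sub _ _

private theorem Kron_X_mul (R : ℤ[X]) :
    ((X * R).sum fun _ a => |a|) = (R.sum fun _ a => |a|) := by
  rw [Kron_divX (X * R)]
  have h1 : (X * R).divX = R := by
    ext i
    rw [coeff_divX, coeff_X_mul]
  rw [h1, mul_coeff_zero, coeff_X_zero, zero_mul, abs_zero, zero_add]

private theorem Kron_X_pow_mul (i : ℕ) (R : ℤ[X]) :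
    ((X ^ i * R).sum fun _ a => |a|) = (R.sum fun _ a => |a|) := by
  induction i with
  | zero => rw [pow_zero, one_mul]
  | succ i ih => rw [pow_succ', mul_assoc, Kron_X_mul, ih]

private theorem Kron_C_mul (c : ℤ) (R : ℤ[X]) :
    ((C c * R).sum fun _ a => |a|) ≤ |c| * (R.sum fun _ a => |a|) := by
  have h1 : R.natDegree < R.natDegree + 1 := by omega
  have h2 : (C c * R).natDegree < R.natDegree + 1 := by
    have := natDegree_C_mul_le c R
    omega
  rw [Kron_sum h1, Kron_sum h2, Finset.mul_sum]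
  refine Finset.sum_le_sum fun i _ => ?_
  rw [coeff_C_mul, abs_mul]

private theorem Kron_sum_le {ι : Type*} (t : Finset ι) (f : ι → ℤ[X]) :
    ((∑ i ∈ t, f i).sum fun _ a => |a|) ≤ ∑ i ∈ t, ((f i).sum fun _ a => |a|) := by
  classical
  induction t using Finset.induction_on with
  | empty => simp
  | insert a t ha ih =>
    rw [Finset.sum_insert ha, Finset.sum_insert ha]
    exact (norm_add_le _ _).trans (by linarith)

theorem norm_mul_le (P R : ℤ[X]) :
    ((P * R).sum fun _ a => |a|) ≤ (P.sum fun _ a => |a|) * (R.sum fun _ a => |a|) := by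
  have h1 : P * R = ∑ i ∈ P.support, (C (P.coeff i) * (X ^ i * R)) := by
    conv_lhs => rw [P.as_sum_support_C_mul_X_pow]
    rw [Finset.sum_mul]
    refine Finset.sum_congr rfl fun i _ => ?_
    ring
  rw [h1]
  refine (Kron_sum_le _ _).trans ?_
  rw [P.sum_def, Finset.sum_mul]
  refine Finset.sum_le_sum fun i _ => ?_
  refine (Kron_C_mul _ _).trans ?_
  rw [Kron_X_pow_mul]

/-- for a polynomial with natural coefficients it is the value at `1` -/
theorem norm_map_nat (P : ℕ[X]) :
    ((P.map (Nat.castRingHom ℤ)).sum fun _ a => |a|) = ((P.eval 1 : ℕ) : ℤ) := by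
  have h1 : (P.map (Nat.castRingHom ℤ)).natDegree < P.natDegree + 1 := by
    have := natDegree_map_le (f := Nat.castRingHom ℤ) (p := P)
    omega
  rw [Kron_sum h1, eval_eq_sum_range]
  push_cast
  refine Finset.sum_congr rfl fun i _ => ?_
  rw [coeff_map]
  simp

end RR
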