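import Pool.Agent.Lib.MP_31701c_co.NumA_0
import Pool.Agent.Lib.MP_31701c_co.NumA_1
import Pool.Agent.Lib.MP_31701c_co.NumA_2
import Pool.Agent.Lib.MP_31701c_co.NumA_3
import Pool.Agent.Lib.MP_31701c_co.NumA_4
import Pool.Agent.Lib.MP_31701c_co.NumA_5
import Pool.Agent.Lib.MP_31701c_co.NumA_6
import Pool.Agent.Lib.MP_31701c_co.NumA_7
import Pool.Agent.Lib.MP_31701c_co.NumA_8

/-! # kernel computation: `checkA` on the nine cells (`numA0`, …, `numA8`) -/
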