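import Pool.Agent.Lib.MP_31701c_co.Prog
import Pool.Agent.Lib.MP_31701c_co.Basic

/-!
# RR-SoundH : meaning of `hTab`

`hRows p q2 b M [1]` computes the rows `u_k(m)` with `u_0(0)=1`, `u_0(m+1) = b u_1(m)`,
`u_k(m+1) = u_{k-1}(m) + p u_k(m) + q2 u_{k+1}(m)` (`k ≥ 1`) and returns `[u_0(0), …, u_0(M)]`.
The rows are compared with the sequence `uu p q2 b m k` over a commutative semiring, which commutes
with semiring homomorphisms. Take `R = ℕ[X]`,
`p = an + bn X`, `q = d (1 + X)`, `q2 = q²`, `b = ((d - an) + (d - bn) X) * ((d + an) + (d + bn) X)`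
(natural subtraction, `an, bn ≤ d`), and let `P m` be the `m`-th entry. Evaluating at a natural
number `s` gives `hTab` (since `b(s) = q(s)² - p(s)²`), and over `ℝ` with `e = p(s)/q(s)`:
`u_k(m) q^k = vv e m k * q^m`.
`hTab_real`: the case `an = bn = p`, `d = q`, `s = 0` (directly).
-/

set_option autoImplicit false

namespace RR

open Polynomial

/-- the generic recursion -/
private def uu {R : Type*} [CommSemiring R] (p q2 b : R) : ℕ → ℕ → R
  | 0, 0 => 1
  | 0, (_ + 1) => 0
  | (m + 1), 0 => b * uu p q2 b m 1
  | (m + 1), (k + 1) => uu p q2 b m k + p * uu p q2 b m (k + 1) + q2 * uu p q2 b m (k + 2)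

private theorem uu_map {R S : Type*} [CommSemiring R] [CommSemiring S] (f : R →+* S) (p q2 b : R)
    (m : ℕ) : ∀ k : ℕ, f (uu p q2 b m k) = uu (f p) (f q2) (f b) m k := by
  induction m with
  | zero =>
    intro k
    cases k with
    | zero => simp only [uu, map_one]
    | succ k => simp only [uu, map_zero]
  | succ m ih =>
    intro k
    cases k with
    | zero => simp only [uu, map_mul, ih]
    | succ k => simp only [uu, map_add, map_mul, ih]

private theorem stepAux_getD (p q2 : ℕ) (u : List ℕ) : ∀ k : ℕ,
    (stepAux p q2 u).getD k 0 = u.getD k 0 + p * u.getD (k + 1) 0 + q2 * u.getD (k + 2) 0 := by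
  induction u using stepAux.induct with
  | case1 => intro k; simp [stepAux]
  | case2 x =>
    intro k
    cases k with
    | zero => simp [stepAux]
    | succ k => simp [stepAux]
  | case3 x y ih =>
    intro k
    cases k with
    | zero => simp [stepAux]
    | succ k =>
      have h1 := ih k
      simp only [stepAux, List.getD_cons_succ] at h1 ⊢
      exact h1
  | case4 x y z r ih =>
    intro k
    cases k with
    | zero => simp [stepAux]
    | succ k =>
      have h1 := ih k
      simp only [stepAux, List.getD_cons_succ] at h1 ⊢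
      exact h1

private theorem rows_getD (p q2 b : ℕ) (m : ℕ) : ∀ k : ℕ,
    ((ustep p q2 b)^[m] [1]).getD k 0 = uu p q2 b m k := by
  induction m with
  | zero =>
    intro k
    cases k with
    | zero => simp [uu]
    | succ k => simp [uu]
  | succ m ih =>
    intro k
    rw [Function.iterate_succ_apply']
    cases k with
    | zero =>
      simp only [ustep, List.getD_cons_zero, uu, ih]
    | succ k =>
      simp only [ustep, List.getD_cons_succ, uu, stepAux_getD, ih]

private theorem hRows_length (p q2 b : ℕ) (M : ℕ) : ∀ u : List ℕ,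
    (hRows p q2 b M u).length = M + 1 := by
  induction M with
  | zero => intro u; simp [hRows]
  | succ M ih => intro u; simp only [hRows, List.length_cons, ih]

private theorem hRows_getD (p q2 b : ℕ) (M : ℕ) : ∀ (u : List ℕ) (m : ℕ), m ≤ M →
    (hRows p q2 b M u).getD m 0 = ((ustep p q2 b)^[m] u).getD 0 0 := by
  induction M with
  | zero =>
    intro u m hm
    obtain rfl : m = 0 := by omega
    simp only [hRows, List.getD_cons_zero, Function.iterate_zero, id]
  | succ M ih =>
    intro u m hm
    cases m with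
    | zero => simp only [hRows, List.getD_cons_zero, Function.iterate_zero, id]
    | succ m =>
      simp only [hRows, List.getD_cons_succ, Function.iterate_succ, Function.comp_apply]
      exact ih _ m (by omega)

private theorem hTab_getD (p q : ℕ) {M m : ℕ} (h : m ≤ M) :
    (hTab p q M).getD m 0 = uu p (q * q) (q * q - p * p) m 0 := by
  rw [hTab, hRows_getD _ _ _ _ _ _ h, rows_getD]

private theorem uu_vv {p q : ℝ} (hq : q ≠ 0) (m : ℕ) : ∀ k : ℕ,
    uu p (q * q) (q * q - p * p) m k * q ^ k = vv (p / q) m k * q ^ m := by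
  induction m with
  | zero =>
    intro k
    cases k with
    | zero => simp [uu, vv]
    | succ k => simp [uu, vv]
  | succ m ih =>
    intro k
    cases k with
    | zero =>
      have h1 := ih 1
      simp only [uu, vv, pow_zero, mul_one]
      have e1 : vv (p / q) m 1 = uu p (q * q) (q * q - p * p) m 1 * q / q ^ m := by
        rw [pow_one] at h1
        rw [h1, mul_div_assoc, div_self (pow_ne_zero _ hq), mul_one]
      rw [e1]
      field_simp
      ring
    | succ k =>
      have h1 := ih k
      have h2 := ih (k + 1)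
      have h3 := ih (k + 2)
      simp only [uu, vv]
      have e1 : p = p / q * q := by field_simp
      calc (uu p (q * q) (q * q - p * p) m k + p * uu p (q * q) (q * q - p * p) m (k + 1) +
              q * q * uu p (q * q) (q * q - p * p) m (k + 2)) * q ^ (k + 1)
          = (uu p (q * q) (q * q - p * p) m k * q ^ k) * q +
              p * (uu p (q * q) (q * q - p * p) m (k + 1) * q ^ (k + 1)) +
              q * (uu p (q * q) (q * q - p * p) m (k + 2) * q ^ (k + 2)) := by ring
        _ = vv (p / q) m k * q ^ m * q + p * (vv (p / q) m (k + 1) * q ^ m) +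
              q * (vv (p / q) m (k + 2) * q ^ m) := by rw [h1, h2, h3]
        _ = vv (p / q) m k * q ^ m * q + (p / q * q) * (vv (p / q) m (k + 1) * q ^ m) +
              q * (vv (p / q) m (k + 2) * q ^ m) := by rw [← e1]
        _ = (vv (p / q) m k + p / q * vv (p / q) m (k + 1) + vv (p / q) m (k + 2)) *
              q ^ (m + 1) := by ring

theorem hTab_length (p q M : ℕ) : (hTab p q M).length = M + 1 := by
  rw [hTab, hRows_length]

theorem hTab_poly {an bn d : ℕ} (hd : 0 < d) (ha : an ≤ d) (hb : bn ≤ d) (M : ℕ) :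
    ∃ P : ℕ → ℕ[X],
      (∀ m, m ≤ M → ∀ s : ℕ,
        (hTab (an + bn * s) (d * (1 + s)) M).getD m 0 = (P m).eval s) ∧
      (∀ m, m ≤ M → ∀ s : ℝ, 0 ≤ s → (P m).eval₂ (Nat.castRingHom ℝ) s =
        hm (((an : ℝ) + bn * s) / (d * (1 + s))) m * ((d : ℝ) * (1 + s)) ^ m) := by
  obtain ⟨a', rfl⟩ : ∃ a', d = an + a' := ⟨d - an, by omega⟩
  obtain ⟨b', hb'⟩ : ∃ b', an + a' = bn + b' := ⟨an + a' - bn, by omega⟩
  refine ⟨fun m => uu (C an + C bn * X)
    ((C (an + a') * (1 + X)) * (C (an + a') * (1 + X)))
    ((C a' + C b' * X) * (C (an + a' + an) + C (an + a' + bn) * X)) m 0, ?_, ?_⟩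
  · intro m hm s
    rw [hTab_getD _ _ hm]
    show _ = (evalRingHom s) (uu _ _ _ m 0)
    rw [uu_map]
    congr 1
    · simp
    · simp
    · simp only [map_add, map_mul, coe_evalRingHom, eval_C, eval_X]
      rw [Nat.mul_self_sub_mul_self_eq]
      have e1 : (an + a') * (1 + s) - (an + bn * s) = a' + b' * s := by
        have : (an + a') * (1 + s) = (an + bn * s) + (a' + b' * s) := by
          calc (an + a') * (1 + s) = (an + a') + (an + a') * s := by ring
            _ = (an + a') + (bn + b') * s := by rw [hb']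
            _ = (an + bn * s) + (a' + b' * s) := by ring
        omega
      rw [e1, mul_comm]
      congr 1
      ring
  · intro m hm s hs
    show (eval₂RingHom (Nat.castRingHom ℝ) s) (uu _ _ _ m 0) = _
    rw [uu_map]
    have hq : (((an + a' : ℕ) : ℝ) * (1 + s)) ≠ 0 := by
      have : (0 : ℝ) < ((an + a' : ℕ) : ℝ) := by exact_mod_cast hd
      positivity
    have h1 := uu_vv (p := (an : ℝ) + bn * s) hq m 0
    rw [pow_zero, mul_one] at h1
    show _ = vv _ m 0 * _
    rw [← h1]
    have hbr : (an : ℝ) + a' = bn + b' := by exact_mod_cast hb'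
    congr 1
    · simp
    · simp
    · simp only [map_add, map_mul, coe_eval₂RingHom, eval₂_C, eval₂_X, Nat.coe_castRingHom,
        Nat.cast_add]
      have e2 : (b' : ℝ) = an + a' - bn := by linarith
      rw [e2]
      ring

theorem hTab_real {p q M m : ℕ} (hq : 0 < q) (hpq : p ≤ q) (hmM : m ≤ M) :
    (((hTab p q M).getD m 0 : ℕ) : ℝ) = hm ((p : ℝ) / q) m * (q : ℝ) ^ m := by
  rw [hTab_getD _ _ hmM]
  show (Nat.castRingHom ℝ) (uu _ _ _ m 0) = _
  rw [uu_map]
  have hq' : (q : ℝ) ≠ 0 := by exact_mod_cast hq.ne'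
  have h1 := uu_vv (p := (p : ℝ)) hq' m 0
  rw [pow_zero, mul_one] at h1
  show _ = vv _ m 0 * _
  rw [← h1]
  have h2 : p * p ≤ q * q := Nat.mul_le_mul hpq hpq
  simp only [Nat.coe_castRingHom, Nat.cast_mul, Nat.cast_sub h2]

end RR
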