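import Pool.Agent.Lib.MP_31701c_co.Kron
import Pool.Agent.Lib.MP_31701c_co.SoundH
import Pool.Agent.Lib.MP_31701c_co.NumA

/-!
# RR-KronA : `CellAOK` for the nine cells

For a cell `c` let `P m ∈ ℕ[X]` be as in `hTab_poly` (`M = 72`), `q = d(1+X)`,
`g_k = P_k q^{72-k} (72!/k!) rn^k 1000^{72-k} ∈ ℕ[X]`, `W_m = ∑_{j} qs_j g_{m-j} ∈ ℤ[X]` and
`Z = 9999 rn^8 (q^72 72! 1000^72 10^4)² - 10^4 rb^8 ∑_{m ≤ 72} W_m² ∈ ℤ[X]`.
`rhsA c (q(s)) - lhsA c c.qs (p(s)) (q(s)) = Z(s)` for natural `s`, in particular `s = 2^B`; the sum of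
the absolute values of the coefficients of `Z` is at most `rhsA c (2d) + lhsA c |qs| (an+bn) (2d)`
(`s = 1`). So `checkA B c = true` and `kron_eval_nonneg` give `Z(s) ≥ 0` for all real `s ≥ 0`. For
`e = (an + bn s)/(d(1+s))`: `W_m(s) = 10^4 * 72! 1000^72 q^72 * ∑_j (qs_j/10^4) hm e (m-j)
(rn/1000)^{m-j}/(m-j)!`, so `Z(s) ≥ 0` is the inequality of `CellAOK` (`0.9999 = 9999/10000`).
Every `e` with `an/d ≤ e < bn/d` is of this form with `s = (e - an/d)/(bn/d - e) ≥ 0`; for `e = bn/d`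
use continuity in `e` of both sides (`continuous_hm`).
Side conditions (`0 < d`, `an ≤ bn ≤ d`, `0 < rn`, `0 < rb`) by `decide` on the list `cells`.
-/

set_option autoImplicit false

namespace RR

open Polynomial

private def revW (g : ℕ → ℕ) : ℕ → List ℕ
  | 0 => []
  | m + 1 => g m :: revW g m

private def segL (g : ℕ → ℕ) : ℕ → ℕ → List ℕ
  | _, 0 => []
  | k, n + 1 => g k :: segL g (k + 1) n

private lemma dot_revW (g : ℕ → ℕ) (qs : List ℤ) (m : ℕ) :
    dot qs (revW g m) = ∑ j ∈ Finset.range m, qs.getD j 0 * (g (m - 1 - j) : ℤ) := by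
  induction qs generalizing m with
  | nil =>
    cases m with
    | zero => simp [dot, revW]
    | succ m => simp [dot, revW]
  | cons a as ih =>
    cases m with
    | zero => simp [dot, revW]
    | succ m =>
      rw [Finset.sum_range_succ']
      simp only [dot, revW, List.getD_cons_zero, List.getD_cons_succ]
      rw [ih m, add_comm]
      congr 1
      refine Finset.sum_congr rfl fun j _ => ?_
      rw [show m + 1 - 1 - (j + 1) = m - 1 - j by omega]

private lemma sumSq_segL (g : ℕ → ℕ) (qs : List ℤ) (n : ℕ) : ∀ k : ℕ,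
    sumSq qs (revW g k) (segL g k n) =
      ∑ i ∈ Finset.range n, (dot qs (revW g (k + i + 1))) ^ 2 := by
  induction n with
  | zero => intro k; simp [segL, sumSq]
  | succ n ih =>
    intro k
    rw [Finset.sum_range_succ']
    simp only [segL, sumSq]
    have h1 := ih (k + 1)
    rw [show revW g (k + 1) = g k :: revW g k from rfl] at h1
    rw [h1, add_comm]
    congr 1
    · refine Finset.sum_congr rfl fun i _ => ?_
      rw [show k + 1 + i + 1 = k + (i + 1) + 1 by ring]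
    · rw [show k + 0 + 1 = k + 1 by ring, show revW g (k + 1) = g k :: revW g k from rfl]
      ring

private lemma gAux_segL (M q rn rd : ℕ) (h : ℕ → ℕ) (n : ℕ) : ∀ k : ℕ,
    gAux M q rn rd k (segL h k n) =
      segL (fun i => h i * (q ^ (M - i) * (M.factorial / i.factorial) * rn ^ i * rd ^ (M - i)))
        k n := by
  induction n with
  | zero => intro k; simp [segL, gAux]
  | succ n ih =>
    intro k
    simp only [segL, gAux]
    rw [ih (k + 1)]

private lemma segL_eq (l : List ℕ) : ∀ (f : ℕ → ℕ) (k : ℕ), (∀ i, i < l.length → f (k + i) = l.getD i 0) →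
    l = segL f k l.length := by
  induction l with
  | nil => intro f k _; simp [segL]
  | cons a l ih =>
    intro f k h
    simp only [List.length_cons, segL]
    have h0 := h 0 (by simp)
    simp only [add_zero, List.getD_cons_zero] at h0
    rw [h0]
    congr 1
    refine ih f (k + 1) fun i hi => ?_
    have h1 := h (i + 1) (by simpa using hi)
    simp only [List.getD_cons_succ] at h1
    rw [← h1]
    congr 1
    ring

/-- the entries `g_i` of the program -/
private def gEnt (c : Cell) (p q i : ℕ) : ℕ :=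
  (hTab p q 72).getD i 0 *
    (q ^ (72 - i) * (Nat.factorial 72 / i.factorial) * c.rn ^ i * 1000 ^ (72 - i))

private lemma lhsA_eq (c : Cell) (qs : List ℤ) (p q : ℕ) :
    lhsA c qs p q = 10000 * (c.rb : ℤ) ^ 8 * ∑ m ∈ Finset.range 73,
      (∑ j ∈ Finset.range (m + 1), qs.getD j 0 * (gEnt c p q (m - j) : ℤ)) ^ 2 := by
  unfold lhsA
  congr 1
  have h1 : hTab p q 72 = segL (fun i => (hTab p q 72).getD i 0) 0 73 := by
    have h2 := segL_eq (hTab p q 72) (fun i => (hTab p q 72).getD i 0) 0 (by intro i _; simp)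
    rw [hTab_length] at h2
    exact h2
  have h3 : gAux 72 q c.rn 1000 0 (hTab p q 72) = segL (gEnt c p q) 0 73 := by
    rw [h1, gAux_segL]
    rfl
  rw [h3]
  have h4 := sumSq_segL (gEnt c p q) qs 73 0
  rw [show revW (gEnt c p q) 0 = [] from rfl] at h4
  rw [h4]
  refine Finset.sum_congr rfl fun m _ => ?_
  rw [dot_revW, show 0 + m + 1 = m + 1 by ring]
  congr 1

/-- the norm -/
private noncomputable def nrm (P : ℤ[X]) : ℤ := P.sum fun _ a => |a|

private lemma nrm_nonneg (P : ℤ[X]) : 0 ≤ nrm P := by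
  unfold nrm
  rw [Polynomial.sum]
  exact Finset.sum_nonneg fun _ _ => abs_nonneg _

private lemma nrm_C (a : ℤ) : nrm (C a) = |a| := by
  unfold nrm
  rw [Polynomial.sum_C_index]
  simp

private lemma nrm_sum {ι : Type} (s : Finset ι) (f : ι → ℤ[X]) :
    nrm (∑ i ∈ s, f i) ≤ ∑ i ∈ s, nrm (f i) := by
  classical
  induction s using Finset.induction_on with
  | empty =>
    rw [Finset.sum_empty, Finset.sum_empty]
    have := nrm_C 0
    rw [C_0, abs_zero] at this
    exact this.le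
  | insert a s ha ih =>
    rw [Finset.sum_insert ha, Finset.sum_insert ha]
    exact (norm_add_le _ _).trans (add_le_add le_rfl ih)

private lemma nrm_mul (P R : ℤ[X]) : nrm (P * R) ≤ nrm P * nrm R := norm_mul_le P R

private lemma nrm_sq (P : ℤ[X]) {b : ℤ} (h : nrm P ≤ b) : nrm (P ^ 2) ≤ b ^ 2 := by
  rw [pow_two, pow_two]
  exact (nrm_mul P P).trans (mul_le_mul h h (nrm_nonneg P) ((nrm_nonneg P).trans h))

/-- the polynomials `g_i` -/
private noncomputable def gPol (c : Cell) (P : ℕ → ℕ[X]) (i : ℕ) : ℕ[X] :=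
  P i * ((C c.d * (1 + X)) ^ (72 - i) * C (Nat.factorial 72 / i.factorial) * C (c.rn ^ i) *
    C (1000 ^ (72 - i)))

private lemma gPol_eval (c : Cell) (P : ℕ → ℕ[X]) (s i : ℕ)
    (h : (hTab (c.an + c.bn * s) (c.d * (1 + s)) 72).getD i 0 = (P i).eval s) :
    (gPol c P i).eval s = gEnt c (c.an + c.bn * s) (c.d * (1 + s)) i := by
  unfold gPol gEnt
  rw [h]
  simp only [eval_mul, eval_pow, eval_add, eval_one, eval_X, eval_C]

private noncomputable def lPol (c : Cell) (P : ℕ → ℕ[X]) (qs : List ℤ) : ℤ[X] :=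
  C (10000 * (c.rb : ℤ) ^ 8) * ∑ m ∈ Finset.range 73,
    (∑ j ∈ Finset.range (m + 1), C (qs.getD j 0) *
      (gPol c P (m - j)).map (Nat.castRingHom ℤ)) ^ 2

private noncomputable def rPol (c : Cell) : ℕ[X] :=
  C (9999 * c.rn ^ 8) * ((C c.d * (1 + X)) ^ 72 * C (Nat.factorial 72) * C (1000 ^ 72) *
    C 10000) ^ 2

private lemma rPol_eval (c : Cell) (s : ℕ) : (rPol c).eval s = rhsA c (c.d * (1 + s)) := by
  unfold rPol rhsA
  simp only [eval_mul, eval_pow, eval_add, eval_one, eval_X, eval_C]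

private lemma lPol_eval (c : Cell) (P : ℕ → ℕ[X]) (qs : List ℤ) (s : ℕ)
    (h : ∀ m, m ≤ 72 → (hTab (c.an + c.bn * s) (c.d * (1 + s)) 72).getD m 0 = (P m).eval s) :
    (lPol c P qs).eval (s : ℤ) = lhsA c qs (c.an + c.bn * s) (c.d * (1 + s)) := by
  rw [lhsA_eq]
  unfold lPol
  simp only [eval_mul, eval_pow, eval_C, eval_finsetSum]
  congr 1
  refine Finset.sum_congr rfl fun m hm => ?_
  congr 1
  refine Finset.sum_congr rfl fun j _ => ?_
  rw [Finset.mem_range] at hm
  rw [← gPol_eval c P s (m - j) (h (m - j) (by omega))]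
  congr 1
  exact Polynomial.eval_natCast_map (Nat.castRingHom ℤ) _ _

private lemma getD_natAbs (qs : List ℤ) (j : ℕ) :
    (qs.map fun x => (x.natAbs : ℤ)).getD j 0 = |qs.getD j 0| := by
  induction qs generalizing j with
  | nil => simp
  | cons a as ih =>
    cases j with
    | zero => simp
    | succ j =>
      simp only [List.map_cons, List.getD_cons_succ]
      exact ih j

private lemma lPol_nrm (c : Cell) (P : ℕ → ℕ[X]) (qs : List ℤ)
    (h : ∀ m, m ≤ 72 → (hTab (c.an + c.bn) (2 * c.d) 72).getD m 0 = (P m).eval 1) :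
    nrm (lPol c P qs) ≤ lhsA c (qs.map fun x => (x.natAbs : ℤ)) (c.an + c.bn) (2 * c.d) := by
  rw [lhsA_eq]
  unfold lPol
  have hc : |(10000 * (c.rb : ℤ) ^ 8)| = 10000 * (c.rb : ℤ) ^ 8 := abs_of_nonneg (by positivity)
  refine (nrm_mul _ _).trans ?_
  rw [nrm_C, hc]
  refine mul_le_mul_of_nonneg_left ?_ (by positivity)
  refine (nrm_sum _ _).trans (Finset.sum_le_sum fun m hm => ?_)
  refine nrm_sq _ ?_
  refine (nrm_sum _ _).trans (Finset.sum_le_sum fun j _ => ?_)
  refine (nrm_mul _ _).trans ?_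
  rw [nrm_C, getD_natAbs]
  refine mul_le_mul_of_nonneg_left ?_ (abs_nonneg _)
  rw [Finset.mem_range] at hm
  have h1 : (gPol c P (m - j)).eval 1 = gEnt c (c.an + c.bn) (2 * c.d) (m - j) := by
    unfold gPol gEnt
    rw [h (m - j) (by omega)]
    simp only [eval_mul, eval_pow, eval_add, eval_one, eval_X, eval_C]
    rw [show c.d * (1 + 1) = 2 * c.d by ring]
  have h2 : nrm ((gPol c P (m - j)).map (Nat.castRingHom ℤ)) =
      ((gPol c P (m - j)).eval 1 : ℕ) := norm_map_nat _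
  rw [h2, h1]

private lemma rPol_nrm (c : Cell) :
    nrm ((rPol c).map (Nat.castRingHom ℤ)) = ((rhsA c (2 * c.d) : ℕ) : ℤ) := by
  have h1 := rPol_eval c 1
  rw [show c.d * (1 + 1) = 2 * c.d by ring] at h1
  have h2 : nrm ((rPol c).map (Nat.castRingHom ℤ)) = ((rPol c).eval 1 : ℕ) := norm_map_nat _
  rw [h2, h1]

private lemma eval2_map_nat (P : ℕ[X]) (s : ℝ) :
    (P.map (Nat.castRingHom ℤ)).eval₂ (Int.castRingHom ℝ) s = P.eval₂ (Nat.castRingHom ℝ) s := by
  rw [Polynomial.eval₂_map]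
  congr 1

private lemma alg_g (h qa qb F f r ta tb : ℝ) (hf : f ≠ 0) (ht : ta ≠ 0) :
    h * qa * (qb * (F / f) * r * tb) = qa * qb * F * (ta * tb) * (h * (r / ta) / f) := by
  field_simp

private lemma alg_r (r q f t u : ℝ) :
    9999 * r * (q * f * t * u) ^ 2 = 9999 * r * ((q * f * t) ^ 2 * u ^ 2) := by
  ring

private lemma alg_f (r b : ℝ) :
    9999 * r ^ 8 / (10000 * b ^ 8) = 0.9999 * (r / b) ^ 8 := by
  rw [div_pow, show (0.9999 : ℝ) = 9999 / 10000 by norm_num, div_mul_div_comm]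

/-- the real inequality at `e = p(s)/q(s)` -/
private lemma cellA_real {c : Cell} (hd : 0 < c.d) (ha : c.an ≤ c.d) (hb : c.bn ≤ c.d)
    (hrb : 0 < c.rb) {B : ℕ} (hB : 1 ≤ B) (h : checkA B c = true) (s : ℝ) (hs : 0 ≤ s) :
    ∑ m ∈ Finset.range 73, (∑ j ∈ Finset.range (m + 1), ((c.qs.getD j 0 : ℤ) : ℝ) / 10000 *
      (hm (((c.an : ℝ) + c.bn * s) / (c.d * (1 + s))) (m - j) * ((c.rn : ℝ) / 1000) ^ (m - j) /
        ((m - j).factorial : ℝ))) ^ 2 ≤
    0.9999 * ((c.rn : ℝ) / c.rb) ^ 8 := by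
  obtain ⟨P, hP1, hP2⟩ := hTab_poly hd ha hb 72
  unfold checkA at h
  rw [Bool.and_eq_true, Bool.and_eq_true, decide_eq_true_iff, decide_eq_true_iff] at h
  obtain ⟨⟨g1, g2⟩, g3⟩ := h
  set Z : ℤ[X] := (rPol c).map (Nat.castRingHom ℤ) - lPol c P c.qs with hZ
  have hZe : Z.eval (2 ^ B) = ((rhsA c (c.d * (1 + 2 ^ B)) : ℕ) : ℤ) -
      lhsA c c.qs (c.an + c.bn * 2 ^ B) (c.d * (1 + 2 ^ B)) := by
    have h1 := lPol_eval c P c.qs (2 ^ B) (fun m hm => hP1 m hm (2 ^ B))
    have h2 : ((rPol c).map (Nat.castRingHom ℤ)).eval ((2 ^ B : ℕ) : ℤ) =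
        (((rPol c).eval (2 ^ B) : ℕ) : ℤ) := Polynomial.eval_natCast_map (Nat.castRingHom ℤ) _ _
    rw [rPol_eval] at h2
    have h3 : (2 ^ B : ℤ) = ((2 ^ B : ℕ) : ℤ) := by push_cast; rfl
    rw [hZ, eval_sub, h3, h1, h2]
  have hnorm : (Z.sum fun _ a => |a|) < 2 ^ (B - 1) := by
    refine lt_of_le_of_lt ?_ g1
    have h1 : nrm Z ≤ nrm ((rPol c).map (Nat.castRingHom ℤ)) + nrm (lPol c P c.qs) :=
      norm_sub_le _ _
    rw [rPol_nrm] at h1
    refine h1.trans (add_le_add le_rfl (lPol_nrm c P c.qs fun m hm => ?_))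
    have h2 := hP1 m hm 1
    rw [mul_one, show c.d * (1 + 1) = 2 * c.d by ring] at h2
    exact h2
  have key := kron_eval_nonneg hB hnorm (by rw [hZe]; exact g2) (by rw [hZe]; exact g3) hs
  set e : ℝ := ((c.an : ℝ) + c.bn * s) / (c.d * (1 + s)) with he
  set Q : ℝ := (c.d : ℝ) * (1 + s) with hQ
  have hQpos : 0 < Q := by
    have : (0 : ℝ) < c.d := by exact_mod_cast hd
    positivity
  obtain ⟨F, hF⟩ : ∃ F : ℝ, F = (Nat.factorial 72 : ℝ) := ⟨_, rfl⟩
  have hFpos : 0 < F := by rw [hF]; exact_mod_cast Nat.factorial_pos 72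
  obtain ⟨K, hK⟩ : ∃ K : ℝ, K = Q ^ 72 * F * 1000 ^ 72 := ⟨_, rfl⟩
  have hKpos : 0 < K := by rw [hK]; positivity
  obtain ⟨Tm, hTm⟩ : ∃ Tm : ℕ → ℝ, Tm = fun m => ∑ j ∈ Finset.range (m + 1),
      ((c.qs.getD j 0 : ℤ) : ℝ) / 10000 *
      (hm e (m - j) * ((c.rn : ℝ) / 1000) ^ (m - j) / ((m - j).factorial : ℝ)) := ⟨_, rfl⟩
  have hg : ∀ i, i ≤ 72 → (gPol c P i).eval₂ (Nat.castRingHom ℝ) s =
      K * (hm e i * ((c.rn : ℝ) / 1000) ^ i / (i.factorial : ℝ)) := by
    intro i hi
    unfold gPol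
    simp only [eval₂_mul, eval₂_pow, eval₂_add, eval₂_one, eval₂_X, eval₂_C]
    rw [hP2 i hi s hs]
    have hf : ((Nat.factorial 72 / i.factorial : ℕ) : ℝ) = F / (i.factorial : ℝ) := by
      rw [hF, Nat.cast_div (Nat.factorial_dvd_factorial hi)]
      exact_mod_cast (Nat.factorial_pos i).ne'
    simp only [eq_natCast, Nat.cast_pow, Nat.cast_ofNat]
    rw [hf, ← he, ← hQ, hK]
    have e1 : Q ^ 72 = Q ^ i * Q ^ (72 - i) := by rw [← pow_add, Nat.add_sub_cancel' hi]
    have e2 : (1000 : ℝ) ^ 72 = 1000 ^ i * 1000 ^ (72 - i) := by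
      rw [← pow_add, Nat.add_sub_cancel' hi]
    rw [e1, e2, div_pow]
    have hi0 : (i.factorial : ℝ) ≠ 0 := by exact_mod_cast (Nat.factorial_pos i).ne'
    exact alg_g _ _ _ _ _ _ _ _ hi0 (by positivity)
  have hl : (lPol c P c.qs).eval₂ (Int.castRingHom ℝ) s =
      10000 * (c.rb : ℝ) ^ 8 * (K ^ 2 * 10000 ^ 2) * ∑ m ∈ Finset.range 73, (Tm m) ^ 2 := by
    unfold lPol
    rw [eval₂_mul, eval₂_C, eval₂_finsetSum, Finset.mul_sum, Finset.mul_sum]
    refine Finset.sum_congr rfl fun m hm => ?_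
    rw [Finset.mem_range] at hm
    rw [eval₂_pow, eval₂_finsetSum]
    have h1 : ∑ j ∈ Finset.range (m + 1), eval₂ (Int.castRingHom ℝ) s
        (C (c.qs.getD j 0) * (gPol c P (m - j)).map (Nat.castRingHom ℤ)) = K * 10000 * Tm m := by
      rw [hTm]
      show _ = K * 10000 * ∑ j ∈ Finset.range (m + 1), _
      rw [Finset.mul_sum]
      refine Finset.sum_congr rfl fun j _ => ?_
      rw [eval₂_mul, eval₂_C, eval2_map_nat, hg (m - j) (by omega)]
      simp only [eq_intCast]
      ring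
    rw [h1]
    simp only [map_mul, map_pow, map_ofNat, map_natCast]
    ring
  have hr : ((rPol c).map (Nat.castRingHom ℤ)).eval₂ (Int.castRingHom ℝ) s =
      9999 * (c.rn : ℝ) ^ 8 * (K ^ 2 * 10000 ^ 2) := by
    rw [eval2_map_nat]
    unfold rPol
    simp only [eval₂_mul, eval₂_pow, eval₂_add, eval₂_one, eval₂_X, eval₂_C]
    simp only [eq_natCast, Nat.cast_pow, Nat.cast_ofNat, Nat.cast_mul]
    rw [← hQ, ← hF, hK]
    exact alg_r _ _ _ _ _
  rw [hZ, eval₂_sub, hl, hr] at key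
  have hrb' : (0 : ℝ) < c.rb := by exact_mod_cast hrb
  have h5 : 0 < K ^ 2 * 10000 ^ 2 := by positivity
  have h6 : 10000 * (c.rb : ℝ) ^ 8 * ∑ m ∈ Finset.range 73, (Tm m) ^ 2 ≤ 9999 * (c.rn : ℝ) ^ 8 := by
    by_contra hcon
    rw [not_le] at hcon
    have h7 := mul_lt_mul_of_pos_right hcon h5
    linarith [h7, key]
  have h8 : (0 : ℝ) < 10000 * (c.rb : ℝ) ^ 8 := by positivity
  have h9 : ∑ m ∈ Finset.range 73, (Tm m) ^ 2 ≤ 9999 * (c.rn : ℝ) ^ 8 / (10000 * (c.rb : ℝ) ^ 8) := by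
    rw [le_div_iff₀ h8]
    linarith
  rw [hTm] at h9
  exact h9.trans (le_of_eq (alg_f _ _))

theorem cellA_of_check {c : Cell} (hd : 0 < c.d) (hab : c.an ≤ c.bn) (hb : c.bn ≤ c.d)
    (hrb : 0 < c.rb) {B : ℕ} (hB : 1 ≤ B) (h : checkA B c = true) : CellAOK c := by
  intro e he1 he2
  have ha : c.an ≤ c.d := hab.trans hb
  have hd' : (0 : ℝ) < c.d := by exact_mod_cast hd
  set S : ℝ → ℝ := fun e => ∑ m ∈ Finset.range 73, (∑ j ∈ Finset.range (m + 1),
    ((c.qs.getD j 0 : ℤ) : ℝ) / 10000 *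
      (hm e (m - j) * ((c.rn : ℝ) / 1000) ^ (m - j) / ((m - j).factorial : ℝ))) ^ 2 with hS
  have hreal := cellA_real hd ha hb hrb hB h
  -- interior points
  have hint : ∀ x : ℝ, (c.an : ℝ) / c.d ≤ x → x < (c.bn : ℝ) / c.d →
      S x ≤ 0.9999 * ((c.rn : ℝ) / c.rb) ^ 8 := by
    intro x hx1 hx2
    rw [div_le_iff₀ hd'] at hx1
    rw [lt_div_iff₀ hd'] at hx2
    have h1 : 0 < (c.bn : ℝ) - x * c.d := by linarith
    have h2 := hreal ((x * c.d - c.an) / (c.bn - x * c.d)) (div_nonneg (by linarith) h1.le)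
    have h3 : ((c.an : ℝ) + c.bn * ((x * c.d - c.an) / (c.bn - x * c.d))) /
        (c.d * (1 + (x * c.d - c.an) / (c.bn - x * c.d))) = x := by
      have h4 : (0 : ℝ) < (c.bn : ℝ) - c.an := by linarith
      have h5 : (1 : ℝ) + (x * c.d - c.an) / (c.bn - x * c.d) =
          ((c.bn : ℝ) - c.an) / (c.bn - x * c.d) := by
        field_simp
        ring
      have h6 : (c.an : ℝ) + c.bn * ((x * c.d - c.an) / (c.bn - x * c.d)) =
          x * c.d * ((c.bn : ℝ) - c.an) / (c.bn - x * c.d) := by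
        field_simp
        ring
      rw [h5, h6]
      field_simp
    rw [h3] at h2
    exact h2
  rcases lt_or_eq_of_le he2 with h1 | h1
  · exact hint e he1 h1
  · rcases Nat.lt_or_ge c.an c.bn with h2 | h2
    · -- continuity
      have hcont : Continuous S := by
        rw [hS]
        refine continuous_finsetSum _ fun m _ => ?_
        refine Continuous.pow ?_ 2
        refine continuous_finsetSum _ fun j _ => ?_
        refine continuous_const.mul ?_
        exact ((continuous_hm (m - j)).mul continuous_const).div_const _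
      have hclosed : IsClosed {x | S x ≤ 0.9999 * ((c.rn : ℝ) / c.rb) ^ 8} :=
        isClosed_le hcont continuous_const
      have hlt : (c.an : ℝ) / c.d < (c.bn : ℝ) / c.d := by
        have : (c.an : ℝ) < c.bn := by exact_mod_cast h2
        exact div_lt_div_of_pos_right this hd'
      have hsub : Set.Ico ((c.an : ℝ) / c.d) ((c.bn : ℝ) / c.d) ⊆
          {x | S x ≤ 0.9999 * ((c.rn : ℝ) / c.rb) ^ 8} := fun x hx => hint x hx.1 hx.2
      have h3 := closure_minimal hsub hclosed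
      rw [closure_Ico hlt.ne] at h3
      exact h3 ⟨he1, he2⟩
    · have h3 : c.an = c.bn := le_antisymm hab h2
      have h4 := hreal 0 le_rfl
      rw [mul_zero, add_zero, add_zero, mul_one, h3, ← h1] at h4
      exact h4

theorem cellA_all : ∀ c ∈ cells, CellAOK c := by
  have key : ∀ (c : Cell) (B : ℕ), 0 < c.d → c.an ≤ c.bn → c.bn ≤ c.d → 0 < c.rb → 1 ≤ B →
      checkA B c = true → CellAOK c := fun c B h1 h2 h3 h4 h5 h6 =>
    cellA_of_check h1 h2 h3 h4 h5 h6
  intro c hc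
  simp only [cells, List.mem_cons, List.not_mem_nil, or_false] at hc
  rcases hc with rfl | rfl | rfl | rfl | rfl | rfl | rfl | rfl | rfl
  · exact key _ 4608 (by norm_num) (by norm_num) (by norm_num) (by norm_num) (by norm_num)
      (Option.some.inj numA0)
  · exact key _ 4608 (by norm_num) (by norm_num) (by norm_num) (by norm_num) (by norm_num)
      (Option.some.inj numA1)
  · exact key _ 4608 (by norm_num) (by norm_num) (by norm_num) (by norm_num) (by norm_num)
      (Option.some.inj numA2)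
  · exact key _ 4608 (by norm_num) (by norm_num) (by norm_num) (by norm_num) (by norm_num)
      (Option.some.inj numA3)
  · exact key _ 5632 (by norm_num) (by norm_num) (by norm_num) (by norm_num) (by norm_num)
      (Option.some.inj numA4)
  · exact key _ 5632 (by norm_num) (by norm_num) (by norm_num) (by norm_num) (by norm_num)
      (Option.some.inj numA5)
  · exact key _ 6144 (by norm_num) (by norm_num) (by norm_num) (by norm_num) (by norm_num)
      (Option.some.inj numA6)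
  · exact key _ 6144 (by norm_num) (by norm_num) (by norm_num) (by norm_num) (by norm_num)
      (Option.some.inj numA7)
  · exact key _ 6144 (by norm_num) (by norm_num) (by norm_num) (by norm_num) (by norm_num)
      (Option.some.inj numA8)

end RR
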