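import Pool.Agent.Lib.MP_31701c_co.Defs

/-!
# RR-Landau : Landau's inequality (from Mathlib's Mahler measure)
-/

set_option autoImplicit false

namespace RR

open Polynomial

private theorem landau_prod (s : Multiset ℂ) (hs : ∀ r ∈ s, r ≠ 0) {R : ℝ} (hR : 0 < R) :
    ((s.filter (fun r => ‖r‖ < R)).map (fun r => R / ‖r‖)).prod * (s.map (fun r => ‖r‖)).prod
      = (s.map (fun r => max R ‖r‖)).prod := by
  induction s using Multiset.induction_on with
  | empty => simp
  | cons a s ih =>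
    have ha : ‖a‖ ≠ 0 := norm_ne_zero_iff.2 (hs a (Multiset.mem_cons_self a s))
    have ih' := ih (fun r hr => hs r (Multiset.mem_cons_of_mem hr))
    rw [Multiset.map_cons, Multiset.prod_cons, Multiset.map_cons, Multiset.prod_cons, ← ih']
    by_cases h : ‖a‖ < R
    · rw [Multiset.filter_cons_of_pos (p := fun r : ℂ => ‖r‖ < R) s h, Multiset.map_cons, Multiset.prod_cons,
        max_eq_left h.le]
      field_simp
    · rw [Multiset.filter_cons_of_neg (p := fun r : ℂ => ‖r‖ < R) s h, max_eq_right (not_lt.1 h)]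
      ring

theorem landau (P : ℂ[X]) (h0 : P.coeff 0 = 1) {R : ℝ} (hR : 0 < R) :
    (((P.roots.filter (fun r => ‖r‖ < R)).map (fun r => R / ‖r‖)).prod) ^ 2 ≤
      ∑ m ∈ Finset.range (P.natDegree + 1), ‖P.coeff m‖ ^ 2 * R ^ (2 * m) := by
  have hP : P ≠ 0 := by rintro rfl; simp at h0
  have hsplit : P.Splits := IsAlgClosed.splits P
  have hroots : ∀ r ∈ P.roots, r ≠ 0 := by
    rintro r hr rfl
    have h1 := (mem_roots hP).1 hr
    rw [IsRoot.def, ← coeff_zero_eq_eval_zero, h0] at h1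
    exact one_ne_zero h1
  have hRc : (R : ℂ) ≠ 0 := by exact_mod_cast hR.ne'
  have hRn : ‖(R : ℂ)‖ = R := by simp [abs_of_pos hR]
  -- the scaled polynomial
  set Q : ℂ[X] := P.comp (C (R : ℂ) * X) with hQ
  have hQc : ∀ m, Q.coeff m = P.coeff m * (R : ℂ) ^ m := fun m => comp_C_mul_X_coeff
  have hQM : Q.mahlerMeasure = ‖P.leadingCoeff‖ * (P.roots.map (fun r => max R ‖r‖)).prod := by
    have h1 : Q = C P.leadingCoeff * (P.roots.map (fun r => (C (R : ℂ) * X + C (-r)))).prod := by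
      rw [hQ]
      conv_lhs => rw [hsplit.eq_prod_roots]
      rw [mul_comp, C_comp, multiset_prod_comp, Multiset.map_map]
      congr 2
      refine Multiset.map_congr rfl fun r _ => ?_
      simp [sub_eq_add_neg]
    rw [h1, mahlerMeasure_mul, mahlerMeasure_const, prod_mahlerMeasure_eq_mahlerMeasure_prod,
      Multiset.map_map]
    congr 2
    refine Multiset.map_congr rfl fun r _ => ?_
    rw [Function.comp_apply, mahlerMeasure_C_mul_X_add_C hRc, hRn, norm_neg]
  have hlc : ‖P.leadingCoeff‖ * (P.roots.map (fun r => ‖r‖)).prod = 1 := by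
    have h1 := hsplit.coeff_zero_eq_leadingCoeff_mul_prod_roots
    have h2 := congrArg norm h1
    rw [h0, norm_one, norm_mul, norm_mul, norm_pow, norm_neg, norm_one, one_pow, one_mul] at h2
    have h3 : ‖P.roots.prod‖ = (P.roots.map (fun r => ‖r‖)).prod :=
      map_multiset_prod (normHom : ℂ →*₀ ℝ) P.roots
    rw [h3] at h2
    exact h2.symm
  have hprod := landau_prod P.roots hroots hR
  have hM : Q.mahlerMeasure
      = ((P.roots.filter (fun r => ‖r‖ < R)).map (fun r => R / ‖r‖)).prod := by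
    rw [hQM, ← hprod]
    calc ‖P.leadingCoeff‖ * (((P.roots.filter (fun r => ‖r‖ < R)).map (fun r => R / ‖r‖)).prod
          * (P.roots.map (fun r => ‖r‖)).prod)
        = ((P.roots.filter (fun r => ‖r‖ < R)).map (fun r => R / ‖r‖)).prod
          * (‖P.leadingCoeff‖ * (P.roots.map (fun r => ‖r‖)).prod) := by ring
      _ = _ := by rw [hlc, mul_one]
  have hL := mahlerMeasure_le_sqrt_sum_sq_norm_coeff Q
  have hsq : Q.mahlerMeasure ^ 2 ≤ ∑ i ∈ Q.support, ‖Q.coeff i‖ ^ 2 := by
    have h1 : 0 ≤ ∑ i ∈ Q.support, ‖Q.coeff i‖ ^ 2 := Finset.sum_nonneg fun i _ => by positivity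
    calc Q.mahlerMeasure ^ 2 ≤ (√(∑ i ∈ Q.support, ‖Q.coeff i‖ ^ 2)) ^ 2 :=
          pow_le_pow_left₀ (mahlerMeasure_nonneg Q) hL 2
      _ = _ := Real.sq_sqrt h1
  rw [← hM]
  refine hsq.trans ?_
  have hsub : Q.support ⊆ Finset.range (P.natDegree + 1) := by
    intro m hm
    rw [mem_support_iff, hQc] at hm
    rw [Finset.mem_range, Nat.lt_succ_iff]
    exact le_natDegree_of_ne_zero (left_ne_zero_of_mul hm)
  calc ∑ i ∈ Q.support, ‖Q.coeff i‖ ^ 2
      ≤ ∑ i ∈ Finset.range (P.natDegree + 1), ‖Q.coeff i‖ ^ 2 :=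
        Finset.sum_le_sum_of_subset_of_nonneg hsub fun i _ _ => by positivity
    _ = _ := by
        refine Finset.sum_congr rfl fun m _ => ?_
        rw [hQc, norm_mul, norm_pow, hRn, mul_pow, ← pow_mul, mul_comm m 2]

end RR
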