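import Pool.Agent.Lib.MP_31701c_co.Errs

/-!
# RR-Left : upper bound for `|F_N|` to the left of `x1`

`x = Re z ≤ x1`, `‖z‖ ≤ r`, `x1 ≤ r ≤ 1.2 x1`, `4.4 ≤ x1`. `|FN - XI| ≤ 1e-15` (`FN_sub_XI`). Let `s = sin²/QQ`,
split the integral `XI` at `thc` and `π/2`.
Case `x ≥ 0`:
* `θ ≤ thc` (`0 ≤ t ≤ 3`): `|e^{tz} - 1 - tz| ≤ e^{t x1} + 1 + 3r`; `(2/π)∫_0^{thc} e^{t x1} s ≤ (1 + 1.7β) kk e x1`
  (`wt_cmp`), `(2/π) ∫_0^{thc} s ≤ 0.2` (`int_small`): `0.2 (1 + 3r)`.
* `thc ≤ θ ≤ π/2` (`t ≥ 0`): `expm_bound_left`: `≤ (r/x1)² e^{t x1}`, `part2` at `x1`.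
* `π/2 ≤ θ ≤ π`: claim `|e^{tz} - 1 - tz| ≤ (r/x1)² (t/e)² e^{e x1}`; then `part1`. If `t ≥ 0`: `expm_bound_left` and
  `expm_real_le` at `x1`. If `t < 0`: `Re (tz) ≤ 0`, `expm_bound_neg`: `≤ t² r²/2 = (r/x1)² (t/e)² (e x1)²/2`, and
  `(e x1)²/2 ≤ e^{e x1} - 1 - e x1` (`half_sq_le_expm`).
Sum: `kk (1 + 1.7β) + 0.2(1+3r) + (r/x1)² (0.668 e^{e x1} + 0.0985/(x1-1.469) e^{(e+0.8)x1})`, and `err_main`,
`err_small` at `x1` (`r ≤ 1.2 x1`, `(r/x1)² ≥ 1`).
Case `x < 0`: `t ≥ 0`: `Re (tz) ≤ 0`, `expm_bound_neg`: `≤ t² r²/2`, total `≤ 1.34 r²/2` (`total_part`). `t < 0` (only in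
`[π/2, π]`, `|t| ≤ 2 - e ≤ 1.001`): `expm_bound_norm` and `expm_real_le` (with `e := 1.001`, `t := |t|`, `x := r`):
`≤ (t/1.001)² e^{1.001 r} ≤ (t/e)² e^{1.001 r}`, total `≤ 0.668 e^{1.001 r}` (`part1`). At `x1 = 4.4`, `r = 5.28`:
`0.668·197.5 + 18.7 = 151 ≤ 2145`; in general `0.668 e^{1.2013 x1} + 0.965 x1² ≤ 2145 e^{2.56 (x1 - 4.4)} ≤ kk e x1`
(`kk_lower`).
-/

set_option autoImplicit false

namespace RR

private theorem left_kk_eq (e x : ℝ) :
    kk e x = 2 / Real.pi * ∫ θ in (0:ℝ)..thc, wt θ * Real.exp (tt e θ * x) := by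
  unfold kk KK
  have h1 : ∀ θ : ℝ, wt θ * Real.exp (tt e θ * x) =
      Real.exp ((2 + e) * x) * (yy θ ^ 0 * wt θ * Real.exp (-(yy θ * x))) := by
    intro θ
    have h2 : Real.exp (tt e θ * x) = Real.exp ((2 + e) * x) * Real.exp (-(yy θ * x)) := by
      rw [← Real.exp_add]
      congr 1
      unfold tt yy
      ring
    rw [h2, pow_zero]
    ring
  simp_rw [h1]
  rw [intervalIntegral.integral_const_mul]
  ring

private theorem left_e_facts {e : ℝ} (h9 : e9 ≤ e) (h1 : e < 1) :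
    0.9998 < e ∧ 0 < 1 - e ^ 2 := by
  have h := h9
  unfold e9 at h
  constructor
  · linarith
  · nlinarith

/-- the integrand of `XI` in norm -/
private theorem left_norm_XI {e : ℝ} (h0 : 0 ≤ e) (h1 : e < 1) (z : ℂ) :
    ‖XI e z‖ ≤ 2 / Real.pi * ∫ θ in (0:ℝ)..Real.pi,
      ‖Complex.exp ((tt e θ : ℝ) * z) - 1 - (tt e θ : ℝ) * z‖ *
        (Real.sin θ ^ 2 / QQ e (tt e θ)) := by
  have hpi := Real.pi_pos
  unfold XI
  rw [norm_mul, Complex.norm_real, Real.norm_eq_abs, abs_of_pos (by positivity)]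
  refine mul_le_mul_of_nonneg_left ?_ (by positivity)
  refine (intervalIntegral.norm_integral_le_integral_norm hpi.le).trans (le_of_eq ?_)
  congr 1
  funext θ
  rw [norm_mul, Complex.norm_real, Real.norm_eq_abs, abs_of_nonneg]
  exact div_nonneg (sq_nonneg _) (QQ_pos h0 h1 _).le

private theorem left_cont {e : ℝ} (h0 : 0 ≤ e) (h1 : e < 1) (z : ℂ) :
    Continuous fun θ : ℝ => ‖Complex.exp ((tt e θ : ℝ) * z) - 1 - (tt e θ : ℝ) * z‖ *
        (Real.sin θ ^ 2 / QQ e (tt e θ)) := by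
  have hs := continuous_sinQQ h0 h1
  have ht : Continuous fun θ : ℝ => tt e θ := by
    unfold tt
    fun_prop
  have h2 : Continuous fun θ : ℝ => ((tt e θ : ℝ) : ℂ) * z :=
    (Complex.continuous_ofReal.comp ht).mul continuous_const
  exact (((Complex.continuous_exp.comp h2).sub continuous_const).sub h2).norm.mul hs

private theorem left_s_nonneg {e : ℝ} (h0 : 0 ≤ e) (h1 : e < 1) (θ : ℝ) :
    0 ≤ Real.sin θ ^ 2 / QQ e (tt e θ) :=
  div_nonneg (sq_nonneg _) (QQ_pos h0 h1 _).le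

/-- first piece -/
private theorem left_piece1 {e : ℝ} (h9 : e9 ≤ e) (h1 : e < 1) {z : ℂ} {x1 r : ℝ}
    (hz : z.re ≤ x1) (hzr : ‖z‖ ≤ r) :
    2 / Real.pi * ∫ θ in (0:ℝ)..thc,
      ‖Complex.exp ((tt e θ : ℝ) * z) - 1 - (tt e θ : ℝ) * z‖ *
        (Real.sin θ ^ 2 / QQ e (tt e θ)) ≤
      (1 + 1.7 * (1 - e ^ 2)) * kk e x1 + 0.2 * (1 + 3 * r) := by
  obtain ⟨he, hb⟩ := left_e_facts h9 h1
  have he0 : 0 ≤ e := by linarith
  have hpi := Real.pi_pos
  have hr0 : 0 ≤ r := (norm_nonneg _).trans hzr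
  have hs := continuous_sinQQ he0 h1
  have ht : Continuous fun θ : ℝ => tt e θ := by
    unfold tt
    fun_prop
  have hE : Continuous fun θ : ℝ => Real.exp (tt e θ * x1) := by
    fun_prop
  have hIw := intervalIntegrable_wt hE
  have hIs : IntervalIntegrable (fun θ => Real.sin θ ^ 2 / QQ e (tt e θ))
      MeasureTheory.volume 0 thc := hs.intervalIntegrable _ _
  have hmono : ∫ θ in (0:ℝ)..thc,
      ‖Complex.exp ((tt e θ : ℝ) * z) - 1 - (tt e θ : ℝ) * z‖ *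
        (Real.sin θ ^ 2 / QQ e (tt e θ)) ≤
      ∫ θ in (0:ℝ)..thc, ((1 + 1.7 * (1 - e ^ 2)) * (wt θ * Real.exp (tt e θ * x1)) +
        (1 + 3 * r) * (Real.sin θ ^ 2 / QQ e (tt e θ))) := by
    refine intervalIntegral.integral_mono_on thc_pos.le ((left_cont he0 h1 z).intervalIntegrable _ _)
      ((hIw.const_mul _).add (hIs.const_mul _)) ?_
    intro θ hθ
    have hc := le_cos_of_le_thc hθ.1 hθ.2
    have hc1 := Real.cos_le_one θ
    have ht0 : 0 ≤ tt e θ := by unfold tt; linarith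
    have ht3 : tt e θ ≤ 3 := by unfold tt; linarith
    have hsn := left_s_nonneg he0 h1 θ
    have hw := wt_cmp h9 h1 hθ.1 hθ.2
    have h2 : ‖Complex.exp ((tt e θ : ℝ) * z) - 1 - (tt e θ : ℝ) * z‖ ≤
        Real.exp (tt e θ * x1) + (1 + 3 * r) := by
      have h3 : ‖Complex.exp ((tt e θ : ℝ) * z)‖ ≤ Real.exp (tt e θ * x1) := by
        rw [Complex.norm_exp]
        apply Real.exp_le_exp.2
        rw [Complex.re_ofReal_mul]
        exact mul_le_mul_of_nonneg_left hz ht0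
      have h4 : ‖((tt e θ : ℝ) : ℂ) * z‖ ≤ 3 * r := by
        rw [norm_mul, Complex.norm_real, Real.norm_eq_abs, abs_of_nonneg ht0]
        exact mul_le_mul ht3 hzr (norm_nonneg _) (by norm_num)
      calc ‖Complex.exp ((tt e θ : ℝ) * z) - 1 - (tt e θ : ℝ) * z‖
          ≤ ‖Complex.exp ((tt e θ : ℝ) * z) - 1‖ + ‖((tt e θ : ℝ) : ℂ) * z‖ := norm_sub_le _ _
        _ ≤ (‖Complex.exp ((tt e θ : ℝ) * z)‖ + ‖(1 : ℂ)‖) + ‖((tt e θ : ℝ) : ℂ) * z‖ := by
            gcongr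
            exact norm_sub_le _ _
        _ ≤ _ := by rw [norm_one]; linarith
    calc ‖Complex.exp ((tt e θ : ℝ) * z) - 1 - (tt e θ : ℝ) * z‖ *
          (Real.sin θ ^ 2 / QQ e (tt e θ))
        ≤ (Real.exp (tt e θ * x1) + (1 + 3 * r)) * (Real.sin θ ^ 2 / QQ e (tt e θ)) :=
          mul_le_mul_of_nonneg_right h2 hsn
      _ = Real.exp (tt e θ * x1) * (Real.sin θ ^ 2 / QQ e (tt e θ)) +
          (1 + 3 * r) * (Real.sin θ ^ 2 / QQ e (tt e θ)) := by ring
      _ ≤ Real.exp (tt e θ * x1) * ((1 + 1.7 * (1 - e ^ 2)) * wt θ) +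
          (1 + 3 * r) * (Real.sin θ ^ 2 / QQ e (tt e θ)) := by
          have := mul_le_mul_of_nonneg_left hw.2 (Real.exp_pos (tt e θ * x1)).le
          linarith
      _ = _ := by ring
  rw [intervalIntegral.integral_add (hIw.const_mul _) (hIs.const_mul _),
    intervalIntegral.integral_const_mul, intervalIntegral.integral_const_mul] at hmono
  have h5 := mul_le_mul_of_nonneg_left hmono (show 0 ≤ 2 / Real.pi by positivity)
  refine h5.trans ?_
  have h6 := int_small h9 h1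
  have h7 := left_kk_eq e x1
  have h8 : 2 / Real.pi * ((1 + 1.7 * (1 - e ^ 2)) * (∫ θ in (0:ℝ)..thc,
      wt θ * Real.exp (tt e θ * x1)) + (1 + 3 * r) *
      ∫ θ in (0:ℝ)..thc, Real.sin θ ^ 2 / QQ e (tt e θ)) =
      (1 + 1.7 * (1 - e ^ 2)) * kk e x1 + (1 + 3 * r) * (2 / Real.pi *
      ∫ θ in (0:ℝ)..thc, Real.sin θ ^ 2 / QQ e (tt e θ)) := by
    rw [h7]; ring
  rw [h8]
  have h9' : (1 + 3 * r) * (2 / Real.pi *
      ∫ θ in (0:ℝ)..thc, Real.sin θ ^ 2 / QQ e (tt e θ)) ≤ (1 + 3 * r) * 0.2 :=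
    mul_le_mul_of_nonneg_left h6 (by linarith)
  linarith

/-- second piece -/
private theorem left_piece2 {e : ℝ} (h9 : e9 ≤ e) (h1 : e < 1) {z : ℂ} {x1 r : ℝ}
    (hx1 : 4.4 ≤ x1) (hz : z.re ≤ x1) (hzr : ‖z‖ ≤ r) :
    2 / Real.pi * ∫ θ in thc..(Real.pi / 2),
      ‖Complex.exp ((tt e θ : ℝ) * z) - 1 - (tt e θ : ℝ) * z‖ *
        (Real.sin θ ^ 2 / QQ e (tt e θ)) ≤
      (r / x1) ^ 2 * (0.0985 / (x1 - 1.469) * Real.exp ((e + 0.8) * x1)) := by
  obtain ⟨he, hb⟩ := left_e_facts h9 h1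
  have he0 : 0 ≤ e := by linarith
  have hpi := Real.pi_pos
  have hx0 : 0 < x1 := by linarith
  have hs := continuous_sinQQ he0 h1
  have ht : Continuous fun θ : ℝ => tt e θ := by
    unfold tt
    fun_prop
  have hE : Continuous fun θ : ℝ => Real.exp (tt e θ * x1) *
      (Real.sin θ ^ 2 / QQ e (tt e θ)) := by
    exact (Real.continuous_exp.comp (ht.mul continuous_const)).mul hs
  have hmono : ∫ θ in thc..(Real.pi / 2),
      ‖Complex.exp ((tt e θ : ℝ) * z) - 1 - (tt e θ : ℝ) * z‖ *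
        (Real.sin θ ^ 2 / QQ e (tt e θ)) ≤
      ∫ θ in thc..(Real.pi / 2), (r / x1) ^ 2 * (Real.exp (tt e θ * x1) *
        (Real.sin θ ^ 2 / QQ e (tt e θ))) := by
    refine intervalIntegral.integral_mono_on thc_lt.le ((left_cont he0 h1 z).intervalIntegrable _ _)
      ((continuous_const.mul hE).intervalIntegrable _ _) ?_
    intro θ hθ
    have hc : 0 ≤ Real.cos θ := by
      apply Real.cos_nonneg_of_mem_Icc
      constructor
      · linarith [thc_pos, hθ.1]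
      · exact hθ.2
    have ht0 : 0 ≤ tt e θ := by unfold tt; linarith
    have hsn := left_s_nonneg he0 h1 θ
    have h2 := expm_bound_left ht0 hx0 hz hzr
    have h3 : (r / x1) ^ 2 * (Real.exp (tt e θ * x1) - 1 - tt e θ * x1) ≤
        (r / x1) ^ 2 * Real.exp (tt e θ * x1) := by
      refine mul_le_mul_of_nonneg_left ?_ (sq_nonneg _)
      have : 0 ≤ tt e θ * x1 := mul_nonneg ht0 hx0.le
      linarith
    calc ‖Complex.exp ((tt e θ : ℝ) * z) - 1 - (tt e θ : ℝ) * z‖ *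
          (Real.sin θ ^ 2 / QQ e (tt e θ))
        ≤ ((r / x1) ^ 2 * Real.exp (tt e θ * x1)) * (Real.sin θ ^ 2 / QQ e (tt e θ)) :=
          mul_le_mul_of_nonneg_right (h2.trans h3) hsn
      _ = _ := by ring
  rw [intervalIntegral.integral_const_mul] at hmono
  have h5 := mul_le_mul_of_nonneg_left hmono (show 0 ≤ 2 / Real.pi by positivity)
  refine h5.trans ?_
  have h6 := part2 h9 h1 hx1
  calc 2 / Real.pi * ((r / x1) ^ 2 * ∫ θ in thc..(Real.pi / 2), Real.exp (tt e θ * x1) *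
        (Real.sin θ ^ 2 / QQ e (tt e θ)))
      = (r / x1) ^ 2 * (2 / Real.pi * ∫ θ in thc..(Real.pi / 2), Real.exp (tt e θ * x1) *
        (Real.sin θ ^ 2 / QQ e (tt e θ))) := by ring
    _ ≤ _ := mul_le_mul_of_nonneg_left h6 (sq_nonneg _)

/-- third piece, `Re z ≥ 0` -/
private theorem left_piece3 {e : ℝ} (h9 : e9 ≤ e) (h1 : e < 1) {z : ℂ} {x1 r : ℝ}
    (hx1 : 4.4 ≤ x1) (hz : z.re ≤ x1) (hzr : ‖z‖ ≤ r) (hz0 : 0 ≤ z.re) :
    2 / Real.pi * ∫ θ in (Real.pi / 2)..Real.pi,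
      ‖Complex.exp ((tt e θ : ℝ) * z) - 1 - (tt e θ : ℝ) * z‖ *
        (Real.sin θ ^ 2 / QQ e (tt e θ)) ≤
      (r / x1) ^ 2 * (0.668 * Real.exp (e * x1)) := by
  obtain ⟨he, hb⟩ := left_e_facts h9 h1
  have he0 : 0 ≤ e := by linarith
  have hepos : 0 < e := by linarith
  have hpi := Real.pi_pos
  have hx0 : 0 < x1 := by linarith
  have hs := continuous_sinQQ he0 h1
  have ht : Continuous fun θ : ℝ => tt e θ := by
    unfold tt
    fun_prop
  have hE : Continuous fun θ : ℝ => (tt e θ / e) ^ 2 *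
      (Real.sin θ ^ 2 / QQ e (tt e θ)) := by
    exact ((ht.div_const e).pow 2).mul hs
  have hmono : ∫ θ in (Real.pi / 2)..Real.pi,
      ‖Complex.exp ((tt e θ : ℝ) * z) - 1 - (tt e θ : ℝ) * z‖ *
        (Real.sin θ ^ 2 / QQ e (tt e θ)) ≤
      ∫ θ in (Real.pi / 2)..Real.pi, ((r / x1) ^ 2 * Real.exp (e * x1)) * ((tt e θ / e) ^ 2 *
        (Real.sin θ ^ 2 / QQ e (tt e θ))) := by
    refine intervalIntegral.integral_mono_on (by linarith)
      ((left_cont he0 h1 z).intervalIntegrable _ _)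
      ((continuous_const.mul hE).intervalIntegrable _ _) ?_
    intro θ hθ
    have hc : Real.cos θ ≤ 0 := by
      apply Real.cos_nonpos_of_pi_div_two_le_of_le hθ.1
      linarith [hθ.2]
    have hte : tt e θ ≤ e := by unfold tt; linarith
    have hsn := left_s_nonneg he0 h1 θ
    have hex : Real.exp (e * x1) - 1 - e * x1 ≤ Real.exp (e * x1) := by
      have : 0 ≤ e * x1 := by positivity
      linarith
    have h2 : ‖Complex.exp ((tt e θ : ℝ) * z) - 1 - (tt e θ : ℝ) * z‖ ≤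
        (r / x1) ^ 2 * ((tt e θ / e) ^ 2 * (Real.exp (e * x1) - 1 - e * x1)) := by
      rcases le_or_gt 0 (tt e θ) with ht0 | ht0
      · refine (expm_bound_left ht0 hx0 hz hzr).trans ?_
        exact mul_le_mul_of_nonneg_left (expm_real_le hepos hx0 hte) (sq_nonneg _)
      · have h3 : (((tt e θ : ℝ) : ℂ) * z).re ≤ 0 := by
          rw [Complex.re_ofReal_mul]
          exact mul_nonpos_of_nonpos_of_nonneg ht0.le hz0
        refine (expm_bound_neg h3).trans ?_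
        rw [norm_mul, Complex.norm_real, Real.norm_eq_abs, mul_pow, sq_abs]
        have h4 : ‖z‖ ^ 2 ≤ r ^ 2 := pow_le_pow_left₀ (norm_nonneg _) hzr 2
        have h5 := half_sq_le_expm (w := e * x1) (by positivity)
        have h6 : (r / x1) ^ 2 * ((tt e θ / e) ^ 2 * ((e * x1) ^ 2 / 2)) =
            tt e θ ^ 2 * r ^ 2 / 2 := by
          field_simp
        calc tt e θ ^ 2 * ‖z‖ ^ 2 / 2 ≤ tt e θ ^ 2 * r ^ 2 / 2 := by
              have := mul_le_mul_of_nonneg_left h4 (sq_nonneg (tt e θ))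
              linarith
          _ = (r / x1) ^ 2 * ((tt e θ / e) ^ 2 * ((e * x1) ^ 2 / 2)) := h6.symm
          _ ≤ _ := mul_le_mul_of_nonneg_left (mul_le_mul_of_nonneg_left h5 (sq_nonneg _))
              (sq_nonneg _)
    have h3 : (r / x1) ^ 2 * ((tt e θ / e) ^ 2 * (Real.exp (e * x1) - 1 - e * x1)) ≤
        (r / x1) ^ 2 * ((tt e θ / e) ^ 2 * Real.exp (e * x1)) :=
      mul_le_mul_of_nonneg_left (mul_le_mul_of_nonneg_left hex (sq_nonneg _)) (sq_nonneg _)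
    calc ‖Complex.exp ((tt e θ : ℝ) * z) - 1 - (tt e θ : ℝ) * z‖ *
          (Real.sin θ ^ 2 / QQ e (tt e θ))
        ≤ ((r / x1) ^ 2 * ((tt e θ / e) ^ 2 * Real.exp (e * x1))) *
          (Real.sin θ ^ 2 / QQ e (tt e θ)) :=
          mul_le_mul_of_nonneg_right (h2.trans h3) hsn
      _ = _ := by ring
  rw [intervalIntegral.integral_const_mul] at hmono
  have h5 := mul_le_mul_of_nonneg_left hmono (show 0 ≤ 2 / Real.pi by positivity)
  refine h5.trans ?_
  have h6 := part1 h9 h1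
  calc 2 / Real.pi * (((r / x1) ^ 2 * Real.exp (e * x1)) * ∫ θ in (Real.pi / 2)..Real.pi,
        (tt e θ / e) ^ 2 * (Real.sin θ ^ 2 / QQ e (tt e θ)))
      = ((r / x1) ^ 2 * Real.exp (e * x1)) * (2 / Real.pi * ∫ θ in (Real.pi / 2)..Real.pi,
        (tt e θ / e) ^ 2 * (Real.sin θ ^ 2 / QQ e (tt e θ))) := by ring
    _ ≤ ((r / x1) ^ 2 * Real.exp (e * x1)) * 0.668 :=
        mul_le_mul_of_nonneg_left h6 (by positivity)
    _ = _ := by ring

/-- the case `Re z < 0` -/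
private theorem left_neg {e : ℝ} (h9 : e9 ≤ e) (h1 : e < 1) {z : ℂ} {r : ℝ}
    (hzr : ‖z‖ ≤ r) (hr0 : 0 < r) (hz0 : z.re < 0) :
    ‖XI e z‖ ≤ 0.67 * r ^ 2 + 0.668 * Real.exp (1.001 * r) := by
  obtain ⟨he, hb⟩ := left_e_facts h9 h1
  have he0 : 0 ≤ e := by linarith
  have hepos : 0 < e := by linarith
  have hpi := Real.pi_pos
  have hs := continuous_sinQQ he0 h1
  have ht : Continuous fun θ : ℝ => tt e θ := by
    unfold tt
    fun_prop
  have hE : Continuous fun θ : ℝ => (tt e θ / e) ^ 2 *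
      (Real.sin θ ^ 2 / QQ e (tt e θ)) := by
    exact ((ht.div_const e).pow 2).mul hs
  have hT : Continuous fun θ : ℝ => tt e θ ^ 2 *
      (Real.sin θ ^ 2 / QQ e (tt e θ)) := by
    exact (ht.pow 2).mul hs
  refine (left_norm_XI he0 h1 z).trans ?_
  have hsplit := intervalIntegral.integral_add_adjacent_intervals
    ((left_cont he0 h1 z).intervalIntegrable (μ := MeasureTheory.volume) 0 (Real.pi / 2))
    ((left_cont he0 h1 z).intervalIntegrable (μ := MeasureTheory.volume) (Real.pi / 2) Real.pi)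
  have hsplitT := intervalIntegral.integral_add_adjacent_intervals
    (hT.intervalIntegrable (μ := MeasureTheory.volume) 0 (Real.pi / 2))
    (hT.intervalIntegrable (μ := MeasureTheory.volume) (Real.pi / 2) Real.pi)
  have hre : ∀ t : ℝ, 0 ≤ t → ‖Complex.exp ((t : ℝ) * z) - 1 - (t : ℝ) * z‖ ≤
      t ^ 2 * (r ^ 2 / 2) := by
    intro t ht0
    have h3 : (((t : ℝ) : ℂ) * z).re ≤ 0 := by
      rw [Complex.re_ofReal_mul]
      exact mul_nonpos_of_nonneg_of_nonpos ht0 hz0.le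
    refine (expm_bound_neg h3).trans ?_
    rw [norm_mul, Complex.norm_real, Real.norm_eq_abs, mul_pow, sq_abs]
    have h4 : ‖z‖ ^ 2 ≤ r ^ 2 := pow_le_pow_left₀ (norm_nonneg _) hzr 2
    have := mul_le_mul_of_nonneg_left h4 (sq_nonneg t)
    linarith
  have hm1 : ∫ θ in (0:ℝ)..(Real.pi / 2),
      ‖Complex.exp ((tt e θ : ℝ) * z) - 1 - (tt e θ : ℝ) * z‖ *
        (Real.sin θ ^ 2 / QQ e (tt e θ)) ≤
      ∫ θ in (0:ℝ)..(Real.pi / 2), (r ^ 2 / 2) * (tt e θ ^ 2 *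
        (Real.sin θ ^ 2 / QQ e (tt e θ))) := by
    refine intervalIntegral.integral_mono_on (by linarith)
      ((left_cont he0 h1 z).intervalIntegrable _ _)
      ((continuous_const.mul hT).intervalIntegrable _ _) ?_
    intro θ hθ
    have hc : 0 ≤ Real.cos θ := by
      apply Real.cos_nonneg_of_mem_Icc
      constructor
      · linarith [hθ.1]
      · exact hθ.2
    have ht0 : 0 ≤ tt e θ := by unfold tt; linarith
    have hsn := left_s_nonneg he0 h1 θ
    calc ‖Complex.exp ((tt e θ : ℝ) * z) - 1 - (tt e θ : ℝ) * z‖ *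
          (Real.sin θ ^ 2 / QQ e (tt e θ))
        ≤ (tt e θ ^ 2 * (r ^ 2 / 2)) * (Real.sin θ ^ 2 / QQ e (tt e θ)) :=
          mul_le_mul_of_nonneg_right (hre _ ht0) hsn
      _ = _ := by ring
  have hm2 : ∫ θ in (Real.pi / 2)..Real.pi,
      ‖Complex.exp ((tt e θ : ℝ) * z) - 1 - (tt e θ : ℝ) * z‖ *
        (Real.sin θ ^ 2 / QQ e (tt e θ)) ≤
      ∫ θ in (Real.pi / 2)..Real.pi, ((r ^ 2 / 2) * (tt e θ ^ 2 *
        (Real.sin θ ^ 2 / QQ e (tt e θ))) + Real.exp (1.001 * r) * ((tt e θ / e) ^ 2 *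
        (Real.sin θ ^ 2 / QQ e (tt e θ)))) := by
    refine intervalIntegral.integral_mono_on (by linarith)
      ((left_cont he0 h1 z).intervalIntegrable _ _)
      (((continuous_const.mul hT).add (continuous_const.mul hE)).intervalIntegrable _ _) ?_
    intro θ hθ
    have hsn := left_s_nonneg he0 h1 θ
    have hc1 := Real.neg_one_le_cos θ
    have h2 : ‖Complex.exp ((tt e θ : ℝ) * z) - 1 - (tt e θ : ℝ) * z‖ ≤
        tt e θ ^ 2 * (r ^ 2 / 2) + Real.exp (1.001 * r) * (tt e θ / e) ^ 2 := by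
      rcases le_or_gt 0 (tt e θ) with ht0 | ht0
      · have h3 := hre _ ht0
        have h4 : 0 ≤ Real.exp (1.001 * r) * (tt e θ / e) ^ 2 := by positivity
        linarith
      · have h3 : |tt e θ| ≤ 1.001 := by
          rw [abs_of_neg ht0]
          unfold tt
          linarith
        have h4 := expm_bound_norm (((tt e θ : ℝ) : ℂ) * z)
        have h5 : ‖((tt e θ : ℝ) : ℂ) * z‖ ≤ |tt e θ| * r := by
          rw [norm_mul, Complex.norm_real, Real.norm_eq_abs]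
          exact mul_le_mul_of_nonneg_left hzr (abs_nonneg _)
        have h6 := expm_real_le (e := 1.001) (t := |tt e θ|) (x := r) (by norm_num) hr0 h3
        have hmonoexp : Real.exp ‖((tt e θ : ℝ) : ℂ) * z‖ - 1 - ‖((tt e θ : ℝ) : ℂ) * z‖ ≤
            Real.exp (|tt e θ| * r) - 1 - |tt e θ| * r := by
          have h7 := norm_nonneg (((tt e θ : ℝ) : ℂ) * z)
          set u := ‖((tt e θ : ℝ) : ℂ) * z‖ with hu
          set v := |tt e θ| * r with hv
          have h8 : Real.exp v = Real.exp u * Real.exp (v - u) := by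
            rw [← Real.exp_add]; congr 1; ring
          have h9' := Real.add_one_le_exp (v - u)
          have h10 := Real.add_one_le_exp u
          have h11 : 1 ≤ Real.exp u := by linarith
          have h12 : Real.exp u * (v - u + 1) ≤ Real.exp v := by
            rw [h8]
            exact mul_le_mul_of_nonneg_left h9' (Real.exp_pos _).le
          nlinarith
        have h7 : (|tt e θ| / 1.001) ^ 2 * (Real.exp (1.001 * r) - 1 - 1.001 * r) ≤
            Real.exp (1.001 * r) * (tt e θ / e) ^ 2 := by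
          have h8 : Real.exp (1.001 * r) - 1 - 1.001 * r ≤ Real.exp (1.001 * r) := by
            linarith
          have h9' : (|tt e θ| / 1.001) ^ 2 ≤ (tt e θ / e) ^ 2 := by
            rw [div_pow, div_pow, sq_abs]
            refine div_le_div_of_nonneg_left (sq_nonneg _) (by positivity) ?_
            exact pow_le_pow_left₀ he0 (by linarith) 2
          calc (|tt e θ| / 1.001) ^ 2 * (Real.exp (1.001 * r) - 1 - 1.001 * r)
              ≤ (|tt e θ| / 1.001) ^ 2 * Real.exp (1.001 * r) :=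
                mul_le_mul_of_nonneg_left h8 (sq_nonneg _)
            _ ≤ (tt e θ / e) ^ 2 * Real.exp (1.001 * r) :=
                mul_le_mul_of_nonneg_right h9' (Real.exp_pos _).le
            _ = _ := by ring
        have h8 : 0 ≤ tt e θ ^ 2 * (r ^ 2 / 2) := by positivity
        linarith
    calc ‖Complex.exp ((tt e θ : ℝ) * z) - 1 - (tt e θ : ℝ) * z‖ *
          (Real.sin θ ^ 2 / QQ e (tt e θ))
        ≤ (tt e θ ^ 2 * (r ^ 2 / 2) + Real.exp (1.001 * r) * (tt e θ / e) ^ 2) *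
          (Real.sin θ ^ 2 / QQ e (tt e θ)) :=
          mul_le_mul_of_nonneg_right h2 hsn
      _ = _ := by ring
  rw [intervalIntegral.integral_const_mul] at hm1
  have hI1 : IntervalIntegrable (fun θ : ℝ => (r ^ 2 / 2) * (tt e θ ^ 2 *
      (Real.sin θ ^ 2 / QQ e (tt e θ)))) MeasureTheory.volume (Real.pi / 2) Real.pi :=
    (continuous_const.mul hT).intervalIntegrable _ _
  have hI2 : IntervalIntegrable (fun θ : ℝ => Real.exp (1.001 * r) * ((tt e θ / e) ^ 2 *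
      (Real.sin θ ^ 2 / QQ e (tt e θ)))) MeasureTheory.volume (Real.pi / 2) Real.pi :=
    (continuous_const.mul hE).intervalIntegrable _ _
  rw [intervalIntegral.integral_add hI1 hI2,
    intervalIntegral.integral_const_mul, intervalIntegral.integral_const_mul] at hm2
  have h6 := part1 h9 h1
  have h7 := total_part h9 h1
  rw [← hsplitT] at h7
  rw [← hsplit]
  set a1 := ∫ θ in (0:ℝ)..(Real.pi / 2), tt e θ ^ 2 * (Real.sin θ ^ 2 / QQ e (tt e θ)) with ha1
  set a2 := ∫ θ in (Real.pi / 2)..Real.pi, tt e θ ^ 2 * (Real.sin θ ^ 2 / QQ e (tt e θ)) with ha2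
  set a3 := ∫ θ in (Real.pi / 2)..Real.pi,
    (tt e θ / e) ^ 2 * (Real.sin θ ^ 2 / QQ e (tt e θ)) with ha3
  have h8 := mul_le_mul_of_nonneg_left (add_le_add hm1 hm2) (show 0 ≤ 2 / Real.pi by positivity)
  refine h8.trans ?_
  have h9' : 2 / Real.pi * (r ^ 2 / 2 * a1 + (r ^ 2 / 2 * a2 + Real.exp (1.001 * r) * a3)) =
      r ^ 2 / 2 * (2 / Real.pi * (a1 + a2)) + Real.exp (1.001 * r) * (2 / Real.pi * a3) := by
    ring
  rw [h9']
  have h10 : r ^ 2 / 2 * (2 / Real.pi * (a1 + a2)) ≤ r ^ 2 / 2 * 1.34 :=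
    mul_le_mul_of_nonneg_left h7 (by positivity)
  have h11 : Real.exp (1.001 * r) * (2 / Real.pi * a3) ≤ Real.exp (1.001 * r) * 0.668 :=
    mul_le_mul_of_nonneg_left h6 (Real.exp_pos _).le
  linarith

/-- the numerical comparison of the case `Re z < 0` -/
private theorem left_num {x1 r : ℝ} (hx1 : 4.4 ≤ x1) (hr0 : 0 ≤ r) (hr2 : r ≤ 1.2 * x1) :
    0.67 * r ^ 2 + 0.668 * Real.exp (1.001 * r) + 1e-15 ≤
      2145 * Real.exp (2.56 * (x1 - 4.4)) := by
  have h1 : Real.exp (1.001 * r) ≤ Real.exp 1 ^ 6 * Real.exp (2.56 * (x1 - 4.4)) := by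
    rw [← Real.exp_nat_mul, ← Real.exp_add]
    apply Real.exp_le_exp.2
    push_cast
    linarith
  have h2 : Real.exp 1 ^ 6 ≤ 404 := by
    have h3 : Real.exp 1 ≤ 2.7183 := by linarith [Real.exp_one_lt_d9]
    have h4 : Real.exp 1 ^ 6 ≤ 2.7183 ^ 6 := pow_le_pow_left₀ (Real.exp_pos _).le h3 6
    refine h4.trans (by norm_num)
  have h3 : x1 / 4.4 ≤ Real.exp (1.28 * (x1 - 4.4)) := by
    have h4 := Real.add_one_le_exp (1.28 * (x1 - 4.4))
    have h5 : x1 / 4.4 = 1 + (x1 - 4.4) / 4.4 := by ring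
    rw [h5]
    have h6 : (x1 - 4.4) / 4.4 ≤ 1.28 * (x1 - 4.4) := by
      rw [div_le_iff₀ (by norm_num)]
      nlinarith
    linarith
  have h4 : (x1 / 4.4) ^ 2 ≤ Real.exp (2.56 * (x1 - 4.4)) := by
    have h5 : Real.exp (2.56 * (x1 - 4.4)) = Real.exp (1.28 * (x1 - 4.4)) ^ 2 := by
      rw [← Real.exp_nat_mul]
      congr 1
      push_cast
      ring
    rw [h5]
    exact pow_le_pow_left₀ (by positivity) h3 2
  have h5 : r ^ 2 ≤ (1.2 * x1) ^ 2 := pow_le_pow_left₀ hr0 hr2 2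
  have h6 : (1.2 * x1) ^ 2 = 27.8784 * (x1 / 4.4) ^ 2 := by ring
  have h7 : 1 ≤ Real.exp (2.56 * (x1 - 4.4)) := by
    have := Real.add_one_le_exp (2.56 * (x1 - 4.4))
    linarith
  have h8 : Real.exp 1 ^ 6 * Real.exp (2.56 * (x1 - 4.4)) ≤
      404 * Real.exp (2.56 * (x1 - 4.4)) :=
    mul_le_mul_of_nonneg_right h2 (Real.exp_pos _).le
  rw [h6] at h5
  have h9 : (1e-15 : ℝ) ≤ 1 := by norm_num
  linarith

theorem left_bound {e : ℝ} (h9 : e9 ≤ e) (h1 : e < 1) {N : ℕ} (hN : 400 ≤ N) {z : ℂ} {x1 r : ℝ}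
    (hx1 : 4.4 ≤ x1) (hz : z.re ≤ x1) (hzr : ‖z‖ ≤ r) (hr1 : x1 ≤ r) (hr2 : r ≤ 1.2 * x1)
    (hr3 : r ≤ 0.043 * N) :
    ‖FN e N z‖ ≤ kk e x1 * (1 + 6.05 / x1 ^ 3 * (r / x1) ^ 2 + 2 * (1 - e ^ 2)) := by
  obtain ⟨he, hb⟩ := left_e_facts h9 h1
  have he0 : 0 ≤ e := by linarith
  have hx0 : 0 < x1 := by linarith
  have hr0 : 0 < r := by linarith
  have hpi := Real.pi_pos
  have hkk0 := kk_pos e x1
  have hFN := FN_sub_XI he0 h1 hN (z := z) (hzr.trans hr3)
  have hle : ‖FN e N z‖ ≤ ‖XI e z‖ + 1e-15 := by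
    have h2 : FN e N z = XI e z + (FN e N z - XI e z) := by ring
    calc ‖FN e N z‖ = ‖XI e z + (FN e N z - XI e z)‖ := by rw [← h2]
      _ ≤ ‖XI e z‖ + ‖FN e N z - XI e z‖ := norm_add_le _ _
      _ ≤ _ := by linarith
  refine hle.trans ?_
  have hx13 : 0 < x1 ^ 3 := by positivity
  have hlam : 1 ≤ (r / x1) ^ 2 := by
    have h2 : 1 ≤ r / x1 := by rw [le_div_iff₀ hx0]; linarith
    nlinarith
  rcases le_or_gt 0 z.re with hz0 | hz0
  · -- `Re z ≥ 0`
    have hX := left_norm_XI he0 h1 z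
    have hs1 := intervalIntegral.integral_add_adjacent_intervals
      ((left_cont he0 h1 z).intervalIntegrable (μ := MeasureTheory.volume) 0 thc)
      ((left_cont he0 h1 z).intervalIntegrable (μ := MeasureTheory.volume) thc (Real.pi / 2))
    have hs2 := intervalIntegral.integral_add_adjacent_intervals
      ((left_cont he0 h1 z).intervalIntegrable (μ := MeasureTheory.volume) 0 (Real.pi / 2))
      ((left_cont he0 h1 z).intervalIntegrable (μ := MeasureTheory.volume) (Real.pi / 2) Real.pi)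
    have p1 := left_piece1 h9 h1 hz hzr
    have p2 := left_piece2 h9 h1 hx1 hz hzr
    have p3 := left_piece3 h9 h1 hx1 hz hzr hz0
    rw [← hs2, ← hs1, mul_add, mul_add] at hX
    have hm := err_main h9 h1.le hx1
    have hsm := err_small h9 h1.le hx1
    have h2 : (r / x1) ^ 2 * (0.668 * Real.exp (e * x1) +
        0.0985 / (x1 - 1.469) * Real.exp ((e + 0.8) * x1)) ≤
        (r / x1) ^ 2 * (kk e x1 * (5.85 / x1 ^ 3)) :=
      mul_le_mul_of_nonneg_left hm (sq_nonneg _)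
    have h3 : kk e x1 * (0.2 / x1 ^ 3) ≤ kk e x1 * (0.2 / x1 ^ 3) * (r / x1) ^ 2 := by
      have h4 : 0 ≤ kk e x1 * (0.2 / x1 ^ 3) := by positivity
      nlinarith
    have h4 : kk e x1 * (1 + 6.05 / x1 ^ 3 * (r / x1) ^ 2 + 2 * (1 - e ^ 2)) =
        kk e x1 + (r / x1) ^ 2 * (kk e x1 * (5.85 / x1 ^ 3)) +
          kk e x1 * (0.2 / x1 ^ 3) * (r / x1) ^ 2 + 2 * (1 - e ^ 2) * kk e x1 := by
      ring
    rw [h4]
    have h5 : 0 < (1 - e ^ 2) * kk e x1 := mul_pos hb hkk0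
    have h6 : (1e-15 : ℝ) ≤ 1e-14 := by norm_num
    linarith
  · -- `Re z < 0`
    have hn := left_neg h9 h1 hzr hr0 hz0
    have hnum := left_num hx1 hr0.le hr2
    have hkl := kk_lower h9 h1.le hx1
    have h2 : kk e x1 ≤ kk e x1 * (1 + 6.05 / x1 ^ 3 * (r / x1) ^ 2 + 2 * (1 - e ^ 2)) := by
      have h3 : 0 ≤ 6.05 / x1 ^ 3 * (r / x1) ^ 2 := by positivity
      nlinarith
    linarith

end RR
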