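import Pool.Agent.Lib.MP_31701c_co.States

/-! # kernel computation: the sign automaton, part 3 -/

set_option autoImplicit false
set_option maxRecDepth 1000000

namespace RR

private def s3_1 : List ℕ := [19, 19, 18, 18, 18, 18, 18, 17, 17, 17, 17, 17, 17, 16, 16, 16, 16, 16, 15, 15, 15, 15, 15, 15,
  14, 14, 14, 14, 14, 14, 13, 13, 13, 13, 13, 12, 12, 12, 12, 12, 12, 11, 11, 11, 11, 11, 10, 10,
  10, 10, 10, 10, 9, 9, 9, 9, 9, 9, 8, 8, 8, 8, 8, 7, 7, 7, 7, 7, 7, 6, 6, 6, 6, 6, 5, 5, 5, 5, 5,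
  5, 4, 4, 4, 4, 4, 4, 3, 3, 3, 3, 3, 2, 2, 2, 2, 2, 2, 2, 2]

private theorem p3_1 : updK st2 (kapTab (hTab 7837 8192 99)) = s3_1 := by
  decide +kernel

private def s3_2 : List ℕ := [20, 20, 19, 19, 19, 19, 19, 18, 18, 18, 18, 18, 17, 17, 17, 17, 17, 17, 16, 16, 16, 16, 16, 15,
  15, 15, 15, 15, 14, 14, 14, 14, 14, 13, 13, 13, 13, 13, 13, 12, 12, 12, 12, 12, 11, 11, 11, 11,
  11, 10, 10, 10, 10, 10, 10, 9, 9, 9, 9, 9, 8, 8, 8, 8, 8, 7, 7, 7, 7, 7, 6, 6, 6, 6, 6, 6, 5, 5,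
  5, 5, 5, 4, 4, 4, 4, 4, 3, 3, 3, 3, 3, 3, 2, 2, 2, 2, 2, 2, 2]

private theorem p3_2 : updK s3_1 (kapTab (hTab 7737 8192 99)) = s3_2 := by
  decide +kernel

private def s3_3 : List ℕ := [21, 21, 20, 20, 20, 20, 20, 19, 19, 19, 19, 19, 18, 18, 18, 18, 18, 17, 17, 17, 17, 17, 16, 16,
  16, 16, 16, 15, 15, 15, 15, 15, 14, 14, 14, 14, 14, 13, 13, 13, 13, 13, 12, 12, 12, 12, 12, 11,
  11, 11, 11, 11, 10, 10, 10, 10, 10, 9, 9, 9, 9, 9, 8, 8, 8, 8, 8, 7, 7, 7, 7, 7, 6, 6, 6, 6, 6,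
  5, 5, 5, 5, 5, 4, 4, 4, 4, 4, 3, 3, 3, 3, 3, 2, 2, 2, 2, 2, 2, 2]

private theorem p3_3 : updK s3_2 (kapTab (hTab 3815 4096 99)) = s3_3 := by
  decide +kernel

private def s3_4 : List ℕ := [22, 22, 21, 21, 21, 21, 20, 20, 20, 20, 20, 19, 19, 19, 19, 19, 18, 18, 18, 18, 18, 17, 17, 17,
  17, 16, 16, 16, 16, 16, 15, 15, 15, 15, 15, 14, 14, 14, 14, 14, 13, 13, 13, 13, 13, 12, 12, 12,
  12, 11, 11, 11, 11, 11, 10, 10, 10, 10, 10, 9, 9, 9, 9, 9, 8, 8, 8, 8, 7, 7, 7, 7, 7, 6, 6, 6,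
  6, 6, 5, 5, 5, 5, 5, 4, 4, 4, 4, 4, 3, 3, 3, 3, 2, 2, 2, 2, 2, 2, 2]

private theorem p3_4 : updK s3_3 (kapTab (hTab 3753 4096 99)) = s3_4 := by
  decide +kernel

private def s3_5 : List ℕ := [23, 23, 22, 22, 22, 22, 21, 21, 21, 21, 21, 20, 20, 20, 20, 19, 19, 19, 19, 19, 18, 18, 18, 18,
  17, 17, 17, 17, 17, 16, 16, 16, 16, 15, 15, 15, 15, 15, 14, 14, 14, 14, 14, 13, 13, 13, 13, 12,
  12, 12, 12, 12, 11, 11, 11, 11, 10, 10, 10, 10, 10, 9, 9, 9, 9, 8, 8, 8, 8, 8, 7, 7, 7, 7, 6, 6,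
  6, 6, 6, 5, 5, 5, 5, 5, 4, 4, 4, 4, 3, 3, 3, 3, 3, 2, 2, 2, 2, 2, 2]

private theorem p3_5 : updK s3_4 (kapTab (hTab 3687 4096 99)) = s3_5 := by
  decide +kernel

private def s3_6 : List ℕ := [24, 24, 23, 23, 23, 23, 22, 22, 22, 22, 21, 21, 21, 21, 21, 20, 20, 20, 20, 19, 19, 19, 19, 18,
  18, 18, 18, 18, 17, 17, 17, 17, 16, 16, 16, 16, 15, 15, 15, 15, 15, 14, 14, 14, 14, 13, 13, 13,
  13, 12, 12, 12, 12, 12, 11, 11, 11, 11, 10, 10, 10, 10, 9, 9, 9, 9, 9, 8, 8, 8, 8, 7, 7, 7, 7,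
  7, 6, 6, 6, 6, 5, 5, 5, 5, 4, 4, 4, 4, 4, 3, 3, 3, 3, 2, 2, 2, 2, 2, 2]

private theorem p3_6 : updK s3_5 (kapTab (hTab 113 128 99)) = s3_6 := by
  decide +kernel

private def s3_7 : List ℕ := [25, 25, 24, 24, 24, 24, 23, 23, 23, 23, 22, 22, 22, 22, 21, 21, 21, 21, 20, 20, 20, 20, 20, 19,
  19, 19, 19, 18, 18, 18, 18, 17, 17, 17, 17, 16, 16, 16, 16, 15, 15, 15, 15, 14, 14, 14, 14, 14,
  13, 13, 13, 13, 12, 12, 12, 12, 11, 11, 11, 11, 10, 10, 10, 10, 9, 9, 9, 9, 8, 8, 8, 8, 7, 7, 7,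
  7, 7, 6, 6, 6, 6, 5, 5, 5, 5, 4, 4, 4, 4, 3, 3, 3, 3, 2, 2, 2, 2, 2, 2]

private theorem p3_7 : updK s3_6 (kapTab (hTab 221 256 99)) = s3_7 := by
  decide +kernel

private def s3_8 : List ℕ := [26, 26, 25, 25, 25, 25, 24, 24, 24, 24, 23, 23, 23, 23, 22, 22, 22, 22, 21, 21, 21, 21, 20, 20,
  20, 20, 19, 19, 19, 19, 18, 18, 18, 18, 17, 17, 17, 17, 16, 16, 16, 16, 15, 15, 15, 15, 14, 14,
  14, 14, 13, 13, 13, 13, 12, 12, 12, 12, 11, 11, 11, 11, 10, 10, 10, 10, 9, 9, 9, 9, 8, 8, 8, 8,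
  7, 7, 7, 7, 6, 6, 6, 6, 5, 5, 5, 5, 4, 4, 4, 4, 3, 3, 3, 3, 2, 2, 2, 2, 2]

private theorem p3_8 : updK s3_7 (kapTab (hTab 865 1024 99)) = s3_8 := by
  decide +kernel

private def s3_9 : List ℕ := [27, 27, 26, 26, 26, 25, 25, 25, 25, 24, 24, 24, 24, 23, 23, 23, 23, 22, 22, 22, 22, 21, 21, 21,
  21, 20, 20, 20, 19, 19, 19, 19, 18, 18, 18, 18, 17, 17, 17, 17, 16, 16, 16, 16, 15, 15, 15, 15,
  14, 14, 14, 13, 13, 13, 13, 12, 12, 12, 12, 11, 11, 11, 11, 10, 10, 10, 10, 9, 9, 9, 9, 8, 8, 8,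
  8, 7, 7, 7, 6, 6, 6, 6, 5, 5, 5, 5, 4, 4, 4, 4, 3, 3, 3, 3, 2, 2, 2, 2, 2]

private theorem p3_9 : updK s3_8 (kapTab (hTab 211 256 99)) = s3_9 := by
  decide +kernel

private def s3_10 : List ℕ := [28, 28, 27, 27, 27, 26, 26, 26, 26, 25, 25, 25, 25, 24, 24, 24, 23, 23, 23, 23, 22, 22, 22, 22,
  21, 21, 21, 20, 20, 20, 20, 19, 19, 19, 19, 18, 18, 18, 18, 17, 17, 17, 16, 16, 16, 16, 15, 15,
  15, 15, 14, 14, 14, 13, 13, 13, 13, 12, 12, 12, 12, 11, 11, 11, 10, 10, 10, 10, 9, 9, 9, 9, 8,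
  8, 8, 7, 7, 7, 7, 6, 6, 6, 6, 5, 5, 5, 5, 4, 4, 4, 3, 3, 3, 3, 2, 2, 2, 2, 2]

private theorem p3_10 : updK s3_9 (kapTab (hTab 411 512 99)) = s3_10 := by
  decide +kernel

private def s3_11 : List ℕ := [29, 29, 28, 28, 28, 27, 27, 27, 27, 26, 26, 26, 25, 25, 25, 25, 24, 24, 24, 23, 23, 23, 23, 22,
  22, 22, 22, 21, 21, 21, 20, 20, 20, 20, 19, 19, 19, 18, 18, 18, 18, 17, 17, 17, 16, 16, 16, 16,
  15, 15, 15, 14, 14, 14, 14, 13, 13, 13, 13, 12, 12, 12, 11, 11, 11, 11, 10, 10, 10, 9, 9, 9, 9,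
  8, 8, 8, 7, 7, 7, 7, 6, 6, 6, 5, 5, 5, 5, 4, 4, 4, 4, 3, 3, 3, 2, 2, 2, 2, 2]

private theorem p3_11 : updK s3_10 (kapTab (hTab 799 1024 99)) = s3_11 := by
  decide +kernel

private def s3_12 : List ℕ := [30, 30, 29, 29, 29, 28, 28, 28, 28, 27, 27, 27, 26, 26, 26, 25, 25, 25, 25, 24, 24, 24, 23, 23,
  23, 23, 22, 22, 22, 21, 21, 21, 21, 20, 20, 20, 19, 19, 19, 18, 18, 18, 18, 17, 17, 17, 16, 16,
  16, 16, 15, 15, 15, 14, 14, 14, 14, 13, 13, 13, 12, 12, 12, 11, 11, 11, 11, 10, 10, 10, 9, 9, 9,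
  9, 8, 8, 8, 7, 7, 7, 7, 6, 6, 6, 5, 5, 5, 4, 4, 4, 4, 3, 3, 3, 2, 2, 2, 2, 2]

private theorem p3_12 : updK s3_11 (kapTab (hTab 1551 2048 99)) = s3_12 := by
  decide +kernel

private def s3_13 : List ℕ := [31, 31, 30, 30, 30, 29, 29, 29, 28, 28, 28, 28, 27, 27, 27, 26, 26, 26, 25, 25, 25, 25, 24, 24,
  24, 23, 23, 23, 22, 22, 22, 22, 21, 21, 21, 20, 20, 20, 19, 19, 19, 18, 18, 18, 18, 17, 17, 17,
  16, 16, 16, 15, 15, 15, 15, 14, 14, 14, 13, 13, 13, 12, 12, 12, 12, 11, 11, 11, 10, 10, 10, 9,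
  9, 9, 9, 8, 8, 8, 7, 7, 7, 6, 6, 6, 6, 5, 5, 5, 4, 4, 4, 3, 3, 3, 3, 2, 2, 2, 2]

private theorem p3_13 : updK s3_12 (kapTab (hTab 1503 2048 99)) = s3_13 := by
  decide +kernel

private def s3_14 : List ℕ := [32, 32, 31, 31, 31, 30, 30, 30, 29, 29, 29, 28, 28, 28, 27, 27, 27, 27, 26, 26, 26, 25, 25, 25,
  24, 24, 24, 23, 23, 23, 23, 22, 22, 22, 21, 21, 21, 20, 20, 20, 19, 19, 19, 18, 18, 18, 18, 17,
  17, 17, 16, 16, 16, 15, 15, 15, 14, 14, 14, 13, 13, 13, 13, 12, 12, 12, 11, 11, 11, 10, 10, 10,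
  9, 9, 9, 8, 8, 8, 8, 7, 7, 7, 6, 6, 6, 5, 5, 5, 4, 4, 4, 3, 3, 3, 3, 2, 2, 2, 2]

private theorem p3_14 : updK s3_13 (kapTab (hTab 727 1024 99)) = s3_14 := by
  decide +kernel

private def s3_15 : List ℕ := [33, 33, 32, 32, 32, 31, 31, 31, 30, 30, 30, 29, 29, 29, 28, 28, 28, 27, 27, 27, 26, 26, 26, 25,
  25, 25, 24, 24, 24, 24, 23, 23, 23, 22, 22, 22, 21, 21, 21, 20, 20, 20, 19, 19, 19, 18, 18, 18,
  17, 17, 17, 16, 16, 16, 15, 15, 15, 15, 14, 14, 14, 13, 13, 13, 12, 12, 12, 11, 11, 11, 10, 10,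
  10, 9, 9, 9, 8, 8, 8, 7, 7, 7, 6, 6, 6, 6, 5, 5, 5, 4, 4, 4, 3, 3, 3, 2, 2, 2, 2]

private theorem p3_15 : updK s3_14 (kapTab (hTab 703 1024 99)) = s3_15 := by
  decide +kernel

private theorem p3_16 : updK s3_15 (kapTab (hTab 169 256 99)) = st3 := by
  decide +kernel

theorem numS3 : runPts pts3 st2 = st3 := by
  simp only [pts3, runPts, p3_1, p3_2, p3_3, p3_4, p3_5, p3_6, p3_7, p3_8, p3_9, p3_10, p3_11, p3_12, p3_13, p3_14, p3_15,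
  p3_16]

end RR
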