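import Pool.Agent.Lib.MP_31701c_co.States

/-! # kernel computation: the sign automaton, part 4 -/

set_option autoImplicit false
set_option maxRecDepth 1000000

namespace RR

private def s4_1 : List ℕ := [35, 35, 34, 34, 34, 33, 33, 33, 32, 32, 32, 31, 31, 30, 30, 30, 29, 29, 29, 28, 28, 28, 27, 27,
  27, 26, 26, 26, 25, 25, 25, 24, 24, 24, 23, 23, 23, 22, 22, 22, 21, 21, 21, 20, 20, 20, 19, 19,
  18, 18, 18, 17, 17, 17, 16, 16, 16, 15, 15, 15, 14, 14, 14, 13, 13, 13, 12, 12, 12, 11, 11, 11,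
  10, 10, 10, 9, 9, 9, 8, 8, 8, 7, 7, 6, 6, 6, 5, 5, 5, 4, 4, 4, 3, 3, 3, 2, 2, 2, 2]

private theorem p4_1 : updK st3 (kapTab (hTab 649 1024 99)) = s4_1 := by
  decide +kernel

private def s4_2 : List ℕ := [36, 36, 35, 35, 35, 34, 34, 33, 33, 33, 32, 32, 32, 31, 31, 31, 30, 30, 30, 29, 29, 29, 28, 28,
  27, 27, 27, 26, 26, 26, 25, 25, 25, 24, 24, 24, 23, 23, 23, 22, 22, 21, 21, 21, 20, 20, 20, 19,
  19, 19, 18, 18, 18, 17, 17, 17, 16, 16, 15, 15, 15, 14, 14, 14, 13, 13, 13, 12, 12, 12, 11, 11,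
  11, 10, 10, 9, 9, 9, 8, 8, 8, 7, 7, 7, 6, 6, 6, 5, 5, 5, 4, 4, 3, 3, 3, 2, 2, 2, 2]

private theorem p4_2 : updK s4_1 (kapTab (hTab 311 512 99)) = s4_2 := by
  decide +kernel

private def s4_3 : List ℕ := [37, 37, 36, 36, 35, 35, 35, 34, 34, 34, 33, 33, 33, 32, 32, 31, 31, 31, 30, 30, 30, 29, 29, 29,
  28, 28, 27, 27, 27, 26, 26, 26, 25, 25, 25, 24, 24, 23, 23, 23, 22, 22, 22, 21, 21, 21, 20, 20,
  20, 19, 19, 18, 18, 18, 17, 17, 17, 16, 16, 16, 15, 15, 14, 14, 14, 13, 13, 13, 12, 12, 12, 11,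
  11, 10, 10, 10, 9, 9, 9, 8, 8, 8, 7, 7, 6, 6, 6, 5, 5, 5, 4, 4, 4, 3, 3, 2, 2, 2, 2]

private theorem p4_3 : updK s4_2 (kapTab (hTab 595 1024 99)) = s4_3 := by
  decide +kernel

private def s4_4 : List ℕ := [38, 38, 37, 37, 36, 36, 36, 35, 35, 35, 34, 34, 33, 33, 33, 32, 32, 32, 31, 31, 30, 30, 30, 29,
  29, 29, 28, 28, 27, 27, 27, 26, 26, 26, 25, 25, 24, 24, 24, 23, 23, 23, 22, 22, 21, 21, 21, 20,
  20, 20, 19, 19, 19, 18, 18, 17, 17, 17, 16, 16, 16, 15, 15, 14, 14, 14, 13, 13, 13, 12, 12, 11,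
  11, 11, 10, 10, 10, 9, 9, 8, 8, 8, 7, 7, 7, 6, 6, 5, 5, 5, 4, 4, 4, 3, 3, 3, 2, 2, 2]

private theorem p4_4 : updK s4_3 (kapTab (hTab 71 128 99)) = s4_4 := by
  decide +kernel

private def s4_5 : List ℕ := [39, 39, 38, 38, 37, 37, 37, 36, 36, 35, 35, 35, 34, 34, 34, 33, 33, 32, 32, 32, 31, 31, 30, 30,
  30, 29, 29, 29, 28, 28, 27, 27, 27, 26, 26, 25, 25, 25, 24, 24, 24, 23, 23, 22, 22, 22, 21, 21,
  21, 20, 20, 19, 19, 19, 18, 18, 17, 17, 17, 16, 16, 16, 15, 15, 14, 14, 14, 13, 13, 12, 12, 12,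
  11, 11, 11, 10, 10, 9, 9, 9, 8, 8, 8, 7, 7, 6, 6, 6, 5, 5, 4, 4, 4, 3, 3, 3, 2, 2, 2]

private theorem p4_5 : updK s4_4 (kapTab (hTab 269 512 99)) = s4_5 := by
  decide +kernel

private def s4_6 : List ℕ := [40, 40, 39, 39, 38, 38, 38, 37, 37, 36, 36, 36, 35, 35, 34, 34, 34, 33, 33, 32, 32, 32, 31, 31,
  31, 30, 30, 29, 29, 29, 28, 28, 27, 27, 27, 26, 26, 25, 25, 25, 24, 24, 23, 23, 23, 22, 22, 21,
  21, 21, 20, 20, 19, 19, 19, 18, 18, 18, 17, 17, 16, 16, 16, 15, 15, 14, 14, 14, 13, 13, 12, 12,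
  12, 11, 11, 10, 10, 10, 9, 9, 8, 8, 8, 7, 7, 7, 6, 6, 5, 5, 5, 4, 4, 3, 3, 3, 2, 2, 2]

private theorem p4_6 : updK s4_5 (kapTab (hTab 505 1024 99)) = s4_6 := by
  decide +kernel

private def s4_7 : List ℕ := [41, 41, 40, 40, 39, 39, 39, 38, 38, 37, 37, 37, 36, 36, 35, 35, 34, 34, 34, 33, 33, 32, 32, 32,
  31, 31, 30, 30, 30, 29, 29, 28, 28, 28, 27, 27, 26, 26, 26, 25, 25, 24, 24, 24, 23, 23, 22, 22,
  22, 21, 21, 20, 20, 20, 19, 19, 18, 18, 18, 17, 17, 16, 16, 16, 15, 15, 14, 14, 14, 13, 13, 12,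
  12, 11, 11, 11, 10, 10, 9, 9, 9, 8, 8, 7, 7, 7, 6, 6, 5, 5, 5, 4, 4, 3, 3, 3, 2, 2, 2]

private theorem p4_7 : updK s4_6 (kapTab (hTab 59 128 99)) = s4_7 := by
  decide +kernel

private def s4_8 : List ℕ := [42, 42, 41, 41, 40, 40, 39, 39, 39, 38, 38, 37, 37, 37, 36, 36, 35, 35, 35, 34, 34, 33, 33, 32,
  32, 32, 31, 31, 30, 30, 30, 29, 29, 28, 28, 27, 27, 27, 26, 26, 25, 25, 25, 24, 24, 23, 23, 23,
  22, 22, 21, 21, 20, 20, 20, 19, 19, 18, 18, 18, 17, 17, 16, 16, 15, 15, 15, 14, 14, 13, 13, 13,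
  12, 12, 11, 11, 11, 10, 10, 9, 9, 8, 8, 8, 7, 7, 6, 6, 6, 5, 5, 4, 4, 3, 3, 3, 2, 2, 2]

private theorem p4_8 : updK s4_7 (kapTab (hTab 109 256 99)) = s4_8 := by
  decide +kernel

private def s4_9 : List ℕ := [43, 43, 42, 42, 41, 41, 40, 40, 40, 39, 39, 38, 38, 37, 37, 37, 36, 36, 35, 35, 35, 34, 34, 33,
  33, 32, 32, 32, 31, 31, 30, 30, 29, 29, 29, 28, 28, 27, 27, 26, 26, 26, 25, 25, 24, 24, 23, 23,
  23, 22, 22, 21, 21, 21, 20, 20, 19, 19, 18, 18, 18, 17, 17, 16, 16, 15, 15, 15, 14, 14, 13, 13,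
  12, 12, 12, 11, 11, 10, 10, 9, 9, 9, 8, 8, 7, 7, 7, 6, 6, 5, 5, 4, 4, 4, 3, 3, 2, 2, 2]

private theorem p4_9 : updK s4_8 (kapTab (hTab 397 1024 99)) = s4_9 := by
  decide +kernel

private def s4_10 : List ℕ := [44, 44, 43, 43, 42, 42, 41, 41, 40, 40, 40, 39, 39, 38, 38, 37, 37, 37, 36, 36, 35, 35, 34, 34,
  34, 33, 33, 32, 32, 31, 31, 30, 30, 30, 29, 29, 28, 28, 27, 27, 27, 26, 26, 25, 25, 24, 24, 24,
  23, 23, 22, 22, 21, 21, 21, 20, 20, 19, 19, 18, 18, 17, 17, 17, 16, 16, 15, 15, 14, 14, 14, 13,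
  13, 12, 12, 11, 11, 11, 10, 10, 9, 9, 8, 8, 8, 7, 7, 6, 6, 5, 5, 4, 4, 4, 3, 3, 2, 2, 2]

private theorem p4_10 : updK s4_9 (kapTab (hTab 179 512 99)) = s4_10 := by
  decide +kernel

private def s4_11 : List ℕ := [45, 45, 44, 44, 43, 43, 42, 42, 41, 41, 41, 40, 40, 39, 39, 38, 38, 37, 37, 37, 36, 36, 35, 35,
  34, 34, 33, 33, 33, 32, 32, 31, 31, 30, 30, 29, 29, 29, 28, 28, 27, 27, 26, 26, 25, 25, 25, 24,
  24, 23, 23, 22, 22, 21, 21, 21, 20, 20, 19, 19, 18, 18, 17, 17, 17, 16, 16, 15, 15, 14, 14, 13,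
  13, 13, 12, 12, 11, 11, 10, 10, 9, 9, 9, 8, 8, 7, 7, 6, 6, 5, 5, 5, 4, 4, 3, 3, 2, 2, 2]

private theorem p4_11 : updK s4_10 (kapTab (hTab 313 1024 99)) = s4_11 := by
  decide +kernel

private def s4_12 : List ℕ := [46, 46, 45, 45, 44, 44, 43, 43, 42, 42, 41, 41, 41, 40, 40, 39, 39, 38, 38, 37, 37, 36, 36, 36,
  35, 35, 34, 34, 33, 33, 32, 32, 31, 31, 31, 30, 30, 29, 29, 28, 28, 27, 27, 26, 26, 26, 25, 25,
  24, 24, 23, 23, 22, 22, 21, 21, 21, 20, 20, 19, 19, 18, 18, 17, 17, 16, 16, 16, 15, 15, 14, 14,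
  13, 13, 12, 12, 11, 11, 11, 10, 10, 9, 9, 8, 8, 7, 7, 6, 6, 6, 5, 5, 4, 4, 3, 3, 2, 2, 2]

private theorem p4_12 : updK s4_11 (kapTab (hTab 131 512 99)) = s4_12 := by
  decide +kernel

private def s4_13 : List ℕ := [47, 47, 46, 46, 45, 45, 44, 44, 43, 43, 42, 42, 41, 41, 41, 40, 40, 39, 39, 38, 38, 37, 37, 36,
  36, 35, 35, 34, 34, 34, 33, 33, 32, 32, 31, 31, 30, 30, 29, 29, 28, 28, 27, 27, 27, 26, 26, 25,
  25, 24, 24, 23, 23, 22, 22, 21, 21, 21, 20, 20, 19, 19, 18, 18, 17, 17, 16, 16, 15, 15, 14, 14,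
  14, 13, 13, 12, 12, 11, 11, 10, 10, 9, 9, 8, 8, 8, 7, 7, 6, 6, 5, 5, 4, 4, 3, 3, 2, 2, 2]

private theorem p4_13 : updK s4_12 (kapTab (hTab 13 64 99)) = s4_13 := by
  decide +kernel

private def s4_14 : List ℕ := [48, 48, 47, 47, 46, 46, 45, 45, 44, 44, 43, 43, 42, 42, 41, 41, 40, 40, 39, 39, 39, 38, 38, 37,
  37, 36, 36, 35, 35, 34, 34, 33, 33, 32, 32, 31, 31, 30, 30, 29, 29, 29, 28, 28, 27, 27, 26, 26,
  25, 25, 24, 24, 23, 23, 22, 22, 21, 21, 20, 20, 20, 19, 19, 18, 18, 17, 17, 16, 16, 15, 15, 14,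
  14, 13, 13, 12, 12, 11, 11, 10, 10, 10, 9, 9, 8, 8, 7, 7, 6, 6, 5, 5, 4, 4, 3, 3, 2, 2, 2]

private theorem p4_14 : updK s4_13 (kapTab (hTab 151 1024 99)) = s4_14 := by
  decide +kernel

private def s4_15 : List ℕ := [49, 49, 48, 48, 47, 47, 46, 46, 45, 45, 44, 44, 43, 43, 42, 42, 41, 41, 40, 40, 39, 39, 38, 38,
  37, 37, 36, 36, 35, 35, 34, 34, 34, 33, 33, 32, 32, 31, 31, 30, 30, 29, 29, 28, 28, 27, 27, 26,
  26, 25, 25, 24, 24, 23, 23, 22, 22, 21, 21, 20, 20, 19, 19, 18, 18, 17, 17, 17, 16, 16, 15, 15,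
  14, 14, 13, 13, 12, 12, 11, 11, 10, 10, 9, 9, 8, 8, 7, 7, 6, 6, 5, 5, 4, 4, 3, 3, 2, 2, 2]

private theorem p4_15 : updK s4_14 (kapTab (hTab 91 1024 99)) = s4_15 := by
  decide +kernel

private theorem p4_16 : updK s4_15 (kapTab (hTab 31 1024 99)) = st4 := by
  decide +kernel

theorem numS4 : runPts pts4 st3 = st4 := by
  simp only [pts4, runPts, p4_1, p4_2, p4_3, p4_4, p4_5, p4_6, p4_7, p4_8, p4_9, p4_10, p4_11, p4_12, p4_13, p4_14, p4_15,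
  p4_16]

theorem numSfin : finOK 99 st4 = true := by decide +kernel

end RR
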