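import Pool.Agent.Lib.MP_31701c_co.SoundK
import Pool.Agent.Lib.MP_31701c_co.NumS1
import Pool.Agent.Lib.MP_31701c_co.NumS2
import Pool.Agent.Lib.MP_31701c_co.NumS3
import Pool.Agent.Lib.MP_31701c_co.NumS4

/-!
# RR-SmallN : the sign pattern for `4 ≤ n ≤ 99`

The list `pts = pts1 ++ pts2 ++ pts3 ++ pts4` of pairs `(p, q)` has strictly decreasing values
`p/q ∈ (0,1)` (`decide`). For fixed `n` look at the component `99 - n` of the state: it starts with
`k = 2`; at a point `(p,q)` it is increased by `1` exactly when the entry `κ = -(n-1)! S_n(p/q) q^n` of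
`kapTab (hTab p q 99)` satisfies `κ < 0` (`k` even) resp. `κ > 0` (`k` odd), i.e. `0 < (-1)^k Sn (p/q) n`.
-/

set_option autoImplicit false

namespace RR

/-- the component of the automaton -/
private def SmallNrun (c : (ℕ × ℕ) → ℤ) : List (ℕ × ℕ) → ℕ → ℕ
  | [], k => k
  | pq :: r, k => SmallNrun c r (stp k (c pq))

private theorem SmallN_updK_length (a : List ℕ) (b : List ℤ) (h : a.length = b.length) :
    (updK a b).length = a.length := by
  induction a generalizing b with
  | nil => simp [updK]
  | cons x xs ih =>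
    cases b with
    | nil => simp at h
    | cons y ys =>
      simp only [updK, List.length_cons]
      rw [ih ys (by simpa using h)]

private theorem SmallN_updK_getD (a : List ℕ) (b : List ℤ) (h : a.length = b.length) (i : ℕ)
    (hi : i < a.length) : (updK a b).getD i 0 = stp (a.getD i 0) (b.getD i 0) := by
  induction a generalizing b i with
  | nil => simp at hi
  | cons x xs ih =>
    cases b with
    | nil => simp at h
    | cons y ys =>
      cases i with
      | zero => simp [updK]
      | succ i =>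
        simp only [updK, List.getD_cons_succ]
        exact ih ys (by simpa using h) i (by simpa using hi)

private theorem SmallN_run (L : List (ℕ × ℕ)) (st : List ℕ) (hst : st.length = 99) (i : ℕ)
    (hi : i < 99) : (runPts L st).getD i 0 =
      SmallNrun (fun pq => (kapTab (hTab pq.1 pq.2 99)).getD i 0) L (st.getD i 0) := by
  induction L generalizing st with
  | nil => rfl
  | cons pq r ih =>
    have hl : st.length = (kapTab (hTab pq.1 pq.2 99)).length := by rw [hst, kapTab_length]
    have h1 : (updK st (kapTab (hTab pq.1 pq.2 99))).length = 99 := by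
      rw [SmallN_updK_length _ _ hl, hst]
    show (runPts r (updK st (kapTab (hTab pq.1 pq.2 99)))).getD i 0 = _
    rw [ih _ h1, SmallN_updK_getD _ _ hl i (by omega)]
    rfl

private theorem SmallN_append (a b : List (ℕ × ℕ)) (st : List ℕ) :
    runPts (a ++ b) st = runPts b (runPts a st) := by
  induction a generalizing st with
  | nil => rfl
  | cons pq r ih => exact ih _

private theorem SmallN_finOK (n : ℕ) (st : List ℕ) (h : finOK n st = true) (i : ℕ)
    (hi : i < st.length) (h4 : 4 ≤ n - i) : (n - i) / 2 < st.getD i 0 := by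
  induction st generalizing n i with
  | nil => simp at hi
  | cons k ks ih =>
    simp only [finOK, Bool.and_eq_true, Bool.or_eq_true, decide_eq_true_eq] at h
    cases i with
    | zero =>
      rcases h.1 with h1 | h1
      · omega
      · simpa using h1
    | succ i =>
      rw [List.getD_cons_succ]
      have := ih (n - 1) h.2 i (by simpa using hi) (by omega)
      have e : n - 1 - i = n - (i + 1) := by omega
      rw [e] at this
      exact this

private noncomputable def SmallNval (pq : ℕ × ℕ) : ℝ := (pq.1 : ℝ) / pq.2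

private theorem SmallN_auto (n : ℕ) (c : (ℕ × ℕ) → ℤ) (L : List (ℕ × ℕ))
    (hs : L.Pairwise (fun a b => SmallNval b < SmallNval a))
    (he : ∀ pq ∈ L, ∀ k, stp k (c pq) = k ∨
      (stp k (c pq) = k + 1 ∧ 0 < (-1 : ℝ) ^ k * Sn (SmallNval pq) n)) (k : ℕ) :
    k ≤ SmallNrun c L k ∧ ∃ f : ℕ → ℝ,
      (∀ j, k ≤ j → j < SmallNrun c L k → (∃ pq ∈ L, f j = SmallNval pq) ∧
        0 < (-1 : ℝ) ^ j * Sn (f j) n) ∧
      (∀ j, k ≤ j → j + 1 < SmallNrun c L k → f (j + 1) < f j) := by
  induction L generalizing k with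
  | nil =>
    refine ⟨le_rfl, fun _ => 0, ?_, ?_⟩
    · intro j h1 h2
      exact absurd h2 (by simp only [SmallNrun]; omega)
    · intro j h1 h2
      exact absurd h2 (by simp only [SmallNrun]; omega)
  | cons pq r ih =>
    rw [List.pairwise_cons] at hs
    have ihr := ih hs.2 (fun x hx => he x (List.mem_cons_of_mem _ hx))
    have hrun : SmallNrun c (pq :: r) k = SmallNrun c r (stp k (c pq)) := rfl
    rcases he pq List.mem_cons_self k with h | ⟨h, hpos⟩
    · rw [hrun, h]
      obtain ⟨h1, f, h2, h3⟩ := ihr k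
      refine ⟨h1, f, fun j hj1 hj2 => ?_, h3⟩
      obtain ⟨⟨x, hx, hx2⟩, h5⟩ := h2 j hj1 hj2
      exact ⟨⟨x, List.mem_cons_of_mem _ hx, hx2⟩, h5⟩
    · rw [hrun, h]
      obtain ⟨h1, f, h2, h3⟩ := ihr (k + 1)
      refine ⟨by omega, fun j => if j = k then SmallNval pq else f j, ?_, ?_⟩
      · intro j hj1 hj2
        by_cases hjk : j = k
        · subst hjk
          simp only [if_true]
          exact ⟨⟨pq, List.mem_cons_self, rfl⟩, hpos⟩
        · simp only [if_neg hjk]
          obtain ⟨⟨x, hx, hx2⟩, h5⟩ := h2 j (by omega) hj2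
          exact ⟨⟨x, List.mem_cons_of_mem _ hx, hx2⟩, h5⟩
      · intro j hj1 hj2
        by_cases hjk : j = k
        · subst hjk
          have hne : ¬ (j + 1 = j) := by omega
          simp only [if_true, if_neg hne]
          obtain ⟨⟨x, hx, hx2⟩, _⟩ := h2 (j + 1) le_rfl hj2
          rw [hx2]
          exact hs.1 x hx
        · have hne : ¬ (j + 1 = k) := by omega
          simp only [if_neg hjk, if_neg hne]
          exact h3 j (by omega) hj2

private def SmallNpts : List (ℕ × ℕ) := pts1 ++ (pts2 ++ (pts3 ++ pts4))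

private theorem SmallN_ok : (SmallNpts.all fun pq => decide (0 < pq.1 ∧ pq.1 < pq.2)) = true := by
  decide +kernel

private def SmallNsorted : List (ℕ × ℕ) → Bool
  | [] => true
  | a :: r => (r.all fun b => decide (b.1 * a.2 < a.1 * b.2)) && SmallNsorted r

private theorem SmallN_sorted : SmallNsorted SmallNpts = true := by decide +kernel

private theorem SmallN_pairwise (L : List (ℕ × ℕ)) (h1 : ∀ pq ∈ L, 0 < pq.1 ∧ pq.1 < pq.2)
    (h : SmallNsorted L = true) : L.Pairwise (fun a b => SmallNval b < SmallNval a) := by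
  induction L with
  | nil => exact List.Pairwise.nil
  | cons a r ih =>
    simp only [SmallNsorted, Bool.and_eq_true, List.all_eq_true, decide_eq_true_eq] at h
    refine List.pairwise_cons.2 ⟨fun b hb => ?_, ih (fun x hx => h1 x (List.mem_cons_of_mem _ hx)) h.2⟩
    have h2 := h.1 b hb
    have ha := h1 a List.mem_cons_self
    have hb' := h1 b (List.mem_cons_of_mem _ hb)
    unfold SmallNval
    rw [div_lt_div_iff₀ (by exact_mod_cast (by omega : 0 < b.2))
      (by exact_mod_cast (by omega : 0 < a.2))]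
    exact_mod_cast h2

private theorem SmallN_pts : runPts SmallNpts st0 = st4 := by
  unfold SmallNpts
  rw [SmallN_append, numS1, SmallN_append, numS2, SmallN_append, numS3, numS4]

private theorem SmallN_step {n : ℕ} (h1 : 1 ≤ n) (h99 : n ≤ 99) (pq : ℕ × ℕ)
    (h : 0 < pq.1 ∧ pq.1 < pq.2) (k : ℕ) :
    stp k ((kapTab (hTab pq.1 pq.2 99)).getD (99 - n) 0) = k ∨
      (stp k ((kapTab (hTab pq.1 pq.2 99)).getD (99 - n) 0) = k + 1 ∧
        0 < (-1 : ℝ) ^ k * Sn (SmallNval pq) n) := by
  have hq : 0 < pq.2 := by omega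
  have hk := kapTab_real (p := pq.1) (q := pq.2) (M := 99) (n := n) hq h.2.le h1 h99
  set κ := (kapTab (hTab pq.1 pq.2 99)).getD (99 - n) 0 with hκ
  have hf : (0 : ℝ) < ((n - 1).factorial : ℝ) := by exact_mod_cast Nat.factorial_pos _
  have hqn : (0 : ℝ) < (pq.2 : ℝ) ^ n := by positivity
  have hv : SmallNval pq = (pq.1 : ℝ) / pq.2 := rfl
  rw [← hv] at hk
  unfold stp
  by_cases hk2 : k % 2 = 0
  · rw [if_pos hk2]
    by_cases hx : κ < 0
    · rw [if_pos hx]
      right
      refine ⟨rfl, ?_⟩
      have he : Even k := Nat.even_iff.2 hk2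
      rw [he.neg_one_pow, one_mul]
      have h3 : (κ : ℝ) < 0 := by exact_mod_cast hx
      rw [hk] at h3
      have h4 : 0 < ((n - 1).factorial : ℝ) * Sn (SmallNval pq) n * (pq.2 : ℝ) ^ n := by linarith
      have h5 := (mul_pos_iff_of_pos_right hqn).1 h4
      exact (mul_pos_iff_of_pos_left hf).1 h5
    · rw [if_neg hx]; left; rfl
  · rw [if_neg hk2]
    by_cases hx : 0 < κ
    · rw [if_pos hx]
      right
      refine ⟨rfl, ?_⟩
      have ho : Odd k := Nat.odd_iff.2 (by omega)
      rw [ho.neg_one_pow]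
      have h3 : (0 : ℝ) < (κ : ℝ) := by exact_mod_cast hx
      rw [hk] at h3
      have h4 : 0 < ((n - 1).factorial : ℝ) * (-1 * Sn (SmallNval pq) n) * (pq.2 : ℝ) ^ n := by
        linarith
      have h5 := (mul_pos_iff_of_pos_right hqn).1 h4
      exact (mul_pos_iff_of_pos_left hf).1 h5
    · rw [if_neg hx]; left; rfl

theorem signs_small {n : ℕ} (h4 : 4 ≤ n) (h99 : n ≤ 99) : Signs n := by
  have hall : ∀ pq ∈ SmallNpts, 0 < pq.1 ∧ pq.1 < pq.2 := by
    intro pq hpq
    have := List.all_eq_true.1 SmallN_ok pq hpq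
    exact of_decide_eq_true this
  have hst : st4.length = 99 := by decide
  have h0 : st0.length = 99 := by decide
  have h00 : st0.getD (99 - n) 0 = 2 := by
    unfold st0
    rw [List.getD_eq_getElem _ _ (by rw [List.length_replicate]; omega), List.getElem_replicate]
  have hK : SmallNrun (fun pq => (kapTab (hTab pq.1 pq.2 99)).getD (99 - n) 0) SmallNpts 2 =
      st4.getD (99 - n) 0 := by
    rw [← SmallN_pts, SmallN_run SmallNpts st0 h0 (99 - n) (by omega), h00]
  have hlt : 99 - n < st4.length := by rw [hst]; omega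
  have hge : 4 ≤ 99 - (99 - n) := by omega
  have hfin := SmallN_finOK 99 st4 numSfin (99 - n) hlt hge
  have e : 99 - (99 - n) = n := by omega
  rw [e] at hfin
  obtain ⟨_, f, h2, h3⟩ := SmallN_auto n
    (fun pq => (kapTab (hTab pq.1 pq.2 99)).getD (99 - n) 0) SmallNpts
    (SmallN_pairwise _ hall SmallN_sorted)
    (fun pq hpq k => SmallN_step (by omega) h99 pq (hall pq hpq) k) 2
  rw [hK] at h2 h3
  refine ⟨f, fun k hk1 hk2 => ?_, fun k hk1 hk2 => h3 k hk1 (by omega),
    fun k hk1 hk2 => (h2 k hk1 (by omega)).2⟩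
  obtain ⟨⟨pq, hpq, he⟩, _⟩ := h2 k hk1 (by omega)
  have := hall pq hpq
  have hq : (0 : ℝ) < (pq.2 : ℝ) := by exact_mod_cast (by omega : 0 < pq.2)
  have hp : (0 : ℝ) < (pq.1 : ℝ) := by exact_mod_cast this.1
  rw [he]
  unfold SmallNval
  refine ⟨div_pos hp hq, ?_⟩
  rw [div_lt_one hq]
  exact_mod_cast this.2

end RR
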