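import Pool.Agent.Lib.MP_31701c_co.RealRooted
import Pool.Agent.Lib.MP_31701c_co.Final
import Pool.Agent.Lib.MP_31701c_co.SmallN

/-!
# MP_31701c_co : assembly
-/

set_option autoImplicit false

namespace RR

open Polynomial

theorem real_rooted {n : ℕ} (hn : 1 ≤ n) :
    A n ≠ 0 ∧ ∀ z : ℂ, aeval z (A n) = 0 → z.im = 0 := by
  rcases Nat.lt_or_ge 3 n with h | h
  · rcases Nat.lt_or_ge 99 n with h2 | h2
    · exact real_of_signs h (signs_large h2)
    · exact real_of_signs h (signs_small h h2)
  · exact real_small hn h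

end RR
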