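import Pool.Agent.Lib.MP_31701c_co.Parts

/-!
# RR-PartsM : moments of the weight `sin²/QQ` outside `[0, thc]`

`part3`: on `[π/2, π]`, `t = tt e θ ∈ [e-2, e]`, so `|t| ≤ 2 - e ≤ 1.001` (`e ≥ 0.999875`), `QQ ≥ (3/4)e²t²`, so
`|t|^m/QQ ≤ (4/(3e²)) 1.001^{m-2}` for `m ≥ 2` (for `t = 0` both sides fine); `(2/π) ∫_{π/2}^π sin² = 1/2`; total
`≤ 0.667·1.001^{m-2} ≤ 0.8·1.001^m`.
`part4`: on `[thc, π/2]`, `0 < e ≤ t ≤ e + 0.8 ≤ 1.8`, `QQ ≥ e²t²`, `t^m/QQ ≤ e^{-2} 1.8^{m-2}`;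
`(2/π) ∫_{thc}^{π/2} sin² = (2/π) ((π/2 - thc)/2 + (sin (2 thc))/4) ≤ 0.25` (true value `0.2477`; from
`sin (2 thc) = 2·(2/5)·(√21/5) ≤ 0.7333` and `thc ≥ 1.156`, i.e. `cos 1.156 ≥ 0.4`); total
`≤ 0.25·1.0003/3.24·1.8^m ≤ 0.08·1.8^m`.
-/

set_option autoImplicit false

namespace RR

private theorem pmTwoPi : (0 : ℝ) < 2 / Real.pi := by positivity

private theorem pmE9 {e : ℝ} (h9 : e9 ≤ e) : 0.999875 ≤ e := by
  unfold e9 at h9
  exact h9

private theorem pmQ_nonneg (e t : ℝ) : 0 ≤ QQ e t := le_trans (by positivity) (QQ_ge e t)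

private theorem pmRatio {e : ℝ} (he : 0 < e) (t : ℝ) : t ^ 2 / QQ e t ≤ 4 / (3 * e ^ 2) := by
  refine div_le_of_le_mul₀ (pmQ_nonneg e t) (by positivity) ?_
  have h := QQ_ge e t
  rw [div_mul_eq_mul_div, le_div_iff₀ (by positivity)]
  nlinarith

private theorem pmRatio' {e : ℝ} (he : 0 < e) (he1 : e ≤ 1) {t : ℝ} (ht : 0 ≤ t) :
    t ^ 2 / QQ e t ≤ 1 / e ^ 2 := by
  refine div_le_of_le_mul₀ (pmQ_nonneg e t) (by positivity) ?_
  have h := QQ_ge_of_nonneg he.le he1 ht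
  rw [div_mul_eq_mul_div, le_div_iff₀ (by positivity)]
  linarith

/-- the pointwise bound -/
private theorem pmPoint {e t c r s : ℝ} (hr : t ^ 2 / QQ e t ≤ r) (hr0 : 0 ≤ r) (hc : |t| ≤ c) (hs : 0 ≤ s) (k : ℕ) :
    |t| ^ (k + 2) * (s / QQ e t) ≤ r * c ^ k * s := by
  have h1 : |t| ^ (k + 2) * (s / QQ e t) = (t ^ 2 / QQ e t) * |t| ^ k * s := by
    rw [pow_add, sq_abs]
    ring
  rw [h1]
  refine mul_le_mul_of_nonneg_right ?_ hs
  exact mul_le_mul hr (pow_le_pow_left₀ (abs_nonneg t) hc k) (by positivity) hr0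

private theorem pmCont {e : ℝ} (h0 : 0 ≤ e) (h1 : e < 1) (m : ℕ) :
    Continuous fun θ => |tt e θ| ^ m * (Real.sin θ ^ 2 / QQ e (tt e θ)) := by
  have h := continuous_sinQQ h0 h1
  have h2 : Continuous (tt e) := by unfold tt; fun_prop
  fun_prop

theorem part3 {e : ℝ} (h9 : e9 ≤ e) (h1 : e < 1) {m : ℕ} (hm : 2 ≤ m) :
    2 / Real.pi * ∫ θ in (Real.pi / 2)..Real.pi,
      |tt e θ| ^ m * (Real.sin θ ^ 2 / QQ e (tt e θ)) ≤ 0.8 * 1.001 ^ m := by
  obtain ⟨k, rfl⟩ : ∃ k, m = k + 2 := ⟨m - 2, by omega⟩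
  have he := pmE9 h9
  have he0 : 0 < e := by linarith
  have hpi := Real.pi_pos
  have h2 : ∫ θ in (Real.pi / 2)..Real.pi, |tt e θ| ^ (k + 2) * (Real.sin θ ^ 2 / QQ e (tt e θ)) ≤
      ∫ θ in (Real.pi / 2)..Real.pi, 4 / (3 * e ^ 2) * 1.001 ^ k * Real.sin θ ^ 2 := by
    refine intervalIntegral.integral_mono_on (by linarith) ((pmCont he0.le h1 _).intervalIntegrable _ _)
      (by apply Continuous.intervalIntegrable; fun_prop) ?_
    intro θ hθ
    refine pmPoint (pmRatio he0 _) (by positivity) ?_ (sq_nonneg _) k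
    have h3 : Real.cos θ ≤ 0 := Real.cos_nonpos_of_pi_div_two_le_of_le hθ.1 (by linarith [hθ.2])
    have h4 := Real.neg_one_le_cos θ
    unfold tt
    rw [abs_le]
    constructor <;> linarith
  rw [intervalIntegral.integral_const_mul, integral_sin_sq, Real.sin_pi, Real.cos_pi_div_two] at h2
  have h3 : 2 / Real.pi * ((Real.sin (Real.pi / 2) * 0 - 0 * Real.cos Real.pi + Real.pi - Real.pi / 2) / 2) = 1 / 2 := by
    field_simp
    ring
  have h4 := mul_le_mul_of_nonneg_left h2 pmTwoPi.le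
  refine h4.trans ?_
  have h5 : 2 / Real.pi * (4 / (3 * e ^ 2) * 1.001 ^ k *
      ((Real.sin (Real.pi / 2) * 0 - 0 * Real.cos Real.pi + Real.pi - Real.pi / 2) / 2)) =
      4 / (3 * e ^ 2) * 1.001 ^ k * (1 / 2) := by
    rw [← h3]; ring
  rw [h5, pow_add]
  have h6 : 4 / (3 * e ^ 2) ≤ 1.6 := by
    rw [div_le_iff₀ (by positivity)]
    nlinarith
  have h7 : (0 : ℝ) < 1.001 ^ k := by positivity
  nlinarith

private theorem pmArcsin : Real.pi / 2 - thc ≤ 0.4186 := by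
  by_contra hcon
  push Not at hcon
  have h1 : Real.sin (Real.pi / 2 - thc) = 2 / 5 := by rw [Real.sin_pi_div_two_sub, cos_thc]
  have h2 := Real.sin_gt_sub_cube (x := 0.4186) (by norm_num)
  have h3 : Real.sin 0.4186 < Real.sin (Real.pi / 2 - thc) := by
    refine Real.sin_lt_sin_of_lt_of_le_pi_div_two ?_ ?_ hcon
    · have := Real.pi_gt_three
      linarith
    · linarith [thc_pos]
  rw [h1] at h3
  norm_num at h2
  linarith

theorem part4 {e : ℝ} (h9 : e9 ≤ e) (h1 : e < 1) {m : ℕ} (hm : 2 ≤ m) :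
    2 / Real.pi * ∫ θ in thc..(Real.pi / 2),
      |tt e θ| ^ m * (Real.sin θ ^ 2 / QQ e (tt e θ)) ≤ 0.08 * 1.8 ^ m := by
  obtain ⟨k, rfl⟩ : ∃ k, m = k + 2 := ⟨m - 2, by omega⟩
  have he := pmE9 h9
  have he0 : 0 < e := by linarith
  have hpi := Real.pi_pos
  have h2 : ∫ θ in thc..(Real.pi / 2), |tt e θ| ^ (k + 2) * (Real.sin θ ^ 2 / QQ e (tt e θ)) ≤
      ∫ θ in thc..(Real.pi / 2), 1 / e ^ 2 * 1.8 ^ k * Real.sin θ ^ 2 := by
    refine intervalIntegral.integral_mono_on thc_lt.le ((pmCont he0.le h1 _).intervalIntegrable _ _)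
      (by apply Continuous.intervalIntegrable; fun_prop) ?_
    intro θ hθ
    have h3 : 0 ≤ Real.cos θ := Real.cos_nonneg_of_neg_pi_div_two_le_of_le
      (by linarith [hθ.1, thc_pos]) hθ.2
    have h4 : Real.cos θ ≤ 2 / 5 := by
      rw [← cos_thc]
      exact Real.cos_le_cos_of_nonneg_of_le_pi thc_pos.le (by linarith [hθ.2]) hθ.1
    have h5 : 0 ≤ tt e θ := by unfold tt; linarith
    refine pmPoint (pmRatio' he0 h1.le h5) (by positivity) ?_ (sq_nonneg _) k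
    rw [abs_of_nonneg h5]
    unfold tt
    linarith
  rw [intervalIntegral.integral_const_mul, integral_sin_sq, Real.sin_pi_div_two, Real.cos_pi_div_two, cos_thc] at h2
  have hs : Real.sin thc ≤ 0.916516 := by
    have h3 := Real.sin_sq_add_cos_sq thc
    rw [cos_thc] at h3
    have h4 : 0 ≤ Real.sin thc := Real.sin_nonneg_of_nonneg_of_le_pi thc_pos.le (by linarith [thc_lt])
    nlinarith
  have ha := pmArcsin
  have hq : 2 / Real.pi * ((Real.sin thc * (2 / 5) - 1 * 0 + Real.pi / 2 - thc) / 2) ≤ 0.25 := by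
    rw [div_mul_eq_mul_div, div_le_iff₀ hpi]
    have := Real.pi_gt_d6
    linarith
  have h4 := mul_le_mul_of_nonneg_left h2 pmTwoPi.le
  refine h4.trans ?_
  have h5 : 2 / Real.pi * (1 / e ^ 2 * 1.8 ^ k * ((Real.sin thc * (2 / 5) - 1 * 0 + Real.pi / 2 - thc) / 2)) =
      1 / e ^ 2 * 1.8 ^ k * (2 / Real.pi * ((Real.sin thc * (2 / 5) - 1 * 0 + Real.pi / 2 - thc) / 2)) := by
    ring
  rw [h5, pow_add]
  have h6 : 1 / e ^ 2 ≤ 1.0003 := by
    rw [div_le_iff₀ (by positivity)]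
    nlinarith
  have h7 : (0 : ℝ) < 1.8 ^ k := by positivity
  calc 1 / e ^ 2 * 1.8 ^ k * (2 / Real.pi * ((Real.sin thc * (2 / 5) - 1 * 0 + Real.pi / 2 - thc) / 2))
      ≤ 1 / e ^ 2 * 1.8 ^ k * 0.25 := mul_le_mul_of_nonneg_left hq (by positivity)
    _ ≤ 1.0003 * 1.8 ^ k * 0.25 := by
        refine mul_le_mul_of_nonneg_right (mul_le_mul_of_nonneg_right h6 h7.le) (by norm_num)
    _ ≤ 0.08 * (1.8 ^ k * 1.8 ^ 2) := by nlinarith

end RR
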