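import Pool.Agent.Lib.MP_31701c_co.Nu
import Pool.Agent.Lib.MP_31701c_co.PartsM

/-!
# RR-MomCmp : the moments `xm` against the measure `nu e`

For `m ≥ 2`, `xm e m = (2/π)∫_0^π t^m s` (`xm_integral`), `s = sin²/QQ`, and
`∫ t^m d(nu e) = (2/π) ∫_0^{thc} wt t^m` (`nu_integral`). On `[0,thc]`: `wt ≤ s ≤ (1 + 1.7β) wt` (`wt_cmp`), `t ≥ 0`.
On `[thc, π/2]`, `[π/2, π]`: `part4`, `part3`. For `m = 0, 1`: `xm = 0` and `∫ t^m d(nu) ≤ 0.8`
(`nu_mom_le`), `0.8·1.001^m + 0.08·1.8^m ≥ 0.8`.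
-/

set_option autoImplicit false

namespace RR

open MeasureTheory

theorem mom_cmp {e : ℝ} (h9 : e9 ≤ e) (h1 : e < 1) (m : ℕ) :
    |xm e m - ∫ t, t ^ m ∂(nu e)| ≤
      1.7 * (1 - e ^ 2) * (∫ t, t ^ m ∂(nu e)) + 0.08 * 1.8 ^ m + 0.8 * 1.001 ^ m := by
  have he0 : 0 < e := by
    have : (0:ℝ) < e9 := by unfold e9; norm_num
    linarith
  have hβ : 0 ≤ 1 - e ^ 2 := by nlinarith
  have hM0 : 0 ≤ ∫ t, t ^ m ∂(nu e) := nu_mom_nonneg h9 h1 m
  rcases lt_or_ge m 2 with hm | hm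
  · have hx : xm e m = 0 := by
      have : m = 0 ∨ m = 1 := by omega
      rcases this with h | h
      · subst h; simp [xm]
      · subst h; exact xm_one e
    have hle := nu_mom_le h9 h1 (m := m) (by omega)
    rw [hx, zero_sub, abs_neg, abs_of_nonneg hM0]
    have h2 : (1:ℝ) ≤ 1.001 ^ m := one_le_pow₀ (by norm_num)
    have h3 : (0:ℝ) ≤ 0.08 * 1.8 ^ m := by positivity
    have h4 : 0 ≤ 1.7 * (1 - e ^ 2) * (∫ t, t ^ m ∂(nu e)) := by positivity
    have h5 : (0.8:ℝ) * 1 ≤ 0.8 * 1.001 ^ m := mul_le_mul_of_nonneg_left h2 (by norm_num)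
    linarith
  · have hcs := continuous_sinQQ he0.le h1
    have hct : Continuous (tt e) := by unfold tt; fun_prop
    have hcts : Continuous fun θ => tt e θ ^ m * (Real.sin θ ^ 2 / QQ e (tt e θ)) :=
      (hct.pow m).mul hcs
    have hcta : Continuous fun θ => |tt e θ| ^ m * (Real.sin θ ^ 2 / QQ e (tt e θ)) :=
      (hct.abs.pow m).mul hcs
    have hpi : 0 < 2 / Real.pi := by positivity
    have hthc0 := thc_pos
    have hthc1 := thc_lt
    have hs0 : ∀ θ, 0 ≤ Real.sin θ ^ 2 / QQ e (tt e θ) := fun θ =>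
      div_nonneg (sq_nonneg _) (QQ_pos he0.le h1 _).le
    -- split
    have hsplit : xm e m = 2 / Real.pi *
        (∫ θ in (0:ℝ)..thc, tt e θ ^ m * (Real.sin θ ^ 2 / QQ e (tt e θ))) +
        2 / Real.pi *
        (∫ θ in thc..(Real.pi / 2), tt e θ ^ m * (Real.sin θ ^ 2 / QQ e (tt e θ))) +
        2 / Real.pi *
        (∫ θ in (Real.pi / 2)..Real.pi, tt e θ ^ m * (Real.sin θ ^ 2 / QQ e (tt e θ))) := by
      rw [xm_integral he0.le h1 (by omega), ← mul_add, ← mul_add,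
        intervalIntegral.integral_add_adjacent_intervals (hcts.intervalIntegrable _ _)
          (hcts.intervalIntegrable _ _),
        intervalIntegral.integral_add_adjacent_intervals (hcts.intervalIntegrable _ _)
          (hcts.intervalIntegrable _ _)]
    have hnu := nu_integral e (f := fun t => t ^ m) (by fun_prop)
    have hwi : IntervalIntegrable (fun θ => wt θ * tt e θ ^ m) volume 0 thc :=
      intervalIntegrable_wt (f := fun θ => tt e θ ^ m) (hct.pow m)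
    -- outer parts
    have habs : ∀ a b : ℝ, a ≤ b →
        |2 / Real.pi * ∫ θ in a..b, tt e θ ^ m * (Real.sin θ ^ 2 / QQ e (tt e θ))| ≤
        2 / Real.pi * ∫ θ in a..b, |tt e θ| ^ m * (Real.sin θ ^ 2 / QQ e (tt e θ)) := by
      intro a b hab
      rw [abs_mul, abs_of_pos hpi]
      apply mul_le_mul_of_nonneg_left _ hpi.le
      refine (intervalIntegral.abs_integral_le_integral_abs hab).trans (le_of_eq ?_)
      apply intervalIntegral.integral_congr
      intro θ _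
      simp only
      rw [abs_mul, abs_pow, abs_of_nonneg (hs0 θ)]
    have hp3 := (habs _ _ (by linarith : Real.pi / 2 ≤ Real.pi)).trans (part3 h9 h1 hm)
    have hp4 := (habs _ _ hthc1.le).trans (part4 h9 h1 hm)
    -- inner part
    have ht0 : ∀ θ, 0 ≤ θ → θ ≤ thc → 0 ≤ tt e θ := by
      intro θ h0 hθ
      have := le_cos_of_le_thc h0 hθ
      unfold tt
      linarith
    have hlo : 2 / Real.pi * (∫ θ in (0:ℝ)..thc, wt θ * tt e θ ^ m) ≤ 2 / Real.pi *
        (∫ θ in (0:ℝ)..thc, tt e θ ^ m * (Real.sin θ ^ 2 / QQ e (tt e θ))) := by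
      apply mul_le_mul_of_nonneg_left _ hpi.le
      apply intervalIntegral.integral_mono_on hthc0.le hwi (hcts.intervalIntegrable _ _)
      intro θ hθ
      have h2 := (wt_cmp h9 h1 hθ.1 hθ.2).1
      have h3 := pow_nonneg (ht0 θ hθ.1 hθ.2) m
      rw [mul_comm]
      exact mul_le_mul_of_nonneg_left h2 h3
    have hhi : 2 / Real.pi *
        (∫ θ in (0:ℝ)..thc, tt e θ ^ m * (Real.sin θ ^ 2 / QQ e (tt e θ))) ≤
        (1 + 1.7 * (1 - e ^ 2)) * (2 / Real.pi * (∫ θ in (0:ℝ)..thc, wt θ * tt e θ ^ m)) := by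
      have h2 : ∫ θ in (0:ℝ)..thc, tt e θ ^ m * (Real.sin θ ^ 2 / QQ e (tt e θ)) ≤
          ∫ θ in (0:ℝ)..thc, (1 + 1.7 * (1 - e ^ 2)) * (wt θ * tt e θ ^ m) := by
        apply intervalIntegral.integral_mono_on hthc0.le (hcts.intervalIntegrable _ _)
          (hwi.const_mul _)
        intro θ hθ
        have h2 := (wt_cmp h9 h1 hθ.1 hθ.2).2
        have h3 := pow_nonneg (ht0 θ hθ.1 hθ.2) m
        calc tt e θ ^ m * (Real.sin θ ^ 2 / QQ e (tt e θ))
            ≤ tt e θ ^ m * ((1 + 1.7 * (1 - e ^ 2)) * wt θ) :=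
              mul_le_mul_of_nonneg_left h2 h3
          _ = _ := by ring
      rw [intervalIntegral.integral_const_mul] at h2
      calc _ ≤ 2 / Real.pi * ((1 + 1.7 * (1 - e ^ 2)) *
              ∫ θ in (0:ℝ)..thc, wt θ * tt e θ ^ m) := mul_le_mul_of_nonneg_left h2 hpi.le
        _ = _ := by ring
    rw [← hnu] at hlo hhi
    rw [hsplit]
    set M := ∫ t, t ^ m ∂(nu e)
    set P1 := 2 / Real.pi *
        (∫ θ in (0:ℝ)..thc, tt e θ ^ m * (Real.sin θ ^ 2 / QQ e (tt e θ)))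
    set P2 := 2 / Real.pi *
        (∫ θ in thc..(Real.pi / 2), tt e θ ^ m * (Real.sin θ ^ 2 / QQ e (tt e θ)))
    set P3 := 2 / Real.pi *
        (∫ θ in (Real.pi / 2)..Real.pi, tt e θ ^ m * (Real.sin θ ^ 2 / QQ e (tt e θ)))
    have a3 := abs_le.mp hp3
    have a4 := abs_le.mp hp4
    have e1 : (1 + 1.7 * (1 - e ^ 2)) * M = M + 1.7 * (1 - e ^ 2) * M := by ring
    rw [e1] at hhi
    have h4 : 0 ≤ 1.7 * (1 - e ^ 2) * M := by positivity
    rw [abs_le]
    constructor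
    · linarith [a3.1, a4.1]
    · linarith [a3.2, a4.2]

end RR
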