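import Pool.Agent.Lib.MP_31701c_co.KComplex

/-!
# RR-Nu : the measure `nu e`

`nu e` is the push forward under `θ ↦ t = e + 2cos θ` of `(2/π) w(θ) dθ` on `[0, thc]` (`Defs`):
`∫ f d(nu e) = (2/π) ∫_0^{thc} w(θ) f(tt e θ) dθ` for continuous `f` (`integral_map`,
`integral_withDensity_eq_integral_toReal_smul` or similar, `wt` measurable and `≥ 0`,
`intervalIntegral.integral_of_le`). It is finite (`wt` is bounded on `[0,thc]`) and lives on
`[e + 0.8, 2 + e] ⊆ [0, 3]`. `∫ e^{rt} d(nu) = kk e r` (`t = (2+e) - yy θ`), and with `T = 2 + e`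
`∫ (T-t)^j e^{rt} d(nu) = e^{Tr} KK j r`; `3 - t = (1-e) + yy θ`, so `m1 = (1-e) + mm r` and
`E (3-t)² = (1-e)² + 2(1-e) mm r + KK 2 r/KK 0 r = ((1-e) + mm r)² + VV r`.
-/

set_option autoImplicit false

namespace RR

open MeasureTheory

private theorem nu_measurable_wt : Measurable wt := by
  unfold wt
  exact (Real.measurable_sin.pow_const 2).div
    ((measurable_const.add (measurable_const.mul Real.measurable_cos)).pow_const 2)

private theorem nu_continuous_tt (e : ℝ) : Continuous (tt e) := by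
  unfold tt
  exact continuous_const.add (continuous_const.mul Real.continuous_cos)

private theorem nu_continuous_yy : Continuous yy :=
  continuous_const.sub (continuous_const.mul Real.continuous_cos)

private theorem nu_dens_nonneg (θ : ℝ) : 0 ≤ 2 / Real.pi * wt θ :=
  mul_nonneg (div_nonneg (by norm_num) Real.pi_pos.le) (wt_nonneg θ)

private theorem nu_integrable :
    Integrable (fun θ => 2 / Real.pi * wt θ) (volume.restrict (Set.Icc 0 thc)) := by
  have h : ContinuousOn (fun θ => 2 / Real.pi * wt θ) (Set.Icc 0 thc) :=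
    continuousOn_const.mul continuousOn_wt
  exact h.integrableOn_Icc

private instance nu_fin0 : IsFiniteMeasure ((volume.restrict (Set.Icc 0 thc)).withDensity
    (fun θ => ENNReal.ofReal (2 / Real.pi * wt θ))) :=
  isFiniteMeasure_withDensity_ofReal nu_integrable.2

instance instFiniteNu (e : ℝ) : IsFiniteMeasure (nu e) := by
  unfold nu
  infer_instance

theorem nu_ae {e : ℝ} (h9 : e9 ≤ e) (h1 : e < 1) : ∀ᵐ t ∂(nu e), 0 ≤ t ∧ t ≤ 3 := by
  have he : 0 < e := by
    have h := h9
    unfold e9 at h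
    linarith
  unfold nu
  have hms : MeasurableSet {t : ℝ | 0 ≤ t ∧ t ≤ 3} := measurableSet_Icc
  rw [ae_map_iff (nu_continuous_tt e).measurable.aemeasurable hms]
  have hae : ∀ᵐ θ ∂(volume.restrict (Set.Icc 0 thc)), 0 ≤ tt e θ ∧ tt e θ ≤ 3 := by
    rw [ae_restrict_iff' measurableSet_Icc]
    refine Filter.Eventually.of_forall fun θ hθ => ?_
    have h2 := le_cos_of_le_thc hθ.1 hθ.2
    have h3 := Real.cos_le_one θ
    unfold tt
    constructor <;> linarith
  exact (withDensity_absolutelyContinuous _ _).ae_le hae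

theorem nu_integral (e : ℝ) {f : ℝ → ℝ} (hf : Continuous f) :
    ∫ t, f t ∂(nu e) = 2 / Real.pi * ∫ θ in (0:ℝ)..thc, wt θ * f (tt e θ) := by
  unfold nu
  rw [integral_map (nu_continuous_tt e).measurable.aemeasurable
    hf.aestronglyMeasurable]
  have hmeas : Measurable (fun θ => ENNReal.ofReal (2 / Real.pi * wt θ)) :=
    ENNReal.measurable_ofReal.comp (measurable_const.mul nu_measurable_wt)
  rw [integral_withDensity_eq_integral_toReal_smul hmeas
    (Filter.Eventually.of_forall fun θ => ENNReal.ofReal_lt_top)]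
  rw [intervalIntegral.integral_of_le thc_pos.le, ← integral_Icc_eq_integral_Ioc,
    ← MeasureTheory.integral_const_mul]
  refine integral_congr_ae (Filter.Eventually.of_forall fun θ => ?_)
  change (ENNReal.ofReal (2 / Real.pi * wt θ)).toReal • f (tt e θ) =
    2 / Real.pi * (wt θ * f (tt e θ))
  rw [ENNReal.toReal_ofReal (nu_dens_nonneg θ), smul_eq_mul, mul_assoc]

private theorem nu_tt_eq (e θ : ℝ) : tt e θ = (2 + e) - yy θ := by
  unfold tt yy
  ring

private theorem nu_exp_tt (e r θ : ℝ) :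
    Real.exp (r * tt e θ) = Real.exp ((2 + e) * r) * Real.exp (-(yy θ * r)) := by
  rw [← Real.exp_add, nu_tt_eq]
  congr 1
  ring

private theorem nu_KK (e r : ℝ) (j : ℕ) :
    2 / Real.pi * ∫ θ in (0:ℝ)..thc, wt θ * (yy θ ^ j * Real.exp (r * tt e θ)) =
      Real.exp ((2 + e) * r) * KK j r := by
  unfold KK
  rw [mul_left_comm (Real.exp ((2 + e) * r)),
    ← intervalIntegral.integral_const_mul (Real.exp ((2 + e) * r))]
  congr 1
  refine intervalIntegral.integral_congr fun θ _ => ?_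
  change wt θ * (yy θ ^ j * Real.exp (r * tt e θ)) =
    Real.exp ((2 + e) * r) * (yy θ ^ j * wt θ * Real.exp (-(yy θ * r)))
  rw [nu_exp_tt]
  ring

private theorem nu_int (e r : ℝ) (j : ℕ) :
    IntervalIntegrable (fun θ => wt θ * (yy θ ^ j * Real.exp (r * tt e θ))) volume 0 thc :=
  intervalIntegrable_wt ((nu_continuous_yy.pow j).mul
    (Real.continuous_exp.comp (continuous_const.mul (nu_continuous_tt e))))

theorem nu_exp (e r : ℝ) : ∫ t, Real.exp (r * t) ∂(nu e) = kk e r := by
  rw [nu_integral e (f := fun t => Real.exp (r * t)) (by fun_prop)]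
  have h := nu_KK e r 0
  unfold kk
  rw [← h]
  congr 1
  refine intervalIntegral.integral_congr fun θ _ => ?_
  change wt θ * Real.exp (r * tt e θ) = wt θ * (yy θ ^ 0 * Real.exp (r * tt e θ))
  ring

private theorem nu_kk_pos (e r : ℝ) : 0 < kk e r := mul_pos (Real.exp_pos _) (KK_pos 0 r)

theorem nu_m1 (e r : ℝ) :
    (∫ t, (3 - t) * Real.exp (r * t) ∂(nu e)) / kk e r = (1 - e) + mm r := by
  rw [nu_integral e (f := fun t => (3 - t) * Real.exp (r * t)) (by fun_prop)]
  have h0 := nu_KK e r 0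
  have h1 := nu_KK e r 1
  have hK := KK_pos 0 r
  have hE := Real.exp_pos ((2 + e) * r)
  have h2 : ∫ θ in (0:ℝ)..thc, wt θ * ((3 - tt e θ) * Real.exp (r * tt e θ)) =
      (1 - e) * (∫ θ in (0:ℝ)..thc, wt θ * (yy θ ^ 0 * Real.exp (r * tt e θ))) +
        ∫ θ in (0:ℝ)..thc, wt θ * (yy θ ^ 1 * Real.exp (r * tt e θ)) := by
    rw [← intervalIntegral.integral_const_mul, ← intervalIntegral.integral_add
      ((nu_int e r 0).const_mul _) (nu_int e r 1)]
    refine intervalIntegral.integral_congr fun θ _ => ?_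
    change wt θ * ((3 - tt e θ) * Real.exp (r * tt e θ)) =
      (1 - e) * (wt θ * (yy θ ^ 0 * Real.exp (r * tt e θ))) +
        wt θ * (yy θ ^ 1 * Real.exp (r * tt e θ))
    have h3 : 3 - tt e θ = (1 - e) + yy θ := by rw [nu_tt_eq]; ring
    rw [h3]
    ring
  rw [h2, mul_add, mul_left_comm, h0, h1]
  unfold kk mm
  field_simp

theorem nu_m2 (e r : ℝ) :
    (∫ t, (3 - t) ^ 2 * Real.exp (r * t) ∂(nu e)) / kk e r = ((1 - e) + mm r) ^ 2 + VV r := by
  rw [nu_integral e (f := fun t => (3 - t) ^ 2 * Real.exp (r * t)) (by fun_prop)]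
  have h0 := nu_KK e r 0
  have h1 := nu_KK e r 1
  have h2' := nu_KK e r 2
  have hK := KK_pos 0 r
  have hE := Real.exp_pos ((2 + e) * r)
  have h2 : ∫ θ in (0:ℝ)..thc, wt θ * ((3 - tt e θ) ^ 2 * Real.exp (r * tt e θ)) =
      (1 - e) ^ 2 * (∫ θ in (0:ℝ)..thc, wt θ * (yy θ ^ 0 * Real.exp (r * tt e θ))) +
      (2 * (1 - e)) * (∫ θ in (0:ℝ)..thc, wt θ * (yy θ ^ 1 * Real.exp (r * tt e θ))) +
        ∫ θ in (0:ℝ)..thc, wt θ * (yy θ ^ 2 * Real.exp (r * tt e θ)) := by
    rw [← intervalIntegral.integral_const_mul, ← intervalIntegral.integral_const_mul,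
      ← intervalIntegral.integral_add
      ((nu_int e r 0).const_mul _) ((nu_int e r 1).const_mul _),
      ← intervalIntegral.integral_add
      (((nu_int e r 0).const_mul _).add ((nu_int e r 1).const_mul _)) (nu_int e r 2)]
    refine intervalIntegral.integral_congr fun θ _ => ?_
    change wt θ * ((3 - tt e θ) ^ 2 * Real.exp (r * tt e θ)) =
      (1 - e) ^ 2 * (wt θ * (yy θ ^ 0 * Real.exp (r * tt e θ))) +
      (2 * (1 - e)) * (wt θ * (yy θ ^ 1 * Real.exp (r * tt e θ))) +
        wt θ * (yy θ ^ 2 * Real.exp (r * tt e θ))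
    have h3 : 3 - tt e θ = (1 - e) + yy θ := by rw [nu_tt_eq]; ring
    rw [h3]
    ring
  rw [h2, mul_add, mul_add, mul_left_comm _ ((1 - e) ^ 2), mul_left_comm _ (2 * (1 - e)), h0, h1,
    h2']
  unfold kk VV mm
  field_simp
  ring

theorem nu_mom_nonneg {e : ℝ} (h9 : e9 ≤ e) (h1 : e < 1) (m : ℕ) : 0 ≤ ∫ t, t ^ m ∂(nu e) := by
  refine integral_nonneg_of_ae ?_
  filter_upwards [nu_ae h9 h1] with t ht
  exact pow_nonneg ht.1 m

/-- crude bounds for the first two moments -/
theorem nu_mom_le {e : ℝ} (h9 : e9 ≤ e) (h1 : e < 1) {m : ℕ} (hm : m ≤ 1) :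
    ∫ t, t ^ m ∂(nu e) ≤ 0.8 := by
  have he : 0 < e := by
    have h := h9
    unfold e9 at h
    linarith
  rw [nu_integral e (f := fun t => t ^ m) (by fun_prop)]
  have hpi := Real.pi_pos
  have h2 : ∫ θ in (0:ℝ)..thc, wt θ * (tt e θ) ^ m ≤ ∫ _θ in (0:ℝ)..thc, (0.78 : ℝ) := by
    refine intervalIntegral.integral_mono_on thc_pos.le
      (intervalIntegrable_wt ((nu_continuous_tt e).pow m)) intervalIntegrable_const
      (fun θ hθ => ?_)
    have hc := le_cos_of_le_thc hθ.1 hθ.2
    have hc1 := Real.cos_le_one θ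
    have hs := Real.sin_sq_add_cos_sq θ
    have hw : wt θ ≤ 0.26 := by
      unfold wt
      rw [div_le_iff₀ (by nlinarith)]
      nlinarith
    have ht : tt e θ ^ m ≤ 3 := by
      have ht0 : 0 ≤ tt e θ := by unfold tt; linarith
      have ht3 : tt e θ ≤ 3 := by unfold tt; linarith
      interval_cases m
      · norm_num
      · simpa using ht3
    have ht0 : 0 ≤ tt e θ ^ m := by
      apply pow_nonneg
      unfold tt; linarith
    calc wt θ * tt e θ ^ m ≤ 0.26 * 3 :=
          mul_le_mul hw ht ht0 (by norm_num)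
      _ = 0.78 := by norm_num
  have h3 : ∫ _θ in (0:ℝ)..thc, (0.78 : ℝ) = thc * 0.78 := by
    rw [intervalIntegral.integral_const, smul_eq_mul, sub_zero]
  rw [h3] at h2
  have h4 := thc_le
  calc 2 / Real.pi * ∫ θ in (0:ℝ)..thc, wt θ * (tt e θ) ^ m
      ≤ 2 / Real.pi * (3 * Real.pi / 8 * 0.78) := by
        refine mul_le_mul_of_nonneg_left (h2.trans ?_) (by positivity)
        exact mul_le_mul_of_nonneg_right h4 (by norm_num)
    _ = 0.585 := by
        field_simp
        norm_num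
    _ ≤ 0.8 := by norm_num

end RR
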