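import Pool.Agent.Lib.MP_31701c_co.KBasic
import Pool.Agent.Lib.MP_31701c_co.Integral

/-!
# RR-Parts : the weight `sin²/QQ` and its real integrals

`e9 ≤ e < 1`, `β = 1 - e² ≤ 2.5e-4`, `t = tt e θ = e + 2cos θ`.
`QQ_ge`: `QQ = (β + et/2)² + (3/4)e²t²`. `QQ_ge_of_nonneg`: the other two terms are `≥ 0`.
`wt_cmp`: for `0 ≤ θ ≤ thc` put `u = 2cos θ ∈ [0.8, 2]`, `t = e + u`; `(1+u)²/QQ` lies between
`1` and `1 + 1.7β`: `QQ = e²t² + eβt + β²` and `1 + u = et + β + (1-e)u` with `(1-e) = β/(1+e)`; lower bound: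
`QQ ≤ (et + β)² ≤ (1+u)²`; upper bound: `QQ ≥ e²t²`, `(1+u)/(et) ≤ 1 + (β + 0.51 β u)/(e(e+u)) ≤ 1 + 0.81 β`…
(`(1 + 0.51u)/(e(e+u)) ≤ 0.79` for `u ∈ [0.8,2]`: at `u = 0.8`: `1.408/1.7996`), whose square is `≤ 1 + 1.7β`.
`int_small`: `sin² ≤ 21/25` on `[0,thc]`, `QQ ≥ e²t² ≥ 3.2` (`t ≥ e + 0.8`), `(2/π) thc ≤ 3/4` (`thc_le`):
`0.75·0.84/3.2 ≤ 0.2`.
`part1`: `(t/e)²/QQ ≤ 4/(3e⁴)` (`QQ_ge`; for `t = 0` it is `0`), `(2/π) ∫_{π/2}^π sin² = 1/2`: `2/(3e⁴) ≤ 0.668`.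
`part2`: `θ ∈ [thc, π/2]`: `t = e + u`, `u = 2cos θ ∈ [0, 0.8]`, `QQ ≥ e²t² ≥ e⁴ (1+u)²` (`e + u ≥ e(1+u)`),
`(1+u)^{-2} ≤ e^{-1.469u}` on `[0,0.8]` (`2 log(1+u) ≥ 1.469u`: concavity and `2 log 1.8 = 1.17557 ≥ 1.469·0.8`),
`sin² θ ≤ sin θ`, and `∫_{thc}^{π/2} e^{(e+u)x - 1.469u} sin θ dθ = (1/2) e^{ex} (e^{0.8(x-1.469)} - 1)/(x-1.469)`
(antiderivative `-e^{ex + (x-1.469)u}/(2(x-1.469))`, `du = -2 sin θ dθ`). Total
`≤ (1/(π e⁴)) e^{-1.1752} e^{(e+0.8)x}/(x-1.469)`, `0.3183·1.0006·0.3088 = 0.0984`.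
`total_part`: `t²/QQ ≤ 4/(3e²)`, `(2/π) ∫_0^π sin² = 1`.
-/

set_option autoImplicit false

namespace RR

open MeasureTheory intervalIntegral

theorem QQ_ge (e t : ℝ) : 3 / 4 * (e ^ 2 * t ^ 2) ≤ QQ e t := by
  unfold QQ
  nlinarith [sq_nonneg ((1 - e ^ 2) + e * t / 2)]

theorem QQ_ge_of_nonneg {e t : ℝ} (he : 0 ≤ e) (he1 : e ≤ 1) (ht : 0 ≤ t) :
    e ^ 2 * t ^ 2 ≤ QQ e t := by
  unfold QQ
  have h1 : 0 ≤ 1 - e ^ 2 := by nlinarith
  have h2 : 0 ≤ e * (1 - e ^ 2) * t := mul_nonneg (mul_nonneg he h1) ht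
  nlinarith [sq_nonneg (1 - e ^ 2)]

theorem continuous_sinQQ {e : ℝ} (h0 : 0 ≤ e) (h1 : e < 1) :
    Continuous fun θ => Real.sin θ ^ 2 / QQ e (tt e θ) := by
  have hQ : Continuous fun θ => QQ e (tt e θ) := by
    unfold QQ tt
    fun_prop
  exact (Real.continuous_sin.pow 2).div hQ fun θ => (QQ_pos h0 h1 _).ne'

private theorem rrParts_e {e : ℝ} (h9 : e9 ≤ e) : 0.999875 ≤ e := by
  unfold e9 at h9
  exact h9

private theorem rrParts_e2 {e : ℝ} (h9 : e9 ≤ e) : 0.99975 ≤ e ^ 2 := by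
  have := rrParts_e h9
  nlinarith

private theorem rrParts_e4 {e : ℝ} (h9 : e9 ≤ e) : 0.9995 ≤ e ^ 4 := by
  have := rrParts_e2 h9
  have h : e ^ 4 = (e ^ 2) ^ 2 := by ring
  rw [h]
  nlinarith

private theorem rrParts_key {e u b : ℝ} (he : 0.999875 ≤ e) (he1 : e < 1) (hu1 : 0.8 ≤ u)
    (hu2 : u ≤ 2) (hb : b = 1 - e ^ 2) :
    (1 + u) ^ 2 ≤ (1 + 1.7 * b) * (e ^ 2 * (e + u) ^ 2) := by
  have h1e : 0 ≤ 1 - e := by linarith
  have hbf : b = (1 - e) * (1 + e) := by rw [hb]; ring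
  have hb0 : 0 ≤ b := by rw [hbf]; exact mul_nonneg h1e (by linarith)
  have hb1 : b ≤ 0.00025 := by
    rw [hbf]
    calc (1 - e) * (1 + e) ≤ 0.000125 * 2 :=
          mul_le_mul (by linarith) (by linarith) (by linarith) (by norm_num)
      _ = 0.00025 := by norm_num
  have h2 : 1 - e ≤ 0.51 * b := by
    have h3 : (1 - e) * 1 ≤ (1 - e) * (0.51 * (1 + e)) :=
      mul_le_mul_of_nonneg_left (by linarith) h1e
    rw [hbf]; linarith
  obtain ⟨s, hs⟩ : ∃ s, s = e * (e + u) := ⟨_, rfl⟩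
  obtain ⟨dl, hdl⟩ : ∃ dl, dl = b + (1 - e) * u := ⟨_, rfl⟩
  have hsum : 1 + u = s + dl := by rw [hs, hdl, hb]; ring
  have h4 : (1 - e) * u ≤ 0.51 * b * u := mul_le_mul_of_nonneg_right h2 (by linarith)
  have h4' : 0 ≤ (1 - e) * u := mul_nonneg h1e (by linarith)
  have h5 : b * u ≤ 0.00025 * 2 := mul_le_mul hb1 hu2 (by linarith) (by norm_num)
  have hdl0 : 0 ≤ dl := by rw [hdl]; linarith
  have hdl1 : dl ≤ 0.001 := by rw [hdl]; linarith
  have hs1 : 1 + u - 0.001 ≤ s := by linarith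
  have hs0 : 0 ≤ s := by linarith
  have h6 : dl ≤ 0.79 * (b * s) := by
    have h7 : b * (1 + u - 0.001) ≤ b * s := mul_le_mul_of_nonneg_left hs1 hb0
    have h8 : b * (1 + 0.51 * u) ≤ b * (0.79 * (1 + u - 0.001)) :=
      mul_le_mul_of_nonneg_left (by linarith) hb0
    rw [hdl]
    linarith
  have hw0 : 0 ≤ b * s := mul_nonneg hb0 hs0
  have h9 : s * dl ≤ s * (0.79 * (b * s)) := mul_le_mul_of_nonneg_left h6 hs0
  have h10 : dl * dl ≤ 0.001 * (0.79 * (b * s)) := mul_le_mul hdl1 h6 hdl0 (by norm_num)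
  have h11 : 1 * (b * s) ≤ s * (b * s) := mul_le_mul_of_nonneg_right (by linarith) hw0
  have e1 : (1 + u) ^ 2 = s ^ 2 + 2 * (s * dl) + dl * dl := by rw [hsum]; ring
  have e2 : (1 + 1.7 * b) * (e ^ 2 * (e + u) ^ 2) = s ^ 2 + 1.7 * (s * (b * s)) := by
    rw [hs]; ring
  rw [e1, e2]
  linarith

theorem wt_cmp {e θ : ℝ} (h9 : e9 ≤ e) (h1 : e < 1) (h0 : 0 ≤ θ) (hθ : θ ≤ thc) :
    wt θ ≤ Real.sin θ ^ 2 / QQ e (tt e θ) ∧
      Real.sin θ ^ 2 / QQ e (tt e θ) ≤ (1 + 1.7 * (1 - e ^ 2)) * wt θ := by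
  have he := rrParts_e h9
  have hc := le_cos_of_le_thc h0 hθ
  have hc1 := Real.cos_le_one θ
  obtain ⟨u, hu⟩ : ∃ u, u = 2 * Real.cos θ := ⟨_, rfl⟩
  have hu1 : 0.8 ≤ u := by rw [hu]; linarith
  have hu2 : u ≤ 2 := by rw [hu]; linarith
  have ht : tt e θ = e + u := by unfold tt; rw [hu]
  have hQ0 : 0 < QQ e (tt e θ) := QQ_pos (by linarith) h1 _
  have hs : 0 ≤ Real.sin θ ^ 2 := sq_nonneg _
  obtain ⟨b, hb⟩ : ∃ b, b = 1 - e ^ 2 := ⟨_, rfl⟩
  have hb0 : 0 ≤ b := by rw [hb]; nlinarith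
  have hb1 : b ≤ 0.00025 := by rw [hb]; nlinarith
  have hwt : wt θ = Real.sin θ ^ 2 / (1 + u) ^ 2 := by unfold wt; rw [hu]
  have hQdef : QQ e (tt e θ) = e ^ 2 * (e + u) ^ 2 + e * b * (e + u) + b ^ 2 := by
    rw [ht, hb]; rfl
  rw [hwt]
  constructor
  · apply div_le_div_of_nonneg_left hs hQ0
    have h2 : QQ e (tt e θ) ≤ (1 + e * u) ^ 2 := by
      have h3 : (1 + e * u) ^ 2 = (e * (e + u) + b) ^ 2 := by
        rw [hb]; ring
      rw [h3, hQdef]
      have h4 : 0 ≤ e * b * (e + u) :=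
        mul_nonneg (mul_nonneg (by linarith) hb0) (by linarith)
      nlinarith
    refine h2.trans ?_
    apply pow_le_pow_left₀
    · have : 0 ≤ e * u := mul_nonneg (by linarith) (by linarith)
      linarith
    · nlinarith
  · rw [← hb, ← mul_div_assoc, div_le_div_iff₀ hQ0 (by positivity)]
    have h5 : (1 + u) ^ 2 ≤ (1 + 1.7 * b) * QQ e (tt e θ) := by
      have h6 : e ^ 2 * (e + u) ^ 2 ≤ QQ e (tt e θ) := by
        rw [ht]
        exact QQ_ge_of_nonneg (by linarith) h1.le (by linarith)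
      exact (rrParts_key he h1 hu1 hu2 hb).trans
        (mul_le_mul_of_nonneg_left h6 (by positivity))
    calc Real.sin θ ^ 2 * (1 + u) ^ 2
        ≤ Real.sin θ ^ 2 * ((1 + 1.7 * b) * QQ e (tt e θ)) := mul_le_mul_of_nonneg_left h5 hs
      _ = (1 + 1.7 * b) * Real.sin θ ^ 2 * QQ e (tt e θ) := by ring

theorem int_small {e : ℝ} (h9 : e9 ≤ e) (h1 : e < 1) :
    2 / Real.pi * ∫ θ in (0:ℝ)..thc, Real.sin θ ^ 2 / QQ e (tt e θ) ≤ 0.2 := by
  have he := rrParts_e h9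
  have hpi := Real.pi_pos
  have hcont := continuous_sinQQ (e := e) (by linarith) h1
  have hint : ∫ θ in (0:ℝ)..thc, Real.sin θ ^ 2 / QQ e (tt e θ) ≤ ∫ _θ in (0:ℝ)..thc, (0.2625 : ℝ) := by
    refine integral_mono_on thc_pos.le (hcont.intervalIntegrable _ _)
      (intervalIntegrable_const) fun θ hθ => ?_
    have hc := le_cos_of_le_thc hθ.1 hθ.2
    have hs : Real.sin θ ^ 2 ≤ 0.84 := by
      have := Real.sin_sq_add_cos_sq θ
      nlinarith
    have ht : 1.79 ≤ tt e θ := by unfold tt; linarith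
    have hQ : 3.2 ≤ QQ e (tt e θ) := by
      have h2 := QQ_ge_of_nonneg (e := e) (t := tt e θ) (by linarith) h1.le (by linarith)
      have h3 := rrParts_e2 h9
      have ht' : 1.7998 ≤ tt e θ := by unfold tt; linarith
      have h4 : 3.239 ≤ tt e θ ^ 2 := by nlinarith
      have h5 : 0.99975 * 3.239 ≤ e ^ 2 * tt e θ ^ 2 :=
        mul_le_mul h3 h4 (by norm_num) (by positivity)
      linarith
    rw [div_le_iff₀ (by linarith)]
    linarith
  have h3 := thc_le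
  rw [intervalIntegral.integral_const, smul_eq_mul] at hint
  have h4 : ∫ θ in (0:ℝ)..thc, Real.sin θ ^ 2 / QQ e (tt e θ) ≤ 0.2625 * (3 * Real.pi / 8) := by
    refine hint.trans ?_
    linarith
  calc 2 / Real.pi * ∫ θ in (0:ℝ)..thc, Real.sin θ ^ 2 / QQ e (tt e θ)
      ≤ 2 / Real.pi * (0.2625 * (3 * Real.pi / 8)) := mul_le_mul_of_nonneg_left h4 (by positivity)
    _ = 0.2625 * (3 / 4) := by field_simp; norm_num
    _ ≤ 0.2 := by norm_num

private theorem rrParts_quot {e : ℝ} (h9 : e9 ≤ e) (h1 : e < 1) (t : ℝ) :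
    t ^ 2 / QQ e t ≤ 4 / (3 * e ^ 2) := by
  have he := rrParts_e h9
  have hQ := QQ_pos (e := e) (by linarith) h1 t
  rw [div_le_div_iff₀ hQ (by positivity)]
  have := QQ_ge e t
  linarith

theorem part1 {e : ℝ} (h9 : e9 ≤ e) (h1 : e < 1) :
    2 / Real.pi * ∫ θ in (Real.pi / 2)..Real.pi,
      (tt e θ / e) ^ 2 * (Real.sin θ ^ 2 / QQ e (tt e θ)) ≤ 0.668 := by
  have he := rrParts_e h9
  have he4 := rrParts_e4 h9
  have hpi := Real.pi_pos
  have hcont := continuous_sinQQ (e := e) (by linarith) h1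
  have hct : Continuous (tt e) := by unfold tt; fun_prop
  have hint : ∫ θ in (Real.pi / 2)..Real.pi,
      (tt e θ / e) ^ 2 * (Real.sin θ ^ 2 / QQ e (tt e θ)) ≤
      ∫ θ in (Real.pi / 2)..Real.pi, 4 / (3 * e ^ 4) * Real.sin θ ^ 2 := by
    refine integral_mono_on (by linarith)
      ((((hct.div_const e).pow 2).mul hcont).intervalIntegrable _ _)
      ((continuous_const.mul (Real.continuous_sin.pow 2)).intervalIntegrable _ _) fun θ _ => ?_
    have h2 := rrParts_quot h9 h1 (tt e θ)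
    have hs : 0 ≤ Real.sin θ ^ 2 := sq_nonneg _
    have h3 : (tt e θ / e) ^ 2 * (Real.sin θ ^ 2 / QQ e (tt e θ)) =
        (tt e θ ^ 2 / QQ e (tt e θ)) * (Real.sin θ ^ 2 / e ^ 2) := by
      rw [div_pow]; ring
    rw [h3]
    calc (tt e θ ^ 2 / QQ e (tt e θ)) * (Real.sin θ ^ 2 / e ^ 2)
        ≤ 4 / (3 * e ^ 2) * (Real.sin θ ^ 2 / e ^ 2) :=
          mul_le_mul_of_nonneg_right h2 (by positivity)
      _ = 4 / (3 * e ^ 4) * Real.sin θ ^ 2 := by
          field_simp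
  rw [intervalIntegral.integral_const_mul, integral_sin_sq, Real.cos_pi_div_two, Real.sin_pi,
    mul_zero, zero_mul] at hint
  calc 2 / Real.pi * ∫ θ in (Real.pi / 2)..Real.pi,
        (tt e θ / e) ^ 2 * (Real.sin θ ^ 2 / QQ e (tt e θ))
      ≤ 2 / Real.pi * (4 / (3 * e ^ 4) * ((0 - 0 + Real.pi - Real.pi / 2) / 2)) :=
        mul_le_mul_of_nonneg_left hint (by positivity)
    _ = 2 / (3 * e ^ 4) := by field_simp; ring
    _ ≤ 0.668 := by
        rw [div_le_iff₀ (by positivity)]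
        linarith

private theorem rrParts_exp_lo : (1.799 : ℝ) ≤ Real.exp 0.5876 := by
  refine le_trans ?_ (Real.sum_le_exp_of_nonneg (by norm_num) 5)
  norm_num [Finset.sum_range_succ, Nat.factorial]

private theorem rrParts_exp_hi : Real.exp 0.5876 ≤ 1.8 := by
  refine (Real.exp_bound' (by norm_num) (by norm_num) (n := 8) (by norm_num)).trans ?_
  norm_num [Finset.sum_range_succ, Nat.factorial]

private theorem rrParts_exp_u {u : ℝ} (h0 : 0 ≤ u) (h1 : u ≤ 0.8) :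
    Real.exp (1.469 * u) ≤ (1 + u) ^ 2 := by
  have h2 : Real.exp (0.7345 * u) ≤ 1 + u := by
    obtain ⟨l, hl⟩ : ∃ l, l = u / 0.8 := ⟨_, rfl⟩
    have hl0 : 0 ≤ l := by rw [hl]; positivity
    have hl1 : l ≤ 1 := by rw [hl, div_le_one (by norm_num)]; exact h1
    have hul : u = 0.8 * l := by rw [hl]; ring
    have h3 := convexOn_exp.2 (Set.mem_univ (0 : ℝ)) (Set.mem_univ (0.5876 : ℝ))
      (show 0 ≤ 1 - l by linarith) hl0 (by ring)
    simp only [smul_eq_mul, mul_zero, zero_add, Real.exp_zero, mul_one] at h3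
    have h4 : 0.7345 * u = l * 0.5876 := by rw [hul]; ring
    rw [h4]
    refine h3.trans ?_
    have h5 := rrParts_exp_hi
    rw [hul]
    nlinarith
  have h6 : Real.exp (1.469 * u) = Real.exp (0.7345 * u) ^ 2 := by
    rw [← Real.exp_nat_mul]
    congr 1
    push_cast
    ring
  rw [h6]
  exact pow_le_pow_left₀ (Real.exp_pos _).le h2 2

theorem part2 {e : ℝ} (h9 : e9 ≤ e) (h1 : e < 1) {x : ℝ} (hx : 4.4 ≤ x) :
    2 / Real.pi * ∫ θ in thc..(Real.pi / 2),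
      Real.exp (tt e θ * x) * (Real.sin θ ^ 2 / QQ e (tt e θ)) ≤
      0.0985 / (x - 1.469) * Real.exp ((e + 0.8) * x) := by
  have he := rrParts_e h9
  have he4 := rrParts_e4 h9
  have hpi := Real.pi_pos
  have hcont := continuous_sinQQ (e := e) (by linarith) h1
  have hct : Continuous (tt e) := by unfold tt; fun_prop
  obtain ⟨a, ha⟩ : ∃ a, a = x - 1.469 := ⟨_, rfl⟩
  have ha0 : 0 < a := by rw [ha]; linarith
  have hint : ∫ θ in thc..(Real.pi / 2),
      Real.exp (tt e θ * x) * (Real.sin θ ^ 2 / QQ e (tt e θ)) ≤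
      ∫ θ in thc..(Real.pi / 2), 1 / e ^ 4 * (Real.exp (e * x + a * (2 * Real.cos θ)) * Real.sin θ) := by
    refine integral_mono_on thc_lt.le
      (((Real.continuous_exp.comp (hct.mul continuous_const)).mul hcont).intervalIntegrable _ _)
      (Continuous.intervalIntegrable (by fun_prop) _ _) fun θ hθ => ?_
    obtain ⟨hθ1, hθ2⟩ := hθ
    obtain ⟨u, hu⟩ : ∃ u, u = 2 * Real.cos θ := ⟨_, rfl⟩
    have hu0 : 0 ≤ u := by
      rw [hu]
      have : 0 ≤ Real.cos θ := Real.cos_nonneg_of_mem_Icc ⟨by linarith [thc_pos], hθ2⟩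
      linarith
    have hu1 : u ≤ 0.8 := by
      rw [hu]
      have h2 : Real.cos θ ≤ Real.cos thc :=
        Real.cos_le_cos_of_nonneg_of_le_pi thc_pos.le (by linarith) hθ1
      rw [cos_thc] at h2
      linarith
    have hs0 : 0 ≤ Real.sin θ := Real.sin_nonneg_of_nonneg_of_le_pi (by linarith [thc_pos]) (by linarith)
    have hs1 : Real.sin θ ≤ 1 := Real.sin_le_one θ
    have ht : tt e θ = e + u := by unfold tt; rw [hu]
    have hQ1 : e ^ 4 * (1 + u) ^ 2 ≤ QQ e (tt e θ) := by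
      rw [ht]
      refine le_trans ?_ (QQ_ge_of_nonneg (by linarith) h1.le (by linarith))
      have h3 : e * (1 + u) ≤ e + u := by nlinarith
      have h4 : (e * (1 + u)) ^ 2 ≤ (e + u) ^ 2 := pow_le_pow_left₀ (by positivity) h3 2
      have h5 := mul_le_mul_of_nonneg_left h4 (sq_nonneg e)
      nlinarith
    have hE := rrParts_exp_u hu0 hu1
    have hQ2 : e ^ 4 * Real.exp (1.469 * u) ≤ QQ e (tt e θ) :=
      (mul_le_mul_of_nonneg_left hE (by positivity)).trans hQ1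
    have hEp := Real.exp_pos (1.469 * u)
    have h6 : Real.sin θ ^ 2 / QQ e (tt e θ) ≤ Real.sin θ / (e ^ 4 * Real.exp (1.469 * u)) := by
      apply div_le_div₀ hs0 _ (by positivity) hQ2
      nlinarith
    rw [ht] at h6 ⊢
    rw [← hu]
    calc Real.exp ((e + u) * x) * (Real.sin θ ^ 2 / QQ e (e + u))
        ≤ Real.exp ((e + u) * x) * (Real.sin θ / (e ^ 4 * Real.exp (1.469 * u))) :=
          mul_le_mul_of_nonneg_left h6 (Real.exp_pos _).le
      _ = 1 / e ^ 4 * (Real.exp (e * x + a * u) * Real.sin θ) := by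
          have h7 : Real.exp (e * x + a * u) = Real.exp ((e + u) * x) / Real.exp (1.469 * u) := by
            rw [← Real.exp_sub]
            congr 1
            rw [ha]
            ring
          rw [h7]
          field_simp
  have hF : ∀ θ : ℝ, HasDerivAt (fun θ => -(Real.exp (e * x + a * (2 * Real.cos θ)) / (2 * a)))
      (Real.exp (e * x + a * (2 * Real.cos θ)) * Real.sin θ) θ := by
    intro θ
    have h2 : HasDerivAt (fun θ => e * x + a * (2 * Real.cos θ)) (a * (2 * (-Real.sin θ))) θ :=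
      (((Real.hasDerivAt_cos θ).const_mul 2).const_mul a).const_add (e * x)
    have h3 := ((h2.exp).div_const (2 * a)).neg
    have h4 : Real.exp (e * x + a * (2 * Real.cos θ)) * Real.sin θ =
        -(Real.exp (e * x + a * (2 * Real.cos θ)) * (a * (2 * (-Real.sin θ))) / (2 * a)) := by
      rw [← neg_div, eq_div_iff (by positivity)]
      ring
    rw [h4]
    exact h3
  have hval : ∫ θ in thc..(Real.pi / 2), Real.exp (e * x + a * (2 * Real.cos θ)) * Real.sin θ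
      ≤ Real.exp (e * x + a * 0.8) / (2 * a) := by
    rw [integral_eq_sub_of_hasDerivAt (fun θ _ => hF θ)
      (Continuous.intervalIntegrable (by fun_prop) _ _)]
    rw [Real.cos_pi_div_two, cos_thc]
    have h4 : a * (2 * (2 / 5 : ℝ)) = a * 0.8 := by norm_num
    rw [h4]
    have h5 : 0 < Real.exp (e * x + a * (2 * 0)) / (2 * a) := by positivity
    linarith
  rw [intervalIntegral.integral_const_mul] at hint
  have h8 : Real.exp (e * x + a * 0.8) ≤ 0.309 * Real.exp ((e + 0.8) * x) := by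
    have h9 : e * x + a * 0.8 = (e + 0.8) * x - 2 * 0.5876 := by rw [ha]; ring
    rw [h9, Real.exp_sub, div_le_iff₀ (Real.exp_pos _)]
    have h10 : Real.exp (2 * 0.5876) = Real.exp 0.5876 ^ 2 := by
      rw [← Real.exp_nat_mul]
      norm_num
    rw [h10]
    have h11 : (1.799 : ℝ) ^ 2 ≤ Real.exp 0.5876 ^ 2 :=
      pow_le_pow_left₀ (by norm_num) rrParts_exp_lo 2
    have h12 := Real.exp_pos ((e + 0.8) * x)
    nlinarith
  have h13 : ∫ θ in thc..(Real.pi / 2),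
      Real.exp (tt e θ * x) * (Real.sin θ ^ 2 / QQ e (tt e θ)) ≤
      1 / e ^ 4 * (0.309 * Real.exp ((e + 0.8) * x) / (2 * a)) := by
    refine hint.trans (mul_le_mul_of_nonneg_left (hval.trans ?_) (by positivity))
    exact div_le_div_of_nonneg_right h8 (by positivity)
  rw [← ha]
  have hE := Real.exp_pos ((e + 0.8) * x)
  calc 2 / Real.pi * ∫ θ in thc..(Real.pi / 2),
        Real.exp (tt e θ * x) * (Real.sin θ ^ 2 / QQ e (tt e θ))
      ≤ 2 / Real.pi * (1 / e ^ 4 * (0.309 * Real.exp ((e + 0.8) * x) / (2 * a))) :=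
        mul_le_mul_of_nonneg_left h13 (by positivity)
    _ = (0.309 / (Real.pi * e ^ 4)) * (Real.exp ((e + 0.8) * x) / a) := by
        field_simp
    _ ≤ 0.0985 * (Real.exp ((e + 0.8) * x) / a) := by
        refine mul_le_mul_of_nonneg_right ?_ (by positivity)
        rw [div_le_iff₀ (by positivity)]
        have h14 := Real.pi_gt_d6
        have h15 : 3.1415 * 0.9995 ≤ Real.pi * e ^ 4 :=
          mul_le_mul (by linarith) he4 (by norm_num) hpi.le
        linarith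
    _ = 0.0985 / a * Real.exp ((e + 0.8) * x) := by ring

theorem total_part {e : ℝ} (h9 : e9 ≤ e) (h1 : e < 1) :
    2 / Real.pi * ∫ θ in (0:ℝ)..Real.pi,
      (tt e θ) ^ 2 * (Real.sin θ ^ 2 / QQ e (tt e θ)) ≤ 1.34 := by
  have he := rrParts_e h9
  have he2 := rrParts_e2 h9
  have hpi := Real.pi_pos
  have hcont := continuous_sinQQ (e := e) (by linarith) h1
  have hct : Continuous (tt e) := by unfold tt; fun_prop
  have hint : ∫ θ in (0:ℝ)..Real.pi,
      (tt e θ) ^ 2 * (Real.sin θ ^ 2 / QQ e (tt e θ)) ≤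
      ∫ θ in (0:ℝ)..Real.pi, 4 / (3 * e ^ 2) * Real.sin θ ^ 2 := by
    refine integral_mono_on hpi.le
      (((hct.pow 2).mul hcont).intervalIntegrable _ _)
      ((continuous_const.mul (Real.continuous_sin.pow 2)).intervalIntegrable _ _) fun θ _ => ?_
    have h2 := rrParts_quot h9 h1 (tt e θ)
    have hs : 0 ≤ Real.sin θ ^ 2 := sq_nonneg _
    have h3 : (tt e θ) ^ 2 * (Real.sin θ ^ 2 / QQ e (tt e θ)) =
        (tt e θ ^ 2 / QQ e (tt e θ)) * Real.sin θ ^ 2 := by ring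
    rw [h3]
    exact mul_le_mul_of_nonneg_right h2 hs
  rw [intervalIntegral.integral_const_mul, integral_sin_sq, Real.sin_zero, Real.sin_pi,
    zero_mul, zero_mul] at hint
  calc 2 / Real.pi * ∫ θ in (0:ℝ)..Real.pi,
        (tt e θ) ^ 2 * (Real.sin θ ^ 2 / QQ e (tt e θ))
      ≤ 2 / Real.pi * (4 / (3 * e ^ 2) * ((0 - 0 + Real.pi - 0) / 2)) :=
        mul_le_mul_of_nonneg_left hint (by positivity)
    _ = 4 / (3 * e ^ 2) := by field_simp; ring
    _ ≤ 1.34 := by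
        rw [div_le_iff₀ (by positivity)]
        linarith

end RR
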