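import Pool.Agent.Lib.MP_31701c_co.Defs

/-!
# Integer programs for the numerical certificates (FIXED, do not edit)

`hTab p q M = [h_0 q^0, …, h_M q^M]` at `e = p/q`; `kapTab (hTab p q M) = [κ_M q^M, …, κ_1 q^1]` where
`κ_n = -(n-1)! S_n`. `checkA`, `checkB` evaluate polynomials in `s` with `e = (an + bn s)/(d(1+s))` at
`s = 2^B` and inspect the binary digits in blocks of length `B` (all coefficients are nonnegative as
soon as all blocks are `< 2^(B-1)` and the sum of the absolute values of the coefficients is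
`< 2^(B-1)`).
-/

set_option autoImplicit false

namespace RR

/-- entries `k ≥ 1` of the next row: `new[k] = u[k-1] + p u[k] + q2 u[k+1]` -/
def stepAux (p q2 : ℕ) : List ℕ → List ℕ
  | [] => []
  | [x] => [x]
  | [x, y] => (x + p * y) :: stepAux p q2 [y]
  | x :: y :: z :: r => (x + p * y + q2 * z) :: stepAux p q2 (y :: z :: r)

def ustep (p q2 b : ℕ) (u : List ℕ) : List ℕ := (b * u.getD 1 0) :: stepAux p q2 u

def hRows (p q2 b : ℕ) : ℕ → List ℕ → List ℕ
  | 0, u => [u.getD 0 0]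
  | n + 1, u => u.getD 0 0 :: hRows p q2 b n (ustep p q2 b u)

/-- `[h_0 q^0, h_1 q^1, …, h_M q^M]` at `e = p/q` -/
def hTab (p q M : ℕ) : List ℕ := hRows p (q * q) (q * q - p * p) M [1]

/-- Pascal's triangle: next row -/
def pAux : List ℕ → List ℕ
  | [] => []
  | [x] => [x]
  | x :: y :: r => (x + y) :: pAux (y :: r)

def pnext (row : List ℕ) : List ℕ := 1 :: pAux row

def dot3 : List ℕ → List ℤ → List ℕ → ℤ
  | c :: cs, k :: ks, h :: hs => ((c * h : ℕ) : ℤ) * k + dot3 cs ks hs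
  | _, _, _ => 0

def kapAux (hs1 : List ℕ) : List ℕ → List ℕ → List ℤ → List ℤ
  | [], _, kr => kr
  | h :: t, row, kr => kapAux hs1 t (pnext row) (((h : ℤ) - dot3 row.tail kr hs1) :: kr)

/-- `[κ_M, …, κ_1]` (times `q^j`) from `[h_0, …, h_M]` (times `q^j`) -/
def kapTab (hs : List ℕ) : List ℤ := kapAux hs.tail hs.tail [1] []

/-- the same with `+` instead of `-`: bounds for the sum of absolute values of coefficients -/
def kapAuxN (hs1 : List ℕ) : List ℕ → List ℕ → List ℤ → List ℤ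
  | [], _, kr => kr
  | h :: t, row, kr => kapAuxN hs1 t (pnext row) (((h : ℤ) + dot3 row.tail kr hs1) :: kr)

/-! ### small `n` -/

/-- one step of the sign automaton: `κ < 0` for even `k`, `κ > 0` for odd `k` -/
def stp (k : ℕ) (x : ℤ) : ℕ :=
  if k % 2 = 0 then (if x < 0 then k + 1 else k) else (if 0 < x then k + 1 else k)

def updK : List ℕ → List ℤ → List ℕ
  | k :: ks, x :: xs => stp k x :: updK ks xs
  | _, _ => []

def runPts : List (ℕ × ℕ) → List ℕ → List ℕ
  | [], st => st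
  | pq :: r, st => runPts r (updK st (kapTab (hTab pq.1 pq.2 99)))

/-- final state check: the entries are for `n = 99, 98, …, 1` -/
def finOK : ℕ → List ℕ → Bool
  | _, [] => true
  | n, k :: ks => (decide (n < 4) || decide (n / 2 < k)) && finOK (n - 1) ks

/-- 48 points `e = p/q`, decreasing -/
def pts1 : List (ℕ × ℕ) := [(158456325028528675187087900243, 158456325028528675187087900672),
  (288230376151711249, 288230376151711744), (1099511627691, 1099511627776),
  (8589934363, 8589934592), (134217587, 134217728), (33554015, 33554432)]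
def pts2 : List (ℕ × ℕ) := [(4193997, 4194304), (262069, 262144), (32741, 32768), (511, 512),
  (130565, 131072), (65089, 65536), (16201, 16384), (16109, 16384), (3997, 4096), (7923, 8192)]
def pts3 : List (ℕ × ℕ) := [(7837, 8192), (7737, 8192), (3815, 4096), (3753, 4096),
  (3687, 4096), (113, 128), (221, 256), (865, 1024), (211, 256), (411, 512), (799, 1024),
  (1551, 2048), (1503, 2048), (727, 1024), (703, 1024), (169, 256)]
def pts4 : List (ℕ × ℕ) := [(649, 1024), (311, 512), (595, 1024), (71, 128), (269, 512),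
  (505, 1024), (59, 128), (109, 256), (397, 1024), (179, 512), (313, 1024), (131, 512), (13, 64),
  (151, 1024), (91, 1024), (31, 1024)]

/-! ### cells -/

def gAux (M q rn rd : ℕ) : ℕ → List ℕ → List ℕ
  | _, [] => []
  | k, h :: t => (h * (q ^ (M - k) * (M.factorial / k.factorial) * rn ^ k * rd ^ (M - k))) ::
      gAux M q rn rd (k + 1) t

def dot : List ℤ → List ℕ → ℤ
  | a :: as, b :: bs => a * (b : ℤ) + dot as bs
  | _, _ => 0

def sumSq (qs : List ℤ) : List ℕ → List ℕ → ℤ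
  | _, [] => 0
  | win, g :: t => dot qs (g :: win) * dot qs (g :: win) + sumSq qs (g :: win) t

/-- all blocks of `B` binary digits of `V` (at most `n` blocks) are `< 2^(B-1)` -/
def digOK (B : ℕ) : ℕ → ℕ → Bool
  | 0, V => V == 0
  | n + 1, V => Nat.blt (V % 2 ^ B) (2 ^ (B - 1)) && digOK B n (V / 2 ^ B)

/-- the two sides of the inequality `CellAOK` at `e = p/q`, times a common factor -/
def lhsA (c : Cell) (qs : List ℤ) (p q : ℕ) : ℤ :=
  10000 * (c.rb : ℤ) ^ 8 * sumSq qs [] (gAux 72 q c.rn 1000 0 (hTab p q 72))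

def rhsA (c : Cell) (q : ℕ) : ℕ :=
  9999 * c.rn ^ 8 * (q ^ 72 * Nat.factorial 72 * 1000 ^ 72 * 10000) ^ 2

def checkA (B : ℕ) (c : Cell) : Bool :=
  decide (((rhsA c (2 * c.d) : ℕ) : ℤ) + lhsA c (c.qs.map fun x => (x.natAbs : ℤ)) (c.an + c.bn)
      (2 * c.d) < 2 ^ (B - 1)) &&
    decide (0 ≤ ((rhsA c (c.d * (1 + 2 ^ B)) : ℕ) : ℤ) -
      lhsA c c.qs (c.an + c.bn * 2 ^ B) (c.d * (1 + 2 ^ B))) &&
    digOK B 160 (((rhsA c (c.d * (1 + 2 ^ B)) : ℕ) : ℤ) -
      lhsA c c.qs (c.an + c.bn * 2 ^ B) (c.d * (1 + 2 ^ B))).toNat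

/-- `90 κ_90² - 89 κ_89 κ_91` from `[κ_91, κ_90, κ_89, …]` -/
def dB (K : List ℤ) : ℤ := 90 * K.getD 1 0 ^ 2 - 89 * (K.getD 2 0 * K.getD 0 0)

def dBN (K : List ℤ) : ℤ := 90 * K.getD 1 0 ^ 2 + 89 * (K.getD 2 0 * K.getD 0 0)

def cB (q : ℕ) : ℕ := 33 * 90 * (Nat.factorial 89) ^ 2 * 1000 ^ 180 * q ^ 180

def checkB (B : ℕ) (c : Cell) : Bool :=
  decide ((c.ra : ℤ) ^ 180 * dBN (kapAuxN (hTab (c.an + c.bn) (2 * c.d) 91).tail
      (hTab (c.an + c.bn) (2 * c.d) 91).tail [1] []) + ((cB (2 * c.d) : ℕ) : ℤ) < 2 ^ (B - 1)) &&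
    decide (0 ≤ (c.ra : ℤ) ^ 180 *
      dB (kapTab (hTab (c.an + c.bn * 2 ^ B) (c.d * (1 + 2 ^ B)) 91)) -
      ((cB (c.d * (1 + 2 ^ B)) : ℕ) : ℤ)) &&
    digOK B 190 ((c.ra : ℤ) ^ 180 *
      dB (kapTab (hTab (c.an + c.bn * 2 ^ B) (c.d * (1 + 2 ^ B)) 91)) -
      ((cB (c.d * (1 + 2 ^ B)) : ℕ) : ℤ)).toNat

end RR
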