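import Pool.Agent.Lib.MP_31701c_co.FCard
import Pool.Agent.Lib.MP_31701c_co.Bridge
import Pool.Agent.Lib.MP_31701c_co.Degree
import Pool.Agent.Lib.MP_31701c_co.Basic

/-!
# RR-RealRooted : from the sign pattern to real-rootedness

`n ≥ 4`, `m = n/2 ≥ 2`, points `e_k`, `2 ≤ k ≤ m`. Put `x_k = 1 - e_k^{-2} < 0`, strictly decreasing in `k`,
`x_1 = 0`. `A n = X * U` with `U` of degree `≤ m - 1` (`A_coeff_zero`, `A_natDegree_le`), `U(0) = coeff 1 > 0`.
`bridge`, `A_eval`: `Sn e_k n = e_k^n A_n(x_k)/(n-1)!`, so `sign A_n(x_k) = (-1)^k` and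
`sign U(x_k) = (-1)^{k+1}` (`x_k < 0`), also for `k = 1`. So `U` has a zero in each interval
`(x_{k+1}, x_k)`, `1 ≤ k ≤ m-1`: `m - 1` distinct real zeros, hence all its zeros are real, and those of
`A n` too. (`Polynomial.card_roots'`, or: the product of the `X - ρ_k` divides `U`, the quotient is constant.)
`n ≤ 3`: `A n` has degree `≤ 1` and `A_n(0) = 0`, `coeff 1 > 0`.
-/

set_option autoImplicit false

namespace RR

open Polynomial

private theorem A_ne_zero (n : ℕ) : A n ≠ 0 := by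
  intro h
  have h1 := A_coeff_one_pos (n := n)
  rw [h] at h1
  simp at h1

/-- a real polynomial with as many real roots as its degree has only real zeros -/
private theorem real_of_card {P : ℝ[X]} (hP : P ≠ 0) (h : Multiset.card P.roots = P.natDegree)
    {z : ℂ} (hz : aeval z P = 0) : z.im = 0 := by
  have h1 := Polynomial.C_leadingCoeff_mul_prod_multiset_X_sub_C h
  rw [← h1, map_mul, aeval_C, map_multiset_prod, Multiset.map_map] at hz
  rcases mul_eq_zero.mp hz with h2 | h2
  · have h3 : P.leadingCoeff = 0 := by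
      simpa using h2
    exact absurd (Polynomial.leadingCoeff_eq_zero.mp h3) hP
  · rw [Multiset.prod_eq_zero_iff, Multiset.mem_map] at h2
    obtain ⟨a, _, ha⟩ := h2
    have h4 : z - (a : ℂ) = 0 := by
      simpa using ha
    have h5 : z = (a : ℂ) := sub_eq_zero.mp h4
    rw [h5]
    exact Complex.ofReal_im a

/-- the sign pattern in abstract form -/
private theorem real_of_pattern {P : ℝ[X]} {m : ℕ} (hm : 1 ≤ m) (hdeg : P.natDegree ≤ m)
    (h0 : P.coeff 0 = 0) (h1 : 0 < P.coeff 1) (x : ℕ → ℝ) (x1 : x 1 = 0)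
    (hx : ∀ k, 1 ≤ k → k + 1 ≤ m → x (k + 1) < x k)
    (hs : ∀ k, 2 ≤ k → k ≤ m → 0 < (-1 : ℝ) ^ k * P.eval (x k)) {z : ℂ} (hz : aeval z P = 0) :
    z.im = 0 := by
  have hP : P ≠ 0 := by
    intro h
    rw [h] at h1
    simp at h1
  set U : ℝ[X] := P.divX with hU
  have hPU : P = U * X := by
    have h2 := Polynomial.divX_mul_X_add P
    rw [h0, map_zero, add_zero] at h2
    exact h2.symm
  have hU0 : U.eval 0 = P.coeff 1 := by
    rw [← Polynomial.coeff_zero_eq_eval_zero, hU, Polynomial.coeff_divX]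
  have hle : ∀ j k, 1 ≤ j → j ≤ k → k ≤ m → x k ≤ x j := by
    intro j k hj hjk
    induction k, hjk using Nat.le_induction with
    | base => intro _; exact le_rfl
    | succ k hk ih =>
      intro hkm
      exact (hx k (by omega) hkm).le.trans (ih (by omega))
  have hneg : ∀ k, 2 ≤ k → k ≤ m → x k < 0 := by
    intro k hk hkm
    have h3 := hle 2 k (by omega) hk hkm
    have h4 := hx 1 le_rfl (by omega)
    rw [x1] at h4
    exact lt_of_le_of_lt h3 h4
  have hsU : ∀ k, 1 ≤ k → k ≤ m → 0 < (-1 : ℝ) ^ (k + 1) * U.eval (x k) := by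
    intro k hk hkm
    rcases Nat.eq_or_lt_of_le hk with h2 | h2
    · rw [← h2, x1, hU0]
      simpa using h1
    · have h3 := hs k h2 hkm
      rw [hPU, Polynomial.eval_mul, Polynomial.eval_X] at h3
      have h4 := hneg k h2 hkm
      have h5 : (-1 : ℝ) ^ k * (U.eval (x k) * x k)
          = ((-1 : ℝ) ^ (k + 1) * U.eval (x k)) * (-(x k)) := by
        rw [pow_succ]; ring
      rw [h5] at h3
      exact (pos_iff_pos_of_mul_pos h3).mpr (by linarith)
  have hroot : ∀ k, 1 ≤ k → k + 1 ≤ m → ∃ t, x (k + 1) < t ∧ t < x k ∧ P.eval t = 0 := by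
    intro k hk hkm
    have h2 := hsU k hk (by omega)
    have h3 := hsU (k + 1) (by omega) hkm
    have h4 : (-1 : ℝ) ^ (k + 1) * U.eval (x (k + 1)) < 0 := by
      rw [pow_succ] at h3
      linarith
    have hc : ContinuousOn (fun t => (-1 : ℝ) ^ (k + 1) * U.eval t) (Set.Icc (x (k + 1)) (x k)) :=
      (continuous_const.mul U.continuous).continuousOn
    obtain ⟨t, ht, ht2⟩ := intermediate_value_Ioo (hx k hk hkm).le hc ⟨h4, h2⟩
    refine ⟨t, ht.1, ht.2, ?_⟩
    have h5 : U.eval t = 0 := by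
      rcases mul_eq_zero.mp ht2 with h6 | h6
      · exact absurd h6 (pow_ne_zero _ (by norm_num))
      · exact h6
    rw [hPU, Polynomial.eval_mul, h5, zero_mul]
  classical
  let r : ℕ → ℝ := fun k => if h : 1 ≤ k ∧ k + 1 ≤ m then (hroot k h.1 h.2).choose else 0
  have hr : ∀ k, 1 ≤ k → k + 1 ≤ m → x (k + 1) < r k ∧ r k < x k ∧ P.eval (r k) = 0 := by
    intro k h2 h3
    have h4 := (hroot k h2 h3).choose_spec
    simp only [r]
    rw [dif_pos ⟨h2, h3⟩]
    exact h4
  have hr0 : r 0 = 0 := by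
    simp [r]
  have hP0 : P.eval 0 = 0 := by
    rw [← Polynomial.coeff_zero_eq_eval_zero, h0]
  have hlt : ∀ j k, j < k → k < m → r k < r j := by
    intro j k hjk hkm
    have h2 := hr k (by omega) (by omega)
    rcases Nat.eq_zero_or_pos j with h3 | h3
    · rw [h3, hr0]
      have h4 := hle 1 k le_rfl (by omega) (by omega)
      rw [x1] at h4
      linarith
    · have h4 := hr j h3 (by omega)
      have h5 := hle (j + 1) k (by omega) (by omega) (by omega)
      linarith
  have hinj : Set.InjOn r (Finset.range m : Set ℕ) := by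
    intro j hj k hk hjk
    rw [Finset.coe_range, Set.mem_Iio] at hj hk
    rcases lt_trichotomy j k with h2 | h2 | h2
    · exact absurd hjk (hlt j k h2 hk).ne'
    · exact h2
    · exact absurd hjk (hlt k j h2 hj).ne
  have hsub : (Finset.range m).image r ⊆ P.roots.toFinset := by
    intro t ht
    rw [Finset.mem_image] at ht
    obtain ⟨k, hk, rfl⟩ := ht
    rw [Finset.mem_range] at hk
    rw [Multiset.mem_toFinset, Polynomial.mem_roots hP, Polynomial.IsRoot.def]
    rcases Nat.eq_zero_or_pos k with h2 | h2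
    · rw [h2, hr0, hP0]
    · exact (hr k h2 (by omega)).2.2
  have hcard : m ≤ Multiset.card P.roots := by
    have h2 := Finset.card_le_card hsub
    rw [Finset.card_image_of_injOn hinj, Finset.card_range] at h2
    exact h2.trans (Multiset.toFinset_card_le _)
  have hcard2 := Polynomial.card_roots' P
  exact real_of_card hP (le_antisymm hcard2 (hdeg.trans hcard)) hz

theorem real_of_signs {n : ℕ} (hn : 4 ≤ n) (h : Signs n) :
    A n ≠ 0 ∧ ∀ z : ℂ, aeval z (A n) = 0 → z.im = 0 := by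
  refine ⟨A_ne_zero n, fun z hz => ?_⟩
  obtain ⟨pts, hpts, hdec, hsgn⟩ := h
  let P : ℝ[X] := (A n).map (Int.castRingHom ℝ)
  have hinjc : Function.Injective (Int.castRingHom ℝ) := Int.cast_injective
  have hdeg : P.natDegree ≤ n / 2 := (Polynomial.natDegree_map_le).trans (A_natDegree_le (by omega))
  have h0 : P.coeff 0 = 0 := by
    simp [P, Polynomial.coeff_map, A_coeff_zero]
  have h1 : 0 < P.coeff 1 := by
    have h2 := A_coeff_one_pos (n := n)
    simp only [P, Polynomial.coeff_map, eq_intCast]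
    exact_mod_cast h2
  have hev : ∀ x : ℝ, P.eval x = aeval x (A n) := by
    intro x
    simp only [P]
    rw [Polynomial.eval_map, Polynomial.aeval_def]
    rfl
  let x : ℕ → ℝ := fun k => if k ≤ 1 then 0 else 1 - ((pts k) ^ 2)⁻¹
  have x1 : x 1 = 0 := by simp [x]
  have hx2 : ∀ k, 2 ≤ k → x k = 1 - ((pts k) ^ 2)⁻¹ := by
    intro k hk
    simp only [x]
    rw [if_neg (by omega)]
  have hx : ∀ k, 1 ≤ k → k + 1 ≤ n / 2 → x (k + 1) < x k := by
    intro k hk hkm
    rw [hx2 (k + 1) (by omega)]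
    have h2 := hpts (k + 1) (by omega) hkm
    have h3 : (pts (k + 1)) ^ 2 < 1 := by nlinarith [h2.1, h2.2]
    have h4 : 0 < (pts (k + 1)) ^ 2 := pow_pos h2.1 2
    rcases Nat.eq_or_lt_of_le hk with h5 | h5
    · rw [← h5, x1]
      rw [← h5] at h3 h4
      have h6 : 1 < ((pts (1 + 1)) ^ 2)⁻¹ := (one_lt_inv₀ h4).mpr h3
      linarith
    · rw [hx2 k h5]
      have h6 := hdec k h5 hkm
      have h7 := (hpts k h5 (by omega)).1
      have h8 : (pts (k + 1)) ^ 2 < (pts k) ^ 2 := by nlinarith [h2.1]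
      have h9 : ((pts k) ^ 2)⁻¹ < ((pts (k + 1)) ^ 2)⁻¹ := by
        rw [inv_lt_inv₀ (pow_pos h7 2) h4]
        exact h8
      linarith
  have hs : ∀ k, 2 ≤ k → k ≤ n / 2 → 0 < (-1 : ℝ) ^ k * P.eval (x k) := by
    intro k hk hkm
    have h2 := hpts k hk hkm
    have h3 := hsgn k hk hkm
    rw [bridge h2.1 h2.2 (by omega)] at h3
    rw [hev, A_eval _ (by omega), hx2 k hk]
    have h4 : (-1 : ℝ) ^ k * (pts k ^ n * ((1 - (pts k ^ 2)⁻¹) * phi (1 - (pts k ^ 2)⁻¹) 1 (n - 1)) /
        ((n - 1).factorial : ℝ)) = ((-1 : ℝ) ^ k * ((1 - (pts k ^ 2)⁻¹) *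
          phi (1 - (pts k ^ 2)⁻¹) 1 (n - 1))) * (pts k ^ n / ((n - 1).factorial : ℝ)) := by ring
    rw [h4] at h3
    have h5 : 0 < pts k ^ n / ((n - 1).factorial : ℝ) := by
      have := h2.1
      positivity
    exact (pos_iff_pos_of_mul_pos h3).mpr h5
  have hz2 : aeval z P = 0 := by
    simp only [P]
    rw [← hz]
    have h6 : (A n).map (Int.castRingHom ℝ) = (A n).map (algebraMap ℤ ℝ) := rfl
    rw [h6, Polynomial.aeval_map_algebraMap]
  exact real_of_pattern (by omega) hdeg h0 h1 x x1 hx hs hz2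

theorem real_small {n : ℕ} (h1 : 1 ≤ n) (h3 : n ≤ 3) :
    A n ≠ 0 ∧ ∀ z : ℂ, aeval z (A n) = 0 → z.im = 0 := by
  refine ⟨A_ne_zero n, fun z hz => ?_⟩
  rcases Nat.eq_or_lt_of_le h1 with h2 | h2
  · rw [← h2, A_one, aeval_X] at hz
    rw [hz]; rfl
  · have hd : (A n).natDegree ≤ 1 := (A_natDegree_le (by omega)).trans (by omega)
    have h4 := Polynomial.eq_X_add_C_of_natDegree_le_one hd
    rw [A_coeff_zero, map_zero, add_zero] at h4
    rw [h4, map_mul, aeval_C, aeval_X] at hz
    have h5 := A_coeff_one_pos (n := n)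
    rcases mul_eq_zero.mp hz with h6 | h6
    · have h7 : (A n).coeff 1 = 0 := by simpa using h6
      omega
    · rw [h6]; rfl

end RR
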