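import Pool.Agent.Lib.MP_31701c_co.KComplex
import Pool.Agent.Lib.MP_31701c_co.Expm
import Pool.Agent.Lib.MP_31701c_co.Parts

/-!
# RR-RestD : `XI1 e z - T XI e z` minus its main term

`e9 ≤ e < 1`, `T = 2 + e`, `z.re ≥ 4.4`, `s(θ) = sin²/QQ`. The integrand of `XI1 - T XI` is
`t(e^{tz}-1) - T(e^{tz}-1-tz) = -(T-t)(e^{tz}-1-tz) + t² z` (times `s`), `T - t = yy θ`.
* `t² z` over `[0,π]`: at most `1.34 ‖z‖` (`total_part`).
* on `[π/2,π]`: `0 ≤ yy ≤ 4`: at most `4 λ² 0.668 e^{ex}` (`expm_bound`, `expm_real_le`, `part1`).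
* on `[thc,π/2]`: `yy ≤ 2`: at most `2 λ² 0.0985/(x-1.469) e^{(e+0.8)x}` (`part2`).
* on `[0,thc]`: `-yy e^{tz} s` against `-yy wt e^{tz}` (that is `-e^{Tz} KC1 z`): difference at most
  `1.7 β (2/π) ∫ yy wt e^{tx} = 1.7 β e^{Tx} KK 1 x = 1.7 β kk e x mm x` (`wt_cmp`); and `yy (1+tz) s`, `yy ≤ 1.2`:
  at most `1.2·0.2 (1+3‖z‖) ≤ 0.25 (3 + 3‖z‖)` (`int_small`).
-/

set_option autoImplicit false

namespace RR

open intervalIntegral MeasureTheory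

/-- The factor `s`. -/
private noncomputable def RDs (e θ : ℝ) : ℝ := Real.sin θ ^ 2 / QQ e (tt e θ)

private theorem RDs_cont {e : ℝ} (h0 : 0 ≤ e) (h1 : e < 1) : Continuous (RDs e) := by
  unfold RDs
  exact continuous_sinQQ h0 h1

private theorem RDs_nonneg {e : ℝ} (h0 : 0 ≤ e) (h1 : e < 1) (θ : ℝ) : 0 ≤ RDs e θ :=
  div_nonneg (sq_nonneg _) (QQ_pos h0 h1 _).le

private theorem RD_tt (e : ℝ) : Continuous (tt e) := by unfold tt; fun_prop

private theorem RD_yy : Continuous yy := by unfold yy; fun_prop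

/-- The remainder `e^{tz} - 1 - tz`. -/
private noncomputable def RDr (e : ℝ) (z : ℂ) (θ : ℝ) : ℂ :=
  Complex.exp ((tt e θ : ℝ) * z) - 1 - (tt e θ : ℝ) * z

private theorem RDr_cont (e : ℝ) (z : ℂ) : Continuous (RDr e z) := by
  have := RD_tt e
  unfold RDr
  fun_prop

private theorem RD_le {a b : ℝ} (hab : a ≤ b) {f : ℝ → ℂ} {g : ℝ → ℝ}
    (h : ∀ θ, a ≤ θ → θ ≤ b → ‖f θ‖ ≤ g θ) (hg : IntervalIntegrable g volume a b) :
    ‖((2 / Real.pi : ℝ) : ℂ) * ∫ θ in a..b, f θ‖ ≤ 2 / Real.pi * ∫ θ in a..b, g θ := by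
  have h2 : (0 : ℝ) < 2 / Real.pi := by positivity
  rw [norm_mul, Complex.norm_real, Real.norm_of_nonneg h2.le]
  refine mul_le_mul_of_nonneg_left ?_ h2.le
  refine norm_integral_le_of_norm_le hab ?_ hg
  exact Filter.Eventually.of_forall fun θ hθ => h θ hθ.1.le hθ.2

private theorem RD_tt_le {e θ : ℝ} (h : Real.cos θ ≤ 0) : tt e θ ≤ e := by
  unfold tt; linarith

private theorem RD_A {e : ℝ} (h9 : e9 ≤ e) (h1 : e < 1) {z : ℂ} :
    ‖((2 / Real.pi : ℝ) : ℂ) * ∫ θ in (0:ℝ)..Real.pi,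
      ((tt e θ : ℝ) : ℂ) ^ 2 * z * ((RDs e θ : ℝ) : ℂ)‖ ≤ 1.34 * ‖z‖ := by
  have he : (0.999875 : ℝ) ≤ e := by unfold e9 at h9; exact h9
  have he0 : (0 : ℝ) ≤ e := by linarith
  have hs := RDs_cont he0 h1
  have ht := RD_tt e
  refine (RD_le Real.pi_pos.le (g := fun θ => ‖z‖ * ((tt e θ) ^ 2 * RDs e θ)) ?_ ?_).trans ?_
  · intro θ _ _
    rw [norm_mul, norm_mul, norm_pow, Complex.norm_real, Complex.norm_real,
      Real.norm_of_nonneg (RDs_nonneg he0 h1 θ), Real.norm_eq_abs, sq_abs]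
    exact le_of_eq (by ring)
  · exact (Continuous.intervalIntegrable (by fun_prop) _ _)
  · rw [intervalIntegral.integral_const_mul]
    have := total_part h9 h1
    have h2 : 2 / Real.pi * (‖z‖ * ∫ θ in (0:ℝ)..Real.pi, (tt e θ) ^ 2 * RDs e θ) =
        (2 / Real.pi * ∫ θ in (0:ℝ)..Real.pi, (tt e θ) ^ 2 * RDs e θ) * ‖z‖ := by ring
    rw [h2]
    exact mul_le_mul_of_nonneg_right this (norm_nonneg _)

private theorem RD_B {e : ℝ} (h9 : e9 ≤ e) (h1 : e < 1) {z : ℂ} (hz : 4.4 ≤ z.re) :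
    ‖((2 / Real.pi : ℝ) : ℂ) * ∫ θ in (Real.pi / 2)..Real.pi,
      ((yy θ : ℝ) : ℂ) * RDr e z θ * ((RDs e θ : ℝ) : ℂ)‖ ≤
      (‖z‖ / z.re) ^ 2 * (4 * 0.668 * Real.exp (e * z.re)) := by
  have he : (0.999875 : ℝ) ≤ e := by unfold e9 at h9; exact h9
  have he0 : (0 : ℝ) ≤ e := by linarith
  have hs := RDs_cont he0 h1
  have ht := RD_tt e
  have hpi := Real.pi_pos
  have hx : 0 < z.re := by linarith
  refine (RD_le (by linarith) (g := fun θ => 4 * ((‖z‖ / z.re) ^ 2 * Real.exp (e * z.re)) *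
    ((tt e θ / e) ^ 2 * RDs e θ)) ?_ ?_).trans ?_
  · intro θ ha hb
    have hs0 := RDs_nonneg he0 h1 θ
    have hc : Real.cos θ ≤ 0 := Real.cos_nonpos_of_pi_div_two_le_of_le ha (by linarith)
    have hc1 := Real.neg_one_le_cos θ
    have hy0 : 0 ≤ yy θ := by unfold yy; linarith
    have hy4 : yy θ ≤ 4 := by unfold yy; linarith
    rw [norm_mul, norm_mul, Complex.norm_real, Complex.norm_real, Real.norm_of_nonneg hs0,
      Real.norm_of_nonneg hy0]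
    have hr : ‖RDr e z θ‖ ≤ (‖z‖ / z.re) ^ 2 * ((tt e θ / e) ^ 2 * Real.exp (e * z.re)) := by
      refine (expm_bound (tt e θ) hx).trans ?_
      refine mul_le_mul_of_nonneg_left ?_ (sq_nonneg _)
      refine (expm_real_le (by linarith) hx (RD_tt_le hc)).trans ?_
      refine mul_le_mul_of_nonneg_left ?_ (sq_nonneg _)
      have : 0 ≤ e * z.re := mul_nonneg he0 hx.le
      linarith
    have h3 : yy θ * ‖RDr e z θ‖ ≤
        4 * ((‖z‖ / z.re) ^ 2 * ((tt e θ / e) ^ 2 * Real.exp (e * z.re))) :=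
      mul_le_mul hy4 hr (norm_nonneg _) (by norm_num)
    calc yy θ * ‖RDr e z θ‖ * RDs e θ ≤
        4 * ((‖z‖ / z.re) ^ 2 * ((tt e θ / e) ^ 2 * Real.exp (e * z.re))) * RDs e θ :=
          mul_le_mul_of_nonneg_right h3 hs0
      _ = _ := by ring
  · exact (Continuous.intervalIntegrable (by fun_prop) _ _)
  · rw [intervalIntegral.integral_const_mul]
    have := part1 h9 h1
    have h2 : 2 / Real.pi * (4 * ((‖z‖ / z.re) ^ 2 * Real.exp (e * z.re)) *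
          ∫ θ in (Real.pi / 2)..Real.pi, (tt e θ / e) ^ 2 * RDs e θ) =
        4 * ((‖z‖ / z.re) ^ 2 * Real.exp (e * z.re)) * (2 / Real.pi *
          ∫ θ in (Real.pi / 2)..Real.pi, (tt e θ / e) ^ 2 * RDs e θ) := by ring
    rw [h2]
    refine (mul_le_mul_of_nonneg_left this (by positivity)).trans (le_of_eq ?_)
    ring

private theorem RD_C {e : ℝ} (h9 : e9 ≤ e) (h1 : e < 1) {z : ℂ} (hz : 4.4 ≤ z.re) :
    ‖((2 / Real.pi : ℝ) : ℂ) * ∫ θ in thc..(Real.pi / 2),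
      ((yy θ : ℝ) : ℂ) * RDr e z θ * ((RDs e θ : ℝ) : ℂ)‖ ≤
      (‖z‖ / z.re) ^ 2 * (2 * 0.0985 / (z.re - 1.469) * Real.exp ((e + 0.8) * z.re)) := by
  have he : (0.999875 : ℝ) ≤ e := by unfold e9 at h9; exact h9
  have he0 : (0 : ℝ) ≤ e := by linarith
  have hs := RDs_cont he0 h1
  have ht := RD_tt e
  have hpi := Real.pi_pos
  have hx : 0 < z.re := by linarith
  refine (RD_le thc_lt.le (g := fun θ => 2 * (‖z‖ / z.re) ^ 2 *
    (Real.exp (tt e θ * z.re) * RDs e θ)) ?_ ?_).trans ?_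
  · intro θ ha hb
    have hs0 := RDs_nonneg he0 h1 θ
    have hth := thc_pos
    have hc : 0 ≤ Real.cos θ := Real.cos_nonneg_of_neg_pi_div_two_le_of_le (by linarith) hb
    have hc1 := Real.cos_le_one θ
    have hy0 : 0 ≤ yy θ := by unfold yy; linarith
    have hy2 : yy θ ≤ 2 := by unfold yy; linarith
    have ht0 : 0 ≤ tt e θ := by unfold tt; linarith
    rw [norm_mul, norm_mul, Complex.norm_real, Complex.norm_real, Real.norm_of_nonneg hs0,
      Real.norm_of_nonneg hy0]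
    have hr : ‖RDr e z θ‖ ≤ (‖z‖ / z.re) ^ 2 * Real.exp (tt e θ * z.re) := by
      refine (expm_bound (tt e θ) hx).trans ?_
      refine mul_le_mul_of_nonneg_left ?_ (sq_nonneg _)
      have : 0 ≤ tt e θ * z.re := mul_nonneg ht0 hx.le
      linarith
    have h3 : yy θ * ‖RDr e z θ‖ ≤ 2 * ((‖z‖ / z.re) ^ 2 * Real.exp (tt e θ * z.re)) :=
      mul_le_mul hy2 hr (norm_nonneg _) (by norm_num)
    calc yy θ * ‖RDr e z θ‖ * RDs e θ ≤
        2 * ((‖z‖ / z.re) ^ 2 * Real.exp (tt e θ * z.re)) * RDs e θ :=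
          mul_le_mul_of_nonneg_right h3 hs0
      _ = _ := by ring
  · exact (Continuous.intervalIntegrable (by fun_prop) _ _)
  · rw [intervalIntegral.integral_const_mul]
    have := part2 h9 h1 hz
    have h2 : 2 / Real.pi * (2 * (‖z‖ / z.re) ^ 2 *
          ∫ θ in thc..(Real.pi / 2), Real.exp (tt e θ * z.re) * RDs e θ) =
        2 * (‖z‖ / z.re) ^ 2 * (2 / Real.pi *
          ∫ θ in thc..(Real.pi / 2), Real.exp (tt e θ * z.re) * RDs e θ) := by ring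
    rw [h2]
    refine (mul_le_mul_of_nonneg_left this (by positivity)).trans (le_of_eq ?_)
    ring

private theorem RD_kkmm (e x : ℝ) : 2 / Real.pi *
    ∫ θ in (0:ℝ)..thc, yy θ * wt θ * Real.exp (tt e θ * x) = kk e x * mm x := by
  have h1 : kk e x * mm x = Real.exp ((2 + e) * x) * KK 1 x := by
    unfold kk mm
    have := (KK_pos 0 x).ne'
    field_simp
  rw [h1]
  unfold KK
  rw [show Real.exp ((2 + e) * x) * (2 / Real.pi * ∫ θ in (0:ℝ)..thc,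
      yy θ ^ 1 * wt θ * Real.exp (-(yy θ * x))) = 2 / Real.pi * (Real.exp ((2 + e) * x) *
      ∫ θ in (0:ℝ)..thc, yy θ ^ 1 * wt θ * Real.exp (-(yy θ * x))) by ring,
    ← intervalIntegral.integral_const_mul (Real.exp ((2 + e) * x))]
  congr 1
  refine intervalIntegral.integral_congr fun θ _ => ?_
  change yy θ * wt θ * Real.exp (tt e θ * x) =
    Real.exp ((2 + e) * x) * (yy θ ^ 1 * wt θ * Real.exp (-(yy θ * x)))
  have h2 : Real.exp (tt e θ * x) = Real.exp ((2 + e) * x) * Real.exp (-(yy θ * x)) := by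
    rw [← Real.exp_add]
    congr 1
    unfold tt yy
    ring
  rw [h2]
  ring

private theorem RD_wtC {f : ℝ → ℂ} (hf : Continuous f) :
    IntervalIntegrable (fun θ => ((wt θ : ℝ) : ℂ) * f θ) volume 0 thc :=
  ContinuousOn.intervalIntegrable_of_Icc thc_pos.le
    ((Complex.continuous_ofReal.comp_continuousOn continuousOn_wt).mul hf.continuousOn)

private theorem RD_D {e : ℝ} (h9 : e9 ≤ e) (h1 : e < 1) {z : ℂ} :
    ‖((2 / Real.pi : ℝ) : ℂ) * ∫ θ in (0:ℝ)..thc,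
      ((yy θ : ℝ) : ℂ) * Complex.exp ((tt e θ : ℝ) * z) * (((RDs e θ - wt θ : ℝ)) : ℂ)‖ ≤
      1.7 * (1 - e ^ 2) * (kk e z.re * mm z.re) := by
  have he : (0.999875 : ℝ) ≤ e := by unfold e9 at h9; exact h9
  have he0 : (0 : ℝ) ≤ e := by linarith
  have hs := RDs_cont he0 h1
  have ht := RD_tt e
  have hy := RD_yy
  refine (RD_le thc_pos.le (g := fun θ => 1.7 * (1 - e ^ 2) *
    (yy θ * wt θ * Real.exp (tt e θ * z.re))) ?_ ?_).trans ?_
  · intro θ ha hb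
    have hw := wt_cmp h9 h1 ha hb
    have hy0 := (yy_mem ha hb).1
    have hd : 0 ≤ RDs e θ - wt θ := by
      have := hw.1
      unfold RDs
      linarith
    rw [norm_mul, norm_mul, Complex.norm_real, Complex.norm_real, Real.norm_of_nonneg hd,
      Real.norm_of_nonneg hy0, Complex.norm_exp]
    have hre : (((tt e θ : ℝ) : ℂ) * z).re = tt e θ * z.re := by
      rw [Complex.re_ofReal_mul]
    rw [hre]
    have hd2 : RDs e θ - wt θ ≤ 1.7 * (1 - e ^ 2) * wt θ := by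
      have := hw.2
      unfold RDs
      linarith
    calc yy θ * Real.exp (tt e θ * z.re) * (RDs e θ - wt θ) ≤
        yy θ * Real.exp (tt e θ * z.re) * (1.7 * (1 - e ^ 2) * wt θ) :=
          mul_le_mul_of_nonneg_left hd2 (mul_nonneg hy0 (Real.exp_pos _).le)
      _ = _ := by ring
  · refine IntervalIntegrable.const_mul ?_ _
    refine ContinuousOn.intervalIntegrable_of_Icc thc_pos.le ?_
    exact (hy.continuousOn.mul continuousOn_wt).mul (Continuous.continuousOn (by fun_prop))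
  · rw [intervalIntegral.integral_const_mul]
    refine le_of_eq ?_
    rw [← RD_kkmm e z.re]
    ring

private theorem RD_E {e : ℝ} (h9 : e9 ≤ e) (h1 : e < 1) {z : ℂ} :
    ‖((2 / Real.pi : ℝ) : ℂ) * ∫ θ in (0:ℝ)..thc,
      ((yy θ : ℝ) : ℂ) * (1 + (tt e θ : ℝ) * z) * ((RDs e θ : ℝ) : ℂ)‖ ≤
      0.25 * (3 + 3 * ‖z‖) := by
  have he : (0.999875 : ℝ) ≤ e := by unfold e9 at h9; exact h9
  have he0 : (0 : ℝ) ≤ e := by linarith
  have hs := RDs_cont he0 h1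
  refine (RD_le thc_pos.le (g := fun θ => 1.2 * (1 + 3 * ‖z‖) * RDs e θ) ?_ ?_).trans ?_
  · intro θ ha hb
    have hs0 := RDs_nonneg he0 h1 θ
    have hc := le_cos_of_le_thc ha hb
    have hc1 := Real.cos_le_one θ
    have hy0 := (yy_mem ha hb).1
    have hy1 := (yy_mem ha hb).2
    have ht0 : 0 ≤ tt e θ := by unfold tt; linarith
    have ht3 : tt e θ ≤ 3 := by unfold tt; linarith
    rw [norm_mul, norm_mul, Complex.norm_real, Complex.norm_real, Real.norm_of_nonneg hs0,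
      Real.norm_of_nonneg hy0]
    have hn : ‖1 + ((tt e θ : ℝ) : ℂ) * z‖ ≤ 1 + 3 * ‖z‖ := by
      refine (norm_add_le _ _).trans ?_
      rw [norm_one, norm_mul, Complex.norm_real, Real.norm_of_nonneg ht0]
      have := mul_le_mul_of_nonneg_right ht3 (norm_nonneg z)
      linarith
    exact mul_le_mul_of_nonneg_right (mul_le_mul hy1 hn (norm_nonneg _) (by norm_num)) hs0
  · exact (Continuous.intervalIntegrable (by fun_prop) _ _)
  · rw [intervalIntegral.integral_const_mul]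
    have := int_small h9 h1
    have h2 : 2 / Real.pi * (1.2 * (1 + 3 * ‖z‖) * ∫ θ in (0:ℝ)..thc, RDs e θ) =
        1.2 * (1 + 3 * ‖z‖) * (2 / Real.pi * ∫ θ in (0:ℝ)..thc, RDs e θ) := by ring
    rw [h2]
    have h3 := norm_nonneg z
    refine (mul_le_mul_of_nonneg_left this (by positivity)).trans ?_
    linarith

theorem XI1_main {e : ℝ} (h9 : e9 ≤ e) (h1 : e < 1) {z : ℂ} (hz : 4.4 ≤ z.re) :
    ‖XI1 e z - ((2 + e : ℝ) : ℂ) * XI e z + Complex.exp (((2 + e : ℝ) : ℂ) * z) * KC1 z‖ ≤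
      (‖z‖ / z.re) ^ 2 * (4 * 0.668 * Real.exp (e * z.re) +
        2 * 0.0985 / (z.re - 1.469) * Real.exp ((e + 0.8) * z.re)) +
      1.34 * ‖z‖ + 0.25 * (3 + 3 * ‖z‖) + 1.7 * (1 - e ^ 2) * (kk e z.re * mm z.re) := by
  have he : (0.999875 : ℝ) ≤ e := by unfold e9 at h9; exact h9
  have he0 : (0 : ℝ) ≤ e := by linarith
  have hs := RDs_cont he0 h1
  have ht := RD_tt e
  have hy := RD_yy
  have hr := RDr_cont e z
  obtain ⟨IA, hIA⟩ : ∃ I, I = ∫ θ in (0:ℝ)..Real.pi,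
      ((tt e θ : ℝ) : ℂ) ^ 2 * z * ((RDs e θ : ℝ) : ℂ) := ⟨_, rfl⟩
  obtain ⟨IB, hIB⟩ : ∃ I, I = ∫ θ in (Real.pi / 2)..Real.pi,
      ((yy θ : ℝ) : ℂ) * RDr e z θ * ((RDs e θ : ℝ) : ℂ) := ⟨_, rfl⟩
  obtain ⟨IC, hIC⟩ : ∃ I, I = ∫ θ in thc..(Real.pi / 2),
      ((yy θ : ℝ) : ℂ) * RDr e z θ * ((RDs e θ : ℝ) : ℂ) := ⟨_, rfl⟩
  obtain ⟨ID, hID⟩ : ∃ I, I = ∫ θ in (0:ℝ)..thc,
      ((yy θ : ℝ) : ℂ) * Complex.exp ((tt e θ : ℝ) * z) * (((RDs e θ - wt θ : ℝ)) : ℂ) := ⟨_, rfl⟩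
  obtain ⟨IE, hIE⟩ : ∃ I, I = ∫ θ in (0:ℝ)..thc,
      ((yy θ : ℝ) : ℂ) * (1 + (tt e θ : ℝ) * z) * ((RDs e θ : ℝ) : ℂ) := ⟨_, rfl⟩
  obtain ⟨IW, hIW⟩ : ∃ I, I = ∫ θ in (0:ℝ)..thc,
      ((yy θ : ℝ) : ℂ) * Complex.exp ((tt e θ : ℝ) * z) * ((wt θ : ℝ) : ℂ) := ⟨_, rfl⟩
  have hA := RD_A h9 h1 (z := z)
  have hB := RD_B h9 h1 hz
  have hC := RD_C h9 h1 hz
  have hD := RD_D h9 h1 (z := z)
  have hE := RD_E h9 h1 (z := z)
  rw [← hIA] at hA
  rw [← hIB] at hB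
  rw [← hIC] at hC
  rw [← hID] at hD
  rw [← hIE] at hE
  -- the difference as one integral
  have hdiff : XI1 e z - ((2 + e : ℝ) : ℂ) * XI e z = ((2 / Real.pi : ℝ) : ℂ) * (IA -
      ∫ θ in (0:ℝ)..Real.pi, ((yy θ : ℝ) : ℂ) * RDr e z θ * ((RDs e θ : ℝ) : ℂ)) := by
    rw [hIA, ← intervalIntegral.integral_sub
      (Continuous.intervalIntegrable (by fun_prop) _ _)
      (Continuous.intervalIntegrable (by fun_prop) _ _)]
    unfold XI1 XI
    rw [show ((2 + e : ℝ) : ℂ) * (((2 / Real.pi : ℝ) : ℂ) * ∫ θ in (0:ℝ)..Real.pi,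
      (Complex.exp ((tt e θ : ℝ) * z) - 1 - (tt e θ : ℝ) * z) *
      ((Real.sin θ ^ 2 / QQ e (tt e θ) : ℝ) : ℂ)) = ((2 / Real.pi : ℝ) : ℂ) *
      (((2 + e : ℝ) : ℂ) * ∫ θ in (0:ℝ)..Real.pi,
      (Complex.exp ((tt e θ : ℝ) * z) - 1 - (tt e θ : ℝ) * z) *
      ((Real.sin θ ^ 2 / QQ e (tt e θ) : ℝ) : ℂ)) by ring,
      ← mul_sub, ← intervalIntegral.integral_const_mul ((2 + e : ℝ) : ℂ),
      ← intervalIntegral.integral_sub]
    · congr 1
      refine intervalIntegral.integral_congr fun θ _ => ?_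
      change ((tt e θ : ℝ) * (Complex.exp ((tt e θ : ℝ) * z) - 1)) *
        ((RDs e θ : ℝ) : ℂ) - ((2 + e : ℝ) : ℂ) *
        ((Complex.exp ((tt e θ : ℝ) * z) - 1 - (tt e θ : ℝ) * z) * ((RDs e θ : ℝ) : ℂ)) =
        ((tt e θ : ℝ) : ℂ) ^ 2 * z * ((RDs e θ : ℝ) : ℂ) -
        ((yy θ : ℝ) : ℂ) * RDr e z θ * ((RDs e θ : ℝ) : ℂ)
      have hyt : ((yy θ : ℝ) : ℂ) = ((2 + e : ℝ) : ℂ) - ((tt e θ : ℝ) : ℂ) := by
        rw [← Complex.ofReal_sub]
        congr 1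
        unfold yy tt
        ring
      rw [hyt]
      unfold RDr
      ring
    · refine Continuous.intervalIntegrable ?_ _ _
      change Continuous fun θ => ((tt e θ : ℝ) * (Complex.exp ((tt e θ : ℝ) * z) - 1)) *
        ((RDs e θ : ℝ) : ℂ)
      fun_prop
    · refine Continuous.intervalIntegrable ?_ _ _
      change Continuous fun θ => ((2 + e : ℝ) : ℂ) *
        ((Complex.exp ((tt e θ : ℝ) * z) - 1 - (tt e θ : ℝ) * z) * ((RDs e θ : ℝ) : ℂ))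
      fun_prop
  have hsplit : ∫ θ in (0:ℝ)..Real.pi, ((yy θ : ℝ) : ℂ) * RDr e z θ * ((RDs e θ : ℝ) : ℂ) =
      (∫ θ in (0:ℝ)..thc, ((yy θ : ℝ) : ℂ) * RDr e z θ * ((RDs e θ : ℝ) : ℂ)) + IC + IB := by
    rw [hIC, hIB, intervalIntegral.integral_add_adjacent_intervals,
      intervalIntegral.integral_add_adjacent_intervals]
    all_goals exact Continuous.intervalIntegrable (by fun_prop) _ _
  have hfirst : ∫ θ in (0:ℝ)..thc, ((yy θ : ℝ) : ℂ) * RDr e z θ * ((RDs e θ : ℝ) : ℂ) =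
      ID + IW - IE := by
    have hiW : IntervalIntegrable (fun θ => ((yy θ : ℝ) : ℂ) * Complex.exp ((tt e θ : ℝ) * z) *
        ((wt θ : ℝ) : ℂ)) volume 0 thc := by
      have := RD_wtC (f := fun θ => ((yy θ : ℝ) : ℂ) * Complex.exp ((tt e θ : ℝ) * z)) (by fun_prop)
      refine this.congr ?_
      exact fun θ _ => by
        change ((wt θ : ℝ) : ℂ) * (((yy θ : ℝ) : ℂ) * Complex.exp ((tt e θ : ℝ) * z)) = _
        ring
    have hiS : IntervalIntegrable (fun θ => ((yy θ : ℝ) : ℂ) * Complex.exp ((tt e θ : ℝ) * z) *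
        ((RDs e θ : ℝ) : ℂ)) volume 0 thc := Continuous.intervalIntegrable (by fun_prop) _ _
    have hiD : IntervalIntegrable (fun θ => ((yy θ : ℝ) : ℂ) * Complex.exp ((tt e θ : ℝ) * z) *
        (((RDs e θ - wt θ : ℝ)) : ℂ)) volume 0 thc := by
      refine (hiS.sub hiW).congr ?_
      exact fun θ _ => by
        change ((yy θ : ℝ) : ℂ) * Complex.exp ((tt e θ : ℝ) * z) * ((RDs e θ : ℝ) : ℂ) -
          ((yy θ : ℝ) : ℂ) * Complex.exp ((tt e θ : ℝ) * z) * ((wt θ : ℝ) : ℂ) = _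
        push_cast
        ring
    rw [hID, hIW, hIE, ← intervalIntegral.integral_add hiD hiW,
      ← intervalIntegral.integral_sub (hiD.add hiW)
        (Continuous.intervalIntegrable (by fun_prop) _ _)]
    refine intervalIntegral.integral_congr fun θ _ => ?_
    change ((yy θ : ℝ) : ℂ) * RDr e z θ * ((RDs e θ : ℝ) : ℂ) =
      ((yy θ : ℝ) : ℂ) * Complex.exp ((tt e θ : ℝ) * z) * (((RDs e θ - wt θ : ℝ)) : ℂ) +
      ((yy θ : ℝ) : ℂ) * Complex.exp ((tt e θ : ℝ) * z) * ((wt θ : ℝ) : ℂ) -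
      ((yy θ : ℝ) : ℂ) * (1 + (tt e θ : ℝ) * z) * ((RDs e θ : ℝ) : ℂ)
    unfold RDr
    push_cast
    ring
  have hKC : Complex.exp (((2 + e : ℝ) : ℂ) * z) * KC1 z = ((2 / Real.pi : ℝ) : ℂ) * IW := by
    unfold KC1
    rw [hIW, show Complex.exp (((2 + e : ℝ) : ℂ) * z) * (((2 / Real.pi : ℝ) : ℂ) *
      ∫ θ in (0:ℝ)..thc, ((yy θ * wt θ : ℝ) : ℂ) * Complex.exp (-((yy θ : ℝ) * z))) =
      ((2 / Real.pi : ℝ) : ℂ) * (Complex.exp (((2 + e : ℝ) : ℂ) * z) *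
      ∫ θ in (0:ℝ)..thc, ((yy θ * wt θ : ℝ) : ℂ) * Complex.exp (-((yy θ : ℝ) * z))) by ring,
      ← intervalIntegral.integral_const_mul]
    congr 1
    refine intervalIntegral.integral_congr fun θ _ => ?_
    change Complex.exp (((2 + e : ℝ) : ℂ) * z) *
      (((yy θ * wt θ : ℝ) : ℂ) * Complex.exp (-((yy θ : ℝ) * z))) =
      ((yy θ : ℝ) : ℂ) * Complex.exp ((tt e θ : ℝ) * z) * ((wt θ : ℝ) : ℂ)
    have h2 : Complex.exp ((tt e θ : ℝ) * z) =
        Complex.exp (((2 + e : ℝ) : ℂ) * z) * Complex.exp (-((yy θ : ℝ) * z)) := by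
      rw [← Complex.exp_add]
      congr 1
      unfold tt yy
      push_cast
      ring
    rw [h2]
    push_cast
    ring
  have hfin : XI1 e z - ((2 + e : ℝ) : ℂ) * XI e z +
      Complex.exp (((2 + e : ℝ) : ℂ) * z) * KC1 z =
      ((2 / Real.pi : ℝ) : ℂ) * IA - ((2 / Real.pi : ℝ) : ℂ) * IB - ((2 / Real.pi : ℝ) : ℂ) * IC -
        ((2 / Real.pi : ℝ) : ℂ) * ID + ((2 / Real.pi : ℝ) : ℂ) * IE := by
    rw [hdiff, hsplit, hfirst, hKC]
    ring
  rw [hfin]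
  refine (norm_add_le _ _).trans ?_
  have n1 := norm_sub_le (((2 / Real.pi : ℝ) : ℂ) * IA - ((2 / Real.pi : ℝ) : ℂ) * IB -
    ((2 / Real.pi : ℝ) : ℂ) * IC) (((2 / Real.pi : ℝ) : ℂ) * ID)
  have n2 := norm_sub_le (((2 / Real.pi : ℝ) : ℂ) * IA - ((2 / Real.pi : ℝ) : ℂ) * IB)
    (((2 / Real.pi : ℝ) : ℂ) * IC)
  have n3 := norm_sub_le (((2 / Real.pi : ℝ) : ℂ) * IA) (((2 / Real.pi : ℝ) : ℂ) * IB)
  have hsum : (‖z‖ / z.re) ^ 2 * (4 * 0.668 * Real.exp (e * z.re) +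
        2 * 0.0985 / (z.re - 1.469) * Real.exp ((e + 0.8) * z.re)) =
      (‖z‖ / z.re) ^ 2 * (4 * 0.668 * Real.exp (e * z.re)) +
      (‖z‖ / z.re) ^ 2 * (2 * 0.0985 / (z.re - 1.469) * Real.exp ((e + 0.8) * z.re)) := by ring
  rw [hsum]
  linarith

end RR
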