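import Pool.Agent.Lib.MP_31701c_co.Errs
import Pool.Agent.Lib.MP_31701c_co.RestD

/-!
# RR-Rest : `F_N` against its main term

`FN_sub_XI` (`|FN - XI| ≤ 1e-15`), `XI_main` with `‖z‖ ≤ 1.2 x`, `err_main`, `err_small`
(`(‖z‖/x)² ≥ 1`): total `kk (5.85 λ²/x³ + 0.2/x³ + 1.7β) ≤ kk (6.05 λ²/x³ + 2β)`.
-/

set_option autoImplicit false

namespace RR

private theorem rest_beta {e : ℝ} (h9 : e9 ≤ e) (h1 : e < 1) :
    0 ≤ 1 - e ^ 2 ∧ 1 - e ^ 2 ≤ 2.5e-4 := by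
  have h : (0.999875:ℝ) ≤ e := h9
  constructor <;> nlinarith

private theorem rest_sq {z : ℂ} (hz : 4.4 ≤ z.re) : 1 ≤ (‖z‖ / z.re) ^ 2 := by
  have hzre : z.re ≤ ‖z‖ := le_trans (le_abs_self _) (Complex.abs_re_le_norm z)
  have h1 : 1 ≤ ‖z‖ / z.re := by
    rw [le_div_iff₀ (by linarith)]
    linarith
  exact one_le_pow₀ h1

theorem rest_bound {e : ℝ} (h9 : e9 ≤ e) (h1 : e < 1) {N : ℕ} (hN : 400 ≤ N) {z : ℂ}
    (hz : 4.4 ≤ z.re) (hz2 : ‖z‖ ≤ 1.2 * z.re) (hz3 : ‖z‖ ≤ 0.043 * N) :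
    ‖FN e N z - Complex.exp (((2 + e : ℝ) : ℂ) * z) * KC z‖ ≤
      kk e z.re * (6.05 / z.re ^ 3 * (‖z‖ / z.re) ^ 2 + 2 * (1 - e ^ 2)) := by
  have he0 : 0 ≤ e := le_trans (by unfold e9; norm_num) h9
  obtain ⟨hb0, hb1⟩ := rest_beta h9 h1
  have hL := rest_sq hz
  have hk := kk_pos e z.re
  have hA := FN_sub_XI he0 h1 hN hz3
  have hB := XI_main h9 h1 hz
  have hC := err_main h9 h1.le hz
  have hD := err_small h9 h1.le hz
  have hx3 : 0 < z.re ^ 3 := by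
    have : 0 < z.re := by linarith
    positivity
  have htri : ‖FN e N z - Complex.exp (((2 + e : ℝ) : ℂ) * z) * KC z‖ ≤
      ‖FN e N z - XI e z‖ + ‖XI e z - Complex.exp (((2 + e : ℝ) : ℂ) * z) * KC z‖ :=
    norm_sub_le_norm_sub_add_norm_sub _ _ _
  set L := (‖z‖ / z.re) ^ 2 with hLdef
  set k := kk e z.re with hkdef
  set β := 1 - e ^ 2 with hβ
  have h2 : L * (0.668 * Real.exp (e * z.re) +
      0.0985 / (z.re - 1.469) * Real.exp ((e + 0.8) * z.re)) ≤ L * (k * (5.85 / z.re ^ 3)) :=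
    mul_le_mul_of_nonneg_left hC (by linarith)
  have h3 : k * (0.2 / z.re ^ 3) ≤ k * (0.2 / z.re ^ 3) * L := by
    apply le_mul_of_one_le_right _ hL
    positivity
  have h4 : k * (6.05 / z.re ^ 3 * L + 2 * β) =
      L * (k * (5.85 / z.re ^ 3)) + k * (0.2 / z.re ^ 3) * L + 1.7 * β * k + 0.3 * (β * k) := by
    ring
  have h5 : 0 ≤ β * k := mul_nonneg hb0 hk.le
  rw [h4]
  linarith

theorem rest_real_lower {e : ℝ} (h9 : e9 ≤ e) (h1 : e < 1) {N : ℕ} (hN : 400 ≤ N) {x : ℝ}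
    (hx : 4.6 ≤ x) (hx3 : x ≤ 0.043 * N) :
    kk e x * (1 - 0.12 / x ^ 3 - 2 * (1 - e ^ 2)) ≤ FR e N x := by
  have he0 : 0 ≤ e := le_trans (by unfold e9; norm_num) h9
  obtain ⟨hb0, hb1⟩ := rest_beta h9 h1
  have hk := kk_pos e x
  have hn : ‖(x : ℂ)‖ = x := by
    rw [Complex.norm_real, Real.norm_eq_abs, abs_of_nonneg (by linarith)]
  have hA := FN_sub_XI he0 h1 hN (z := (x : ℂ)) (by rw [hn]; exact hx3)
  have hB := XI_real_lower h9 h1 (show (4.4:ℝ) ≤ x by linarith)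
  have hC := err_small_real h9 h1.le hx
  rw [FN_ofReal] at hA
  have hD : |FR e N x - (XI e (x : ℂ)).re| ≤ 1e-15 := by
    have h2 := Complex.abs_re_le_norm ((FR e N x : ℂ) - XI e (x : ℂ))
    rw [Complex.sub_re, Complex.ofReal_re] at h2
    exact le_trans h2 hA
  have hE := (abs_le.mp hD).1
  set k := kk e x with hkdef
  set β := 1 - e ^ 2 with hβ
  have h5 : 0 ≤ β * k := mul_nonneg hb0 hk.le
  have h4 : k * (1 - 0.12 / x ^ 3 - 2 * β) =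
      k * (1 - 1.7 * β) - k * (0.12 / x ^ 3) - 0.3 * (β * k) := by ring
  rw [h4]
  linarith

theorem rest_real_upper {e : ℝ} (h9 : e9 ≤ e) (h1 : e < 1) {N : ℕ} (hN : 400 ≤ N) {x : ℝ}
    (hx : 4.4 ≤ x) (hx3 : x ≤ 0.043 * N) :
    FR e N x ≤ kk e x * (1 + 6.05 / x ^ 3 + 2 * (1 - e ^ 2)) := by
  have hn : ‖(x : ℂ)‖ = x := by
    rw [Complex.norm_real, Real.norm_eq_abs, abs_of_nonneg (by linarith)]
  have hx0 : x ≠ 0 := by intro h; linarith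
  have hA := rest_bound h9 h1 hN (z := (x : ℂ)) (by rw [Complex.ofReal_re]; exact hx)
    (by rw [hn, Complex.ofReal_re]; linarith) (by rw [hn]; exact hx3)
  have hB := main_norm e (x : ℂ)
  rw [hn, Complex.ofReal_re, div_self hx0, FN_ofReal] at hA
  rw [Complex.ofReal_re] at hB
  have hC : FR e N x ≤ ‖((FR e N x : ℝ) : ℂ)‖ := by
    rw [Complex.norm_real, Real.norm_eq_abs]
    exact le_abs_self _
  have hD : ‖((FR e N x : ℝ) : ℂ)‖ ≤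
      ‖((FR e N x : ℝ) : ℂ) - Complex.exp (((2 + e : ℝ) : ℂ) * (x : ℂ)) * KC (x : ℂ)‖ +
      ‖Complex.exp (((2 + e : ℝ) : ℂ) * (x : ℂ)) * KC (x : ℂ)‖ := by
    have := norm_add_le (((FR e N x : ℝ) : ℂ) -
      Complex.exp (((2 + e : ℝ) : ℂ) * (x : ℂ)) * KC (x : ℂ))
      (Complex.exp (((2 + e : ℝ) : ℂ) * (x : ℂ)) * KC (x : ℂ))
    rwa [sub_add_cancel] at this
  have h4 : kk e x * (1 + 6.05 / x ^ 3 + 2 * (1 - e ^ 2)) =
      kk e x * (6.05 / x ^ 3 * 1 ^ 2 + 2 * (1 - e ^ 2)) + kk e x := by ring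
  rw [h4]
  linarith

theorem rest_deriv {e : ℝ} (h9 : e9 ≤ e) (h1 : e < 1) {N : ℕ} (hN : 400 ≤ N) {z : ℂ}
    (hz : 4.4 ≤ z.re) (hz2 : ‖z‖ ≤ 1.2 * z.re) (hz3 : ‖z‖ ≤ 0.043 * N) :
    ‖deriv (FN e N) z - ((2 + e : ℝ) : ℂ) * FN e N z +
        Complex.exp (((2 + e : ℝ) : ℂ) * z) * KC1 z‖ ≤
      kk e z.re * (0.2 * (‖z‖ / z.re) ^ 2) := by
  have he0 : 0 ≤ e := le_trans (by unfold e9; norm_num) h9
  obtain ⟨hb0, hb1⟩ := rest_beta h9 h1
  have hL := rest_sq hz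
  have hk := kk_pos e z.re
  have hA := FN_sub_XI he0 h1 hN hz3
  have hA1 := deriv_FN_sub_XI1 he0 h1 hN hz3
  have hB := XI1_main h9 h1 hz
  have hC := err_deriv h9 h1.le hz
  have hm0 := mm_nonneg z.re
  have hm1 := mm_le_yc z.re
  have hT : ‖((2 + e : ℝ) : ℂ)‖ ≤ 3 := by
    rw [Complex.norm_real, Real.norm_eq_abs, abs_of_nonneg (by linarith)]
    linarith
  have hA2 : ‖((2 + e : ℝ) : ℂ) * (FN e N z - XI e z)‖ ≤ 3 * 1e-15 := by
    rw [norm_mul]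
    exact mul_le_mul hT hA (norm_nonneg _) (by norm_num)
  have heq : deriv (FN e N) z - ((2 + e : ℝ) : ℂ) * FN e N z +
      Complex.exp (((2 + e : ℝ) : ℂ) * z) * KC1 z =
      (deriv (FN e N) z - XI1 e z) - ((2 + e : ℝ) : ℂ) * (FN e N z - XI e z) +
      (XI1 e z - ((2 + e : ℝ) : ℂ) * XI e z + Complex.exp (((2 + e : ℝ) : ℂ) * z) * KC1 z) := by
    ring
  have htri : ‖deriv (FN e N) z - ((2 + e : ℝ) : ℂ) * FN e N z +
      Complex.exp (((2 + e : ℝ) : ℂ) * z) * KC1 z‖ ≤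
      ‖deriv (FN e N) z - XI1 e z‖ + ‖((2 + e : ℝ) : ℂ) * (FN e N z - XI e z)‖ +
      ‖XI1 e z - ((2 + e : ℝ) : ℂ) * XI e z +
        Complex.exp (((2 + e : ℝ) : ℂ) * z) * KC1 z‖ := by
    rw [heq]
    refine le_trans (norm_add_le _ _) ?_
    have := norm_sub_le (deriv (FN e N) z - XI1 e z)
      (((2 + e : ℝ) : ℂ) * (FN e N z - XI e z))
    linarith
  set L := (‖z‖ / z.re) ^ 2 with hLdef
  set k := kk e z.re with hkdef
  set β := 1 - e ^ 2 with hβ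
  set a := 4 * 0.668 * Real.exp (e * z.re) +
    2 * 0.0985 / (z.re - 1.469) * Real.exp ((e + 0.8) * z.re) with ha
  have h6 : 1.34 * ‖z‖ + 0.25 * (3 + 3 * ‖z‖) + 1e-14 ≤
      1.34 * (1.2 * z.re) + 0.25 * (3 + 3 * (1.2 * z.re)) + 1e-14 := by linarith
  have h7 : 0 ≤ 1.34 * (1.2 * z.re) + 0.25 * (3 + 3 * (1.2 * z.re)) + 1e-14 := by linarith
  have h8 : L * a + (1.34 * (1.2 * z.re) + 0.25 * (3 + 3 * (1.2 * z.re)) + 1e-14) ≤
      L * (k * 0.199) := by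
    have h9 : (1.34 * (1.2 * z.re) + 0.25 * (3 + 3 * (1.2 * z.re)) + 1e-14) ≤
      L * (1.34 * (1.2 * z.re) + 0.25 * (3 + 3 * (1.2 * z.re)) + 1e-14) :=
      le_mul_of_one_le_left h7 hL
    have h10 : L * (a + 1.34 * (1.2 * z.re) + 0.25 * (3 + 3 * (1.2 * z.re)) + 1e-14) ≤
      L * (k * 0.199) := mul_le_mul_of_nonneg_left hC (by linarith)
    have h11 : L * (a + 1.34 * (1.2 * z.re) + 0.25 * (3 + 3 * (1.2 * z.re)) + 1e-14) =
      L * a + L * (1.34 * (1.2 * z.re) + 0.25 * (3 + 3 * (1.2 * z.re)) + 1e-14) := by ring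
    linarith
  have h12 : 1.7 * β * (k * mm z.re) ≤ 0.001 * k * L := by
    have h13 : 1.7 * β * mm z.re ≤ 0.001 := by nlinarith
    have h14 : 1.7 * β * (k * mm z.re) = (1.7 * β * mm z.re) * k := by ring
    rw [h14]
    have h15 : (1.7 * β * mm z.re) * k ≤ 0.001 * k := mul_le_mul_of_nonneg_right h13 hk.le
    have h16 : 0.001 * k ≤ 0.001 * k * L := le_mul_of_one_le_right (by positivity) hL
    linarith
  have h17 : k * (0.2 * L) = L * (k * 0.199) + 0.001 * k * L := by ring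
  rw [h17]
  linarith

end RR
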