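import Pool.Agent.Lib.MP_31701c_co.KComplex
import Pool.Agent.Lib.MP_31701c_co.Expm
import Pool.Agent.Lib.MP_31701c_co.Parts

/-!
# RR-RestParts : `XI e z` minus its main term

`e9 ≤ e < 1`, `β = 1 - e²`, `z = x + iy'`, `x ≥ 4.4`, `λ = ‖z‖/x`, `s(θ) = sin²/QQ`. Split
`XI e z - e^{Tz} KC z = I1 + I2 - I3 + I4`, where `I1` = part of `XI` over `θ ∈ [π/2, π]`, `I2` = part over
`[thc, π/2]`, `I3 = (2/π)∫_0^{thc} (1 + tz) s`, `I4 = (2/π) ∫_0^{thc} e^{tz} (s - wt)`
(`T - yy θ = e + 2cos θ = t`, so `e^{Tz} KC z = (2/π) ∫_0^{thc} wt e^{tz}`).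
`I1`: `expm_bound`, `expm_real_le` (`t ≤ e` on `[π/2,π]`), `part1`: `|I1| ≤ λ² · 0.668 e^{ex}`.
`I2`: `expm_bound`, `e^{tx} - 1 - tx ≤ e^{tx}` (`t ≥ 0`), `part2`.
`I3`: `0 ≤ t ≤ 3`, `|1 + tz| ≤ 1 + 3‖z‖`, `int_small`: `≤ 0.2 (1 + 3‖z‖)`.
`I4`: `wt_cmp`, `|e^{tz}| = e^{tx}`: `|I4| ≤ 1.7 β (2/π) ∫ wt e^{tx} = 1.7 β kk e x`.
`XI_real_lower`: for real `x` the integrand of `XI` is real and `≥ 0` everywhere (`expm_nonneg`), so drop
`[thc, π]`; on `[0,thc]` use `s ≥ wt` (`wt_cmp`) for `e^{tx} s` and `int_small` for `(1+tx) s`.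
-/

set_option autoImplicit false

namespace RR

open MeasureTheory intervalIntegral

private noncomputable def RP_s (e θ : ℝ) : ℝ := Real.sin θ ^ 2 / QQ e (tt e θ)

private theorem RP_e {e : ℝ} (h9 : e9 ≤ e) : 0.999875 ≤ e := by
  unfold e9 at h9
  exact h9

private theorem RP_s_nonneg {e : ℝ} (h0 : 0 ≤ e) (h1 : e < 1) (θ : ℝ) : 0 ≤ RP_s e θ :=
  div_nonneg (sq_nonneg _) (QQ_pos h0 h1 _).le

private theorem RP_s_cont {e : ℝ} (h0 : 0 ≤ e) (h1 : e < 1) : Continuous (RP_s e) :=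
  continuous_sinQQ h0 h1

private theorem RP_tt_cont (e : ℝ) : Continuous (tt e) := by unfold tt; fun_prop

private noncomputable def RP_f (e : ℝ) (z : ℂ) (θ : ℝ) : ℂ :=
  (Complex.exp ((tt e θ : ℝ) * z) - 1 - (tt e θ : ℝ) * z) * ((RP_s e θ : ℝ) : ℂ)

private theorem RP_f_cont {e : ℝ} (h0 : 0 ≤ e) (h1 : e < 1) (z : ℂ) : Continuous (RP_f e z) := by
  have h2 := RP_s_cont h0 h1
  have h3 := RP_tt_cont e
  unfold RP_f
  fun_prop

private theorem RP_XI (e : ℝ) (z : ℂ) :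
    XI e z = (2 / Real.pi : ℝ) * ∫ θ in (0:ℝ)..Real.pi, RP_f e z θ := rfl

private theorem RP_two_pi : (0 : ℝ) < 2 / Real.pi := div_pos two_pos Real.pi_pos

private theorem RP_T (e θ : ℝ) : tt e θ = (2 + e) - yy θ := by
  unfold tt yy
  ring

/-- the main term as an integral -/
private theorem RP_main (e : ℝ) (z : ℂ) :
    Complex.exp (((2 + e : ℝ) : ℂ) * z) * KC z = (2 / Real.pi : ℝ) *
      ∫ θ in (0:ℝ)..thc, ((wt θ : ℝ) : ℂ) * Complex.exp ((tt e θ : ℝ) * z) := by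
  unfold KC
  rw [mul_left_comm, ← intervalIntegral.integral_const_mul]
  congr 1
  refine intervalIntegral.integral_congr fun θ _ => ?_
  change Complex.exp (((2 + e : ℝ) : ℂ) * z) * (((wt θ : ℝ) : ℂ) * Complex.exp (-((yy θ : ℝ) * z))) =
    ((wt θ : ℝ) : ℂ) * Complex.exp ((tt e θ : ℝ) * z)
  rw [mul_left_comm, ← Complex.exp_add, RP_T]
  congr 2
  push_cast
  ring

private theorem RP_kk (e x : ℝ) :
    kk e x = 2 / Real.pi * ∫ θ in (0:ℝ)..thc, wt θ * Real.exp (tt e θ * x) := by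
  unfold kk KK
  rw [mul_left_comm, ← intervalIntegral.integral_const_mul]
  congr 1
  refine intervalIntegral.integral_congr fun θ _ => ?_
  change Real.exp ((2 + e) * x) * (yy θ ^ 0 * wt θ * Real.exp (-(yy θ * x))) =
    wt θ * Real.exp (tt e θ * x)
  rw [pow_zero, one_mul, mul_left_comm, ← Real.exp_add, RP_T]
  congr 2
  ring

private theorem RP_int_wt (e : ℝ) (z : ℂ) :
    IntervalIntegrable (fun θ => ((wt θ : ℝ) : ℂ) * Complex.exp ((tt e θ : ℝ) * z)) volume 0 thc := by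
  have h3 := RP_tt_cont e
  refine ContinuousOn.intervalIntegrable_of_Icc thc_pos.le
    ((Complex.continuous_ofReal.comp_continuousOn continuousOn_wt).mul ?_)
  fun_prop

private theorem RP_int_wtR (e x : ℝ) :
    IntervalIntegrable (fun θ => wt θ * Real.exp (tt e θ * x)) volume 0 thc := by
  have h3 := RP_tt_cont e
  exact intervalIntegrable_wt (by fun_prop)

private theorem RP_exp_norm (t : ℝ) (z : ℂ) : ‖Complex.exp ((t : ℂ) * z)‖ = Real.exp (t * z.re) := by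
  rw [Complex.norm_exp, Complex.re_ofReal_mul]

private theorem RP_A {e : ℝ} (h9 : e9 ≤ e) (h1 : e < 1) (z : ℂ) :
    ‖(2 / Real.pi : ℝ) * ((∫ θ in (0:ℝ)..thc, RP_f e z θ) -
      ∫ θ in (0:ℝ)..thc, ((wt θ : ℝ) : ℂ) * Complex.exp ((tt e θ : ℝ) * z))‖ ≤
      0.25 * (1 + 3 * ‖z‖) + 1.7 * (1 - e ^ 2) * kk e z.re := by
  have he := RP_e h9
  have he0 : 0 ≤ e := by linarith
  have hfc := RP_f_cont he0 h1 z
  have hsc := RP_s_cont he0 h1
  rw [← intervalIntegral.integral_sub (hfc.intervalIntegrable _ _) (RP_int_wt e z), norm_mul,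
    Complex.norm_real, Real.norm_of_nonneg RP_two_pi.le]
  have hnz := norm_nonneg z
  have h2 : ‖∫ θ in (0:ℝ)..thc, (RP_f e z θ - ((wt θ : ℝ) : ℂ) * Complex.exp ((tt e θ : ℝ) * z))‖ ≤
      ∫ θ in (0:ℝ)..thc, ((1 + 3 * ‖z‖) * RP_s e θ +
        1.7 * (1 - e ^ 2) * (wt θ * Real.exp (tt e θ * z.re))) := by
    refine intervalIntegral.norm_integral_le_of_norm_le thc_pos.le (Filter.Eventually.of_forall ?_) ?_
    · intro θ hθ
      have hc := le_cos_of_le_thc hθ.1.le hθ.2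
      have hc1 := Real.cos_le_one θ
      have hcmp := wt_cmp h9 h1 hθ.1.le hθ.2
      have ht0 : 0 ≤ tt e θ := by unfold tt; linarith
      have ht3 : tt e θ ≤ 3 := by unfold tt; linarith
      have hs0 := RP_s_nonneg he0 h1 θ
      have h3 : RP_f e z θ - ((wt θ : ℝ) : ℂ) * Complex.exp ((tt e θ : ℝ) * z) =
          Complex.exp ((tt e θ : ℝ) * z) * ((RP_s e θ - wt θ : ℝ) : ℂ) -
            (1 + (tt e θ : ℝ) * z) * ((RP_s e θ : ℝ) : ℂ) := by
        unfold RP_f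
        push_cast
        ring
      rw [h3]
      refine (norm_sub_le _ _).trans ?_
      rw [norm_mul, norm_mul, RP_exp_norm, Complex.norm_real, Complex.norm_real,
        Real.norm_of_nonneg hs0, Real.norm_of_nonneg (by
          have := hcmp.1
          unfold RP_s
          linarith)]
      have h4 : ‖(1 + ((tt e θ : ℝ) : ℂ) * z)‖ ≤ 1 + 3 * ‖z‖ := by
        refine (norm_add_le _ _).trans ?_
        rw [norm_one, norm_mul, Complex.norm_real, Real.norm_of_nonneg ht0]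
        have := mul_le_mul_of_nonneg_right ht3 hnz
        linarith
      have h5 : ‖(1 + ((tt e θ : ℝ) : ℂ) * z)‖ * RP_s e θ ≤ (1 + 3 * ‖z‖) * RP_s e θ :=
        mul_le_mul_of_nonneg_right h4 hs0
      have h6 : Real.exp (tt e θ * z.re) * (RP_s e θ - wt θ) ≤
          Real.exp (tt e θ * z.re) * (1.7 * (1 - e ^ 2) * wt θ) := by
        refine mul_le_mul_of_nonneg_left ?_ (Real.exp_pos _).le
        have := hcmp.2
        unfold RP_s
        linarith
      have h7 : Real.exp (tt e θ * z.re) * (1.7 * (1 - e ^ 2) * wt θ) =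
          1.7 * (1 - e ^ 2) * (wt θ * Real.exp (tt e θ * z.re)) := by ring
      linarith
    · exact ((hsc.intervalIntegrable _ _).const_mul _).add ((RP_int_wtR e z.re).const_mul _)
  rw [intervalIntegral.integral_add ((hsc.intervalIntegrable _ _).const_mul _)
    ((RP_int_wtR e z.re).const_mul _), intervalIntegral.integral_const_mul,
    intervalIntegral.integral_const_mul] at h2
  have h8 := mul_le_mul_of_nonneg_left h2 RP_two_pi.le
  refine h8.trans ?_
  have h9' := int_small h9 h1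
  have h10 : 2 / Real.pi * ∫ θ in (0:ℝ)..thc, RP_s e θ ≤ 0.2 := h9'
  rw [RP_kk]
  have h11 : (1 + 3 * ‖z‖) * (2 / Real.pi * ∫ θ in (0:ℝ)..thc, RP_s e θ) ≤ (1 + 3 * ‖z‖) * 0.2 :=
    mul_le_mul_of_nonneg_left h10 (by linarith)
  have h12 : 2 / Real.pi * ((1 + 3 * ‖z‖) * (∫ θ in (0:ℝ)..thc, RP_s e θ) +
      1.7 * (1 - e ^ 2) * ∫ θ in (0:ℝ)..thc, wt θ * Real.exp (tt e θ * z.re)) =
      (1 + 3 * ‖z‖) * (2 / Real.pi * ∫ θ in (0:ℝ)..thc, RP_s e θ) +
      1.7 * (1 - e ^ 2) * (2 / Real.pi * ∫ θ in (0:ℝ)..thc, wt θ * Real.exp (tt e θ * z.re)) := by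
    ring
  rw [h12]
  nlinarith

private theorem RP_B {e : ℝ} (h9 : e9 ≤ e) (h1 : e < 1) {z : ℂ} (hz : 4.4 ≤ z.re) :
    ‖(2 / Real.pi : ℝ) * (∫ θ in thc..(Real.pi / 2), RP_f e z θ)‖ ≤
      (‖z‖ / z.re) ^ 2 * (0.0985 / (z.re - 1.469) * Real.exp ((e + 0.8) * z.re)) := by
  have he := RP_e h9
  have he0 : 0 ≤ e := by linarith
  have hzp : 0 < z.re := by linarith
  have hfc := RP_f_cont he0 h1 z
  have hsc := RP_s_cont he0 h1
  have htc := RP_tt_cont e
  rw [norm_mul, Complex.norm_real, Real.norm_of_nonneg RP_two_pi.le]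
  have h2 : ‖∫ θ in thc..(Real.pi / 2), RP_f e z θ‖ ≤
      ∫ θ in thc..(Real.pi / 2), (‖z‖ / z.re) ^ 2 * (Real.exp (tt e θ * z.re) * RP_s e θ) := by
    refine intervalIntegral.norm_integral_le_of_norm_le thc_lt.le (Filter.Eventually.of_forall ?_) ?_
    · intro θ hθ
      have hc : 0 ≤ Real.cos θ := Real.cos_nonneg_of_mem_Icc
        ⟨by have := thc_pos; linarith [hθ.1, Real.pi_pos], hθ.2⟩
      have ht0 : 0 ≤ tt e θ := by unfold tt; linarith
      have hs0 := RP_s_nonneg he0 h1 θ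
      unfold RP_f
      rw [norm_mul, Complex.norm_real, Real.norm_of_nonneg hs0, ← mul_assoc]
      refine mul_le_mul_of_nonneg_right ?_ hs0
      refine (expm_bound (tt e θ) hzp).trans ?_
      refine mul_le_mul_of_nonneg_left ?_ (sq_nonneg _)
      have := mul_nonneg ht0 hzp.le
      linarith
    · refine Continuous.intervalIntegrable ?_ _ _
      fun_prop
  have h3 := part2 h9 h1 hz
  have h4 : 2 / Real.pi * ∫ θ in thc..(Real.pi / 2), Real.exp (tt e θ * z.re) * RP_s e θ ≤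
      0.0985 / (z.re - 1.469) * Real.exp ((e + 0.8) * z.re) := h3
  rw [intervalIntegral.integral_const_mul] at h2
  have h5 := mul_le_mul_of_nonneg_left h2 RP_two_pi.le
  refine h5.trans ?_
  rw [mul_left_comm]
  exact mul_le_mul_of_nonneg_left h4 (sq_nonneg _)

private theorem RP_C {e : ℝ} (h9 : e9 ≤ e) (h1 : e < 1) {z : ℂ} (hz : 4.4 ≤ z.re) :
    ‖(2 / Real.pi : ℝ) * (∫ θ in (Real.pi / 2)..Real.pi, RP_f e z θ)‖ ≤
      (‖z‖ / z.re) ^ 2 * (0.668 * Real.exp (e * z.re)) := by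
  have he := RP_e h9
  have he0 : 0 ≤ e := by linarith
  have hep : 0 < e := by linarith
  have hzp : 0 < z.re := by linarith
  have hfc := RP_f_cont he0 h1 z
  have hsc := RP_s_cont he0 h1
  have htc := RP_tt_cont e
  rw [norm_mul, Complex.norm_real, Real.norm_of_nonneg RP_two_pi.le]
  have h2 : ‖∫ θ in (Real.pi / 2)..Real.pi, RP_f e z θ‖ ≤
      ∫ θ in (Real.pi / 2)..Real.pi, ((‖z‖ / z.re) ^ 2 * Real.exp (e * z.re)) *
        ((tt e θ / e) ^ 2 * RP_s e θ) := by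
    refine intervalIntegral.norm_integral_le_of_norm_le (by linarith [Real.pi_pos])
      (Filter.Eventually.of_forall ?_) ?_
    · intro θ hθ
      have hc : Real.cos θ ≤ 0 := Real.cos_nonpos_of_pi_div_two_le_of_le hθ.1.le
        (by linarith [hθ.2, Real.pi_pos])
      have ht0 : tt e θ ≤ e := by unfold tt; linarith
      have hs0 := RP_s_nonneg he0 h1 θ
      unfold RP_f
      rw [norm_mul, Complex.norm_real, Real.norm_of_nonneg hs0, ← mul_assoc]
      refine mul_le_mul_of_nonneg_right ?_ hs0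
      refine (expm_bound (tt e θ) hzp).trans ?_
      rw [mul_assoc]
      refine mul_le_mul_of_nonneg_left ?_ (sq_nonneg _)
      refine (expm_real_le hep hzp ht0).trans ?_
      rw [mul_comm]
      refine mul_le_mul_of_nonneg_right ?_ (sq_nonneg _)
      have := mul_nonneg he0 hzp.le
      linarith
    · refine Continuous.intervalIntegrable ?_ _ _
      have : Continuous fun θ => tt e θ / e := htc.div_const e
      fun_prop
  have h3 := part1 h9 h1
  have h4 : 2 / Real.pi * ∫ θ in (Real.pi / 2)..Real.pi, (tt e θ / e) ^ 2 * RP_s e θ ≤ 0.668 := h3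
  rw [intervalIntegral.integral_const_mul] at h2
  have h5 := mul_le_mul_of_nonneg_left h2 RP_two_pi.le
  refine h5.trans ?_
  rw [mul_left_comm]
  have h6 : 0 ≤ (‖z‖ / z.re) ^ 2 * Real.exp (e * z.re) := by positivity
  refine (mul_le_mul_of_nonneg_left h4 h6).trans (le_of_eq ?_)
  ring

theorem XI_main {e : ℝ} (h9 : e9 ≤ e) (h1 : e < 1) {z : ℂ} (hz : 4.4 ≤ z.re) :
    ‖XI e z - Complex.exp (((2 + e : ℝ) : ℂ) * z) * KC z‖ ≤
      (‖z‖ / z.re) ^ 2 * (0.668 * Real.exp (e * z.re) +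
        0.0985 / (z.re - 1.469) * Real.exp ((e + 0.8) * z.re)) +
      0.25 * (1 + 3 * ‖z‖) + 1.7 * (1 - e ^ 2) * kk e z.re := by
  have he := RP_e h9
  have he0 : 0 ≤ e := by linarith
  have hfc := RP_f_cont he0 h1 z
  have hA := RP_A h9 h1 z
  have hB := RP_B h9 h1 hz
  have hC := RP_C h9 h1 hz
  have h2 : XI e z - Complex.exp (((2 + e : ℝ) : ℂ) * z) * KC z =
      (2 / Real.pi : ℝ) * ((∫ θ in (0:ℝ)..thc, RP_f e z θ) -
        ∫ θ in (0:ℝ)..thc, ((wt θ : ℝ) : ℂ) * Complex.exp ((tt e θ : ℝ) * z)) +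
      (2 / Real.pi : ℝ) * (∫ θ in thc..(Real.pi / 2), RP_f e z θ) +
      (2 / Real.pi : ℝ) * (∫ θ in (Real.pi / 2)..Real.pi, RP_f e z θ) := by
    rw [RP_main, RP_XI, ← intervalIntegral.integral_add_adjacent_intervals
      (hfc.intervalIntegrable 0 thc) (hfc.intervalIntegrable thc Real.pi),
      ← intervalIntegral.integral_add_adjacent_intervals
      (hfc.intervalIntegrable thc (Real.pi / 2)) (hfc.intervalIntegrable (Real.pi / 2) Real.pi)]
    ring
  rw [h2]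
  refine (norm_add₃_le).trans ?_
  rw [mul_add]
  linarith

private theorem RP_re_int {g : ℝ → ℝ} (a b : ℝ) :
    (∫ θ in a..b, ((g θ : ℝ) : ℂ)) = ((∫ θ in a..b, g θ : ℝ) : ℂ) :=
  intervalIntegral.integral_ofReal

theorem XI_real_lower {e : ℝ} (h9 : e9 ≤ e) (h1 : e < 1) {x : ℝ} (hx : 4.4 ≤ x) :
    kk e x * (1 - 1.7 * (1 - e ^ 2)) - 0.25 * (1 + 3 * x) ≤ (XI e (x : ℂ)).re := by
  have he := RP_e h9
  have he0 : 0 ≤ e := by linarith
  have hxp : 0 < x := by linarith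
  have hsc := RP_s_cont he0 h1
  have htc := RP_tt_cont e
  set g : ℝ → ℝ := fun θ => (Real.exp (tt e θ * x) - 1 - tt e θ * x) * RP_s e θ with hg
  have hgc : Continuous g := by
    rw [hg]
    fun_prop
  have h2 : XI e (x : ℂ) = ((2 / Real.pi * ∫ θ in (0:ℝ)..Real.pi, g θ : ℝ) : ℂ) := by
    rw [RP_XI, Complex.ofReal_mul, ← RP_re_int]
    congr 1
    refine intervalIntegral.integral_congr fun θ _ => ?_
    change (Complex.exp ((tt e θ : ℝ) * (x : ℂ)) - 1 - (tt e θ : ℝ) * (x : ℂ)) *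
      ((RP_s e θ : ℝ) : ℂ) = ((g θ : ℝ) : ℂ)
    rw [hg]
    push_cast
    ring
  rw [h2, Complex.ofReal_re]
  have hg0 : ∀ θ, 0 ≤ g θ := fun θ => mul_nonneg (expm_nonneg _) (RP_s_nonneg he0 h1 θ)
  have h3 : ∫ θ in (0:ℝ)..thc, g θ ≤ ∫ θ in (0:ℝ)..Real.pi, g θ := by
    rw [← intervalIntegral.integral_add_adjacent_intervals
      (hgc.intervalIntegrable 0 thc) (hgc.intervalIntegrable thc Real.pi)]
    have : 0 ≤ ∫ θ in thc..Real.pi, g θ :=
      intervalIntegral.integral_nonneg (by linarith [thc_lt, Real.pi_pos]) fun θ _ => hg0 θ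
    linarith
  have h4 : (∫ θ in (0:ℝ)..thc, wt θ * Real.exp (tt e θ * x)) -
      (1 + 3 * x) * (∫ θ in (0:ℝ)..thc, RP_s e θ) ≤ ∫ θ in (0:ℝ)..thc, g θ := by
    rw [← intervalIntegral.integral_const_mul, ← intervalIntegral.integral_sub (RP_int_wtR e x)
      ((hsc.intervalIntegrable _ _).const_mul _)]
    refine intervalIntegral.integral_mono_on thc_pos.le
      ((RP_int_wtR e x).sub ((hsc.intervalIntegrable _ _).const_mul _))
      (hgc.intervalIntegrable _ _) fun θ hθ => ?_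
    have hc := le_cos_of_le_thc hθ.1 hθ.2
    have hc1 := Real.cos_le_one θ
    have hcmp := (wt_cmp h9 h1 hθ.1 hθ.2).1
    have ht3 : tt e θ ≤ 3 := by unfold tt; linarith
    have hs0 := RP_s_nonneg he0 h1 θ
    have h5 : wt θ * Real.exp (tt e θ * x) ≤ Real.exp (tt e θ * x) * RP_s e θ := by
      rw [mul_comm]
      exact mul_le_mul_of_nonneg_left hcmp (Real.exp_pos _).le
    have h6 : (1 + tt e θ * x) * RP_s e θ ≤ (1 + 3 * x) * RP_s e θ := by
      refine mul_le_mul_of_nonneg_right ?_ hs0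
      have := mul_le_mul_of_nonneg_right ht3 hxp.le
      linarith
    change wt θ * Real.exp (tt e θ * x) - (1 + 3 * x) * RP_s e θ ≤
      (Real.exp (tt e θ * x) - 1 - tt e θ * x) * RP_s e θ
    linarith
  have h7 : 2 / Real.pi * ∫ θ in (0:ℝ)..thc, RP_s e θ ≤ 0.2 := int_small h9 h1
  have h8 : kk e x - (1 + 3 * x) * (2 / Real.pi * ∫ θ in (0:ℝ)..thc, RP_s e θ) ≤
      2 / Real.pi * ∫ θ in (0:ℝ)..Real.pi, g θ := by
    rw [RP_kk]
    have h9' := mul_le_mul_of_nonneg_left (h4.trans h3) RP_two_pi.le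
    refine le_trans (le_of_eq ?_) h9'
    ring
  have h10 : (1 + 3 * x) * (2 / Real.pi * ∫ θ in (0:ℝ)..thc, RP_s e θ) ≤ (1 + 3 * x) * 0.2 :=
    mul_le_mul_of_nonneg_left h7 (by linarith)
  have h11 := kk_pos e x
  have h12 : 0 ≤ 1.7 * (1 - e ^ 2) := by
    have : e ^ 2 ≤ 1 := by nlinarith
    nlinarith
  have h13 := mul_nonneg h11.le h12
  rw [mul_sub, mul_one]
  linarith

end RR
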