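import Pool.Agent.Lib.MP_31701c_co.Basic

/-!
# RR-RootCont : the root of minimal modulus depends continuously on `e`

(a) persistence: `P = H_N(e, ·)`, `P(0) = 1`, `w ∈ ℂ`, `d > 0`, no root of `P` in the ball `B(w, d)`.
Then `|P(w)| ≥ (d/(d+|w|))^N`: `P(w) = ∏ (1 - w/ρ)`, at most `N` factors, and
`|1 - w/ρ| = |ρ - w|/|ρ| ≥ |ρ-w|/(|ρ-w|+|w|) ≥ d/(d+|w|)`.
So if `H_N(e₀, w) = 0`, then for `e` close to `e₀` (coefficients are continuous in `e`) there is a root
of `H_N(e, ·)` in `B(w, d)`; hence `limsup ‖z1 e‖ ≤ ‖z1 e₀‖` (`z1 e` has minimal modulus).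
(b) `z1 e` stays in a compact set near `e₀`; let `w` be a cluster point as `e → e₀` within `Icc a b`.
`H_N(e₀, w) = 0` (joint continuity), `Im w ≥ 0`, `‖w‖ ≤ ‖z1 e₀‖` by (a). By hypothesis
`w = z1 e₀` or `w = conj (z1 e₀)`; the latter has `Im < 0`. So `w = z1 e₀`:
`IsCompact.tendsto_nhds_of_unique_mapClusterPt`.
-/

set_option autoImplicit false

namespace RR

open Polynomial

private theorem RootCont_prod (w : ℂ) {d : ℝ} (hd : 0 < d) (s : Multiset ℂ)
    (hs : ∀ ρ ∈ s, d ≤ ‖w - ρ‖) :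
    (d / (d + ‖w‖)) ^ (Multiset.card s) * (s.map fun ρ => ‖0 - ρ‖).prod ≤
      (s.map fun ρ => ‖w - ρ‖).prod := by
  have hw := norm_nonneg w
  have hdw : 0 < d + ‖w‖ := by linarith
  have hc : 0 ≤ d / (d + ‖w‖) := by positivity
  induction s using Multiset.induction_on with
  | empty => simp
  | cons a s ih =>
    have h1 := ih fun ρ hρ => hs ρ (Multiset.mem_cons_of_mem hρ)
    have h2 := hs a (Multiset.mem_cons_self a s)
    rw [Multiset.card_cons, Multiset.map_cons, Multiset.map_cons, Multiset.prod_cons,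
      Multiset.prod_cons, pow_succ]
    have h3 : d / (d + ‖w‖) * ‖0 - a‖ ≤ ‖w - a‖ := by
      rw [zero_sub, norm_neg, div_mul_eq_mul_div, div_le_iff₀ hdw]
      have h4 : ‖a‖ ≤ ‖w - a‖ + ‖w‖ := by
        have := norm_sub_norm_le a w
        rw [norm_sub_rev] at this
        linarith
      nlinarith
    have h5 : 0 ≤ (s.map fun ρ => ‖0 - ρ‖).prod :=
      Multiset.prod_nonneg (by
        intro x hx
        obtain ⟨y, _, rfl⟩ := Multiset.mem_map.1 hx
        exact norm_nonneg _)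
    calc (d / (d + ‖w‖)) ^ (Multiset.card s) * (d / (d + ‖w‖)) *
          (‖0 - a‖ * (s.map fun ρ => ‖0 - ρ‖).prod)
        = (d / (d + ‖w‖) * ‖0 - a‖) *
          ((d / (d + ‖w‖)) ^ (Multiset.card s) * (s.map fun ρ => ‖0 - ρ‖).prod) := by ring
      _ ≤ ‖w - a‖ * (s.map fun ρ => ‖w - ρ‖).prod :=
        mul_le_mul h3 h1 (by positivity) (norm_nonneg _)

private theorem RootCont_norm_prod (z : ℂ) (s : Multiset ℂ) :
    ‖(s.map fun ρ => z - ρ).prod‖ = (s.map fun ρ => ‖z - ρ‖).prod := by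
  induction s using Multiset.induction_on with
  | empty => simp
  | cons a s ih => simp [ih]

private theorem RootCont_lower {N : ℕ} (e : ℝ) (w : ℂ) {d : ℝ} (hd : 0 < d)
    (h : ∀ ρ : ℂ, aeval ρ (HN e N) = 0 → d ≤ ‖w - ρ‖) :
    (d / (d + ‖w‖)) ^ N ≤ ‖aeval w (HN e N)‖ := by
  set Q : ℂ[X] := (HN e N).map (algebraMap ℝ ℂ) with hQ
  have hev : ∀ z : ℂ, aeval z (HN e N) = Q.eval z := fun z => by
    rw [hQ, eval_map_algebraMap]
  have hQ0 : Q ≠ 0 := (Polynomial.map_ne_zero_iff (algebraMap ℝ ℂ).injective).2 (HN_ne_zero e N)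
  have hdeg : Q.natDegree ≤ N := by
    refine natDegree_map_le.trans ?_
    refine natDegree_le_iff_coeff_eq_zero.2 fun m hm => ?_
    rw [HN_coeff, if_neg (by omega)]
  have hcard : Multiset.card Q.roots ≤ N := (Polynomial.card_roots' Q).trans hdeg
  have hval : Q.eval 0 = 1 := by
    rw [← coeff_zero_eq_eval_zero, hQ, coeff_map, HN_coeff, if_pos (Nat.zero_le _), hm_zero]
    simp
  have hsp := IsAlgClosed.splits Q
  have e1 := hsp.eval_eq_prod_roots w
  have e2 := hsp.eval_eq_prod_roots 0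
  have hroots : ∀ ρ ∈ Q.roots, d ≤ ‖w - ρ‖ := fun ρ hρ => by
    refine h ρ ?_
    rw [hev]
    exact (Polynomial.mem_roots hQ0).1 hρ
  have key := RootCont_prod w hd Q.roots hroots
  have n1 : ‖Q.eval w‖ = ‖Q.leadingCoeff‖ * (Q.roots.map fun ρ => ‖w - ρ‖).prod := by
    rw [e1, norm_mul, RootCont_norm_prod]
  have n2 : (1 : ℝ) = ‖Q.leadingCoeff‖ * (Q.roots.map fun ρ => ‖0 - ρ‖).prod := by
    have : ‖Q.eval 0‖ = 1 := by rw [hval, norm_one]
    rw [← this, e2, norm_mul, RootCont_norm_prod]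
  have hw := norm_nonneg w
  have hdw : 0 < d + ‖w‖ := by linarith
  have hc : 0 ≤ d / (d + ‖w‖) := by positivity
  have hc1 : d / (d + ‖w‖) ≤ 1 := by
    rw [div_le_one hdw]
    linarith
  rw [hev, n1]
  calc (d / (d + ‖w‖)) ^ N ≤ (d / (d + ‖w‖)) ^ (Multiset.card Q.roots) :=
        pow_le_pow_of_le_one hc hc1 hcard
    _ = ‖Q.leadingCoeff‖ * ((d / (d + ‖w‖)) ^ (Multiset.card Q.roots) *
          (Q.roots.map fun ρ => ‖0 - ρ‖).prod) := by
        rw [mul_left_comm, ← n2, mul_one]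
    _ ≤ ‖Q.leadingCoeff‖ * (Q.roots.map fun ρ => ‖w - ρ‖).prod :=
        mul_le_mul_of_nonneg_left key (norm_nonneg _)

private theorem RootCont_cont (N : ℕ) : Continuous fun p : ℝ × ℂ => aeval p.2 (HN p.1 N) := by
  have h : (fun p : ℝ × ℂ => aeval p.2 (HN p.1 N)) = fun p : ℝ × ℂ =>
      ∑ m ∈ Finset.range (N + 1), ((hm p.1 m / (m.factorial : ℝ) : ℝ) : ℂ) * p.2 ^ m := by
    funext p
    rw [HN, map_sum]
    refine Finset.sum_congr rfl fun m _ => ?_
    rw [map_mul, map_pow, aeval_C, aeval_X]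
    rfl
  rw [h]
  refine continuous_finsetSum _ fun m _ => ?_
  refine Continuous.mul ?_ (continuous_snd.pow m)
  exact Complex.continuous_ofReal.comp (((continuous_hm m).comp continuous_fst).div_const _)

private theorem RootCont_pers {N : ℕ} (e₀ : ℝ) (w : ℂ) (hw : aeval w (HN e₀ N) = 0) {d : ℝ}
    (hd : 0 < d) : ∀ᶠ e in nhds e₀, ∃ ρ : ℂ, aeval ρ (HN e N) = 0 ∧ ‖w - ρ‖ < d := by
  have hdw : 0 < d + ‖w‖ := by
    have := norm_nonneg w
    linarith
  have hc : 0 < (d / (d + ‖w‖)) ^ N := by positivity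
  have hcont : Continuous fun e : ℝ => ‖aeval w (HN e N)‖ :=
    ((RootCont_cont N).comp (Continuous.prodMk continuous_id continuous_const)).norm
  have h0 : (fun e : ℝ => ‖aeval w (HN e N)‖) e₀ < (d / (d + ‖w‖)) ^ N := by
    show ‖aeval w (HN e₀ N)‖ < _
    rw [hw, norm_zero]
    exact hc
  have := hcont.continuousAt.eventually_lt (continuousAt_const (y := (d / (d + ‖w‖)) ^ N)) h0
  filter_upwards [this] with e he
  by_contra hcon
  have h2 := RootCont_lower (N := N) e w hd fun ρ hρ => by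
    by_contra hlt
    exact hcon ⟨ρ, hρ, not_le.1 hlt⟩
  exact absurd he (not_lt.2 h2)

theorem z1_continuousOn {N : ℕ} {a b : ℝ} (z1 : ℝ → ℂ)
    (h : ∀ e ∈ Set.Icc a b, aeval (z1 e) (HN e N) = 0 ∧ 0 < (z1 e).im ∧
      ∀ w : ℂ, aeval w (HN e N) = 0 →
        w = z1 e ∨ w = (starRingEnd ℂ) (z1 e) ∨ ‖z1 e‖ < ‖w‖) :
    ContinuousOn z1 (Set.Icc a b) := by
  intro e₀ he₀
  have hmin : ∀ e ∈ Set.Icc a b, ∀ w : ℂ, aeval w (HN e N) = 0 → ‖z1 e‖ ≤ ‖w‖ := by
    intro e he w hw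
    rcases (h e he).2.2 w hw with h1 | h1 | h1
    · rw [h1]
    · rw [h1, RCLike.norm_conj]
    · exact h1.le
  have hbd : ∀ d : ℝ, 0 < d → ∀ᶠ e in nhdsWithin e₀ (Set.Icc a b), ‖z1 e‖ ≤ ‖z1 e₀‖ + d := by
    intro d hd
    have h1 := RootCont_pers (N := N) e₀ (z1 e₀) (h e₀ he₀).1 hd
    filter_upwards [nhdsWithin_le_nhds h1, self_mem_nhdsWithin] with e he1 he2
    obtain ⟨ρ, hρ, hlt⟩ := he1
    have h2 := hmin e he2 ρ hρ
    have h3 : ‖ρ‖ ≤ ‖z1 e₀‖ + ‖z1 e₀ - ρ‖ := by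
      have := norm_sub_norm_le ρ (z1 e₀)
      rw [norm_sub_rev] at this
      linarith
    linarith
  refine (isCompact_closedBall (0 : ℂ) (‖z1 e₀‖ + 1)).tendsto_nhds_of_unique_mapClusterPt ?_ ?_
  · filter_upwards [hbd 1 one_pos] with e he
    rw [mem_closedBall_zero_iff]
    exact he
  · intro w _ hw
    obtain ⟨U, hU, hUw⟩ := mapClusterPt_iff_ultrafilter.1 hw
    have hUe : Filter.Tendsto (fun e : ℝ => e) U (nhds e₀) := by
      have : Filter.Tendsto (fun e : ℝ => e) (nhdsWithin e₀ (Set.Icc a b)) (nhds e₀) :=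
        Filter.tendsto_id.mono_left nhdsWithin_le_nhds
      exact this.mono_left hU
    have hUm : ∀ᶠ e in (U : Filter ℝ), e ∈ Set.Icc a b := hU self_mem_nhdsWithin
    have h1 : Filter.Tendsto (fun e : ℝ => aeval (z1 e) (HN e N)) U
        (nhds (aeval w (HN e₀ N))) :=
      ((RootCont_cont N).tendsto (e₀, w)).comp (hUe.prodMk_nhds hUw)
    have h2 : aeval w (HN e₀ N) = 0 := by
      have h3 : Filter.Tendsto (fun e : ℝ => aeval (z1 e) (HN e N)) U (nhds 0) := by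
        refine tendsto_const_nhds.congr' ?_
        filter_upwards [hUm] with e he
        exact (h e he).1.symm
      exact tendsto_nhds_unique h1 h3
    have h4 : 0 ≤ w.im := by
      have h5 : Filter.Tendsto (fun e : ℝ => (z1 e).im) U (nhds w.im) :=
        (Complex.continuous_im.tendsto w).comp hUw
      refine ge_of_tendsto h5 ?_
      filter_upwards [hUm] with e he
      exact (h e he).2.1.le
    have h6 : ‖w‖ ≤ ‖z1 e₀‖ := by
      refine le_of_forall_pos_le_add fun d hd => ?_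
      have h7 : Filter.Tendsto (fun e : ℝ => ‖z1 e‖) U (nhds ‖w‖) := hUw.norm
      exact le_of_tendsto h7 (hU (hbd d hd))
    rcases (h e₀ he₀).2.2 w h2 with h8 | h8 | h8
    · exact h8
    · exfalso
      have h9 := (h e₀ he₀).2.1
      rw [h8, Complex.conj_im] at h4
      linarith
    · exact absurd h6 (not_le.2 h8)

end RR
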