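import Pool.Agent.Lib.MP_31701c_co.KCoefM
import Pool.Agent.Lib.MP_31701c_co.Rest

/-!
# RR-SmallKA : the constants for small `k`

`n ≥ 100`, `k ≥ 2`, `16k² ≤ n`, `N = 4n`, `xs = (n/k + 3/4)/3`, `gg e N xs = 1`, so `β = 1 - e² = 1/FR e N xs`.
`xs ≥ n/(3k) ≥ (4/3)√n ≥ 13.3`, `xs ≥ 16k/3`, `xs ≤ n/6 + 1/4 ≤ 0.043 N`. `T = 2 + e`, `3 - T = 1 - e ≤ β`.
`rest_real_lower/upper`: `kk xs (1 - 0.12/xs³ - 2β) ≤ 1/β ≤ kk xs (1 + 6.05/xs³ + 2β)`; with `kk_lower`: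
`β ≤ 1/(2000 e^{2.56(xs-4.4)})` (note `β ≤ 2.5e-4` from `e ≥ e9`). So (`xs ≥ 13.3`, `n ≤ (9/16) xs²`): `n β ≤ 1e-6`,
`1.7 β (2 xs)³ ≤ 0.05`, `2β ≤ 0.01/xs³`, `β xs ≤ 0.01/xs³`.
`lo`: `kk xs ≤ kk (xs - 1/4) e^{3/4}` (`kk_hi`), `1 ≤ β kk xs (1 + 6.05/xs³ + 2β) ≤ β kk xs e^{6.06/xs³}`.
`up`: `kk r e^{(T - mm r)(xs - r)} ≤ kk xs` (`kk_lo`), `mm r ≤ 1.5/(r-0.9326)`, `β kk xs ≤ 1/(1 - 0.12/xs³ - 2β)`;
`1 + 6.2/r³ ≤ e^{6.2/r³}`, `1/(1-δ) ≤ e^{δ/(1-δ)}`, and `0.12…/xs³ + 0.03/xs³ ≤ 0.2/r³`.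
`up2`: `kk r ≤ kk xs e^{3(r - xs)}` (`kk_hi`), the same.
-/

set_option autoImplicit false

namespace RR

/-- the facts used for small `k` -/
structure SKF (e : ℝ) (n k : ℕ) (xs : ℝ) : Prop where
  b_pos : 0 < 1 - e ^ 2
  nb : n * (1 - e ^ 2) ≤ 1e-6
  b3 : ∀ r, 0 < r → r ≤ 2 * xs → 1.7 * (1 - e ^ 2) ≤ 0.05 / r ^ 3
  lo : Real.exp (-(3 / 4) - 6.06 / xs ^ 3) ≤ (1 - e ^ 2) * kk e (xs - 1 / 4)
  up : ∀ r, 8 ≤ r → r ≤ xs → (1 - e ^ 2) * (kk e r * (1 + 6.2 / r ^ 3)) ≤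
    Real.exp (-((3 - 1.5 / (r - 0.9326)) * (xs - r)) + 6.4 / r ^ 3)
  up2 : ∀ r, xs ≤ r → r ≤ 2 * xs → (1 - e ^ 2) * (kk e r * (1 + 6.2 / r ^ 3)) ≤
    Real.exp (3 * (r - xs) + 6.4 / xs ^ 3)

private theorem ska_pow4 {x : ℝ} (hx : 13.3 ≤ x) :
    x ^ 4 ≤ 0.0019 * Real.exp (2.56 * (x - 4.4)) := by
  have h1 : Real.exp (2.56 * (x - 4.4)) = (Real.exp (0.64 * (x - 4.4))) ^ 4 := by
    rw [← Real.exp_nat_mul]
    congr 1
    push_cast
    ring
  have h2 : Real.exp (0.64 * (x - 4.4)) = Real.exp 1 ^ 5 * Real.exp 0.696 *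
      Real.exp (0.64 * (x - 13.3)) := by
    rw [← Real.exp_nat_mul, ← Real.exp_add, ← Real.exp_add]
    congr 1
    push_cast
    ring
  have h3 : (2.7 : ℝ) ^ 5 ≤ Real.exp 1 ^ 5 :=
    pow_le_pow_left₀ (by norm_num) (by linarith [Real.exp_one_gt_d9]) 5
  have h4 : (1.696 : ℝ) ≤ Real.exp 0.696 := by
    have := Real.add_one_le_exp (0.696 : ℝ)
    linarith
  have h5 : 1 + 0.64 * (x - 13.3) ≤ Real.exp (0.64 * (x - 13.3)) := by
    have := Real.add_one_le_exp (0.64 * (x - 13.3))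
    linarith
  have h6 : (2.7 : ℝ) ^ 5 * 1.696 ≤ Real.exp 1 ^ 5 * Real.exp 0.696 :=
    mul_le_mul h3 h4 (by norm_num) (by positivity)
  have h7 : (2.7 : ℝ) ^ 5 * 1.696 * (1 + 0.64 * (x - 13.3)) ≤ Real.exp (0.64 * (x - 4.4)) := by
    rw [h2]
    exact mul_le_mul h6 h5 (by linarith) (by positivity)
  have h8 : x ≤ 0.2 * Real.exp (0.64 * (x - 4.4)) := by
    norm_num at h7
    nlinarith
  have h9 : x ^ 4 ≤ (0.2 * Real.exp (0.64 * (x - 4.4))) ^ 4 :=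
    pow_le_pow_left₀ (by linarith) h8 4
  rw [h1]
  refine h9.trans ?_
  rw [mul_pow]
  have h10 : 0 ≤ Real.exp (0.64 * (x - 4.4)) ^ 4 := by positivity
  nlinarith

private theorem ska_geom {n k : ℕ} (hn : 100 ≤ n) (hk : 2 ≤ k) (hkn : 16 * k ^ 2 ≤ n) {xs : ℝ}
    (hxs : xs = ((n : ℝ) / k + 3 / 4) / 3) :
    13.3 ≤ xs ∧ (n : ℝ) ≤ xs ^ 2 ∧ xs ≤ 0.043 * ((4 * n : ℕ) : ℝ) := by
  have hnR : (100 : ℝ) ≤ n := by exact_mod_cast hn
  have hkR : (2 : ℝ) ≤ k := by exact_mod_cast hk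
  have hknR : 16 * (k : ℝ) ^ 2 ≤ n := by exact_mod_cast hkn
  have hk0 : (0 : ℝ) < k := by linarith
  set q : ℝ := (n : ℝ) / k with hq
  have hqk : q * k = n := by rw [hq]; field_simp
  have hq0 : 0 < q := by rw [hq]; positivity
  have h1 : 16 * (k : ℝ) ≤ q := by
    rw [hq, le_div_iff₀ hk0]
    nlinarith
  have h2 : 16 * (n : ℝ) ≤ q ^ 2 := by
    nlinarith
  have h3 : 40 ≤ q := by
    by_contra h
    push Not at h
    nlinarith
  have h4 : q ≤ n / 2 := by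
    rw [hq]
    exact div_le_div_of_nonneg_left (by linarith) (by norm_num) hkR
  refine ⟨?_, ?_, ?_⟩
  · rw [hxs]; linarith
  · rw [hxs]; nlinarith
  · rw [hxs]; push_cast; linarith

/-- the basic inequalities at `xs` -/
private theorem ska_base {e : ℝ} (h9 : e9 ≤ e) (h1 : e < 1) {N : ℕ} (hN : 400 ≤ N) {xs : ℝ}
    (hx : 13.3 ≤ xs) (hx3 : xs ≤ 0.043 * N) (hg : gg e N xs = 1) :
    0 < 1 - e ^ 2 ∧ (1 - e ^ 2) * xs ^ 4 ≤ 1e-6 ∧
      (1 - e ^ 2) * kk e xs ≤ Real.exp (0.14 / xs ^ 3) ∧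
      1 ≤ (1 - e ^ 2) * kk e xs * Real.exp (6.06 / xs ^ 3) := by
  have he0 : 0.9998 < e := by
    have h := h9
    unfold e9 at h
    linarith
  have hb0 : 0 < 1 - e ^ 2 := by nlinarith
  have hb1 : 1 - e ^ 2 ≤ 2.5e-4 := by
    have h := h9
    unfold e9 at h
    nlinarith
  set b : ℝ := 1 - e ^ 2 with hb
  have hx0 : 0 < xs := by linarith
  have hx30 : 0 < xs ^ 3 := by positivity
  have hx3lo : (2352 : ℝ) ≤ xs ^ 3 := by
    have h : (13.3 : ℝ) ^ 3 ≤ xs ^ 3 := pow_le_pow_left₀ (by norm_num) hx 3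
    have h' : (2352 : ℝ) ≤ 13.3 ^ 3 := by norm_num
    linarith
  have hF : b * FR e N xs = 1 := by rw [hb, ← gg_eq]; exact hg
  have hlo := rest_real_lower h9 h1 hN (x := xs) (by linarith) hx3
  have hup := rest_real_upper h9 h1 hN (x := xs) (by linarith) hx3
  have hkk := kk_lower h9 h1.le (x := xs) (by linarith)
  have hkk0 := kk_pos e xs
  rw [← hb] at hlo hup
  have hinv : 0.12 / xs ^ 3 ≤ 0.0001 := by
    rw [div_le_iff₀ hx30]; nlinarith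
  have hL : b * kk e xs * (1 - 0.12 / xs ^ 3 - 2 * b) ≤ 1 := by
    calc b * kk e xs * (1 - 0.12 / xs ^ 3 - 2 * b)
        = b * (kk e xs * (1 - 0.12 / xs ^ 3 - 2 * b)) := by ring
      _ ≤ b * FR e N xs := mul_le_mul_of_nonneg_left hlo hb0.le
      _ = 1 := hF
  have hU : 1 ≤ b * kk e xs * (1 + 6.05 / xs ^ 3 + 2 * b) := by
    calc (1 : ℝ) = b * FR e N xs := hF.symm
      _ ≤ b * (kk e xs * (1 + 6.05 / xs ^ 3 + 2 * b)) := mul_le_mul_of_nonneg_left hup hb0.le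
      _ = b * kk e xs * (1 + 6.05 / xs ^ 3 + 2 * b) := by ring
  have hbk0 : 0 < b * kk e xs := mul_pos hb0 hkk0
  have hbk1 : b * kk e xs ≤ 1.002 := by
    have h2 : (0.999 : ℝ) ≤ 1 - 0.12 / xs ^ 3 - 2 * b := by linarith
    have h3 : b * kk e xs * 0.999 ≤ 1 :=
      (mul_le_mul_of_nonneg_left h2 hbk0.le).trans hL
    linarith
  have hp4 := ska_pow4 hx
  have hE0 : 0 < Real.exp (2.56 * (xs - 4.4)) := Real.exp_pos _
  have hbE : b * Real.exp (2.56 * (xs - 4.4)) ≤ 1.002 / 2145 := by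
    have h3 : b * (2145 * Real.exp (2.56 * (xs - 4.4))) ≤ b * kk e xs :=
      mul_le_mul_of_nonneg_left hkk hb0.le
    rw [le_div_iff₀ (by norm_num)]
    linarith
  have hb4 : b * xs ^ 4 ≤ 1e-6 := by
    have h3 : b * xs ^ 4 ≤ b * (0.0019 * Real.exp (2.56 * (xs - 4.4))) :=
      mul_le_mul_of_nonneg_left hp4 hb0.le
    have h4 : (1.002 : ℝ) / 2145 * 0.0019 ≤ 1e-6 := by norm_num
    linarith
  have hb3 : b * xs ^ 3 ≤ 1e-6 := by
    have h3 : b * xs ^ 3 ≤ b * xs ^ 4 := by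
      refine mul_le_mul_of_nonneg_left ?_ hb0.le
      exact pow_le_pow_right₀ (by linarith) (by norm_num)
    linarith
  have h2b : 2 * b ≤ 0.01 / xs ^ 3 := by
    rw [le_div_iff₀ hx30]; linarith
  refine ⟨hb0, hb4, ?_, ?_⟩
  · -- upper bound
    set d : ℝ := 0.12 / xs ^ 3 + 2 * b with hd
    have hd0 : 0 ≤ d := by positivity
    have hd1 : d ≤ 0.13 / xs ^ 3 := by
      have : (0.13 : ℝ) / xs ^ 3 = 0.12 / xs ^ 3 + 0.01 / xs ^ 3 := by ring
      linarith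
    have hd2 : d ≤ 0.0007 := by linarith
    have h3 : b * kk e xs ≤ 1 / (1 - d) := by
      rw [le_div_iff₀ (by linarith)]
      have : 1 - d = 1 - 0.12 / xs ^ 3 - 2 * b := by rw [hd]; ring
      rw [this]; exact hL
    have h4 : 1 / (1 - d) ≤ Real.exp (d / (1 - d)) := by
      have h5 := Real.add_one_le_exp (d / (1 - d))
      have h6 : d / (1 - d) + 1 = 1 / (1 - d) := by
        have : (1 - d) ≠ 0 := by linarith
        field_simp
        ring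
      rw [h6] at h5
      exact h5
    refine (h3.trans h4).trans (Real.exp_le_exp.2 ?_)
    rw [div_le_iff₀ (by linarith)]
    have h7 : (0.13 : ℝ) / xs ^ 3 ≤ 0.14 / xs ^ 3 * (1 - d) := by
      have h8 : 0 ≤ 1 / xs ^ 3 := by positivity
      have h9 : (0.13 : ℝ) / xs ^ 3 = 0.13 * (1 / xs ^ 3) := by ring
      have h10 : (0.14 : ℝ) / xs ^ 3 = 0.14 * (1 / xs ^ 3) := by ring
      rw [h9, h10]
      nlinarith
    linarith
  · have h3 : 1 + 6.05 / xs ^ 3 + 2 * b ≤ Real.exp (6.06 / xs ^ 3) := by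
      have h4 := Real.add_one_le_exp (6.06 / xs ^ 3)
      have h5 : (6.06 : ℝ) / xs ^ 3 = 6.05 / xs ^ 3 + 0.01 / xs ^ 3 := by ring
      linarith
    exact hU.trans (mul_le_mul_of_nonneg_left h3 hbk0.le)

theorem skf {e : ℝ} (h9 : e9 ≤ e) (h1 : e < 1) {n k : ℕ} (hn : 100 ≤ n) (hk : 2 ≤ k)
    (hkn : 16 * k ^ 2 ≤ n) {xs : ℝ} (hxs : xs = ((n : ℝ) / k + 3 / 4) / 3)
    (hg : gg e (4 * n) xs = 1) : SKF e n k xs := by
  obtain ⟨hx, hnx, hx3⟩ := ska_geom hn hk hkn hxs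
  obtain ⟨hb0, hb4, hbk, hlo⟩ := ska_base h9 h1 (N := 4 * n) (by omega) hx hx3 hg
  have he0 : 0.9998 < e := by
    have h := h9
    unfold e9 at h
    linarith
  have hx0 : 0 < xs := by linarith
  have hx30 : 0 < xs ^ 3 := by positivity
  have hkx0 := kk_pos e xs
  have hb3 : (1 - e ^ 2) * xs ^ 3 ≤ 1e-6 := by
    have h3 : (1 - e ^ 2) * xs ^ 3 ≤ (1 - e ^ 2) * xs ^ 4 := by
      refine mul_le_mul_of_nonneg_left ?_ hb0.le
      exact pow_le_pow_right₀ (by linarith) (by norm_num)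
    linarith
  refine ⟨hb0, ?_, ?_, ?_, ?_, ?_⟩
  · have h3 : (n : ℝ) ≤ xs ^ 4 := by
      refine hnx.trans ?_
      exact pow_le_pow_right₀ (by linarith) (by norm_num)
    have h4 : (n : ℝ) * (1 - e ^ 2) ≤ xs ^ 4 * (1 - e ^ 2) :=
      mul_le_mul_of_nonneg_right h3 hb0.le
    linarith
  · intro r hr0 hr
    rw [le_div_iff₀ (by positivity)]
    have h3 : r ^ 3 ≤ (2 * xs) ^ 3 := pow_le_pow_left₀ hr0.le hr 3
    have h4 : (1 - e ^ 2) * r ^ 3 ≤ (1 - e ^ 2) * (2 * xs) ^ 3 :=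
      mul_le_mul_of_nonneg_left h3 hb0.le
    have h5 : (1 - e ^ 2) * (2 * xs) ^ 3 = 8 * ((1 - e ^ 2) * xs ^ 3) := by ring
    linarith
  · have h3 := kk_hi (e := e) (a := xs - 1 / 4) (b := xs) (by linarith)
    have h4 : Real.exp ((2 + e) * (xs - (xs - 1 / 4))) ≤ Real.exp (3 / 4) := by
      apply Real.exp_le_exp.2
      nlinarith
    have hk1 := kk_pos e (xs - 1 / 4)
    have h5 : kk e xs ≤ kk e (xs - 1 / 4) * Real.exp (3 / 4) :=
      h3.trans (mul_le_mul_of_nonneg_left h4 hk1.le)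
    have h6 : 1 ≤ (1 - e ^ 2) * (kk e (xs - 1 / 4) * Real.exp (3 / 4)) *
        Real.exp (6.06 / xs ^ 3) := by
      refine hlo.trans ?_
      exact mul_le_mul_of_nonneg_right (mul_le_mul_of_nonneg_left h5 hb0.le)
        (Real.exp_pos _).le
    have h7 : Real.exp (-(3 / 4) - 6.06 / xs ^ 3) * (Real.exp (3 / 4) *
        Real.exp (6.06 / xs ^ 3)) = 1 := by
      rw [← Real.exp_add, ← Real.exp_add]
      have : -(3 / 4) - 6.06 / xs ^ 3 + (3 / 4 + 6.06 / xs ^ 3) = 0 := by ring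
      rw [this, Real.exp_zero]
    have h8 : 0 < Real.exp (3 / 4) * Real.exp (6.06 / xs ^ 3) := by positivity
    have h9' : Real.exp (-(3 / 4) - 6.06 / xs ^ 3) * (Real.exp (3 / 4) *
        Real.exp (6.06 / xs ^ 3)) ≤ (1 - e ^ 2) * kk e (xs - 1 / 4) *
        (Real.exp (3 / 4) * Real.exp (6.06 / xs ^ 3)) := by
      rw [h7]
      calc (1 : ℝ) ≤ (1 - e ^ 2) * (kk e (xs - 1 / 4) * Real.exp (3 / 4)) *
            Real.exp (6.06 / xs ^ 3) := h6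
        _ = _ := by ring
    exact le_of_mul_le_mul_right h9' h8
  · intro r hr8 hrx
    have hr0 : 0 < r := by linarith
    have hr30 : 0 < r ^ 3 := by positivity
    have h3 := kk_lo (e := e) hrx
    have hm := mm_le (x := r) (by linarith)
    have hkr := kk_pos e r
    have h4 : kk e r ≤ kk e xs * Real.exp (-(((2 + e) - mm r) * (xs - r))) := by
      have h5 : kk e r = kk e r * Real.exp (((2 + e) - mm r) * (xs - r)) *
          Real.exp (-(((2 + e) - mm r) * (xs - r))) := by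
        rw [mul_assoc, ← Real.exp_add, add_neg_cancel, Real.exp_zero, mul_one]
      rw [h5]
      exact mul_le_mul_of_nonneg_right h3 (Real.exp_pos _).le
    have h5 : 1 + 6.2 / r ^ 3 ≤ Real.exp (6.2 / r ^ 3) := by
      have := Real.add_one_le_exp (6.2 / r ^ 3)
      linarith
    have h6 : (1 - e ^ 2) * (kk e r * (1 + 6.2 / r ^ 3)) ≤
        Real.exp (0.14 / xs ^ 3) * Real.exp (-(((2 + e) - mm r) * (xs - r))) *
          Real.exp (6.2 / r ^ 3) := by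
      calc (1 - e ^ 2) * (kk e r * (1 + 6.2 / r ^ 3))
          ≤ (1 - e ^ 2) * ((kk e xs * Real.exp (-(((2 + e) - mm r) * (xs - r)))) *
            Real.exp (6.2 / r ^ 3)) := by
            refine mul_le_mul_of_nonneg_left ?_ hb0.le
            exact mul_le_mul h4 h5 (by positivity) (by positivity)
        _ = ((1 - e ^ 2) * kk e xs) * (Real.exp (-(((2 + e) - mm r) * (xs - r))) *
            Real.exp (6.2 / r ^ 3)) := by ring
        _ ≤ Real.exp (0.14 / xs ^ 3) * (Real.exp (-(((2 + e) - mm r) * (xs - r))) *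
            Real.exp (6.2 / r ^ 3)) := by
            exact mul_le_mul_of_nonneg_right hbk (by positivity)
        _ = _ := by ring
    refine h6.trans ?_
    rw [← Real.exp_add, ← Real.exp_add]
    apply Real.exp_le_exp.2
    have h7 : (xs ^ 3)⁻¹ ≤ (r ^ 3)⁻¹ := inv_anti₀ hr30 (pow_le_pow_left₀ hr0.le hrx 3)
    have h8 : -(((2 + e) - mm r) * (xs - r)) ≤
        -((3 - 1.5 / (r - 0.9326)) * (xs - r)) + (1 - e ^ 2) * xs := by
      have h9' : 1 - e ≤ 1 - e ^ 2 := by nlinarith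
      have h10 : 0 ≤ xs - r := by linarith
      have h11 : (1 - e) * (xs - r) ≤ (1 - e ^ 2) * xs := by
        have h12 : (1 - e) * (xs - r) ≤ (1 - e ^ 2) * (xs - r) :=
          mul_le_mul_of_nonneg_right h9' h10
        have h13 : (1 - e ^ 2) * (xs - r) ≤ (1 - e ^ 2) * xs :=
          mul_le_mul_of_nonneg_left (by linarith) hb0.le
        linarith
      have h14 : mm r * (xs - r) ≤ 1.5 / (r - 0.9326) * (xs - r) :=
        mul_le_mul_of_nonneg_right hm h10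
      nlinarith
    have h9' : (1 - e ^ 2) * xs ≤ 0.01 * (r ^ 3)⁻¹ := by
      have h10 : (1 - e ^ 2) * xs ≤ 0.01 * (xs ^ 3)⁻¹ := by
        rw [← div_eq_mul_inv, le_div_iff₀ hx30]
        have : (1 - e ^ 2) * xs * xs ^ 3 = (1 - e ^ 2) * xs ^ 4 := by ring
        rw [this]; linarith
      linarith
    have e1 : (0.14 : ℝ) / xs ^ 3 = 0.14 * (xs ^ 3)⁻¹ := by rw [div_eq_mul_inv]
    have e2 : (6.2 : ℝ) / r ^ 3 = 6.2 * (r ^ 3)⁻¹ := by rw [div_eq_mul_inv]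
    have e3 : (6.4 : ℝ) / r ^ 3 = 6.4 * (r ^ 3)⁻¹ := by rw [div_eq_mul_inv]
    have h12 : 0 < (r ^ 3)⁻¹ := by positivity
    rw [e1, e2, e3]
    linarith
  · intro r hrx hr2
    have hr0 : 0 < r := by linarith
    have hr30 : 0 < r ^ 3 := by positivity
    have h3 := kk_hi (e := e) hrx
    have h4 : Real.exp ((2 + e) * (r - xs)) ≤ Real.exp (3 * (r - xs)) := by
      apply Real.exp_le_exp.2
      exact mul_le_mul_of_nonneg_right (by linarith) (by linarith)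
    have h5 : kk e r ≤ kk e xs * Real.exp (3 * (r - xs)) :=
      h3.trans (mul_le_mul_of_nonneg_left h4 hkx0.le)
    have h7 : (r ^ 3)⁻¹ ≤ (xs ^ 3)⁻¹ := inv_anti₀ hx30 (pow_le_pow_left₀ hx0.le hrx 3)
    have h6 : 1 + 6.2 / r ^ 3 ≤ Real.exp (6.2 / xs ^ 3) := by
      have h8 := Real.add_one_le_exp (6.2 / xs ^ 3)
      have e1 : (6.2 : ℝ) / xs ^ 3 = 6.2 * (xs ^ 3)⁻¹ := by rw [div_eq_mul_inv]
      have e2 : (6.2 : ℝ) / r ^ 3 = 6.2 * (r ^ 3)⁻¹ := by rw [div_eq_mul_inv]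
      rw [e1] at h8 ⊢
      rw [e2]
      linarith
    have h8 : (1 - e ^ 2) * (kk e r * (1 + 6.2 / r ^ 3)) ≤
        Real.exp (0.14 / xs ^ 3) * Real.exp (3 * (r - xs)) * Real.exp (6.2 / xs ^ 3) := by
      calc (1 - e ^ 2) * (kk e r * (1 + 6.2 / r ^ 3))
          ≤ (1 - e ^ 2) * ((kk e xs * Real.exp (3 * (r - xs))) * Real.exp (6.2 / xs ^ 3)) := by
            refine mul_le_mul_of_nonneg_left ?_ hb0.le
            exact mul_le_mul h5 h6 (by positivity) (by positivity)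
        _ = ((1 - e ^ 2) * kk e xs) * (Real.exp (3 * (r - xs)) * Real.exp (6.2 / xs ^ 3)) := by
            ring
        _ ≤ Real.exp (0.14 / xs ^ 3) * (Real.exp (3 * (r - xs)) * Real.exp (6.2 / xs ^ 3)) := by
            exact mul_le_mul_of_nonneg_right hbk (by positivity)
        _ = _ := by ring
    refine h8.trans ?_
    rw [← Real.exp_add, ← Real.exp_add]
    apply Real.exp_le_exp.2
    have e1 : (0.14 : ℝ) / xs ^ 3 = 0.14 * (xs ^ 3)⁻¹ := by rw [div_eq_mul_inv]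
    have e2 : (6.2 : ℝ) / xs ^ 3 = 6.2 * (xs ^ 3)⁻¹ := by rw [div_eq_mul_inv]
    have e3 : (6.4 : ℝ) / xs ^ 3 = 6.4 * (xs ^ 3)⁻¹ := by rw [div_eq_mul_inv]
    have h12 : 0 < (xs ^ 3)⁻¹ := by positivity
    rw [e1, e2, e3]
    linarith

/-- `T_j = β^j/j · n! [τ^n] X^j` -/
noncomputable def Tj (e : ℝ) (n j : ℕ) : ℝ :=
  (1 - e ^ 2) ^ j / j * ((n.factorial : ℝ) * PowerSeries.coeff n ((XS e) ^ j))

/-- the size of the main term -/
noncomputable def MM (n k : ℕ) : ℝ :=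
  (3 * k / Real.exp 1) ^ n * Real.exp (-(0.75 * k)) / k

theorem MM_pos {n k : ℕ} (hk : 2 ≤ k) : 0 < MM n k := by
  have hk0 : (0 : ℝ) < k := by
    have : 0 < k := by omega
    exact_mod_cast this
  unfold MM
  positivity

end RR
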