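import Mathlib

/-!
# MP_31701c_co : the definitions used in the final statement
-/

set_option autoImplicit false

namespace RR

open Polynomial

/-! ## Combinatorial definitions (they appear in the final statement) -/

/-- Number of descents of a word: the number of `i` with `w i > w (i+1)`. -/
def des : List ℕ → ℕ
  | [] => 0
  | [_] => 0
  | a :: b :: l => (if b < a then 1 else 0) + des (b :: l)

/-- Every descent of the word `w` is a peak (positions are numbered from `0` here): if
`w[i] > w[i+1]` then `i ≥ 1` and `w[i-1] < w[i]`. -/
def IsEDP (w : List ℕ) : Prop :=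
  ∀ (i : ℕ) (h : i + 1 < w.length), w[i + 1] < w[i] → 1 ≤ i ∧ w[i - 1] < w[i]

/-- Largest entry of a word (`0` for the empty word). -/
def maxEntry (w : List ℕ) : ℕ := w.foldr max 0

theorem maxEntry_mem {w : List ℕ} (h : w ≠ []) : maxEntry w ∈ w := by
  induction w with
  | nil => exact absurd rfl h
  | cons a l ih =>
    by_cases hl : l = []
    · subst hl
      simp [maxEntry]
    · have h1 := ih hl
      have h2 : maxEntry (a :: l) = max a (maxEntry l) := rfl
      rcases le_total a (maxEntry l) with h3 | h3
      · rw [h2, max_eq_right h3]
        exact List.mem_cons_of_mem a h1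
      · rw [h2, max_eq_left h3]
        exact List.mem_cons_self

/-- West's stack-sorting map: `s` of the empty word is empty, and if `w = L k R` with `k` the
largest entry of `w` then `s w = (s L) (s R) k`. -/
def stackSort (w : List ℕ) : List ℕ :=
  if h : w = [] then []
  else
    stackSort (w.take (w.idxOf (maxEntry w))) ++
      stackSort (w.drop (w.idxOf (maxEntry w) + 1)) ++ [maxEntry w]
termination_by w.length
decreasing_by
  · have h1 := List.idxOf_lt_length_of_mem (maxEntry_mem h)
    simp only [List.length_take]
    omega
  · have h1 := List.idxOf_lt_length_of_mem (maxEntry_mem h)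
    simp only [List.length_drop]
    omega

open Classical in
/-- The permutations of `{1, …, m}` (in one-line notation) in which every descent is a peak. -/
noncomputable def edp (m : ℕ) : Finset (List ℕ) :=
  (List.range' 1 m).permutations.toFinset.filter IsEDP

/-- `A_n(x) = ∑_{σ ∈ EDP_{n-1}} x^{des(s(σ)) + 1}`. -/
noncomputable def A (n : ℕ) : ℤ[X] :=
  ∑ w ∈ edp (n - 1), X ^ (des (stackSort w) + 1)

end RR
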