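import Pool.Agent.Lib.MP_31701c_co.Rest
import Pool.Agent.Lib.MP_31701c_co.Left

/-!
# RR-WEst : the data of the W-range

`n ≥ 100`, `N = 4n`, `e9 ≤ e < 1`, `x0 > 0`, `gg e N x0 = 1`, `x0 ≤ 1.41 √n`. `gg_46` and strict
monotonicity give `x0 > 4.6`. `B = 1.06 √(x0²+3)`.
-/

set_option autoImplicit false

namespace RR

private theorem e9_pos : (0:ℝ) < e9 := by unfold e9; norm_num

private theorem beta_le {e : ℝ} (h9 : e9 ≤ e) : 1 - e ^ 2 ≤ 2.5e-4 := by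
  have h : (0.999875:ℝ) ≤ e := h9
  nlinarith

private theorem x0_gt {e : ℝ} (h9 : e9 ≤ e) (h1 : e < 1) {N : ℕ} (hN : 2 ≤ N) {x0 : ℝ}
    (hx0 : 0 < x0) (hg : gg e N x0 = 1) : 4.6 < x0 := by
  by_contra h
  rw [not_lt] at h
  have h2 := gg_46 h9 h1.le N
  have h3 : gg e N x0 ≤ gg e N 4.6 :=
    (gg_strictMonoOn (le_trans e9_pos.le h9) h1 hN).monotoneOn (Set.mem_Ici.mpr hx0.le)
      (Set.mem_Ici.mpr (by norm_num)) h
  linarith

private theorem geomB {x0 B : ℝ} (h46 : 4.6 < x0) (hB0 : 0 < B)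
    (hB2 : B ^ 2 = 1.1236 * (x0 ^ 2 + 3)) :
    B ≤ 1.2 * (x0 - 0.2) ∧ x0 ≤ B ∧ B ≤ 1.133 * x0 := by
  refine ⟨?_, ?_, ?_⟩
  · apply le_of_sq_le_sq _ (by linarith)
    rw [hB2]
    nlinarith
  · apply le_of_sq_le_sq _ hB0.le
    rw [hB2]
    nlinarith
  · apply le_of_sq_le_sq _ (by positivity)
    rw [hB2]
    nlinarith

private theorem one_le_sq_div {a b : ℝ} (hb : 0 < b) (h : b ≤ a) : 1 ≤ (a / b) ^ 2 := by
  have h1 : 1 ≤ a / b := by
    rw [le_div_iff₀ hb]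
    linarith
  exact one_le_pow₀ h1

private theorem boundBN {x0 B n : ℝ} (hn : 100 ≤ n) (hx2 : x0 ^ 2 ≤ 1.9881 * n) (hB0 : 0 < B)
    (hB2 : B ^ 2 = 1.1236 * (x0 ^ 2 + 3)) : B ≤ 0.043 * (4 * n) := by
  apply le_of_sq_le_sq _ (by positivity)
  rw [hB2]
  nlinarith

private theorem kk_low_aux {x0 : ℝ} (h46 : 4.6 < x0) :
    32.5 * x0 ^ 3 ≤ 2145 * Real.exp (2.56 * (x0 - 4.4)) := by
  have hx0 : 0 < x0 := by linarith
  have h3 : x0 / 4.04 ≤ Real.exp (2.56 * (x0 - 4.4) / 3) := by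
    have h4 := Real.add_one_le_exp (2.56 * (x0 - 4.4) / 3)
    have h5 : x0 / 4.04 ≤ 2.56 * (x0 - 4.4) / 3 + 1 := by
      rw [div_le_iff₀ (by norm_num)]
      linarith
    linarith
  have h4 : (x0 / 4.04) ^ 3 ≤ Real.exp (2.56 * (x0 - 4.4)) := by
    have h5 : Real.exp (2.56 * (x0 - 4.4)) = Real.exp (2.56 * (x0 - 4.4) / 3) ^ 3 := by
      rw [← Real.exp_nat_mul]
      congr 1
      push_cast
      ring
    rw [h5]
    exact pow_le_pow_left₀ (by positivity) h3 3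
  have h5 : 32.5 * x0 ^ 3 ≤ 2145 * (x0 / 4.04) ^ 3 := by
    have h6 : 0 < x0 ^ 3 := by positivity
    have h7 : 2145 * (x0 / 4.04) ^ 3 = (2145 / 4.04 ^ 3) * x0 ^ 3 := by
      rw [div_pow]
      ring
    rw [h7]
    exact mul_le_mul_of_nonneg_right (by norm_num) h6.le
  linarith

theorem wdata {e : ℝ} (h9 : e9 ≤ e) (h1 : e < 1) {n : ℕ} (hn : 100 ≤ n) {x0 : ℝ} (hx0 : 0 < x0)
    (hg : gg e (4 * n) x0 = 1) (hx1 : x0 ≤ 1.41 * Real.sqrt n) :
    WData (FN e (4 * n)) (2 + e) x0 (1.06 * Real.sqrt (x0 ^ 2 + 3)) (kk e) mm VV := by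
  have hN : 400 ≤ 4 * n := by omega
  have h46 : 4.6 < x0 := x0_gt h9 h1 (by omega) hx0 hg
  have hnr : (100:ℝ) ≤ n := by exact_mod_cast hn
  have he9 : (0.999875:ℝ) ≤ e := h9
  have hbl := beta_le h9
  have hbpos : 0 < 1 - e ^ 2 := by nlinarith
  obtain ⟨β, hβ⟩ : ∃ β : ℝ, β = 1 - e ^ 2 := ⟨_, rfl⟩
  have hcast : ((4 * n : ℕ) : ℝ) = 4 * (n : ℝ) := by push_cast; ring
  obtain ⟨B, hBdef⟩ : ∃ B : ℝ, B = 1.06 * Real.sqrt (x0 ^ 2 + 3) := ⟨_, rfl⟩
  have hB0 : 0 < B := by rw [hBdef]; positivity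
  have hB2 : B ^ 2 = 1.1236 * (x0 ^ 2 + 3) := by
    rw [hBdef, mul_pow, Real.sq_sqrt (by positivity)]
    norm_num
  have hs2 : Real.sqrt n ^ 2 = n := Real.sq_sqrt (by linarith)
  have hs0 : 0 ≤ Real.sqrt n := Real.sqrt_nonneg _
  have hx2 : x0 ^ 2 ≤ 1.9881 * n := by
    have : x0 ^ 2 ≤ (1.41 * Real.sqrt n) ^ 2 := pow_le_pow_left₀ hx0.le hx1 2
    rw [mul_pow, hs2] at this
    norm_num at this ⊢
    linarith
  have hBN : B ≤ 0.043 * ((4 * n : ℕ) : ℝ) := by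
    rw [hcast]
    exact boundBN hnr hx2 hB0 hB2
  obtain ⟨hB12, hx0B, hB133⟩ := geomB h46 hB0 hB2
  -- lower bound for kk
  have hkk : 32.5 * x0 ^ 3 ≤ kk e x0 :=
    le_trans (kk_low_aux h46) (kk_lower h9 h1.le (by linarith))
  have hx03 : 97 ≤ x0 ^ 3 := by
    have : (4.6:ℝ) ^ 3 ≤ x0 ^ 3 := pow_le_pow_left₀ (by norm_num) h46.le 3
    norm_num at this ⊢
    linarith
  have hFR := rest_real_lower h9 h1 hN h46.le (le_trans hx0B hBN)
  have hFR2 := rest_real_upper h9 h1 hN (show (4.4:ℝ) ≤ x0 by linarith) (le_trans hx0B hBN)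
  rw [← hβ] at hFR hFR2 hbl hbpos
  have hg2 : β * FR e (4 * n) x0 = 1 := by rw [hβ, ← gg_eq]; exact hg
  have hkpos := kk_pos e x0
  have hFRlow : 32.4 * x0 ^ 3 ≤ FR e (4 * n) x0 := by
    have h2 : (0.998:ℝ) ≤ 1 - 0.12 / x0 ^ 3 - 2 * β := by
      have : 0.12 / x0 ^ 3 ≤ 0.12 / 97 := by
        apply div_le_div_of_nonneg_left (by norm_num) (by norm_num) hx03
      norm_num at this ⊢
      linarith
    have h3 : kk e x0 * 0.998 ≤ FR e (4 * n) x0 :=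
      le_trans (mul_le_mul_of_nonneg_left h2 hkpos.le) hFR
    linarith
  have hβx : β * (32.4 * x0 ^ 3) ≤ 1 := by
    rw [← hg2]
    exact mul_le_mul_of_nonneg_left hFRlow hbpos.le
  have hB3 : B ^ 3 ≤ 1.4545 * x0 ^ 3 := by
    have h2 : B ^ 3 ≤ (1.133 * x0) ^ 3 := pow_le_pow_left₀ hB0.le hB133 3
    rw [mul_pow] at h2
    have h3 : 0 < x0 ^ 3 := by positivity
    refine le_trans h2 (mul_le_mul_of_nonneg_right (by norm_num) h3.le)
  -- 2β ≤ 0.09/x³ for x ≤ B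
  have hkey : ∀ x : ℝ, 0 < x → x ≤ B → 2 * β ≤ 0.09 / x ^ 3 := by
    intro x hx hxB
    have h2 : x ^ 3 ≤ B ^ 3 := pow_le_pow_left₀ hx.le hxB 3
    rw [le_div_iff₀ (by positivity)]
    have h3 : β * x ^ 3 ≤ β * (1.4545 * x0 ^ 3) :=
      mul_le_mul_of_nonneg_left (le_trans h2 hB3) hbpos.le
    linarith
  have hkey0 : 2 * β ≤ 0.08 / x0 ^ 3 := by
    rw [le_div_iff₀ (by positivity)]
    have : 0 ≤ β * x0 ^ 3 := by positivity
    linarith
  rw [← hBdef]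
  -- geometry of a point z
  have hgeo : ∀ z : ℂ, x0 - 0.2 ≤ z.re → ‖z‖ ≤ B → 4.4 ≤ z.re ∧ ‖z‖ ≤ 1.2 * z.re ∧
      ‖z‖ ≤ 0.043 * ((4 * n : ℕ) : ℝ) ∧ 1 ≤ (‖z‖ / z.re) ^ 2 ∧ 2 * β ≤ 0.09 / z.re ^ 3 := by
    intro z hz hzB
    have hz0 : 4.4 ≤ z.re := by linarith
    have hzre : z.re ≤ ‖z‖ := le_trans (le_abs_self _) (Complex.abs_re_le_norm z)
    exact ⟨hz0, by linarith, le_trans hzB hBN, one_le_sq_div (by linarith) hzre,
      hkey z.re (by linarith) (by linarith)⟩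
  refine
    { T_lo := by linarith
      T_hi := by linarith
      x0_lo := h46.le
      B_eq := hBdef
      diff := differentiable_FN e (4 * n)
      k_pos := kk_pos e
      m_nonneg := fun x _ => mm_nonneg x
      m_le := fun x hx => mm_le (by linarith)
      V_nonneg := fun x _ => VV_nonneg x
      V_le := fun x hx => VV_le (by linarith)
      k_lo := fun a b _ hab => kk_lo hab
      k_hi := fun a b _ hab => kk_hi hab
      est := ?_
      est1 := ?_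
      der := ?_
      left := ?_
      real := ?_ }
  · intro z hz hzB
    obtain ⟨h2, h3, h4, h5, h6⟩ := hgeo z hz hzB
    have h7 := rest_bound h9 h1 hN h2 h3 h4
    rw [← hβ] at h7
    have h8 := main_approx e z
    have h9' := kk_pos e z.re
    have h10 : ‖FN e (4 * n) z - (kk e z.re : ℂ) *
        Complex.exp (Complex.I * ((((2 + e) - mm z.re) * z.im : ℝ) : ℂ))‖ ≤
        ‖FN e (4 * n) z - Complex.exp (((2 + e : ℝ) : ℂ) * z) * KC z‖ +
        ‖Complex.exp (((2 + e : ℝ) : ℂ) * z) * KC z - (kk e z.re : ℂ) *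
          Complex.exp (Complex.I * ((((2 + e) - mm z.re) * z.im : ℝ) : ℂ))‖ :=
      norm_sub_le_norm_sub_add_norm_sub _ _ _
    refine le_trans h10 (le_trans (add_le_add h7 h8) ?_)
    rw [← mul_add]
    apply mul_le_mul_of_nonneg_left _ h9'.le
    have h11 : 2 * β ≤ 0.09 / z.re ^ 3 * (‖z‖ / z.re) ^ 2 := by
      have h12 : 0 ≤ 0.09 / z.re ^ 3 := by
        apply div_nonneg (by norm_num)
        have : 0 ≤ z.re := by linarith
        positivity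
      exact le_trans h6 (le_mul_of_one_le_right h12 h5)
    have h13 : 6.14 / z.re ^ 3 * (‖z‖ / z.re) ^ 2 =
        6.05 / z.re ^ 3 * (‖z‖ / z.re) ^ 2 + 0.09 / z.re ^ 3 * (‖z‖ / z.re) ^ 2 := by
      ring
    rw [h13]
    linarith
  · intro z hz hzB
    obtain ⟨h2, h3, h4, h5, h6⟩ := hgeo z hz hzB
    have h7 := rest_bound h9 h1 hN h2 h3 h4
    rw [← hβ] at h7
    have h8 := main_norm e z
    have h9' := kk_pos e z.re
    have h10 : ‖FN e (4 * n) z‖ ≤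
        ‖FN e (4 * n) z - Complex.exp (((2 + e : ℝ) : ℂ) * z) * KC z‖ +
        ‖Complex.exp (((2 + e : ℝ) : ℂ) * z) * KC z‖ := by
      have := norm_add_le (FN e (4 * n) z - Complex.exp (((2 + e : ℝ) : ℂ) * z) * KC z)
        (Complex.exp (((2 + e : ℝ) : ℂ) * z) * KC z)
      rwa [sub_add_cancel] at this
    refine le_trans h10 (le_trans (add_le_add h7 h8) ?_)
    have h11 : 2 * β ≤ 0.09 / z.re ^ 3 * (‖z‖ / z.re) ^ 2 := by
      have h12 : 0 ≤ 0.09 / z.re ^ 3 := by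
        apply div_nonneg (by norm_num)
        have : 0 ≤ z.re := by linarith
        positivity
      exact le_trans h6 (le_mul_of_one_le_right h12 h5)
    have h13 : 6.14 / z.re ^ 3 * (‖z‖ / z.re) ^ 2 =
        6.05 / z.re ^ 3 * (‖z‖ / z.re) ^ 2 + 0.09 / z.re ^ 3 * (‖z‖ / z.re) ^ 2 := by
      ring
    rw [h13]
    have h14 : kk e z.re * (6.05 / z.re ^ 3 * (‖z‖ / z.re) ^ 2 + 2 * β) + kk e z.re =
        kk e z.re * (1 + (6.05 / z.re ^ 3 * (‖z‖ / z.re) ^ 2 + 2 * β)) := by ring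
    rw [h14]
    apply mul_le_mul_of_nonneg_left _ h9'.le
    linarith
  · intro z hz hzB
    obtain ⟨h2, h3, h4, h5, h6⟩ := hgeo z hz hzB
    have h7 := rest_deriv h9 h1 hN h2 h3 h4
    have h8 := main1_norm e z
    have h10 : ‖deriv (FN e (4 * n)) z - ((2 + e : ℝ) : ℂ) * FN e (4 * n) z‖ ≤
        ‖deriv (FN e (4 * n)) z - ((2 + e : ℝ) : ℂ) * FN e (4 * n) z +
          Complex.exp (((2 + e : ℝ) : ℂ) * z) * KC1 z‖ +
        ‖Complex.exp (((2 + e : ℝ) : ℂ) * z) * KC1 z‖ := by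
      have := norm_sub_le (deriv (FN e (4 * n)) z - ((2 + e : ℝ) : ℂ) * FN e (4 * n) z +
        Complex.exp (((2 + e : ℝ) : ℂ) * z) * KC1 z) (Complex.exp (((2 + e : ℝ) : ℂ) * z) * KC1 z)
      rwa [add_sub_cancel_right] at this
    refine le_trans h10 (le_trans (add_le_add h7 h8) ?_)
    apply le_of_eq
    ring
  · intro z hz hzB
    have h02 : 0.2 / x0 ≤ 0.2 := by
      rw [div_le_iff₀ hx0]
      linarith
    have h02' : 0.2 / x0 ≤ 0.05 := by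
      rw [div_le_iff₀ hx0]
      linarith
    have h02'' : 0 < 0.2 / x0 := by positivity
    have hx1' : 4.4 ≤ x0 - 0.2 / x0 := by linarith
    have hxB : x0 - 0.2 / x0 ≤ B := by linarith
    have h7 := left_bound h9 h1 hN hx1' hz hzB hxB (by linarith) hBN
    rw [← hβ] at h7
    refine le_trans h7 ?_
    apply mul_le_mul_of_nonneg_left _ (kk_pos e _).le
    have h8 := hkey (x0 - 0.2 / x0) (by linarith) hxB
    have h9' : 1 ≤ (B / (x0 - 0.2 / x0)) ^ 2 := one_le_sq_div (by linarith) hxB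
    have h12 : 0 ≤ 0.09 / (x0 - 0.2 / x0) ^ 3 := by
      apply div_nonneg (by norm_num)
      have : 0 ≤ x0 - 0.2 / x0 := by linarith
      positivity
    have h13 : 6.14 / (x0 - 0.2 / x0) ^ 3 * (B / (x0 - 0.2 / x0)) ^ 2 =
        6.05 / (x0 - 0.2 / x0) ^ 3 * (B / (x0 - 0.2 / x0)) ^ 2 +
        0.09 / (x0 - 0.2 / x0) ^ 3 * (B / (x0 - 0.2 / x0)) ^ 2 := by
      ring
    rw [h13]
    have h14 := le_trans h8 (le_mul_of_one_le_right h12 h9')
    linarith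
  · refine ⟨FR e (4 * n) x0, FN_ofReal e (4 * n) x0, ?_, ?_⟩
    · refine le_trans (mul_le_mul_of_nonneg_left ?_ hkpos.le) hFR
      have : 0.2 / x0 ^ 3 = 0.12 / x0 ^ 3 + 0.08 / x0 ^ 3 := by ring
      rw [this]
      linarith
    · refine le_trans hFR2 (mul_le_mul_of_nonneg_left ?_ hkpos.le)
      have h2 := hkey x0 hx0 hx0B
      have : 6.14 / x0 ^ 3 = 6.05 / x0 ^ 3 + 0.09 / x0 ^ 3 := by ring
      rw [this]
      linarith

end RR
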