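import Pool.Agent.Lib.MP_31701c_co.WZero

/-!
# RR-WLog : the logarithm `W(z) = T z + Log(e^{-Tz} F(z)/F(x0))` (abstract)

Region `Ω = {z : x0 - 0.2/x0 ≤ Re z, ‖z‖ ≤ B}` (convex). There (`tot_le`, `polar`)
`e^{-Tz} F z = (k x e^{-Tx}) e^{-i m(x) y} (1+θ)`, `|θ| ≤ 0.54`, `|arg(1+θ)| ≤ arcsin 0.54 ≤ 0.6`,
`|m(x) y| ≤ 1.06` (`m x ≤ 1.5/(x-0.9326)`, `y² ≤ B² - x²`; `1.0459` at `x0 = 4.6`, decreasing), so the
argument is `-m y + arg(1+θ) ∈ (-1.7, 1.7)`, the number lies in the slit plane and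
`Im W = (T - m(x)) y + arg(1+θ)`, `Re W = log|F z/F x0|`.
`W' = F'/F`, `|F'/F - T| = |F' - TF|/|F| ≤ (m + 0.2λ²)/(1 - 0.54) ≤ (0.414 + 0.2616)/0.46 ≤ 1.47 < T`
on `Ω`, so `Re W' > 0` and `W` is injective on the convex set `Ω`
(`W b - W a = ∫_0^1 W'(a + s(b-a))(b-a) ds`; or apply the mean value inequality to `W - T z`:
`‖W b - W a - T(b-a)‖ ≤ 1.47 ‖b-a‖`).
-/

set_option autoImplicit false

namespace RR

variable {F : ℂ → ℂ} {T x0 B : ℝ} {k m V : ℝ → ℝ}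

/-- the logarithm of `F / F x0` -/
noncomputable def WW (F : ℂ → ℂ) (T x0 : ℝ) (z : ℂ) : ℂ :=
  T * z + Complex.log (Complex.exp (-(T * z)) * (F z / F x0))

namespace WLogAux

theorem x1_lo (W : WData F T x0 B k m V) : x0 - 0.0435 ≤ x0 - 0.2 / x0 := by
  have h := W.x0_lo
  have hx0 : 0 < x0 := by linarith
  have : 0.2 / x0 ≤ 0.0435 := by
    rw [div_le_iff₀ hx0]
    linarith
  linarith

theorem B_sq (W : WData F T x0 B k m V) : B ^ 2 = 1.1236 * (x0 ^ 2 + 3) := by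
  rw [W.B_eq, mul_pow, Real.sq_sqrt (by positivity)]
  norm_num

theorem m_le' (W : WData F T x0 B k m V) {x : ℝ} (hx : x0 - 0.2 / x0 ≤ x) :
    m x ≤ 1.5 / (x0 - 0.9761) := by
  have h := W.x0_lo
  have h1 := x1_lo W
  refine (W.m_le x (by linarith)).trans ?_
  apply div_le_div_of_nonneg_left (by norm_num) (by linarith)
  linarith

theorem m_le'' (W : WData F T x0 B k m V) {x : ℝ} (hx : x0 - 0.2 / x0 ≤ x) :
    m x ≤ 0.414 := by
  have h := W.x0_lo
  refine (m_le' W hx).trans ?_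
  rw [div_le_iff₀ (by linarith)]
  linarith

theorem y_sq (W : WData F T x0 B k m V) {z : ℂ} (hz : x0 - 0.2 / x0 ≤ z.re)
    (hB : ‖z‖ ≤ B) : z.im ^ 2 ≤ 0.1236 * x0 ^ 2 + 3.7708 := by
  have h := W.x0_lo
  have hx0 : 0 < x0 := by linarith
  have h1 := x1_lo W
  have h2 : z.re ^ 2 + z.im ^ 2 = ‖z‖ ^ 2 := by
    rw [Complex.sq_norm, Complex.normSq_apply]
    ring
  have h3 : ‖z‖ ^ 2 ≤ B ^ 2 := by
    have := norm_nonneg z
    gcongr
  rw [B_sq W] at h3
  have h4 : (x0 - 0.2 / x0) ^ 2 ≤ z.re ^ 2 := by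
    have : 0 ≤ x0 - 0.2 / x0 := by linarith
    gcongr
  have h5 : x0 ^ 2 - 0.4 ≤ (x0 - 0.2 / x0) ^ 2 := by
    have e : (x0 - 0.2 / x0) ^ 2 = x0 ^ 2 - 0.4 + (0.2 / x0) ^ 2 := by
      field_simp
      ring
    rw [e]
    have := sq_nonneg (0.2 / x0)
    linarith
  nlinarith

theorem my_le (W : WData F T x0 B k m V) {z : ℂ} (hz : x0 - 0.2 / x0 ≤ z.re)
    (hB : ‖z‖ ≤ B) : |m z.re * z.im| ≤ 1.06 := by
  have h := W.x0_lo
  have h1 := x1_lo W
  have hm0 := W.m_nonneg z.re (by linarith)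
  have hm := m_le' W hz
  have hy := y_sq W hz hB
  apply abs_le_of_sq_le_sq _ (by norm_num)
  rw [mul_pow]
  have h2 : m z.re ^ 2 ≤ (1.5 / (x0 - 0.9761)) ^ 2 := by gcongr
  have hpos : 0 < x0 - 0.9761 := by linarith
  calc m z.re ^ 2 * z.im ^ 2 ≤ (1.5 / (x0 - 0.9761)) ^ 2 * (0.1236 * x0 ^ 2 + 3.7708) := by
        gcongr
    _ ≤ 1.06 ^ 2 := by
        rw [div_pow, div_mul_eq_mul_div, div_le_iff₀ (by positivity)]
        nlinarith

theorem lam_le (W : WData F T x0 B k m V) {z : ℂ} (hz : x0 - 0.2 / x0 ≤ z.re)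
    (hB : ‖z‖ ≤ B) : (‖z‖ / z.re) ^ 2 ≤ 1.308 := by
  have h := W.x0_lo
  have h1 := x1_lo W
  have h3 : ‖z‖ ^ 2 ≤ B ^ 2 := by
    have := norm_nonneg z
    gcongr
  rw [B_sq W] at h3
  have h2 : x0 ≤ z.re + 0.0435 := by linarith
  have hpos : 0 < z.re := by linarith
  rw [div_pow, div_le_iff₀ (by positivity)]
  refine h3.trans ?_
  have h4 : x0 ^ 2 ≤ (z.re + 0.0435) ^ 2 := by
    have : 0 ≤ x0 := by linarith
    gcongr
  have h5 : 4.5565 ≤ z.re := by linarith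
  nlinarith

theorem fx0 (W : WData F T x0 B k m V) : ∃ r : ℝ, F x0 = r ∧ 0 < r := by
  obtain ⟨r, hr, h1, -⟩ := W.real
  refine ⟨r, hr, lt_of_lt_of_le ?_ h1⟩
  have h := W.x0_lo
  have hk := W.k_pos x0
  apply mul_pos hk
  have h2 : (4.6 : ℝ) ^ 3 ≤ x0 ^ 3 := by gcongr
  have h3 : 0.2 / x0 ^ 3 < 1 := by
    rw [div_lt_one (by linarith [show (0 : ℝ) < 4.6 ^ 3 by norm_num])]
    linarith [show (0.2 : ℝ) < 4.6 ^ 3 by norm_num]
  linarith

theorem arcsin_le : Real.arcsin 0.54 ≤ 0.6 := by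
  rw [Real.arcsin_le_iff_le_sin (by constructor <;> norm_num)
    (by constructor <;> linarith [Real.pi_gt_three])]
  have := Real.sin_gt_sub_cube (x := 0.6) (by norm_num)
  refine le_trans ?_ this.le
  norm_num

/-- the main polar representation -/
theorem rep (W : WData F T x0 B k m V) {z : ℂ} (hz : x0 - 0.2 / x0 ≤ z.re)
    (hB : ‖z‖ ≤ B) : ∃ c α : ℝ, 0 < c ∧
      |α| ≤ Real.arcsin (z.im ^ 2 * V z.re / 2 + 6.14 / z.re ^ 3 * (‖z‖ / z.re) ^ 2) ∧
      |α| ≤ 0.6 ∧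
      Complex.exp (-(T * z)) * (F z / F x0) =
        (c : ℂ) * Complex.exp (((α - m z.re * z.im : ℝ) : ℂ) * Complex.I) := by
  have h := W.x0_lo
  have h1 := x1_lo W
  obtain ⟨θ, hθ, hθn⟩ := W.polar (z := z) (by linarith) hB
  have htot := W.tot_le hz hB
  obtain ⟨r, hr, hr0⟩ := fx0 W
  have hk := W.k_pos z.re
  have hθ1 : ‖θ‖ < 1 := by linarith
  have hpos : 0 < ‖1 + θ‖ := by
    rw [norm_pos_iff]
    intro h0
    have h2 : θ = -1 := by linear_combination h0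
    rw [h2] at hθ1
    simp at hθ1
  refine ⟨k z.re * Real.exp (-(T * z.re)) / r * ‖1 + θ‖, Complex.arg (1 + θ), ?_, ?_, ?_, ?_⟩
  · positivity
  · exact abs_arg_one_add_le hθn (by linarith)
  · refine (abs_arg_one_add_le (hθn.trans htot) (by norm_num)).trans arcsin_le
  · have e1 : (1 + θ : ℂ) = (‖1 + θ‖ : ℂ) * Complex.exp ((Complex.arg (1 + θ) : ℂ) * Complex.I) :=
      (Complex.norm_mul_exp_arg_mul_I (1 + θ)).symm
    have e2 : Complex.exp (-(T * z)) = (Real.exp (-(T * z.re)) : ℂ) *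
        Complex.exp (-(((T * z.im : ℝ) : ℂ)) * Complex.I) := by
      rw [Complex.ofReal_exp, ← Complex.exp_add]
      congr 1
      apply Complex.ext <;> simp
    rw [hθ, hr, e2]
    have e3 : Complex.exp (((Complex.arg (1 + θ) - m z.re * z.im : ℝ) : ℂ) * Complex.I) =
        Complex.exp (-(((T * z.im : ℝ) : ℂ)) * Complex.I) *
        Complex.exp (Complex.I * (((T - m z.re) * z.im : ℝ) : ℂ)) *
        Complex.exp ((Complex.arg (1 + θ) : ℂ) * Complex.I) := by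
      rw [← Complex.exp_add, ← Complex.exp_add]
      congr 1
      push_cast
      ring
    rw [e3]
    have hrc : (r : ℂ) ≠ 0 := by exact_mod_cast hr0.ne'
    conv_lhs => rw [e1]
    push_cast
    field_simp

theorem ne_zero (W : WData F T x0 B k m V) {z : ℂ} (hz : x0 - 0.2 / x0 ≤ z.re)
    (hB : ‖z‖ ≤ B) : Complex.exp (-(T * z)) * (F z / F x0) ≠ 0 := by
  obtain ⟨c, α, hc, -, -, he⟩ := rep W hz hB
  rw [he]
  exact mul_ne_zero (by exact_mod_cast hc.ne') (Complex.exp_ne_zero _)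

theorem log_rep (W : WData F T x0 B k m V) {z : ℂ} (hz : x0 - 0.2 / x0 ≤ z.re)
    (hB : ‖z‖ ≤ B) : ∃ c α : ℝ, 0 < c ∧
      |α| ≤ Real.arcsin (z.im ^ 2 * V z.re / 2 + 6.14 / z.re ^ 3 * (‖z‖ / z.re) ^ 2) ∧
      Complex.exp (-(T * z)) * (F z / F x0) ∈ Complex.slitPlane ∧
      Complex.log (Complex.exp (-(T * z)) * (F z / F x0)) =
        (Real.log c : ℂ) + ((α - m z.re * z.im : ℝ) : ℂ) * Complex.I := by
  obtain ⟨c, α, hc, hα, hα2, he⟩ := rep W hz hB
  have hmy := my_le W hz hB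
  have hb : |α - m z.re * z.im| ≤ 1.66 := by
    have := abs_sub α (m z.re * z.im)
    linarith
  rw [abs_le] at hb
  have hpi := Real.pi_gt_three
  have e1 : (c : ℂ) * Complex.exp (((α - m z.re * z.im : ℝ) : ℂ) * Complex.I) =
      Complex.exp ((Real.log c : ℂ) + ((α - m z.re * z.im : ℝ) : ℂ) * Complex.I) := by
    rw [Complex.exp_add, ← Complex.ofReal_exp, Real.exp_log hc]
  have him : ((Real.log c : ℂ) + ((α - m z.re * z.im : ℝ) : ℂ) * Complex.I).im =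
      α - m z.re * z.im := by
    rw [Complex.add_im, Complex.ofReal_im, Complex.im_ofReal_mul, Complex.I_im]; ring
  have hlog : Complex.log (Complex.exp (-(T * z)) * (F z / F x0)) =
      (Real.log c : ℂ) + ((α - m z.re * z.im : ℝ) : ℂ) * Complex.I := by
    rw [he, e1, Complex.log_exp]
    · rw [him]
      linarith
    · rw [him]
      linarith
  refine ⟨c, α, hc, hα, ?_, hlog⟩
  rw [Complex.mem_slitPlane_iff_arg]
  refine ⟨?_, ne_zero W hz hB⟩
  rw [← Complex.log_im, hlog, him]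
  linarith

end WLogAux

open WLogAux

theorem WData.exp_WW (W : WData F T x0 B k m V) {z : ℂ} (hz : x0 - 0.2 / x0 ≤ z.re)
    (hB : ‖z‖ ≤ B) : Complex.exp (WW F T x0 z) = F z / F x0 := by
  rw [WW, Complex.exp_add, Complex.exp_log (ne_zero W hz hB), ← mul_assoc, ← Complex.exp_add]
  simp

/-- imaginary part of `W`, for points of `Ω` -/
theorem WData.im_WW (W : WData F T x0 B k m V) {z : ℂ} (hz : x0 - 0.2 / x0 ≤ z.re)
    (hB : ‖z‖ ≤ B) :
    |(WW F T x0 z).im - (T - m z.re) * z.im| ≤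
      Real.arcsin (z.im ^ 2 * V z.re / 2 + 6.14 / z.re ^ 3 * (‖z‖ / z.re) ^ 2) := by
  obtain ⟨c, α, hc, hα, -, he⟩ := log_rep W hz hB
  have e : (WW F T x0 z).im - (T - m z.re) * z.im = α := by
    rw [WW, he]
    simp
    ring
  rw [e]
  exact hα

theorem WLogAux.norm_F (W : WData F T x0 B k m V) {z : ℂ} (hz : x0 - 0.2 / x0 ≤ z.re)
    (hB : ‖z‖ ≤ B) : k z.re * 0.46 ≤ ‖F z‖ := by
  have h := W.x0_lo
  have h1 := x1_lo W
  obtain ⟨θ, hθ, hθn⟩ := W.polar (z := z) (by linarith) hB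
  have htot := W.tot_le hz hB
  have hk := W.k_pos z.re
  have h2 : ‖F z‖ = k z.re * ‖1 + θ‖ := by
    rw [hθ, norm_mul, norm_mul, mul_comm Complex.I, Complex.norm_exp_ofReal_mul_I, mul_one,
      Complex.norm_real, Real.norm_of_nonneg hk.le]
  rw [h2]
  have h3 : 0.46 ≤ ‖1 + θ‖ := by
    have := norm_sub_le (1 + θ) θ
    simp at this
    linarith
  gcongr

theorem WLogAux.der_bd (W : WData F T x0 B k m V) {z : ℂ} (hz : x0 - 0.2 / x0 ≤ z.re)
    (hB : ‖z‖ ≤ B) : ‖deriv F z - (T : ℂ) * F z‖ ≤ 1.47 * ‖F z‖ := by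
  have h := W.x0_lo
  have h1 := x1_lo W
  have h2 := W.der z (by linarith) hB
  have h3 := WLogAux.norm_F W hz hB
  have h4 := m_le'' W hz
  have h5 := lam_le W hz hB
  have hk := W.k_pos z.re
  refine h2.trans ?_
  calc k z.re * (m z.re + 0.2 * (‖z‖ / z.re) ^ 2) ≤ k z.re * (1.47 * 0.46) := by
        apply mul_le_mul_of_nonneg_left _ hk.le
        linarith
    _ = 1.47 * (k z.re * 0.46) := by ring
    _ ≤ 1.47 * ‖F z‖ := by
        apply mul_le_mul_of_nonneg_left h3 (by norm_num)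

theorem WData.WW_injOn (W : WData F T x0 B k m V) :
    Set.InjOn (WW F T x0) {z : ℂ | x0 - 0.2 / x0 ≤ z.re ∧ ‖z‖ ≤ B} := by
  have hconv : Convex ℝ {z : ℂ | x0 - 0.2 / x0 ≤ z.re ∧ ‖z‖ ≤ B} := by
    have h1 : Convex ℝ {z : ℂ | x0 - 0.2 / x0 ≤ z.re} := convex_halfSpace_re_ge _
    have h2 : Convex ℝ (Metric.closedBall (0 : ℂ) B) := convex_closedBall 0 B
    have h3 : {z : ℂ | x0 - 0.2 / x0 ≤ z.re ∧ ‖z‖ ≤ B} =
        {z : ℂ | x0 - 0.2 / x0 ≤ z.re} ∩ Metric.closedBall (0 : ℂ) B := by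
      ext z
      simp
    rw [h3]
    exact h1.inter h2
  obtain ⟨r, hr, hr0⟩ := fx0 W
  have hrc : (F x0 : ℂ) ≠ 0 := by
    rw [hr]
    exact_mod_cast hr0.ne'
  have hder : ∀ z ∈ {z : ℂ | x0 - 0.2 / x0 ≤ z.re ∧ ‖z‖ ≤ B},
      HasDerivWithinAt (fun z => Complex.log (Complex.exp (-(T * z)) * (F z / F x0)))
        ((deriv F z - T * F z) / F z) {z : ℂ | x0 - 0.2 / x0 ≤ z.re ∧ ‖z‖ ≤ B} z := by
    rintro z ⟨hz, hB⟩
    apply HasDerivAt.hasDerivWithinAt
    obtain ⟨-, -, -, -, hs, -⟩ := log_rep W hz hB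
    have hF : HasDerivAt F (deriv F z) z := (W.diff z).hasDerivAt
    have he : HasDerivAt (fun z : ℂ => Complex.exp (-(T * z)))
        (Complex.exp (-(T * z)) * (-(T * 1))) z :=
      (((hasDerivAt_id z).const_mul (T : ℂ)).neg).cexp
    have hm := he.mul (hF.div_const (F x0))
    have hl := hm.clog hs
    convert! hl using 1
    have hFz : F z ≠ 0 := by
      intro h0
      exact ne_zero W hz hB (by rw [h0]; simp)
    have hez := Complex.exp_ne_zero (-(T * z))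
    simp only [Pi.mul_apply]
    field_simp
    ring
  intro a ha b hb hab
  have hmv := hconv.norm_image_sub_le_of_norm_hasDerivWithin_le (C := 1.47) hder
    (fun z hz => by
      rw [norm_div]
      have hFz : 0 < ‖F z‖ := by
        have h1 := WLogAux.norm_F W hz.1 hz.2
        have h2 := W.k_pos z.re
        nlinarith
      rw [div_le_iff₀ hFz]
      exact WLogAux.der_bd W hz.1 hz.2) ha hb
  simp only [WW] at hab
  have e : Complex.log (Complex.exp (-(T * b)) * (F b / F x0)) -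
      Complex.log (Complex.exp (-(T * a)) * (F a / F x0)) = -(T * (b - a)) := by
    linear_combination -hab
  rw [e, norm_neg, norm_mul, Complex.norm_real] at hmv
  have hT := W.T_lo
  rw [Real.norm_of_nonneg (by linarith)] at hmv
  have h0 : ‖b - a‖ = 0 := by
    have := norm_nonneg (b - a)
    nlinarith
  rw [norm_eq_zero, sub_eq_zero] at h0
  exact h0.symm

theorem WData.deriv_ne_zero (W : WData F T x0 B k m V) {z : ℂ} (hz : x0 - 0.2 / x0 ≤ z.re)
    (hB : ‖z‖ ≤ B) : deriv F z ≠ 0 := by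
  intro h0
  have h1 := WLogAux.der_bd W hz hB
  have h2 := WLogAux.norm_F W hz hB
  have hk := W.k_pos z.re
  have hT := W.T_lo
  rw [h0, zero_sub, norm_neg, norm_mul, Complex.norm_real, Real.norm_of_nonneg (by linarith)] at h1
  nlinarith

end RR
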