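import Pool.Agent.Lib.MP_31701c_co.Defs

/-!
# RR-WZero : location of the solutions of `F z = -F x0` (abstract)

All from `WData`. Put `r = F x0` (real, `k x0 (1 - 0.2/x0³) ≤ r ≤ k x0 (1 + 6.14/x0³)`),
`x1 = x0 - 0.2/x0 ≥ 4.5565`, `λ² = (‖z‖/Re z)²`.
`re_gt`: if `F z = -r`, `‖z‖ ≤ B` then `Re z > x1`: otherwise `left` gives
`r ≤ k x1 (1 + 6.14/x1³ (B/x1)²)`, while `k x0 ≥ k x1 exp((T - m x1) 0.2/x0)`; contradiction to
`exp((T - m x1) 0.2/x0) (1 - 0.2/x0³) > 1 + 6.14/x1³ (B/x1)²`.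
`tot_le`: for `z` with `Re z ≥ x1`, `‖z‖ ≤ B`:
`v + ρ := (Im z)² V(Re z)/2 + 6.14/(Re z)³ λ² ≤ 0.54`.
-/

set_option autoImplicit false

namespace RR

variable {F : ℂ → ℂ} {T x0 B : ℝ} {k m V : ℝ → ℝ}

/-- `|arg (1+w)| ≤ arcsin ρ` when `|w| ≤ ρ < 1`. -/
theorem abs_arg_one_add_le {w : ℂ} {ρ : ℝ} (h : ‖w‖ ≤ ρ) (h1 : ρ < 1) :
    |Complex.arg (1 + w)| ≤ Real.arcsin ρ := by
  have hρ : 0 ≤ ρ := (norm_nonneg w).trans h
  have hre : |w.re| ≤ ρ := (Complex.abs_re_le_norm w).trans h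
  have hre' : 0 < (1 + w).re := by
    rw [Complex.add_re, Complex.one_re]
    have := (abs_le.1 hre).1
    linarith
  have hpos : 0 < ‖1 + w‖ := by
    refine norm_pos_iff.2 ?_
    intro h0
    rw [h0] at hre'
    simp at hre'
  have hsq : w.re ^ 2 + w.im ^ 2 ≤ ρ ^ 2 := by
    have h2 : ‖w‖ ^ 2 ≤ ρ ^ 2 := by
      have := norm_nonneg w
      gcongr
    rw [Complex.sq_norm, Complex.normSq_apply] at h2
    nlinarith
  have him : (1 + w).im = w.im := by simp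
  have hn2 : ‖1 + w‖ ^ 2 = (1 + w.re) ^ 2 + w.im ^ 2 := by
    rw [Complex.sq_norm, Complex.normSq_apply]
    simp
    ring
  have hkey : |w.im| ≤ ρ * ‖1 + w‖ := by
    have h30 : w.im ^ 2 ≤ (ρ * ‖1 + w‖) ^ 2 := by
      rw [mul_pow, hn2]
      have h3 : w.im ^ 2 * (1 - ρ ^ 2) ≤ (ρ ^ 2 - w.re ^ 2) * (1 - ρ ^ 2) := by
        have : 0 ≤ 1 - ρ ^ 2 := by nlinarith
        nlinarith
      nlinarith [sq_nonneg (ρ ^ 2 + w.re)]
    exact abs_le_of_sq_le_sq h30 (by positivity)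
  rw [Complex.arg_of_re_nonneg hre'.le, him]
  have h5 : |w.im / ‖1 + w‖| ≤ ρ := by
    rw [abs_div, abs_of_pos hpos, div_le_iff₀ hpos]
    exact hkey
  rw [abs_le] at h5 ⊢
  constructor
  · rw [← Real.arcsin_neg]
    exact Real.monotone_arcsin h5.1
  · exact Real.monotone_arcsin h5.2

private theorem WData.x1_lo (W : WData F T x0 B k m V) : x0 - 0.0435 ≤ x0 - 0.2 / x0 := by
  have h := W.x0_lo
  have hx0 : 0 < x0 := by linarith
  have : 0.2 / x0 ≤ 0.0435 := by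
    rw [div_le_iff₀ hx0]
    linarith
  linarith

private theorem WData.B_sq (W : WData F T x0 B k m V) : B ^ 2 = 1.1236 * (x0 ^ 2 + 3) := by
  rw [W.B_eq, mul_pow, Real.sq_sqrt (by positivity)]
  norm_num

private theorem WData.B_nonneg (W : WData F T x0 B k m V) : 0 ≤ B := by
  rw [W.B_eq]
  positivity

/-- the error term at `x ≥ x1` -/
private theorem WData.err_le (W : WData F T x0 B k m V) {x n : ℝ} (hx : x0 - 0.2 / x0 ≤ x)
    (hn : 0 ≤ n) (hnB : n ≤ B) : 6.14 / x ^ 3 * (n / x) ^ 2 ≤ 8.3 / x0 ^ 3 := by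
  have h := W.x0_lo
  have hx0 : 0 < x0 := by linarith
  have h1 : 0.9905 * x0 ≤ x := by
    have h2 := W.x1_lo
    nlinarith
  have hxp : 0 < x := by nlinarith
  have h2 : 6.14 / x ^ 3 * (n / x) ^ 2 = 6.14 * n ^ 2 / x ^ 5 := by
    field_simp
  rw [h2]
  have h3 : n ^ 2 ≤ 1.1236 * (x0 ^ 2 + 3) := by
    rw [← W.B_sq]
    gcongr
  have h4 : n ^ 2 ≤ 1.1236 * 1.142 * x0 ^ 2 := by nlinarith
  have h5 : (0.9905 * x0) ^ 5 ≤ x ^ 5 := by
    have : 0 ≤ 0.9905 * x0 := by positivity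
    gcongr
  have h6 : 0.9533 * x0 ^ 5 ≤ x ^ 5 := by
    refine le_trans ?_ h5
    rw [mul_pow]
    have : 0 ≤ x0 ^ 5 := by positivity
    nlinarith
  rw [div_le_div_iff₀ (by positivity) (by positivity)]
  calc 6.14 * n ^ 2 * x0 ^ 3 ≤ 6.14 * (1.1236 * 1.142 * x0 ^ 2) * x0 ^ 3 := by gcongr
    _ ≤ 8.3 * (0.9533 * x0 ^ 5) := by
        have : 0 ≤ x0 ^ 5 := by positivity
        nlinarith
    _ ≤ 8.3 * x ^ 5 := by gcongr

theorem WData.re_gt (W : WData F T x0 B k m V) {z : ℂ} (hz : F z = -F x0) (hB : ‖z‖ ≤ B) :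
    x0 - 0.2 / x0 < z.re := by
  by_contra hcon
  rw [not_lt] at hcon
  have h := W.x0_lo
  have hx0 : 0 < x0 := by linarith
  obtain ⟨r, hr, hr1, -⟩ := W.real
  have hl := W.left z hcon hB
  have hB0 := W.B_nonneg
  have hx1 := W.x1_lo
  set x1 : ℝ := x0 - 0.2 / x0 with hx1def
  have h44 : 4.4 ≤ x1 := by linarith
  have hkx1 := W.k_pos x1
  have hkx0 := W.k_pos x0
  rw [hz, norm_neg, hr, Complex.norm_real, Real.norm_eq_abs] at hl
  have hrl : r ≤ k x1 * (1 + 6.14 / x1 ^ 3 * (B / x1) ^ 2) := (le_abs_self r).trans hl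
  have herr : 6.14 / x1 ^ 3 * (B / x1) ^ 2 ≤ 8.3 / x0 ^ 3 := W.err_le le_rfl hB0 le_rfl
  have hd : 0 < 0.2 / x0 := by positivity
  have hk := W.k_lo x1 x0 h44 (by rw [hx1def]; linarith)
  have hm : m x1 ≤ 0.4142 := by
    refine (W.m_le x1 h44).trans ?_
    rw [div_le_iff₀ (by linarith)]
    nlinarith
  have hT := W.T_lo
  have hs : 0.517 / x0 ≤ (T - m x1) * (x0 - x1) := by
    have e1 : x0 - x1 = 0.2 / x0 := by rw [hx1def]; ring
    rw [e1]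
    have e2 : (0.517 : ℝ) / x0 = 2.585 * (0.2 / x0) := by
      rw [mul_div_assoc']
      norm_num
    rw [e2]
    have : 2.585 ≤ T - m x1 := by linarith
    gcongr
  have hexp : 1 + 0.517 / x0 ≤ Real.exp ((T - m x1) * (x0 - x1)) := by
    have := Real.add_one_le_exp ((T - m x1) * (x0 - x1))
    linarith
  have hk2 : k x1 * (1 + 0.517 / x0) ≤ k x0 := by
    refine le_trans ?_ hk
    gcongr
  have hx3 : 0 < 1 - 0.2 / x0 ^ 3 := by
    have : 0.2 / x0 ^ 3 < 1 := by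
      rw [div_lt_one (by positivity)]
      have : (4.6 : ℝ) ^ 3 ≤ x0 ^ 3 := by gcongr
      norm_num at this
      linarith
    linarith
  have hfin : k x1 * (1 + 0.517 / x0) * (1 - 0.2 / x0 ^ 3) ≤ k x1 * (1 + 8.3 / x0 ^ 3) := by
    calc k x1 * (1 + 0.517 / x0) * (1 - 0.2 / x0 ^ 3) ≤ k x0 * (1 - 0.2 / x0 ^ 3) := by gcongr
      _ ≤ r := hr1
      _ ≤ k x1 * (1 + 6.14 / x1 ^ 3 * (B / x1) ^ 2) := hrl
      _ ≤ k x1 * (1 + 8.3 / x0 ^ 3) := by gcongr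
  rw [mul_assoc] at hfin
  have hfin2 := le_of_mul_le_mul_left hfin hkx1
  -- multiply by x0 ^ 4
  have e3 : (1 + 0.517 / x0) * (1 - 0.2 / x0 ^ 3) * x0 ^ 4 = x0 ^ 4 + 0.517 * x0 ^ 3 - 0.2 * x0 - 0.1034 := by
    field_simp
    ring
  have e4 : (1 + 8.3 / x0 ^ 3) * x0 ^ 4 = x0 ^ 4 + 8.3 * x0 := by
    field_simp
  have h10 : (1 + 0.517 / x0) * (1 - 0.2 / x0 ^ 3) * x0 ^ 4 ≤ (1 + 8.3 / x0 ^ 3) * x0 ^ 4 := by
    gcongr
  rw [e3, e4] at h10
  have h11 : 21.16 ≤ x0 ^ 2 := by nlinarith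
  have h12 : 21.16 * x0 ≤ x0 ^ 3 := by nlinarith
  nlinarith

theorem WData.tot_le (W : WData F T x0 B k m V) {z : ℂ} (hz : x0 - 0.2 / x0 ≤ z.re)
    (hB : ‖z‖ ≤ B) :
    z.im ^ 2 * V z.re / 2 + 6.14 / z.re ^ 3 * (‖z‖ / z.re) ^ 2 ≤ 0.54 := by
  have h := W.x0_lo
  have hx0 : 0 < x0 := by linarith
  have hx1 := W.x1_lo
  have herr := W.err_le hz (norm_nonneg z) hB
  have h8 : 8.3 / x0 ^ 3 ≤ 0.0854 := by
    rw [div_le_iff₀ (by positivity)]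
    have : (4.6 : ℝ) ^ 3 ≤ x0 ^ 3 := by gcongr
    norm_num at this
    linarith
  have hB0 := W.B_nonneg
  set x : ℝ := z.re with hx
  have h44 : 4.4 ≤ x := by linarith
  have him : z.im ^ 2 = ‖z‖ ^ 2 - x ^ 2 := by
    rw [Complex.sq_norm, Complex.normSq_apply, hx]
    ring
  have him2 : z.im ^ 2 ≤ 0.1236 * x0 ^ 2 + 3.7708 := by
    have h1 : ‖z‖ ^ 2 ≤ 1.1236 * (x0 ^ 2 + 3) := by
      rw [← W.B_sq]
      gcongr
    have h2 : (x0 - 0.2 / x0) ^ 2 ≤ x ^ 2 := by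
      have : 0 ≤ x0 - 0.2 / x0 := by linarith
      gcongr
    have h3 : x0 ^ 2 - 0.4 ≤ (x0 - 0.2 / x0) ^ 2 := by
      have e1 : (x0 - 0.2 / x0) ^ 2 = x0 ^ 2 - 0.4 + (0.2 / x0) ^ 2 := by
        field_simp
        ring
      rw [e1]
      have : 0 ≤ (0.2 / x0) ^ 2 := by positivity
      linarith
    rw [him]
    linarith
  have hV := W.V_le x h44
  have hV0 := W.V_nonneg x h44
  have hV2 : V x ≤ 1.5 / ((x0 - 0.9761) * (x0 - 1.6435)) := by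
    refine hV.trans ?_
    have p1 : 0 < x0 - 0.9761 := by linarith
    have p2 : 0 < x0 - 1.6435 := by linarith
    have q1 : x0 - 0.9761 ≤ x - 0.9326 := by linarith
    have q2 : x0 - 1.6435 ≤ x - 1.6 := by linarith
    have q3 : 0 ≤ x - 0.9326 := by linarith
    gcongr
  have hmain : z.im ^ 2 * V x / 2 ≤ 0.448 := by
    have p1 : 0 < x0 - 0.9761 := by linarith
    have p2 : 0 < x0 - 1.6435 := by linarith
    have s1 : z.im ^ 2 * V x ≤ (0.1236 * x0 ^ 2 + 3.7708) *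
        (1.5 / ((x0 - 0.9761) * (x0 - 1.6435))) := by
      gcongr
    have s2 : (0.1236 * x0 ^ 2 + 3.7708) * (1.5 / ((x0 - 0.9761) * (x0 - 1.6435))) ≤ 0.896 := by
      rw [mul_div_assoc', div_le_iff₀ (by positivity)]
      nlinarith
    linarith
  linarith

/-- polar form of `F` in the region, with the error inside `1 + θ` -/
theorem WData.polar (W : WData F T x0 B k m V) {z : ℂ} (hz : x0 - 0.2 ≤ z.re) (hB : ‖z‖ ≤ B) :
    ∃ θ : ℂ, F z = (k z.re : ℂ) *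
        Complex.exp (Complex.I * (((T - m z.re) * z.im : ℝ) : ℂ)) * (1 + θ) ∧
      ‖θ‖ ≤ z.im ^ 2 * V z.re / 2 + 6.14 / z.re ^ 3 * (‖z‖ / z.re) ^ 2 := by
  have hest := W.est z hz hB
  have hk := W.k_pos z.re
  set E : ℂ := Complex.exp (Complex.I * (((T - m z.re) * z.im : ℝ) : ℂ)) with hE
  have hEn : ‖E‖ = 1 := by
    rw [hE, mul_comm]
    exact Complex.norm_exp_ofReal_mul_I _
  have hE0 : E ≠ 0 := by
    intro h0
    rw [h0, norm_zero] at hEn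
    exact zero_ne_one hEn
  have hk0 : (k z.re : ℂ) ≠ 0 := by
    exact_mod_cast hk.ne'
  have hkE : (k z.re : ℂ) * E ≠ 0 := mul_ne_zero hk0 hE0
  refine ⟨(F z - (k z.re : ℂ) * E) / ((k z.re : ℂ) * E), ?_, ?_⟩
  · field_simp
    ring
  · rw [norm_div, norm_mul, hEn, mul_one, Complex.norm_real, Real.norm_eq_abs, abs_of_pos hk,
      div_le_iff₀ hk, mul_comm _ (k z.re)]
    exact hest

end RR
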