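import Pool.Agent.Lib.MP_31701c_co.Defs

/-!
# RR-Words : facts about the stack-sorting map

`stackSort` (Defs) is defined by well-founded recursion through `maxEntry` and `idxOf`.
For `w = L ++ m :: R` with all entries of `L`, `R` smaller than `m`: `maxEntry w = m`,
`idxOf m w = L.length`, `take = L`, `drop = R` (use `unfold stackSort` / `rw [stackSort]` once).
Everything else follows by strong induction on the length, writing a nonempty word as
`L ++ maxEntry w :: R` is only possible in this form when `w` is `Nodup` (or take the FIRST
occurrence of the maximum: for `stackSort_perm` and `stackSort_getLast` just unfold).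
`des_split`: `s (L m R) = s L ++ s R ++ [m]`; the last letter of `s L` is `maxEntry L`, the first
letter of `s R` is `fst R`; the last two letters form an ascent since all entries are `< m`.
-/

set_option autoImplicit false

namespace RR

private theorem le_maxEntry' {w : List ℕ} {a : ℕ} (h : a ∈ w) : a ≤ maxEntry w := by
  induction w with
  | nil => simp at h
  | cons b l ih =>
    have h2 : maxEntry (b :: l) = max b (maxEntry l) := rfl
    rw [h2]
    rcases List.mem_cons.1 h with h1 | h1
    · rw [h1]; exact le_max_left _ _
    · exact (ih h1).trans (le_max_right _ _)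

theorem stackSort_nil : stackSort [] = [] := by
  rw [stackSort]; simp

theorem maxEntry_split {L R : List ℕ} {m : ℕ} (hL : ∀ a ∈ L, a < m) (hR : ∀ a ∈ R, a < m) :
    maxEntry (L ++ m :: R) = m := by
  apply le_antisymm
  · have h := maxEntry_mem (w := L ++ m :: R) (by simp)
    rw [List.mem_append, List.mem_cons] at h
    rcases h with h | h | h
    · exact (hL _ h).le
    · exact h.le
    · exact (hR _ h).le
  · exact le_maxEntry' (by simp)

theorem stackSort_split {L R : List ℕ} {m : ℕ} (hL : ∀ a ∈ L, a < m) (hR : ∀ a ∈ R, a < m) :
    stackSort (L ++ m :: R) = stackSort L ++ stackSort R ++ [m] := by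
  rw [stackSort, dif_neg (by simp), maxEntry_split hL hR]
  have hm : m ∉ L := fun h => lt_irrefl _ (hL m h)
  have h1 : (L ++ m :: R).idxOf m = L.length := by
    rw [List.idxOf_append_of_notMem hm, List.idxOf_cons_self, Nat.add_zero]
  rw [h1]
  have h2 : (L ++ m :: R).take L.length = L := by simp
  have h3 : (L ++ m :: R).drop (L.length + 1) = R := by
    rw [List.drop_append]
    simp
  rw [h2, h3]

private theorem stackSort_ne_nil {w : List ℕ} (h : w ≠ []) :
    stackSort w = stackSort (w.take (w.idxOf (maxEntry w))) ++
      stackSort (w.drop (w.idxOf (maxEntry w) + 1)) ++ [maxEntry w] := by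
  rw [stackSort, dif_neg h]

private theorem stackSort_perm_aux (n : ℕ) : ∀ w : List ℕ, w.length ≤ n → (stackSort w).Perm w := by
  induction n with
  | zero =>
    intro w hw
    have : w = [] := List.length_eq_zero_iff.1 (by omega)
    rw [this, stackSort_nil]
  | succ n ih =>
    intro w hw
    by_cases h : w = []
    · rw [h, stackSort_nil]
    rw [stackSort_ne_nil h]
    have hi : w.idxOf (maxEntry w) < w.length := List.idxOf_lt_length_of_mem (maxEntry_mem h)
    have h1 := ih (w.take (w.idxOf (maxEntry w))) (by rw [List.length_take]; omega)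
    have h2 := ih (w.drop (w.idxOf (maxEntry w) + 1)) (by rw [List.length_drop]; omega)
    have h3 : w = w.take (w.idxOf (maxEntry w)) ++ maxEntry w ::
        w.drop (w.idxOf (maxEntry w) + 1) := by
      conv_lhs => rw [← List.take_append_drop (w.idxOf (maxEntry w)) w,
        List.drop_eq_getElem_cons hi, List.getElem_idxOf]
    have h4 : (stackSort (w.take (w.idxOf (maxEntry w))) ++
      stackSort (w.drop (w.idxOf (maxEntry w) + 1)) ++ [maxEntry w]).Perm
        (w.take (w.idxOf (maxEntry w)) ++ w.drop (w.idxOf (maxEntry w) + 1) ++ [maxEntry w]) :=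
      (h1.append h2).append_right _
    refine h4.trans ?_
    conv_rhs => rw [h3]
    rw [List.append_assoc]
    exact List.Perm.append_left _ (List.perm_append_singleton _ _)

theorem stackSort_perm (w : List ℕ) : (stackSort w).Perm w :=
  stackSort_perm_aux w.length w le_rfl

theorem stackSort_getLast {w : List ℕ} (h : w ≠ []) :
    (stackSort w).getLast? = some (maxEntry w) := by
  rw [stackSort_ne_nil h, List.getLast?_append]
  simp

private theorem stackSort_ne_nil' {w : List ℕ} (h : w ≠ []) : stackSort w ≠ [] := by
  rw [stackSort_ne_nil h]; simp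

theorem fst_mem {w : List ℕ} (h : w ≠ []) : fst w ∈ w := by
  have h1 := stackSort_ne_nil' h
  rw [← (stackSort_perm w).mem_iff]
  unfold fst
  obtain ⟨a, l, hl⟩ := List.exists_cons_of_ne_nil h1
  rw [hl]
  simp

private theorem stackSort_single (m : ℕ) : stackSort [m] = [m] := by
  have h := stackSort_split (L := []) (R := []) (m := m) (by simp) (by simp)
  simpa [stackSort_nil] using h

theorem fst_single (m : ℕ) : fst [m] = m := by
  unfold fst
  rw [stackSort_single]
  rfl

theorem fst_split {L R : List ℕ} {m : ℕ} (hL : ∀ a ∈ L, a < m) (hR : ∀ a ∈ R, a < m)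
    (h : L ≠ []) : fst (L ++ m :: R) = fst L := by
  unfold fst
  rw [stackSort_split hL hR]
  obtain ⟨a, l, hl⟩ := List.exists_cons_of_ne_nil (stackSort_ne_nil' h)
  rw [hl]
  simp

theorem des_stackSort_single (m : ℕ) : des (stackSort [m]) = 0 := by
  rw [stackSort_single]; rfl

private theorem des_append' : ∀ (l r : List ℕ) (hl : l ≠ []) (hr : r ≠ []),
    des (l ++ r) = des l + des r + (if r.head hr < l.getLast hl then 1 else 0)
  | [], _, hl, _ => absurd rfl hl
  | [a], r, _, hr => by
    obtain ⟨b, r', rfl⟩ := List.exists_cons_of_ne_nil hr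
    show (if b < a then 1 else 0) + des (b :: r') =
      0 + des (b :: r') + (if b < a then 1 else 0)
    omega
  | a :: b :: l, r, _, hr => by
    have ih := des_append' (b :: l) r (by simp) hr
    show (if b < a then 1 else 0) + des ((b :: l) ++ r) = _
    rw [ih]
    have h1 : des (a :: b :: l) = (if b < a then 1 else 0) + des (b :: l) := rfl
    rw [h1, List.getLast_cons (by simp : (b :: l) ≠ [])]
    ring

theorem des_split {L R : List ℕ} {m : ℕ} (hL : ∀ a ∈ L, a < m) (hR : ∀ a ∈ R, a < m) :
    des (stackSort (L ++ m :: R)) = des (stackSort L) + des (stackSort R) +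
      (if L ≠ [] ∧ R ≠ [] ∧ fst R < maxEntry L then 1 else 0) := by
  rw [stackSort_split hL hR]
  -- removing the last letter
  have key : des (stackSort L ++ stackSort R ++ [m]) = des (stackSort L ++ stackSort R) := by
    by_cases h : stackSort L ++ stackSort R = []
    · rw [h]; rfl
    · rw [des_append' _ _ h (by simp : ([m] : List ℕ) ≠ [])]
      have h1 : (stackSort L ++ stackSort R).getLast h < m := by
        have h2 := List.getLast_mem h
        rw [List.mem_append] at h2
        rcases h2 with h2 | h2
        · exact hL _ ((stackSort_perm L).mem_iff.1 h2)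
        · exact hR _ ((stackSort_perm R).mem_iff.1 h2)
      have h3 : ¬ (([m] : List ℕ).head (by simp) <
          (stackSort L ++ stackSort R).getLast h) := by
        simp only [List.head_cons]
        omega
      rw [if_neg h3]
      simp [des]
  rw [key]
  by_cases hl : L = []
  · rw [hl, stackSort_nil]
    simp [des]
  by_cases hr : R = []
  · rw [hr, stackSort_nil]
    simp [des]
  have hl' := stackSort_ne_nil' hl
  have hr' := stackSort_ne_nil' hr
  rw [des_append' _ _ hl' hr']
  have h1 : (stackSort L).getLast hl' = maxEntry L := by
    have h2 := stackSort_getLast hl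
    rw [List.getLast?_eq_some_getLast hl'] at h2
    exact Option.some.inj h2
  have h2 : (stackSort R).head hr' = fst R := by
    unfold fst
    obtain ⟨a, l, hl⟩ := List.exists_cons_of_ne_nil hr'
    simp [hl]
  rw [h1, h2]
  have h3 : (L ≠ [] ∧ R ≠ [] ∧ fst R < maxEntry L) ↔ fst R < maxEntry L :=
    ⟨fun h => h.2.2, fun h => ⟨hl, hr, h⟩⟩
  simp only [h3]

/-- A sorted word is fixed by the stack-sorting map. -/
theorem stackSort_sorted {w : List ℕ} (h : w.Pairwise (· < ·)) : stackSort w = w := by
  induction w using List.reverseRecOn with
  | nil => exact stackSort_nil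
  | append_singleton l a ih =>
    rw [List.pairwise_append] at h
    have h1 := stackSort_split (L := l) (R := []) (m := a)
      (fun b hb => h.2.2 b hb a (by simp)) (by simp)
    rw [h1, ih h.1, stackSort_nil]
    simp

end RR
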